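import Pool.Agent.H29.LT.Mat

/-!
# LT: definitions for the exact formula for `f = a₀ + u a₁`, `u` a unitary `free` from `A`
-/

set_option linter.unusedSectionVars false

namespace LT

open scoped Matrix ComplexOrder

variable {𝔄 : Type*} [CStarAlgebra 𝔄] [PartialOrder 𝔄] [StarOrderedRing 𝔄]
variable {ι κ : Type*} [Fintype ι] [DecidableEq ι] [Fintype κ] [DecidableEq κ]

/-- A closed star subalgebra `A`, a unitary `u` and two subspaces `P` (think: elements supported on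
reduced words starting with `u`) and `M` (reduced words starting with `u⁻¹`); this is all we need
to know about `u` being a Haar unitary free from `A`. -/
structure UFree (τ : Tr 𝔄) where
  A : StarSubalgebra ℂ 𝔄
  closed : IsClosed (A : Set 𝔄)
  u : 𝔄
  u1 : star u * u = 1
  u2 : u * star u = 1
  P : Submodule ℂ 𝔄
  M : Submodule ℂ 𝔄
  uP1 : ∀ x ∈ A, u * x ∈ P
  uM1 : ∀ x ∈ A, star u * x ∈ M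
  uPP : ∀ x ∈ A, ∀ y ∈ P, u * x * y ∈ P
  uPM : ∀ x ∈ A, τ.f x = 0 → ∀ y ∈ M, u * x * y ∈ P
  uMM : ∀ x ∈ A, ∀ y ∈ M, star u * x * y ∈ M
  uMP : ∀ x ∈ A, τ.f x = 0 → ∀ y ∈ P, star u * x * y ∈ M
  factP : ∀ x ∈ A, ∀ x' ∈ A, ∀ y ∈ P, ∀ y' ∈ P,
    τ.f (x * y * star y' * star x') = τ.f (x * star x') * τ.f (y * star y')
  factM : ∀ x ∈ A, ∀ x' ∈ A, ∀ y ∈ M, ∀ y' ∈ M,
    τ.f (x * y * star y' * star x') = τ.f (x * star x') * τ.f (y * star y')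
  cross : ∀ x ∈ A, ∀ x' ∈ A, ∀ y ∈ P, ∀ y' ∈ M, τ.f (x * y * star y' * star x') = 0
  tr0P : ∀ y ∈ P, τ.f y = 0
  tr0M : ∀ y ∈ M, τ.f y = 0

/-- all entries of a matrix lie in a given set -/
def EntIn (S : Set 𝔄) (x : Matrix ι κ 𝔄) : Prop := ∀ i j, x i j ∈ S

/-- `Q(p,q) = η + a₀* p a₀ + a₁* q a₁` -/
noncomputable def Qm (a₀ a₁ : Matrix ι ι 𝔄) (η : ℝ) (p q : Matrix ι ι ℂ) : Matrix ι ι 𝔄 :=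
  eI 𝔄 ι η + a₀ᴴ * scal 𝔄 p * a₀ + a₁ᴴ * scal 𝔄 q * a₁

/-- `f = a₀ + u a₁` -/
def fm (u : 𝔄) (a₀ a₁ : Matrix ι ι 𝔄) : Matrix ι ι 𝔄 := a₀ + sc ι u * a₁

/-- A solution of the fixed point (cavity) equations:
`V₀ 𝔰 = 1 - λ₁`, `𝔰 V₁ = 1 - λ₀`, `𝔰 = λ₀ + λ₁ - λ₀ λ₁`,
`V_i = E (a_i R a_i*)`, `R = Q(λ₀,λ₁)⁻¹`, `δ ≤ λ_i ≤ 1 - δ`. -/
structure Sol (τ : Tr 𝔄) (a₀ a₁ : Matrix ι ι 𝔄) (η : ℝ) where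
  l₀ : Matrix ι ι ℂ
  l₁ : Matrix ι ι ℂ
  δ : ℝ
  δ_pos : 0 < δ
  lo₀ : (l₀ - (δ : ℂ) • (1 : Matrix ι ι ℂ)).PosSemidef
  lo₁ : (l₁ - (δ : ℂ) • (1 : Matrix ι ι ℂ)).PosSemidef
  hi₀ : (((1 - δ : ℝ) : ℂ) • (1 : Matrix ι ι ℂ) - l₀).PosSemidef
  hi₁ : (((1 - δ : ℝ) : ℂ) • (1 : Matrix ι ι ℂ) - l₁).PosSemidef
  R : Matrix ι ι 𝔄
  RQ : R * Qm a₀ a₁ η l₀ l₁ = 1
  QR : Qm a₀ a₁ η l₀ l₁ * R = 1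
  e₀ : E τ (a₀ * R * a₀ᴴ) * (l₀ + l₁ - l₀ * l₁) = 1 - l₁
  e₁ : (l₀ + l₁ - l₀ * l₁) * E τ (a₁ * R * a₁ᴴ) = 1 - l₀

namespace Sol

variable {τ : Tr 𝔄} {a₀ a₁ : Matrix ι ι 𝔄} {η : ℝ}

/-- `𝔰 = λ₀ + λ₁ - λ₀ λ₁` -/
def s (S : Sol τ a₀ a₁ η) : Matrix ι ι ℂ := S.l₀ + S.l₁ - S.l₀ * S.l₁

/-- `V₀ = E (a₀ R a₀*)` -/
noncomputable def V₀ (S : Sol τ a₀ a₁ η) : Matrix ι ι ℂ := E τ (a₀ * S.R * a₀ᴴ)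

/-- `V₁ = E (a₁ R a₁*)` -/
noncomputable def V₁ (S : Sol τ a₀ a₁ η) : Matrix ι ι ℂ := E τ (a₁ * S.R * a₁ᴴ)

/-- `n₀₀ = a₀ R a₀* - V₀` -/
noncomputable def n₀₀ (S : Sol τ a₀ a₁ η) : Matrix ι ι 𝔄 := a₀ * S.R * a₀ᴴ - scal 𝔄 S.V₀

/-- `n₀₁ = a₀ R a₁*` -/
noncomputable def n₀₁ (S : Sol τ a₀ a₁ η) : Matrix ι ι 𝔄 := a₀ * S.R * a₁ᴴ

/-- `n₁₀ = a₁ R a₀*` -/
noncomputable def n₁₀ (S : Sol τ a₀ a₁ η) : Matrix ι ι 𝔄 := a₁ * S.R * a₀ᴴ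

/-- `n₁₁ = a₁ R a₁* - V₁` -/
noncomputable def n₁₁ (S : Sol τ a₀ a₁ η) : Matrix ι ι 𝔄 := a₁ * S.R * a₁ᴴ - scal 𝔄 S.V₁

/-- `W = (0, u 𝔰; u* 𝔰*, 0)` -/
noncomputable def W (S : Sol τ a₀ a₁ η) (u : 𝔄) : Matrix (ι ⊕ ι) (ι ⊕ ι) 𝔄 :=
  Matrix.fromBlocks 0 (sc ι u * scal 𝔄 S.s) (sc ι (star u) * scal 𝔄 S.sᴴ) 0

/-- `X = W (n₀₀, n₀₁; n₁₀, n₁₁)` -/
noncomputable def X (S : Sol τ a₀ a₁ η) (u : 𝔄) : Matrix (ι ⊕ ι) (ι ⊕ ι) 𝔄 :=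
  S.W u * Matrix.fromBlocks S.n₀₀ S.n₀₁ S.n₁₀ S.n₁₁

end Sol

end LT
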