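import Pool.Agent.H29.LT.A03

/-!
# LT-A04: multiplicativity

`L_conj`: `X` invertible, `K` strictly positive.  Let `Y = CFC.sqrt K` and `Y_s = (1-s) + s Y`
(strictly positive for `s ∈ [0,1]`, and for `s` in a neighbourhood of `[0,1]`; if you want to avoid
the neighbourhood work with one-sided derivatives or extend the path by
`Y_s` with `s` replaced by the projection to `[0,1]`; or simply use the mean value theorem
`is_const_of_deriv_eq_zero`-style on the open interval together with continuity:
`constant_of_derivWithin_zero` / `constant_of_has_deriv_right_zero`).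
`h s = X Y_s² X*` is a smooth path of strictly positive elements with
`h' = X (Y' Y_s + Y_s Y') X*`, `Y' = Y - 1` commuting with `Y_s`; so
`h⁻¹ h' = X*⁻¹ Y_s⁻² X⁻¹ X (2 Y_s Y') X*`, and by the trace property
`τ (h⁻¹ h') = 2 τ (Y_s⁻¹ Y')`, which does not depend on `X`.  Hence
`L (X Y_s² X*) - L (Y_s²)` (the case `X = 1`) has zero derivative on `(0,1)` and is continuous on
`[0,1]`: its values at `s = 0`: `L (X X*) - L 1 = L (X X*)`, at `s = 1`: `L (X K X*) - L K`.

`L_unit_comm`: `L (x* x) = L (x x*)` for invertible `x`: both have the same moments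
(`tr_pow_comm`) and are strictly positive: for `ε → 0` use `L_star_mul_comm` and `continuousAt_L`
(or directly `L_series` with a common constant).

`D_mul`: `D (x y) = L (y* x* x y)/2 = (L (y* y) + L (x* x))/2` by `L_conj` (`X = y*`).

`D_inv`: `D x + D x⁻¹ = D 1 = 0`.  `D_unitary`: `u* u = 1`.
`D_smul`: `(c x)* (c x) = |c|² x* x`.
`D_eq_L`: for strictly positive `H`, `D H = L (H * H)/2 = L H` (`L_conj` with `X = K^{1/2}`... or
`CFC.log` of a square; e.g. `L_conj` with `X = CFC.sqrt H`, `K = H` gives
`L (√H H √H) = L H + L H`).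
`D_one_add_comm`: not here (LT-M03).
-/

set_option linter.unusedSectionVars false

namespace LT

variable {𝔄 : Type*} [CStarAlgebra 𝔄] [PartialOrder 𝔄] [StarOrderedRing 𝔄] (τ : Tr 𝔄)

private theorem a04_inv {X E F : 𝔄} (hX : IsUnit X) (h1 : E * F = 1) (h2 : F * E = 1) :
    Ring.inverse (X * E * star X) = Ring.inverse (star X) * F * Ring.inverse X := by
  have hX' : IsUnit (star X) := hX.star
  have e1 : Ring.inverse X * X = 1 := Ring.inverse_mul_cancel X hX
  have e2 : X * Ring.inverse X = 1 := Ring.mul_inverse_cancel X hX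
  have e3 : Ring.inverse (star X) * star X = 1 := Ring.inverse_mul_cancel _ hX'
  have e4 : star X * Ring.inverse (star X) = 1 := Ring.mul_inverse_cancel _ hX'
  have g1 : (X * E * star X) * (Ring.inverse (star X) * F * Ring.inverse X) = 1 := by
    calc (X * E * star X) * (Ring.inverse (star X) * F * Ring.inverse X)
        = X * E * (star X * Ring.inverse (star X)) * F * Ring.inverse X := by
          simp only [mul_assoc]
      _ = X * (E * F) * Ring.inverse X := by rw [e4, mul_one, mul_assoc X E F]
      _ = 1 := by rw [h1, mul_one, e2]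
  have g2 : (Ring.inverse (star X) * F * Ring.inverse X) * (X * E * star X) = 1 := by
    calc (Ring.inverse (star X) * F * Ring.inverse X) * (X * E * star X)
        = Ring.inverse (star X) * F * (Ring.inverse X * X) * E * star X := by
          simp only [mul_assoc]
      _ = Ring.inverse (star X) * (F * E) * star X := by
          rw [e1, mul_one, mul_assoc (Ring.inverse (star X)) F E]
      _ = 1 := by rw [h2, mul_one, e3]
  exact Ring.inverse_unit ⟨_, _, g1, g2⟩

theorem L_conj {X K : 𝔄} (hX : IsUnit X) (hK : IsStrictlyPositive K) :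
    L τ (X * K * star X) = L τ (X * star X) + L τ K := by
  obtain ⟨A, hA⟩ : ∃ A : 𝔄, A = CFC.log K := ⟨_, rfl⟩
  have hAsa : IsSelfAdjoint A := by rw [hA]; exact IsSelfAdjoint.log
  have hsA : ∀ s : ℝ, IsSelfAdjoint (s • A) := fun s => (IsSelfAdjoint.all s).smul hAsa
  have hEsa : ∀ s : ℝ, IsSelfAdjoint (NormedSpace.exp (s • A)) := fun s =>
    (IsSelfAdjoint.exp_nonneg (hsA s)).isSelfAdjoint
  let _ : NormedAlgebra ℚ 𝔄 := NormedAlgebra.restrictScalars ℚ ℝ 𝔄
  have hmul : ∀ s : ℝ, NormedSpace.exp (s • A) * NormedSpace.exp (-(s • A)) = 1 := by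
    intro s
    rw [← NormedSpace.exp_add_of_commute (Commute.neg_right (Commute.refl (s • A))),
      add_neg_cancel, NormedSpace.exp_zero]
  have hmul' : ∀ s : ℝ, NormedSpace.exp (-(s • A)) * NormedSpace.exp (s • A) = 1 := by
    intro s
    rw [← NormedSpace.exp_add_of_commute (Commute.neg_left (Commute.refl (s • A))),
      neg_add_cancel, NormedSpace.exp_zero]
  have hEu : ∀ s : ℝ, IsUnit (NormedSpace.exp (s • A)) := fun s =>
    ⟨⟨_, _, hmul s, hmul' s⟩, rfl⟩
  have hEpos : ∀ s : ℝ, IsStrictlyPositive (NormedSpace.exp (s • A)) := fun s =>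
    (hEu s).isStrictlyPositive (IsSelfAdjoint.exp_nonneg (hsA s))
  have hder : ∀ t : ℝ, HasDerivAt
      (fun s : ℝ => L τ (X * NormedSpace.exp (s • A) * star X)) (L τ K) t := by
    intro t
    have h1 : HasDerivAt (fun s : ℝ => X * NormedSpace.exp (s • A) * star X)
        (X * (NormedSpace.exp (t • A) * A) * star X) t :=
      ((hasDerivAt_exp_smul_const A t).const_mul X).mul_const (star X)
    have h2 := hasDerivAt_L τ (fun s => by
      show IsSelfAdjoint (X * NormedSpace.exp (s • A) * star X)
      exact (hEsa s).conjugate X)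
      ((hX.isStrictlyPositive_star_right_conjugate_iff).2 (hEpos t)) h1
    have h3 : (τ.f (Ring.inverse (X * NormedSpace.exp (t • A) * star X) *
        (X * (NormedSpace.exp (t • A) * A) * star X))).re = L τ K := by
      rw [a04_inv hX (hmul t) (hmul' t)]
      have e1 : Ring.inverse X * X = 1 := Ring.inverse_mul_cancel X hX
      have e4 : star X * Ring.inverse (star X) = 1 := Ring.mul_inverse_cancel _ hX.star
      have e5 : Ring.inverse (star X) * NormedSpace.exp (-(t • A)) * Ring.inverse X *
          (X * (NormedSpace.exp (t • A) * A) * star X) = Ring.inverse (star X) * (A * star X) := by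
        calc Ring.inverse (star X) * NormedSpace.exp (-(t • A)) * Ring.inverse X *
            (X * (NormedSpace.exp (t • A) * A) * star X)
            = Ring.inverse (star X) * NormedSpace.exp (-(t • A)) * (Ring.inverse X * X) *
              NormedSpace.exp (t • A) * A * star X := by simp only [mul_assoc]
          _ = Ring.inverse (star X) * (NormedSpace.exp (-(t • A)) * NormedSpace.exp (t • A)) *
              A * star X := by
              rw [e1, mul_one, mul_assoc (Ring.inverse (star X))]
          _ = Ring.inverse (star X) * (A * star X) := by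
              rw [hmul' t, mul_one, mul_assoc]
      rw [e5, τ.comm, mul_assoc, e4, mul_one, hA]
      rfl
    rw [h3] at h2
    exact h2
  have hconst : ∀ a b : ℝ, L τ (X * NormedSpace.exp (a • A) * star X) - a * L τ K =
      L τ (X * NormedSpace.exp (b • A) * star X) - b * L τ K := by
    have hd : ∀ t : ℝ, HasDerivAt
        (fun s : ℝ => L τ (X * NormedSpace.exp (s • A) * star X) - s * L τ K) 0 t := by
      intro t
      have h1 := (hder t).sub ((hasDerivAt_id t).mul_const (L τ K))
      rw [one_mul, sub_self] at h1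
      exact h1
    exact is_const_of_deriv_eq_zero (fun t => (hd t).differentiableAt) (fun t => (hd t).deriv)
  have h := hconst 1 0
  rw [one_smul, zero_smul, NormedSpace.exp_zero, mul_one, hA, CFC.exp_log K hK] at h
  linarith

private theorem a04_pos {x : 𝔄} (hx : IsUnit x) : IsStrictlyPositive (star x * x) :=
  (hx.star.mul hx).isStrictlyPositive (star_mul_self_nonneg x)

private theorem a04_pos' {x : 𝔄} (hx : IsUnit x) : IsStrictlyPositive (x * star x) :=
  (hx.mul hx.star).isStrictlyPositive (mul_star_self_nonneg x)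

private theorem a04_cont {H : 𝔄} (hH : IsStrictlyPositive H) :
    Filter.Tendsto (fun ε : ℝ => L τ (H + algebraMap ℝ 𝔄 ε)) (nhdsWithin 0 (Set.Ioi 0))
      (nhds (L τ H)) := by
  have hc : Continuous (fun ε : ℝ => H + algebraMap ℝ 𝔄 ε) :=
    continuous_const.add (continuous_algebraMap ℝ 𝔄)
  have h0 : H + algebraMap ℝ 𝔄 0 = H := by rw [map_zero, add_zero]
  have h1 := continuousAt_L τ (h := fun ε : ℝ => H + algebraMap ℝ 𝔄 ε) (t := 0)
    (fun s => hH.isSelfAdjoint.add (IsSelfAdjoint.algebraMap 𝔄 (.all s)))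
    (by
      show IsStrictlyPositive (H + algebraMap ℝ 𝔄 0)
      rw [h0]
      exact hH) hc.continuousAt
  have h2 : Filter.Tendsto (fun ε : ℝ => L τ (H + algebraMap ℝ 𝔄 ε)) (nhds 0)
      (nhds (L τ (H + algebraMap ℝ 𝔄 0))) := h1
  rw [h0] at h2
  exact h2.mono_left nhdsWithin_le_nhds

theorem L_unit_comm {x : 𝔄} (hx : IsUnit x) : L τ (star x * x) = L τ (x * star x) := by
  have h1 := a04_cont τ (a04_pos hx)
  have h2 := a04_cont τ (a04_pos' hx)
  refine tendsto_nhds_unique h1 (h2.congr' ?_)
  filter_upwards [self_mem_nhdsWithin] with ε hε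
  exact (L_star_mul_comm τ x hε).symm

theorem L_conj' {X K : 𝔄} (hX : IsUnit X) (hK : IsStrictlyPositive K) :
    L τ (star X * K * X) = L τ (star X * X) + L τ K := by
  have h := L_conj τ hX.star hK
  rw [star_star] at h
  exact h

theorem D_one : D τ (1 : 𝔄) = 0 := by
  unfold D
  rw [star_one, one_mul, L_one, zero_div]

theorem D_mul {x y : 𝔄} (hx : IsUnit x) (hy : IsUnit y) : D τ (x * y) = D τ x + D τ y := by
  have h1 : star (x * y) * (x * y) = star y * (star x * x) * y := by
    rw [star_mul]
    simp only [mul_assoc]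
  unfold D
  rw [h1, L_conj' τ hy (a04_pos hx)]
  ring

theorem D_star {x : 𝔄} (hx : IsUnit x) : D τ (star x) = D τ x := by
  unfold D
  rw [star_star, L_unit_comm τ hx]

theorem D_inverse {x : 𝔄} (hx : IsUnit x) : D τ (Ring.inverse x) = - D τ x := by
  have h1 := D_mul τ hx (hx.ringInverse)
  rw [Ring.mul_inverse_cancel x hx, D_one] at h1
  linarith

theorem D_unitary {x : 𝔄} (hx : star x * x = 1) : D τ x = 0 := by
  unfold D
  rw [hx, L_one, zero_div]

theorem D_smul {x : 𝔄} (hx : IsUnit x) {c : ℂ} (hc : c ≠ 0) :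
    D τ (c • x) = τ.mass * Real.log ‖c‖ + D τ x := by
  have h1 : star (c • x) * (c • x) = (‖c‖ ^ 2 : ℝ) • (star x * x) := by
    rw [star_smul, smul_mul_assoc, mul_smul_comm, smul_smul, Complex.star_def,
      ← Complex.normSq_eq_conj_mul_self, Complex.normSq_eq_norm_sq, Complex.coe_smul]
  have hc0 : 0 < ‖c‖ := norm_pos_iff.2 hc
  unfold D
  rw [h1, L_smul τ (a04_pos hx) (by positivity), Real.log_pow]
  push_cast
  ring

theorem D_neg {x : 𝔄} : D τ (-x) = D τ x := by
  unfold D
  rw [star_neg, neg_mul_neg]

theorem D_eq_L {H : 𝔄} (hH : IsStrictlyPositive H) : D τ H = L τ H := by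
  unfold D L
  have h1 : star H * H = H ^ 2 := by rw [hH.isSelfAdjoint.star_eq, sq]
  rw [h1, CFC.log_pow' 2 H hH, map_nsmul, two_nsmul, Complex.add_re]
  ring

/-- an invertible `x` and its unitary conjugate -/
theorem D_conj_unitary {x u : 𝔄} (hu : u * star u = 1) (hu' : star u * u = 1) :
    D τ (u * x * star u) = D τ x := by
  have hmem : u ∈ unitary 𝔄 := Unitary.mem_iff.2 ⟨hu', hu⟩
  have h1 : star (u * x * star u) * (u * x * star u) = u * (star x * x) * star u := by
    rw [star_mul, star_mul, star_star]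
    calc u * (star x * star u) * (u * x * star u)
        = u * star x * (star u * u) * x * star u := by simp only [mul_assoc]
      _ = u * (star x * x) * star u := by rw [hu', mul_one]; simp only [mul_assoc]
  have h2 : CFC.log (u * (star x * x) * star u) = u * CFC.log (star x * x) * star u := by
    obtain ⟨φ, hφ⟩ : ∃ φ : 𝔄 ≃⋆ₐ[ℝ] 𝔄, φ = Unitary.conjStarAlgAut ℝ 𝔄 ⟨u, hmem⟩ := ⟨_, rfl⟩
    have hφa : ∀ y, φ y = u * y * star u := by
      intro y
      rw [hφ]
      rfl
    have hsa : IsSelfAdjoint (star x * x) := IsSelfAdjoint.star_mul_self x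
    have hsp : spectrum ℝ (φ (star x * x)) = spectrum ℝ (star x * x) :=
      AlgEquiv.spectrum_eq φ (star x * x)
    rw [← hφa, ← hφa]
    unfold CFC.log
    by_cases hc : ContinuousOn Real.log (spectrum ℝ (star x * x))
    · have hφc : Continuous φ := by
        have : (φ : 𝔄 → 𝔄) = fun y => u * y * star u := funext hφa
        rw [this]
        fun_prop
      exact (StarAlgHomClass.map_cfc (R := ℝ) (S := ℝ) φ Real.log (star x * x) hc hφc hsa
        (hsa.map φ)).symm
    · rw [cfc_apply_of_not_continuousOn _ hc, map_zero, cfc_apply_of_not_continuousOn]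
      rw [hsp]
      exact hc
  unfold D L
  rw [h1, h2, τ.comm, ← mul_assoc, hu', one_mul]

/-- the product of two strictly positive elements: `L (H^{1/2} K H^{1/2}) = L H + L K` -/
theorem L_sqrt_conj {H K : 𝔄} (hH : IsStrictlyPositive H) (hK : IsStrictlyPositive K) :
    L τ (CFC.sqrt H * K * CFC.sqrt H) = L τ H + L τ K := by
  have hs : IsSelfAdjoint (CFC.sqrt H) := (CFC.sqrt_nonneg H).isSelfAdjoint
  have hsq : CFC.sqrt H * CFC.sqrt H = H := CFC.sqrt_mul_sqrt_self H hH.nonneg
  have hu : IsUnit (CFC.sqrt H) := by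
    have h1 : IsUnit (CFC.sqrt H * CFC.sqrt H) := by rw [hsq]; exact hH.isUnit
    exact (Commute.isUnit_mul_iff (Commute.refl _)).1 h1 |>.1
  have h := L_conj τ hu hK
  rw [hs.star_eq, hsq] at h
  exact h

end LT
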