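import Pool.Agent.H29.LT.Mat
import Pool.Agent.H29.LT.A04

/-!
# LT-M02: `D` of matrices over `𝔄`

Direct transfers (`DM_mul`, `DM_one`, `DM_conjTranspose`, `DM_inv`, `DM_neg`, `DM_isometry`) of the
lemmas of LT-A04 for the C*-algebra `CStarMatrix ι ι 𝔄` with the trace `τ.mat ι`.

* `LM_fromBlocks_diag`: let `ε ≤ H, K ≤ c` (a common `ε > 0` and `c`); then
  `ε ≤ fromBlocks H 0 0 K ≤ c` (`H - ε = yᴴ y`, `K - ε = zᴴ z` give
  `fromBlocks (H-ε) 0 0 (K-ε) = (fromBlocks y 0 0 z)ᴴ (fromBlocks y 0 0 z)`), the powers of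
  `1 - c⁻¹ (fromBlocks H 0 0 K)` are block diagonal and the trace is additive; compare the series
  `L_series` (uniqueness of sums).
* `DM_fromBlocks_diag` follows (`(fromBlocks x 0 0 y)ᴴ (fromBlocks x 0 0 y)
  = fromBlocks (xᴴ x) 0 0 (yᴴ y)`).
* `DM_unip₁₂`: `e = fromBlocks 1 b 0 1`, `u = fromBlocks 1 0 0 (-1)` (unitary):
  `u e uᴴ = fromBlocks 1 (-b) 0 1 = e⁻¹`, so `DM e = DM (e⁻¹) = - DM e` (`D_conj_unitary`,
  `D_inverse`).  Same for `DM_unip₂₁`.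
* `DM_tri₁₂`: `fromBlocks x b 0 y = fromBlocks 1 0 0 y * fromBlocks 1 (b) 0 1 * fromBlocks x 0 0 1`?
  (choose any correct factorisation: `fromBlocks x b 0 y = fromBlocks 1 0 0 y *
  fromBlocks 1 b 0 1 * fromBlocks x 0 0 1`.)
* `DM_reindex`: `CStarMatrix.reindexₐ` is a trace preserving star isomorphism (`L_map`).
* `DM_sc`: `sc ι a = Σ`-diagonal; induction or: `sc (Fin n)`... simplest: for a strictly positive
  `H`, `LM (sc ι H) = card ι * L H` by `L_series` (powers of a scalar matrix are scalar), then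
  `(sc ι a)ᴴ (sc ι a) = sc ι (a* a)`.
* `DM_scal`: `Z ↦ DM (scal Z)` is a homomorphism `GL → ℝ`.  A transvection `1 + c e_ij` (`i ≠ j`) is
  conjugated into its inverse by the diagonal unitary with entry `-1` at `i`, so `D = 0` on
  transvections.  For a diagonal matrix `diag(d)`: product of the matrices
  `diag(1,..,d_i,..,1)`; by permutation matrices (unitary) the value `v(d_i)` does not depend on
  the position, and `card ι * v(d) = DM (d • 1) = card ι * mass * log |d|` (`D_smul`), so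
  `v(d) = mass * log |d|`.  Then `Matrix.Pivot`
  (`Matrix.diagonal_transvection_induction_of_det_ne_zero`).
-/

set_option linter.unusedSectionVars false

namespace LT

open scoped Matrix ComplexOrder

variable {𝔄 : Type*} [CStarAlgebra 𝔄] [PartialOrder 𝔄] [StarOrderedRing 𝔄] (τ : Tr 𝔄)
variable {ι κ : Type*} [Fintype ι] [DecidableEq ι] [Fintype κ] [DecidableEq κ]

/-! ### helpers -/

theorem M2_unit {x : Matrix ι ι 𝔄} (hx : IsUnit x) : IsUnit (toC x) := by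
  obtain ⟨u, rfl⟩ := hx
  refine ⟨⟨toC (u : Matrix ι ι 𝔄), toC (↑u⁻¹ : Matrix ι ι 𝔄), ?_, ?_⟩, rfl⟩
  · rw [← toC_mul, Units.mul_inv, toC_one]
  · rw [← toC_mul, Units.inv_mul, toC_one]

theorem M2_unit' {x y : Matrix ι ι 𝔄} (h : x * y = 1) (h' : y * x = 1) : IsUnit x :=
  ⟨⟨x, y, h, h'⟩, rfl⟩

open scoped CStarAlgebra in
/-- pull back of a trace -/
noncomputable def M2pull {𝔄 𝔅 : Type*} [CStarAlgebra 𝔄] [CStarAlgebra 𝔅] (τ' : Tr 𝔅)
    (φ : 𝔄 →⋆ₐ[ℂ] 𝔅) : Tr 𝔄 where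
  f :=
    { toFun := fun x => τ'.f (φ x)
      map_add' := fun x y => by rw [map_add, map_add]
      map_smul' := fun c x => by rw [map_smul, map_smul, RingHom.id_apply]
      cont := τ'.f.continuous.comp (map_continuous φ) }
  comm := fun x y => by
    change τ'.f (φ (x * y)) = τ'.f (φ (y * x))
    rw [map_mul φ, map_mul φ, τ'.comm]
  star_map := fun x => by
    change τ'.f (φ (star x)) = star (τ'.f (φ x))
    rw [map_star φ, τ'.star_map]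
  nonneg := fun x => by
    change 0 ≤ (τ'.f (φ (star x * x))).re
    rw [map_mul φ, map_star φ]
    exact τ'.nonneg _

theorem M2pull_apply {𝔄 𝔅 : Type*} [CStarAlgebra 𝔄] [CStarAlgebra 𝔅] (τ' : Tr 𝔅)
    (φ : 𝔄 →⋆ₐ[ℂ] 𝔅) (x : 𝔄) : (M2pull τ' φ).f x = τ'.f (φ x) := rfl

theorem M2_L {𝔄 𝔅 : Type*} [CStarAlgebra 𝔄] [PartialOrder 𝔄] [StarOrderedRing 𝔄] [CStarAlgebra 𝔅]
    (τ' : Tr 𝔅) (φ : 𝔄 →⋆ₐ[ℂ] 𝔅) {H : 𝔄} (hH : IsStrictlyPositive H) :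
    L τ' (φ H) = L (M2pull τ' φ) H :=
  L_map (M2pull τ' φ) τ' φ (fun x => (M2pull_apply τ' φ x).symm) hH

theorem M2_spos {𝔄 : Type*} [CStarAlgebra 𝔄] [PartialOrder 𝔄] [StarOrderedRing 𝔄] {x : 𝔄}
    (hx : IsUnit x) : IsStrictlyPositive (star x * x) :=
  ⟨star_mul_self_nonneg x, hx.star.mul hx⟩

theorem M2_D {𝔄 𝔅 : Type*} [CStarAlgebra 𝔄] [PartialOrder 𝔄] [StarOrderedRing 𝔄] [CStarAlgebra 𝔅]
    (τ' : Tr 𝔅) (φ : 𝔄 →⋆ₐ[ℂ] 𝔅) {x : 𝔄} (hx : IsUnit x) :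
    D τ' (φ x) = D (M2pull τ' φ) x := by
  unfold D
  rw [← M2_L τ' φ (M2_spos hx), map_mul, map_star]

theorem M2_D_map {𝔄 𝔅 : Type*} [CStarAlgebra 𝔄] [PartialOrder 𝔄] [StarOrderedRing 𝔄]
    [CStarAlgebra 𝔅] (τ : Tr 𝔄) (τ' : Tr 𝔅) (φ : 𝔄 →⋆ₐ[ℂ] 𝔅) (h : ∀ x, τ'.f (φ x) = τ.f x) {x : 𝔄}
    (hx : IsUnit x) : D τ' (φ x) = D τ x := by
  unfold D
  rw [← L_map τ τ' φ h (M2_spos hx), map_mul, map_star]

theorem M2_map_spos {𝔄 𝔅 : Type*} [CStarAlgebra 𝔄] [PartialOrder 𝔄] [StarOrderedRing 𝔄]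
    [CStarAlgebra 𝔅] [PartialOrder 𝔅] [StarOrderedRing 𝔅] (φ : 𝔄 →⋆ₐ[ℂ] 𝔅) {x : 𝔄}
    (hx : IsStrictlyPositive x) : IsStrictlyPositive (φ x) :=
  ⟨map_nonneg φ hx.1, hx.2.map φ⟩

/-- forget the norm -/
def M2o {ι κ 𝔄 : Type*} (x : CStarMatrix ι κ 𝔄) : Matrix ι κ 𝔄 := CStarMatrix.ofMatrix.symm x

/-- block diagonal matrices -/
noncomputable def M2blk (𝔄 : Type*) [CStarAlgebra 𝔄] [PartialOrder 𝔄] [StarOrderedRing 𝔄] (ι κ : Type*) [Fintype ι] [DecidableEq ι]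
    [Fintype κ] [DecidableEq κ] :
    (CStarMatrix ι ι 𝔄 × CStarMatrix κ κ 𝔄) →⋆ₐ[ℂ] CStarMatrix (ι ⊕ κ) (ι ⊕ κ) 𝔄 where
  toFun p := toC (Matrix.fromBlocks (M2o p.1) 0 0 (M2o p.2))
  map_one' := by
    change toC (Matrix.fromBlocks (1 : Matrix ι ι 𝔄) 0 0 (1 : Matrix κ κ 𝔄)) = 1
    rw [Matrix.fromBlocks_one, toC_one]
  map_mul' p q := by
    change toC (Matrix.fromBlocks (M2o p.1 * M2o q.1) 0 0 (M2o p.2 * M2o q.2)) = _
    rw [← toC_mul, Matrix.fromBlocks_multiply]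
    congr 2 <;> simp
  map_zero' := by
    change toC (Matrix.fromBlocks (0 : Matrix ι ι 𝔄) 0 0 (0 : Matrix κ κ 𝔄)) = 0
    rw [Matrix.fromBlocks_zero, toC_zero]
  map_add' p q := by
    change toC (Matrix.fromBlocks (M2o p.1 + M2o q.1) 0 0 (M2o p.2 + M2o q.2)) = _
    rw [← toC_add, Matrix.fromBlocks_add]
    congr 2 <;> simp
  commutes' r := by
    change toC (Matrix.fromBlocks (algebraMap ℂ (Matrix ι ι 𝔄) r) 0 0
      (algebraMap ℂ (Matrix κ κ 𝔄) r)) = toC (algebraMap ℂ (Matrix (ι ⊕ κ) (ι ⊕ κ) 𝔄) r)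
    congr 1
    ext i j
    rcases i with i | i <;> rcases j with j | j <;>
      simp [Matrix.algebraMap_matrix_apply]
  map_star' p := by
    change toC (Matrix.fromBlocks (M2o p.1).conjTranspose 0 0 (M2o p.2).conjTranspose) = _
    rw [← toC_star, Matrix.fromBlocks_conjTranspose]
    congr 2 <;> simp

theorem M2blk_apply (x : Matrix ι ι 𝔄) (y : Matrix κ κ 𝔄) :
    M2blk 𝔄 ι κ (toC x, toC y) = toC (Matrix.fromBlocks x 0 0 y) := rfl

theorem M2blk_tr (p : CStarMatrix ι ι 𝔄 × CStarMatrix κ κ 𝔄) :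
    (τ.mat (ι ⊕ κ)).f (M2blk 𝔄 ι κ p) = (τ.mat ι).f p.1 + (τ.mat κ).f p.2 := by
  rw [Tr.mat_apply, Tr.mat_apply, Tr.mat_apply, Fintype.sum_sum_type]
  rfl

theorem M2blk_L {H : CStarMatrix ι ι 𝔄} {K : CStarMatrix κ κ 𝔄} (hH : IsStrictlyPositive H)
    (hK : IsStrictlyPositive K) :
    L (τ.mat (ι ⊕ κ)) (M2blk 𝔄 ι κ (H, K)) = L (τ.mat ι) H + L (τ.mat κ) K := by
  have hHK : IsStrictlyPositive ((H, K) : CStarMatrix ι ι 𝔄 × CStarMatrix κ κ 𝔄) :=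
    ⟨⟨hH.1, hK.1⟩, Prod.isUnit_iff.2 ⟨hH.2, hK.2⟩⟩
  have h1 : L (τ.mat ι) H =
      L (M2pull (τ.mat ι) (StarAlgHom.fst ℂ (CStarMatrix ι ι 𝔄) (CStarMatrix κ κ 𝔄))) (H, K) :=
    M2_L (τ.mat ι) (StarAlgHom.fst ℂ (CStarMatrix ι ι 𝔄) (CStarMatrix κ κ 𝔄)) hHK
  have h2 : L (τ.mat κ) K =
      L (M2pull (τ.mat κ) (StarAlgHom.snd ℂ (CStarMatrix ι ι 𝔄) (CStarMatrix κ κ 𝔄))) (H, K) :=
    M2_L (τ.mat κ) (StarAlgHom.snd ℂ (CStarMatrix ι ι 𝔄) (CStarMatrix κ κ 𝔄)) hHK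
  rw [M2_L _ _ hHK, h1, h2]
  unfold L
  rw [← Complex.add_re, M2pull_apply, M2pull_apply, M2pull_apply, M2blk_tr]
  rfl

/-- diagonal matrices -/
noncomputable def M2diag (𝔄 : Type*) [CStarAlgebra 𝔄] [PartialOrder 𝔄] [StarOrderedRing 𝔄] (ι : Type*) [Fintype ι] [DecidableEq ι] :
    (ι → 𝔄) →⋆ₐ[ℂ] CStarMatrix ι ι 𝔄 where
  toFun x := toC (Matrix.diagonal x)
  map_one' := by
    change toC (Matrix.diagonal (1 : ι → 𝔄)) = 1
    rw [Matrix.diagonal_one', toC_one]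
  map_mul' x y := by
    rw [← toC_mul, Matrix.diagonal_mul_diagonal]
    rfl
  map_zero' := by
    change toC (Matrix.diagonal (0 : ι → 𝔄)) = 0
    rw [Matrix.diagonal_zero', toC_zero]
  map_add' x y := by
    rw [← toC_add, Matrix.diagonal_add]
    rfl
  commutes' r := by
    change toC (Matrix.diagonal fun _ => algebraMap ℂ 𝔄 r) =
      toC (algebraMap ℂ (Matrix ι ι 𝔄) r)
    congr 1
  map_star' x := by
    rw [← toC_star, Matrix.diagonal_conjTranspose]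

theorem M2diag_apply (x : ι → 𝔄) : M2diag 𝔄 ι x = toC (Matrix.diagonal x) := rfl

theorem M2diag_tr (x : ι → 𝔄) : (τ.mat ι).f (M2diag 𝔄 ι x) = ∑ i, τ.f (x i) := by
  rw [Tr.mat_apply]
  refine Finset.sum_congr rfl fun i _ => ?_
  change τ.f (Matrix.diagonal x i i) = _
  rw [Matrix.diagonal_apply_eq]

theorem M2diag_L {x : ι → 𝔄} (hx : ∀ i, IsStrictlyPositive (x i)) :
    L (τ.mat ι) (M2diag 𝔄 ι x) = ∑ i, L τ (x i) := by
  have hx' : IsStrictlyPositive x := ⟨fun i => (hx i).1, Pi.isUnit_iff.2 fun i => (hx i).2⟩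
  have h1 : ∀ i, L τ (x i) = L (M2pull τ (Pi.evalStarAlgHom ℂ (fun _ : ι => 𝔄) i)) x := fun i =>
    M2_L τ (Pi.evalStarAlgHom ℂ (fun _ : ι => 𝔄) i) hx'
  rw [M2_L _ _ hx', Finset.sum_congr rfl fun i _ => h1 i]
  unfold L
  rw [← Complex.re_sum, M2pull_apply, M2diag_tr]
  rfl

theorem M2_conj (x u : Matrix ι ι 𝔄) (hu : uᴴ = u) (hu' : u * u = 1) :
    DM τ (u * x * u) = DM τ x := by
  unfold DM
  have h1 : star (toC u) = toC u := by rw [← toC_star, hu]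
  have h2 : toC u * toC u = 1 := by rw [← toC_mul, hu', toC_one]
  rw [toC_mul, toC_mul]
  have h := D_conj_unitary (τ.mat ι) (x := toC x) (u := toC u) (by rw [h1, h2]) (by rw [h1, h2])
  rw [h1] at h
  exact h

/-- the sign matrix -/
def M2_sign {𝔄 : Type*} [CStarAlgebra 𝔄] {ι κ : Type*} [DecidableEq ι] [DecidableEq κ] :
    Matrix (ι ⊕ κ) (ι ⊕ κ) 𝔄 := Matrix.fromBlocks 1 0 0 (-1)

theorem M2_sign_star : (M2_sign (𝔄 := 𝔄) (ι := ι) (κ := κ))ᴴ = M2_sign := by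
  unfold M2_sign
  rw [Matrix.fromBlocks_conjTranspose]
  congr 1 <;> simp

theorem M2_sign_mul : M2_sign (𝔄 := 𝔄) (ι := ι) (κ := κ) * M2_sign = 1 := by
  unfold M2_sign
  rw [Matrix.fromBlocks_multiply, ← Matrix.fromBlocks_one]
  congr 1 <;> simp

theorem M2_blk_unit {x : Matrix ι ι 𝔄} {y : Matrix κ κ 𝔄} (hx : IsUnit x) (hy : IsUnit y) :
    IsUnit (Matrix.fromBlocks x 0 0 y) := by
  obtain ⟨u, rfl⟩ := hx
  obtain ⟨v, rfl⟩ := hy
  refine M2_unit' (y := Matrix.fromBlocks (↑u⁻¹ : Matrix ι ι 𝔄) 0 0 (↑v⁻¹ : Matrix κ κ 𝔄)) ?_ ?_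
  · rw [Matrix.fromBlocks_multiply, ← Matrix.fromBlocks_one]
    congr 1 <;> simp
  · rw [Matrix.fromBlocks_multiply, ← Matrix.fromBlocks_one]
    congr 1 <;> simp

theorem M2_e12 (b : Matrix ι κ 𝔄) : Matrix.fromBlocks (1 : Matrix ι ι 𝔄) b 0 (1 : Matrix κ κ 𝔄) *
    Matrix.fromBlocks (1 : Matrix ι ι 𝔄) (-b) 0 (1 : Matrix κ κ 𝔄) = 1 := by
  rw [Matrix.fromBlocks_multiply, ← Matrix.fromBlocks_one]
  congr 1 <;> simp

theorem M2_e21 (c : Matrix κ ι 𝔄) : Matrix.fromBlocks (1 : Matrix ι ι 𝔄) 0 c (1 : Matrix κ κ 𝔄) *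
    Matrix.fromBlocks (1 : Matrix ι ι 𝔄) 0 (-c) (1 : Matrix κ κ 𝔄) = 1 := by
  rw [Matrix.fromBlocks_multiply, ← Matrix.fromBlocks_one]
  congr 1 <;> simp

theorem M2_e12' (b : Matrix ι κ 𝔄) : Matrix.fromBlocks (1 : Matrix ι ι 𝔄) (-b) 0
    (1 : Matrix κ κ 𝔄) * Matrix.fromBlocks (1 : Matrix ι ι 𝔄) b 0 (1 : Matrix κ κ 𝔄) = 1 := by
  have h := M2_e12 (𝔄 := 𝔄) (-b)
  rwa [neg_neg] at h

theorem M2_e21' (c : Matrix κ ι 𝔄) : Matrix.fromBlocks (1 : Matrix ι ι 𝔄) 0 (-c)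
    (1 : Matrix κ κ 𝔄) * Matrix.fromBlocks (1 : Matrix ι ι 𝔄) 0 c (1 : Matrix κ κ 𝔄) = 1 := by
  have h := M2_e21 (𝔄 := 𝔄) (-c)
  rwa [neg_neg] at h

theorem M2diag_D {x : ι → 𝔄} (hx : ∀ i, IsUnit (x i)) :
    DM τ (Matrix.diagonal x) = ∑ i, D τ (x i) := by
  have h := M2diag_L τ (x := star x * x) (fun i => M2_spos (hx i))
  unfold DM D
  rw [← M2diag_apply, ← map_star, ← map_mul, h, Finset.sum_div]
  rfl

/-- reindexing -/
noncomputable def M2re (𝔄 : Type*) [CStarAlgebra 𝔄] [PartialOrder 𝔄] [StarOrderedRing 𝔄]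
    {ι κ : Type*} [Fintype ι] [DecidableEq ι] [Fintype κ] [DecidableEq κ] (e : ι ≃ κ) :
    CStarMatrix ι ι 𝔄 →⋆ₐ[ℂ] CStarMatrix κ κ 𝔄 where
  toFun x := toC (Matrix.reindex e e (M2o x))
  map_one' := by
    change toC (Matrix.reindex e e (1 : Matrix ι ι 𝔄)) = toC 1
    congr 1
    rw [Matrix.reindex_apply, Matrix.submatrix_one_equiv]
  map_mul' x y := by
    change toC (Matrix.reindex e e (M2o x * M2o y)) = toC (_ * _)
    congr 1
    exact (Matrix.submatrix_mul_equiv (M2o x) (M2o y) e.symm e.symm e.symm).symm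
  map_zero' := rfl
  map_add' _ _ := rfl
  commutes' r := by
    change toC (Matrix.reindex e e (algebraMap ℂ (Matrix ι ι 𝔄) r)) =
      toC (algebraMap ℂ (Matrix κ κ 𝔄) r)
    congr 1
    ext i j
    simp [Matrix.algebraMap_matrix_apply]
  map_star' _ := rfl

theorem M2re_tr (e : ι ≃ κ) (x : CStarMatrix ι ι 𝔄) :
    (τ.mat κ).f (M2re 𝔄 e x) = (τ.mat ι).f x := by
  rw [Tr.mat_apply, Tr.mat_apply]
  exact Equiv.sum_comp e.symm fun i => τ.f (x i i)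

theorem M2_scal_mul (A B : Matrix ι ι ℂ) : scal 𝔄 (A * B) = scal 𝔄 A * scal 𝔄 B :=
  Matrix.map_mul

theorem M2_scal_one : scal 𝔄 (1 : Matrix ι ι ℂ) = 1 := by
  unfold scal
  exact Matrix.map_one _ (map_zero _) (map_one _)

theorem M2_scal_star (A : Matrix ι ι ℂ) : (scal 𝔄 A)ᴴ = scal 𝔄 Aᴴ := by
  unfold scal
  ext i j
  simp only [Matrix.conjTranspose_apply, Matrix.map_apply]
  exact (algebraMap_star_comm (A j i)).symm

theorem M2_scal_unit {Z : Matrix ι ι ℂ} (hZ : Z.det ≠ 0) : IsUnit (scal 𝔄 Z) := by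
  have h : IsUnit Z.det := isUnit_iff_ne_zero.2 hZ
  refine M2_unit' (y := scal 𝔄 Z⁻¹) ?_ ?_
  · rw [← M2_scal_mul, Matrix.mul_nonsing_inv _ h, M2_scal_one]
  · rw [← M2_scal_mul, Matrix.nonsing_inv_mul _ h, M2_scal_one]

theorem M2_algMap {c : ℂ} (hc : c ≠ 0) :
    D τ (algebraMap ℂ 𝔄 c) = τ.mass * Real.log ‖c‖ := by
  rw [Algebra.algebraMap_eq_smul_one, D_smul τ isUnit_one hc, D_one, add_zero]

/-- the diagonal sign matrix -/
noncomputable def M2_sg (i : ι) : Matrix ι ι ℂ := Matrix.diagonal fun k => if k = i then -1 else 1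

theorem M2_sg_mul (i : ι) : M2_sg i * M2_sg i = 1 := by
  unfold M2_sg
  rw [Matrix.diagonal_mul_diagonal, ← Matrix.diagonal_one]
  congr 1
  funext k
  by_cases h : k = i <;> simp [h]

theorem M2_sg_star (i : ι) : (M2_sg i)ᴴ = M2_sg i := by
  unfold M2_sg
  rw [Matrix.diagonal_conjTranspose]
  congr 1
  funext k
  by_cases h : k = i <;> simp [h]

theorem M2_sg_conj {i j : ι} (hij : i ≠ j) (c : ℂ) :
    M2_sg i * Matrix.transvection i j c * M2_sg i = Matrix.transvection i j (-c) := by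
  unfold M2_sg Matrix.transvection
  ext a b
  rw [Matrix.mul_diagonal, Matrix.diagonal_mul, Matrix.add_apply, Matrix.add_apply,
    Matrix.one_apply, Matrix.single_apply, Matrix.single_apply]
  by_cases h1 : a = b
  · subst h1
    by_cases h2 : a = i
    · subst h2
      have h3 : ¬ (a = a ∧ j = a) := fun h => hij h.2.symm
      simp [hij.symm]
    · have h3 : ¬ (i = a ∧ j = a) := fun h => h2 h.1.symm
      simp [h2, h3]
  · by_cases h2 : i = a ∧ j = b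
    · obtain ⟨rfl, rfl⟩ := h2
      simp [h1, hij.symm]
    · simp [h1, h2]

theorem M2_transv (t : Matrix.TransvectionStruct ι ℂ) :
    DM τ (scal 𝔄 t.toMatrix) = 0 := by
  have hd : t.toMatrix.det ≠ 0 := by
    rw [Matrix.TransvectionStruct.det]
    exact one_ne_zero
  have h1 : scal 𝔄 t.toMatrix * scal 𝔄 t.inv.toMatrix = 1 := by
    rw [← M2_scal_mul, Matrix.TransvectionStruct.mul_inv, M2_scal_one]
  have h2 : scal 𝔄 t.inv.toMatrix * scal 𝔄 t.toMatrix = 1 := by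
    rw [← M2_scal_mul, Matrix.TransvectionStruct.inv_mul, M2_scal_one]
  have h3 := M2_unit' h1 h2
  have h4 := M2_unit' h2 h1
  have h5 : DM τ (scal 𝔄 t.toMatrix) + DM τ (scal 𝔄 t.inv.toMatrix) = 0 := by
    unfold DM
    rw [← D_mul _ (M2_unit h3) (M2_unit h4), ← toC_mul, h1, toC_one]
    exact D_one _
  have h6 := M2_conj τ (scal 𝔄 t.toMatrix) (scal 𝔄 (M2_sg t.i))
    (by rw [M2_scal_star, M2_sg_star]) (by rw [← M2_scal_mul, M2_sg_mul, M2_scal_one])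
  rw [← M2_scal_mul, ← M2_scal_mul] at h6
  have h7 : M2_sg t.i * t.toMatrix * M2_sg t.i = t.inv.toMatrix := M2_sg_conj t.hij t.c
  rw [h7] at h6
  linarith

open scoped MatrixOrder Matrix.Norms.L2Operator in
theorem M2_posdef {Z : Matrix ι ι ℂ} (hZ : Z.PosDef) : ∃ Y : Matrix ι ι ℂ, Z = Yᴴ * Y := by
  obtain ⟨y, hy⟩ := CStarAlgebra.nonneg_iff_eq_star_mul_self.mp hZ.posSemidef.nonneg
  exact ⟨y, hy⟩

theorem DM_one : DM τ (1 : Matrix ι ι 𝔄) = 0 := by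
  unfold DM
  rw [toC_one]
  exact D_one _

theorem DM_mul {x y : Matrix ι ι 𝔄} (hx : IsUnit x) (hy : IsUnit y) :
    DM τ (x * y) = DM τ x + DM τ y := by
  unfold DM
  rw [toC_mul]
  exact D_mul _ (M2_unit hx) (M2_unit hy)

theorem DM_conjTranspose {x : Matrix ι ι 𝔄} (hx : IsUnit x) : DM τ xᴴ = DM τ x := by
  unfold DM
  rw [toC_star]
  exact D_star _ (M2_unit hx)

theorem DM_inv {x y : Matrix ι ι 𝔄} (h : x * y = 1) (h' : y * x = 1) : DM τ y = - DM τ x := by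
  have h1 := DM_mul τ (M2_unit' h h') (M2_unit' h' h)
  rw [h, DM_one] at h1
  linarith

theorem DM_neg (x : Matrix ι ι 𝔄) : DM τ (-x) = DM τ x := by
  unfold DM
  exact D_neg _

theorem DM_isometry {x : Matrix ι ι 𝔄} (hx : xᴴ * x = 1) : DM τ x = 0 := by
  unfold DM
  refine D_unitary _ ?_
  rw [← toC_star, ← toC_mul, hx, toC_one]

theorem DM_eq_LM {H : Matrix ι ι 𝔄} (hH : SPM H) : DM τ H = LM τ H := by
  exact D_eq_L _ hH

theorem LM_fromBlocks_diag {H : Matrix ι ι 𝔄} {K : Matrix κ κ 𝔄} (hH : SPM H) (hK : SPM K) :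
    LM τ (Matrix.fromBlocks H 0 0 K) = LM τ H + LM τ K := by
  unfold LM
  rw [← M2blk_apply]
  exact M2blk_L τ hH hK

theorem SPM_fromBlocks_diag {H : Matrix ι ι 𝔄} {K : Matrix κ κ 𝔄} (hH : SPM H) (hK : SPM K) :
    SPM (Matrix.fromBlocks H 0 0 K) := by
  unfold SPM
  rw [← M2blk_apply]
  exact M2_map_spos _ (x := (toC H, toC K)) ⟨⟨hH.1, hK.1⟩, Prod.isUnit_iff.2 ⟨hH.2, hK.2⟩⟩

theorem DM_fromBlocks_diag {x : Matrix ι ι 𝔄} {y : Matrix κ κ 𝔄} (hx : IsUnit x)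
    (hy : IsUnit y) : DM τ (Matrix.fromBlocks x 0 0 y) = DM τ x + DM τ y := by
  have hxy : IsUnit ((toC x, toC y) : CStarMatrix ι ι 𝔄 × CStarMatrix κ κ 𝔄) :=
    Prod.isUnit_iff.2 ⟨M2_unit hx, M2_unit hy⟩
  unfold DM D
  rw [← M2blk_apply, ← map_star, ← map_mul, Prod.star_def, Prod.mk_mul_mk,
    M2blk_L τ (M2_spos (M2_unit hx)) (M2_spos (M2_unit hy))]
  ring

theorem DM_unip₁₂ (b : Matrix ι κ 𝔄) :
    DM τ (Matrix.fromBlocks (1 : Matrix ι ι 𝔄) b 0 (1 : Matrix κ κ 𝔄)) = 0 := by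
  have h1 := DM_inv τ (M2_e12 b) (M2_e12' b)
  have h2 : DM τ (Matrix.fromBlocks (1 : Matrix ι ι 𝔄) (-b) 0 (1 : Matrix κ κ 𝔄)) =
      DM τ (Matrix.fromBlocks (1 : Matrix ι ι 𝔄) b 0 (1 : Matrix κ κ 𝔄)) := by
    have h3 := M2_conj τ (Matrix.fromBlocks (1 : Matrix ι ι 𝔄) b 0 (1 : Matrix κ κ 𝔄))
      (M2_sign (𝔄 := 𝔄) (ι := ι) (κ := κ)) M2_sign_star M2_sign_mul
    rw [M2_sign, Matrix.fromBlocks_multiply, Matrix.fromBlocks_multiply] at h3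
    rw [← h3]
    congr 2 <;> simp
  linarith

theorem DM_unip₂₁ (c : Matrix κ ι 𝔄) :
    DM τ (Matrix.fromBlocks (1 : Matrix ι ι 𝔄) 0 c (1 : Matrix κ κ 𝔄)) = 0 := by
  have h1 := DM_inv τ (M2_e21 c) (M2_e21' c)
  have h2 : DM τ (Matrix.fromBlocks (1 : Matrix ι ι 𝔄) 0 (-c) (1 : Matrix κ κ 𝔄)) =
      DM τ (Matrix.fromBlocks (1 : Matrix ι ι 𝔄) 0 c (1 : Matrix κ κ 𝔄)) := by
    have h3 := M2_conj τ (Matrix.fromBlocks (1 : Matrix ι ι 𝔄) 0 c (1 : Matrix κ κ 𝔄))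
      (M2_sign (𝔄 := 𝔄) (ι := ι) (κ := κ)) M2_sign_star M2_sign_mul
    rw [M2_sign, Matrix.fromBlocks_multiply, Matrix.fromBlocks_multiply] at h3
    rw [← h3]
    congr 2 <;> simp
  linarith

theorem DM_tri₁₂ {x : Matrix ι ι 𝔄} {y : Matrix κ κ 𝔄} (hx : IsUnit x)
    (hy : IsUnit y) (b : Matrix ι κ 𝔄) : DM τ (Matrix.fromBlocks x b 0 y) = DM τ x + DM τ y := by
  have e : Matrix.fromBlocks x b 0 y = Matrix.fromBlocks (1 : Matrix ι ι 𝔄) 0 0 y *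
      Matrix.fromBlocks (1 : Matrix ι ι 𝔄) b 0 (1 : Matrix κ κ 𝔄) *
      Matrix.fromBlocks x 0 0 (1 : Matrix κ κ 𝔄) := by
    rw [Matrix.fromBlocks_multiply, Matrix.fromBlocks_multiply]
    congr 1 <;> simp
  rw [e, DM_mul τ ((M2_blk_unit isUnit_one hy).mul (M2_unit' (M2_e12 b) (M2_e12' b)))
    (M2_blk_unit hx isUnit_one), DM_mul τ (M2_blk_unit isUnit_one hy) (M2_unit' (M2_e12 b) (M2_e12' b)),
    DM_unip₁₂, DM_fromBlocks_diag τ isUnit_one hy, DM_fromBlocks_diag τ hx isUnit_one, DM_one,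
    DM_one]
  ring

theorem DM_tri₂₁ {x : Matrix ι ι 𝔄} {y : Matrix κ κ 𝔄} (hx : IsUnit x)
    (hy : IsUnit y) (c : Matrix κ ι 𝔄) : DM τ (Matrix.fromBlocks x 0 c y) = DM τ x + DM τ y := by
  have e : Matrix.fromBlocks x 0 c y = Matrix.fromBlocks x 0 0 (1 : Matrix κ κ 𝔄) *
      Matrix.fromBlocks (1 : Matrix ι ι 𝔄) 0 c (1 : Matrix κ κ 𝔄) *
      Matrix.fromBlocks (1 : Matrix ι ι 𝔄) 0 0 y := by
    rw [Matrix.fromBlocks_multiply, Matrix.fromBlocks_multiply]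
    congr 1 <;> simp
  rw [e, DM_mul τ ((M2_blk_unit hx isUnit_one).mul (M2_unit' (M2_e21 c) (M2_e21' c)))
    (M2_blk_unit isUnit_one hy), DM_mul τ (M2_blk_unit hx isUnit_one)
    (M2_unit' (M2_e21 c) (M2_e21' c)),
    DM_unip₂₁, DM_fromBlocks_diag τ isUnit_one hy, DM_fromBlocks_diag τ hx isUnit_one, DM_one,
    DM_one]
  ring

theorem DM_reindex (e : ι ≃ κ) (x : Matrix ι ι 𝔄) (hx : IsUnit x) :
    DM τ (Matrix.reindex e e x) = DM τ x := by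
  exact M2_D_map (τ.mat ι) (τ.mat κ) (M2re 𝔄 e) (M2re_tr τ e) (M2_unit hx)

theorem DM_sc {a : 𝔄} (ha : IsUnit a) : DM τ (sc ι a) = Fintype.card ι * D τ a := by
  unfold sc
  rw [M2diag_D τ fun _ => ha, Finset.sum_const, Finset.card_univ, nsmul_eq_mul]

theorem DM_scal {Z : Matrix ι ι ℂ} (hZ : Z.det ≠ 0) :
    DM τ (scal 𝔄 Z) = τ.mass * Real.log ‖Z.det‖ := by
  refine Matrix.diagonal_transvection_induction_of_det_ne_zero
    (fun Z => DM τ (scal 𝔄 Z) = τ.mass * Real.log ‖Z.det‖) Z hZ ?_ ?_ ?_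
  · intro d hd
    have hd' : ∀ i, d i ≠ 0 := by
      rw [Matrix.det_diagonal] at hd
      exact fun i => Finset.prod_ne_zero_iff.1 hd i (Finset.mem_univ i)
    have e : scal 𝔄 (Matrix.diagonal d) = Matrix.diagonal fun i => algebraMap ℂ 𝔄 (d i) := by
      unfold scal
      rw [Matrix.diagonal_map (map_zero _)]
    have hu : ∀ i, IsUnit (algebraMap ℂ 𝔄 (d i)) := fun i =>
      (isUnit_iff_ne_zero.2 (hd' i)).map _
    change DM τ (scal 𝔄 (Matrix.diagonal d)) = _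
    rw [e, M2diag_D τ hu, Matrix.det_diagonal, norm_prod,
      Real.log_prod fun i _ => norm_ne_zero_iff.2 (hd' i), Finset.mul_sum]
    exact Finset.sum_congr rfl fun i _ => M2_algMap τ (hd' i)
  · intro t
    change DM τ (scal 𝔄 t.toMatrix) = _
    rw [M2_transv, Matrix.TransvectionStruct.det, norm_one, Real.log_one, mul_zero]
  · intro A B hA hB h1 h2
    change DM τ (scal 𝔄 (A * B)) = _
    rw [M2_scal_mul, DM_mul τ (M2_scal_unit hA) (M2_scal_unit hB), Matrix.det_mul, norm_mul,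
      Real.log_mul (norm_ne_zero_iff.2 hA) (norm_ne_zero_iff.2 hB)]
    have h1' : DM τ (scal 𝔄 A) = τ.mass * Real.log ‖A.det‖ := h1
    have h2' : DM τ (scal 𝔄 B) = τ.mass * Real.log ‖B.det‖ := h2
    rw [h1', h2', mul_add]

/-- for a positive definite `Z`: `LM (scal Z) = mass * log det Z` (from `DM_scal`, `DM_eq_LM`) -/
theorem LM_scal {Z : Matrix ι ι ℂ} (hZ : Z.PosDef) :
    LM τ (scal 𝔄 Z) = τ.mass * Real.log Z.det.re := by
  have hd := hZ.det_pos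
  obtain ⟨Y, hY⟩ := M2_posdef hZ
  have hdY : Y.det ≠ 0 := by
    intro h
    rw [hY, Matrix.det_mul, h, mul_zero] at hd
    exact lt_irrefl _ hd
  have hs : SPM (scal 𝔄 Z) := by
    unfold SPM
    rw [hY, M2_scal_mul, ← M2_scal_star, toC_mul, toC_star]
    exact M2_spos (M2_unit (M2_scal_unit hdY))
  rw [← DM_eq_LM τ hs, DM_scal τ hd.ne']
  congr 2
  have h1 := Complex.lt_def.1 hd
  have h2 : Z.det = ((Z.det.re : ℝ) : ℂ) := by
    apply Complex.ext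
    · simp
    · rw [Complex.ofReal_im]
      exact h1.2.symm
  rw [h2, Complex.norm_real, Complex.ofReal_re, Real.norm_eq_abs, abs_of_pos h1.1]

end LT
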