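import Pool.Agent.H29.LT.A04

/-!
# LT-A05: tangent inequality, strong concavity

`L_tangent`: `S = CFC.sqrt H` (invertible, self-adjoint), `X = S⁻¹ K S⁻¹` strictly positive,
`K = S X S`, so `L K = L (S * S) + L X = L H + L X` (`L_conj`).  `log x ≤ x - 1` gives
`CFC.log X ≤ X - 1` (`cfc_mono`), so `L X ≤ Re τ X - mass = Re τ (S⁻¹ K S⁻¹) - mass =
Re τ (H⁻¹ K) - mass = Re τ (H⁻¹ (K - H))`.

`L_strong`: `H = (H₀+H₁)/2`, `D = (H₁-H₀)/2`, `S = CFC.sqrt H`, `X = S⁻¹ D S⁻¹` self-adjoint;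
`1 + X = S⁻¹ H₁ S⁻¹`, `1 - X = S⁻¹ H₀ S⁻¹` are strictly positive, `L H₁ = L H + L (1 + X)`,
`L H₀ = L H + L (1 - X)`.  Pointwise `log (1+x) + log (1-x) ≤ -x²` on the spectrum of `X`
(inside `(-1,1)`), so `L (1+X) + L (1-X) ≤ - Re τ (X²)` (functional calculus of `X`).
`τ (X²) = τ (H⁻¹ D H⁻¹ D)`; as `H ≤ M`, `H⁻¹ ≥ 1/M`, and with `tr_mul_mono` twice
(`D H⁻¹ D ≥ 0`, `D² ≥ 0`): `τ (H⁻¹ (D H⁻¹ D)) ≥ τ (D H⁻¹ D)/M = τ (H⁻¹ D²)/M ≥ τ (D²)/M²`.
So `(L H₀ + L H₁)/2 ≤ L H - τ(D²)/(2 M²)` and `D² = (H₁-H₀)²/4`.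

`L_concave`: `CFC.concaveOn_log`.

`L_one_add_ge`: `log (1+y) ≥ y - y²` for `|y| ≤ 1/2`.
-/

set_option linter.unusedSectionVars false

namespace LT

variable {𝔄 : Type*} [CStarAlgebra 𝔄] [PartialOrder 𝔄] [StarOrderedRing 𝔄] (τ : Tr 𝔄)

/-- `L H ≤ Re τ H - mass` -/
theorem L_le_sub_one {H : 𝔄} (hH : IsStrictlyPositive H) : L τ H ≤ (τ.f H).re - τ.mass := by
  have hsa : IsSelfAdjoint H := hH.isSelfAdjoint
  have h0 : ∀ x ∈ spectrum ℝ H, x ≠ 0 := fun x hx => (hH.spectrum_pos hx).ne'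
  have h1 : CFC.log H ≤ H - 1 := by
    have e1 : H - 1 = cfc (fun x : ℝ => x - 1) H := by
      rw [cfc_sub (fun x : ℝ => x) (fun _ => (1 : ℝ)) H, cfc_const_one ℝ H, cfc_id' ℝ H]
    rw [e1]
    unfold CFC.log
    refine cfc_mono (fun x hx => ?_) (Real.continuousOn_log.mono fun x hx => h0 x hx)
      (by fun_prop)
    exact Real.log_le_sub_one_of_pos (hH.spectrum_pos hx)
  have h2 := tr_re_mono τ h1
  rw [map_sub, Complex.sub_re] at h2
  exact h2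

private theorem a05_sqrt {H : 𝔄} (hH : IsStrictlyPositive H) :
    ∃ u : 𝔄ˣ, star (u : 𝔄) = u ∧ (u : 𝔄) * u = H ∧ star ((u⁻¹ : 𝔄ˣ) : 𝔄) = (u⁻¹ : 𝔄ˣ) ∧
      Ring.inverse H = ((u⁻¹ : 𝔄ˣ) : 𝔄) * (u⁻¹ : 𝔄ˣ) := by
  obtain ⟨u, hu⟩ := (CFC.isUnit_sqrt_iff_isStrictlyPositive (a := H)).2 hH
  have h1 : star (u : 𝔄) = u := by
    rw [hu]
    exact (CFC.sqrt_nonneg H).isSelfAdjoint.star_eq
  have h2 : (u : 𝔄) * u = H := by
    rw [hu]
    exact CFC.sqrt_mul_sqrt_self H hH.nonneg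
  have h3 : star u = u := Units.ext h1
  refine ⟨u, h1, h2, ?_, ?_⟩
  · rw [← Units.coe_star, star_inv, h3]
  · rw [← h2, ← Units.val_mul, Ring.inverse_unit, mul_inv_rev, Units.val_mul]

private theorem a05_conj {K : 𝔄} (hK : IsStrictlyPositive K) (u : 𝔄ˣ)
    (hu : star (u : 𝔄) = u) (hi : star ((u⁻¹ : 𝔄ˣ) : 𝔄) = (u⁻¹ : 𝔄ˣ)) :
    IsStrictlyPositive (((u⁻¹ : 𝔄ˣ) : 𝔄) * K * (u⁻¹ : 𝔄ˣ)) ∧
      L τ K = L τ ((u : 𝔄) * u) + L τ (((u⁻¹ : 𝔄ˣ) : 𝔄) * K * (u⁻¹ : 𝔄ˣ)) := by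
  have hs : IsStrictlyPositive (((u⁻¹ : 𝔄ˣ) : 𝔄) * K * (u⁻¹ : 𝔄ˣ)) :=
    (IsUnit.isStrictlyPositive_iff_conjugate_of_isSelfAdjoint K _ (u⁻¹).isUnit hi).2 hK
  refine ⟨hs, ?_⟩
  have h1 := L_conj τ u.isUnit hs
  rw [hu] at h1
  have h2 : (u : 𝔄) * (((u⁻¹ : 𝔄ˣ) : 𝔄) * K * (u⁻¹ : 𝔄ˣ)) * u = K := by
    simp [mul_assoc]
  rw [h2] at h1
  exact h1

private theorem a05_tr (K : 𝔄) (u : 𝔄ˣ) :
    τ.f (((u⁻¹ : 𝔄ˣ) : 𝔄) * K * (u⁻¹ : 𝔄ˣ)) = τ.f (((u⁻¹ : 𝔄ˣ) : 𝔄) * (u⁻¹ : 𝔄ˣ) * K) := by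
  rw [τ.comm, ← mul_assoc]

theorem L_tangent {H K : 𝔄} (hH : IsStrictlyPositive H) (hK : IsStrictlyPositive K) :
    L τ K ≤ L τ H + (τ.f (Ring.inverse H * (K - H))).re := by
  obtain ⟨u, hu, hm, hi, hr⟩ := a05_sqrt hH
  obtain ⟨hs, h1⟩ := a05_conj τ hK u hu hi
  have h2 := L_le_sub_one τ hs
  rw [hm] at h1
  have h3 : (τ.f (Ring.inverse H * (K - H))).re =
      (τ.f (((u⁻¹ : 𝔄ˣ) : 𝔄) * K * (u⁻¹ : 𝔄ˣ))).re - τ.mass := by
    rw [mul_sub, Ring.inverse_mul_cancel H hH.isUnit, map_sub, Complex.sub_re, a05_tr, hr]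
    rfl
  rw [h1, h3]
  linarith

private theorem a05_logadd {X : 𝔄} (hX : IsSelfAdjoint X) (s : ℝ)
    (hs : ∀ x ∈ spectrum ℝ X, 0 < 1 + s * x) :
    CFC.log (1 + s • X) = cfc (fun x : ℝ => Real.log (1 + s * x)) X := by
  have e1 : (1 : 𝔄) + s • X = cfc (fun x : ℝ => 1 + s * x) X := by
    rw [cfc_add X (fun _ : ℝ => (1 : ℝ)) (fun x => s * x), cfc_const_one ℝ X, cfc_const_mul_id s X]
  have hc : ContinuousOn Real.log ((fun x : ℝ => 1 + s * x) '' spectrum ℝ X) := by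
    refine Real.continuousOn_log.mono ?_
    rintro y ⟨x, hx, rfl⟩
    exact (hs x hx).ne'
  rw [e1]
  unfold CFC.log
  rw [← cfc_comp' Real.log (fun x : ℝ => 1 + s * x) X hc]

theorem L_strong {H₀ H₁ : 𝔄} (h₀ : IsStrictlyPositive H₀) (h₁ : IsStrictlyPositive H₁)
    {M : ℝ} (hM : 0 < M) (b₀ : H₀ ≤ algebraMap ℝ 𝔄 M) (b₁ : H₁ ≤ algebraMap ℝ 𝔄 M) :
    (L τ H₀ + L τ H₁) / 2 + (1 / (8 * M ^ 2)) * (τ.f ((H₁ - H₀) * (H₁ - H₀))).re
      ≤ L τ ((1 / 2 : ℝ) • (H₀ + H₁)) := by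
  set H : 𝔄 := (1 / 2 : ℝ) • (H₀ + H₁) with hHdef
  set E : 𝔄 := (1 / 2 : ℝ) • (H₁ - H₀) with hEdef
  have hHE1 : H + E = H₁ := by
    rw [hHdef, hEdef, ← smul_add]
    have : H₀ + H₁ + (H₁ - H₀) = (2 : ℝ) • H₁ := by rw [two_smul]; abel
    rw [this, smul_smul]; norm_num
  have hHE0 : H - E = H₀ := by
    rw [hHdef, hEdef, ← smul_sub]
    have : H₀ + H₁ - (H₁ - H₀) = (2 : ℝ) • H₀ := by rw [two_smul]; abel
    rw [this, smul_smul]; norm_num
  have hH : IsStrictlyPositive H :=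
    IsStrictlyPositive.smul (by norm_num) (h₀.add_nonneg h₁.nonneg)
  have hEsa : star E = E := by
    rw [hEdef, star_smul, star_sub, h₀.isSelfAdjoint.star_eq, h₁.isSelfAdjoint.star_eq]
    simp
  obtain ⟨u, hu, hm, hi, hr⟩ := a05_sqrt hH
  set v : 𝔄 := ((u⁻¹ : 𝔄ˣ) : 𝔄) with hv
  set X : 𝔄 := v * E * v with hXdef
  have hXsa : IsSelfAdjoint X := by
    show star X = X
    rw [hXdef, star_mul, star_mul, hi, hEsa, mul_assoc]
  have hvHv : v * H * v = 1 := by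
    rw [← hm]
    simp [hv]
  obtain ⟨s1, l1⟩ := a05_conj τ h₁ u hu hi
  obtain ⟨s0, l0⟩ := a05_conj τ h₀ u hu hi
  rw [hm, ← hv] at l1 l0
  rw [← hv] at s1 s0
  have e1 : v * H₁ * v = 1 + (1 : ℝ) • X := by
    rw [← hHE1, mul_add, add_mul, hvHv, one_smul]
  have e0 : v * H₀ * v = 1 + (-1 : ℝ) • X := by
    rw [← hHE0, mul_sub, sub_mul, hvHv, neg_one_smul, sub_eq_add_neg]
  rw [e1] at l1 s1
  rw [e0] at l0 s0
  have p1 : ∀ x ∈ spectrum ℝ X, 0 < 1 + 1 * x := by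
    intro x hx
    refine s1.spectrum_pos (𝕜 := ℝ) ?_
    have : (1 : 𝔄) + (1 : ℝ) • X = cfc (fun x : ℝ => 1 + 1 * x) X := by
      rw [cfc_add X (fun _ : ℝ => (1 : ℝ)) (fun x => 1 * x), cfc_const_one ℝ X,
        cfc_const_mul_id 1 X]
    rw [this, cfc_map_spectrum (fun x : ℝ => 1 + 1 * x) X]
    exact ⟨x, hx, rfl⟩
  have p0 : ∀ x ∈ spectrum ℝ X, 0 < 1 + (-1) * x := by
    intro x hx
    refine s0.spectrum_pos (𝕜 := ℝ) ?_
    have : (1 : 𝔄) + (-1 : ℝ) • X = cfc (fun x : ℝ => 1 + (-1) * x) X := by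
      rw [cfc_add X (fun _ : ℝ => (1 : ℝ)) (fun x => (-1) * x), cfc_const_one ℝ X,
        cfc_const_mul_id (-1) X]
    rw [this, cfc_map_spectrum (fun x : ℝ => 1 + (-1) * x) X]
    exact ⟨x, hx, rfl⟩
  have c1 : ContinuousOn (fun x : ℝ => Real.log (1 + 1 * x)) (spectrum ℝ X) :=
    ContinuousOn.log (by fun_prop) fun x hx => (p1 x hx).ne'
  have c0 : ContinuousOn (fun x : ℝ => Real.log (1 + (-1) * x)) (spectrum ℝ X) :=
    ContinuousOn.log (by fun_prop) fun x hx => (p0 x hx).ne'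
  -- the pointwise inequality
  have key : CFC.log (1 + (1 : ℝ) • X) + CFC.log (1 + (-1 : ℝ) • X) ≤ -(X * X) := by
    rw [a05_logadd hXsa 1 p1, a05_logadd hXsa (-1) p0, ← cfc_add X _ _ c1 c0]
    have e2 : -(X * X) = cfc (fun x : ℝ => -(x * x)) X := by
      rw [cfc_neg (fun x : ℝ => x * x) X, cfc_mul (fun x : ℝ => x) (fun x => x) X, cfc_id' ℝ X]
    rw [e2]
    refine cfc_mono (fun x hx => ?_) (c1.add c0) (by fun_prop)
    have q1 := p1 x hx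
    have q0 := p0 x hx
    have h5 : Real.log (1 + 1 * x) + Real.log (1 + (-1) * x) = Real.log (1 - x * x) := by
      rw [← Real.log_mul q1.ne' q0.ne']
      congr 1
      ring
    have h6 : 0 < 1 - x * x := by
      have := mul_pos q1 q0
      nlinarith
    have h7 := Real.log_le_sub_one_of_pos h6
    show Real.log (1 + 1 * x) + Real.log (1 + (-1) * x) ≤ -(x * x)
    rw [h5]
    linarith
  have k1 := tr_re_mono τ key
  rw [map_add, Complex.add_re, map_neg, Complex.neg_re] at k1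
  have k2 : L τ (1 + (1 : ℝ) • X) + L τ (1 + (-1 : ℝ) • X) ≤ -(τ.f (X * X)).re := k1
  -- `τ (X²) = τ (H⁻¹ E H⁻¹ E)`
  have t1 : τ.f (X * X) = τ.f (Ring.inverse H * (E * Ring.inverse H * E)) := by
    have : X * X = v * (E * (v * v) * E * v) := by
      rw [hXdef]
      simp only [mul_assoc]
    rw [this, τ.comm, hr]
    have : E * (v * v) * E * v * v = (E * (v * v) * E) * (v * v) := by
      simp only [mul_assoc]
    rw [this, τ.comm]
  -- lower bound of the inverse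
  have hHM : H ≤ algebraMap ℝ 𝔄 M := by
    have h8 : H₀ + H₁ ≤ algebraMap ℝ 𝔄 M + algebraMap ℝ 𝔄 M := add_le_add b₀ b₁
    have h9 : (1 / 2 : ℝ) • (H₀ + H₁) ≤ (1 / 2 : ℝ) • (algebraMap ℝ 𝔄 M + algebraMap ℝ 𝔄 M) :=
      smul_le_smul_of_nonneg_left h8 (by norm_num)
    have h10 : (1 / 2 : ℝ) • (algebraMap ℝ 𝔄 M + algebraMap ℝ 𝔄 M) = algebraMap ℝ 𝔄 M := by
      rw [← map_add, Algebra.algebraMap_eq_smul_one, Algebra.algebraMap_eq_smul_one, smul_smul]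
      congr 1
      ring
    rw [h10] at h9
    exact h9
  have hinv : algebraMap ℝ 𝔄 M⁻¹ ≤ Ring.inverse H := by
    have h11 := CStarAlgebra.ringInverse_le_ringInverse hHM hH
    have h12 : Ring.inverse (algebraMap ℝ 𝔄 M) = algebraMap ℝ 𝔄 M⁻¹ := by
      let w : 𝔄ˣ := ⟨algebraMap ℝ 𝔄 M, algebraMap ℝ 𝔄 M⁻¹,
        by rw [← map_mul, mul_inv_cancel₀ hM.ne', map_one],
        by rw [← map_mul, inv_mul_cancel₀ hM.ne', map_one]⟩
      exact Ring.inverse_unit w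
    rw [h12] at h11
    exact h11
  have hDHD : 0 ≤ E * Ring.inverse H * E := by
    have h13 : 0 ≤ Ring.inverse H := (IsStrictlyPositive.ringInverse hH).nonneg
    have h14 := star_left_conjugate_nonneg h13 E
    rw [hEsa] at h14
    exact h14
  have hEE : 0 ≤ E * E := by
    have h15 := star_mul_self_nonneg E
    rw [hEsa] at h15
    exact h15
  have t2 := tr_mul_mono τ hinv hDHD
  have t3 := tr_mul_mono τ hinv hEE
  rw [← Algebra.smul_def, a02_smul] at t2 t3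
  have t4 : τ.f (E * Ring.inverse H * E) = τ.f (Ring.inverse H * (E * E)) := by
    rw [τ.comm, ← mul_assoc, τ.comm]
  have t5 : E * E = (1 / 4 : ℝ) • ((H₁ - H₀) * (H₁ - H₀)) := by
    rw [hEdef, smul_mul_smul_comm]
    norm_num
  rw [t4] at t2
  rw [t5, a02_smul] at t3
  rw [t1] at k2
  have hMi : 0 < M⁻¹ := inv_pos.2 hM
  have t6 : M⁻¹ * (M⁻¹ * (1 / 4 * (τ.f ((H₁ - H₀) * (H₁ - H₀))).re)) ≤
      M⁻¹ * (τ.f (Ring.inverse H * (E * E))).re := by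
    refine mul_le_mul_of_nonneg_left ?_ hMi.le
    rw [t5]
    exact t3
  have t7 : 1 / (8 * M ^ 2) * (τ.f ((H₁ - H₀) * (H₁ - H₀))).re =
      (M⁻¹ * (M⁻¹ * (1 / 4 * (τ.f ((H₁ - H₀) * (H₁ - H₀))).re))) / 2 := by
    field_simp
    ring
  rw [t7]
  linarith

theorem L_concave {H₀ H₁ : 𝔄} (h₀ : IsStrictlyPositive H₀) (h₁ : IsStrictlyPositive H₁)
    {s t : ℝ} (hs : 0 ≤ s) (ht : 0 ≤ t) (hst : s + t = 1) :
    s * L τ H₀ + t * L τ H₁ ≤ L τ (s • H₀ + t • H₁) := by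
  have h1 := (CFC.concaveOn_log (A := 𝔄)).2 h₀ h₁ hs ht hst
  have h2 := tr_re_mono τ h1
  rw [map_add, Complex.add_re, a02_smul, a02_smul] at h2
  exact h2

private theorem a05_log {x : ℝ} (q1 : 0 < 1 + x) (q2 : -(1 / 2) ≤ x) :
    x - x * x ≤ Real.log (1 + x) := by
  rcases le_total 0 x with hx | hx
  · have h3 := Real.one_sub_inv_le_log_of_pos q1
    have h4 : x - x * x ≤ 1 - (1 + x)⁻¹ := by
      have h5 : 1 - (1 + x)⁻¹ = x / (1 + x) := by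
        field_simp
        ring
      rw [h5, le_div_iff₀ q1]
      have h6 : (x - x * x) * (1 + x) = x - x * x * x := by ring
      rw [h6]
      have : 0 ≤ x * x * x := by positivity
      linarith
    exact h4.trans h3
  · have hd : ∀ y : ℝ, 0 < 1 + y →
        HasDerivAt (fun y : ℝ => Real.log (1 + y) - (y - y * y)) (1 / (1 + y) - (1 - (1 * y + y * 1))) y := by
      intro y hy
      have a1 : HasDerivAt (fun y : ℝ => 1 + y) 1 y := (hasDerivAt_id y).const_add 1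
      have a2 := a1.log hy.ne'
      have a3 : HasDerivAt (fun y : ℝ => y * y) (1 * y + y * 1) y :=
        (hasDerivAt_id y).mul (hasDerivAt_id y)
      exact a2.sub ((hasDerivAt_id y).sub a3)
    have hanti : AntitoneOn (fun y : ℝ => Real.log (1 + y) - (y - y * y))
        (Set.Icc (-(1 / 2)) 0) := by
      refine antitoneOn_of_deriv_nonpos (convex_Icc _ _) ?_ ?_ ?_
      · intro y hy
        exact (hd y (by linarith [hy.1])).continuousAt.continuousWithinAt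
      · intro y hy
        rw [interior_Icc] at hy
        exact (hd y (by linarith [hy.1])).differentiableAt.differentiableWithinAt
      · intro y hy
        rw [interior_Icc] at hy
        have hy1 : 0 < 1 + y := by linarith [hy.1]
        rw [(hd y hy1).deriv]
        have h7 : 1 / (1 + y) - (1 - (1 * y + y * 1)) = y * (1 + 2 * y) / (1 + y) := by
          field_simp
          ring
        rw [h7]
        refine div_nonpos_of_nonpos_of_nonneg ?_ hy1.le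
        exact mul_nonpos_of_nonpos_of_nonneg hy.2.le (by linarith [hy.1])
    have h8 := hanti ⟨q2, hx⟩ ⟨by norm_num, le_rfl⟩ hx
    simp at h8
    linarith

theorem L_one_add_ge {X : 𝔄} (hX : IsSelfAdjoint X) (hn : ‖X‖ ≤ 1 / 2) :
    (τ.f X).re - (τ.f (X * X)).re ≤ L τ (1 + X) := by
  have hb : ∀ x ∈ spectrum ℝ X, |x| ≤ 1 / 2 := by
    intro x hx
    rcases subsingleton_or_nontrivial 𝔄 with h0 | h0
    · rw [spectrum.of_subsingleton] at hx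
      exact absurd hx (Set.notMem_empty x)
    · have := spectrum.norm_le_norm_of_mem hx
      rw [Real.norm_eq_abs] at this
      exact this.trans hn
  have hp : ∀ x ∈ spectrum ℝ X, 0 < 1 + 1 * x := by
    intro x hx
    have := neg_le_of_abs_le (hb x hx)
    linarith
  have h1 := a05_logadd hX 1 hp
  rw [one_smul] at h1
  have c1 : ContinuousOn (fun x : ℝ => Real.log (1 + 1 * x)) (spectrum ℝ X) :=
    ContinuousOn.log (by fun_prop) fun x hx => (hp x hx).ne'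
  have key : X - X * X ≤ CFC.log (1 + X) := by
    rw [h1]
    have e2 : X - X * X = cfc (fun x : ℝ => x - x * x) X := by
      rw [cfc_sub (fun x : ℝ => x) (fun x => x * x) X, cfc_mul (fun x : ℝ => x) (fun x => x) X,
        cfc_id' ℝ X]
    rw [e2]
    refine cfc_mono (fun x hx => ?_) (by fun_prop) c1
    have q1 := hp x hx
    have q2 := abs_le.1 (hb x hx)
    show x - x * x ≤ Real.log (1 + 1 * x)
    rw [one_mul] at q1 ⊢
    exact a05_log q1 q2.1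
  have k1 := tr_re_mono τ key
  rw [map_sub, Complex.sub_re] at k1
  exact k1

end LT
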