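import Pool.Agent.H29.LT.A04

/-!
# LT-A07: quasinilpotent-in-`L²` elements have `D (1 + X) = 0`

`C₁ = C/(1-q)`.  Fix `ε > 0`; for real `z ∈ [0,1]` let `h = 1 + z X`, `G = (h* h + ε)⁻¹`,
`F z = L (h* h + ε)`.  By `hasDerivAt_L`, `F' z = Re τ (G (X* h + h* X)) = 2 Re τ (G h* X)`
(`star_map` and `comm`).

Claim `|F' z| ≤ C₁² √ε`.  Let `Y_K = Σ_{k<K} (-z)^k X^k`, so `h Y_K = Y_K h = 1 - (-z)^K X^K`,
`n2 Y_K ≤ C₁`, `n2 (Y_K X) ≤ C₁`, and `τ (Y_K X) = 0`.
Since `X = h Y_K X + (-z)^K X^(K+1)` and `G h* h = 1 - ε G`: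
`G h* X = Y_K X - ε G Y_K X + (-z)^K G h* X^(K+1)`.  Hence
`|τ (G h* X)| ≤ ε n2 G · C₁ + √mass ‖G h*‖ C q^(K+1)`.
`‖G h*‖² = ‖G h* h G‖ ≤ 1/(4 ε)` (functional calculus of `h* h`: `t/(t+ε)² ≤ 1/(4ε)`).
From `1 = h* Y_K* + ((-z)^K X^K)*`: `G = G h* Y_K* + G ((-z)^K X^K)*`, so
`n2 G ≤ ‖G h*‖ n2 Y_K + ‖G‖ n2 (X^K) ≤ C₁/(2√ε) + C q^K/ε`.  Let `K → ∞`:
`|τ (G h* X)| ≤ ε C₁ · C₁/(2 √ε) = C₁² √ε/2`.

So `|F 1 - F 0| ≤ C₁² √ε`, i.e. `|L ((1+X)*(1+X) + ε) - mass log (1+ε)| ≤ C₁² √ε`; let `ε → 0`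
(`continuousAt_L` on the left, as `1+X` is invertible): `L ((1+X)*(1+X)) = 0`.
-/

set_option linter.unusedSectionVars false

namespace LT

variable {𝔄 : Type*} [CStarAlgebra 𝔄] [PartialOrder 𝔄] [StarOrderedRing 𝔄] (τ : Tr 𝔄)

private theorem a07_n2_sum_le (s : Finset ℕ) (F : ℕ → 𝔄) :
    n2 τ (∑ k ∈ s, F k) ≤ ∑ k ∈ s, n2 τ (F k) := by
  classical
  induction s using Finset.induction_on with
  | empty =>
    rw [Finset.sum_empty, Finset.sum_empty]
    unfold n2
    rw [mul_zero, map_zero, Complex.zero_re, Real.sqrt_zero]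
  | insert a s ha ih =>
    rw [Finset.sum_insert ha, Finset.sum_insert ha]
    exact (n2_add_le τ _ _).trans (by linarith)

private theorem a07_geom {q : ℝ} (hq : 0 ≤ q) (hq1 : q < 1) (K : ℕ) :
    ∑ k ∈ Finset.range K, q ^ k ≤ 1 / (1 - q) := by
  have h1 := geom_sum_mul_neg q K
  have h2 : 0 < 1 - q := by linarith
  rw [le_div_iff₀ h2, h1]
  have := pow_nonneg hq K
  linarith

private theorem a07_C_nonneg {X : 𝔄} {C q : ℝ}
    (hC : ∀ k : ℕ, n2 τ (X ^ k) ≤ C * q ^ k) : 0 ≤ C := by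
  have h1 := hC 0
  rw [pow_zero, pow_zero, mul_one] at h1
  exact (n2_nonneg τ 1).trans h1

private theorem a07_n2_sum_bound {C q : ℝ} (hq : 0 ≤ q) (hq1 : q < 1) (hC0 : 0 ≤ C) (F : ℕ → 𝔄)
    (hF : ∀ k, n2 τ (F k) ≤ C * q ^ k) (K : ℕ) :
    n2 τ (∑ k ∈ Finset.range K, F k) ≤ C / (1 - q) := by
  refine (a07_n2_sum_le τ _ _).trans ?_
  calc ∑ k ∈ Finset.range K, n2 τ (F k) ≤ ∑ k ∈ Finset.range K, C * q ^ k :=
        Finset.sum_le_sum fun k _ => hF k
    _ = C * ∑ k ∈ Finset.range K, q ^ k := by rw [Finset.mul_sum]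
    _ ≤ C * (1 / (1 - q)) := mul_le_mul_of_nonneg_left (a07_geom hq hq1 K) hC0
    _ = C / (1 - q) := by rw [mul_one_div]

/-- the norm of `G h*` -/
private theorem a07_norm {ε : ℝ} (hε : 0 < ε) {h G : 𝔄}
    (hG : G * (star h * h + algebraMap ℝ 𝔄 ε) = 1) (hGs : star G = G) :
    ‖G * star h‖ ≤ 1 / (2 * Real.sqrt ε) := by
  have hs : 0 < Real.sqrt ε := Real.sqrt_pos.2 hε
  have hsq : Real.sqrt ε * Real.sqrt ε = ε := Real.mul_self_sqrt hε.le
  have h1 : G * (star h * h) = 1 - ε • G := by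
    rw [mul_add, ← Algebra.commutes, ← Algebra.smul_def] at hG
    rw [← hG]
    abel
  have h2 : (G * star h) * star (G * star h) = G - ε • (G * G) := by
    rw [star_mul, star_star, hGs]
    have h3 : G * star h * (h * G) = (G * (star h * h)) * G := by simp only [mul_assoc]
    rw [h3, h1, sub_mul, one_mul, smul_mul_assoc]
  set c : ℝ := 1 / (2 * Real.sqrt ε) with hc
  have hc0 : 0 < c := by positivity
  -- the square
  have h4 : algebraMap ℝ 𝔄 (c ^ 2) - (G - ε • (G * G)) =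
      star (Real.sqrt ε • G - c • (1 : 𝔄)) * (Real.sqrt ε • G - c • (1 : 𝔄)) := by
    have hst : star (Real.sqrt ε • G - c • (1 : 𝔄)) = Real.sqrt ε • G - c • (1 : 𝔄) := by
      rw [star_sub, star_smul, star_smul, hGs, star_one]
      simp
    rw [hst, sub_mul, mul_sub, mul_sub, smul_mul_smul_comm, smul_mul_smul_comm,
      smul_mul_smul_comm, smul_mul_smul_comm, hsq, mul_one, one_mul, mul_one,
      Algebra.algebraMap_eq_smul_one]
    have h5 : Real.sqrt ε * c = 1 / 2 := by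
      rw [hc]
      field_simp
    have h6 : c * Real.sqrt ε = 1 / 2 := by rw [mul_comm, h5]
    rw [h5, h6, pow_two c]
    have h7 : G = (1 / 2 : ℝ) • G + (1 / 2 : ℝ) • G := by
      rw [← add_smul]
      norm_num
    nth_rewrite 1 [h7]
    abel
  have h5 : G - ε • (G * G) ≤ algebraMap ℝ 𝔄 (c ^ 2) := by
    rw [← sub_nonneg, h4]
    exact star_mul_self_nonneg _
  have h6 : 0 ≤ (G * star h) * star (G * star h) := mul_star_self_nonneg _
  have h7 : ‖(G * star h) * star (G * star h)‖ ≤ c ^ 2 := by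
    rw [CStarAlgebra.norm_le_iff_le_algebraMap _ (by positivity) h6, h2]
    exact h5
  rw [CStarRing.norm_self_mul_star] at h7
  have h8 : ‖G * star h‖ ^ 2 ≤ c ^ 2 := by
    rw [pow_two]
    exact h7
  exact (abs_le_of_sq_le_sq' h8 hc0.le).2

private theorem a07_key {X : 𝔄} {C q : ℝ} (hq : 0 ≤ q) (hq1 : q < 1)
    (hC : ∀ k : ℕ, n2 τ (X ^ k) ≤ C * q ^ k) (h0 : ∀ k : ℕ, τ.f (X ^ (k + 1)) = 0)
    {z : ℂ} (hz : ‖z‖ ≤ 1) {ε : ℝ} (hε : 0 < ε) {h G : 𝔄} (hh : h = 1 + z • X)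
    (hG : G * (star h * h + algebraMap ℝ 𝔄 ε) = 1) (hGs : star G = G) :
    ‖τ.f (G * star h * X)‖ ≤ (C / (1 - q)) ^ 2 * Real.sqrt ε / 2 := by
  have hC0 := a07_C_nonneg τ hC
  have hq' : 0 < 1 - q := by linarith
  have hC1 : 0 ≤ C / (1 - q) := by positivity
  set C1 : ℝ := C / (1 - q) with hC1d
  set w : 𝔄 := -(z • X) with hw
  have hhw : h = 1 - w := by rw [hh, hw, sub_neg_eq_add]
  have hwk : ∀ k : ℕ, w ^ k = (-z) ^ k • X ^ k := by
    intro k
    rw [hw, ← neg_smul, smul_pow]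
  have hzk : ∀ k : ℕ, ‖(-z) ^ k‖ ≤ 1 := by
    intro k
    rw [norm_pow, norm_neg]
    exact pow_le_one₀ (norm_nonneg z) hz
  have hwn : ∀ k : ℕ, n2 τ (w ^ k) ≤ C * q ^ k := by
    intro k
    rw [hwk, n2_smul]
    exact (mul_le_of_le_one_left (n2_nonneg τ _) (hzk k)).trans (hC k)
  have hwXn : ∀ k : ℕ, n2 τ (w ^ k * X) ≤ C * q ^ k := by
    intro k
    rw [hwk, smul_mul_assoc, ← pow_succ, n2_smul]
    refine (mul_le_of_le_one_left (n2_nonneg τ _) (hzk k)).trans ((hC (k + 1)).trans ?_)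
    rw [pow_succ, ← mul_assoc]
    exact mul_le_of_le_one_right (mul_nonneg hC0 (pow_nonneg hq k)) hq1.le
  have hwXt : ∀ k : ℕ, τ.f (w ^ k * X) = 0 := by
    intro k
    rw [hwk, smul_mul_assoc, ← pow_succ, map_smul, h0, smul_zero]
  set Y : ℕ → 𝔄 := fun K => ∑ k ∈ Finset.range K, w ^ k with hY
  have hhY : ∀ K, h * Y K = 1 - w ^ K := by
    intro K
    rw [hhw]
    exact mul_neg_geom_sum w K
  have hYh : ∀ K, Y K * h = 1 - w ^ K := by
    intro K
    rw [hhw]
    exact geom_sum_mul_neg w K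
  have hYn : ∀ K, n2 τ (Y K) ≤ C1 := fun K => a07_n2_sum_bound τ hq hq1 hC0 _ hwn K
  have hYXn : ∀ K, n2 τ (Y K * X) ≤ C1 := by
    intro K
    simp only [hY]
    rw [Finset.sum_mul]
    exact a07_n2_sum_bound τ hq hq1 hC0 _ hwXn K
  have hYXt : ∀ K, τ.f (Y K * X) = 0 := by
    intro K
    simp only [hY]
    rw [Finset.sum_mul, map_sum]
    exact Finset.sum_eq_zero fun k _ => hwXt k
  have hN := a07_norm hε hG hGs
  set N : ℝ := ‖G * star h‖ with hNd
  have hN0 : 0 ≤ N := norm_nonneg _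
  have hlim : Filter.Tendsto (fun K : ℕ => q ^ K) Filter.atTop (nhds 0) :=
    tendsto_pow_atTop_nhds_zero_of_lt_one hq hq1
  have h1 : G * (star h * h) = 1 - ε • G := by
    have hG' := hG
    rw [mul_add, ← Algebra.commutes, ← Algebra.smul_def] at hG'
    rw [← hG']
    abel
  -- n2 of G
  have hGn : n2 τ G ≤ N * C1 := by
    have h2 : ∀ K : ℕ, n2 τ G ≤ N * C1 + ‖G‖ * (C * q ^ K) := by
      intro K
      have h3 : G = G * star h * star (Y K) + G * star (w ^ K) := by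
        have h4 : star h * star (Y K) = 1 - star (w ^ K) := by
          rw [← star_mul, hYh, star_sub, star_one]
        rw [mul_assoc, h4, mul_sub, mul_one, sub_add_cancel]
      have h5 : n2 τ G ≤ n2 τ (G * star h * star (Y K)) + n2 τ (G * star (w ^ K)) := by
        conv_lhs => rw [h3]
        exact n2_add_le τ _ _
      have h6 : n2 τ (G * star h * star (Y K)) ≤ N * C1 := by
        refine (n2_mul_le τ _ _).trans ?_
        rw [n2_star]
        exact mul_le_mul_of_nonneg_left (hYn K) hN0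
      have h7 : n2 τ (G * star (w ^ K)) ≤ ‖G‖ * (C * q ^ K) := by
        refine (n2_mul_le τ _ _).trans ?_
        rw [n2_star]
        exact mul_le_mul_of_nonneg_left (hwn K) (norm_nonneg _)
      linarith
    have h3 : Filter.Tendsto (fun K : ℕ => N * C1 + ‖G‖ * (C * q ^ K)) Filter.atTop
        (nhds (N * C1 + ‖G‖ * (C * 0))) :=
      tendsto_const_nhds.add ((hlim.const_mul C).const_mul ‖G‖)
    rw [mul_zero, mul_zero, add_zero] at h3
    exact ge_of_tendsto' h3 h2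
  have hX : ‖τ.f (G * star h * X)‖ ≤ ε * (n2 τ G * C1) := by
    have h2 : ∀ K : ℕ, ‖τ.f (G * star h * X)‖ ≤
        ε * (n2 τ G * C1) + n2 τ (G * star h) * (C * q ^ K) := by
      intro K
      have h3 : G * star h * X = Y K * X - ε • (G * (Y K * X)) + G * star h * (w ^ K * X) := by
        have h4 : X = h * Y K * X + w ^ K * X := by
          rw [hhY, sub_mul, one_mul, sub_add_cancel]
        have h5 : G * star h * (h * Y K * X) = Y K * X - ε • (G * (Y K * X)) := by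
          have h6 : G * star h * (h * Y K * X) = (G * (star h * h)) * (Y K * X) := by
            simp only [mul_assoc]
          rw [h6, h1, sub_mul, one_mul, smul_mul_assoc]
        conv_lhs => rw [h4]
        rw [mul_add, h5]
      have h4 : τ.f (G * star h * X) =
          -(((ε : ℝ) : ℂ) * τ.f (G * (Y K * X))) + τ.f (G * star h * (w ^ K * X)) := by
        rw [h3, map_add, map_sub, hYXt, ← Complex.coe_smul, map_smul, smul_eq_mul, zero_sub]
      rw [h4]
      refine (norm_add_le _ _).trans ?_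
      rw [norm_neg, norm_mul, Complex.norm_real, Real.norm_of_nonneg hε.le]
      have h5 : ‖τ.f (G * (Y K * X))‖ ≤ n2 τ G * C1 :=
        (norm_tr_mul_le' τ _ _).trans (mul_le_mul_of_nonneg_left (hYXn K) (n2_nonneg τ G))
      have h6 : ‖τ.f (G * star h * (w ^ K * X))‖ ≤ n2 τ (G * star h) * (C * q ^ K) :=
        (norm_tr_mul_le' τ _ _).trans
          (mul_le_mul_of_nonneg_left (hwXn K) (n2_nonneg τ (G * star h)))
      have h7 := mul_le_mul_of_nonneg_left h5 hε.le
      linarith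
    have h3 : Filter.Tendsto
        (fun K : ℕ => ε * (n2 τ G * C1) + n2 τ (G * star h) * (C * q ^ K)) Filter.atTop
        (nhds (ε * (n2 τ G * C1) + n2 τ (G * star h) * (C * 0))) :=
      tendsto_const_nhds.add ((hlim.const_mul C).const_mul _)
    rw [mul_zero, mul_zero, add_zero] at h3
    exact ge_of_tendsto' h3 h2
  have hs : 0 < Real.sqrt ε := Real.sqrt_pos.2 hε
  have hsq : Real.sqrt ε * Real.sqrt ε = ε := Real.mul_self_sqrt hε.le
  have h2 : n2 τ G ≤ 1 / (2 * Real.sqrt ε) * C1 :=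
    hGn.trans (mul_le_mul_of_nonneg_right hN hC1)
  calc ‖τ.f (G * star h * X)‖ ≤ ε * (n2 τ G * C1) := hX
    _ ≤ ε * (1 / (2 * Real.sqrt ε) * C1 * C1) := by
        refine mul_le_mul_of_nonneg_left ?_ hε.le
        exact mul_le_mul_of_nonneg_right h2 hC1
    _ = C1 ^ 2 * Real.sqrt ε / 2 := by
        rw [← hsq]
        have h3 : Real.sqrt (Real.sqrt ε * Real.sqrt ε) = Real.sqrt ε := by rw [hsq]
        rw [h3]
        field_simp

private theorem a07_pos (x : 𝔄) {ε : ℝ} (hε : 0 < ε) :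
    IsStrictlyPositive (star x * x + algebraMap ℝ 𝔄 ε) := by
  refine IsStrictlyPositive.nonneg_add (star_mul_self_nonneg x) ?_
  rw [Algebra.algebraMap_eq_smul_one]
  exact IsStrictlyPositive.smul hε isStrictlyPositive_one

theorem D_one_add_eq_zero {X : 𝔄} (hu : IsUnit (1 + X)) {C q : ℝ} (hq : 0 ≤ q) (hq1 : q < 1)
    (hC : ∀ k : ℕ, n2 τ (X ^ k) ≤ C * q ^ k) (h0 : ∀ k : ℕ, τ.f (X ^ (k + 1)) = 0) :
    D τ (1 + X) = 0 := by
  set C1 : ℝ := C / (1 - q) with hC1d
  -- the derivative along the path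
  have hmain : ∀ ε : ℝ, 0 < ε →
      |L τ (star (1 + X) * (1 + X) + algebraMap ℝ 𝔄 ε) - τ.mass * Real.log (1 + ε)| ≤
        C1 ^ 2 * Real.sqrt ε := by
    intro ε hε
    set h : ℝ → 𝔄 := fun s => 1 + s • X with hh
    set P : ℝ → 𝔄 := fun s => star (h s) * h s + algebraMap ℝ 𝔄 ε with hP
    have hsa : ∀ s, IsSelfAdjoint (P s) := fun s => (a07_pos (h s) hε).isSelfAdjoint
    have hdh : ∀ s : ℝ, HasDerivAt h X s := by
      intro s
      have h1 : HasDerivAt (fun s : ℝ => s • X) ((1 : ℝ) • X) s :=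
        (hasDerivAt_id s).smul_const X
      rw [one_smul] at h1
      exact h1.const_add 1
    have hdP : ∀ s : ℝ, HasDerivAt P (star X * h s + star (h s) * X) s := by
      intro s
      have h1 := ((hdh s).star.mul (hdh s)).add_const (algebraMap ℝ 𝔄 ε)
      exact h1
    have hdL : ∀ s : ℝ, HasDerivAt (fun s => L τ (P s))
        (τ.f (Ring.inverse (P s) * (star X * h s + star (h s) * X))).re s := fun s =>
      hasDerivAt_L τ hsa (a07_pos (h s) hε) (hdP s)
    have hbd : ∀ s ∈ Set.Ico (0 : ℝ) 1,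
        ‖(τ.f (Ring.inverse (P s) * (star X * h s + star (h s) * X))).re‖ ≤
          C1 ^ 2 * Real.sqrt ε := by
      intro s hs
      have hpos := a07_pos (h s) hε
      set G : 𝔄 := Ring.inverse (P s) with hGd
      have hG : G * P s = 1 := Ring.inverse_mul_cancel _ hpos.isUnit
      have hGs : star G = G := (hpos.ringInverse).isSelfAdjoint.star_eq
      have hk := a07_key τ hq hq1 hC h0 (z := (s : ℂ)) (ε := ε) (h := h s) (G := G)
        (by
          rw [Complex.norm_real, Real.norm_of_nonneg hs.1]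
          exact hs.2.le) hε
        (by
          show 1 + s • X = 1 + (s : ℂ) • X
          rw [Complex.coe_smul]) hG hGs
      have h1 : τ.f (G * (star X * h s)) = star (τ.f (G * star (h s) * X)) := by
        rw [← τ.star_map, star_mul, star_mul, star_star, hGs, τ.comm, mul_assoc]
      have h2 : (τ.f (G * (star X * h s + star (h s) * X))).re =
          2 * (τ.f (G * star (h s) * X)).re := by
        rw [mul_add, map_add, Complex.add_re, h1, Complex.star_def, Complex.conj_re, mul_assoc]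
        ring
      rw [h2, norm_mul, Real.norm_two]
      have h3 : ‖(τ.f (G * star (h s) * X)).re‖ ≤ C1 ^ 2 * Real.sqrt ε / 2 :=
        (Complex.abs_re_le_norm _).trans hk
      linarith
    have hmv := norm_image_sub_le_of_norm_deriv_le_segment_01'
      (f := fun s => L τ (P s)) (fun s _ => (hdL s).hasDerivWithinAt) hbd
    have hP1 : P 1 = star (1 + X) * (1 + X) + algebraMap ℝ 𝔄 ε := by
      show star (1 + (1 : ℝ) • X) * (1 + (1 : ℝ) • X) + algebraMap ℝ 𝔄 ε = _
      rw [one_smul]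
    have hP0 : P 0 = algebraMap ℝ 𝔄 (1 + ε) := by
      show star (1 + (0 : ℝ) • X) * (1 + (0 : ℝ) • X) + algebraMap ℝ 𝔄 ε = _
      rw [zero_smul, add_zero, star_one, mul_one, map_add, map_one]
    rw [hP1, hP0, L_algebraMap, Real.norm_eq_abs] at hmv
    exact hmv
  -- the limit
  have hpos : IsStrictlyPositive (star (1 + X) * (1 + X) + algebraMap ℝ 𝔄 0) := by
    rw [map_zero, add_zero]
    exact (hu.star.mul hu).isStrictlyPositive (star_mul_self_nonneg _)
  have hcont : ContinuousAt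
      (fun s : ℝ => L τ (star (1 + X) * (1 + X) + algebraMap ℝ 𝔄 s)) 0 := by
    refine continuousAt_L τ (h := fun s : ℝ => star (1 + X) * (1 + X) + algebraMap ℝ 𝔄 s) ?_ hpos ?_
    · intro s
      exact (IsSelfAdjoint.star_mul_self _).add (IsSelfAdjoint.algebraMap 𝔄 (IsSelfAdjoint.all s))
    · exact continuousAt_const.add (continuous_algebraMap ℝ 𝔄).continuousAt
  have hL : L τ (star (1 + X) * (1 + X)) = 0 := by
    have h1 : Filter.Tendsto
        (fun s : ℝ => |L τ (star (1 + X) * (1 + X) + algebraMap ℝ 𝔄 s)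
          - τ.mass * Real.log (1 + s)|) (nhdsWithin 0 (Set.Ioi 0))
        (nhds |L τ (star (1 + X) * (1 + X) + algebraMap ℝ 𝔄 0) - τ.mass * Real.log (1 + 0)|) := by
      refine Filter.Tendsto.abs ?_
      refine Filter.Tendsto.sub (hcont.tendsto.mono_left nhdsWithin_le_nhds) ?_
      refine Filter.Tendsto.const_mul _ ?_
      have h2 : ContinuousAt (fun s : ℝ => Real.log (1 + s)) 0 := by
        refine ContinuousAt.log (by fun_prop) (by norm_num)
      exact h2.tendsto.mono_left nhdsWithin_le_nhds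
    have h2 : Filter.Tendsto (fun s : ℝ => C1 ^ 2 * Real.sqrt s) (nhdsWithin 0 (Set.Ioi 0))
        (nhds (C1 ^ 2 * Real.sqrt 0)) := by
      have h3 : ContinuousAt (fun s : ℝ => C1 ^ 2 * Real.sqrt s) 0 := by fun_prop
      exact h3.tendsto.mono_left nhdsWithin_le_nhds
    have h3 : |L τ (star (1 + X) * (1 + X) + algebraMap ℝ 𝔄 0) - τ.mass * Real.log (1 + 0)| ≤
        C1 ^ 2 * Real.sqrt 0 := by
      refine le_of_tendsto_of_tendsto h1 h2 ?_
      filter_upwards [self_mem_nhdsWithin] with s hs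
      exact hmain s hs
    rw [map_zero, add_zero, add_zero, Real.log_one, mul_zero, sub_zero, Real.sqrt_zero,
      mul_zero] at h3
    exact abs_eq_zero.1 (le_antisymm h3 (abs_nonneg _))
  unfold D
  rw [hL, zero_div]

/-- If moreover `a X^k b` is traceless for all `k`, then so is `a (1+X)⁻¹ b`:
`(1+X)⁻¹ - Σ_{k<K} (-X)^k = (1+X)⁻¹ (-X)^K`, so
`|τ (a (1+X)⁻¹ b)| = |τ (a (1+X)⁻¹ (-X)^K b)| ≤ √mass ‖a (1+X)⁻¹‖ ‖b‖ C q^K → 0`. -/
theorem tr_inverse_eq_zero {X a b : 𝔄} (hu : IsUnit (1 + X)) {C q : ℝ} (hq : 0 ≤ q)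
    (hq1 : q < 1) (hC : ∀ k : ℕ, n2 τ (X ^ k) ≤ C * q ^ k)
    (h0 : ∀ k : ℕ, τ.f (a * X ^ k * b) = 0) :
    τ.f (a * Ring.inverse (1 + X) * b) = 0 := by
  set I : 𝔄 := Ring.inverse (1 + X) with hI
  have hI1 : I * (1 + X) = 1 := Ring.inverse_mul_cancel _ hu
  have hpow : ∀ k : ℕ, (-X) ^ k = (-1 : ℂ) ^ k • X ^ k := by
    intro k
    rw [← smul_pow, neg_one_smul]
  have h1 : ∀ K : ℕ, ‖τ.f (a * I * b)‖ ≤ n2 τ (b * (a * I)) * (C * q ^ K) := by
    intro K
    have h2 : I = (∑ k ∈ Finset.range K, (-X) ^ k) + I * (-X) ^ K := by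
      have h3 : (1 + X) * (∑ k ∈ Finset.range K, (-X) ^ k) = 1 - (-X) ^ K := by
        have h4 := mul_neg_geom_sum (-X) K
        rwa [sub_neg_eq_add] at h4
      have h5 : I * ((1 + X) * (∑ k ∈ Finset.range K, (-X) ^ k)) =
          ∑ k ∈ Finset.range K, (-X) ^ k := by
        rw [← mul_assoc, hI1, one_mul]
      rw [h3, mul_sub, mul_one] at h5
      rw [← h5, sub_add_cancel]
    have h3 : τ.f (a * I * b) = τ.f (b * (a * I) * (-X) ^ K) := by
      have h4 : a * I * b = (∑ k ∈ Finset.range K, (-1 : ℂ) ^ k • (a * X ^ k * b))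
          + a * I * (-X) ^ K * b := by
        conv_lhs => rw [h2]
        rw [mul_add, add_mul, Finset.mul_sum, Finset.sum_mul]
        congr 1
        · refine Finset.sum_congr rfl fun k _ => ?_
          rw [hpow, mul_smul_comm, smul_mul_assoc]
        · simp only [mul_assoc]
      rw [h4, map_add, map_sum, Finset.sum_eq_zero (fun k _ => by
        rw [map_smul, h0, smul_zero]), zero_add, τ.comm, ← mul_assoc]
    rw [h3]
    refine (norm_tr_mul_le' τ _ _).trans ?_
    refine mul_le_mul_of_nonneg_left ?_ (n2_nonneg τ _)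
    rw [hpow, n2_smul, norm_pow, norm_neg, norm_one, one_pow, one_mul]
    exact hC K
  have h2 : Filter.Tendsto (fun K : ℕ => n2 τ (b * (a * I)) * (C * q ^ K)) Filter.atTop
      (nhds (n2 τ (b * (a * I)) * (C * 0))) :=
    ((tendsto_pow_atTop_nhds_zero_of_lt_one hq hq1).const_mul C).const_mul _
  rw [mul_zero, mul_zero] at h2
  have h3 : ‖τ.f (a * I * b)‖ ≤ 0 := ge_of_tendsto' h2 h1
  exact norm_eq_zero.1 (le_antisymm h3 (norm_nonneg _))

/-- For a unitary `g` with `τ (g^k) = 0` for all `k ≥ 1` : `L (|g - 1|² + ε)` tends to something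
`≤ 0` as `ε → 0`.  (`ε ≤ ε₀`: let `0 < r < 1` with `r + 1/r = 2 + ε`.  Then
`|1-g|² + ε = r⁻¹ |1 - r g|²`, so `L (...) = - mass log r + 2 D (1 - r g)` and `D (1 - r g) = 0` by
`D_one_add_eq_zero` (`X = - r g`, `n2 (X^k) = r^k √mass`; `1 - r g` is invertible as `‖r g‖ < 1`).
As `ε → 0`, `r → 1`.) -/
theorem L_sub_one_le {g : 𝔄} (hg : star g * g = 1) (hg' : g * star g = 1)
    (h0 : ∀ k : ℕ, τ.f (g ^ (k + 1)) = 0) {ρ : ℝ} (hρ : 0 < ρ) :
    ∃ ε₀ : ℝ, 0 < ε₀ ∧ ∀ ε : ℝ, 0 < ε → ε ≤ ε₀ →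
      L τ (star (g - 1) * (g - 1) + algebraMap ℝ 𝔄 ε) ≤ ρ := by
  have hm := mass_nonneg τ
  set r : ℝ := Real.exp (-(ρ / (τ.mass + 1))) with hr
  have hr0 : 0 < r := Real.exp_pos _
  have hr1 : r < 1 := by
    rw [hr, Real.exp_lt_one_iff]
    have : 0 < ρ / (τ.mass + 1) := by positivity
    linarith
  have hrho : -(τ.mass * Real.log r) ≤ ρ := by
    rw [hr, Real.log_exp]
    have h1 : -(τ.mass * -(ρ / (τ.mass + 1))) = ρ * (τ.mass / (τ.mass + 1)) := by
      field_simp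
    rw [h1]
    refine mul_le_of_le_one_right hρ.le ?_
    rw [div_le_one (by positivity)]
    linarith
  set ε₀ : ℝ := (1 - r) ^ 2 / r with hε₀
  have hε₀0 : 0 < ε₀ := by
    have : 0 < 1 - r := by linarith
    positivity
  refine ⟨ε₀, hε₀0, ?_⟩
  intro ε hε hle
  -- the norm of g
  have hgn : ‖g‖ ≤ 1 := by
    have h1 : ‖star g * g‖ ≤ 1 := by
      rw [CStarAlgebra.norm_le_iff_le_algebraMap _ zero_le_one (star_mul_self_nonneg g), hg,
        map_one]
    rw [CStarRing.norm_star_mul_self] at h1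
    nlinarith [norm_nonneg g]
  have hgk : ∀ k : ℕ, star (g ^ k) * g ^ k = 1 := by
    intro k
    induction k with
    | zero => simp
    | succ k ih =>
      rw [pow_succ, star_mul]
      have h1 : star g * star (g ^ k) * (g ^ k * g) = star g * (star (g ^ k) * g ^ k) * g := by
        simp only [mul_assoc]
      rw [h1, ih, mul_one, hg]
  set X : 𝔄 := (-(r : ℂ)) • g with hX
  have hXk : ∀ k : ℕ, X ^ k = (-(r : ℂ)) ^ k • g ^ k := fun k => by rw [hX, smul_pow]
  have hn : ∀ k : ℕ, n2 τ (X ^ k) ≤ Real.sqrt τ.mass * r ^ k := by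
    intro k
    rw [hXk, n2_smul, norm_pow, norm_neg, Complex.norm_real, Real.norm_of_nonneg hr0.le]
    have h1 : n2 τ (g ^ k) = Real.sqrt τ.mass := by
      unfold n2 Tr.mass
      rw [hgk]
    rw [h1, mul_comm]
  have hu : IsUnit (1 + X) := by
    have h1 : ‖-X‖ < 1 := by
      rw [norm_neg, hX, norm_smul, norm_neg, Complex.norm_real, Real.norm_of_nonneg hr0.le]
      calc r * ‖g‖ ≤ r * 1 := mul_le_mul_of_nonneg_left hgn hr0.le
        _ < 1 := by linarith
    have h2 := (Units.oneSub (-X) h1).isUnit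
    rwa [Units.val_oneSub, sub_neg_eq_add] at h2
  have hD : D τ (1 + X) = 0 := by
    refine D_one_add_eq_zero τ hu hr0.le hr1 hn ?_
    intro k
    rw [hXk, map_smul, h0, smul_zero]
  have hL : L τ (star (1 + X) * (1 + X)) = 0 := by
    unfold D at hD
    linarith
  -- the identity
  have hid : star (g - 1) * (g - 1) + algebraMap ℝ 𝔄 ε₀ = r⁻¹ • (star (1 + X) * (1 + X)) := by
    have hXr : X = -(r • g) := by
      rw [hX, neg_smul, Complex.coe_smul]
    have h1 : star (1 + X) * (1 + X) = (1 + r ^ 2) • (1 : 𝔄) - r • g - r • star g := by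
      rw [hXr, star_add, star_one, star_neg, star_smul, star_trivial, add_mul, mul_add, mul_add,
        one_mul, mul_one, neg_mul_neg, smul_mul_smul_comm, hg, one_mul, ← pow_two, add_smul,
        one_smul]
      abel
    have h2 : star (g - 1) * (g - 1) = (2 : ℝ) • (1 : 𝔄) - g - star g := by
      rw [star_sub, star_one, sub_mul, mul_sub, mul_sub, hg, one_mul, one_mul, mul_one,
        two_smul]
      abel
    rw [h1, h2, smul_sub, smul_sub, smul_smul, smul_smul, smul_smul,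
      inv_mul_cancel₀ hr0.ne', one_smul, one_smul, Algebra.algebraMap_eq_smul_one]
    have h3 : r⁻¹ * (1 + r ^ 2) = 2 + ε₀ := by
      rw [hε₀]
      field_simp
      ring
    rw [h3, add_smul]
    abel
  have hpos : IsStrictlyPositive (star (1 + X) * (1 + X)) :=
    (hu.star.mul hu).isStrictlyPositive (star_mul_self_nonneg _)
  have hle2 : star (g - 1) * (g - 1) + algebraMap ℝ 𝔄 ε ≤
      star (g - 1) * (g - 1) + algebraMap ℝ 𝔄 ε₀ := by
    refine add_le_add_right ?_ _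
    exact algebraMap_mono 𝔄 hle
  calc L τ (star (g - 1) * (g - 1) + algebraMap ℝ 𝔄 ε)
      ≤ L τ (star (g - 1) * (g - 1) + algebraMap ℝ 𝔄 ε₀) := L_mono τ (a07_pos _ hε) hle2
    _ = τ.mass * Real.log r⁻¹ + L τ (star (1 + X) * (1 + X)) := by
        rw [hid, L_smul τ hpos (inv_pos.2 hr0)]
    _ = -(τ.mass * Real.log r) := by
        rw [hL, Real.log_inv]
        ring
    _ ≤ ρ := hrho

end LT
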