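import Mathlib

/-!
# LT-M06: facts about complex Hermitian matrices (Loewner order via `PosSemidef`)

* `tendsto_of_antitone`: a sequence of Hermitian matrices `x n ≥ 0`, decreasing
  (`(x n - x (n+1)).PosSemidef`), converges (entrywise) to a matrix.  For each vector `v` the real
  sequence `star v ⬝ᵥ x n *ᵥ v` is decreasing and bounded below, so it converges; by polarisation
  (`4 ⟨v, x w⟩ = Σ_k i^k ⟨v + i^k w, x (v + i^k w)⟩` up to the order of conjugations) every entry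
  converges.  Limits of psd matrices are psd (closedness).
* `posSemidef_inv_sub_inv`: `0 < A ≤ B` implies `B⁻¹ ≤ A⁻¹`.  (`A^{-1/2} B A^{-1/2} ≥ 1`; or:
  `A⁻¹ - B⁻¹` is the Schur complement of ... ; or use the C*-algebra `CStarMatrix ι ι ℂ` and
  `CFC` `ringInverse_le_ringInverse`; or the identity
  `A⁻¹ - B⁻¹ = B⁻¹ (B - A) B⁻¹ + B⁻¹ (B - A) A⁻¹ (B - A) B⁻¹`, both terms psd.)
* `det_le_det`: `0 ≤ A ≤ B` implies `det A ≤ det B`: if `A` is positive definite,
  `det B / det A = det (A^{-1/2} B A^{-1/2})` is a product of eigenvalues `≥ 1`; if `A` is singular,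
  `det A = 0 ≤ det B`.
* `norm_det_s_le`: for Hermitian `0 < a, b` with `a, b ≤ 1`, `a + b - a b = a (a⁻¹ + b⁻¹ - 1) b`
  and `a + b = a (a⁻¹ + b⁻¹) b`; `a⁻¹, b⁻¹ ≥ 1`, so `0 < a⁻¹ + b⁻¹ - 1 ≤ a⁻¹ + b⁻¹` and
  `det_le_det` applies.
* `inv_le_of_sub`: for `0 < x`, `x ≤ 1 - δ`: `x (1-x)⁻¹ ≥ x` (functions of `x`).
* `trace_mul_le`: `0 ≤ A ≤ B`, `0 ≤ C`: `tr (A C) ≤ tr (B C)` (`tr ((B-A) C) ≥ 0`, product of two psd).
* `trace_inv_mul`: `tr (Z⁻¹ (p + q)) = N` if `p + q = Z`.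
-/

set_option linter.unusedSectionVars false

namespace LT

open scoped Matrix ComplexOrder

variable {ι : Type*} [Fintype ι] [DecidableEq ι]

private theorem ltm6_spec {A : Matrix ι ι ℂ} (hA : A.IsHermitian) :
    ∃ (U : Matrix ι ι ℂ) (l : ι → ℝ), Uᴴ * U = 1 ∧ U * Uᴴ = 1 ∧
      A = U * Matrix.diagonal (fun i => (l i : ℂ)) * Uᴴ := by
  refine ⟨(hA.eigenvectorUnitary : Matrix ι ι ℂ), hA.eigenvalues, ?_, ?_, ?_⟩
  · exact Unitary.coe_star_mul_self hA.eigenvectorUnitary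
  · exact Unitary.coe_mul_star_self hA.eigenvectorUnitary
  · have h := hA.spectral_theorem
    rw [Unitary.conjStarAlgAut_apply] at h
    exact h

private theorem ltm6_diag {A U : Matrix ι ι ℂ} {l : ι → ℝ} (h1 : Uᴴ * U = 1)
    (h : A = U * Matrix.diagonal (fun i => (l i : ℂ)) * Uᴴ) :
    Uᴴ * A * U = Matrix.diagonal (fun i => (l i : ℂ)) := by
  rw [h]
  calc Uᴴ * (U * Matrix.diagonal (fun i => (l i : ℂ)) * Uᴴ) * U
      = (Uᴴ * U) * Matrix.diagonal (fun i => (l i : ℂ)) * (Uᴴ * U) := by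
        simp only [Matrix.mul_assoc]
    _ = _ := by rw [h1, Matrix.one_mul, Matrix.mul_one]

private theorem ltm6_nn {A U : Matrix ι ι ℂ} {l : ι → ℝ} (h1 : Uᴴ * U = 1)
    (h : A = U * Matrix.diagonal (fun i => (l i : ℂ)) * Uᴴ) (hA : A.PosSemidef) (i : ι) :
    0 ≤ l i := by
  have h2 := hA.conjTranspose_mul_mul_same U
  rw [ltm6_diag h1 h, Matrix.posSemidef_diagonal_iff] at h2
  exact_mod_cast h2 i

private theorem ltm6_psd {A U : Matrix ι ι ℂ} {l : ι → ℝ}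
    (h : A = U * Matrix.diagonal (fun i => (l i : ℂ)) * Uᴴ) (hl : ∀ i, 0 ≤ l i) :
    A.PosSemidef := by
  rw [h]
  refine Matrix.PosSemidef.mul_mul_conjTranspose_same ?_ U
  rw [Matrix.posSemidef_diagonal_iff]
  intro i
  exact_mod_cast hl i

private theorem ltm6_sqrt {A : Matrix ι ι ℂ} (hA : A.PosSemidef) :
    ∃ S : Matrix ι ι ℂ, Sᴴ = S ∧ S * S = A := by
  obtain ⟨U, l, h1, h2, h3⟩ := ltm6_spec hA.isHermitian
  have hl := ltm6_nn h1 h3 hA
  refine ⟨U * Matrix.diagonal (fun i => ((Real.sqrt (l i) : ℝ) : ℂ)) * Uᴴ, ?_, ?_⟩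
  · rw [Matrix.conjTranspose_mul, Matrix.conjTranspose_mul, Matrix.conjTranspose_conjTranspose,
      Matrix.diagonal_conjTranspose, Matrix.mul_assoc]
    congr 2
    ext i j
    by_cases hij : i = j
    · subst hij
      simp
    · simp [hij]
  · calc U * Matrix.diagonal (fun i => ((Real.sqrt (l i) : ℝ) : ℂ)) * Uᴴ *
          (U * Matrix.diagonal (fun i => ((Real.sqrt (l i) : ℝ) : ℂ)) * Uᴴ)
        = U * (Matrix.diagonal (fun i => ((Real.sqrt (l i) : ℝ) : ℂ)) * (Uᴴ * U) *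
          Matrix.diagonal (fun i => ((Real.sqrt (l i) : ℝ) : ℂ))) * Uᴴ := by
          simp only [Matrix.mul_assoc]
      _ = A := by
          rw [h1, Matrix.mul_one, Matrix.diagonal_mul_diagonal, h3]
          congr 3
          funext i
          rw [← Complex.ofReal_mul, Real.mul_self_sqrt (hl i)]

private theorem ltm6_smul {A U : Matrix ι ι ℂ} {l : ι → ℝ} (h2 : U * Uᴴ = 1)
    (h : A = U * Matrix.diagonal (fun i => (l i : ℂ)) * Uᴴ) (c : ℝ) :
    (c : ℂ) • (1 : Matrix ι ι ℂ) - A =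
      U * Matrix.diagonal (fun i => ((c - l i : ℝ) : ℂ)) * Uᴴ := by
  have h3 : Matrix.diagonal (fun i => ((c - l i : ℝ) : ℂ)) =
      (c : ℂ) • (1 : Matrix ι ι ℂ) - Matrix.diagonal (fun i => (l i : ℂ)) := by
    ext i j
    by_cases hij : i = j
    · subst hij
      simp
    · simp [hij]
  rw [h3, Matrix.mul_sub, Matrix.sub_mul, ← h, Matrix.mul_smul, Matrix.mul_one,
    Matrix.smul_mul, h2]

/-- `det (1 + C) ≥ 1` -/
private theorem ltm6_det_one {C : Matrix ι ι ℂ} (hC : C.PosSemidef) :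
    ∃ r : ℝ, 1 ≤ r ∧ (1 + C).det = (r : ℂ) := by
  obtain ⟨U, l, h1, h2, h3⟩ := ltm6_spec hC.isHermitian
  have hl := ltm6_nn h1 h3 hC
  refine ⟨∏ i, (1 + l i), ?_, ?_⟩
  · have h4 : ∏ _i : ι, (1 : ℝ) ≤ ∏ i, (1 + l i) := by
      refine Finset.prod_le_prod (fun _ _ => zero_le_one) fun i _ => ?_
      have := hl i
      linarith
    simpa using h4
  · have h4 : (1 : Matrix ι ι ℂ) + C = U * Matrix.diagonal (fun i => ((1 + l i : ℝ) : ℂ)) * Uᴴ := by
      have h5 : Matrix.diagonal (fun i => ((1 + l i : ℝ) : ℂ)) =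
          (1 : Matrix ι ι ℂ) + Matrix.diagonal (fun i => (l i : ℂ)) := by
        ext i j
        by_cases hij : i = j
        · subst hij
          simp
        · simp [hij]
      rw [h5, Matrix.mul_add, Matrix.add_mul, ← h3, Matrix.mul_one, h2]
    have h6 : U.det * Uᴴ.det = 1 := by rw [← Matrix.det_mul, h2, Matrix.det_one]
    rw [h4, Matrix.det_mul, Matrix.det_mul, Matrix.det_diagonal]
    calc U.det * (∏ i, ((1 + l i : ℝ) : ℂ)) * Uᴴ.det
        = (U.det * Uᴴ.det) * ∏ i, ((1 + l i : ℝ) : ℂ) := by ring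
      _ = _ := by rw [h6, one_mul, Complex.ofReal_prod]

private theorem ltm6_real {A : Matrix ι ι ℂ} (hA : A.PosSemidef) :
    ∃ r : ℝ, 0 ≤ r ∧ A.det = (r : ℂ) := by
  have h := hA.det_nonneg
  rw [Complex.le_def] at h
  refine ⟨A.det.re, h.1, ?_⟩
  apply Complex.ext
  · simp
  · simpa using h.2.symm

theorem tendsto_of_antitone (x : ℕ → Matrix ι ι ℂ) (h0 : ∀ n, (x n).PosSemidef)
    (hx : ∀ n, (x n - x (n + 1)).PosSemidef) :
    ∃ y : Matrix ι ι ℂ, Filter.Tendsto x Filter.atTop (nhds y) := by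
  have hre : ∀ (A : Matrix ι ι ℂ) (v : ι → ℂ), A.PosSemidef →
      star v ⬝ᵥ (A *ᵥ v) = (((star v ⬝ᵥ (A *ᵥ v)).re : ℝ) : ℂ) := by
    intro A v hA
    have h := hA.dotProduct_mulVec_nonneg v
    rw [Complex.le_def] at h
    apply Complex.ext
    · simp
    · simpa using h.2.symm
  have hv : ∀ v : ι → ℂ, ∃ q : ℂ,
      Filter.Tendsto (fun n => star v ⬝ᵥ (x n *ᵥ v)) Filter.atTop (nhds q) := by
    intro v
    have hanti : Antitone fun n => (star v ⬝ᵥ (x n *ᵥ v)).re := by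
      refine antitone_nat_of_succ_le fun n => ?_
      have h := (hx n).dotProduct_mulVec_nonneg v
      rw [Complex.le_def, Matrix.sub_mulVec, dotProduct_sub] at h
      have h1 := h.1
      rw [Complex.sub_re, Complex.zero_re] at h1
      linarith
    have hbd : BddBelow (Set.range fun n => (star v ⬝ᵥ (x n *ᵥ v)).re) := by
      refine ⟨0, ?_⟩
      rintro _ ⟨n, rfl⟩
      exact (h0 n).re_dotProduct_nonneg v
    have hlim := tendsto_atTop_ciInf hanti hbd
    refine ⟨((⨅ n, (star v ⬝ᵥ (x n *ᵥ v)).re : ℝ) : ℂ), ?_⟩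
    have h2 := (Complex.continuous_ofReal.tendsto _).comp hlim
    refine h2.congr fun n => ?_
    exact (hre (x n) v (h0 n)).symm
  choose q hq using hv
  have hQ : ∀ (A : Matrix ι ι ℂ) (i j : ι) (c : ℂ),
      star (Pi.single i 1 + Pi.single j c) ⬝ᵥ (A *ᵥ (Pi.single i 1 + Pi.single j c)) =
        A i i + c * A i j + star c * A j i + star c * c * A j j := by
    intro A i j c
    rw [Matrix.mulVec_add, star_add, add_dotProduct, dotProduct_add, dotProduct_add]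
    simp only [Pi.star_single, star_one, Matrix.mulVec_single, single_dotProduct, one_mul,
      MulOpposite.op_one, one_smul, Matrix.col_apply, Pi.smul_apply, MulOpposite.smul_eq_mul_unop,
      MulOpposite.unop_op]
    ring
  have hent : ∀ (A : Matrix ι ι ℂ) (i j : ι), A i j =
      ((star (Pi.single i 1 + Pi.single j 1) ⬝ᵥ (A *ᵥ (Pi.single i 1 + Pi.single j 1))) -
        A i i - A j j) / 2 -
      Complex.I * ((star (Pi.single i 1 + Pi.single j Complex.I) ⬝ᵥ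
        (A *ᵥ (Pi.single i 1 + Pi.single j Complex.I))) - A i i - A j j) / 2 := by
    intro A i j
    rw [hQ, hQ]
    have h1 : star Complex.I = -Complex.I := Complex.conj_I
    rw [h1, star_one]
    linear_combination ((A i j - A j i) / 2 - Complex.I / 2 * A j j) * Complex.I_mul_I
  have hdg : ∀ (A : Matrix ι ι ℂ) (i : ι), A i i =
      star (Pi.single i 1) ⬝ᵥ (A *ᵥ (Pi.single i 1)) := by
    intro A i
    simp
  have hd : ∀ i, Filter.Tendsto (fun n => x n i i) Filter.atTop (nhds (q (Pi.single i 1))) := by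
    intro i
    refine (hq (Pi.single i 1)).congr fun n => ?_
    exact (hdg (x n) i).symm
  refine ⟨Matrix.of fun i j => (q (Pi.single i 1 + Pi.single j 1) - q (Pi.single i 1) -
    q (Pi.single j 1)) / 2 - Complex.I * (q (Pi.single i 1 + Pi.single j Complex.I) -
    q (Pi.single i 1) - q (Pi.single j 1)) / 2, ?_⟩
  refine tendsto_pi_nhds.2 fun i => tendsto_pi_nhds.2 fun j => ?_
  have h1 := ((((hq (Pi.single i 1 + Pi.single j 1)).sub (hd i)).sub (hd j)).div_const 2).sub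
    (((((hq (Pi.single i 1 + Pi.single j Complex.I)).sub (hd i)).sub (hd j)).const_mul
      Complex.I).div_const 2)
  refine h1.congr fun n => ?_
  exact (hent (x n) i j).symm

theorem posSemidef_of_tendsto {x : ℕ → Matrix ι ι ℂ} {y : Matrix ι ι ℂ}
    (h : Filter.Tendsto x Filter.atTop (nhds y)) (h0 : ∀ n, (x n).PosSemidef) : y.PosSemidef := by
  refine Matrix.PosSemidef.of_dotProduct_mulVec_nonneg ?_ ?_
  · have h1 : Filter.Tendsto (fun n => (x n)ᴴ) Filter.atTop (nhds yᴴ) :=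
      ((Continuous.matrix_conjTranspose continuous_id).tendsto y).comp h
    have h2 : (fun n => (x n)ᴴ) = x := by
      funext n
      exact (h0 n).isHermitian
    rw [h2] at h1
    exact tendsto_nhds_unique h1 h
  · intro v
    have h1 : Filter.Tendsto (fun n => star v ⬝ᵥ (x n *ᵥ v)) Filter.atTop
        (nhds (star v ⬝ᵥ (y *ᵥ v))) := by
      have hc : Continuous fun A : Matrix ι ι ℂ => star v ⬝ᵥ (A *ᵥ v) :=
        Continuous.dotProduct continuous_const (Continuous.matrix_mulVec continuous_id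
          continuous_const)
      exact (hc.tendsto y).comp h
    exact ge_of_tendsto' h1 fun n => (h0 n).dotProduct_mulVec_nonneg v

theorem posDef_of_le {A B : Matrix ι ι ℂ} (hA : A.PosDef) (h : (B - A).PosSemidef) :
    B.PosDef := by
  have h1 := hA.add_posSemidef h
  rwa [add_sub_cancel] at h1

theorem posSemidef_inv_sub_inv {A B : Matrix ι ι ℂ} (hA : A.PosDef) (h : (B - A).PosSemidef) :
    (A⁻¹ - B⁻¹).PosSemidef := by
  have hB := posDef_of_le hA h
  have hAu : IsUnit A.det := (Matrix.isUnit_iff_isUnit_det A).1 hA.isUnit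
  have hBu : IsUnit B.det := (Matrix.isUnit_iff_isUnit_det B).1 hB.isUnit
  have h1 : A * A⁻¹ = 1 := Matrix.mul_nonsing_inv A hAu
  have h2 : A⁻¹ * A = 1 := Matrix.nonsing_inv_mul A hAu
  have h3 : B * B⁻¹ = 1 := Matrix.mul_nonsing_inv B hBu
  have h4 : B⁻¹ * B = 1 := Matrix.nonsing_inv_mul B hBu
  have e1 : A⁻¹ - B⁻¹ = A⁻¹ * (B - A) * B⁻¹ := by
    rw [Matrix.mul_sub, Matrix.sub_mul, h2, Matrix.mul_assoc, h3, Matrix.mul_one, Matrix.one_mul]
  have e2 : A⁻¹ - B⁻¹ = B⁻¹ * (B - A) * A⁻¹ := by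
    rw [Matrix.mul_sub, Matrix.sub_mul, h4, Matrix.mul_assoc, h1, Matrix.mul_one, Matrix.one_mul]
  have e3 : A⁻¹ - B⁻¹ = B⁻¹ * (B - A) * B⁻¹ + B⁻¹ * ((B - A) * A⁻¹ * (B - A)) * B⁻¹ := by
    have e4 : A⁻¹ = B⁻¹ + B⁻¹ * (B - A) * A⁻¹ := by
      rw [← e2]
      abel
    calc A⁻¹ - B⁻¹ = A⁻¹ * (B - A) * B⁻¹ := e1
      _ = (B⁻¹ + B⁻¹ * (B - A) * A⁻¹) * (B - A) * B⁻¹ := by rw [← e4]
      _ = _ := by
        rw [Matrix.add_mul, Matrix.add_mul]
        simp only [Matrix.mul_assoc]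
  rw [e3]
  have hBi : (B⁻¹)ᴴ = B⁻¹ := hB.inv.isHermitian
  have hs : (B - A)ᴴ = B - A := h.isHermitian
  refine Matrix.PosSemidef.add ?_ ?_
  · have h5 := h.mul_mul_conjTranspose_same B⁻¹
    rwa [hBi] at h5
  · have h5 := hA.inv.posSemidef.mul_mul_conjTranspose_same (B - A)
    rw [hs] at h5
    have h6 := h5.mul_mul_conjTranspose_same B⁻¹
    rwa [hBi] at h6

theorem det_le_det {A B : Matrix ι ι ℂ} (hA : A.PosSemidef) (h : (B - A).PosSemidef) :
    A.det.re ≤ B.det.re := by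
  have hB : B.PosSemidef := by
    have h1 := hA.add h
    rwa [add_sub_cancel] at h1
  by_cases hd : A.det = 0
  · rw [hd, Complex.zero_re]
    exact (Complex.le_def.1 hB.det_nonneg).1
  · obtain ⟨S, hS1, hS2⟩ := ltm6_sqrt hA
    have hSd : IsUnit S.det := by
      rw [isUnit_iff_ne_zero]
      intro h0
      apply hd
      rw [← hS2, Matrix.det_mul, h0, zero_mul]
    have hSi : S * S⁻¹ = 1 := Matrix.mul_nonsing_inv S hSd
    have hSi' : S⁻¹ * S = 1 := Matrix.nonsing_inv_mul S hSd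
    have hSh : (S⁻¹)ᴴ = S⁻¹ := by rw [Matrix.conjTranspose_nonsing_inv, hS1]
    have hC := h.mul_mul_conjTranspose_same S⁻¹
    rw [hSh] at hC
    obtain ⟨r, hr1, hr2⟩ := ltm6_det_one hC
    have hB2 : B = S * (1 + S⁻¹ * (B - A) * S⁻¹) * S := by
      rw [Matrix.mul_add, Matrix.add_mul, Matrix.mul_one, hS2]
      have h1 : S * (S⁻¹ * (B - A) * S⁻¹) * S = (S * S⁻¹) * (B - A) * (S⁻¹ * S) := by
        simp only [Matrix.mul_assoc]
      rw [h1, hSi, hSi', Matrix.one_mul, Matrix.mul_one, add_sub_cancel]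
    obtain ⟨a, ha1, ha2⟩ := ltm6_real hA
    have h2 : B.det = ((a * r : ℝ) : ℂ) := by
      rw [hB2, Matrix.det_mul, Matrix.det_mul, hr2]
      have h3 : S.det * S.det = (a : ℂ) := by rw [← Matrix.det_mul, hS2, ha2]
      push_cast
      rw [← h3]
      ring
    rw [h2, ha2, Complex.ofReal_re, Complex.ofReal_re]
    nlinarith

theorem norm_det_s_le {a b : Matrix ι ι ℂ} (ha : a.PosDef) (hb : b.PosDef)
    (ha1 : (1 - a).PosSemidef) (hb1 : (1 - b).PosSemidef) :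
    ‖(a + b - a * b).det‖ ≤ (a + b).det.re := by
  have hau : IsUnit a.det := (Matrix.isUnit_iff_isUnit_det a).1 ha.isUnit
  have hbu : IsUnit b.det := (Matrix.isUnit_iff_isUnit_det b).1 hb.isUnit
  have h1 : a * a⁻¹ = 1 := Matrix.mul_nonsing_inv a hau
  have h4 : b⁻¹ * b = 1 := Matrix.nonsing_inv_mul b hbu
  have e1 : a + b - a * b = a * (a⁻¹ + b⁻¹ - 1) * b := by
    rw [Matrix.mul_sub, Matrix.mul_add, h1, Matrix.sub_mul, Matrix.add_mul, Matrix.one_mul,
      Matrix.mul_assoc, h4, Matrix.mul_one]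
    abel
  have e2 : a + b = a * (a⁻¹ + b⁻¹) * b := by
    rw [Matrix.mul_add, h1, Matrix.add_mul, Matrix.one_mul, Matrix.mul_assoc, h4, Matrix.mul_one]
    abel
  have ha2 : (a⁻¹ - 1).PosSemidef := by
    have h5 := posSemidef_inv_sub_inv ha ha1
    rwa [inv_one] at h5
  have hM : (a⁻¹ + b⁻¹ - 1).PosSemidef := by
    have h5 := ha2.add hb.inv.posSemidef
    have h6 : a⁻¹ - 1 + b⁻¹ = a⁻¹ + b⁻¹ - 1 := by abel
    rwa [h6] at h5
  have hN : (a⁻¹ + b⁻¹ - (a⁻¹ + b⁻¹ - 1)).PosSemidef := by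
    rw [sub_sub_cancel]
    exact Matrix.PosSemidef.one
  have hle := det_le_det hM hN
  obtain ⟨r, hr1, hr2⟩ := ltm6_real ha.posSemidef
  obtain ⟨s, hs1, hs2⟩ := ltm6_real hb.posSemidef
  obtain ⟨m, hm1, hm2⟩ := ltm6_real hM
  obtain ⟨n, hn1, hn2⟩ := ltm6_real (ha.inv.posSemidef.add hb.inv.posSemidef)
  rw [hm2, hn2, Complex.ofReal_re, Complex.ofReal_re] at hle
  rw [e1, e2, Matrix.det_mul, Matrix.det_mul, Matrix.det_mul, Matrix.det_mul, hr2, hs2, hm2, hn2,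
    ← Complex.ofReal_mul, ← Complex.ofReal_mul, ← Complex.ofReal_mul, ← Complex.ofReal_mul,
    Complex.ofReal_re, Complex.norm_real, Real.norm_eq_abs, abs_of_nonneg (by positivity)]
  gcongr

/-- `a (1-a)⁻¹ ≥ a` -/
theorem posSemidef_mul_inv_sub {a : Matrix ι ι ℂ} (ha : a.PosSemidef) (ha1 : (1 - a).PosDef) :
    (a * (1 - a)⁻¹ - a).PosSemidef := by
  have hu : IsUnit (1 - a).det := (Matrix.isUnit_iff_isUnit_det _).1 ha1.isUnit
  have h1 : (1 - a)⁻¹ * (1 - a) = 1 := Matrix.nonsing_inv_mul _ hu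
  have h2 : (1 - a)⁻¹ * a = (1 - a)⁻¹ - 1 := by
    have h3 : (1 - a)⁻¹ - (1 - a)⁻¹ * a = 1 := by
      rw [Matrix.mul_sub, Matrix.mul_one] at h1
      exact h1
    have h4 : (1 - a)⁻¹ * a = (1 - a)⁻¹ - ((1 - a)⁻¹ - (1 - a)⁻¹ * a) := by abel
    rw [h3] at h4
    exact h4
  have h3 : a * (1 - a)⁻¹ - a = a * (1 - a)⁻¹ * aᴴ := by
    have h4 : aᴴ = a := ha.isHermitian
    rw [h4, Matrix.mul_assoc, h2, Matrix.mul_sub, Matrix.mul_one]
  rw [h3]
  exact ha1.inv.posSemidef.mul_mul_conjTranspose_same a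

theorem trace_mul_re_nonneg {A B : Matrix ι ι ℂ} (hA : A.PosSemidef) (hB : B.PosSemidef) :
    0 ≤ (Matrix.trace (A * B)).re := by
  obtain ⟨S, hS1, hS2⟩ := ltm6_sqrt hA
  have h1 := (hB.mul_mul_conjTranspose_same S).trace_nonneg
  rw [hS1] at h1
  have h2 : Matrix.trace (A * B) = Matrix.trace (S * B * S) := by
    rw [← hS2, Matrix.trace_mul_comm (S * B) S, ← Matrix.mul_assoc]
  rw [h2]
  exact (Complex.le_def.1 h1).1

theorem posDef_of_sub_smul {a : Matrix ι ι ℂ} {δ : ℝ} (hδ : 0 < δ)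
    (h : (a - (δ : ℂ) • (1 : Matrix ι ι ℂ)).PosSemidef) : a.PosDef := by
  refine posDef_of_le ?_ h
  refine Matrix.PosDef.smul Matrix.PosDef.one ?_
  exact_mod_cast hδ

/-- every Hermitian matrix is `≤ c · 1` for some `c > 0` -/
theorem exists_le_smul_one {a : Matrix ι ι ℂ} (ha : a.IsHermitian) :
    ∃ c : ℝ, 0 < c ∧ ((c : ℂ) • (1 : Matrix ι ι ℂ) - a).PosSemidef := by
  obtain ⟨U, l, h1, h2, h3⟩ := ltm6_spec ha
  refine ⟨1 + ∑ i, |l i|, ?_, ?_⟩
  · have h4 : 0 ≤ ∑ i, |l i| := Finset.sum_nonneg fun i _ => abs_nonneg _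
    linarith
  · refine ltm6_psd (ltm6_smul h2 h3 _) fun i => ?_
    have h4 : |l i| ≤ ∑ i, |l i| :=
      Finset.single_le_sum (f := fun i => |l i|) (fun i _ => abs_nonneg _) (Finset.mem_univ i)
    have h5 := le_abs_self (l i)
    linarith

/-- a positive definite matrix is `≥ c · 1` for some `c > 0` -/
theorem exists_smul_one_le {a : Matrix ι ι ℂ} (ha : a.PosDef) :
    ∃ c : ℝ, 0 < c ∧ (a - (c : ℂ) • (1 : Matrix ι ι ℂ)).PosSemidef := by
  obtain ⟨c, hc, h⟩ := exists_le_smul_one ha.inv.isHermitian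
  refine ⟨c⁻¹, inv_pos.2 hc, ?_⟩
  have hau : IsUnit a.det := (Matrix.isUnit_iff_isUnit_det a).1 ha.isUnit
  have h1 := posSemidef_inv_sub_inv ha.inv h
  rw [Matrix.nonsing_inv_nonsing_inv a hau] at h1
  have h2 : ((c : ℂ) • (1 : Matrix ι ι ℂ))⁻¹ = ((c⁻¹ : ℝ) : ℂ) • (1 : Matrix ι ι ℂ) := by
    refine Matrix.inv_eq_right_inv ?_
    rw [Matrix.smul_mul, Matrix.mul_smul, smul_smul, Matrix.one_mul, Complex.ofReal_inv,
      mul_inv_cancel₀ (Complex.ofReal_ne_zero.2 hc.ne'), one_smul]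
  rwa [h2] at h1

end LT
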