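import Pool.Agent.H29.LT.Q02
import Pool.Agent.H29.LT.A05
import Pool.Agent.H29.LT.A07
import Pool.Agent.H29.LT.M06

/-!
# LT-Q05: the lower bound coming from the exact formula

`Sol.D_eq_zero`: `D_one_add_eq_zero` for the algebra `CStarMatrix (ι ⊕ ι) (ι ⊕ ι) 𝔄`, by
`isUnit_one_add_X`, `X_decay`, `X_tr`.

`Sol.tr_inverse`: by `inverse_formula` and cyclicity (rectangular: `tr (a b) = tr (b a)`),
`τ ((f*f+η)⁻¹) = τ R - τ ((1+X)⁻¹ (W (M R R Mᴴ)))`, `M = fromRows a₀ a₁`; the matrix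
`m = M R R Mᴴ` has entries in `A`, and the last trace vanishes by `tr_inverse_eq_zero`
(`a = 1`, `b = W m`, `X_tr'`).

`Sol.lower`: let `Z = λ₀ + λ₁`, `p + q = Z`, `Q = Qm a₀ a₁ η λ₀ λ₁`, `K = Qm a₀ a₁ η p q`.
`L_tangent`: `LM K ≤ LM Q + Re τ (R (K - Q))` and
`τ (R (K - Q)) = tr (V₀ (p - λ₀)) + tr (V₁ (q - λ₁))`
(`τ (R a₀ᴴ scal(p-λ₀) a₀) = τ (a₀ R a₀ᴴ scal (p-λ₀)) = tr (V₀ (p-λ₀))`).
(a) `V_i ≤ Z⁻¹`: `𝔰 = λ₀ (1-λ₁) + λ₁` and `V₀ 𝔰 = 1 - λ₁`, so `V₀⁻¹ = 𝔰 (1-λ₁)⁻¹ =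
    λ₀ + λ₁ (1-λ₁)⁻¹ ≥ λ₀ + λ₁` (`posSemidef_mul_inv_sub`); `𝔰 = (1-λ₀) λ₁ + λ₀`, so
    `V₁⁻¹ = (1-λ₀)⁻¹ 𝔰 = λ₁ + (1-λ₀)⁻¹ λ₀ ≥ λ₀ + λ₁`.  Invert (`posSemidef_inv_sub_inv`).
    Hence `tr (V₀ p) + tr (V₁ q) ≤ tr (Z⁻¹ (p+q)) = N`.
(b) `tr (V₀ λ₀) + tr (V₁ λ₁) = τ (R (Q - η)) = N - η τ R`.
So `LM K ≤ LM Q + η Re τ R`.  With `LM (f*f+η) = LM Q - log |det 𝔰|` (`LM_formula`) and
`|det 𝔰| ≤ det Z` (`norm_det_s_le`): `LM (f*f+η) ≥ LM K - η Re τ R - log det Z`.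

`main_lower`: `exists_Sol` plus `Sol.lower` plus `Sol.tr_inverse`  (import of LT-Q04 in the next
file; here `main_lower` takes the solution as a hypothesis).
-/

set_option linter.unusedSectionVars false

namespace LT

open scoped Matrix ComplexOrder

variable {𝔄 : Type*} [CStarAlgebra 𝔄] [PartialOrder 𝔄] [StarOrderedRing 𝔄]
variable {ι : Type*} [Fintype ι] [DecidableEq ι]
variable {τ : Tr 𝔄} {a₀ a₁ : Matrix ι ι 𝔄} {η : ℝ}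

/-! ### auxiliary facts -/

theorem q05_ring_inverse {R₀ : Type*} [Ring R₀] {a b : R₀} (h : a * b = 1) (h' : b * a = 1) :
    Ring.inverse a = b :=
  Ring.inverse_unit (⟨a, b, h, h'⟩ : R₀ˣ)

/-- rectangular cyclicity of the trace -/
theorem q05_cyc {κ : Type*} [Fintype κ] [DecidableEq κ] (τ : Tr 𝔄) (a : Matrix ι κ 𝔄)
    (b : Matrix κ ι 𝔄) : (τ.mat ι).f (toC (a * b)) = (τ.mat κ).f (toC (b * a)) := by
  change ∑ i, τ.f ((a * b) i i) = ∑ i, τ.f ((b * a) i i)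
  simp only [Matrix.mul_apply, map_sum]
  rw [Finset.sum_comm]
  exact Finset.sum_congr rfl fun i _ => Finset.sum_congr rfl fun j _ => τ.comm _ _

theorem q05_one_sub_posDef {a : Matrix ι ι ℂ} {δ : ℝ} (hδ : 0 < δ)
    (h : (((1 - δ : ℝ) : ℂ) • (1 : Matrix ι ι ℂ) - a).PosSemidef) : (1 - a).PosDef := by
  refine posDef_of_sub_smul hδ ?_
  have e : (1 : Matrix ι ι ℂ) - a - (δ : ℂ) • (1 : Matrix ι ι ℂ) =
      ((1 - δ : ℝ) : ℂ) • (1 : Matrix ι ι ℂ) - a := by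
    rw [Complex.ofReal_sub, Complex.ofReal_one, sub_smul, one_smul]
    abel
  rw [e]
  exact h

theorem q05_pair (τ : Tr 𝔄) (R a : Matrix ι ι 𝔄) (Z : Matrix ι ι ℂ) :
    (τ.mat ι).f (toC (R * (aᴴ * scal 𝔄 Z * a))) = Matrix.trace (E τ (a * R * aᴴ) * Z) := by
  have e : R * (aᴴ * scal 𝔄 Z * a) = (R * aᴴ * scal 𝔄 Z) * a := by
    simp only [Matrix.mul_assoc]
  rw [e, q05_cyc]
  have e2 : a * (R * aᴴ * scal 𝔄 Z) = (a * R * aᴴ) * scal 𝔄 Z := by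
    simp only [Matrix.mul_assoc]
  rw [e2, mat_f_eq_trace, E_mul_scal]

theorem Sol.q05_l₀ (S : Sol τ a₀ a₁ η) : S.l₀.PosDef := posDef_of_sub_smul S.δ_pos S.lo₀

theorem Sol.q05_l₁ (S : Sol τ a₀ a₁ η) : S.l₁.PosDef := posDef_of_sub_smul S.δ_pos S.lo₁

/-- `V₀ ≤ (λ₀ + λ₁)⁻¹` -/
theorem Sol.q05_V₀ (S : Sol τ a₀ a₁ η) : ((S.l₀ + S.l₁)⁻¹ - S.V₀).PosSemidef := by
  have h0 := S.q05_l₀
  have h1 := S.q05_l₁
  have hZ : (S.l₀ + S.l₁).PosDef := h0.add h1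
  have hν : (1 - S.l₁).PosDef := q05_one_sub_posDef S.δ_pos S.hi₁
  have hνu : IsUnit (1 - S.l₁).det := (Matrix.isUnit_iff_isUnit_det _).1 hν.isUnit
  have k1 := posSemidef_mul_inv_sub h1.posSemidef hν
  have e1 : (S.l₀ + S.l₁ - S.l₀ * S.l₁) * (1 - S.l₁)⁻¹ = S.l₀ + S.l₁ * (1 - S.l₁)⁻¹ := by
    have : S.l₀ + S.l₁ - S.l₀ * S.l₁ = S.l₀ * (1 - S.l₁) + S.l₁ := by
      rw [Matrix.mul_sub, Matrix.mul_one]
      abel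
    rw [this, Matrix.add_mul, Matrix.mul_assoc, Matrix.mul_nonsing_inv _ hνu, Matrix.mul_one]
  have k2 : ((S.l₀ + S.l₁ - S.l₀ * S.l₁) * (1 - S.l₁)⁻¹ - (S.l₀ + S.l₁)).PosSemidef := by
    have e : (S.l₀ + S.l₁ - S.l₀ * S.l₁) * (1 - S.l₁)⁻¹ - (S.l₀ + S.l₁) =
        S.l₁ * (1 - S.l₁)⁻¹ - S.l₁ := by
      rw [e1]
      abel
    rw [e]
    exact k1
  have k3 := posSemidef_inv_sub_inv hZ k2
  have e2 : ((S.l₀ + S.l₁ - S.l₀ * S.l₁) * (1 - S.l₁)⁻¹)⁻¹ = S.V₀ := by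
    refine Matrix.inv_eq_left_inv ?_
    have e3 : S.V₀ * (S.l₀ + S.l₁ - S.l₀ * S.l₁) = 1 - S.l₁ := S.e₀
    rw [← Matrix.mul_assoc, e3, Matrix.mul_nonsing_inv _ hνu]
  rw [e2] at k3
  exact k3

/-- `V₁ ≤ (λ₀ + λ₁)⁻¹` -/
theorem Sol.q05_V₁ (S : Sol τ a₀ a₁ η) : ((S.l₀ + S.l₁)⁻¹ - S.V₁).PosSemidef := by
  have h0 := S.q05_l₀
  have h1 := S.q05_l₁
  have hZ : (S.l₀ + S.l₁).PosDef := h0.add h1
  have hμ : (1 - S.l₀).PosDef := q05_one_sub_posDef S.δ_pos S.hi₀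
  have hμu : IsUnit (1 - S.l₀).det := (Matrix.isUnit_iff_isUnit_det _).1 hμ.isUnit
  have k1 := posSemidef_mul_inv_sub h0.posSemidef hμ
  have ec : (1 - S.l₀)⁻¹ * S.l₀ = S.l₀ * (1 - S.l₀)⁻¹ := by
    have c1 : S.l₀ * (1 - S.l₀) = (1 - S.l₀) * S.l₀ := by
      rw [Matrix.mul_sub, Matrix.sub_mul, Matrix.mul_one, Matrix.one_mul]
    calc (1 - S.l₀)⁻¹ * S.l₀ = (1 - S.l₀)⁻¹ * (S.l₀ * (1 - S.l₀)) * (1 - S.l₀)⁻¹ := by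
          rw [Matrix.mul_assoc, Matrix.mul_assoc, Matrix.mul_nonsing_inv _ hμu, Matrix.mul_one]
      _ = S.l₀ * (1 - S.l₀)⁻¹ := by
          rw [c1, ← Matrix.mul_assoc, Matrix.nonsing_inv_mul _ hμu, Matrix.one_mul]
  have e1 : (1 - S.l₀)⁻¹ * (S.l₀ + S.l₁ - S.l₀ * S.l₁) = S.l₁ + S.l₀ * (1 - S.l₀)⁻¹ := by
    have : S.l₀ + S.l₁ - S.l₀ * S.l₁ = (1 - S.l₀) * S.l₁ + S.l₀ := by
      rw [Matrix.sub_mul, Matrix.one_mul]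
      abel
    rw [this, Matrix.mul_add, ← Matrix.mul_assoc, Matrix.nonsing_inv_mul _ hμu, Matrix.one_mul, ec]
  have k2 : ((1 - S.l₀)⁻¹ * (S.l₀ + S.l₁ - S.l₀ * S.l₁) - (S.l₀ + S.l₁)).PosSemidef := by
    have e : (1 - S.l₀)⁻¹ * (S.l₀ + S.l₁ - S.l₀ * S.l₁) - (S.l₀ + S.l₁) =
        S.l₀ * (1 - S.l₀)⁻¹ - S.l₀ := by
      rw [e1]
      abel
    rw [e]
    exact k1
  have k3 := posSemidef_inv_sub_inv hZ k2
  have e2 : ((1 - S.l₀)⁻¹ * (S.l₀ + S.l₁ - S.l₀ * S.l₁))⁻¹ = S.V₁ := by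
    refine Matrix.inv_eq_right_inv ?_
    have e3 : (S.l₀ + S.l₁ - S.l₀ * S.l₁) * S.V₁ = 1 - S.l₀ := S.e₁
    rw [Matrix.mul_assoc, e3, Matrix.nonsing_inv_mul _ hμu]
  rw [e2] at k3
  exact k3

theorem q05_entIn_fromRows {A : StarSubalgebra ℂ 𝔄} (h₀ : EntIn (A : Set 𝔄) a₀)
    (h₁ : EntIn (A : Set 𝔄) a₁) : EntIn (A : Set 𝔄) (Matrix.fromRows a₀ a₁) := by
  intro i j
  rcases i with i | i
  · exact h₀ i j
  · exact h₁ i j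

theorem Sol.D_eq_zero (S : Sol τ a₀ a₁ η) (U : UFree τ) (h1 : τ.f 1 = 1) (hη : 0 < η)
    (h₀ : EntIn (U.A : Set 𝔄) a₀) (h₁ : EntIn (U.A : Set 𝔄) a₁) :
    DM τ (1 + S.X U.u) = 0 := by
  obtain ⟨C, q, hq, hq1, hC⟩ := S.X_decay U h1 hη h₀ h₁
  have hu : IsUnit (1 + S.X U.u) := S.isUnit_one_add_X h1 hη U.u1 U.u2
  have hu' : IsUnit (1 + toC (S.X U.u)) := hu
  have key := D_one_add_eq_zero (τ.mat (ι ⊕ ι)) hu' hq hq1 hC (S.X_tr U h1 hη h₀ h₁)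
  exact key

theorem Sol.tr_inverse (S : Sol τ a₀ a₁ η) (U : UFree τ) (h1 : τ.f 1 = 1) (hη : 0 < η)
    (h₀ : EntIn (U.A : Set 𝔄) a₀) (h₁ : EntIn (U.A : Set 𝔄) a₁) :
    (τ.mat ι).f (toC (Ring.inverse ((fm U.u a₀ a₁)ᴴ * fm U.u a₀ a₁ + eI 𝔄 ι η)))
      = (τ.mat ι).f (toC S.R) := by
  obtain ⟨C, q, hq, hq1, hC⟩ := S.X_decay U h1 hη h₀ h₁
  have hu : IsUnit (1 + S.X U.u) := S.isUnit_one_add_X h1 hη U.u1 U.u2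
  have hu' : IsUnit (1 + toC (S.X U.u)) := hu
  rw [S.inverse_formula h1 hη U.u1 U.u2, toC_sub, map_sub]
  have hR : EntIn (U.A : Set 𝔄) S.R :=
    EntIn_inverse U.A U.closed (EntIn_Qm U.A h₀ h₁ η S.l₀ S.l₁) S.RQ S.QR
  have hM := q05_entIn_fromRows h₀ h₁
  obtain ⟨M, hMd⟩ : ∃ M : Matrix (ι ⊕ ι) ι 𝔄, M = Matrix.fromRows a₀ a₁ := ⟨_, rfl⟩
  rw [← hMd] at hM ⊢
  have hm : EntIn (U.A : Set 𝔄) (M * S.R * (S.R * Mᴴ)) :=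
    EntIn.mul U.A (EntIn.mul U.A hM hR) (EntIn.mul U.A hR (EntIn.conjTranspose U.A hM))
  have e1 : S.R * Mᴴ * Ring.inverse (1 + S.X U.u) * S.W U.u * M * S.R =
      (S.R * Mᴴ) * (Ring.inverse (1 + S.X U.u) * S.W U.u * M * S.R) := by
    simp only [Matrix.mul_assoc]
  have e2 : (Ring.inverse (1 + S.X U.u) * S.W U.u * M * S.R) * (S.R * Mᴴ) =
      1 * Ring.inverse (1 + S.X U.u) * (S.W U.u * (M * S.R * (S.R * Mᴴ))) := by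
    rw [one_mul]
    simp only [Matrix.mul_assoc]
  have h0 : ∀ k : ℕ, (τ.mat (ι ⊕ ι)).f
      (1 * toC (S.X U.u) ^ k * toC (S.W U.u * (M * S.R * (S.R * Mᴴ)))) = 0 := by
    intro k
    rw [one_mul]
    exact S.X_tr' U h1 hη h₀ h₁ k hm
  have key := tr_inverse_eq_zero (τ.mat (ι ⊕ ι)) hu' hq hq1 hC h0
  have e3 : (τ.mat ι).f (toC (S.R * Mᴴ * Ring.inverse (1 + S.X U.u) * S.W U.u * M * S.R)) = 0 := by
    rw [e1, q05_cyc, e2]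
    exact key
  rw [e3, sub_zero]

theorem Sol.posDef_sum (S : Sol τ a₀ a₁ η) : (S.l₀ + S.l₁).PosDef :=
  S.q05_l₀.add S.q05_l₁

/-- `Re τ (R (K - Q)) ≤ η Re τ R` -/
theorem Sol.q05_main (S : Sol τ a₀ a₁ η) (h1 : τ.f 1 = 1)
    {p q : Matrix ι ι ℂ} (hp : p.PosSemidef) (hq : q.PosSemidef) (hpq : p + q = S.l₀ + S.l₁) :
    ((τ.mat ι).f (toC S.R * (toC (Qm a₀ a₁ η p q) - toC (Qm a₀ a₁ η S.l₀ S.l₁)))).re ≤
      η * ((τ.mat ι).f (toC S.R)).re := by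
  -- the terms of `Q`
  have eK : (τ.mat ι).f (toC (S.R * Qm a₀ a₁ η p q)) = (τ.mat ι).f (toC (S.R * eI 𝔄 ι η)) +
      Matrix.trace (S.V₀ * p) + Matrix.trace (S.V₁ * q) := by
    unfold Qm
    rw [Matrix.mul_add, Matrix.mul_add, toC_add, toC_add, map_add, map_add, q05_pair, q05_pair]
    rfl
  have eQ : (τ.mat ι).f (toC (S.R * Qm a₀ a₁ η S.l₀ S.l₁)) = ((τ.mat ι).f 1) := by
    rw [S.RQ]
    rfl
  have eη : ((τ.mat ι).f (toC (S.R * eI 𝔄 ι η))).re = η * ((τ.mat ι).f (toC S.R)).re := by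
    have e : toC (S.R * eI 𝔄 ι η) = ((η : ℝ) : ℂ) • toC S.R := by
      rw [toC_mul, toC_eI, Algebra.algebraMap_eq_smul_one, mul_smul_comm, mul_one,
        Complex.coe_smul]
      rfl
    rw [e, map_smul, smul_eq_mul, Complex.re_ofReal_mul]
  have eN : ((τ.mat ι).f 1).re = Fintype.card ι := mat_mass τ h1
  have e0 : toC S.R * (toC (Qm a₀ a₁ η p q) - toC (Qm a₀ a₁ η S.l₀ S.l₁)) =
      toC (S.R * Qm a₀ a₁ η p q) - toC (S.R * Qm a₀ a₁ η S.l₀ S.l₁) := by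
    rw [mul_sub, toC_mul, toC_mul]
  rw [e0, map_sub, eK, eQ, Complex.sub_re, Complex.add_re, Complex.add_re, eη, eN]
  have hZ := S.posDef_sum
  have hZu : IsUnit (S.l₀ + S.l₁).det := (Matrix.isUnit_iff_isUnit_det _).1 hZ.isUnit
  have t0 := trace_mul_re_nonneg S.q05_V₀ hp
  have t1 := trace_mul_re_nonneg S.q05_V₁ hq
  rw [Matrix.sub_mul, Matrix.trace_sub, Complex.sub_re] at t0 t1
  have t2 : (Matrix.trace ((S.l₀ + S.l₁)⁻¹ * p)).re + (Matrix.trace ((S.l₀ + S.l₁)⁻¹ * q)).re =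
      Fintype.card ι := by
    rw [← Complex.add_re, ← Matrix.trace_add, ← Matrix.mul_add, hpq,
      Matrix.nonsing_inv_mul _ hZu, Matrix.trace_one]
    exact Complex.natCast_re _
  linarith

theorem Sol.lower (S : Sol τ a₀ a₁ η) (U : UFree τ) (h1 : τ.f 1 = 1) (hη : 0 < η)
    (h₀ : EntIn (U.A : Set 𝔄) a₀) (h₁ : EntIn (U.A : Set 𝔄) a₁)
    {p q : Matrix ι ι ℂ} (hp : p.PosSemidef) (hq : q.PosSemidef) (hpq : p + q = S.l₀ + S.l₁) :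
    LM τ (Qm a₀ a₁ η p q) - Real.log (p + q).det.re
        - η * ((τ.mat ι).f (toC (Ring.inverse
            ((fm U.u a₀ a₁)ᴴ * fm U.u a₀ a₁ + eI 𝔄 ι η)))).re
      ≤ LM τ ((fm U.u a₀ a₁)ᴴ * fm U.u a₀ a₁ + eI 𝔄 ι η) := by
  rw [S.tr_inverse U h1 hη h₀ h₁, S.LM_formula h1 hη U.u1 U.u2 (S.D_eq_zero U h1 hη h₀ h₁), hpq]
  have hQ : SPM (Qm a₀ a₁ η S.l₀ S.l₁) :=
    SPM_Qm hη S.q05_l₀.posSemidef S.q05_l₁.posSemidef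
  have hK : SPM (Qm a₀ a₁ η p q) := SPM_Qm hη hp hq
  have T := L_tangent (τ.mat ι) hQ hK
  have eR : Ring.inverse (toC (Qm a₀ a₁ η S.l₀ S.l₁)) = toC S.R :=
    q05_ring_inverse (a := toC (Qm a₀ a₁ η S.l₀ S.l₁)) (b := toC S.R) S.QR S.RQ
  rw [eR] at T
  have m := S.q05_main h1 hp hq hpq
  have hs : ‖S.s.det‖ ≤ (S.l₀ + S.l₁).det.re := by
    refine norm_det_s_le S.q05_l₀ S.q05_l₁ ?_ ?_
    · exact (q05_one_sub_posDef S.δ_pos S.hi₀).posSemidef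
    · exact (q05_one_sub_posDef S.δ_pos S.hi₁).posSemidef
  have hs0 : 0 < ‖S.s.det‖ := by
    rw [norm_pos_iff]
    exact ((Matrix.isUnit_iff_isUnit_det _).1 S.isUnit_s).ne_zero
  have hl := Real.log_le_log hs0 hs
  have T' : LM τ (Qm a₀ a₁ η p q) ≤ LM τ (Qm a₀ a₁ η S.l₀ S.l₁) +
      ((τ.mat ι).f (toC S.R * (toC (Qm a₀ a₁ η p q) - toC (Qm a₀ a₁ η S.l₀ S.l₁)))).re := T
  linarith

end LT
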