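import Pool.Agent.H29.LT.Q04
import Pool.Agent.H29.LT.Q05

/-!
# LT-Q06: from the positivity condition to a lower bound for `tr log (f* f + η)`

Write `ℓ(η) = LM (f*f + η)`, `κ(η) = η Re τ ((f*f+η)⁻¹)`, `N = card ι ≥ 1`.

(1) `kappa_le`: `0 ≤ κ(η) ≤ N` since `(f*f+η)⁻¹ ≤ η⁻¹`.
(2) `scaled`: for every positive definite `Z` and `η > 0` there are psd `p + q = Z` with
    `c + log det Z ≤ LM (Qm a₀ a₁ η p q)`.  Let `t = tr Z > 0`, `Z = t Ẑ`, `ε = min (η/t) 1`, take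
    `p̂, q̂` from the hypothesis for `Ẑ, ε`, `p = t p̂`, `q = t q̂`.  Then
    `Qm a₀ a₁ η p q = t • Qm a₀ a₁ (η/t) p̂ q̂ ≥ t • Qm a₀ a₁ ε p̂ q̂` and
    `LM (t • H) = N log t + LM H` (`L_smul`, `mat_mass`), `log det Z = N log t + log det Ẑ`.
(3) With a solution `S` of the fixed point equations (`exists_Sol`) and `Z = λ₀ + λ₁`, `Sol.lower`
    gives `ℓ(η) ≥ c - κ(η)` for every `η > 0`; so `ℓ ≥ c - N` on `(0,∞)`.
(4) `L_tangent` (`H = f*f + η`, `K = f*f + η/2`): `ℓ(η) - ℓ(η/2) ≥ κ(η)/2`.  So for every `ρ > 0`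
    and `η > 0` there is `j` with `κ(2^{-j} η) ≤ ρ` (otherwise `ℓ(2^{-j} η) ≤ ℓ(η) - j ρ/2 → -∞`).
(5) `ℓ` is monotone: `ℓ(η) ≥ ℓ(2^{-j} η) ≥ c - ρ`; `ρ → 0`.
-/

set_option linter.unusedSectionVars false

namespace LT

open scoped Matrix ComplexOrder

variable {𝔄 : Type*} [CStarAlgebra 𝔄] [PartialOrder 𝔄] [StarOrderedRing 𝔄]
variable {ι : Type*} [Fintype ι] [DecidableEq ι]

theorem q06_mul_eI (J : Matrix ι ι 𝔄) (η : ℝ) : J * eI 𝔄 ι η = η • J := by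
  unfold eI
  rw [Algebra.algebraMap_eq_smul_one, mul_smul_comm, mul_one]

theorem q06_f_smul (τ : Tr 𝔄) (r : ℝ) (x : Matrix ι ι 𝔄) :
    ((τ.mat ι).f (toC (r • x))).re = r * ((τ.mat ι).f (toC x)).re :=
  a02_smul (τ.mat ι) r (toC x)

/-- `κ(η)` -/
noncomputable def q06_k (τ : Tr 𝔄) (F : Matrix ι ι 𝔄) (η : ℝ) : ℝ :=
  η * ((τ.mat ι).f (toC (Ring.inverse (F + eI 𝔄 ι η)))).re

theorem q06_inv_PM {F : Matrix ι ι 𝔄} (hS : SPM F) : PM (Ring.inverse F) := by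
  have hu : IsUnit F := hS.isUnit
  obtain ⟨J, hJ⟩ : ∃ J, J = Ring.inverse F := ⟨_, rfl⟩
  have hJ1 : J * F = 1 := by rw [hJ]; exact Ring.inverse_mul_cancel _ hu
  have hJ2 : F * J = 1 := by rw [hJ]; exact Ring.mul_inverse_cancel _ hu
  have hH : Fᴴ = F := hS.toPM.isHermitian
  have hJH : Jᴴ = J := by
    calc Jᴴ = Jᴴ * (F * J) := by rw [hJ2, Matrix.mul_one]
      _ = (Jᴴ * Fᴴ) * J := by rw [hH, Matrix.mul_assoc]
      _ = (F * J)ᴴ * J := by rw [Matrix.conjTranspose_mul]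
      _ = J := by rw [hJ2, Matrix.conjTranspose_one, Matrix.one_mul]
  have h := PM_conj hS.toPM J
  have e : Jᴴ * F * J = J := by rw [hJH, hJ1, Matrix.one_mul]
  rw [e, hJ] at h
  exact h

theorem q06_k_le {τ : Tr 𝔄} (h1 : τ.f 1 = 1) {F : Matrix ι ι 𝔄} (hF : PM F) {η : ℝ}
    (hη : 0 < η) : q06_k τ F η ≤ Fintype.card ι := by
  have hS : SPM (F + eI 𝔄 ι η) := SPM_add_eI hF hη
  have hu : IsUnit (F + eI 𝔄 ι η) := hS.isUnit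
  have hJP := q06_inv_PM hS
  have hJ1 : Ring.inverse (F + eI 𝔄 ι η) * (F + eI 𝔄 ι η) = 1 := Ring.inverse_mul_cancel _ hu
  obtain ⟨J, hJ⟩ : ∃ J, J = Ring.inverse (F + eI 𝔄 ι η) := ⟨_, rfl⟩
  unfold q06_k
  rw [← hJ] at hJP hJ1 ⊢
  have h2 : 0 ≤ ((τ.mat ι).f (toC J * toC F)).re := tr_mul_nonneg (τ.mat ι) hJP hF
  have e1 : J * F = 1 - η • J := by
    rw [Matrix.mul_add, q06_mul_eI] at hJ1
    exact eq_sub_of_add_eq hJ1
  have e2 : toC J * toC F = 1 - toC (η • J) := e1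
  rw [e2, map_sub, Complex.sub_re, q06_f_smul] at h2
  have h3 : (τ.mat ι).mass = Fintype.card ι := mat_mass τ h1
  have h4 : ((τ.mat ι).f 1).re = Fintype.card ι := h3
  rw [h4] at h2
  linarith

theorem q06_step {τ : Tr 𝔄} {F : Matrix ι ι 𝔄} (hF : PM F) {η : ℝ} (hη : 0 < η) :
    LM τ (F + eI 𝔄 ι (η / 2)) ≤ LM τ (F + eI 𝔄 ι η) - q06_k τ F η / 2 := by
  have hS : SPM (F + eI 𝔄 ι η) := SPM_add_eI hF hη
  have hS' : SPM (F + eI 𝔄 ι (η / 2)) := SPM_add_eI hF (by positivity)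
  have hu : IsUnit (F + eI 𝔄 ι η) := hS.isUnit
  have hJ1 : Ring.inverse (F + eI 𝔄 ι η) * (F + eI 𝔄 ι η) = 1 := Ring.inverse_mul_cancel _ hu
  have hJ2 : (F + eI 𝔄 ι η) * Ring.inverse (F + eI 𝔄 ι η) = 1 := Ring.mul_inverse_cancel _ hu
  have T := L_tangent (τ.mat ι) hS hS'
  unfold q06_k
  obtain ⟨J, hJ⟩ : ∃ J, J = Ring.inverse (F + eI 𝔄 ι η) := ⟨_, rfl⟩
  rw [← hJ] at hJ1 hJ2 ⊢
  have eR : Ring.inverse (toC (F + eI 𝔄 ι η)) = toC J :=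
    q05_ring_inverse (a := toC (F + eI 𝔄 ι η)) (b := toC J) hJ2 hJ1
  rw [eR] at T
  have e0 : eI 𝔄 ι (η / 2) = (1 / 2 : ℝ) • eI 𝔄 ι η := by
    unfold eI
    rw [Algebra.algebraMap_eq_smul_one, Algebra.algebraMap_eq_smul_one, smul_smul]
    congr 1
    ring
  have e1 : J * (F + eI 𝔄 ι (η / 2) - (F + eI 𝔄 ι η)) = (-(η / 2)) • J := by
    have h : F + eI 𝔄 ι (η / 2) - (F + eI 𝔄 ι η) = (-(1 / 2) : ℝ) • eI 𝔄 ι η := by
      rw [e0, add_sub_add_left_eq_sub]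
      nth_rewrite 2 [← one_smul ℝ (eI 𝔄 ι η)]
      rw [← sub_smul]
      norm_num
    rw [h, Matrix.mul_smul, q06_mul_eI, smul_smul]
    congr 1
    ring
  have e2 : toC J * (toC (F + eI 𝔄 ι (η / 2)) - toC (F + eI 𝔄 ι η)) = toC ((-(η / 2)) • J) := e1
  rw [e2, q06_f_smul] at T
  have T' : LM τ (F + eI 𝔄 ι (η / 2)) ≤ LM τ (F + eI 𝔄 ι η) +
      -(η / 2) * ((τ.mat ι).f (toC J)).re := T
  linarith

theorem q06_scaled [Nonempty ι] {τ : Tr 𝔄} (h1 : τ.f 1 = 1) {a₀ a₁ : Matrix ι ι 𝔄} {c : ℝ}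
    (hpos : ∀ Z : Matrix ι ι ℂ, Z.PosDef → Z.trace = 1 → ∀ ε : ℝ, 0 < ε → ε ≤ 1 →
      ∃ p q : Matrix ι ι ℂ, p.PosSemidef ∧ q.PosSemidef ∧ p + q = Z ∧
        c + Real.log Z.det.re ≤ LM τ (Qm a₀ a₁ ε p q))
    {Z : Matrix ι ι ℂ} (hZ : Z.PosDef) {η : ℝ} (hη : 0 < η) :
    ∃ p q : Matrix ι ι ℂ, p.PosSemidef ∧ q.PosSemidef ∧ p + q = Z ∧
      c + Real.log Z.det.re ≤ LM τ (Qm a₀ a₁ η p q) := by
  have ht0 : 0 < Z.trace := hZ.trace_pos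
  obtain ⟨t, ht⟩ : ∃ t : ℝ, t = Z.trace.re := ⟨_, rfl⟩
  have ht1 : 0 < t := by rw [ht]; exact (Complex.pos_iff.1 ht0).1
  have htc : Z.trace = (t : ℂ) := by
    apply Complex.ext
    · rw [ht]; rfl
    · rw [Complex.ofReal_im]; exact (Complex.pos_iff.1 ht0).2.symm
  have htc0 : (t : ℂ) ≠ 0 := by exact_mod_cast ht1.ne'
  have hY : (((t⁻¹ : ℝ) : ℂ) • Z).PosDef := hZ.smul (by
    have : 0 < t⁻¹ := inv_pos.2 ht1
    exact_mod_cast this)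
  have hYt : (((t⁻¹ : ℝ) : ℂ) • Z).trace = 1 := by
    rw [Matrix.trace_smul, htc, smul_eq_mul, Complex.ofReal_inv]
    exact inv_mul_cancel₀ htc0
  have hε0 : 0 < min (η / t) 1 := lt_min (by positivity) one_pos
  obtain ⟨p, q, hp, hq, hpq, h⟩ := hpos _ hY hYt (min (η / t) 1) hε0 (min_le_right _ _)
  have htn : (0 : ℂ) ≤ (t : ℂ) := by exact_mod_cast ht1.le
  refine ⟨(t : ℂ) • p, (t : ℂ) • q, hp.smul htn, hq.smul htn, ?_, ?_⟩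
  · rw [← smul_add, hpq, smul_smul, Complex.ofReal_inv, mul_inv_cancel₀ htc0, one_smul]
  · have eQ : Qm a₀ a₁ η ((t : ℂ) • p) ((t : ℂ) • q) = t • Qm a₀ a₁ (η / t) p q := by
      unfold Qm
      rw [q02_scal_smul, q02_scal_smul]
      have e0 : eI 𝔄 ι η = t • eI 𝔄 ι (η / t) := by
        unfold eI
        rw [Algebra.algebraMap_eq_smul_one, Algebra.algebraMap_eq_smul_one, smul_smul]
        congr 1
        field_simp
      have e1 : ∀ X : Matrix ι ι 𝔄, (t : ℂ) • X = t • X := fun X => by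
        ext i j
        exact Complex.coe_smul t (X i j)
      rw [e0, e1, e1, smul_add, smul_add, Matrix.mul_smul, Matrix.smul_mul, Matrix.mul_smul,
        Matrix.smul_mul]
    have hS1 : SPM (Qm a₀ a₁ (min (η / t) 1) p q) := SPM_Qm hε0 hp hq
    have hS2 : SPM (Qm a₀ a₁ (η / t) p q) := SPM_Qm (by positivity) hp hq
    have hle : LeM (Qm a₀ a₁ (min (η / t) 1) p q) (Qm a₀ a₁ (η / t) p q) := by
      rw [LeM_iff]
      have e : Qm a₀ a₁ (η / t) p q - Qm a₀ a₁ (min (η / t) 1) p q =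
          (η / t - min (η / t) 1) • (1 : Matrix ι ι 𝔄) := by
        unfold Qm eI
        rw [Algebra.algebraMap_eq_smul_one, Algebra.algebraMap_eq_smul_one, sub_smul]
        abel
      rw [e]
      have h0 : 0 ≤ η / t - min (η / t) 1 := sub_nonneg.2 (min_le_left _ _)
      have h1 : 0 ≤ (η / t - min (η / t) 1) • (1 : CStarMatrix ι ι 𝔄) :=
        smul_nonneg h0 zero_le_one
      exact h1
    have hm := LM_mono τ hS1 hle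
    have hs : LM τ (t • Qm a₀ a₁ (η / t) p q) =
        (τ.mat ι).mass * Real.log t + LM τ (Qm a₀ a₁ (η / t) p q) :=
      L_smul (τ.mat ι) (H := toC (Qm a₀ a₁ (η / t) p q)) hS2 ht1
    rw [mat_mass τ h1] at hs
    rw [eQ, hs]
    have hd : 0 < (((t⁻¹ : ℝ) : ℂ) • Z).det.re := (Complex.pos_iff.1 hY.det_pos).1
    have hdZ : Z.det.re = t ^ Fintype.card ι * (((t⁻¹ : ℝ) : ℂ) • Z).det.re := by
      have e : Z = (t : ℂ) • (((t⁻¹ : ℝ) : ℂ) • Z) := by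
        rw [smul_smul, Complex.ofReal_inv, mul_inv_cancel₀ htc0, one_smul]
      have e' : Z.det = (t : ℂ) ^ Fintype.card ι * (((t⁻¹ : ℝ) : ℂ) • Z).det := by
        conv_lhs => rw [e]
        rw [Matrix.det_smul]
      rw [e', ← Complex.ofReal_pow, Complex.re_ofReal_mul]
    rw [hdZ, Real.log_mul (by positivity) hd.ne', Real.log_pow]
    linarith

theorem q06_key [Nonempty ι] {τ : Tr 𝔄} (U : UFree τ) (h1 : τ.f 1 = 1)
    {a₀ a₁ : Matrix ι ι 𝔄} (h₀ : EntIn (U.A : Set 𝔄) a₀) (h₁ : EntIn (U.A : Set 𝔄) a₁)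
    (hE₀ : (E τ (a₀ * a₀ᴴ)).PosDef) (hE₁ : (E τ (a₁ * a₁ᴴ)).PosDef) {c : ℝ}
    (hpos : ∀ Z : Matrix ι ι ℂ, Z.PosDef → Z.trace = 1 → ∀ ε : ℝ, 0 < ε → ε ≤ 1 →
      ∃ p q : Matrix ι ι ℂ, p.PosSemidef ∧ q.PosSemidef ∧ p + q = Z ∧
        c + Real.log Z.det.re ≤ LM τ (Qm a₀ a₁ ε p q))
    {η : ℝ} (hη : 0 < η) :
    c - q06_k τ ((fm U.u a₀ a₁)ᴴ * fm U.u a₀ a₁) η ≤
      LM τ ((fm U.u a₀ a₁)ᴴ * fm U.u a₀ a₁ + eI 𝔄 ι η) := by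
  obtain ⟨S⟩ := exists_Sol τ a₀ a₁ h1 hη hE₀ hE₁
  obtain ⟨p, q, hp, hq, hpq, h⟩ := q06_scaled h1 hpos S.posDef_sum hη
  have h2 := S.lower U h1 hη h₀ h₁ hp hq hpq
  rw [hpq] at h2
  unfold q06_k
  linarith

theorem lower_bound [Nonempty ι] {τ : Tr 𝔄} (U : UFree τ) (h1 : τ.f 1 = 1)
    {a₀ a₁ : Matrix ι ι 𝔄} (h₀ : EntIn (U.A : Set 𝔄) a₀) (h₁ : EntIn (U.A : Set 𝔄) a₁)
    (hE₀ : (E τ (a₀ * a₀ᴴ)).PosDef) (hE₁ : (E τ (a₁ * a₁ᴴ)).PosDef) {c : ℝ}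
    (hpos : ∀ Z : Matrix ι ι ℂ, Z.PosDef → Z.trace = 1 → ∀ ε : ℝ, 0 < ε → ε ≤ 1 →
      ∃ p q : Matrix ι ι ℂ, p.PosSemidef ∧ q.PosSemidef ∧ p + q = Z ∧
        c + Real.log Z.det.re ≤ LM τ (Qm a₀ a₁ ε p q))
    {η : ℝ} (hη : 0 < η) :
    c ≤ LM τ ((fm U.u a₀ a₁)ᴴ * fm U.u a₀ a₁ + eI 𝔄 ι η) := by
  obtain ⟨F, hF⟩ : ∃ F, F = (fm U.u a₀ a₁)ᴴ * fm U.u a₀ a₁ := ⟨_, rfl⟩
  have hFP : PM F := by rw [hF]; exact PM_conjTranspose_mul_self _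
  have key : ∀ η : ℝ, 0 < η → c - q06_k τ F η ≤ LM τ (F + eI 𝔄 ι η) := fun η hη => by
    rw [hF]
    exact q06_key U h1 h₀ h₁ hE₀ hE₁ hpos hη
  rw [← hF]
  by_contra hcon
  have hρ : 0 < c - LM τ (F + eI 𝔄 ι η) := by linarith [not_le.1 hcon]
  obtain ⟨ρ, hρe⟩ : ∃ ρ, ρ = c - LM τ (F + eI 𝔄 ι η) := ⟨_, rfl⟩
  rw [← hρe] at hρ
  have ind : ∀ j : ℕ, LM τ (F + eI 𝔄 ι (η / 2 ^ j)) ≤ LM τ (F + eI 𝔄 ι η) - j * (ρ / 2) := by
    intro j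
    induction j with
    | zero => simp
    | succ j ih =>
      have hηj : 0 < η / 2 ^ j := by positivity
      have h2 := q06_step (τ := τ) hFP hηj
      have h3 := key _ hηj
      have e : η / 2 ^ (j + 1) = η / 2 ^ j / 2 := by rw [pow_succ]; field_simp
      have hj0 : (0 : ℝ) ≤ j * (ρ / 2) := by positivity
      rw [e]
      push_cast
      linarith
  obtain ⟨j, hj⟩ := exists_nat_gt ((Fintype.card ι : ℝ) / (ρ / 2))
  have hηj : 0 < η / 2 ^ j := by positivity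
  have h2 := ind j
  have h3 := key _ hηj
  have h4 := q06_k_le h1 hFP hηj
  have h5 : (Fintype.card ι : ℝ) < j * (ρ / 2) := (div_lt_iff₀ (by positivity)).1 hj
  linarith

end LT
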