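import Pool.Agent.H29.LT.A04

/-!
# LT-A06: almost multiplicativity for non-invertible elements

`L_mul_le`: put `K = y y* + ε`.
`L (y* H y + ε²) = L (H^{1/2} y y* H^{1/2} + ε²)` (`L_star_mul_comm`, `x = H^{1/2} y`)
`≤ L (H^{1/2} K H^{1/2} + ε²)` (monotone) `= L (K^{1/2} H K^{1/2} + ε²)` (`L_star_mul_comm`,
`x = K^{1/2} H^{1/2}`) `≤ L (K^{1/2} H K^{1/2} + ε K)` (as `ε ≤ K`) `= L (K^{1/2} (H+ε) K^{1/2})
= L K + L (H + ε)` (`L_sqrt_conj`), and `L K = L (y y* + ε) = L (y* y + ε)`.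

`L_mul_ge`: let `M ≥ 1` bound `‖H‖` and `‖y‖²`, `K = y y*`, `A = (H+ε)^{1/2}`, `B = H^{1/2}`,
`0 < ε ≤ 1`.  `‖A - B‖ ≤ √ε` (functional calculus: `|√(t+ε) - √t| ≤ √ε`).
`A (K+ε) A - B K B = (A-B) K A + B K (A-B) + ε A²` has norm
`≤ √ε M √(M+1) + √M M √ε + ε (M+1) ≤ 4 (M+1)² √ε =: C √ε`, so
`A (K+ε) A ≤ B K B + C √ε`.  Hence `L (H+ε) + L (K+ε) = L (A (K+ε) A) ≤ L (B K B + C √ε) =
L (y* H y + C √ε)` (`L_star_mul_comm` with `x = H^{1/2} y`), and `L (K+ε) = L (y* y + ε)`.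

`L_conj_ge`: `G₁, G₂` invertible; `g_i = ‖G_i‖²` (assume `𝔄` nontrivial, otherwise everything is
trivial), `k = 1/(g₁ g₂)`.
`(G₁ y G₂)* (G₁ y G₂) + ε = G₂* (y* G₁* G₁ y + ε (G₂ G₂*)⁻¹) G₂ ≥ G₂* ((G₁ y)* (G₁ y) + ε/g₂) G₂`
because `G₂ G₂* ≤ g₂`.  `L` of the right side is `2 D G₂ + L ((G₁ y)* (G₁ y) + ε/g₂)` (`L_conj'`) and
`L ((G₁ y)* (G₁ y) + ε/g₂) = L (G₁ y y* G₁* + ε/g₂) = L (G₁ (y y* + (ε/g₂) (G₁* G₁)⁻¹) G₁*)
≥ L (G₁ (y y* + k ε) G₁*) = 2 D (G₁*) + L (y y* + k ε) = 2 D G₁ + L (y* y + k ε)`.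
-/

set_option linter.unusedSectionVars false

namespace LT

variable {𝔄 : Type*} [CStarAlgebra 𝔄] [PartialOrder 𝔄] [StarOrderedRing 𝔄] (τ : Tr 𝔄)

omit [StarOrderedRing 𝔄] in
theorem a06_map_mono' [StarOrderedRing 𝔄] {r s : ℝ} (h : r ≤ s) :
    algebraMap ℝ 𝔄 r ≤ algebraMap ℝ 𝔄 s := algebraMap_mono 𝔄 h

theorem a06_sp {P : 𝔄} (hP : 0 ≤ P) {ε : ℝ} (hε : 0 < ε) :
    IsStrictlyPositive (P + algebraMap ℝ 𝔄 ε) :=
  IsStrictlyPositive.nonneg_add hP (isStrictlyPositive_algebraMap hε)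

theorem a06_sqrt_sub {H : 𝔄} (hH : 0 ≤ H) {ε : ℝ} (hε : 0 < ε) :
    ‖CFC.sqrt (H + algebraMap ℝ 𝔄 ε) - CFC.sqrt H‖ ≤ Real.sqrt ε := by
  have hsa : IsSelfAdjoint H := IsSelfAdjoint.of_nonneg hH
  have hspec : ∀ t ∈ spectrum ℝ H, 0 ≤ t := fun t ht => spectrum_nonneg_of_nonneg hH ht
  have hc1 : Continuous fun t : ℝ => Real.sqrt (t + ε) :=
    Real.continuous_sqrt.comp (continuous_id.add continuous_const)
  have hA : CFC.sqrt (H + algebraMap ℝ 𝔄 ε) = cfc (fun t : ℝ => Real.sqrt (t + ε)) H := by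
    apply CFC.sqrt_unique
    · rw [← cfc_mul (fun t : ℝ => Real.sqrt (t + ε)) (fun t : ℝ => Real.sqrt (t + ε)) H
        hc1.continuousOn hc1.continuousOn]
      have h1 : cfc (fun t : ℝ => Real.sqrt (t + ε) * Real.sqrt (t + ε)) H
          = cfc (fun t : ℝ => t + ε) H := by
        apply cfc_congr
        intro t ht
        exact Real.mul_self_sqrt (by linarith [hspec t ht])
      rw [h1, cfc_add_const ε (fun t : ℝ => t) H continuous_id.continuousOn, cfc_id' ℝ H]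
    · apply cfc_nonneg
      intro t _
      exact Real.sqrt_nonneg _
  have hB : CFC.sqrt H = cfc (fun t : ℝ => Real.sqrt t) H := by
    apply CFC.sqrt_unique
    · rw [← cfc_mul (fun t : ℝ => Real.sqrt t) (fun t : ℝ => Real.sqrt t) H
        Real.continuous_sqrt.continuousOn Real.continuous_sqrt.continuousOn]
      have h1 : cfc (fun t : ℝ => Real.sqrt t * Real.sqrt t) H = cfc (fun t : ℝ => t) H := by
        apply cfc_congr
        intro t ht
        exact Real.mul_self_sqrt (hspec t ht)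
      rw [h1, cfc_id' ℝ H]
    · apply cfc_nonneg
      intro t _
      exact Real.sqrt_nonneg _
  rw [hA, hB, ← cfc_sub (fun t : ℝ => Real.sqrt (t + ε)) (fun t : ℝ => Real.sqrt t) H
    hc1.continuousOn Real.continuous_sqrt.continuousOn]
  apply norm_cfc_le (Real.sqrt_nonneg ε)
  intro t ht
  have h0 := hspec t ht
  have h1 : Real.sqrt t ≤ Real.sqrt (t + ε) := Real.sqrt_le_sqrt (by linarith)
  have h2 : Real.sqrt (t + ε) ≤ Real.sqrt t + Real.sqrt ε := by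
    rw [Real.sqrt_le_iff]
    refine ⟨add_nonneg (Real.sqrt_nonneg _) (Real.sqrt_nonneg _), ?_⟩
    nlinarith [Real.sq_sqrt h0, Real.sq_sqrt hε.le, Real.sqrt_nonneg t, Real.sqrt_nonneg ε,
      mul_nonneg (Real.sqrt_nonneg t) (Real.sqrt_nonneg ε)]
  rw [Real.norm_eq_abs, abs_of_nonneg (by linarith)]
  linarith

theorem L_mul_le {H y : 𝔄} (hH : 0 ≤ H) {ε : ℝ} (hε : 0 < ε) :
    L τ (star y * H * y + algebraMap ℝ 𝔄 (ε ^ 2))
      ≤ L τ (H + algebraMap ℝ 𝔄 ε) + L τ (star y * y + algebraMap ℝ 𝔄 ε) := by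
  set B := CFC.sqrt H with hBdef
  have hBsa : star B = B := (IsSelfAdjoint.of_nonneg (CFC.sqrt_nonneg H)).star_eq
  have hBB : B * B = H := CFC.sqrt_mul_sqrt_self H hH
  set K := y * star y + algebraMap ℝ 𝔄 ε with hKdef
  have hKsp : IsStrictlyPositive K := a06_sp (mul_star_self_nonneg y) hε
  set R := CFC.sqrt K with hRdef
  have hRsa : star R = R := (IsSelfAdjoint.of_nonneg (CFC.sqrt_nonneg K)).star_eq
  have hRR : R * R = K := CFC.sqrt_mul_sqrt_self K hKsp.nonneg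
  have hε2 : 0 < ε ^ 2 := by positivity
  -- step 1
  have e1 : L τ (star y * H * y + algebraMap ℝ 𝔄 (ε ^ 2))
      = L τ (B * (y * star y) * B + algebraMap ℝ 𝔄 (ε ^ 2)) := by
    have h := L_star_mul_comm τ (B * y) hε2
    rw [star_mul, hBsa] at h
    have h1 : star y * B * (B * y) = star y * H * y := by rw [← hBB]; noncomm_ring
    have h2 : B * y * (star y * B) = B * (y * star y) * B := by noncomm_ring
    rw [h1, h2] at h
    exact h
  -- step 2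
  have e2 : L τ (B * (y * star y) * B + algebraMap ℝ 𝔄 (ε ^ 2))
      ≤ L τ (B * K * B + algebraMap ℝ 𝔄 (ε ^ 2)) := by
    apply L_mono τ
    · refine a06_sp ?_ hε2
      have h := star_left_conjugate_nonneg (mul_star_self_nonneg y) B
      rwa [hBsa] at h
    · have hle : y * star y ≤ K := by
        rw [hKdef]
        exact le_add_of_nonneg_right (by
          rw [← map_zero (algebraMap ℝ 𝔄)]; exact a06_map_mono' hε.le)
      have h := star_left_conjugate_le_conjugate hle B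
      rw [hBsa] at h
      exact add_le_add_left h _
  -- step 3
  have e3 : L τ (B * K * B + algebraMap ℝ 𝔄 (ε ^ 2))
      = L τ (R * H * R + algebraMap ℝ 𝔄 (ε ^ 2)) := by
    have h := L_star_mul_comm τ (R * B) hε2
    rw [star_mul, hBsa, hRsa] at h
    have h1 : B * R * (R * B) = B * K * B := by rw [← hRR]; noncomm_ring
    have h2 : R * B * (B * R) = R * H * R := by rw [← hBB]; noncomm_ring
    rw [h1, h2] at h
    exact h
  -- step 4
  have e4 : L τ (R * H * R + algebraMap ℝ 𝔄 (ε ^ 2)) ≤ L τ (R * (H + algebraMap ℝ 𝔄 ε) * R) := by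
    apply L_mono τ
    · refine a06_sp ?_ hε2
      have h := star_left_conjugate_nonneg hH R
      rwa [hRsa] at h
    · have h1 : R * (H + algebraMap ℝ 𝔄 ε) * R = R * H * R + ε • K := by
        rw [← hRR, Algebra.algebraMap_eq_smul_one]
        simp [mul_add, add_mul]
      rw [h1]
      refine add_le_add_right ?_ _
      have h2 : algebraMap ℝ 𝔄 (ε ^ 2) = ε • algebraMap ℝ 𝔄 ε := by
        rw [Algebra.algebraMap_eq_smul_one, Algebra.algebraMap_eq_smul_one, smul_smul, sq]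
      rw [h2]
      refine smul_le_smul_of_nonneg_left ?_ hε.le
      rw [hKdef]
      exact le_add_of_nonneg_left (mul_star_self_nonneg y)
  -- step 5
  have e5 : L τ (R * (H + algebraMap ℝ 𝔄 ε) * R) = L τ K + L τ (H + algebraMap ℝ 𝔄 ε) :=
    L_sqrt_conj τ hKsp (a06_sp hH hε)
  have e6 : L τ (star y * y + algebraMap ℝ 𝔄 ε) = L τ K := L_star_mul_comm τ y hε
  linarith

theorem L_mul_ge {H : 𝔄} (hH : 0 ≤ H) (y : 𝔄) :
    ∃ C : ℝ, 0 < C ∧ ∀ ε : ℝ, 0 < ε → ε ≤ 1 →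
      L τ (H + algebraMap ℝ 𝔄 ε) + L τ (star y * y + algebraMap ℝ 𝔄 ε)
        ≤ L τ (star y * H * y + algebraMap ℝ 𝔄 (C * Real.sqrt ε)) := by
  set M : ℝ := 1 + ‖H‖ + ‖y‖ ^ 2 with hM
  have hM1 : 1 ≤ M := by have := norm_nonneg H; have := sq_nonneg ‖y‖; linarith
  have hHM : ‖H‖ ≤ M := by have := sq_nonneg ‖y‖; linarith
  have hyM : ‖y‖ ^ 2 ≤ M := by have := norm_nonneg H; linarith
  set B := CFC.sqrt H with hBdef
  have hBsa : star B = B := (IsSelfAdjoint.of_nonneg (CFC.sqrt_nonneg H)).star_eq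
  have hBB : B * B = H := CFC.sqrt_mul_sqrt_self H hH
  set K := y * star y with hKdef
  have hK0 : 0 ≤ K := mul_star_self_nonneg y
  have hKn : ‖K‖ ≤ M := by
    rw [hKdef, CStarRing.norm_self_mul_star, ← sq]; exact hyM
  have hBn : ‖B‖ ≤ M + 1 := by
    have h : ‖B‖ * ‖B‖ = ‖H‖ := by rw [← CStarRing.norm_star_mul_self (x := B), hBsa, hBB]
    nlinarith [norm_nonneg B]
  refine ⟨3 * (M + 1) ^ 2, by positivity, ?_⟩
  intro ε hε hε1
  set s := Real.sqrt ε with hs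
  have hs0 : 0 < s := Real.sqrt_pos.mpr hε
  have hss : s * s = ε := Real.mul_self_sqrt hε.le
  have hs1 : s ≤ 1 := by nlinarith
  have hεs : ε ≤ s := by nlinarith
  have hHsp : IsStrictlyPositive (H + algebraMap ℝ 𝔄 ε) := a06_sp hH hε
  have hKsp : IsStrictlyPositive (K + algebraMap ℝ 𝔄 ε) := a06_sp hK0 hε
  set A := CFC.sqrt (H + algebraMap ℝ 𝔄 ε) with hAdef
  have hAsa : star A = A := (IsSelfAdjoint.of_nonneg (CFC.sqrt_nonneg _)).star_eq
  have hAA : A * A = H + algebraMap ℝ 𝔄 ε := CFC.sqrt_mul_sqrt_self _ hHsp.nonneg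
  have hAB : ‖A - B‖ ≤ s := a06_sqrt_sub hH hε
  have hAn : ‖A‖ ≤ M + 1 := by
    have h : ‖A‖ * ‖A‖ = ‖H + algebraMap ℝ 𝔄 ε‖ := by
      rw [← CStarRing.norm_star_mul_self (x := A), hAsa, hAA]
    have h2 : ‖H + algebraMap ℝ 𝔄 ε‖ ≤ M + 1 := by
      refine (norm_add_le _ _).trans ?_
      have h3 : ‖algebraMap ℝ 𝔄 ε‖ ≤ 1 := by
        rw [Algebra.algebraMap_eq_smul_one, norm_smul, Real.norm_eq_abs, abs_of_pos hε]
        have h4 : ‖(1 : 𝔄)‖ ≤ 1 := by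
          rcases subsingleton_or_nontrivial 𝔄 with h5 | h5
          · rw [Subsingleton.elim (1 : 𝔄) 0, norm_zero]; exact zero_le_one
          · exact le_of_eq (CStarRing.norm_one)
        nlinarith [norm_nonneg (1 : 𝔄)]
      linarith
    nlinarith [norm_nonneg A]
  -- the comparison
  have hdiff : A * (K + algebraMap ℝ 𝔄 ε) * A - B * K * B
      = (A - B) * K * A + B * K * (A - B) + ε • (A * A) := by
    rw [Algebra.algebraMap_eq_smul_one]
    have h1 : A * (K + ε • (1 : 𝔄)) * A = A * K * A + ε • (A * A) := by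
      simp [mul_add, add_mul]
    rw [h1]
    noncomm_ring
  have hnorm : ‖A * (K + algebraMap ℝ 𝔄 ε) * A - B * K * B‖ ≤ 3 * (M + 1) ^ 2 * s := by
    rw [hdiff]
    have n1 : ‖(A - B) * K * A‖ ≤ s * M * (M + 1) := by
      calc ‖(A - B) * K * A‖ ≤ ‖(A - B) * K‖ * ‖A‖ := norm_mul_le _ _
        _ ≤ ‖A - B‖ * ‖K‖ * ‖A‖ := by gcongr; exact norm_mul_le _ _
        _ ≤ s * M * (M + 1) := by gcongr
    have n2 : ‖B * K * (A - B)‖ ≤ (M + 1) * M * s := by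
      calc ‖B * K * (A - B)‖ ≤ ‖B * K‖ * ‖A - B‖ := norm_mul_le _ _
        _ ≤ ‖B‖ * ‖K‖ * ‖A - B‖ := by gcongr; exact norm_mul_le _ _
        _ ≤ (M + 1) * M * s := by gcongr
    have n3 : ‖ε • (A * A)‖ ≤ s * (M + 1) ^ 2 := by
      rw [norm_smul, Real.norm_eq_abs, abs_of_pos hε]
      have h5 : ‖A * A‖ ≤ (M + 1) ^ 2 := by
        calc ‖A * A‖ ≤ ‖A‖ * ‖A‖ := norm_mul_le _ _
          _ ≤ (M + 1) * (M + 1) := by gcongr
          _ = (M + 1) ^ 2 := by ring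
      gcongr
    calc ‖(A - B) * K * A + B * K * (A - B) + ε • (A * A)‖
        ≤ ‖(A - B) * K * A‖ + ‖B * K * (A - B)‖ + ‖ε • (A * A)‖ := norm_add₃_le
      _ ≤ s * M * (M + 1) + (M + 1) * M * s + s * (M + 1) ^ 2 := by gcongr
      _ ≤ 3 * (M + 1) ^ 2 * s := by nlinarith
  have hsa1 : IsSelfAdjoint (A * (K + algebraMap ℝ 𝔄 ε) * A - B * K * B) := by
    apply IsSelfAdjoint.sub
    · have h := IsSelfAdjoint.conjugate' (x := K + algebraMap ℝ 𝔄 ε) hKsp.isSelfAdjoint A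
      rwa [hAsa] at h
    · have h := IsSelfAdjoint.conjugate' (x := K) (IsSelfAdjoint.of_nonneg hK0) B
      rwa [hBsa] at h
  have hle : A * (K + algebraMap ℝ 𝔄 ε) * A
      ≤ B * K * B + algebraMap ℝ 𝔄 (3 * (M + 1) ^ 2 * s) := by
    have h1 := hsa1.le_algebraMap_norm_self
    have h2 := h1.trans (a06_map_mono' (𝔄 := 𝔄) hnorm)
    exact sub_le_iff_le_add'.mp h2
  have hCs : 0 < 3 * (M + 1) ^ 2 * s := by positivity
  have hAu : IsStrictlyPositive (A * (K + algebraMap ℝ 𝔄 ε) * A) := by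
    have hAu : IsUnit A := (CFC.isUnit_sqrt_iff_isStrictlyPositive).mpr hHsp
    have h := (hAu.isStrictlyPositive_star_left_conjugate_iff
      (a := K + algebraMap ℝ 𝔄 ε)).mpr hKsp
    rwa [hAsa] at h
  have e1 : L τ (H + algebraMap ℝ 𝔄 ε) + L τ (K + algebraMap ℝ 𝔄 ε)
      = L τ (A * (K + algebraMap ℝ 𝔄 ε) * A) := (L_sqrt_conj τ hHsp hKsp).symm
  have e2 : L τ (star y * y + algebraMap ℝ 𝔄 ε) = L τ (K + algebraMap ℝ 𝔄 ε) :=
    L_star_mul_comm τ y hε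
  have e3 : L τ (A * (K + algebraMap ℝ 𝔄 ε) * A)
      ≤ L τ (B * K * B + algebraMap ℝ 𝔄 (3 * (M + 1) ^ 2 * s)) := L_mono τ hAu hle
  have e4 : L τ (star y * H * y + algebraMap ℝ 𝔄 (3 * (M + 1) ^ 2 * s))
      = L τ (B * K * B + algebraMap ℝ 𝔄 (3 * (M + 1) ^ 2 * s)) := by
    have h := L_star_mul_comm τ (B * y) hCs
    rw [star_mul, hBsa] at h
    have h1 : star y * B * (B * y) = star y * H * y := by rw [← hBB]; noncomm_ring
    have h2 : B * y * (star y * B) = B * K * B := by rw [hKdef]; noncomm_ring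
    rw [h1, h2] at h
    exact h
  rw [e2, e4, e1]
  exact e3

theorem L_conj_ge {G₁ G₂ : 𝔄} (h₁ : IsUnit G₁) (h₂ : IsUnit G₂) :
    ∃ k : ℝ, 0 < k ∧ ∀ (y : 𝔄) (ε : ℝ), 0 < ε →
      2 * D τ G₁ + 2 * D τ G₂ + L τ (star y * y + algebraMap ℝ 𝔄 (k * ε))
        ≤ L τ (star (G₁ * y * G₂) * (G₁ * y * G₂) + algebraMap ℝ 𝔄 ε) := by
  rcases subsingleton_or_nontrivial 𝔄 with hss | hnt
  · have hL : ∀ X : 𝔄, L τ X = 0 := by
      intro X
      rw [L, Subsingleton.elim (CFC.log X) 0, map_zero, Complex.zero_re]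
    refine ⟨1, one_pos, ?_⟩
    intro y ε _
    simp only [D, hL]
    norm_num
  have hn1 : 0 < ‖G₁‖ := norm_pos_iff.mpr h₁.ne_zero
  have hn2 : 0 < ‖G₂‖ := norm_pos_iff.mpr h₂.ne_zero
  set g₁ := ‖G₁‖ ^ 2 with hg1
  set g₂ := ‖G₂‖ ^ 2 with hg2
  have hg1p : 0 < g₁ := by positivity
  have hg2p : 0 < g₂ := by positivity
  refine ⟨(g₁ * g₂)⁻¹, by positivity, ?_⟩
  intro y ε hε
  have hε2 : 0 < ε / g₂ := by positivity
  have hkε : 0 < (g₁ * g₂)⁻¹ * ε := by positivity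
  obtain ⟨X, hX⟩ : ∃ X : 𝔄, X = G₁ * y := ⟨_, rfl⟩
  rw [← hX]
  -- outer conjugation
  have e1 : L τ (star G₂ * (star X * X + algebraMap ℝ 𝔄 (ε / g₂)) * G₂)
      ≤ L τ (star (X * G₂) * (X * G₂) + algebraMap ℝ 𝔄 ε) := by
    apply L_mono τ
    · exact (h₂.isStrictlyPositive_star_left_conjugate_iff).mpr
        (a06_sp (star_mul_self_nonneg X) hε2)
    · have h1 : star G₂ * (star X * X + algebraMap ℝ 𝔄 (ε / g₂)) * G₂
          = star (X * G₂) * (X * G₂) + (ε / g₂) • (star G₂ * G₂) := by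
        rw [Algebra.algebraMap_eq_smul_one, star_mul]
        simp [mul_add, add_mul, mul_assoc]
      rw [h1]
      refine add_le_add_right ?_ _
      have h2 : star G₂ * G₂ ≤ algebraMap ℝ 𝔄 g₂ := CStarAlgebra.star_mul_le_algebraMap_norm_sq
      have h3 := smul_le_smul_of_nonneg_left h2 hε2.le
      refine h3.trans (le_of_eq ?_)
      rw [Algebra.algebraMap_eq_smul_one, Algebra.algebraMap_eq_smul_one, smul_smul,
        div_mul_cancel₀ _ hg2p.ne']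
  have e2 : L τ (star G₂ * (star X * X + algebraMap ℝ 𝔄 (ε / g₂)) * G₂)
      = L τ (star G₂ * G₂) + L τ (star X * X + algebraMap ℝ 𝔄 (ε / g₂)) :=
    L_conj' τ h₂ (a06_sp (star_mul_self_nonneg X) hε2)
  have e3 : L τ (star X * X + algebraMap ℝ 𝔄 (ε / g₂))
      = L τ (X * star X + algebraMap ℝ 𝔄 (ε / g₂)) := L_star_mul_comm τ X hε2
  have e4 : L τ (G₁ * (y * star y + algebraMap ℝ 𝔄 ((g₁ * g₂)⁻¹ * ε)) * star G₁)
      ≤ L τ (X * star X + algebraMap ℝ 𝔄 (ε / g₂)) := by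
    apply L_mono τ
    · exact (h₁.isStrictlyPositive_star_right_conjugate_iff).mpr
        (a06_sp (mul_star_self_nonneg y) hkε)
    · have h1 : G₁ * (y * star y + algebraMap ℝ 𝔄 ((g₁ * g₂)⁻¹ * ε)) * star G₁
          = X * star X + ((g₁ * g₂)⁻¹ * ε) • (G₁ * star G₁) := by
        rw [Algebra.algebraMap_eq_smul_one, hX, star_mul]
        simp [mul_add, add_mul, mul_assoc]
      rw [h1]
      refine add_le_add_right ?_ _
      have h2 : G₁ * star G₁ ≤ algebraMap ℝ 𝔄 g₁ := CStarAlgebra.mul_star_le_algebraMap_norm_sq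
      have h3 := smul_le_smul_of_nonneg_left h2 hkε.le
      refine h3.trans (le_of_eq ?_)
      rw [Algebra.algebraMap_eq_smul_one, Algebra.algebraMap_eq_smul_one, smul_smul]
      congr 1
      field_simp
  have e5 : L τ (G₁ * (y * star y + algebraMap ℝ 𝔄 ((g₁ * g₂)⁻¹ * ε)) * star G₁)
      = L τ (G₁ * star G₁) + L τ (y * star y + algebraMap ℝ 𝔄 ((g₁ * g₂)⁻¹ * ε)) :=
    L_conj τ h₁ (a06_sp (mul_star_self_nonneg y) hkε)
  have e6 : L τ (star G₁ * G₁) = L τ (G₁ * star G₁) := L_unit_comm τ h₁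
  have e7 : L τ (star y * y + algebraMap ℝ 𝔄 ((g₁ * g₂)⁻¹ * ε))
      = L τ (y * star y + algebraMap ℝ 𝔄 ((g₁ * g₂)⁻¹ * ε)) := L_star_mul_comm τ y hkε
  rw [D, D]
  linarith

/-- for an invertible `x`, `L (x* x + ε) → 2 D x` as `ε → 0`. -/
theorem L_add_eps_le {x : 𝔄} (hx : IsUnit x) {ρ : ℝ} (hρ : 0 < ρ) :
    ∃ ε₀ : ℝ, 0 < ε₀ ∧ ∀ ε : ℝ, 0 < ε → ε ≤ ε₀ →
      L τ (star x * x + algebraMap ℝ 𝔄 ε) ≤ 2 * D τ x + ρ := by
  have hsp : IsStrictlyPositive (star x * x) := by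
    have h := (hx.isStrictlyPositive_star_left_conjugate_iff (a := (1 : 𝔄))).mpr
      isStrictlyPositive_one
    rwa [mul_one] at h
  have hc : ContinuousAt (fun s : ℝ => L τ (star x * x + algebraMap ℝ 𝔄 s)) 0 := by
    apply continuousAt_L τ (h := fun s : ℝ => star x * x + algebraMap ℝ 𝔄 s) (t := 0)
    · intro s
      apply IsSelfAdjoint.add (IsSelfAdjoint.star_mul_self x)
      exact IsSelfAdjoint.algebraMap 𝔄 (IsSelfAdjoint.all s)
    · simpa using hsp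
    · exact (continuous_const.add (algebraMapCLM ℝ 𝔄).continuous).continuousAt
  rw [Metric.continuousAt_iff] at hc
  obtain ⟨δ, hδ, hd⟩ := hc ρ hρ
  refine ⟨δ / 2, by positivity, ?_⟩
  intro ε hε hε2
  have h1 := @hd ε (by rw [Real.dist_eq, sub_zero, abs_of_pos hε]; linarith)
  rw [Real.dist_eq] at h1
  simp only [map_zero, add_zero] at h1
  have h2 := (abs_lt.mp h1).2
  rw [D]
  linarith

end LT
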