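import Pool.Agent.H29.LT.M01

/-!
# LT-M04: scalar matrices `scal` and the entrywise trace `E`

* `PM_scal`: `Z = Bᴴ B` (`Matrix.posSemidef_iff_eq_conjTranspose_mul_self` or similar), `scal` is
  multiplicative and compatible with `ᴴ`; `SPM_scal`: moreover invertible.
* `posSemidef_E`: `H = yᴴ y`, so for `v : κ → ℂ`:
  `(E H)_{ij} = Σ_k τ (star (y k i) * y k j)`, and `Σ_{ij} conj(v i) v j (E H)_{ij}
  = Σ_k τ (star (Σ_i v i y k i) * (Σ_j v j y k j)) ≥ 0`; Hermitian by `star_map`.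
* `mat_f_eq_trace`: `Σ_i τ (x i i) = Matrix.trace (E τ x)`.
* `n2_sq_eq`: both sides are `Σ_{ij} Re τ (star (x i j) * x i j)` (use `comm`).
-/

set_option linter.unusedSectionVars false

namespace LT

open scoped Matrix ComplexOrder

variable {𝔄 : Type*} [CStarAlgebra 𝔄] [PartialOrder 𝔄] [StarOrderedRing 𝔄] (τ : Tr 𝔄)
variable {ι κ μ : Type*} [Fintype ι] [DecidableEq ι] [Fintype κ] [DecidableEq κ]
  [Fintype μ] [DecidableEq μ]

theorem scal_mul (Z : Matrix ι κ ℂ) (W : Matrix κ μ ℂ) : scal 𝔄 (Z * W) = scal 𝔄 Z * scal 𝔄 W := by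
  unfold scal
  exact Matrix.map_mul

theorem scal_add (Z W : Matrix ι κ ℂ) : scal 𝔄 (Z + W) = scal 𝔄 Z + scal 𝔄 W := by
  unfold scal
  exact Matrix.map_add _ (fun a b => map_add _ a b) _ _

theorem scal_one : scal 𝔄 (1 : Matrix ι ι ℂ) = 1 := by
  unfold scal
  exact Matrix.map_one _ (map_zero _) (map_one _)

theorem scal_conjTranspose (Z : Matrix ι κ ℂ) : scal 𝔄 Zᴴ = (scal 𝔄 Z)ᴴ := by
  unfold scal
  exact Matrix.conjTranspose_map _ (fun a => algebraMap_star_comm a)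

open scoped MatrixOrder in
private theorem m04_sqrt {Z : Matrix ι ι ℂ} (h : Z.PosSemidef) :
    ∃ B : Matrix ι ι ℂ, Z = Bᴴ * B :=
  CStarAlgebra.nonneg_iff_eq_star_mul_self.mp h.nonneg

theorem PM_scal {Z : Matrix ι ι ℂ} (h : Z.PosSemidef) : PM (scal 𝔄 Z) := by
  obtain ⟨B, rfl⟩ := m04_sqrt h
  rw [scal_mul, scal_conjTranspose]
  exact PM_conjTranspose_mul_self _

theorem SPM_scal {Z : Matrix ι ι ℂ} (h : Z.PosDef) : SPM (scal 𝔄 Z) := by
  have hu : IsUnit (scal 𝔄 Z) := by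
    obtain ⟨u, hu⟩ := h.isUnit
    have h1 : (u : Matrix ι ι ℂ) * (↑u⁻¹ : Matrix ι ι ℂ) = 1 := u.mul_inv
    have h2 : (↑u⁻¹ : Matrix ι ι ℂ) * (u : Matrix ι ι ℂ) = 1 := u.inv_mul
    refine ⟨⟨scal 𝔄 (u : Matrix ι ι ℂ), scal 𝔄 (↑u⁻¹ : Matrix ι ι ℂ), ?_, ?_⟩, ?_⟩
    · rw [← scal_mul, h1, scal_one]
    · rw [← scal_mul, h2, scal_one]
    · rw [← hu]
  have hu' : IsUnit (toC (scal 𝔄 Z)) := hu
  exact hu'.isStrictlyPositive (PM_scal h.posSemidef)

theorem E_add (x y : Matrix ι κ 𝔄) : E τ (x + y) = E τ x + E τ y := by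
  ext i j
  exact map_add τ.f (x i j) (y i j)

theorem E_sub (x y : Matrix ι κ 𝔄) : E τ (x - y) = E τ x - E τ y := by
  ext i j
  exact map_sub τ.f (x i j) (y i j)

theorem E_scal_mul (Z : Matrix ι κ ℂ) (x : Matrix κ μ 𝔄) : E τ (scal 𝔄 Z * x) = Z * E τ x := by
  ext i j
  change τ.f ((scal 𝔄 Z * x) i j) = (Z * E τ x) i j
  rw [Matrix.mul_apply, Matrix.mul_apply, map_sum]
  refine Finset.sum_congr rfl fun k _ => ?_
  change τ.f (algebraMap ℂ 𝔄 (Z i k) * x k j) = Z i k * τ.f (x k j)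
  rw [← Algebra.smul_def, map_smul, smul_eq_mul]

theorem E_mul_scal (x : Matrix ι κ 𝔄) (Z : Matrix κ μ ℂ) : E τ (x * scal 𝔄 Z) = E τ x * Z := by
  ext i j
  change τ.f ((x * scal 𝔄 Z) i j) = (E τ x * Z) i j
  rw [Matrix.mul_apply, Matrix.mul_apply, map_sum]
  refine Finset.sum_congr rfl fun k _ => ?_
  change τ.f (x i k * algebraMap ℂ 𝔄 (Z k j)) = τ.f (x i k) * Z k j
  rw [← Algebra.commutes, ← Algebra.smul_def, map_smul, smul_eq_mul, mul_comm]

theorem E_conjTranspose (x : Matrix ι κ 𝔄) : E τ xᴴ = (E τ x)ᴴ := by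
  ext i j
  exact τ.star_map (x j i)

private theorem m04_E_scal (h1 : τ.f 1 = 1) (Z : Matrix ι κ ℂ) : E τ (scal 𝔄 Z) = Z := by
  ext i j
  change τ.f (algebraMap ℂ 𝔄 (Z i j)) = Z i j
  rw [Algebra.algebraMap_eq_smul_one, map_smul, h1, smul_eq_mul, mul_one]

theorem E_one (h1 : τ.f 1 = 1) : E τ (1 : Matrix ι ι 𝔄) = 1 := by
  rw [← scal_one (𝔄 := 𝔄) (ι := ι), m04_E_scal τ h1]

theorem E_scal (h1 : τ.f 1 = 1) (Z : Matrix ι κ ℂ) : E τ (scal 𝔄 Z) = Z :=
  m04_E_scal τ h1 Z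

private theorem m04_tau_nonneg (a : 𝔄) : 0 ≤ τ.f (star a * a) := by
  rw [Complex.le_def]
  refine ⟨τ.nonneg a, ?_⟩
  have h := τ.star_map (star a * a)
  rw [star_mul, star_star] at h
  have h2 := congrArg Complex.im h
  have h3 : (star (τ.f (star a * a))).im = -(τ.f (star a * a)).im := Complex.conj_im _
  rw [h3] at h2
  rw [Complex.zero_im]
  linarith

private theorem m04_sqrtA {A : Type*} [CStarAlgebra A] [PartialOrder A] [StarOrderedRing A] {a : A}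
    (h : 0 ≤ a) : ∃ b, a = star b * b :=
  CStarAlgebra.nonneg_iff_eq_star_mul_self.1 h

private theorem m04_sqrtM {H : Matrix ι ι 𝔄} (h : PM H) : ∃ z : Matrix ι ι 𝔄, H = zᴴ * z := by
  obtain ⟨z, hz⟩ := m04_sqrtA (show 0 ≤ toC H from h)
  exact ⟨z, hz⟩

theorem posSemidef_E {H : Matrix ι ι 𝔄} (h : PM H) : (E τ H).PosSemidef := by
  obtain ⟨z, rfl⟩ := m04_sqrtM h
  refine Matrix.PosSemidef.of_dotProduct_mulVec_nonneg ?_ ?_
  · change (E τ (zᴴ * z))ᴴ = E τ (zᴴ * z)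
    rw [← E_conjTranspose, Matrix.conjTranspose_mul, Matrix.conjTranspose_conjTranspose]
  · intro v
    have h1 : star v ⬝ᵥ (E τ (zᴴ * z)) *ᵥ v =
        ∑ k, τ.f (star (∑ i, v i • z k i) * (∑ j, v j • z k j)) := by
      have h2 : ∀ k, τ.f (star (∑ i, v i • z k i) * (∑ j, v j • z k j)) =
          ∑ i, ∑ j, star (v i) * (τ.f (star (z k i) * z k j) * v j) := by
        intro k
        rw [star_sum, Finset.sum_mul, map_sum]
        refine Finset.sum_congr rfl fun i _ => ?_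
        rw [Finset.mul_sum, map_sum]
        refine Finset.sum_congr rfl fun j _ => ?_
        rw [star_smul, smul_mul_smul_comm, map_smul, smul_eq_mul]
        ring
      rw [Finset.sum_congr rfl fun k _ => h2 k, Finset.sum_comm]
      refine Finset.sum_congr rfl fun i _ => ?_
      rw [Finset.sum_comm]
      change star (v i) * (∑ j, (E τ (zᴴ * z)) i j * v j) = _
      rw [Finset.mul_sum]
      refine Finset.sum_congr rfl fun j _ => ?_
      rw [← Finset.mul_sum, ← Finset.sum_mul]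
      have h3 : (E τ (zᴴ * z)) i j = ∑ k, τ.f (star (z k i) * z k j) := by
        change τ.f ((zᴴ * z) i j) = _
        rw [Matrix.mul_apply, map_sum]
        rfl
      rw [h3]
    rw [h1]
    exact Finset.sum_nonneg fun k _ => m04_tau_nonneg τ _

theorem E_mono {H K : Matrix ι ι 𝔄} (h : LeM H K) : (E τ K - E τ H).PosSemidef := by
  rw [← E_sub]
  exact posSemidef_E τ (LeM_iff.1 h)

theorem mat_f_eq_trace (x : Matrix ι ι 𝔄) : (τ.mat ι).f (toC x) = Matrix.trace (E τ x) := rfl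

theorem mat_mass (h1 : τ.f 1 = 1) : (τ.mat ι).mass = Fintype.card ι := by
  unfold Tr.mass
  rw [← toC_one, mat_f_eq_trace, E_one τ h1, Matrix.trace_one]
  simp

/-- `‖x‖₂² = tr E(x xᴴ)` -/
theorem n2_sq_eq (x : Matrix ι ι 𝔄) :
    n2 (τ.mat ι) (toC x) ^ 2 = (Matrix.trace (E τ (x * xᴴ))).re := by
  unfold n2
  rw [Real.sq_sqrt ((τ.mat ι).nonneg (toC x)), (τ.mat ι).comm, ← toC_star, ← toC_mul,
    mat_f_eq_trace]

end LT
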