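import Pool.Agent.H29.LT.M01
import Pool.Agent.H29.LT.M02
import Pool.Agent.H29.LT.M04
import Pool.Agent.H29.LT.A06
import Pool.Agent.H29.LT.A07

/-!
# LT-C06: from the square Fox matrix to the two Laplacians

`D = (S v)` is the `n × (n+1)` matrix, `V = (w; σ)` the column, `D V = S w + v σ = 0`.
`Δ₂ = S Sᴴ + v vᴴ`, `Δ₀ = wᴴ w + σᴴ σ`.  Put
`Nn = fromBlocks S v wᴴ σᴴ`, `Y = fromBlocks 1 w 0 σ` (index type `ι ⊕ Unit`). Then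
`Nn Nnᴴ = fromBlocks Δ₂ 0 0 Δ₀`,  `Nn Y = fromBlocks S 0 wᴴ Δ₀`.
Write `ℓ(x, ε) = LM (xᴴ x + ε)`; it is monotone in `ε` and `ℓ(x,ε) = ℓ(xᴴ,ε)` (`L_star_mul_comm`).

(A) lower bound `ℓ(Nn Y, δ) ≥ c + 2 l₀` for all `δ > 0`.
    `Nn Y = (fromBlocks S 0 0 1 * E) * fromBlocks 1 0 0 Δ₀`, `E = fromBlocks 1 0 wᴴ 1`
    (invertible, `DM E = 0`).  `L_mul_ge` with `H = Gᴴ G`, `G = fromBlocks S 0 0 1 * E`,
    `y = fromBlocks 1 0 0 Δ₀`: `ℓ(G,ε) + ℓ(y,ε) ≤ ℓ(Nn Y, C √ε)` for `ε ≤ 1`.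
    `ℓ(G,ε) ≥ ℓ(fromBlocks S 0 0 1, k ε)` (`L_conj_ge` with `G₁ = 1`, `G₂ = E`)
    `= ℓ(S,kε) + log(1+kε) ≥ c` (`LM_fromBlocks_diag`).
    `ℓ(y,ε) = card ι · log(1+ε) + LM (Δ₀² + ε) ≥ LM (Δ₀² + ε)`, and `LM (Δ₀² + ε) ≥ 2 l₀`:
    `L_mul_ge` with `H = Δ₀`, `y = Δ₀^{1/2}`: `2 LM (Δ₀ + ε') ≤ LM (Δ₀² + C' √ε')`; take `ε'` with
    `C' √ε' ≤ ε`.
    Given `δ`, choose `ε ≤ 1` with `C √ε ≤ δ`.
(B) upper bound: `L_mul_le` with `H = Nnᴴ Nn`, `y = Y`: `ℓ(Nn Y, ε²) ≤ ℓ(Nn,ε) + ℓ(Y,ε)` and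
    `ℓ(Nn,ε) = ℓ(Nnᴴ,ε) = LM (Δ₂+ε) + LM (Δ₀+ε)`.
    `ℓ(Y,·)`: `Y = fromBlocks 1 0 0 σ * E'`, `E' = fromBlocks 1 w 0 1`;  `L_mul_le`
    (`H = (fromBlocks 1 0 0 σ)ᴴ (fromBlocks 1 0 0 σ)`, `y = E'`):
    `ℓ(Y,ε²) ≤ card ι · log(1+ε) + ℓ(σ,ε) + ℓ(E',ε)`; for every `ρ > 0` this is `≤ ρ` for small
    `ε` (`hσ`, `L_add_eps_le` with `DM E' = 0`).
(C) For `ρ > 0` choose `ε₀` with `ℓ(Y,ε) ≤ ρ` and `LM (Δ₀+ε) ≤ l₀ + ρ` for `ε ≤ ε₀`; then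
    `c + 2 l₀ ≤ LM (Δ₂+ε) + l₀ + 2ρ` for `ε ≤ ε₀`; by monotonicity in `ε`,
    `LM (Δ₂ + ε) ≥ c + l₀ - 2ρ` for all `ε > 0`; `ρ → 0`.
-/

set_option linter.unusedSectionVars false

namespace LT

open scoped Matrix

variable {𝔄 : Type*} [CStarAlgebra 𝔄] [PartialOrder 𝔄] [StarOrderedRing 𝔄] {τ : Tr 𝔄}
variable {ι : Type*} [Fintype ι] [DecidableEq ι]

section C06

variable {κ : Type*} [Fintype κ] [DecidableEq κ]

theorem c06_sqrt {A : Type*} [CStarAlgebra A] [PartialOrder A] [StarOrderedRing A] {a : A}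
    (h : 0 ≤ a) : ∃ b : A, star b = b ∧ b * b = a :=
  ⟨CFC.sqrt a, (IsSelfAdjoint.of_nonneg (CFC.sqrt_nonneg a)).star_eq,
    CFC.sqrt_mul_sqrt_self a h⟩

theorem c06_comm (x : Matrix κ κ 𝔄) {ε : ℝ} (hε : 0 < ε) :
    LM τ (xᴴ * x + eI 𝔄 κ ε) = LM τ (x * xᴴ + eI 𝔄 κ ε) :=
  L_star_mul_comm (τ.mat κ) (toC x) hε

theorem c06_eI_le {ε ε' : ℝ} (h : ε ≤ ε') : LeM (eI 𝔄 κ ε) (eI 𝔄 κ ε') :=
  algebraMap_mono (CStarMatrix κ κ 𝔄) h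

theorem c06_mono {H : Matrix κ κ 𝔄} (hH : PM H) {ε ε' : ℝ} (hε : 0 < ε) (h : ε ≤ ε') :
    LM τ (H + eI 𝔄 κ ε) ≤ LM τ (H + eI 𝔄 κ ε') :=
  LM_mono τ (SPM_add_eI hH hε) (LeM.add (LeM.refl H) (c06_eI_le h))

theorem c06_eI_blocks (ε : ℝ) :
    eI 𝔄 (ι ⊕ κ) ε = Matrix.fromBlocks (eI 𝔄 ι ε) 0 0 (eI 𝔄 κ ε) := by
  rw [eI, eI, eI, Algebra.algebraMap_eq_smul_one, Algebra.algebraMap_eq_smul_one,
    Algebra.algebraMap_eq_smul_one, ← Matrix.fromBlocks_one, Matrix.fromBlocks_smul, smul_zero,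
    smul_zero]

theorem c06_one_PM : PM (1 : Matrix κ κ 𝔄) := by
  have h := PM_conjTranspose_mul_self (1 : Matrix κ κ 𝔄)
  rwa [Matrix.conjTranspose_one, Matrix.one_mul] at h

theorem c06_one_ge {ε : ℝ} (hε : 0 < ε) : 0 ≤ LM τ ((1 : Matrix κ κ 𝔄) + eI 𝔄 κ ε) := by
  have h0 : LM τ (1 : Matrix κ κ 𝔄) = 0 := L_one (τ.mat κ)
  have h1 : SPM (1 : Matrix κ κ 𝔄) := isStrictlyPositive_one (A := CStarMatrix κ κ 𝔄)
  rw [← h0]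
  refine LM_mono τ h1 ?_
  rw [LeM_iff, add_sub_cancel_left]
  exact algebraMap_nonneg (CStarMatrix κ κ 𝔄) hε.le

theorem c06_diag (x : Matrix ι ι 𝔄) (y : Matrix κ κ 𝔄) {ε : ℝ} (hε : 0 < ε) :
    LM τ ((Matrix.fromBlocks x 0 0 y)ᴴ * Matrix.fromBlocks x 0 0 y + eI 𝔄 (ι ⊕ κ) ε) =
      LM τ (xᴴ * x + eI 𝔄 ι ε) + LM τ (yᴴ * y + eI 𝔄 κ ε) := by
  have h1 : (Matrix.fromBlocks x 0 0 y)ᴴ * Matrix.fromBlocks x 0 0 y + eI 𝔄 (ι ⊕ κ) ε =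
      Matrix.fromBlocks (xᴴ * x + eI 𝔄 ι ε) 0 0 (yᴴ * y + eI 𝔄 κ ε) := by
    rw [Matrix.fromBlocks_conjTranspose, Matrix.fromBlocks_multiply, c06_eI_blocks,
      Matrix.fromBlocks_add]
    simp only [Matrix.conjTranspose_zero, Matrix.zero_mul, Matrix.mul_zero, add_zero, zero_add]
  rw [h1, LM_fromBlocks_diag τ (SPM_add_eI (PM_conjTranspose_mul_self x) hε)
    (SPM_add_eI (PM_conjTranspose_mul_self y) hε)]

theorem c06_mul_le (x y : Matrix κ κ 𝔄) {ε : ℝ} (hε : 0 < ε) :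
    LM τ ((x * y)ᴴ * (x * y) + eI 𝔄 κ (ε ^ 2)) ≤
      LM τ (xᴴ * x + eI 𝔄 κ ε) + LM τ (yᴴ * y + eI 𝔄 κ ε) := by
  have h := L_mul_le (τ.mat κ) (H := toC (xᴴ * x)) (y := toC y)
    (PM_conjTranspose_mul_self x) hε
  have e : (x * y)ᴴ * (x * y) = yᴴ * (xᴴ * x) * y := by
    rw [Matrix.conjTranspose_mul]
    simp only [Matrix.mul_assoc]
  rw [e]
  exact h

theorem c06_mul_ge (x y : Matrix κ κ 𝔄) :
    ∃ C : ℝ, 0 < C ∧ ∀ ε : ℝ, 0 < ε → ε ≤ 1 →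
      LM τ (xᴴ * x + eI 𝔄 κ ε) + LM τ (yᴴ * y + eI 𝔄 κ ε)
        ≤ LM τ ((x * y)ᴴ * (x * y) + eI 𝔄 κ (C * Real.sqrt ε)) := by
  obtain ⟨C, hC, h⟩ := L_mul_ge (τ.mat κ) (H := toC (xᴴ * x))
    (PM_conjTranspose_mul_self x) (toC y)
  refine ⟨C, hC, fun ε hε hε1 => ?_⟩
  have e : (x * y)ᴴ * (x * y) = yᴴ * (xᴴ * x) * y := by
    rw [Matrix.conjTranspose_mul]
    simp only [Matrix.mul_assoc]
  rw [e]
  exact h ε hε hε1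

/-- `LM (Δ² + ε) ≥ 2 l` if `LM (Δ + ε) ≥ l` for all `ε` -/
theorem c06_sq {H : Matrix κ κ 𝔄} (hH : PM H) {l : ℝ}
    (hl : ∀ ε : ℝ, 0 < ε → l ≤ LM τ (H + eI 𝔄 κ ε)) {ε : ℝ} (hε : 0 < ε) :
    2 * l ≤ LM τ (Hᴴ * H + eI 𝔄 κ ε) := by
  have hH' : (0 : CStarMatrix κ κ 𝔄) ≤ toC H := hH
  obtain ⟨y, hys, hyy⟩ := c06_sqrt hH'
  obtain ⟨C, hC, h⟩ := L_mul_ge (τ.mat κ) hH' y
  have e1 : star y * toC H * y = toC (Hᴴ * H) := by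
    have h2 : toC (Hᴴ * H) = toC H * toC H := by
      rw [hH.isHermitian]; rfl
    rw [h2, hys, ← hyy]
    simp only [mul_assoc]
  have e2 : star y * y = toC H := by rw [hys, hyy]
  set ε' : ℝ := min 1 ((ε / C) ^ 2) with hε'
  have hε'0 : 0 < ε' := lt_min one_pos (by positivity)
  have h3 := h ε' hε'0 (min_le_left _ _)
  rw [e1, e2] at h3
  have h4 : C * Real.sqrt ε' ≤ ε := by
    have h5 : Real.sqrt ε' ≤ ε / C := by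
      rw [Real.sqrt_le_left (by positivity)]
      exact min_le_right _ _
    calc C * Real.sqrt ε' ≤ C * (ε / C) := mul_le_mul_of_nonneg_left h5 hC.le
      _ = ε := by field_simp
  have h6 : l ≤ L (τ.mat κ) (toC H + algebraMap ℝ (CStarMatrix κ κ 𝔄) ε') := hl ε' hε'0
  have h7 : LM τ (Hᴴ * H + eI 𝔄 κ (C * Real.sqrt ε')) ≤ LM τ (Hᴴ * H + eI 𝔄 κ ε) :=
    c06_mono (PM_conjTranspose_mul_self H) (mul_pos hC (Real.sqrt_pos.2 hε'0)) h4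
  have h8 : L (τ.mat κ) (toC H + algebraMap ℝ (CStarMatrix κ κ 𝔄) ε') +
      L (τ.mat κ) (toC H + algebraMap ℝ (CStarMatrix κ κ 𝔄) ε') ≤
    LM τ (Hᴴ * H + eI 𝔄 κ (C * Real.sqrt ε')) := h3
  linarith

end C06

theorem laplacian_lower (h1 : τ.f 1 = 1) (S : Matrix ι ι 𝔄) (v w : Matrix ι Unit 𝔄)
    (σ : Matrix Unit Unit 𝔄) (hDV : S * w + v * σ = 0) {c l₀ : ℝ}
    (hc : ∀ ε : ℝ, 0 < ε → c ≤ LM τ (Sᴴ * S + eI 𝔄 ι ε))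
    (hσ : ∀ ρ : ℝ, 0 < ρ → ∃ ε₀ : ℝ, 0 < ε₀ ∧ ∀ ε : ℝ, 0 < ε → ε ≤ ε₀ →
      LM τ (σᴴ * σ + eI 𝔄 Unit ε) ≤ ρ)
    (hl : ∀ ε : ℝ, 0 < ε → l₀ ≤ LM τ (wᴴ * w + σᴴ * σ + eI 𝔄 Unit ε))
    (hl' : ∀ ρ : ℝ, 0 < ρ → ∃ ε : ℝ, 0 < ε ∧
      LM τ (wᴴ * w + σᴴ * σ + eI 𝔄 Unit ε) ≤ l₀ + ρ)
    {ε : ℝ} (hε : 0 < ε) :
    c + l₀ ≤ LM τ (S * Sᴴ + v * vᴴ + eI 𝔄 ι ε) := by
  set Δ₀ : Matrix Unit Unit 𝔄 := wᴴ * w + σᴴ * σ with hΔ₀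
  have hΔ₀P : PM Δ₀ := PM.add (PM_conjTranspose_mul_self w) (PM_conjTranspose_mul_self σ)
  have hΔ₂P : PM (S * Sᴴ + v * vᴴ) := by
    have a := PM_conjTranspose_mul_self Sᴴ
    have b := PM_conjTranspose_mul_self vᴴ
    rw [Matrix.conjTranspose_conjTranspose] at a b
    exact PM.add a b
  set Nn : Matrix (ι ⊕ Unit) (ι ⊕ Unit) 𝔄 := Matrix.fromBlocks S v wᴴ σᴴ with hNn
  set Y : Matrix (ι ⊕ Unit) (ι ⊕ Unit) 𝔄 := Matrix.fromBlocks 1 w 0 σ with hY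
  have hNN : Nn * Nnᴴ = Matrix.fromBlocks (S * Sᴴ + v * vᴴ) 0 0 Δ₀ := by
    have h2 : wᴴ * Sᴴ + σᴴ * vᴴ = 0 := by
      rw [← Matrix.conjTranspose_mul, ← Matrix.conjTranspose_mul, ← Matrix.conjTranspose_add, hDV,
        Matrix.conjTranspose_zero]
    rw [hNn, Matrix.fromBlocks_conjTranspose, Matrix.fromBlocks_multiply,
      Matrix.conjTranspose_conjTranspose, Matrix.conjTranspose_conjTranspose, hDV, h2]
  have hNY : Nn * Y = Matrix.fromBlocks S 0 wᴴ Δ₀ := by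
    rw [hNn, hY, Matrix.fromBlocks_multiply, hDV]
    simp only [Matrix.mul_one, Matrix.mul_zero, add_zero, hΔ₀]
  -- (A)
  have hA : ∀ δ : ℝ, 0 < δ → c + 2 * l₀ ≤ LM τ ((Nn * Y)ᴴ * (Nn * Y) + eI 𝔄 (ι ⊕ Unit) δ) := by
    intro δ hδ
    set T : Matrix (ι ⊕ Unit) (ι ⊕ Unit) 𝔄 := Matrix.fromBlocks S 0 0 1 with hT
    set F : Matrix (ι ⊕ Unit) (ι ⊕ Unit) 𝔄 := Matrix.fromBlocks 1 0 wᴴ 1 with hF
    set y : Matrix (ι ⊕ Unit) (ι ⊕ Unit) 𝔄 := Matrix.fromBlocks 1 0 0 Δ₀ with hy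
    have e1 : (T * F) * y = Nn * Y := by
      rw [hNY, hT, hF, hy, Matrix.fromBlocks_multiply, Matrix.fromBlocks_multiply]
      simp only [Matrix.mul_one, Matrix.one_mul, Matrix.mul_zero, Matrix.zero_mul, add_zero,
        zero_add]
    obtain ⟨C, hC, h⟩ := c06_mul_ge (τ := τ) (T * F) y
    have hFu : IsUnit F := by
      refine ⟨⟨F, Matrix.fromBlocks 1 0 (-wᴴ) 1, ?_, ?_⟩, rfl⟩
      · rw [hF, Matrix.fromBlocks_multiply]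
        simp only [Matrix.mul_one, Matrix.one_mul, Matrix.mul_zero, Matrix.zero_mul, add_zero,
          zero_add, add_neg_cancel, Matrix.fromBlocks_one]
      · rw [hF, Matrix.fromBlocks_multiply]
        simp only [Matrix.mul_one, Matrix.one_mul, Matrix.mul_zero, Matrix.zero_mul, add_zero,
          zero_add, neg_add_cancel, Matrix.fromBlocks_one]
    have hFD : D (τ.mat (ι ⊕ Unit)) (toC F) = 0 := DM_unip₂₁ τ wᴴ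
    obtain ⟨k, hk, hk'⟩ := L_conj_ge (τ.mat (ι ⊕ Unit))
      (G₁ := (1 : CStarMatrix (ι ⊕ Unit) (ι ⊕ Unit) 𝔄)) (G₂ := toC F) isUnit_one hFu
    set ε' : ℝ := min 1 ((δ / C) ^ 2) with hε'
    have hε'0 : 0 < ε' := lt_min one_pos (by positivity)
    have h3 := h ε' hε'0 (min_le_left _ _)
    have h4 : C * Real.sqrt ε' ≤ δ := by
      have h5 : Real.sqrt ε' ≤ δ / C := by
        rw [Real.sqrt_le_left (by positivity)]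
        exact min_le_right _ _
      calc C * Real.sqrt ε' ≤ C * (δ / C) := mul_le_mul_of_nonneg_left h5 hC.le
        _ = δ := by field_simp
    rw [e1] at h3
    have h7 : LM τ ((Nn * Y)ᴴ * (Nn * Y) + eI 𝔄 (ι ⊕ Unit) (C * Real.sqrt ε')) ≤
        LM τ ((Nn * Y)ᴴ * (Nn * Y) + eI 𝔄 (ι ⊕ Unit) δ) :=
      c06_mono (PM_conjTranspose_mul_self _) (mul_pos hC (Real.sqrt_pos.2 hε'0)) h4
    have h8 : LM τ (Tᴴ * T + eI 𝔄 (ι ⊕ Unit) (k * ε')) ≤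
        LM τ ((T * F)ᴴ * (T * F) + eI 𝔄 (ι ⊕ Unit) ε') := by
      have h9 := hk' (toC T) ε' hε'0
      rw [D_one, hFD, one_mul, mul_zero, zero_add, zero_add] at h9
      exact h9
    have h10 : c ≤ LM τ (Tᴴ * T + eI 𝔄 (ι ⊕ Unit) (k * ε')) := by
      rw [hT, c06_diag S 1 (mul_pos hk hε'0), Matrix.conjTranspose_one, Matrix.one_mul]
      have a := hc _ (mul_pos hk hε'0)
      have b := c06_one_ge (τ := τ) (κ := Unit) (mul_pos hk hε'0)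
      linarith
    have h11 : 2 * l₀ ≤ LM τ (yᴴ * y + eI 𝔄 (ι ⊕ Unit) ε') := by
      rw [hy, c06_diag 1 Δ₀ hε'0, Matrix.conjTranspose_one, Matrix.one_mul]
      have a := c06_sq hΔ₀P hl hε'0
      have b := c06_one_ge (τ := τ) (κ := ι) hε'0
      linarith
    linarith
  -- (B)
  have hB : ∀ ε : ℝ, 0 < ε → LM τ (Nnᴴ * Nn + eI 𝔄 (ι ⊕ Unit) ε) =
      LM τ (S * Sᴴ + v * vᴴ + eI 𝔄 ι ε) + LM τ (Δ₀ + eI 𝔄 Unit ε) := by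
    intro ε hε
    rw [c06_comm Nn hε, hNN, c06_eI_blocks, Matrix.fromBlocks_add, add_zero, add_zero,
      LM_fromBlocks_diag τ (SPM_add_eI hΔ₂P hε) (SPM_add_eI hΔ₀P hε)]
  have hYs : ∀ ρ : ℝ, 0 < ρ → ∃ ε₀ : ℝ, 0 < ε₀ ∧ ∀ ε : ℝ, 0 < ε → ε ≤ ε₀ →
      LM τ (Yᴴ * Y + eI 𝔄 (ι ⊕ Unit) ε) ≤ ρ := by
    intro ρ hρ
    set F : Matrix (ι ⊕ Unit) (ι ⊕ Unit) 𝔄 := Matrix.fromBlocks 1 w 0 1 with hF
    have hFu : IsUnit F := by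
      refine ⟨⟨F, Matrix.fromBlocks 1 (-w) 0 1, ?_, ?_⟩, rfl⟩
      · rw [hF, Matrix.fromBlocks_multiply]
        simp only [Matrix.mul_one, Matrix.one_mul, Matrix.mul_zero, Matrix.zero_mul, add_zero,
          zero_add, neg_add_cancel, Matrix.fromBlocks_one]
      · rw [hF, Matrix.fromBlocks_multiply]
        simp only [Matrix.mul_one, Matrix.one_mul, Matrix.mul_zero, Matrix.zero_mul, add_zero,
          zero_add, add_neg_cancel, Matrix.fromBlocks_one]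
    have hFD : D (τ.mat (ι ⊕ Unit)) (toC F) = 0 := DM_unip₁₂ τ w
    have e1 : Matrix.fromBlocks (1 : Matrix ι ι 𝔄) 0 0 σ * F = Y := by
      rw [hF, hY, Matrix.fromBlocks_multiply]
      simp only [Matrix.mul_one, Matrix.one_mul, Matrix.mul_zero, Matrix.zero_mul, add_zero,
        zero_add]
    obtain ⟨ε₁, hε₁, H₁⟩ := hσ (ρ / 3) (by positivity)
    obtain ⟨ε₂, hε₂, H₂⟩ := L_add_eps_le (τ.mat (ι ⊕ Unit)) (x := toC F) hFu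
      (show 0 < ρ / 3 by positivity)
    obtain ⟨ε₃, hε₃, H₃⟩ := L_add_eps_le (τ.mat ι) (x := (1 : CStarMatrix ι ι 𝔄)) isUnit_one
      (show 0 < ρ / 3 by positivity)
    set m : ℝ := min ε₁ (min ε₂ ε₃) with hm
    have hm0 : 0 < m := lt_min hε₁ (lt_min hε₂ hε₃)
    refine ⟨m ^ 2, by positivity, fun ε hε hε' => ?_⟩
    set e : ℝ := Real.sqrt ε with he
    have he0 : 0 < e := Real.sqrt_pos.2 hε
    have hem : e ≤ m := by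
      rw [he, Real.sqrt_le_left hm0.le]
      exact hε'
    have hee : e ^ 2 = ε := Real.sq_sqrt hε.le
    have h2 := c06_mul_le (τ := τ) (Matrix.fromBlocks (1 : Matrix ι ι 𝔄) 0 0 σ) F he0
    rw [e1, hee, c06_diag 1 σ he0, Matrix.conjTranspose_one, Matrix.one_mul] at h2
    have k1 := H₁ e he0 (hem.trans (min_le_left _ _))
    have k2 : LM τ (Fᴴ * F + eI 𝔄 (ι ⊕ Unit) e) ≤ ρ / 3 := by
      have a := H₂ e he0 (hem.trans ((min_le_right _ _).trans (min_le_left _ _)))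
      rw [hFD, mul_zero, zero_add] at a
      exact a
    have k3 : LM τ ((1 : Matrix ι ι 𝔄) + eI 𝔄 ι e) ≤ ρ / 3 := by
      have a := H₃ e he0 (hem.trans ((min_le_right _ _).trans (min_le_right _ _)))
      rw [D_one, mul_zero, zero_add, star_one, one_mul] at a
      exact a
    linarith
  -- (C)
  refine le_of_forall_pos_le_add fun ρ hρ => ?_
  obtain ⟨ε₀, hε₀, H₀⟩ := hYs (ρ / 2) (by positivity)
  obtain ⟨ε₁, hε₁, H₁⟩ := hl' (ρ / 2) (by positivity)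
  set e : ℝ := min ε (min ε₀ ε₁) with he
  have he0 : 0 < e := lt_min hε (lt_min hε₀ hε₁)
  have k1 := H₀ e he0 ((min_le_right _ _).trans (min_le_left _ _))
  have k2 : LM τ (Δ₀ + eI 𝔄 Unit e) ≤ l₀ + ρ / 2 :=
    (c06_mono hΔ₀P he0 ((min_le_right _ _).trans (min_le_right _ _))).trans H₁
  have k3 : LM τ (S * Sᴴ + v * vᴴ + eI 𝔄 ι e) ≤ LM τ (S * Sᴴ + v * vᴴ + eI 𝔄 ι ε) :=
    c06_mono hΔ₂P he0 (min_le_left _ _)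
  have k4 := hA (e ^ 2) (by positivity)
  have k5 := c06_mul_le (τ := τ) Nn Y he0
  rw [hB e he0] at k5
  linarith

end LT
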