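import Pool.Agent.H29.LT.Tr

/-!
# LT: matrices over a tracial C*-algebra, definitions

We work with plain matrices `x : Matrix ι κ 𝔄` for the algebra and pass to `CStarMatrix ι ι 𝔄`
(the C*-algebra of square matrices) only inside `LM`, `DM`, `PM`, `SPM`.
`CStarMatrix ι ι 𝔄` is definitionally `Matrix ι ι 𝔄`, with the same ring operations and
`star = conjTranspose`.
-/

set_option linter.unusedSectionVars false

namespace LT

variable {𝔄 : Type*} [CStarAlgebra 𝔄] [PartialOrder 𝔄] [StarOrderedRing 𝔄]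
variable {ι κ : Type*} [Fintype ι] [DecidableEq ι] [Fintype κ] [DecidableEq κ]

/-- a square matrix, viewed in the C*-algebra `CStarMatrix ι ι 𝔄` -/
def toC (H : Matrix ι ι 𝔄) : CStarMatrix ι ι 𝔄 := CStarMatrix.ofMatrix H

/-- The trace `x ↦ Σ_i τ(x_ii)` of the matrix algebra. -/
noncomputable def Tr.mat (τ : Tr 𝔄) (ι : Type*) [Fintype ι] [DecidableEq ι] :
    Tr (CStarMatrix ι ι 𝔄) where
  f :=
    { toFun := fun M => ∑ i, τ.f (M i i)
      map_add' := fun M K => by
        rw [← Finset.sum_add_distrib]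
        exact Finset.sum_congr rfl fun i _ => map_add τ.f _ _
      map_smul' := fun c M => by
        rw [RingHom.id_apply, Finset.smul_sum]
        exact Finset.sum_congr rfl fun i _ => map_smul τ.f c _
      cont := by
        refine continuous_finsetSum _ fun i _ => τ.f.continuous.comp ?_
        exact (continuous_apply i).comp (continuous_apply i) }
  comm := fun x y => by
    change ∑ i, τ.f ((x * y) i i) = ∑ i, τ.f ((y * x) i i)
    simp only [CStarMatrix.mul_apply, map_sum]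
    rw [Finset.sum_comm]
    exact Finset.sum_congr rfl fun i _ => Finset.sum_congr rfl fun j _ => τ.comm _ _
  star_map := fun x => by
    change ∑ i, τ.f ((star x) i i) = star (∑ i, τ.f (x i i))
    rw [star_sum]
    exact Finset.sum_congr rfl fun i _ => by rw [CStarMatrix.star_apply, τ.star_map]
  nonneg := fun x => by
    change 0 ≤ (∑ i, τ.f ((star x * x) i i)).re
    simp only [CStarMatrix.mul_apply, map_sum, CStarMatrix.star_apply, Complex.re_sum]
    exact Finset.sum_nonneg fun i _ => Finset.sum_nonneg fun j _ => τ.nonneg _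

theorem Tr.mat_apply (τ : Tr 𝔄) (M : CStarMatrix ι ι 𝔄) :
    (τ.mat ι).f M = ∑ i, τ.f (M i i) := rfl

/-- `L` of a square matrix -/
noncomputable def LM (τ : Tr 𝔄) (H : Matrix ι ι 𝔄) : ℝ := L (τ.mat ι) (toC H)

/-- `D` of a square matrix -/
noncomputable def DM (τ : Tr 𝔄) (x : Matrix ι ι 𝔄) : ℝ := D (τ.mat ι) (toC x)

/-- order relation of square matrices over `𝔄` (in the C*-algebra `CStarMatrix ι ι 𝔄`) -/
def LeM (H K : Matrix ι ι 𝔄) : Prop := toC H ≤ toC K

/-- positive matrix -/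
def PM (H : Matrix ι ι 𝔄) : Prop := 0 ≤ toC H

/-- strictly positive matrix -/
def SPM (H : Matrix ι ι 𝔄) : Prop := IsStrictlyPositive (toC H)

/-- a real multiple of the identity matrix -/
noncomputable def eI (𝔄 : Type*) [CStarAlgebra 𝔄] (ι : Type*) [Fintype ι] [DecidableEq ι] (ε : ℝ) :
    Matrix ι ι 𝔄 := algebraMap ℝ (Matrix ι ι 𝔄) ε

/-- scalar matrices inside matrices over `𝔄` -/
noncomputable def scal (𝔄 : Type*) [CStarAlgebra 𝔄] (Z : Matrix ι κ ℂ) : Matrix ι κ 𝔄 :=
  Z.map (algebraMap ℂ 𝔄)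

/-- entrywise trace `E : Matrix ι κ 𝔄 → Matrix ι κ ℂ` -/
noncomputable def E (τ : Tr 𝔄) (x : Matrix ι κ 𝔄) : Matrix ι κ ℂ := x.map τ.f

/-- the matrix `a · 1` -/
def sc (ι : Type*) [DecidableEq ι] (a : 𝔄) : Matrix ι ι 𝔄 := Matrix.diagonal fun _ => a

theorem toC_star (x : Matrix ι ι 𝔄) : toC (x.conjTranspose) = star (toC x) := rfl
theorem toC_mul (x y : Matrix ι ι 𝔄) : toC (x * y) = toC x * toC y := rfl
theorem toC_add (x y : Matrix ι ι 𝔄) : toC (x + y) = toC x + toC y := rfl
theorem toC_sub (x y : Matrix ι ι 𝔄) : toC (x - y) = toC x - toC y := rfl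
theorem toC_one : toC (1 : Matrix ι ι 𝔄) = 1 := rfl
theorem toC_zero : toC (0 : Matrix ι ι 𝔄) = 0 := rfl
theorem toC_eI (ε : ℝ) : toC (eI 𝔄 ι ε) = algebraMap ℝ (CStarMatrix ι ι 𝔄) ε := rfl

end LT
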