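import Pool.Agent.H29.LT.C00
import Pool.Agent.H29.LT.Mat

/-!
# LT-C01: the group ring inside `N(G)`, its involution, traces of group ring elements

* `starMA x = Σ conj(x_g) g⁻¹`, the involution of `ℂ[G]`; `lam (starMA x) = star (lam x)`
  (check on `single`: `star (lamG g) = lamG g⁻¹` by `star_permU`).
* `co_lam`: `(lam x).co g = x.coeff g` (linear in `x`; on `single h c`: `lamG h δ_1 = δ_h`).
* `lamM` is entrywise `lam` on matrices; it is multiplicative and compatible with the involutions.
* `trM_pow_map`: for an injective group homomorphism `φ : G → K` the `1`-coefficients of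
  `mapDomain φ x` and of `x` agree, so the traces of the powers of
  `(lamM x)ᴴ (lamM x)` do not change under `φ`.
-/

set_option linter.unusedSectionVars false

namespace LT

open scoped Matrix

variable {G : Type*} [Group G] {K : Type*} [Group K]
variable {ι κ μ : Type*} [Fintype ι] [DecidableEq ι] [Fintype κ] [DecidableEq κ]
  [Fintype μ] [DecidableEq μ]

/-- the involution of the group ring -/
noncomputable def starMA (x : MonoidAlgebra ℂ G) : MonoidAlgebra ℂ G :=
  x.coeff.sum fun g c => MonoidAlgebra.single g⁻¹ (star c)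

theorem starMA_single (g : G) (c : ℂ) :
    starMA (MonoidAlgebra.single g c) = MonoidAlgebra.single g⁻¹ (star c) := by
  unfold starMA
  rw [MonoidAlgebra.coeff_single, Finsupp.sum_single_index]
  rw [star_zero, MonoidAlgebra.single_zero]

theorem starMA_add (x y : MonoidAlgebra ℂ G) : starMA (x + y) = starMA x + starMA y := by
  unfold starMA
  rw [MonoidAlgebra.coeff_add, Finsupp.sum_add_index']
  · intro a
    rw [star_zero, MonoidAlgebra.single_zero]
  · intro a b c
    rw [star_add, MonoidAlgebra.single_add]

theorem starMA_mul (x y : MonoidAlgebra ℂ G) : starMA (x * y) = starMA y * starMA x := by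
  induction x using MonoidAlgebra.induction_linear with
  | zero =>
    have h0 : starMA (0 : MonoidAlgebra ℂ G) = 0 := by
      simp [starMA]
    rw [zero_mul, h0, mul_zero]
  | add a b ha hb => rw [add_mul, starMA_add, ha, hb, starMA_add, mul_add]
  | single g c =>
    induction y using MonoidAlgebra.induction_linear with
    | zero =>
      have h0 : starMA (0 : MonoidAlgebra ℂ G) = 0 := by
        simp [starMA]
      rw [mul_zero, h0, zero_mul]
    | add a b ha hb => rw [mul_add, starMA_add, ha, hb, starMA_add, add_mul]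
    | single h d =>
      rw [MonoidAlgebra.single_mul_single, starMA_single, starMA_single, starMA_single,
        MonoidAlgebra.single_mul_single, mul_inv_rev, star_mul]

theorem starMA_coeff (x : MonoidAlgebra ℂ G) (g : G) :
    (starMA x).coeff g = star (x.coeff g⁻¹) := by
  induction x using MonoidAlgebra.induction_linear with
  | zero =>
    have h0 : starMA (0 : MonoidAlgebra ℂ G) = 0 := by
      simp [starMA]
    rw [h0]; simp
  | add a b ha hb =>
    rw [starMA_add, MonoidAlgebra.coeff_add, MonoidAlgebra.coeff_add, Finsupp.add_apply,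
      Finsupp.add_apply, ha, hb, star_add]
  | single h c =>
    classical
    rw [starMA_single, MonoidAlgebra.coeff_single, MonoidAlgebra.coeff_single,
      Finsupp.single_apply, Finsupp.single_apply]
    by_cases hg : h⁻¹ = g
    · rw [if_pos hg, if_pos (by rw [← hg, inv_inv])]
    · rw [if_neg hg, if_neg (fun h' => hg (by rw [h', inv_inv])), star_zero]

theorem lamG_star (g : G) : star (lamG g) = (lamG g⁻¹ : N G) := by
  apply Subtype.ext
  change star (permU (Equiv.mulLeft g)) = permU (Equiv.mulLeft g⁻¹)
  rw [star_permU]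
  have h : (Equiv.mulLeft g).symm = Equiv.mulLeft g⁻¹ := by
    ext x; simp
  rw [h]

theorem lamG_star_mul (g : G) : star (lamG g) * lamG g = (1 : N G) := by
  rw [lamG_star, ← map_mul, inv_mul_cancel, map_one]

theorem lamG_mul_star (g : G) : lamG g * star (lamG g) = (1 : N G) := by
  rw [lamG_star, ← map_mul, mul_inv_cancel, map_one]

theorem lam_single (g : G) (c : ℂ) : lam (MonoidAlgebra.single g c) = c • (lamG g : N G) := by
  rw [lam, MonoidAlgebra.lift_single]

theorem lam_starMA (x : MonoidAlgebra ℂ G) : lam (starMA x) = star (lam x) := by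
  induction x using MonoidAlgebra.induction_linear with
  | zero =>
    have h0 : starMA (0 : MonoidAlgebra ℂ G) = 0 := by
      simp [starMA]
    rw [h0, map_zero, star_zero]
  | add a b ha hb => rw [starMA_add, map_add, ha, hb, map_add, star_add]
  | single g c => rw [starMA_single, lam_single, lam_single, star_smul, lamG_star]

theorem co_lamG (g h : G) [DecidableEq G] : (lamG g : N G).co h = if h = g then 1 else 0 := by
  have h1 := N.op_dlt (lamG g : N G) 1 h
  rw [inv_one, mul_one] at h1
  rw [← h1]
  change (permU (Equiv.mulLeft g) (dlt 1)) h = _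
  have h2 : permU (Equiv.mulLeft g) (dlt 1) = (dlt g : l2 G) := by
    rw [permU_dlt]
    congr 1
    simp
  rw [h2]
  unfold dlt
  rw [lp.coeFn_single, Pi.single_apply]

theorem co_lam (x : MonoidAlgebra ℂ G) (g : G) : (lam x).co g = x.coeff g := by
  classical
  induction x using MonoidAlgebra.induction_linear with
  | zero =>
    rw [map_zero]
    have := N.co_smul (0 : ℂ) (0 : N G) g
    rw [zero_smul, zero_mul] at this
    rw [this]; simp
  | add a b ha hb =>
    rw [map_add, N.co_add, ha, hb, MonoidAlgebra.coeff_add, Finsupp.add_apply]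
  | single h c =>
    rw [lam_single, N.co_smul, co_lamG, MonoidAlgebra.coeff_single, Finsupp.single_apply]
    by_cases hg : g = h
    · rw [if_pos hg, if_pos hg.symm, mul_one]
    · rw [if_neg hg, if_neg (fun h' => hg h'.symm), mul_zero]

/-- entrywise left regular representation -/
noncomputable def lamM (x : Matrix ι κ (MonoidAlgebra ℂ G)) : Matrix ι κ (N G) := x.map lam

/-- conjugate transpose over the group ring -/
noncomputable def adjM (x : Matrix ι κ (MonoidAlgebra ℂ G)) : Matrix κ ι (MonoidAlgebra ℂ G) :=
  (x.map starMA)ᵀ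

theorem lamM_mul (x : Matrix ι κ (MonoidAlgebra ℂ G)) (y : Matrix κ μ (MonoidAlgebra ℂ G)) :
    lamM (x * y) = lamM x * lamM y := by
  ext i k
  simp only [lamM, Matrix.map_apply, Matrix.mul_apply, map_sum, map_mul]

theorem lamM_add (x y : Matrix ι κ (MonoidAlgebra ℂ G)) :
    lamM (x + y) = lamM x + lamM y := by
  ext i k
  simp only [lamM, Matrix.map_apply, Matrix.add_apply, map_add]

theorem lamM_sub (x y : Matrix ι κ (MonoidAlgebra ℂ G)) :
    lamM (x - y) = lamM x - lamM y := by
  ext i k
  simp only [lamM, Matrix.map_apply, Matrix.sub_apply, map_sub]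

theorem lamM_neg (x : Matrix ι κ (MonoidAlgebra ℂ G)) : lamM (-x) = -lamM x := by
  ext i k
  simp only [lamM, Matrix.map_apply, Matrix.neg_apply, map_neg]

theorem lamM_one : lamM (1 : Matrix ι ι (MonoidAlgebra ℂ G)) = 1 := by
  ext i k
  simp only [lamM, Matrix.map_apply, Matrix.one_apply]
  split_ifs
  · rw [map_one]
  · rw [map_zero]

theorem lamM_pow (x : Matrix ι ι (MonoidAlgebra ℂ G)) (k : ℕ) : lamM (x ^ k) = lamM x ^ k := by
  induction k with
  | zero => rw [pow_zero, pow_zero, lamM_one]
  | succ k ih => rw [pow_succ, pow_succ, lamM_mul, ih]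

theorem lamM_adjM (x : Matrix ι κ (MonoidAlgebra ℂ G)) : lamM (adjM x) = (lamM x)ᴴ := by
  ext i k
  simp only [lamM, adjM, Matrix.map_apply, Matrix.transpose_apply, Matrix.conjTranspose_apply,
    lam_starMA]

/-- `L` of `x* x + ε` for a square matrix over the group ring -/
noncomputable def LG (x : Matrix ι ι (MonoidAlgebra ℂ G)) (ε : ℝ) : ℝ :=
  LM (trN G) ((lamM x)ᴴ * lamM x + eI (N G) ι ε)

/-- change of groups, entrywise -/
noncomputable def mapM (φ : G →* K) (x : Matrix ι κ (MonoidAlgebra ℂ G)) :
    Matrix ι κ (MonoidAlgebra ℂ K) := x.map (MonoidAlgebra.mapDomain φ)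

theorem mapM_mul (φ : G →* K) (x : Matrix ι κ (MonoidAlgebra ℂ G))
    (y : Matrix κ μ (MonoidAlgebra ℂ G)) : mapM φ (x * y) = mapM φ x * mapM φ y := by
  ext i k
  simp only [mapM, Matrix.map_apply, Matrix.mul_apply]
  have h : ∀ z : MonoidAlgebra ℂ G,
      MonoidAlgebra.mapDomain φ z = MonoidAlgebra.mapDomainRingHom ℂ φ z := fun z => rfl
  simp only [h, map_sum, map_mul]

theorem c01_star_mapDomain (φ : G →* K) (x : MonoidAlgebra ℂ G) :
    starMA (MonoidAlgebra.mapDomain φ x) = MonoidAlgebra.mapDomain φ (starMA x) := by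
  induction x using MonoidAlgebra.induction_linear with
  | zero =>
    have h0 : starMA (0 : MonoidAlgebra ℂ G) = 0 := by
      simp [starMA]
    have h1 : starMA (0 : MonoidAlgebra ℂ K) = 0 := by
      simp [starMA]
    rw [h0, MonoidAlgebra.mapDomain_zero, h1]
  | add a b ha hb =>
    rw [MonoidAlgebra.mapDomain_add, starMA_add, ha, hb, starMA_add, MonoidAlgebra.mapDomain_add]
  | single g c =>
    rw [MonoidAlgebra.mapDomain_single, starMA_single, starMA_single,
      MonoidAlgebra.mapDomain_single, map_inv]

theorem adjM_mapM (φ : G →* K) (x : Matrix ι κ (MonoidAlgebra ℂ G)) :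
    adjM (mapM φ x) = mapM φ (adjM x) := by
  ext i k
  simp only [mapM, adjM, Matrix.map_apply, Matrix.transpose_apply]
  rw [c01_star_mapDomain]

theorem tr_lamM (x : Matrix ι ι (MonoidAlgebra ℂ G)) :
    ((trN G).mat ι).f (toC (lamM x)) = ∑ i, (x i i).coeff 1 := by
  rw [Tr.mat_apply]
  refine Finset.sum_congr rfl fun i _ => ?_
  rw [trN_apply]
  exact co_lam (x i i) 1

theorem tr_lamM_mapM (φ : G →* K) (hφ : Function.Injective φ)
    (x : Matrix ι ι (MonoidAlgebra ℂ G)) :
    ((trN K).mat ι).f (toC (lamM (mapM φ x))) = ((trN G).mat ι).f (toC (lamM x)) := by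
  rw [tr_lamM, tr_lamM]
  refine Finset.sum_congr rfl fun i _ => ?_
  change (Finsupp.mapDomain φ (x i i).coeff) 1 = _
  rw [← map_one φ, Finsupp.mapDomain_apply hφ]

end LT
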