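import Pool.Agent.H29.LT.Tr

/-!
# LT-A01: elementary facts about a trace (positivity, Cauchy-Schwarz)

Everything here is elementary.  `0 ≤ H` gives `H = star y * y` (for instance `y = CFC.sqrt H`, or
`CStarAlgebra.nonneg_iff_eq_star_mul_self`).

* `tr_re_mono`: `(τ.f K - τ.f H).re = (τ.f (K - H)).re ≥ 0`.
* `tr_mul_nonneg`: for `0 ≤ H`, `0 ≤ K` write `H = star y * y`, `K = star z * z`; then
  `τ (H K) = τ (y* y z* z) = τ (z y* y z*) = τ (star (y z*) * (y z*)) ≥ 0`.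
* `norm_tr_mul_le` (Cauchy-Schwarz): the form `⟨x, y⟩ = τ (x* y)` is a positive semidefinite
  sesquilinear Hermitian form.  (Real parameter proof: for `t : ℝ` and a unimodular `c`,
  `0 ≤ τ (star (x + t c y) * (x + t c y))` is a quadratic polynomial in `t`, so its discriminant
  is `≤ 0`; `discrim_le_zero`.)  If `n2 τ x = 0` the same argument gives `τ (x* y) = 0`.
* `n2_mul_le`: `star (a x) * (a x) = x* (a* a) x ≤ ‖a‖² x* x`.
* `n2_mul_le'`: `n2 (x a) = n2 (a* x*) ≤ ‖a‖ n2 (x*) = ‖a‖ n2 x`, by `n2_star`.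
* `abs_tr_le`: `τ` is bounded by `mass`: Cauchy-Schwarz with `x = 1`:
  `|τ y| ≤ n2 1 * n2 y ≤ √mass * ‖y‖ √mass`.
-/

set_option linter.unusedSectionVars false

namespace LT

variable {𝔄 : Type*} [CStarAlgebra 𝔄] [PartialOrder 𝔄] [StarOrderedRing 𝔄] (τ : Tr 𝔄)

theorem tr_re_nonneg {H : 𝔄} (hH : 0 ≤ H) : 0 ≤ (τ.f H).re := by
  obtain ⟨b, rfl⟩ := CStarAlgebra.nonneg_iff_eq_star_mul_self.mp hH
  exact τ.nonneg b

theorem tr_re_mono {H K : 𝔄} (h : H ≤ K) : (τ.f H).re ≤ (τ.f K).re := by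
  have h1 := tr_re_nonneg τ (sub_nonneg.mpr h)
  rw [map_sub, Complex.sub_re] at h1
  linarith

theorem tr_im_eq_zero {H : 𝔄} (hH : IsSelfAdjoint H) : (τ.f H).im = 0 := by
  have h1 := τ.star_map H
  rw [hH.star_eq] at h1
  have h2 := congrArg Complex.im h1
  rw [Complex.star_def, Complex.conj_im] at h2
  linarith

theorem mass_nonneg : 0 ≤ τ.mass := by
  have h1 := τ.nonneg 1
  rw [star_one, one_mul] at h1
  exact h1

theorem tr_mul_nonneg {H K : 𝔄} (hH : 0 ≤ H) (hK : 0 ≤ K) : 0 ≤ (τ.f (H * K)).re := by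
  obtain ⟨y, rfl⟩ := CStarAlgebra.nonneg_iff_eq_star_mul_self.mp hH
  obtain ⟨z, rfl⟩ := CStarAlgebra.nonneg_iff_eq_star_mul_self.mp hK
  have h1 : star y * y * (star z * z) = (star y * y * star z) * z := by
    simp only [mul_assoc]
  have h2 : z * (star y * y * star z) = star (y * star z) * (y * star z) := by
    rw [star_mul, star_star]
    simp only [mul_assoc]
  rw [h1, τ.comm, h2]
  exact τ.nonneg _

/-- monotonicity of `X ↦ τ (X K)` for a fixed positive `K` -/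
theorem tr_mul_mono {H H' K : 𝔄} (h : H ≤ H') (hK : 0 ≤ K) :
    (τ.f (H * K)).re ≤ (τ.f (H' * K)).re := by
  have h1 := tr_mul_nonneg τ (sub_nonneg.mpr h) hK
  rw [sub_mul, map_sub, Complex.sub_re] at h1
  linarith

theorem n2_nonneg (x : 𝔄) : 0 ≤ n2 τ x := Real.sqrt_nonneg _

theorem n2_sq (x : 𝔄) : n2 τ x ^ 2 = (τ.f (star x * x)).re :=
  Real.sq_sqrt (τ.nonneg x)

/-- the expansion of the form -/
private theorem a01_expand (x y : 𝔄) (t : ℝ) :
    (τ.f (star (x - ((t : ℂ) * star (τ.f (star x * y))) • y) *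
        (x - ((t : ℂ) * star (τ.f (star x * y))) • y))).re =
      (τ.f (star x * x)).re - 2 * t * ‖τ.f (star x * y)‖ ^ 2
        + t ^ 2 * ‖τ.f (star x * y)‖ ^ 2 * (τ.f (star y * y)).re := by
  set s : ℂ := τ.f (star x * y) with hs
  have h1 : τ.f (star y * x) = star s := by
    have h2 : star y * x = star (star x * y) := by rw [star_mul, star_star]
    rw [h2, τ.star_map]
  have h3 : (τ.f (star y * y)).im = 0 := tr_im_eq_zero τ (IsSelfAdjoint.star_mul_self y)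
  have h4 : ‖s‖ ^ 2 = s.re * s.re + s.im * s.im := by
    rw [← Complex.normSq_eq_norm_sq, Complex.normSq_apply]
  rw [star_sub, star_smul, sub_mul, mul_sub, mul_sub, map_sub, map_sub, map_sub,
    smul_mul_assoc, smul_mul_assoc, mul_smul_comm, mul_smul_comm, map_smul, map_smul, map_smul,
    map_smul, h1, ← hs, h4]
  simp only [smul_eq_mul, Complex.sub_re, Complex.mul_re, Complex.mul_im, Complex.star_def,
    Complex.conj_re, Complex.conj_im, Complex.ofReal_re, Complex.ofReal_im, map_mul, h3]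
  ring

theorem norm_tr_mul_le (x y : 𝔄) : ‖τ.f (star x * y)‖ ≤ n2 τ x * n2 τ y := by
  have hA := n2_sq τ x
  have hB := n2_sq τ y
  set N : ℝ := ‖τ.f (star x * y)‖ with hN
  have h1 : ∀ t : ℝ, 0 ≤ (N ^ 2 * n2 τ y ^ 2) * (t * t) + (-(2 * N ^ 2)) * t + n2 τ x ^ 2 := by
    intro t
    have h2 := τ.nonneg (x - ((t : ℂ) * star (τ.f (star x * y))) • y)
    rw [a01_expand, ← hN, ← hA, ← hB] at h2
    linarith
  have h3 := discrim_le_zero h1
  unfold discrim at h3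
  have hN0 : 0 ≤ N := norm_nonneg _
  have hp : 0 ≤ n2 τ x * n2 τ y := mul_nonneg (n2_nonneg τ x) (n2_nonneg τ y)
  rcases hN0.eq_or_lt with h0 | h0
  · rw [← h0]
    exact hp
  · have h4 : N ^ 2 * (N ^ 2) ≤ N ^ 2 * (n2 τ x * n2 τ y) ^ 2 := by
      nlinarith
    have h5 : N ^ 2 ≤ (n2 τ x * n2 τ y) ^ 2 := le_of_mul_le_mul_left h4 (pow_pos h0 2)
    exact (abs_le_of_sq_le_sq' h5 hp).2

theorem n2_star (x : 𝔄) : n2 τ (star x) = n2 τ x := by
  unfold n2
  rw [star_star, τ.comm]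

theorem norm_tr_mul_le' (x y : 𝔄) : ‖τ.f (x * y)‖ ≤ n2 τ x * n2 τ y := by
  have h1 := norm_tr_mul_le τ (star x) y
  rw [star_star, n2_star] at h1
  exact h1

theorem n2_add_le (x y : 𝔄) : n2 τ (x + y) ≤ n2 τ x + n2 τ y := by
  have h0 : 0 ≤ n2 τ x + n2 τ y := add_nonneg (n2_nonneg τ x) (n2_nonneg τ y)
  have h1 : (τ.f (star y * x)).re = (τ.f (star x * y)).re := by
    have h2 : star y * x = star (star x * y) := by rw [star_mul, star_star]
    rw [h2, τ.star_map, Complex.star_def, Complex.conj_re]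
  have h3 : (τ.f (star x * y)).re ≤ n2 τ x * n2 τ y :=
    (Complex.re_le_norm _).trans (norm_tr_mul_le τ x y)
  have h4 : n2 τ (x + y) ^ 2 ≤ (n2 τ x + n2 τ y) ^ 2 := by
    rw [n2_sq, star_add, add_mul, mul_add, mul_add, map_add, map_add, map_add, Complex.add_re,
      Complex.add_re, Complex.add_re, h1, ← n2_sq, ← n2_sq]
    nlinarith
  exact (abs_le_of_sq_le_sq' h4 h0).2

theorem n2_smul (c : ℂ) (x : 𝔄) : n2 τ (c • x) = ‖c‖ * n2 τ x := by
  have h1 : star (c • x) * (c • x) = (((‖c‖ ^ 2 : ℝ) : ℂ)) • (star x * x) := by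
    rw [star_smul, smul_mul_assoc, mul_smul_comm, smul_smul, Complex.star_def,
      ← Complex.normSq_eq_conj_mul_self, Complex.normSq_eq_norm_sq]
  unfold n2
  rw [h1, map_smul, smul_eq_mul, Complex.re_ofReal_mul, Real.sqrt_mul (sq_nonneg _),
    Real.sqrt_sq (norm_nonneg c)]

theorem n2_neg (x : 𝔄) : n2 τ (-x) = n2 τ x := by
  unfold n2
  rw [star_neg, neg_mul_neg]

theorem n2_mul_le (a x : 𝔄) : n2 τ (a * x) ≤ ‖a‖ * n2 τ x := by
  have h0 : 0 ≤ ‖a‖ * n2 τ x := mul_nonneg (norm_nonneg a) (n2_nonneg τ x)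
  have h1 : star a * a ≤ algebraMap ℝ 𝔄 (‖a‖ ^ 2) := CStarAlgebra.star_mul_le_algebraMap_norm_sq
  have h2 : star x * (star a * a) * x ≤ star x * algebraMap ℝ 𝔄 (‖a‖ ^ 2) * x :=
    star_left_conjugate_le_conjugate h1 x
  have h3 : star (a * x) * (a * x) = star x * (star a * a) * x := by
    rw [star_mul]
    simp only [mul_assoc]
  have h4 : star x * algebraMap ℝ 𝔄 (‖a‖ ^ 2) * x = (((‖a‖ ^ 2 : ℝ) : ℂ)) • (star x * x) := by
    rw [Algebra.algebraMap_eq_smul_one, mul_smul_comm, mul_one, smul_mul_assoc,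
      Complex.coe_smul]
  have h5 : n2 τ (a * x) ^ 2 ≤ (‖a‖ * n2 τ x) ^ 2 := by
    have h6 := tr_re_mono τ h2
    rw [h4, map_smul, smul_eq_mul, Complex.re_ofReal_mul, ← n2_sq] at h6
    rw [n2_sq, h3, mul_pow]
    exact h6
  exact (abs_le_of_sq_le_sq' h5 h0).2

theorem n2_mul_le' (x a : 𝔄) : n2 τ (x * a) ≤ ‖a‖ * n2 τ x := by
  have h1 := n2_mul_le τ (star a) (star x)
  rw [← star_mul, n2_star, n2_star, norm_star] at h1
  exact h1

theorem n2_one : n2 τ 1 = Real.sqrt τ.mass := by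
  unfold n2 Tr.mass
  rw [star_one, one_mul]

theorem n2_le_norm (x : 𝔄) : n2 τ x ≤ ‖x‖ * Real.sqrt τ.mass := by
  have h1 := n2_mul_le τ x 1
  rw [mul_one, n2_one] at h1
  exact h1

theorem norm_tr_le (x : 𝔄) : ‖τ.f x‖ ≤ ‖x‖ * τ.mass := by
  have h1 := norm_tr_mul_le' τ 1 x
  rw [one_mul, n2_one] at h1
  have h2 : Real.sqrt τ.mass * n2 τ x ≤ Real.sqrt τ.mass * (‖x‖ * Real.sqrt τ.mass) :=
    mul_le_mul_of_nonneg_left (n2_le_norm τ x) (Real.sqrt_nonneg _)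
  have h3 : Real.sqrt τ.mass * (‖x‖ * Real.sqrt τ.mass) = ‖x‖ * τ.mass := by
    rw [mul_left_comm, Real.mul_self_sqrt (mass_nonneg τ)]
  linarith

end LT
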