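import Pool.Agent.H29.LT.Tr

/-!
# LT-A02: power series of `L`, monotonicity, equal moments give equal `L`

`L_series`: let `ε ≤ H ≤ c`, `0 < ε`.  On the spectrum of `H` (inside `[ε, c]`) put `x = 1 - t/c ∈
[0, 1 - ε/c]`; then `log t = log c + log (1 - x) = log c - Σ_k x^(k+1)/(k+1)` with uniform
convergence, so `CFC.log H = log c - Σ_k (1 - c⁻¹ H)^(k+1)/(k+1)` in norm (either by continuity of
the functional calculus, or: put `f_n` = partial sum; `‖cfc (log - f_n) H‖ ≤ sup |log - f_n|` on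
`[ε, c]`, `norm_cfc_le`).  Apply the continuous functional `Re τ`.

`L_mono`: `CFC.log_le_log` and positivity of `τ` (`CFC.log K - CFC.log H ≥ 0` is of the form
`star y * y`).

`L_moments`: let `0 ≤ H`, `0 ≤ K` (in two different algebras) with the same `Re` of the moments
`τ(H^k) = τ'(K^k)` for `k ≥ 1`.  Take `c ≥ ‖H‖, ‖K‖`, `c > 0` and apply `L_series` to `H + ε ≤ c + ε`
and `K + ε ≤ c + ε` (constant `c' = c + ε`).  With `q = 1 - ε/c'`,
`1 - c'⁻¹ (H + ε) = q - c'⁻¹ H`, and by the binomial theorem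
`(q - c'⁻¹ H)^(k+1) = q^(k+1) + Σ_{j ≥ 1} binom (...) q^{..} (-c'⁻¹ H)^j`; hence
`Re τ((q - c'⁻¹H)^(k+1)) - mass τ * q^(k+1)` is the same for `(τ, H)` and `(τ', K)`.
Subtracting the two series, and using `Σ_k q^(k+1)/(k+1) = -log (1 - q) = -log (ε/c')`:
`(mass τ log c' - L τ (H+ε)) - (mass τ' log c' - L τ' (K+ε)) = (mass τ - mass τ') * (-log (ε/c'))`,
which is the claim.
-/

set_option linter.unusedSectionVars false

namespace LT

variable {𝔄 : Type*} [CStarAlgebra 𝔄] [PartialOrder 𝔄] [StarOrderedRing 𝔄] (τ : Tr 𝔄)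

theorem a02_smul (r : ℝ) (x : 𝔄) : (τ.f (r • x)).re = r * (τ.f x).re := by
  have h1 : r • x = (r : ℂ) • x := (Complex.coe_smul r x).symm
  rw [h1, map_smul, smul_eq_mul, Complex.re_ofReal_mul]

theorem a02_alg (r : ℝ) : (τ.f (algebraMap ℝ 𝔄 r)).re = τ.mass * r := by
  rw [Algebra.algebraMap_eq_smul_one, a02_smul, mul_comm]
  rfl

theorem a02_nonneg {H : 𝔄} (hH : 0 ≤ H) : 0 ≤ (τ.f H).re := by
  obtain ⟨b, rfl⟩ := CStarAlgebra.nonneg_iff_eq_star_mul_self.mp hH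
  exact τ.nonneg b

theorem a02_pow {H : 𝔄} (hH : IsSelfAdjoint H) (c : ℝ) (k : ℕ) :
    (1 - c⁻¹ • H) ^ k = cfc (fun t : ℝ => (1 - c⁻¹ * t) ^ k) H := by
  rw [cfc_pow (fun t : ℝ => 1 - c⁻¹ * t) k H, cfc_sub (fun _ : ℝ => (1 : ℝ)) (fun t => c⁻¹ * t) H,
    cfc_const_one ℝ H, cfc_const_mul_id c⁻¹ H]

theorem a02_binom (H : 𝔄) (a q : ℝ) (n : ℕ) :
    (τ.f ((a • H + algebraMap ℝ 𝔄 q) ^ n)).re =
      ∑ m ∈ Finset.range (n + 1), a ^ m * q ^ (n - m) * (n.choose m : ℝ) * (τ.f (H ^ m)).re := by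
  have hc : Commute (a • H) (algebraMap ℝ 𝔄 q) := (Algebra.commutes q (a • H)).symm
  rw [hc.add_pow, map_sum, Complex.re_sum]
  refine Finset.sum_congr rfl fun m _ => ?_
  have h1 : (a • H) ^ m * (algebraMap ℝ 𝔄 q) ^ (n - m) * ((n.choose m : ℕ) : 𝔄) =
      (a ^ m * q ^ (n - m) * (n.choose m : ℝ)) • H ^ m := by
    rw [smul_pow, ← map_pow, ← map_natCast (algebraMap ℝ 𝔄) (n.choose m), mul_assoc, ← map_mul,
      Algebra.algebraMap_eq_smul_one, mul_smul_comm, mul_one, smul_smul]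
    congr 1
    ring
  rw [h1, a02_smul]

theorem L_series {H : 𝔄} {ε c : ℝ} (hε : 0 < ε) (h1 : algebraMap ℝ 𝔄 ε ≤ H)
    (h2 : H ≤ algebraMap ℝ 𝔄 c) (hc : 0 < c) :
    HasSum (fun k : ℕ => (τ.f ((1 - c⁻¹ • H) ^ (k + 1))).re / ((k : ℝ) + 1))
      (τ.mass * Real.log c - L τ H) := by
  have hsa : IsSelfAdjoint H := by
    have h3 : IsSelfAdjoint (H - algebraMap ℝ 𝔄 ε) := IsSelfAdjoint.of_nonneg (sub_nonneg.2 h1)
    have h4 : IsSelfAdjoint (algebraMap ℝ 𝔄 ε) := IsSelfAdjoint.algebraMap 𝔄 (.all ε)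
    have h5 := h3.add h4
    rwa [sub_add_cancel] at h5
  have hlo : ∀ t ∈ spectrum ℝ H, ε ≤ t := (algebraMap_le_iff_le_spectrum hsa).1 h1
  have hhi : ∀ t ∈ spectrum ℝ H, t ≤ c := (le_algebraMap_iff_spectrum_le hsa).1 h2
  have hlog : ContinuousOn Real.log (spectrum ℝ H) := by
    refine Real.continuousOn_log.mono fun t ht => ?_
    have := hlo t ht
    simp only [Set.mem_compl_iff, Set.mem_singleton_iff]
    linarith
  have hx : ∀ t ∈ spectrum ℝ H, 0 ≤ 1 - c⁻¹ * t ∧ 1 - c⁻¹ * t ≤ 1 - c⁻¹ * ε := by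
    intro t ht
    have e1 := hlo t ht
    have e2 := hhi t ht
    have hc' : 0 < c⁻¹ := inv_pos.2 hc
    constructor
    · have : c⁻¹ * t ≤ c⁻¹ * c := mul_le_mul_of_nonneg_left e2 hc'.le
      rw [inv_mul_cancel₀ hc.ne'] at this
      linarith
    · have : c⁻¹ * ε ≤ c⁻¹ * t := mul_le_mul_of_nonneg_left e1 hc'.le
      linarith
  have hterm : ∀ k : ℕ, 0 ≤ (τ.f ((1 - c⁻¹ • H) ^ (k + 1))).re / ((k : ℝ) + 1) := by
    intro k
    refine div_nonneg (a02_nonneg τ ?_) (by positivity)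
    rw [a02_pow hsa]
    exact cfc_nonneg fun t ht => pow_nonneg (hx t ht).1 _
  rw [hasSum_iff_tendsto_nat_of_nonneg hterm]
  obtain ⟨q, hq⟩ : ∃ q : ℝ, q = 1 - c⁻¹ * ε := ⟨_, rfl⟩
  have hq1 : q < 1 := by
    rw [hq]
    have : 0 < c⁻¹ * ε := mul_pos (inv_pos.2 hc) hε
    linarith
  -- the partial sums
  have hpart : ∀ n : ℕ, ∑ k ∈ Finset.range n, (τ.f ((1 - c⁻¹ • H) ^ (k + 1))).re / ((k : ℝ) + 1) =
      (τ.f (cfc (fun t : ℝ => ∑ k ∈ Finset.range n, (1 - c⁻¹ * t) ^ (k + 1) / ((k : ℝ) + 1))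
        H)).re := by
    intro n
    have e1 : cfc (fun t : ℝ => ∑ k ∈ Finset.range n, (1 - c⁻¹ * t) ^ (k + 1) / ((k : ℝ) + 1)) H =
        ∑ k ∈ Finset.range n, ((k : ℝ) + 1)⁻¹ • (1 - c⁻¹ • H) ^ (k + 1) := by
      have e2 : (fun t : ℝ => ∑ k ∈ Finset.range n, (1 - c⁻¹ * t) ^ (k + 1) / ((k : ℝ) + 1)) =
          ∑ k ∈ Finset.range n, fun t : ℝ => ((k : ℝ) + 1)⁻¹ * (1 - c⁻¹ * t) ^ (k + 1) := by
        funext t
        rw [Finset.sum_apply]
        refine Finset.sum_congr rfl fun k _ => ?_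
        rw [div_eq_inv_mul]
      rw [e2, cfc_sum _ H (Finset.range n) (fun k _ => by fun_prop)]
      refine Finset.sum_congr rfl fun k _ => ?_
      rw [cfc_const_mul _ _ H (by fun_prop), a02_pow hsa]
    rw [e1, map_sum, Complex.re_sum]
    refine Finset.sum_congr rfl fun k _ => ?_
    rw [a02_smul, div_eq_inv_mul]
  simp_rw [hpart]
  -- the limit in norm
  have hlim : Filter.Tendsto (fun n : ℕ =>
      cfc (fun t : ℝ => ∑ k ∈ Finset.range n, (1 - c⁻¹ * t) ^ (k + 1) / ((k : ℝ) + 1)) H)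
      Filter.atTop (nhds (algebraMap ℝ 𝔄 (Real.log c) - CFC.log H)) := by
    rw [tendsto_iff_norm_sub_tendsto_zero]
    have hqn : 0 ≤ 1 - q := by linarith
    obtain ⟨q', hq'⟩ : ∃ q' : ℝ, q' = max q 0 := ⟨_, rfl⟩
    have hq'0 : 0 ≤ q' := by rw [hq']; exact le_max_right _ _
    have hq'1 : q' < 1 := by rw [hq']; exact max_lt hq1 one_pos
    have hbound : ∀ n : ℕ, ‖cfc (fun t : ℝ => ∑ k ∈ Finset.range n,
        (1 - c⁻¹ * t) ^ (k + 1) / ((k : ℝ) + 1)) H - (algebraMap ℝ 𝔄 (Real.log c) - CFC.log H)‖ ≤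
        q' ^ (n + 1) / (1 - q') := by
      intro n
      have e3 : cfc (fun t : ℝ => ∑ k ∈ Finset.range n,
          (1 - c⁻¹ * t) ^ (k + 1) / ((k : ℝ) + 1)) H - (algebraMap ℝ 𝔄 (Real.log c) - CFC.log H) =
          cfc (fun t : ℝ => (∑ k ∈ Finset.range n, (1 - c⁻¹ * t) ^ (k + 1) / ((k : ℝ) + 1)) -
            (Real.log c - Real.log t)) H := by
        rw [cfc_sub (fun t : ℝ => ∑ k ∈ Finset.range n, (1 - c⁻¹ * t) ^ (k + 1) / ((k : ℝ) + 1))
          (fun t => Real.log c - Real.log t) H (by fun_prop) (by fun_prop),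
          cfc_sub (fun _ : ℝ => Real.log c) Real.log H (by fun_prop) hlog, cfc_const _ H]
        rfl
      rw [e3]
      refine norm_cfc_le (by
        have : 0 < 1 - q' := by linarith
        positivity) fun t ht => ?_
      obtain ⟨g1, g2⟩ := hx t ht
      have ht0 : 0 < t := lt_of_lt_of_le hε (hlo t ht)
      have g3 : |1 - c⁻¹ * t| < 1 := by
        rw [abs_of_nonneg g1]
        have : 0 < c⁻¹ * t := mul_pos (inv_pos.2 hc) ht0
        linarith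
      have g4 := Real.abs_log_sub_add_sum_range_le g3 n
      have g5 : Real.log (1 - (1 - c⁻¹ * t)) = -(Real.log c - Real.log t) := by
        rw [sub_sub_cancel, Real.log_mul (inv_ne_zero hc.ne') ht0.ne', Real.log_inv]
        ring
      rw [g5, ← sub_eq_add_neg] at g4
      rw [Real.norm_eq_abs]
      refine g4.trans ?_
      rw [abs_of_nonneg g1]
      have g6 : 1 - c⁻¹ * t ≤ q' := by
        rw [hq', hq]
        exact g2.trans (le_max_left _ _)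
      exact div_le_div₀ (pow_nonneg hq'0 _) (pow_le_pow_left₀ g1 g6 _) (by linarith) (by linarith)
    refine squeeze_zero (fun n => norm_nonneg _) hbound ?_
    have e4 : Filter.Tendsto (fun n : ℕ => q' ^ (n + 1) / (1 - q')) Filter.atTop
        (nhds (0 / (1 - q'))) := by
      refine Filter.Tendsto.div_const ?_ _
      exact (tendsto_pow_atTop_nhds_zero_of_lt_one hq'0 hq'1).comp (Filter.tendsto_add_atTop_nat 1)
    rwa [zero_div] at e4
  have hre : τ.mass * Real.log c - L τ H =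
      (τ.f (algebraMap ℝ 𝔄 (Real.log c) - CFC.log H)).re := by
    rw [map_sub, Complex.sub_re, a02_alg]
    rfl
  rw [hre]
  exact (Complex.continuous_re.tendsto _).comp ((τ.f.continuous.tendsto _).comp hlim)

theorem L_mono {H K : 𝔄} (hH : IsStrictlyPositive H) (h : H ≤ K) : L τ H ≤ L τ K := by
  have h1 := a02_nonneg τ (sub_nonneg.2 (CFC.log_le_log h hH))
  rw [map_sub, Complex.sub_re] at h1
  unfold L
  linarith

theorem L_one : L τ (1 : 𝔄) = 0 := by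
  unfold L
  rw [CFC.log_one, map_zero, Complex.zero_re]

theorem L_algebraMap (r : ℝ) : L τ (algebraMap ℝ 𝔄 r) = τ.mass * Real.log r := by
  unfold L
  rw [CFC.log_algebraMap, a02_alg]

theorem L_smul {H : 𝔄} (hH : IsStrictlyPositive H) {r : ℝ} (hr : 0 < r) :
    L τ (r • H) = τ.mass * Real.log r + L τ H := by
  unfold L
  rw [CFC.log_smul' H hr hH, map_add, Complex.add_re, a02_alg]

/-- `L` of a strictly positive element with prescribed moments -/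
theorem L_moments {𝔅 : Type*} [CStarAlgebra 𝔅] [PartialOrder 𝔅] [StarOrderedRing 𝔅]
    (τ' : Tr 𝔅) {H : 𝔄} {K : 𝔅} (hH : 0 ≤ H) (hK : 0 ≤ K)
    (hm : ∀ k : ℕ, 1 ≤ k → (τ.f (H ^ k)).re = (τ'.f (K ^ k)).re) {ε : ℝ} (hε : 0 < ε) :
    L τ (H + algebraMap ℝ 𝔄 ε) - τ.mass * Real.log ε
      = L τ' (K + algebraMap ℝ 𝔅 ε) - τ'.mass * Real.log ε := by
  obtain ⟨c, hcd⟩ : ∃ c : ℝ, c = max ‖H‖ ‖K‖ + ε := ⟨_, rfl⟩
  have hm0 : 0 ≤ max ‖H‖ ‖K‖ := (norm_nonneg H).trans (le_max_left _ _)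
  have hc : 0 < c := by
    rw [hcd]
    linarith
  have hH1 : algebraMap ℝ 𝔄 ε ≤ H + algebraMap ℝ 𝔄 ε := le_add_of_nonneg_left hH
  have hK1 : algebraMap ℝ 𝔅 ε ≤ K + algebraMap ℝ 𝔅 ε := le_add_of_nonneg_left hK
  have hH2 : H + algebraMap ℝ 𝔄 ε ≤ algebraMap ℝ 𝔄 c := by
    rw [hcd, map_add]
    refine add_le_add_left (((IsSelfAdjoint.of_nonneg hH).le_algebraMap_norm_self).trans ?_) _
    exact algebraMap_mono 𝔄 (le_max_left _ _)
  have hK2 : K + algebraMap ℝ 𝔅 ε ≤ algebraMap ℝ 𝔅 c := by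
    rw [hcd, map_add]
    refine add_le_add_left (((IsSelfAdjoint.of_nonneg hK).le_algebraMap_norm_self).trans ?_) _
    exact algebraMap_mono 𝔅 (le_max_right _ _)
  have s1 := L_series τ hε hH1 hH2 hc
  have s2 := L_series τ' hε hK1 hK2 hc
  obtain ⟨q, hq⟩ : ∃ q : ℝ, q = 1 - c⁻¹ * ε := ⟨_, rfl⟩
  have hce : c⁻¹ * ε ≤ 1 := by
    rw [inv_mul_le_iff₀ hc, mul_one, hcd]
    linarith
  have hq0 : 0 ≤ q := by
    rw [hq]
    linarith
  have hq1 : q < 1 := by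
    rw [hq]
    have : 0 < c⁻¹ * ε := mul_pos (inv_pos.2 hc) hε
    linarith
  have e1 : (1 : 𝔄) - c⁻¹ • (H + algebraMap ℝ 𝔄 ε) = (-c⁻¹) • H + algebraMap ℝ 𝔄 q := by
    rw [hq, map_sub, map_one, map_mul, smul_add, Algebra.smul_def c⁻¹ (algebraMap ℝ 𝔄 ε),
      neg_smul]
    abel
  have e2 : (1 : 𝔅) - c⁻¹ • (K + algebraMap ℝ 𝔅 ε) = (-c⁻¹) • K + algebraMap ℝ 𝔅 q := by
    rw [hq, map_sub, map_one, map_mul, smul_add, Algebra.smul_def c⁻¹ (algebraMap ℝ 𝔅 ε),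
      neg_smul]
    abel
  have e3 : ∀ k : ℕ, (τ.f ((1 - c⁻¹ • (H + algebraMap ℝ 𝔄 ε)) ^ (k + 1))).re / ((k : ℝ) + 1) -
      (τ'.f ((1 - c⁻¹ • (K + algebraMap ℝ 𝔅 ε)) ^ (k + 1))).re / ((k : ℝ) + 1) =
      (τ.mass - τ'.mass) * (q ^ (k + 1) / ((k : ℝ) + 1)) := by
    intro k
    rw [e1, e2, a02_binom, a02_binom, Finset.sum_range_succ' _ (k + 1),
      Finset.sum_range_succ' _ (k + 1)]
    have e4 : ∑ m ∈ Finset.range (k + 1), (-c⁻¹) ^ (m + 1) * q ^ (k + 1 - (m + 1)) *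
        ((k + 1).choose (m + 1) : ℝ) * (τ.f (H ^ (m + 1))).re =
        ∑ m ∈ Finset.range (k + 1), (-c⁻¹) ^ (m + 1) * q ^ (k + 1 - (m + 1)) *
        ((k + 1).choose (m + 1) : ℝ) * (τ'.f (K ^ (m + 1))).re :=
      Finset.sum_congr rfl fun m _ => by rw [hm (m + 1) (Nat.succ_le_succ (Nat.zero_le m))]
    rw [e4]
    have e5 : (τ.f (H ^ 0)).re = τ.mass := by rw [pow_zero]; rfl
    have e6 : (τ'.f (K ^ 0)).re = τ'.mass := by rw [pow_zero]; rfl
    rw [e5, e6, Nat.choose_zero_right, pow_zero, Nat.sub_zero, Nat.cast_one]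
    ring
  have s3 := s1.sub s2
  simp_rw [e3] at s3
  have s4 := (Real.hasSum_pow_div_log_of_abs_lt_one (x := q) (by
    rw [abs_of_nonneg hq0]
    exact hq1)).mul_left (τ.mass - τ'.mass)
  have e7 := s3.unique s4
  have e8 : Real.log (1 - q) = Real.log ε - Real.log c := by
    rw [hq, sub_sub_cancel, Real.log_mul (inv_ne_zero hc.ne') hε.ne', Real.log_inv]
    ring
  rw [e8] at e7
  linarith

/-- `τ((x y)^k) = τ((y x)^k)` for `k ≥ 1` -/
theorem tr_pow_comm (x y : 𝔄) (k : ℕ) (hk : 1 ≤ k) :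
    τ.f ((x * y) ^ k) = τ.f ((y * x) ^ k) := by
  obtain ⟨n, rfl⟩ : ∃ n, k = n + 1 := ⟨k - 1, by omega⟩
  rw [pow_succ (x * y), ← mul_assoc, mul_pow_mul, mul_assoc, τ.comm, mul_assoc, ← pow_succ]

theorem L_star_mul_comm (x : 𝔄) {ε : ℝ} (hε : 0 < ε) :
    L τ (star x * x + algebraMap ℝ 𝔄 ε) = L τ (x * star x + algebraMap ℝ 𝔄 ε) := by
  have h1 := L_moments τ τ (star_mul_self_nonneg x) (mul_star_self_nonneg x)
    (fun k hk => by rw [tr_pow_comm τ (star x) x k hk]) hε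
  linarith

/-- `L` does not change under a star homomorphism compatible with the traces -/
theorem L_map {𝔅 : Type*} [CStarAlgebra 𝔅] (τ' : Tr 𝔅) (φ : 𝔄 →⋆ₐ[ℂ] 𝔅)
    (hφ : ∀ x, τ'.f (φ x) = τ.f x) {H : 𝔄} (hH : IsStrictlyPositive H) :
    L τ' (φ H) = L τ H := by
  have hsa : IsSelfAdjoint H := hH.isSelfAdjoint
  have hcont : ContinuousOn Real.log (spectrum ℝ H) := by
    refine Real.continuousOn_log.mono fun t ht => ?_
    simp only [Set.mem_compl_iff, Set.mem_singleton_iff]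
    exact (hH.spectrum_pos ht).ne'
  have hφc : Continuous φ := by
    refine AddMonoidHomClass.continuous_of_bound φ 1 fun a => ?_
    rw [one_mul]
    exact NonUnitalStarAlgHom.norm_apply_le φ a
  have h1 : φ (CFC.log H) = CFC.log (φ H) := by
    unfold CFC.log
    exact StarAlgHomClass.map_cfc (R := ℝ) (S := ℂ) φ Real.log H hcont
      hφc hsa (hsa.map φ)
  unfold L
  rw [← h1, hφ]

end LT
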