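import Pool.Agent.H29.LT.A01
import Pool.Agent.H29.LT.A02

/-!
# LT-A03: derivative of `L`

`L_taylor`: let `2 ε ≤ H ≤ c` and `K` self-adjoint with `‖K‖ ≤ ε`; then `ε ≤ H + K ≤ c + ε =: c'`.
By `L_series` (with the constants `ε`, `c'`), with `x = 1 - c'⁻¹ H`, `y = - c'⁻¹ K`,
`‖x‖ ≤ q`, `‖x + y‖ ≤ q`, where `q = 1 - ε/c' < 1` (both are self-adjoint and `0 ≤ · ≤ q`):
`L (H + K) - L H = - Σ_k (1/(k+1)) Re τ ((x + y)^(k+1) - x^(k+1))`.
Now `(x+y)^m - x^m = Σ_{i<m} (x+y)^i y x^(m-1-i)` (`Commute`-free telescoping identity), and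
`(x+y)^i - x^i` is again of this form, so
`|τ ((x+y)^m - x^m) - m τ (x^(m-1) y)| ≤ mass * m² q^(m-2) ‖y‖²` (for `m ≥ 2`; zero for `m = 1`)
(use `τ (x^i y x^(m-1-i)) = τ (x^(m-1) y)`).  The sum over `m` of `m q^(m-2)` converges, and
`- Σ_m Re τ (x^(m-1) y) = c'⁻¹ Re τ (Σ x^(m-1) K) = Re τ ((c'(1 - x))⁻¹ K) = Re τ (H⁻¹ K)`
(geometric series: `Σ x^j = Ring.inverse (1 - x)`).

`hasDerivAt_L` follows: for `s` near `t`, `h s - h t` is self-adjoint, small, and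
`h s - h t = (s - t) h' + o(s - t)`, so
`L (h s) - L (h t) = Re τ (h(t)⁻¹ (h s - h t)) + O(‖h s - h t‖²)`.
-/

set_option linter.unusedSectionVars false

namespace LT

variable {𝔄 : Type*} [CStarAlgebra 𝔄] [PartialOrder 𝔄] [StarOrderedRing 𝔄] (τ : Tr 𝔄)

/-- the first order part of `(x + y)^m - x^m` -/
private noncomputable def a03P (x y : 𝔄) (m : ℕ) : 𝔄 :=
  ∑ i ∈ Finset.range m, x ^ i * y * x ^ (m - 1 - i)

/-- the remainder of `(x + y)^m` after the first order part -/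
private noncomputable def a03R (x y : 𝔄) (m : ℕ) : 𝔄 :=
  (x + y) ^ m - x ^ m - a03P x y m

private theorem a03P_succ (x y : 𝔄) (m : ℕ) :
    a03P x y (m + 1) = x * a03P x y m + y * x ^ m := by
  unfold a03P
  rw [Finset.sum_range_succ', Finset.mul_sum]
  congr 1
  · refine Finset.sum_congr rfl fun i _ => ?_
    have h1 : m + 1 - 1 - (i + 1) = m - 1 - i := by omega
    rw [h1, pow_succ' x i]
    simp only [mul_assoc]
  · simp

private theorem a03R_succ (x y : 𝔄) (m : ℕ) :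
    a03R x y (m + 1) = y * a03P x y m + (x + y) * a03R x y m := by
  unfold a03R
  rw [a03P_succ, pow_succ' (x + y) m, pow_succ' x m]
  noncomm_ring

private theorem a03P_tr (x y : 𝔄) (m : ℕ) :
    τ.f (a03P x y (m + 1)) = ((m : ℂ) + 1) * τ.f (x ^ m * y) := by
  unfold a03P
  rw [map_sum]
  have h1 : ∀ i ∈ Finset.range (m + 1), τ.f (x ^ i * y * x ^ (m + 1 - 1 - i)) =
      τ.f (x ^ m * y) := by
    intro i hi
    have hi' : i ≤ m := by
      have := Finset.mem_range.1 hi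
      omega
    rw [τ.comm, ← mul_assoc, ← pow_add]
    congr 3
    omega
  rw [Finset.sum_congr rfl h1, Finset.sum_const, Finset.card_range, nsmul_eq_mul]
  push_cast
  ring

private theorem a03P_norm [Nontrivial 𝔄] {x y : 𝔄} {Q : ℝ} (hQ : 0 < Q) (hx : ‖x‖ ≤ Q) (m : ℕ) :
    ‖a03P x y m‖ ≤ (m : ℝ) * Q ^ m * ‖y‖ / Q := by
  induction m with
  | zero => simp [a03P]
  | succ m ih =>
    rw [a03P_succ]
    have h1 : ‖x * a03P x y m‖ ≤ Q * ((m : ℝ) * Q ^ m * ‖y‖ / Q) :=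
      (norm_mul_le _ _).trans (mul_le_mul hx ih (norm_nonneg _) hQ.le)
    have h2 : ‖y * x ^ m‖ ≤ ‖y‖ * Q ^ m := by
      refine (norm_mul_le _ _).trans (mul_le_mul_of_nonneg_left ?_ (norm_nonneg _))
      exact (norm_pow_le x m).trans (pow_le_pow_left₀ (norm_nonneg _) hx m)
    have h3 : Q * ((m : ℝ) * Q ^ m * ‖y‖ / Q) + ‖y‖ * Q ^ m =
        ((m + 1 : ℕ) : ℝ) * Q ^ (m + 1) * ‖y‖ / Q := by
      push_cast
      field_simp
      ring
    rw [← h3]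
    exact (norm_add_le _ _).trans (add_le_add h1 h2)

private theorem a03R_norm [Nontrivial 𝔄] {x y : 𝔄} {Q : ℝ} (hQ : 0 < Q) (hx : ‖x‖ ≤ Q)
    (hxy : ‖x + y‖ ≤ Q) (m : ℕ) :
    ‖a03R x y m‖ ≤ (m : ℝ) ^ 2 * Q ^ m * ‖y‖ ^ 2 / Q ^ 2 := by
  induction m with
  | zero => simp [a03R, a03P]
  | succ m ih =>
    rw [a03R_succ]
    have h1 : ‖y * a03P x y m‖ ≤ ‖y‖ * ((m : ℝ) * Q ^ m * ‖y‖ / Q) :=
      (norm_mul_le _ _).trans (mul_le_mul_of_nonneg_left (a03P_norm hQ hx m) (norm_nonneg _))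
    have h2 : ‖(x + y) * a03R x y m‖ ≤ Q * ((m : ℝ) ^ 2 * Q ^ m * ‖y‖ ^ 2 / Q ^ 2) :=
      (norm_mul_le _ _).trans (mul_le_mul hxy ih (norm_nonneg _) hQ.le)
    have h3 : ‖y‖ * ((m : ℝ) * Q ^ m * ‖y‖ / Q) + Q * ((m : ℝ) ^ 2 * Q ^ m * ‖y‖ ^ 2 / Q ^ 2) =
        ((m : ℝ) + (m : ℝ) ^ 2) * (Q ^ (m + 1) * ‖y‖ ^ 2 / Q ^ 2) := by
      field_simp
      ring
    have h4 : ((m : ℝ) + (m : ℝ) ^ 2) * (Q ^ (m + 1) * ‖y‖ ^ 2 / Q ^ 2) ≤
        ((m : ℝ) + 1) ^ 2 * (Q ^ (m + 1) * ‖y‖ ^ 2 / Q ^ 2) := by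
      refine mul_le_mul_of_nonneg_right ?_ (by positivity)
      have : (0 : ℝ) ≤ m := Nat.cast_nonneg m
      nlinarith
    have h5 : ((m : ℝ) + 1) ^ 2 * (Q ^ (m + 1) * ‖y‖ ^ 2 / Q ^ 2) =
        ((m + 1 : ℕ) : ℝ) ^ 2 * Q ^ (m + 1) * ‖y‖ ^ 2 / Q ^ 2 := by
      push_cast
      ring
    exact (norm_add_le _ _).trans ((add_le_add h1 h2).trans (h3.le.trans (h4.trans h5.le)))

private theorem a03_norm_one_sub [Nontrivial 𝔄] {G : 𝔄} {ε c : ℝ} (hε : 0 < ε) (hεc : ε ≤ c)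
    (h1 : algebraMap ℝ 𝔄 ε ≤ G) (h2 : G ≤ algebraMap ℝ 𝔄 c) : ‖1 - c⁻¹ • G‖ ≤ 1 - ε / c := by
  have hc : 0 < c := hε.trans_le hεc
  have hci : 0 < c⁻¹ := inv_pos.2 hc
  have h3 : c⁻¹ • G ≤ 1 := by
    have := smul_le_smul_of_nonneg_left h2 hci.le
    rwa [Algebra.algebraMap_eq_smul_one, smul_smul, inv_mul_cancel₀ hc.ne', one_smul] at this
  have h4 : algebraMap ℝ 𝔄 (ε / c) ≤ c⁻¹ • G := by
    have := smul_le_smul_of_nonneg_left h1 hci.le
    rwa [Algebra.algebraMap_eq_smul_one, smul_smul, inv_mul_eq_div,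
      ← Algebra.algebraMap_eq_smul_one] at this
  have h5 : 0 ≤ 1 - c⁻¹ • G := sub_nonneg.2 h3
  have h6 : 0 ≤ 1 - ε / c := by
    rw [sub_nonneg, div_le_one hc]
    exact hεc
  rw [CStarAlgebra.norm_le_iff_le_algebraMap _ h6 h5, map_sub, map_one]
  exact sub_le_sub_left h4 1

theorem L_taylor {H : 𝔄} (hH : IsStrictlyPositive H) :
    ∃ C δ : ℝ, 0 < δ ∧ ∀ K : 𝔄, IsSelfAdjoint K → ‖K‖ ≤ δ →
      IsStrictlyPositive (H + K) ∧
      |L τ (H + K) - L τ H - (τ.f (Ring.inverse H * K)).re| ≤ C * ‖K‖ ^ 2 := by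
  rcases subsingleton_or_nontrivial 𝔄 with hs | hn
  · refine ⟨0, 1, one_pos, fun K _ _ => ?_⟩
    have e1 : H + K = H := Subsingleton.elim _ _
    have e2 : Ring.inverse H * K = 0 := Subsingleton.elim _ _
    refine ⟨by rwa [e1], ?_⟩
    rw [e1, e2, map_zero]
    simp
  obtain ⟨r, hr, hrH⟩ : ∃ r > 0, (algebraMap ℝ 𝔄) r ≤ H :=
    (CFC.exists_pos_algebraMap_le_iff hH.isSelfAdjoint).2 fun x hx => hH.spectrum_pos hx
  have hHn : H ≤ algebraMap ℝ 𝔄 ‖H‖ := hH.isSelfAdjoint.le_algebraMap_norm_self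
  obtain ⟨ε, hεd⟩ : ∃ ε : ℝ, ε = r / 2 := ⟨_, rfl⟩
  have hε : 0 < ε := by rw [hεd]; positivity
  have hr2 : r = ε + ε := by rw [hεd]; ring
  obtain ⟨c, hcd⟩ : ∃ c : ℝ, c = ‖H‖ + ε := ⟨_, rfl⟩
  have hεc : ε ≤ c := by
    rw [hcd]
    have := norm_nonneg H
    linarith
  have hc : 0 < c := hε.trans_le hεc
  have hci : 0 < c⁻¹ := inv_pos.2 hc
  have hH1 : algebraMap ℝ 𝔄 ε ≤ H := by
    refine le_trans ?_ hrH
    exact algebraMap_mono 𝔄 (by rw [hr2]; linarith)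
  have hH2 : H ≤ algebraMap ℝ 𝔄 c := by
    refine hHn.trans ?_
    exact algebraMap_mono 𝔄 (by rw [hcd]; linarith)
  -- the bound for the norms
  obtain ⟨q, hqd⟩ : ∃ q : ℝ, q = 1 - ε / c := ⟨_, rfl⟩
  have hq1 : q < 1 := by
    rw [hqd]
    have : 0 < ε / c := div_pos hε hc
    linarith
  have hq0 : 0 ≤ q := by
    rw [hqd, sub_nonneg, div_le_one hc]
    exact hεc
  obtain ⟨Q, hQd⟩ : ∃ Q : ℝ, Q = (q + 1) / 2 := ⟨_, rfl⟩
  have hQ0 : 0 < Q := by rw [hQd]; linarith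
  have hQ1 : Q < 1 := by rw [hQd]; linarith
  have hqQ : q ≤ Q := by rw [hQd]; linarith
  have hnx : ‖1 - c⁻¹ • H‖ ≤ q := by
    rw [hqd]
    exact a03_norm_one_sub hε hεc hH1 hH2
  -- the geometric series
  have hgs : Summable fun n : ℕ => (1 - c⁻¹ • H) ^ n :=
    summable_geometric_of_norm_lt_one (hnx.trans_lt hq1)
  have hinv : Ring.inverse H = c⁻¹ • ∑' n : ℕ, (1 - c⁻¹ • H) ^ n := by
    have g1 : (∑' n : ℕ, (1 - c⁻¹ • H) ^ n) * (1 - (1 - c⁻¹ • H)) = 1 :=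
      geom_series_mul_neg _ (hnx.trans_lt hq1)
    rw [sub_sub_cancel] at g1
    have g2 : (c⁻¹ • ∑' n : ℕ, (1 - c⁻¹ • H) ^ n) * H = 1 := by
      rw [smul_mul_assoc, ← mul_smul_comm, g1]
    have g3 : (c⁻¹ • ∑' n : ℕ, (1 - c⁻¹ • H) ^ n) * (H * Ring.inverse H) =
        Ring.inverse H := by
      rw [← mul_assoc, g2, one_mul]
    rw [Ring.mul_inverse_cancel _ hH.isUnit, mul_one] at g3
    exact g3.symm
  -- the constant
  have hsumQ : Summable fun k : ℕ => (((k + 1 : ℕ) : ℝ)) * Q ^ (k + 1) := by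
    have g1 : Summable fun k : ℕ => ((k : ℝ)) ^ 1 * Q ^ k :=
      summable_pow_mul_geometric_of_norm_lt_one 1 (by
        rw [Real.norm_eq_abs, abs_of_pos hQ0]
        exact hQ1)
    have g2 := (summable_nat_add_iff 1).2 g1
    simpa using g2
  refine ⟨‖τ.f‖ * (c⁻¹ ^ 2 / Q ^ 2) * ∑' k : ℕ, (((k + 1 : ℕ) : ℝ)) * Q ^ (k + 1), ε, hε,
    fun K hK hKn => ?_⟩
  have hK1 : K ≤ algebraMap ℝ 𝔄 ε :=
    hK.le_algebraMap_norm_self.trans (algebraMap_mono 𝔄 hKn)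
  have hK2 : - algebraMap ℝ 𝔄 ε ≤ K :=
    (neg_le_neg (algebraMap_mono 𝔄 hKn)).trans hK.neg_algebraMap_norm_le_self
  have hG1 : algebraMap ℝ 𝔄 ε ≤ H + K := by
    have g1 := add_le_add hrH hK2
    rwa [hr2, map_add, add_neg_cancel_right] at g1
  have hG2 : H + K ≤ algebraMap ℝ 𝔄 c := by
    have g1 := add_le_add hHn hK1
    rwa [← map_add, ← hcd] at g1
  have hGsp : IsStrictlyPositive (H + K) :=
    (isStrictlyPositive_algebraMap (A := 𝔄) hε).of_le hG1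
  refine ⟨hGsp, ?_⟩
  have hs1 := L_series τ hε hH1 hH2 hc
  have hs2 := L_series τ hε hG1 hG2 hc
  have hnxy : ‖(1 - c⁻¹ • H) + (-(c⁻¹ • K))‖ ≤ q := by
    have g1 : (1 - c⁻¹ • H) + (-(c⁻¹ • K)) = 1 - c⁻¹ • (H + K) := by
      rw [smul_add]
      abel
    rw [g1, hqd]
    exact a03_norm_one_sub hε hεc hG1 hG2
  obtain ⟨x, hxd⟩ : ∃ x : 𝔄, x = 1 - c⁻¹ • H := ⟨_, rfl⟩
  obtain ⟨y, hyd⟩ : ∃ y : 𝔄, y = -(c⁻¹ • K) := ⟨_, rfl⟩
  have hxyd : 1 - c⁻¹ • (H + K) = x + y := by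
    rw [hxd, hyd, smul_add]
    abel
  rw [← hxd] at hnx hgs hinv hs1 hnxy
  rw [← hyd] at hnxy
  rw [hxyd] at hs2
  -- the linear term as a series
  have hs3 : HasSum (fun k : ℕ => c⁻¹ * (τ.f (x ^ k * K)).re) (τ.f (Ring.inverse H * K)).re := by
    have g1 : HasSum (fun k : ℕ => x ^ k) (∑' n : ℕ, x ^ n) := hgs.hasSum
    have g2 := g1.mul_right K
    have g3 := (g2.mapL τ.f)
    have g4 := Complex.hasSum_re g3
    have g5 := g4.mul_left c⁻¹
    have g6 : c⁻¹ * (τ.f ((∑' n : ℕ, x ^ n) * K)).re = (τ.f (Ring.inverse H * K)).re := by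
      rw [hinv, smul_mul_assoc, a02_smul]
    rwa [g6] at g5
  have hs4 := (hs1.sub hs2).sub hs3
  have hval : τ.mass * Real.log c - L τ H - (τ.mass * Real.log c - L τ (H + K)) -
      (τ.f (Ring.inverse H * K)).re = L τ (H + K) - L τ H - (τ.f (Ring.inverse H * K)).re := by
    ring
  rw [hval] at hs4
  have hbd := (hsumQ.hasSum).mul_left (‖τ.f‖ * (‖y‖ ^ 2 / Q ^ 2))
  have hfin := hs4.norm_le_of_bounded hbd (fun k => ?_)
  · rw [Real.norm_eq_abs] at hfin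
    refine hfin.trans (le_of_eq ?_)
    rw [hyd, norm_neg, norm_smul, Real.norm_eq_abs, abs_of_pos hci]
    ring
  · have e1 : (x + y) ^ (k + 1) = x ^ (k + 1) + a03P x y (k + 1) + a03R x y (k + 1) := by
      unfold a03R
      abel
    have e2 : (τ.f (a03P x y (k + 1))).re = -(((k : ℝ) + 1) * (c⁻¹ * (τ.f (x ^ k * K)).re)) := by
      have e3 : ((k : ℂ) + 1) * τ.f (x ^ k * y) = τ.f ((((k : ℝ) + 1)) • (x ^ k * y)) := by
        rw [← Complex.coe_smul, map_smul, smul_eq_mul]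
        push_cast
        ring
      rw [a03P_tr, e3, a02_smul, hyd, mul_neg, map_neg, Complex.neg_re, mul_smul_comm, a02_smul]
      ring
    have hk : (0 : ℝ) < (k : ℝ) + 1 := by positivity
    have e4 : (τ.f (x ^ (k + 1))).re / ((k : ℝ) + 1) - (τ.f ((x + y) ^ (k + 1))).re / ((k : ℝ) + 1) -
        c⁻¹ * (τ.f (x ^ k * K)).re = -((τ.f (a03R x y (k + 1))).re / ((k : ℝ) + 1)) := by
      rw [e1, map_add, map_add, Complex.add_re, Complex.add_re, e2]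
      field_simp
      ring
    rw [e4, norm_neg, Real.norm_eq_abs, abs_div, abs_of_pos hk, div_le_iff₀ hk]
    have e5 : |(τ.f (a03R x y (k + 1))).re| ≤ ‖τ.f‖ * ‖a03R x y (k + 1)‖ :=
      (Complex.abs_re_le_norm _).trans (τ.f.le_opNorm _)
    have e6 := a03R_norm hQ0 (hnx.trans hqQ) (hnxy.trans hqQ) (k + 1)
    refine e5.trans ((mul_le_mul_of_nonneg_left e6 (norm_nonneg _)).trans (le_of_eq ?_))
    push_cast
    ring

theorem hasDerivAt_L {h : ℝ → 𝔄} {h' : 𝔄} {t : ℝ} (hsa : ∀ s, IsSelfAdjoint (h s))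
    (hpos : IsStrictlyPositive (h t)) (hd : HasDerivAt h h' t) :
    HasDerivAt (fun s => L τ (h s)) (τ.f (Ring.inverse (h t) * h')).re t := by
  obtain ⟨C, δ, hδ, hT⟩ := L_taylor τ hpos
  -- the linear part
  have h1 : HasDerivAt (fun s => (τ.f (Ring.inverse (h t) * h s)).re)
      (τ.f (Ring.inverse (h t) * h')).re t := by
    have g1 : HasDerivAt (fun s => Ring.inverse (h t) * h s) (Ring.inverse (h t) * h') t :=
      hd.const_mul (Ring.inverse (h t))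
    have g2 : HasDerivAt (fun s => τ.f (Ring.inverse (h t) * h s))
        (τ.f (Ring.inverse (h t) * h')) t := by
      have g3 := ((τ.f.restrictScalars ℝ).hasFDerivAt
        (x := Ring.inverse (h t) * h t)).comp_hasDerivAt t g1
      exact g3
    have g4 := (Complex.reCLM.hasFDerivAt
      (x := τ.f (Ring.inverse (h t) * h t))).comp_hasDerivAt t g2
    exact g4
  -- the remainder
  have h2 : HasDerivAt (fun s => L τ (h s) - (τ.f (Ring.inverse (h t) * h s)).re) 0 t := by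
    rw [hasDerivAt_iff_isLittleO]
    have g1 : (fun s => L τ (h s) - (τ.f (Ring.inverse (h t) * h s)).re -
        (L τ (h t) - (τ.f (Ring.inverse (h t) * h t)).re) - (s - t) • (0 : ℝ)) =O[nhds t]
        fun s => ‖h s - h t‖ ^ 2 := by
      refine Asymptotics.IsBigO.of_bound C ?_
      have g2 : Filter.Tendsto (fun s => ‖h s - h t‖) (nhds t) (nhds 0) := by
        have g3 := (hd.continuousAt.sub (continuousAt_const (y := h t))).norm
        have g4 : ‖h t - h t‖ = 0 := by rw [sub_self, norm_zero]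
        have g5 : Filter.Tendsto (fun s => ‖h s - h t‖) (nhds t) (nhds ‖h t - h t‖) := g3
        rwa [g4] at g5
      filter_upwards [g2.eventually (ge_mem_nhds hδ)] with s hs
      obtain ⟨-, g6⟩ := hT (h s - h t) ((hsa s).sub (hsa t)) hs
      rw [add_sub_cancel, mul_sub, map_sub, Complex.sub_re] at g6
      rw [smul_zero, sub_zero, Real.norm_eq_abs, Real.norm_eq_abs, abs_of_nonneg (sq_nonneg ‖h s - h t‖)]
      refine le_trans (le_of_eq ?_) g6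
      congr 1
      ring
    have g7 : (fun s => ‖h s - h t‖ ^ 2) =O[nhds t] fun s => ‖s - t‖ ^ 2 :=
      (hd.isBigO_sub.norm_norm).pow 2
    exact (g1.trans g7).trans_isLittleO (Asymptotics.isLittleO_pow_sub_sub t one_lt_two)
  have h3 := h2.add h1
  rw [zero_add] at h3
  refine h3.congr_of_eventuallyEq (Filter.Eventually.of_forall fun s => ?_)
  simp only [Pi.add_apply]
  ring

/-- `L` is continuous along continuous families of strictly positive elements -/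
theorem continuousAt_L {h : ℝ → 𝔄} {t : ℝ} (hsa : ∀ s, IsSelfAdjoint (h s))
    (hpos : IsStrictlyPositive (h t)) (hd : ContinuousAt h t) :
    ContinuousAt (fun s => L τ (h s)) t := by
  obtain ⟨C, δ, hδ, hT⟩ := L_taylor τ hpos
  have g2 : Filter.Tendsto (fun s => ‖h s - h t‖) (nhds t) (nhds 0) := by
    have g3 := (hd.sub (continuousAt_const (y := h t))).norm
    have g4 : ‖h t - h t‖ = 0 := by rw [sub_self, norm_zero]
    have g5 : Filter.Tendsto (fun s => ‖h s - h t‖) (nhds t) (nhds ‖h t - h t‖) := g3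
    rwa [g4] at g5
  have g8 : Filter.Tendsto (fun s => (‖τ.f‖ * ‖Ring.inverse (h t)‖) * ‖h s - h t‖ +
      C * ‖h s - h t‖ ^ 2) (nhds t) (nhds 0) := by
    have g9 := (g2.const_mul (‖τ.f‖ * ‖Ring.inverse (h t)‖)).add ((g2.pow 2).const_mul C)
    simpa using g9
  have g10 : Filter.Tendsto (fun s => L τ (h s) - L τ (h t)) (nhds t) (nhds 0) := by
    refine squeeze_zero_norm' ?_ g8
    filter_upwards [g2.eventually (ge_mem_nhds hδ)] with s hs
    obtain ⟨-, g6⟩ := hT (h s - h t) ((hsa s).sub (hsa t)) hs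
    rw [add_sub_cancel] at g6
    have g11 : |(τ.f (Ring.inverse (h t) * (h s - h t))).re| ≤
        (‖τ.f‖ * ‖Ring.inverse (h t)‖) * ‖h s - h t‖ := by
      refine (Complex.abs_re_le_norm _).trans ((τ.f.le_opNorm _).trans ?_)
      rw [mul_assoc]
      exact mul_le_mul_of_nonneg_left (norm_mul_le _ _) (norm_nonneg _)
    rw [Real.norm_eq_abs]
    have g12 := abs_sub_abs_le_abs_sub (L τ (h s) - L τ (h t))
      (τ.f (Ring.inverse (h t) * (h s - h t))).re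
    linarith
  have g13 := g10.add_const (L τ (h t))
  simpa [ContinuousAt] using g13

end LT
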