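import Pool.Agent.H29.LT.A04

/-!
# LT-A08: the leading coefficient inequality (noncommutative Szegő/Jensen inequality)

`α θ` (`θ : ℝ`) are trace preserving star homomorphisms with `α θ (x k) = e^{i k θ} x k`; put
`x(z) = Σ_{k ≤ d} z^k x_k` and `δx(z) = Σ k z^k x_k`, `δ²x(z) = Σ k² z^k x_k` (`z : ℂ`),
`h(z) = x(z)* x(z) + ε`, `Φ(r) = L (h r)`, `g(r) = 2 Re τ (h(r)⁻¹ x(r)* δx(r))` for real `r`.

(1) `r Φ'(r) = g(r)` (`hasDerivAt_L`; `r x'(r) = δx(r)`; `Re τ (h⁻¹ (δx)* x) = Re τ (h⁻¹ x* δx)`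
by `star_map` and `comm`).

(2) For fixed real `r` and `θ ∈ ℝ`, `α θ (x r) = x(r e^{iθ})` etc., so
`τ (h(re^{iθ})⁻¹ x(re^{iθ})* δx(re^{iθ})) = τ (α θ (h(r)⁻¹ x(r)* δx(r)))` does not depend on `θ`
(`α θ` maps the inverse to the inverse).  Differentiate at `θ = 0`
(`d/dθ x = i δx`, `d/dθ x* = -i (δx)*`, `d/dθ δx = i δ²x`, `d/dθ h = -i (δx)* x + i x* δx`,
`d/dθ h⁻¹ = - h⁻¹ (dh/dθ) h⁻¹`), multiply by `-i`:
`0 = τ (- h⁻¹ (- (δx)* x + x* δx) h⁻¹ x* δx - h⁻¹ (δx)* δx + h⁻¹ x* δ²x)`.   (*)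

(3) `r d/dr τ (h⁻¹ x* δx) = τ (- h⁻¹ ((δx)* x + x* δx) h⁻¹ x* δx + h⁻¹ (δx)* δx + h⁻¹ x* δ²x)`;
subtracting (*): `= 2 τ (h⁻¹ (δx)* δx) - 2 τ (h⁻¹ (δx)* x h⁻¹ x* δx)
= 2 τ (h⁻¹ (δx)* P δx)`, `P = 1 - x h⁻¹ x*`.  `P ≥ 0`, because `x (x* x + ε)⁻¹ x* ≤ 1`
(e.g. `‖x h⁻¹ x*‖ = ‖h^{-1/2} x* x h^{-1/2}‖ ≤ 1`), so `(δx)* P δx ≥ 0` and by `tr_mul_nonneg`
`r g'(r) ≥ 0`.

(4) `g` is continuous on `[0,1]`, `g 0 = 0`, `g' ≥ 0` on `(0,1)`, so `g ≥ 0` on `[0,1]`; then
`Φ'(r) = g(r)/r ≥ 0` on `(0,1)` and `Φ` is continuous on `[0,1]`, so `Φ 0 ≤ Φ 1`.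
-/

set_option linter.unusedSectionVars false

namespace LT

variable {𝔄 : Type*} [CStarAlgebra 𝔄] [PartialOrder 𝔄] [StarOrderedRing 𝔄] (τ : Tr 𝔄)

open Filter Topology in
private theorem a08_hasDerivAt_F {X Y : ℝ → 𝔄} {X' Y' : 𝔄} {s : ℝ} (c : 𝔄)
    (hX : HasDerivAt X X' s) (hY : HasDerivAt Y Y' s)
    (hu : IsUnit (star (X s) * X s + c)) :
    HasDerivAt (fun s => τ.f (Ring.inverse (star (X s) * X s + c) * (star (X s) * Y s)))
      (τ.f (-(Ring.inverse (star (X s) * X s + c) * (star X' * X s + star (X s) * X') *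
          Ring.inverse (star (X s) * X s + c)) * (star (X s) * Y s) +
        Ring.inverse (star (X s) * X s + c) * (star X' * Y s + star (X s) * Y'))) s := by
  have h1 : HasDerivAt (fun s => star (X s)) (star X') s := hX.star
  have h2 : HasDerivAt (fun s => star (X s) * X s + c) (star X' * X s + star (X s) * X') s :=
    (h1.mul hX).add_const c
  obtain ⟨u, hu'⟩ := hu
  have h3 : HasDerivAt (fun s => Ring.inverse (star (X s) * X s + c))
      (-(Ring.inverse (star (X s) * X s + c) * (star X' * X s + star (X s) * X') *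
          Ring.inverse (star (X s) * X s + c))) s := by
    have h4 : HasFDerivAt Ring.inverse
        (-ContinuousLinearMap.mulLeftRight ℝ 𝔄 ↑u⁻¹ ↑u⁻¹) (star (X s) * X s + c) := by
      rw [← hu']
      exact hasFDerivAt_ringInverse (𝕜 := ℝ) u
    have h5 := h4.comp_hasDerivAt s h2
    have h6 : Ring.inverse (star (X s) * X s + c) = (↑u⁻¹ : 𝔄) := by
      rw [← hu', Ring.inverse_unit]
    rw [h6]
    refine HasDerivAt.congr_deriv h5 ?_
    rw [ContinuousLinearMap.neg_apply, ContinuousLinearMap.mulLeftRight_apply]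
  have h7 := h3.mul (h1.mul hY)
  exact (τ.f.restrictScalars ℝ).hasFDerivAt.comp_hasDerivAt s h7

private theorem a08_pos (y : 𝔄) {ε : ℝ} (hε : 0 < ε) :
    IsStrictlyPositive (star y * y + algebraMap ℝ 𝔄 ε) := by
  have h1 : IsStrictlyPositive (algebraMap ℝ 𝔄 ε) := isStrictlyPositive_algebraMap hε
  have h2 : (0 : 𝔄) ≤ star y * y := star_mul_self_nonneg y
  exact h1.nonneg_add h2

private theorem a08_inv_nonneg {h : 𝔄} (hh : IsStrictlyPositive h) : 0 ≤ Ring.inverse h := by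
  have h1 : star (Ring.inverse h) = Ring.inverse h :=
    (IsSelfAdjoint.ringInverse hh.isSelfAdjoint).star_eq
  have h2 : Ring.inverse h = star (Ring.inverse h) * h * Ring.inverse h := by
    rw [h1, Ring.inverse_mul_cancel h hh.isUnit, one_mul]
  rw [h2]
  exact star_left_conjugate_nonneg hh.nonneg _

/-- positivity of the second derivative -/
private theorem a08_second (x dx : 𝔄) {ε : ℝ} (hε : 0 < ε) :
    0 ≤ (τ.f (Ring.inverse (star x * x + algebraMap ℝ 𝔄 ε) * (star dx * dx) -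
      Ring.inverse (star x * x + algebraMap ℝ 𝔄 ε) * (star dx * x) *
        Ring.inverse (star x * x + algebraMap ℝ 𝔄 ε) * (star x * dx))).re := by
  have hh := a08_pos x hε
  set h : 𝔄 := star x * x + algebraMap ℝ 𝔄 ε with hdef
  set i : 𝔄 := Ring.inverse h with hi
  have hi1 : i * h = 1 := Ring.inverse_mul_cancel h hh.isUnit
  have hi2 : star i = i := (IsSelfAdjoint.ringInverse hh.isSelfAdjoint).star_eq
  have hi0 : 0 ≤ i := a08_inv_nonneg hh
  have hxx : star x * x = h - algebraMap ℝ 𝔄 ε := by rw [hdef]; abel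
  -- `P = 1 - x i x*`
  set P : 𝔄 := 1 - x * i * star x with hP
  have hPs : star P = P := by
    rw [hP]
    simp only [star_sub, star_one, star_mul, star_star, hi2, mul_assoc]
  have hPP : P = star P * P + ε • (star (i * star x) * (i * star x)) := by
    rw [hPs]
    have e1 : P * P = 1 - 2 • (x * i * star x) + x * (i * (star x * x) * i) * star x := by
      rw [hP]
      noncomm_ring
    have e2 : i * (star x * x) * i = i - ε • (i * i) := by
      rw [hxx, mul_sub, hi1, Algebra.algebraMap_eq_smul_one, mul_smul_comm, mul_one, sub_mul,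
        one_mul, smul_mul_assoc]
    rw [e1, e2, star_mul, star_star, hi2, mul_sub, sub_mul, mul_smul_comm, smul_mul_assoc, hP]
    have e3 : x * i * (i * star x) = x * (i * i) * star x := by noncomm_ring
    rw [e3]
    have e4 : (2 : ℕ) • (x * i * star x) = x * i * star x + x * i * star x := two_nsmul _
    rw [e4]
    abel
  have hpos : 0 ≤ star dx * P * dx := by
    have e0 : 0 ≤ P := by
      rw [hPP]
      exact add_nonneg (star_mul_self_nonneg _) (smul_nonneg hε.le (star_mul_self_nonneg _))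
    exact star_left_conjugate_nonneg e0 dx
  have hmain := tr_mul_nonneg τ hi0 hpos
  have e5 : i * (star dx * P * dx) =
      i * (star dx * dx) - i * (star dx * x) * i * (star x * dx) := by
    rw [hP]
    noncomm_ring
  rwa [e5] at hmain

private noncomputable def a08X (x : ℕ → 𝔄) (d j : ℕ) (w : ℂ) : 𝔄 :=
  ∑ k ∈ Finset.range (d + 1), ((k : ℂ) ^ j * Complex.exp ((k : ℂ) * w)) • x k

private theorem a08X_deriv (x : ℕ → 𝔄) (d j : ℕ) (t c : ℂ) (s : ℝ) :
    HasDerivAt (fun s : ℝ => a08X x d j (t + s * c)) (c • a08X x d (j + 1) (t + s * c)) s := by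
  unfold a08X
  rw [Finset.smul_sum]
  refine HasDerivAt.fun_sum fun k _ => ?_
  have h1 : HasDerivAt (fun s : ℝ => (t + (s : ℂ) * c)) c s := by
    have h2 : HasDerivAt (fun s : ℝ => (s : ℂ)) 1 s := Complex.ofRealCLM.hasDerivAt
    have h3 := (h2.mul_const c).const_add t
    rwa [one_mul] at h3
  have h4 : HasDerivAt (fun s : ℝ => (k : ℂ) ^ j * Complex.exp ((k : ℂ) * (t + (s : ℂ) * c)))
      ((k : ℂ) ^ j * (Complex.exp ((k : ℂ) * (t + (s : ℂ) * c)) * ((k : ℂ) * c))) s :=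
    (((h1.const_mul (k : ℂ)).cexp).const_mul ((k : ℂ) ^ j))
  have h5 := h4.smul_const (x k)
  convert h5 using 1
  rw [smul_smul]
  congr 1
  ring

private theorem a08X_zero (x : ℕ → 𝔄) (d : ℕ) :
    a08X x d 0 0 = ∑ k ∈ Finset.range (d + 1), x k := by
  unfold a08X
  refine Finset.sum_congr rfl fun k _ => ?_
  rw [pow_zero, mul_zero, Complex.exp_zero, mul_one, one_smul]

private theorem a08_alpha (α : ℝ → (𝔄 →⋆ₐ[ℂ] 𝔄)) (x : ℕ → 𝔄)
    (hx : ∀ (θ : ℝ) (k : ℕ), α θ (x k) = Complex.exp ((k : ℂ) * θ * Complex.I) • x k)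
    (d j : ℕ) (w : ℂ) (θ : ℝ) :
    α θ (a08X x d j w) = a08X x d j (w + θ * Complex.I) := by
  unfold a08X
  rw [map_sum]
  refine Finset.sum_congr rfl fun k _ => ?_
  rw [map_smul, hx, smul_smul]
  congr 1
  rw [mul_assoc, ← Complex.exp_add]
  congr 2
  ring

private theorem a08_map_inverse (φ : 𝔄 →⋆ₐ[ℂ] 𝔄) {a : 𝔄} (ha : IsUnit a) :
    φ (Ring.inverse a) = Ring.inverse (φ a) := by
  obtain ⟨u, rfl⟩ := ha
  rw [Ring.inverse_unit]
  have h1 : φ (↑u : 𝔄) = ↑(Units.map (φ : 𝔄 →* 𝔄) u) := rfl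
  rw [h1, Ring.inverse_unit]
  rfl

private theorem a08_exp_tendsto {k : ℕ} (hk : 0 < k) :
    Filter.Tendsto (fun s : ℝ => Complex.exp ((k : ℂ) * (s : ℂ))) Filter.atBot (nhds 0) := by
  rw [tendsto_zero_iff_norm_tendsto_zero]
  have h1 : (fun s : ℝ => ‖Complex.exp ((k : ℂ) * (s : ℂ))‖) =
      fun s : ℝ => Real.exp ((k : ℝ) * s) := by
    funext s
    rw [Complex.norm_exp]
    congr 1
    simp
  rw [h1]
  have h2 : Filter.Tendsto (fun s : ℝ => (k : ℝ) * s) Filter.atBot Filter.atBot :=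
    Filter.tendsto_id.const_mul_atBot (Nat.cast_pos.2 hk)
  exact Real.tendsto_exp_atBot.comp h2

private noncomputable def a08F (x : ℕ → 𝔄) (d : ℕ) (ε : ℝ) (w : ℂ) : ℂ :=
  τ.f (Ring.inverse (star (a08X x d 0 w) * a08X x d 0 w + algebraMap ℝ 𝔄 ε) *
    (star (a08X x d 0 w) * a08X x d 1 w))

private theorem a08F_rot (α : ℝ → (𝔄 →⋆ₐ[ℂ] 𝔄)) (hα : ∀ θ a, τ.f (α θ a) = τ.f a) (x : ℕ → 𝔄)
    (hx : ∀ (θ : ℝ) (k : ℕ), α θ (x k) = Complex.exp ((k : ℂ) * θ * Complex.I) • x k)
    (d : ℕ) {ε : ℝ} (hε : 0 < ε) (w : ℂ) (θ : ℝ) :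
    a08F τ x d ε (w + θ * Complex.I) = a08F τ x d ε w := by
  unfold a08F
  have h1 : algebraMap ℝ 𝔄 ε = algebraMap ℂ 𝔄 (ε : ℂ) := by
    rw [Algebra.algebraMap_eq_smul_one, Algebra.algebraMap_eq_smul_one, Complex.coe_smul]
  have h2 : α θ (algebraMap ℝ 𝔄 ε) = algebraMap ℝ 𝔄 ε := by
    rw [h1]
    exact AlgHomClass.commutes (α θ) (ε : ℂ)
  have h3 : α θ (Ring.inverse (star (a08X x d 0 w) * a08X x d 0 w + algebraMap ℝ 𝔄 ε) *
      (star (a08X x d 0 w) * a08X x d 1 w)) =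
      Ring.inverse (star (a08X x d 0 (w + θ * Complex.I)) * a08X x d 0 (w + θ * Complex.I) +
        algebraMap ℝ 𝔄 ε) *
      (star (a08X x d 0 (w + θ * Complex.I)) * a08X x d 1 (w + θ * Complex.I)) := by
    rw [map_mul, a08_map_inverse (α θ) (a08_pos (a08X x d 0 w) hε).isUnit, map_add, map_mul,
      map_mul, map_star, a08_alpha α x hx, a08_alpha α x hx, h2]
  rw [← h3]
  exact hα θ _

/-- derivative of `F` along the line `t + s c` -/
private theorem a08F_deriv (x : ℕ → 𝔄) (d : ℕ) {ε : ℝ} (hε : 0 < ε) (t c : ℂ) (s : ℝ) :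
    HasDerivAt (fun s : ℝ => a08F τ x d ε (t + s * c))
      (star c * τ.f (Ring.inverse (star (a08X x d 0 (t + s * c)) * a08X x d 0 (t + s * c) +
            algebraMap ℝ 𝔄 ε) * (star (a08X x d 1 (t + s * c)) * a08X x d 1 (t + s * c)) -
          Ring.inverse (star (a08X x d 0 (t + s * c)) * a08X x d 0 (t + s * c) +
            algebraMap ℝ 𝔄 ε) * (star (a08X x d 1 (t + s * c)) * a08X x d 0 (t + s * c)) *
          Ring.inverse (star (a08X x d 0 (t + s * c)) * a08X x d 0 (t + s * c) +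
            algebraMap ℝ 𝔄 ε) * (star (a08X x d 0 (t + s * c)) * a08X x d 1 (t + s * c))) +
        c * τ.f (Ring.inverse (star (a08X x d 0 (t + s * c)) * a08X x d 0 (t + s * c) +
            algebraMap ℝ 𝔄 ε) * (star (a08X x d 0 (t + s * c)) * a08X x d 2 (t + s * c)) -
          Ring.inverse (star (a08X x d 0 (t + s * c)) * a08X x d 0 (t + s * c) +
            algebraMap ℝ 𝔄 ε) * (star (a08X x d 0 (t + s * c)) * a08X x d 1 (t + s * c)) *
          Ring.inverse (star (a08X x d 0 (t + s * c)) * a08X x d 0 (t + s * c) +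
            algebraMap ℝ 𝔄 ε) * (star (a08X x d 0 (t + s * c)) * a08X x d 1 (t + s * c)))) s := by
  have h1 := a08_hasDerivAt_F τ (algebraMap ℝ 𝔄 ε) (a08X_deriv x d 0 t c s)
    (a08X_deriv x d 1 t c s) (a08_pos (a08X x d 0 (t + s * c)) hε).isUnit
  unfold a08F
  refine HasDerivAt.congr_deriv h1 ?_
  generalize Ring.inverse (star (a08X x d 0 (t + s * c)) * a08X x d 0 (t + s * c) +
            algebraMap ℝ 𝔄 ε) = i
  have e : ∀ (c : ℂ) (a : 𝔄), c * τ.f a = τ.f (c • a) := fun c a => by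
    rw [map_smul, smul_eq_mul]
  rw [e, e, ← map_add]
  congr 1
  simp only [zero_add, one_add_one_eq_two, star_smul]
  simp only [smul_mul_assoc, mul_smul_comm, smul_sub, mul_add, add_mul, neg_mul, smul_add, neg_add]
  simp only [mul_assoc]
  abel

theorem szego (α : ℝ → (𝔄 →⋆ₐ[ℂ] 𝔄)) (hα : ∀ θ a, τ.f (α θ a) = τ.f a) (x : ℕ → 𝔄)
    (hx : ∀ (θ : ℝ) (k : ℕ), α θ (x k) = Complex.exp ((k : ℂ) * θ * Complex.I) • x k)
    (d : ℕ) {ε : ℝ} (hε : 0 < ε) :
    L τ (star (x 0) * x 0 + algebraMap ℝ 𝔄 ε)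
      ≤ L τ (star (∑ k ∈ Finset.range (d + 1), x k) * (∑ k ∈ Finset.range (d + 1), x k)
          + algebraMap ℝ 𝔄 ε) := by
  -- the two functions
  have hF0 : ∀ t : ℝ, HasDerivAt (fun s : ℝ => (a08F τ x d ε s).re)
      (2 * (τ.f (Ring.inverse (star (a08X x d 0 t) * a08X x d 0 t + algebraMap ℝ 𝔄 ε) *
          (star (a08X x d 1 t) * a08X x d 1 t) -
        Ring.inverse (star (a08X x d 0 t) * a08X x d 0 t + algebraMap ℝ 𝔄 ε) *
          (star (a08X x d 1 t) * a08X x d 0 t) *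
        Ring.inverse (star (a08X x d 0 t) * a08X x d 0 t + algebraMap ℝ 𝔄 ε) *
          (star (a08X x d 0 t) * a08X x d 1 t))).re) t := by
    intro t
    have h1 := a08F_deriv τ x d hε 0 1 t
    have h2 := a08F_deriv τ x d hε t Complex.I 0
    simp only [zero_add, mul_one, Complex.ofReal_zero, zero_mul, add_zero, star_one, one_mul]
      at h1 h2
    have h3 : (fun s : ℝ => a08F τ x d ε ((t : ℂ) + s * Complex.I)) =
        fun _ : ℝ => a08F τ x d ε t := by
      funext s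
      exact a08F_rot τ α hα x hx d hε t s
    rw [h3] at h2
    have h4 := h2.unique (hasDerivAt_const (0 : ℝ) (a08F τ x d ε t))
    have h5 := Complex.reCLM.hasFDerivAt.comp_hasDerivAt t h1
    have h6 := congrArg Complex.im h4
    simp only [Complex.star_def, Complex.conj_I, Complex.add_im, Complex.mul_im, Complex.neg_re,
      Complex.neg_im, Complex.I_re, Complex.I_im, Complex.zero_im] at h6
    refine HasDerivAt.congr_deriv h5 ?_
    rw [Complex.reCLM_apply, Complex.add_re]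
    linarith
  have hF1 : Monotone (fun s : ℝ => (a08F τ x d ε s).re) := by
    refine monotone_of_deriv_nonneg (fun t => (hF0 t).differentiableAt) fun t => ?_
    rw [(hF0 t).deriv]
    exact mul_nonneg zero_le_two (a08_second τ _ _ hε)
  -- limits at `-∞`
  have hX0 : Filter.Tendsto (fun s : ℝ => a08X x d 0 s) Filter.atBot (nhds (x 0)) := by
    have h1 : Filter.Tendsto (fun s : ℝ => a08X x d 0 s) Filter.atBot
        (nhds (∑ k ∈ Finset.range (d + 1), (if k = 0 then (1 : ℂ) else 0) • x k)) := by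
      unfold a08X
      refine tendsto_finsetSum _ fun k _ => ?_
      refine Filter.Tendsto.smul_const ?_ _
      simp only [pow_zero, one_mul]
      rcases Nat.eq_zero_or_pos k with rfl | hk
      · simp
      · rw [if_neg hk.ne']
        exact a08_exp_tendsto hk
    simpa using h1
  have hX1 : Filter.Tendsto (fun s : ℝ => a08X x d 1 s) Filter.atBot (nhds 0) := by
    have h1 : Filter.Tendsto (fun s : ℝ => a08X x d 1 s) Filter.atBot
        (nhds (∑ k ∈ Finset.range (d + 1), (0 : ℂ) • x k)) := by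
      unfold a08X
      refine tendsto_finsetSum _ fun k _ => ?_
      refine Filter.Tendsto.smul_const ?_ _
      rcases Nat.eq_zero_or_pos k with rfl | hk
      · simp
      · have h2 := (a08_exp_tendsto hk).const_mul ((k : ℂ) ^ 1)
        rwa [mul_zero] at h2
    simpa using h1
  have hh0 : Filter.Tendsto (fun s : ℝ => star (a08X x d 0 s) * a08X x d 0 s + algebraMap ℝ 𝔄 ε)
      Filter.atBot (nhds (star (x 0) * x 0 + algebraMap ℝ 𝔄 ε)) :=
    (hX0.star.mul hX0).add_const _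
  have hF2 : Filter.Tendsto (fun s : ℝ => (a08F τ x d ε s).re) Filter.atBot (nhds 0) := by
    obtain ⟨u, hu⟩ := (a08_pos (x 0) hε).isUnit
    have h1 : Filter.Tendsto (fun s : ℝ => Ring.inverse
        (star (a08X x d 0 s) * a08X x d 0 s + algebraMap ℝ 𝔄 ε)) Filter.atBot
        (nhds (Ring.inverse (star (x 0) * x 0 + algebraMap ℝ 𝔄 ε))) := by
      have h2 := NormedRing.inverse_continuousAt u
      rw [hu] at h2
      exact h2.tendsto.comp hh0
    have h3 := h1.mul (hX0.star.mul hX1)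
    have h4 := (τ.f.continuous.tendsto _).comp h3
    have h5 := (Complex.continuous_re.tendsto _).comp h4
    simp only [mul_zero, map_zero, Complex.zero_re] at h5
    exact h5
  have hF3 : ∀ t : ℝ, 0 ≤ (a08F τ x d ε t).re := fun t => hF1.le_of_tendsto hF2 t
  -- the function `Φ`
  have hΦ : ∀ t : ℝ, HasDerivAt
      (fun s : ℝ => L τ (star (a08X x d 0 s) * a08X x d 0 s + algebraMap ℝ 𝔄 ε))
      (2 * (a08F τ x d ε t).re) t := by
    intro t
    have h1 := a08X_deriv x d 0 0 1 t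
    simp only [zero_add, mul_one, one_smul] at h1
    have h2 := (h1.star.mul h1).add_const (algebraMap ℝ 𝔄 ε)
    have h3 := hasDerivAt_L τ (h := fun s : ℝ => star (a08X x d 0 s) * a08X x d 0 s +
      algebraMap ℝ 𝔄 ε) (fun s => (a08_pos (a08X x d 0 s) hε).isSelfAdjoint)
      (a08_pos (a08X x d 0 t) hε) h2
    refine HasDerivAt.congr_deriv h3 ?_
    unfold a08F
    have h4 : star (Ring.inverse (star (a08X x d 0 t) * a08X x d 0 t + algebraMap ℝ 𝔄 ε)) =
        Ring.inverse (star (a08X x d 0 t) * a08X x d 0 t + algebraMap ℝ 𝔄 ε) :=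
      (IsSelfAdjoint.ringInverse (a08_pos (a08X x d 0 t) hε).isSelfAdjoint).star_eq
    rw [mul_add, map_add, Complex.add_re]
    have h5 : τ.f (Ring.inverse (star (a08X x d 0 t) * a08X x d 0 t + algebraMap ℝ 𝔄 ε) *
        (star (a08X x d 1 t) * a08X x d 0 t)) =
        star (τ.f (Ring.inverse (star (a08X x d 0 t) * a08X x d 0 t + algebraMap ℝ 𝔄 ε) *
        (star (a08X x d 0 t) * a08X x d 1 t))) := by
      rw [← τ.star_map, star_mul, star_mul, star_star, h4, τ.comm]
    rw [h5, Complex.star_def, Complex.conj_re]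
    ring
  have hΦ1 : Monotone
      (fun s : ℝ => L τ (star (a08X x d 0 s) * a08X x d 0 s + algebraMap ℝ 𝔄 ε)) := by
    refine monotone_of_deriv_nonneg (fun t => (hΦ t).differentiableAt) fun t => ?_
    rw [(hΦ t).deriv]
    exact mul_nonneg zero_le_two (hF3 t)
  have hΦ2 : Filter.Tendsto
      (fun s : ℝ => L τ (star (a08X x d 0 s) * a08X x d 0 s + algebraMap ℝ 𝔄 ε)) Filter.atBot
      (nhds (L τ (star (x 0) * x 0 + algebraMap ℝ 𝔄 ε))) := by
    -- the polynomial path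
    have h1 := continuousAt_L τ (t := 0) (h := fun r : ℝ =>
      star (∑ k ∈ Finset.range (d + 1), ((r : ℂ) ^ k) • x k) *
        (∑ k ∈ Finset.range (d + 1), ((r : ℂ) ^ k) • x k) + algebraMap ℝ 𝔄 ε)
      (fun s => (a08_pos _ hε).isSelfAdjoint) (a08_pos _ hε) (by
        refine Continuous.continuousAt ?_
        have hc : Continuous (fun r : ℝ => ∑ k ∈ Finset.range (d + 1), ((r : ℂ) ^ k) • x k) := by
          refine continuous_finsetSum _ fun k _ => ?_
          exact (Complex.continuous_ofReal.pow k).smul continuous_const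
        exact (hc.star.mul hc).add continuous_const)
    have h2 : (∑ k ∈ Finset.range (d + 1), (((0 : ℝ) : ℂ) ^ k) • x k) = x 0 := by
      rw [Finset.sum_eq_single 0]
      · simp
      · intro k _ hk
        rw [Complex.ofReal_zero, zero_pow hk, zero_smul]
      · simp
    have h3 := h1.tendsto.comp Real.tendsto_exp_atBot
    simp only [h2] at h3
    refine h3.congr fun s => ?_
    have h4 : (∑ k ∈ Finset.range (d + 1), (((Real.exp s : ℝ) : ℂ) ^ k) • x k) = a08X x d 0 s := by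
      unfold a08X
      refine Finset.sum_congr rfl fun k _ => ?_
      rw [pow_zero, one_mul, Complex.ofReal_exp, ← Complex.exp_nat_mul]
    simp only [Function.comp_apply, h4]
  have hfin := hΦ1.le_of_tendsto hΦ2 0
  simp only [Complex.ofReal_zero, a08X_zero] at hfin
  exact hfin

end LT
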