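import Mathlib

/-!
# LT (project on `MP_03e088_al`): tracial C*-algebras, definitions

`(𝔄, τ)` is a unital C*-algebra with a (bounded, positive) trace, not necessarily faithful, not
necessarily normalised.  `L τ H = Re τ (log H)` for strictly positive `H`, and
`D τ x = L τ (x* x) / 2` (`log of the Fuglede-Kadison determinant`) for invertible `x`.
-/

namespace LT

/-- A positive tracial functional on a C*-algebra. -/
structure Tr (𝔄 : Type*) [CStarAlgebra 𝔄] where
  /-- the functional -/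
  f : 𝔄 →L[ℂ] ℂ
  comm : ∀ x y, f (x * y) = f (y * x)
  star_map : ∀ x, f (star x) = star (f x)
  nonneg : ∀ x, 0 ≤ (f (star x * x)).re

variable {𝔄 : Type*} [CStarAlgebra 𝔄]

/-- The total mass `τ(1)`. -/
noncomputable def Tr.mass (τ : Tr 𝔄) : ℝ := (τ.f 1).re

/-- `L τ H = Re τ (log H)`. -/
noncomputable def L (τ : Tr 𝔄) (H : 𝔄) : ℝ := (τ.f (CFC.log H)).re

/-- `D τ x = L τ (x* x) / 2`, the logarithm of the Fuglede-Kadison determinant of an
invertible `x`. -/
noncomputable def D (τ : Tr 𝔄) (x : 𝔄) : ℝ := L τ (star x * x) / 2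

/-- The Hilbert-Schmidt norm `‖x‖₂ = τ(x* x)^{1/2}`. -/
noncomputable def n2 (τ : Tr 𝔄) (x : 𝔄) : ℝ := Real.sqrt (τ.f (star x * x)).re

end LT
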