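import Pool.Agent.H29.LT.VN
import Pool.Agent.H29.LT.Tr

/-!
# LT-C00: the trace of `N(G)` and the left regular representation

* `permU` facts: `(permU σ ξ) h = ξ (σ.symm h)`; `permU σ (δ_h) = δ_{σ h}`; `permU` is
  multiplicative and `star (permU σ) = permU σ.symm` (`ContinuousLinearMap.eq_adjoint_iff` or
  `ext_inner`; inner product of `lp` is `∑' conj(ξ h) η h`, reindex by `σ`).
* `ltr_mem`: left and right multiplications commute; use `StarSubalgebra.mem_centralizer_iff`.
* an element `T` of `vN G` satisfies `(T δ_{g}) h = (T δ_1) (h g⁻¹)` (`T` commutes with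
  `permU (mulRight g)`, which maps `δ_1` to `δ_g`).
* `tr_star`: `(T* δ_1) 1 = ⟪δ_1, T* δ_1⟫ = ⟪T δ_1, δ_1⟫ = conj ((T δ_1) 1)`; more generally
  `(T* δ_1) g = ⟪δ_g, T* δ_1⟫ = conj ((T δ_g) 1) = conj ((T δ_1) g⁻¹)`.
* `tr_comm`: `(S T δ_1) 1 = ⟪S* δ_1, T δ_1⟫ = ∑' g, conj ((S* δ_1) g) (T δ_1) g
  = ∑' g, (S δ_1) g⁻¹ * (T δ_1) g`, symmetric in `S, T` after `g ↦ g⁻¹`.
* `tr_nonneg`: `(T* T δ_1) 1 = ‖T δ_1‖²`.
-/

set_option linter.unusedSectionVars false

namespace LT

open scoped InnerProductSpace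

variable {G : Type*} [Group G]

/-- the basis vector `δ_g` -/
noncomputable def dlt [DecidableEq G] (g : G) : l2 G :=
  (lp.single 2 g 1 : lp (fun _ : G => ℂ) 2)

theorem dlt_apply [DecidableEq G] (g h : G) : (dlt g : l2 G) h = if h = g then 1 else 0 := by
  change (lp.single 2 g 1 : lp (fun _ : G => ℂ) 2) h = _
  rw [lp.single_apply, Pi.single_apply]

theorem permU_apply (σ : Equiv.Perm G) (ξ : l2 G) (h : G) : permU σ ξ h = ξ (σ.symm h) := rfl

theorem permU_dlt [DecidableEq G] (σ : Equiv.Perm G) (h : G) : permU σ (dlt h) = dlt (σ h) := by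
  ext k
  rw [permU_apply]
  rw [dlt_apply, dlt_apply]
  by_cases hk : k = σ h
  · rw [if_pos hk, if_pos (by rw [hk, Equiv.symm_apply_apply])]
  · rw [if_neg hk, if_neg (fun h' => hk (by rw [← h', Equiv.apply_symm_apply]))]

theorem permU_mul (σ σ' : Equiv.Perm G) : permU (σ * σ') = permU σ * permU σ' := by
  ext ξ h
  rfl

theorem permU_one : permU (1 : Equiv.Perm G) = 1 := by
  ext ξ h
  rfl

theorem star_permU (σ : Equiv.Perm G) : star (permU σ) = permU σ.symm := by
  symm
  rw [ContinuousLinearMap.star_eq_adjoint, ContinuousLinearMap.eq_adjoint_iff]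
  intro x y
  rw [l2.inner_eq_tsum, l2.inner_eq_tsum]
  rw [← Equiv.tsum_eq σ (fun i => ⟪x i, (permU σ y) i⟫_ℂ)]
  refine tsum_congr fun h => ?_
  rw [permU_apply, permU_apply, Equiv.symm_apply_apply, Equiv.symm_symm]

theorem inner_dlt [DecidableEq G] (g : G) (ξ : l2 G) :
    @inner ℂ (l2 G) InnerProductSpace.toInner (dlt g) ξ = ξ g := by
  refine (lp.inner_single_left (𝕜 := ℂ) (G := fun _ : G => ℂ) g (1 : ℂ) ξ).trans ?_
  simp

private theorem c00_comm (g k : G) : permU (Equiv.mulRight k) * permU (Equiv.mulLeft g) =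
    permU (Equiv.mulLeft g) * permU (Equiv.mulRight k) := by
  rw [← permU_mul, ← permU_mul]
  congr 1
  ext x
  simp [mul_assoc]

theorem mulLeft_mem (g : G) : permU (Equiv.mulLeft g) ∈ vN G := by
  unfold vN
  refine (StarSubalgebra.mem_centralizer_iff ℂ).2 ?_
  rintro _ ⟨k, rfl⟩
  refine ⟨c00_comm g k, ?_⟩
  rw [star_permU]
  have h : (Equiv.mulRight k : Equiv.Perm G).symm = Equiv.mulRight k⁻¹ := by
    ext x; simp
  rw [h]
  exact c00_comm g k⁻¹

/-- left translation by `g`, as an element of `N(G)` -/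
noncomputable def lamG : G →* N G where
  toFun g := ⟨permU (Equiv.mulLeft g), mulLeft_mem g⟩
  map_one' := by
    apply Subtype.ext
    change permU (Equiv.mulLeft (1 : G)) = 1
    rw [show Equiv.mulLeft (1 : G) = 1 from by ext; simp, permU_one]
  map_mul' g h := by
    apply Subtype.ext
    change permU (Equiv.mulLeft (g * h)) = permU (Equiv.mulLeft g) * permU (Equiv.mulLeft h)
    rw [← permU_mul]
    congr 1
    ext; simp

/-- The left regular representation `ℂ[G] → N(G)`. -/
noncomputable def lam : MonoidAlgebra ℂ G →ₐ[ℂ] N G := MonoidAlgebra.lift ℂ (N G) G lamG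

/-- the matrix coefficient `T ↦ (T δ_1)(g)`; `N.co T 1` is the trace -/
noncomputable def N.co (T : N G) (g : G) : ℂ := by
  classical exact T.op (dlt 1) g

private theorem c00_co [i : DecidableEq G] (T : N G) (g : G) : T.co g = T.op (dlt 1) g := by
  have h : i = fun a b => Classical.propDecidable (a = b) := Subsingleton.elim _ _
  subst h
  rfl

theorem N.op_dlt [DecidableEq G] (T : N G) (g h : G) : T.op (dlt g) h = T.co (h * g⁻¹) := by
  have hT : T.1 ∈ vN G := T.2
  unfold vN at hT
  rw [StarSubalgebra.mem_centralizer_iff] at hT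
  have h1 := (hT _ ⟨g, rfl⟩).1
  have h2 : (dlt g : l2 G) = permU (Equiv.mulRight g) (dlt 1) := by
    rw [permU_dlt]
    simp
  have h3 : T.op (dlt g) = permU (Equiv.mulRight g) (T.op (dlt 1)) := by
    rw [h2]
    exact (DFunLike.congr_fun (F := l2 G →L[ℂ] l2 G) h1 (dlt 1)).symm
  rw [h3, permU_apply, c00_co]
  congr 1

private theorem c00_star_op (T : N G) : (star T).op = star T.op := rfl

private theorem c00_mul_op (S T : N G) : (S * T).op = S.op * T.op := rfl

private theorem c00_inner [DecidableEq G] (T : N G) (g : G) (ξ : l2 G) :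
    T.op ξ g = @inner ℂ (l2 G) InnerProductSpace.toInner ((star T).op (dlt g)) ξ := by
  rw [← inner_dlt g (T.op ξ), c00_star_op, ContinuousLinearMap.star_eq_adjoint,
    ContinuousLinearMap.adjoint_inner_left]

theorem N.co_star (T : N G) (g : G) : (star T).co g = star (T.co g⁻¹) := by
  classical
  rw [c00_co (star T) g, c00_inner, star_star, ← inner_conj_symm, inner_dlt, N.op_dlt, one_mul]
  rfl

theorem N.summable_co_sq (T : N G) : Summable fun g => ‖T.co g‖ ^ 2 := by
  classical
  have h2 : (0 : ℝ) < (2 : ENNReal).toReal := by norm_num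
  have h := (memℓp_gen_iff h2).1 (l2.memlp (T.op (dlt 1)))
  have h3 : (fun g => ‖T.co g‖ ^ 2) = fun g => ‖T.op (dlt 1) g‖ ^ (2 : ENNReal).toReal := by
    funext g
    rw [c00_co]
    norm_num
  rw [h3]
  exact h

/-- convolution -/
theorem N.hasSum_co_mul (S T : N G) (g : G) :
    HasSum (fun h => S.co (g * h⁻¹) * T.co h) ((S * T).co g) := by
  classical
  have h1 : (S * T).co g =
      @inner ℂ (l2 G) InnerProductSpace.toInner ((star S).op (dlt g)) (T.op (dlt 1)) := by
    rw [c00_co, c00_mul_op, mul_apply_eq_comp, c00_inner]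
  rw [h1]
  have h2 := l2.hasSum_inner ((star S).op (dlt g)) (T.op (dlt 1))
  have h3 : (fun h => S.co (g * h⁻¹) * T.co h) =
      fun i => @inner ℂ ℂ InnerProductSpace.toInner ((star S).op (dlt g) i) (T.op (dlt 1) i) := by
    funext h
    rw [N.op_dlt, N.co_star, ← c00_co T h, RCLike.inner_apply, mul_inv_rev, inv_inv, mul_comm]
    simp
  rw [h3]
  exact h2

theorem N.co_mul_comm (S T : N G) : (S * T).co 1 = (T * S).co 1 := by
  have h1 := N.hasSum_co_mul S T 1
  have h2 := N.hasSum_co_mul T S 1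
  rw [← (Equiv.inv G).hasSum_iff] at h2
  refine h1.unique ?_
  convert h2 using 2 with h
  simp [mul_comm]

theorem N.hasSum_co_star_mul (S T : N G) :
    HasSum (fun g => star (S.co g) * T.co g) ((star S * T).co 1) := by
  have h1 := N.hasSum_co_mul (star S) T 1
  convert h1 using 2 with g
  rw [N.co_star]
  simp

private theorem c00_re (T : N G) : HasSum (fun g => ‖T.co g‖ ^ 2) ((star T * T).co 1).re := by
  have h1 := Complex.hasSum_re (N.hasSum_co_star_mul T T)
  convert h1 using 2 with g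
  have h2 : star (T.co g) * T.co g = ((‖T.co g‖ ^ 2 : ℝ) : ℂ) := by
    have := Complex.conj_mul' (T.co g)
    rw [Complex.star_def, this]
    norm_cast
  rw [h2, Complex.ofReal_re]

theorem N.co_nonneg (T : N G) : 0 ≤ ((star T * T).co 1).re :=
  (c00_re T).nonneg fun g => by positivity

theorem N.ext_co {S T : N G} (h : ∀ g, S.co g = T.co g) : S = T := by
  classical
  apply Subtype.ext
  change S.op = T.op
  ext ξ g
  rw [c00_inner, c00_inner]
  congr 1
  ext k
  rw [N.op_dlt, N.op_dlt, N.co_star, N.co_star, h]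

theorem N.co_add (S T : N G) (g : G) : (S + T).co g = S.co g + T.co g := rfl

theorem N.co_smul (c : ℂ) (T : N G) (g : G) : (c • T).co g = c * T.co g := rfl

theorem N.norm_co_le (T : N G) (g : G) : ‖T.co g‖ ≤ ‖T‖ := by
  classical
  rw [c00_co]
  have h1 : ‖T.op (dlt 1) g‖ ≤ ‖T.op (dlt 1)‖ := l2.norm_apply_le _ _
  have h2 : ‖T.op (dlt 1)‖ ≤ ‖T.op‖ * ‖(dlt 1 : l2 G)‖ := T.op.le_opNorm _
  have h3 : ‖(dlt 1 : l2 G)‖ = 1 := by
    refine (lp.norm_single (E := fun _ : G => ℂ) (by norm_num) (1 : G) (1 : ℂ)).trans ?_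
    simp
  rw [h3, mul_one] at h2
  exact h1.trans h2

/-- The coefficient map `T ↦ (T δ_1)(g)` as a continuous linear functional. -/
noncomputable def coL (g : G) : N G →L[ℂ] ℂ :=
  LinearMap.mkContinuous
    { toFun := fun T => T.co g
      map_add' := fun S T => N.co_add S T g
      map_smul' := fun c T => N.co_smul c T g } 1 (fun T => by
    rw [one_mul]; exact N.norm_co_le T g)

/-- The canonical trace `T ↦ ⟨T δ_1, δ_1⟩ = (T δ_1)(1)` of the group von Neumann algebra. -/
noncomputable def trN (G : Type*) [Group G] : Tr (N G) where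
  f := coL (1 : G)
  comm x y := N.co_mul_comm x y
  star_map x := by
    change (star x).co 1 = star (x.co 1)
    rw [N.co_star, inv_one]
  nonneg x := N.co_nonneg x

theorem trN_apply (T : N G) : (trN G).f T = T.co 1 := rfl

theorem trN_one : (trN G).f 1 = 1 := by
  classical
  rw [trN_apply, c00_co]
  change (dlt 1 : l2 G) 1 = 1
  rw [dlt_apply, if_pos rfl]

theorem trN_mass : (trN G).mass = 1 := by
  unfold Tr.mass
  rw [trN_one, Complex.one_re]

/-- the trace is faithful -/
theorem trN_faithful (x : N G) (h : (trN G).f (star x * x) = 0) : x = 0 := by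
  apply N.ext_co
  intro g
  have h1 := c00_re x
  rw [trN_apply] at h
  rw [h, Complex.zero_re] at h1
  have h2 := (hasSum_zero_iff_of_nonneg (fun g => by positivity)).1 h1
  have h3 : ‖x.co g‖ ^ 2 = 0 := congrFun h2 g
  have h4 : x.co g = 0 := by simpa using h3
  rw [h4]
  rfl

end LT
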