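import Pool.Agent.H29.LT.Mat
import Pool.Agent.H29.LT.A02

/-!
# LT-M01: order facts for matrices over `𝔄`

* `PM_conjTranspose_mul_self` (rectangular `y : Matrix κ ι 𝔄`): `yᴴ y = Σ_k R_kᴴ R_k` where (for
  nonempty `ι`, `i₀ : ι`) `R_k : Matrix ι ι 𝔄` has the `k`-th row of `y` in row `i₀` and zeros
  elsewhere; each `star (toC R_k) * toC R_k ≥ 0`.
* `PM_conj`: `H = zᴴ z` with `z : Matrix ι ι 𝔄` (`CStarAlgebra.nonneg_iff_eq_star_mul_self`), so
  `xᴴ H x = (z x)ᴴ (z x)`.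
* the rest: order of the C*-algebra `CStarMatrix ι ι 𝔄` (`CFC` API, `IsStrictlyPositive.of_le`,
  `IsStrictlyPositive.add_nonneg`, norm bounds `H ≤ ‖H‖`).
-/

set_option linter.unusedSectionVars false

namespace LT

open scoped Matrix ComplexOrder

variable {𝔄 : Type*} [CStarAlgebra 𝔄] [PartialOrder 𝔄] [StarOrderedRing 𝔄] (τ : Tr 𝔄)
variable {ι κ μ : Type*} [Fintype ι] [DecidableEq ι] [Fintype κ] [DecidableEq κ]
  [Fintype μ] [DecidableEq μ]

theorem LeM_iff {H K : Matrix ι ι 𝔄} : LeM H K ↔ PM (K - H) := by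
  unfold LeM PM
  rw [toC_sub]
  exact sub_nonneg.symm

theorem LeM.refl (H : Matrix ι ι 𝔄) : LeM H H := le_refl (toC H)

theorem LeM.trans {H K J : Matrix ι ι 𝔄} (h : LeM H K) (h' : LeM K J) : LeM H J :=
  le_trans (a := toC H) h h'

theorem LeM.add {H K H' K' : Matrix ι ι 𝔄} (h : LeM H K) (h' : LeM H' K') :
    LeM (H + H') (K + K') := by
  unfold LeM at *
  rw [toC_add, toC_add]
  exact add_le_add h h'

theorem PM.add {H K : Matrix ι ι 𝔄} (h : PM H) (h' : PM K) : PM (H + K) := by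
  unfold PM at *
  rw [toC_add]
  exact add_nonneg h h'

theorem PM.isHermitian {H : Matrix ι ι 𝔄} (h : PM H) : Hᴴ = H := by
  have h1 : IsSelfAdjoint (toC H) := IsSelfAdjoint.of_nonneg h
  exact h1

private theorem m01_sqrt {A : Type*} [CStarAlgebra A] [PartialOrder A] [StarOrderedRing A] {a : A}
    (h : 0 ≤ a) : ∃ b, a = star b * b :=
  CStarAlgebra.nonneg_iff_eq_star_mul_self.1 h

private theorem m01_eps {A : Type*} [CStarAlgebra A] [PartialOrder A] [StarOrderedRing A] {a : A}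
    (h : IsStrictlyPositive a) : ∃ r : ℝ, 0 < r ∧ algebraMap ℝ A r ≤ a := by
  by_cases! hn : Nontrivial A
  · obtain ⟨r, hr, hle⟩ := (CFC.exists_pos_algebraMap_le_iff (a := a)
      h.isSelfAdjoint).2 (fun x hx => h.spectrum_pos hx)
    exact ⟨r, hr, hle⟩
  · exact ⟨1, one_pos, le_of_eq (Subsingleton.elim _ _)⟩

private theorem m01_zero : PM (0 : Matrix ι ι 𝔄) := le_refl (0 : CStarMatrix ι ι 𝔄)

private theorem m01_sum {κ : Type*} (s : Finset κ) (f : κ → Matrix ι ι 𝔄)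
    (h : ∀ i ∈ s, PM (f i)) : PM (∑ i ∈ s, f i) := by
  classical
  induction s using Finset.induction_on with
  | empty => rw [Finset.sum_empty]; exact m01_zero
  | insert a s ha ih =>
    rw [Finset.sum_insert ha]
    exact PM.add (h a (Finset.mem_insert_self _ _))
      (ih fun i hi => h i (Finset.mem_insert_of_mem hi))

private theorem m01_sq (R : Matrix ι ι 𝔄) : PM (Rᴴ * R) := by
  have : 0 ≤ star (toC R) * toC R := star_mul_self_nonneg _
  exact this

theorem PM_conjTranspose_mul_self (y : Matrix κ ι 𝔄) : PM (yᴴ * y) := by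
  rcases isEmpty_or_nonempty ι with hι | ⟨⟨i₀⟩⟩
  · have h : yᴴ * y = 0 := Matrix.ext fun i _ => hι.elim i
    rw [h]
    exact m01_zero
  · have h : yᴴ * y = ∑ k, (Matrix.of fun i j => if i = i₀ then y k j else 0 : Matrix ι ι 𝔄)ᴴ *
        (Matrix.of fun i j => if i = i₀ then y k j else 0 : Matrix ι ι 𝔄) := by
      ext a b
      rw [Matrix.mul_apply, Matrix.sum_apply]
      refine Finset.sum_congr rfl fun k _ => ?_
      rw [Matrix.mul_apply, Finset.sum_eq_single i₀]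
      · simp [Matrix.conjTranspose_apply]
      · intro c _ hc
        simp [hc]
      · intro hc
        exact absurd (Finset.mem_univ _) hc
    rw [h]
    exact m01_sum _ _ fun k _ => m01_sq _

theorem PM_conj {H : Matrix ι ι 𝔄} (h : PM H) (x : Matrix ι κ 𝔄) : PM (xᴴ * H * x) := by
  obtain ⟨z, hz⟩ := m01_sqrt (show 0 ≤ toC H from h)
  let z' : Matrix ι ι 𝔄 := z
  have hz' : H = z'ᴴ * z' := hz
  have h1 : xᴴ * H * x = (z' * x)ᴴ * (z' * x) := by
    rw [hz', Matrix.conjTranspose_mul]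
    simp only [Matrix.mul_assoc]
  rw [h1]
  exact PM_conjTranspose_mul_self _

theorem LeM_conj {H K : Matrix ι ι 𝔄} (h : LeM H K) (x : Matrix ι κ 𝔄) :
    LeM (xᴴ * H * x) (xᴴ * K * x) := by
  rw [LeM_iff] at h ⊢
  have h1 : xᴴ * K * x - xᴴ * H * x = xᴴ * (K - H) * x := by
    rw [Matrix.mul_sub, Matrix.sub_mul]
  rw [h1]
  exact PM_conj h x

theorem SPM_add_eI {H : Matrix ι ι 𝔄} (h : PM H) {ε : ℝ} (hε : 0 < ε) : SPM (H + eI 𝔄 ι ε) := by
  unfold SPM
  rw [toC_add, toC_eI]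
  exact IsStrictlyPositive.nonneg_add h (isStrictlyPositive_algebraMap hε)

theorem SPM.of_le {H K : Matrix ι ι 𝔄} (h : SPM H) (h' : LeM H K) : SPM K :=
  IsStrictlyPositive.of_le (A := CStarMatrix ι ι 𝔄) h h'

theorem SPM.toPM {H : Matrix ι ι 𝔄} (h : SPM H) : PM H :=
  IsStrictlyPositive.nonneg (A := CStarMatrix ι ι 𝔄) h

theorem SPM.isUnit {H : Matrix ι ι 𝔄} (h : SPM H) : IsUnit H := by
  have h1 : IsUnit (toC H) := IsStrictlyPositive.isUnit (A := CStarMatrix ι ι 𝔄) h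
  exact h1

/-- a strictly positive matrix is `≥ ε` for some `ε > 0` -/
theorem SPM.exists_eps {H : Matrix ι ι 𝔄} (h : SPM H) : ∃ ε : ℝ, 0 < ε ∧ LeM (eI 𝔄 ι ε) H := by
  obtain ⟨r, hr, hle⟩ := m01_eps (show IsStrictlyPositive (toC H) from h)
  exact ⟨r, hr, hle⟩

/-- every positive matrix is bounded by a multiple of the identity -/
theorem exists_le_eI {H : Matrix ι ι 𝔄} (h : PM H) : ∃ M : ℝ, 0 < M ∧ LeM H (eI 𝔄 ι M) := by
  have h0 : IsSelfAdjoint (toC H) := IsSelfAdjoint.of_nonneg h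
  have h1 : toC H ≤ algebraMap ℝ (CStarMatrix ι ι 𝔄) ‖toC H‖ := h0.le_algebraMap_norm_self
  refine ⟨‖toC H‖ + 1, by positivity, ?_⟩
  unfold LeM
  rw [toC_eI, map_add]
  have h2 : (0 : CStarMatrix ι ι 𝔄) ≤ algebraMap ℝ (CStarMatrix ι ι 𝔄) 1 := by
    rw [map_one]; exact zero_le_one
  exact h1.trans (le_add_of_nonneg_right h2)

theorem SPM_conj {H : Matrix ι ι 𝔄} (h : SPM H) {x : Matrix ι ι 𝔄} (hx : IsUnit x) :
    SPM (xᴴ * H * x) := by
  have hx' : IsUnit (toC x) := hx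
  exact (hx'.isStrictlyPositive_star_left_conjugate_iff (a := toC H)).2 h

theorem LM_mono {H K : Matrix ι ι 𝔄} (hH : SPM H) (h : LeM H K) : LM τ H ≤ LM τ K :=
  L_mono (τ.mat ι) hH h

end LT
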