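import Pool.Agent.H29.LT.C01
import Pool.Agent.H29.LT.M02
import Pool.Agent.H29.LT.M01
import Pool.Agent.H29.LT.A06
import Pool.Agent.H29.LT.A07

/-!
# LT-C02: lower bounds `LB x c` for matrices over the group ring, unimodular matrices

`LB x c` : `c ≤ L(x* x + ε)` for all `ε > 0`.   `Uni x` : `x` invertible over `ℂ[G]` and
`D (lamM x) = 0`.

* `LG_mapM`: `L_moments` for `H = (lamM x)ᴴ lamM x = lamM (adjM x * x)` and the same in `K`; the
  traces of the powers agree (`lamM_pow`, `mapM_mul`, `adjM_mapM`, `tr_lamM_mapM`), and both masses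
  are `card ι`.
* `LB.mul_uni`: `L_conj_ge` with `G₁ = lamM P`, `G₂ = lamM Q` (`D = 0`): for `ε > 0`,
  `LG (P x Q) ε ≥ LG x (k ε) ≥ c`.
* `LB_fromBlocks_one`: `LG (fromBlocks x 0 0 1) ε = LG x ε + card κ * log (1+ε)`
  (`LM_fromBlocks_diag`, `L_algebraMap`); one direction is clear as `log (1+ε) ≥ 0`; for the other
  one use `LG x ε ≥ LG x ε' ≥ c - card κ * log (1+ε')` for `ε' ≤ ε` and let `ε' → 0`.
* `Uni_one_add_strict`: `X i j ≠ 0 → r i < r j`.  Then `X^m = 0` for large `m` and all powers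
  `X^(k+1)` have zero diagonal (`(X^(k+1)) i j ≠ 0 → r i < r j`); `1 + X` is invertible over the
  group ring (finite geometric series) and `D = 0` by `D_one_add_eq_zero` (`q = 1/2`, `C` large).
* `Uni_diagonal`: the diagonal matrix with entries `g_i` is unitary (`D_unitary`).
* `Uni_perm`: permutation matrices are unitary.
* `LB_reindex`: independent reindexing of rows and columns `x' i j = x (e i) (f j)`: then
  `(lamM x')ᴴ (lamM x')` is `reindex` of `(lamM x)ᴴ (lamM x)` by `f` (`DM_reindex`/`L_map` with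
  `CStarMatrix.reindexₐ`).
-/

set_option linter.unusedSectionVars false

namespace LT

open scoped Matrix

variable {G : Type*} [Group G] {K : Type*} [Group K]
variable {ι κ : Type*} [Fintype ι] [DecidableEq ι] [Fintype κ] [DecidableEq κ]

/-- `c` is a lower bound of `L (x* x + ε)`, `ε > 0` -/
def LB (x : Matrix ι ι (MonoidAlgebra ℂ G)) (c : ℝ) : Prop := ∀ ε : ℝ, 0 < ε → c ≤ LG x ε

/-- unimodular: invertible over the group ring with `D = 0` -/
def Uni (x : Matrix ι ι (MonoidAlgebra ℂ G)) : Prop := IsUnit x ∧ DM (trN G) (lamM x) = 0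

/-! ### helpers over a general tracial C*-algebra -/

section generic

variable {𝔄 : Type*} [CStarAlgebra 𝔄] [PartialOrder 𝔄] [StarOrderedRing 𝔄] (τ : Tr 𝔄)

theorem c02_toC_pow (H : Matrix ι ι 𝔄) (k : ℕ) : toC (H ^ k) = toC H ^ k := by
  induction k with
  | zero => rw [pow_zero, pow_zero, toC_one]
  | succ k ih => rw [pow_succ, toC_mul, ih, pow_succ]

theorem c02g_spm (x : Matrix ι ι 𝔄) {ε : ℝ} (hε : 0 < ε) : SPM (xᴴ * x + eI 𝔄 ι ε) :=
  SPM_add_eI (PM_conjTranspose_mul_self _) hε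

theorem c02g_mono (x : Matrix ι ι 𝔄) {ε ε' : ℝ} (hε : 0 < ε) (h : ε ≤ ε') :
    LM τ (xᴴ * x + eI 𝔄 ι ε) ≤ LM τ (xᴴ * x + eI 𝔄 ι ε') := by
  refine L_mono (τ.mat ι) (c02g_spm x hε) ?_
  rw [toC_add, toC_add, toC_eI, toC_eI]
  have h2 : algebraMap ℝ (CStarMatrix ι ι 𝔄) ε ≤ algebraMap ℝ (CStarMatrix ι ι 𝔄) ε' :=
    algebraMap_mono (CStarMatrix ι ι 𝔄) h
  exact add_le_add_right h2 _

theorem c02g_mass : (τ.mat ι).mass = Fintype.card ι * τ.mass := by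
  unfold Tr.mass
  rw [Tr.mat_apply]
  have h : ∀ i : ι, τ.f ((1 : CStarMatrix ι ι 𝔄) i i) = τ.f 1 := by
    intro i
    have h1 : (1 : CStarMatrix ι ι 𝔄) i i = 1 := by
      change (1 : Matrix ι ι 𝔄) i i = 1
      exact Matrix.one_apply_eq i
    rw [h1]
  rw [Finset.sum_congr rfl fun i _ => h i]
  simp

theorem c02g_moments {𝔅 : Type*} [CStarAlgebra 𝔅] [PartialOrder 𝔅] [StarOrderedRing 𝔅]
    (τ' : Tr 𝔅) (x : Matrix ι ι 𝔄) (y : Matrix ι ι 𝔅) (hmass : τ.mass = τ'.mass)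
    (hm : ∀ k : ℕ, 1 ≤ k → ((τ.mat ι).f (toC ((xᴴ * x) ^ k))).re =
      ((τ'.mat ι).f (toC ((yᴴ * y) ^ k))).re) {ε : ℝ} (hε : 0 < ε) :
    LM τ (xᴴ * x + eI 𝔄 ι ε) = LM τ' (yᴴ * y + eI 𝔅 ι ε) := by
  have h := L_moments (τ.mat ι) (τ'.mat ι)
    (H := toC (xᴴ * x)) (K := toC (yᴴ * y)) (PM_conjTranspose_mul_self x)
    (PM_conjTranspose_mul_self y) (fun k hk => by
      have h1 := hm k hk
      rwa [c02_toC_pow, c02_toC_pow] at h1) hε
  rw [c02g_mass, c02g_mass, hmass] at h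
  unfold LM
  rw [toC_add, toC_add, toC_eI, toC_eI]
  exact sub_left_inj.1 h

theorem c02g_nil {X : Matrix ι ι 𝔄} (hu : IsUnit (1 + X)) (n : ℕ)
    (hz : ∀ k, n ≤ k → X ^ k = 0) (ht : ∀ k, (τ.mat ι).f (toC (X ^ (k + 1))) = 0) :
    DM τ (1 + X) = 0 := by
  unfold DM
  rw [toC_add, toC_one]
  have hu' : IsUnit (1 + toC X) := by
    have h1 := M2_unit hu
    rwa [toC_add, toC_one] at h1
  have hn2 : ∀ k, 0 ≤ n2 (τ.mat ι) (toC X ^ k) := fun k => n2_nonneg _ _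
  refine D_one_add_eq_zero (τ.mat ι) hu' (q := 1 / 2)
    (C := ∑ k ∈ Finset.range n, n2 (τ.mat ι) (toC X ^ k) * 2 ^ k)
    (by norm_num) (by norm_num) ?_ ?_
  · intro k
    by_cases hk : n ≤ k
    · rw [← c02_toC_pow, hz k hk, toC_zero]
      have h1 : n2 (τ.mat ι) (0 : CStarMatrix ι ι 𝔄) = 0 := by
        unfold n2
        rw [mul_zero, map_zero, Complex.zero_re, Real.sqrt_zero]
      rw [h1]
      exact mul_nonneg (Finset.sum_nonneg fun k _ => mul_nonneg (hn2 k) (by positivity))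
        (by positivity)
    · have h1 : n2 (τ.mat ι) (toC X ^ k) * 2 ^ k ≤
          ∑ k ∈ Finset.range n, n2 (τ.mat ι) (toC X ^ k) * 2 ^ k :=
        Finset.single_le_sum (f := fun k => n2 (τ.mat ι) (toC X ^ k) * 2 ^ k)
          (fun k _ => mul_nonneg (hn2 k) (by positivity)) (Finset.mem_range.2 (by omega))
      have h2 : n2 (τ.mat ι) (toC X ^ k) * 2 ^ k * (1 / 2) ^ k =
          n2 (τ.mat ι) (toC X ^ k) := by
        rw [mul_assoc, ← mul_pow]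
        norm_num
      rw [← h2]
      exact mul_le_mul_of_nonneg_right h1 (by positivity)
  · intro k
    rw [← c02_toC_pow]
    exact ht k

theorem c02g_conj {P Q : Matrix ι ι 𝔄} (hP : IsUnit P) (hQ : IsUnit Q) :
    ∃ k : ℝ, 0 < k ∧ ∀ (y : Matrix ι ι 𝔄) (ε : ℝ), 0 < ε →
      2 * DM τ P + 2 * DM τ Q + LM τ (yᴴ * y + eI 𝔄 ι (k * ε)) ≤
        LM τ ((P * y * Q)ᴴ * (P * y * Q) + eI 𝔄 ι ε) := by
  obtain ⟨k, hk, h⟩ := L_conj_ge (τ.mat ι) (M2_unit hP) (M2_unit hQ)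
  exact ⟨k, hk, fun y ε hε => h (toC y) ε hε⟩

theorem c02g_eI (r : ℝ) : LM τ (eI 𝔄 ι r) = Fintype.card ι * τ.mass * Real.log r := by
  rw [← c02g_mass]
  exact L_algebraMap (τ.mat ι) r

theorem c02g_one {ε : ℝ} : LM τ ((1 : Matrix ι ι 𝔄)ᴴ * 1 + eI 𝔄 ι ε) =
    Fintype.card ι * τ.mass * Real.log (1 + ε) := by
  rw [← c02g_eI, Matrix.conjTranspose_one, one_mul]
  unfold eI
  rw [map_add, map_one]

theorem c02g_blocks (x : Matrix ι ι 𝔄) (y : Matrix κ κ 𝔄) {ε : ℝ} (hε : 0 < ε) :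
    LM τ ((Matrix.fromBlocks x 0 0 y)ᴴ * Matrix.fromBlocks x 0 0 y + eI 𝔄 (ι ⊕ κ) ε) =
      LM τ (xᴴ * x + eI 𝔄 ι ε) + LM τ (yᴴ * y + eI 𝔄 κ ε) := by
  rw [← LM_fromBlocks_diag τ (c02g_spm x hε) (c02g_spm y hε),
    Matrix.fromBlocks_conjTranspose, Matrix.fromBlocks_multiply]
  have h1 : eI 𝔄 (ι ⊕ κ) ε = Matrix.fromBlocks (eI 𝔄 ι ε) 0 0 (eI 𝔄 κ ε) := by
    unfold eI
    ext i j
    rcases i with i | i <;> rcases j with j | j <;>
      simp [Matrix.algebraMap_matrix_apply]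
  rw [h1, Matrix.fromBlocks_add]
  congr 2 <;> simp

theorem c02g_reindex (e f : κ ≃ ι) (x : Matrix ι ι 𝔄) {ε : ℝ} (hε : 0 < ε) :
    LM τ ((x.submatrix e f)ᴴ * x.submatrix e f + eI 𝔄 κ ε) = LM τ (xᴴ * x + eI 𝔄 ι ε) := by
  have h1 : (x.submatrix e f)ᴴ * x.submatrix e f + eI 𝔄 κ ε =
      Matrix.reindex f.symm f.symm (xᴴ * x + eI 𝔄 ι ε) := by
    have h3 : eI 𝔄 κ ε = (eI 𝔄 ι ε).submatrix f f := by
      unfold eI
      ext i j
      simp [Matrix.algebraMap_matrix_apply]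
    rw [h3, Matrix.conjTranspose_submatrix, Matrix.submatrix_mul_equiv,
      Matrix.reindex_apply]
    rfl
  rw [h1]
  exact L_map (τ.mat ι) (τ.mat κ) (M2re 𝔄 f.symm) (M2re_tr τ f.symm) (c02g_spm x hε)

theorem c02g_neg (x : Matrix ι ι 𝔄) (ε : ℝ) :
    LM τ ((-x)ᴴ * -x + eI 𝔄 ι ε) = LM τ (xᴴ * x + eI 𝔄 ι ε) := by
  rw [Matrix.conjTranspose_neg, neg_mul_neg]

theorem c02g_diag {d : ι → 𝔄} (hd : ∀ i, star (d i) * d i = 1) :
    DM τ (Matrix.diagonal d) = 0 := by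
  refine DM_isometry τ ?_
  rw [Matrix.diagonal_conjTranspose, Matrix.diagonal_mul_diagonal, ← Matrix.diagonal_one]
  congr 1
  funext i
  exact hd i

end generic

/-! ### helpers over the group ring -/

theorem c02_unit {x y : Matrix ι ι (MonoidAlgebra ℂ G)} (h : x * y = 1) :
    lamM x * lamM y = 1 := by
  rw [← lamM_mul, h, lamM_one]

theorem c02_isUnit {x : Matrix ι ι (MonoidAlgebra ℂ G)} (h : IsUnit x) : IsUnit (lamM x) := by
  obtain ⟨u, rfl⟩ := h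
  exact M2_unit' (c02_unit u.mul_inv) (c02_unit u.inv_mul)

theorem c02_mapM_pow (φ : G →* K) (x : Matrix ι ι (MonoidAlgebra ℂ G)) (k : ℕ) :
    mapM φ (x ^ (k + 1)) = mapM φ x ^ (k + 1) := by
  induction k with
  | zero => rw [zero_add, pow_one, pow_one]
  | succ k ih => rw [pow_succ x, mapM_mul, ih, ← pow_succ]

theorem c02_gram (x : Matrix ι ι (MonoidAlgebra ℂ G)) (k : ℕ) :
    ((lamM x)ᴴ * lamM x) ^ k = lamM ((adjM x * x) ^ k) := by
  rw [lamM_pow, lamM_mul, lamM_adjM]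

theorem LG_mono (x : Matrix ι ι (MonoidAlgebra ℂ G)) {ε ε' : ℝ} (hε : 0 < ε) (h : ε ≤ ε') :
    LG x ε ≤ LG x ε' := c02g_mono (trN G) (lamM x) hε h

theorem LG_mapM (φ : G →* K) (hφ : Function.Injective φ) (x : Matrix ι ι (MonoidAlgebra ℂ G))
    {ε : ℝ} (hε : 0 < ε) : LG (mapM φ x) ε = LG x ε := by
  refine c02g_moments (trN K) (trN G) (lamM (mapM φ x)) (lamM x) ?_ ?_ hε
  · rw [trN_mass, trN_mass]
  · intro k hk
    obtain ⟨m, rfl⟩ : ∃ m, k = m + 1 := ⟨k - 1, by omega⟩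
    rw [c02_gram, c02_gram, adjM_mapM, ← mapM_mul, ← c02_mapM_pow, tr_lamM_mapM φ hφ]

theorem LB_mapM (φ : G →* K) (hφ : Function.Injective φ) {x : Matrix ι ι (MonoidAlgebra ℂ G)}
    {c : ℝ} (h : LB x c) : LB (mapM φ x) c := by
  intro ε hε
  rw [LG_mapM φ hφ x hε]
  exact h ε hε

theorem Uni_one : Uni (1 : Matrix ι ι (MonoidAlgebra ℂ G)) := by
  refine ⟨isUnit_one, ?_⟩
  rw [lamM_one, DM_one]

theorem Uni.mul {x y : Matrix ι ι (MonoidAlgebra ℂ G)} (hx : Uni x) (hy : Uni y) :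
    Uni (x * y) := by
  refine ⟨hx.1.mul hy.1, ?_⟩
  rw [lamM_mul, DM_mul _ (c02_isUnit hx.1) (c02_isUnit hy.1), hx.2, hy.2, add_zero]

theorem Uni.neg {x : Matrix ι ι (MonoidAlgebra ℂ G)} (hx : Uni x) : Uni (-x) := by
  refine ⟨hx.1.neg, ?_⟩
  rw [lamM_neg, DM_neg, hx.2]

theorem Uni.inv {x y : Matrix ι ι (MonoidAlgebra ℂ G)} (hx : Uni x) (h1 : x * y = 1)
    (h2 : y * x = 1) : Uni y := by
  refine ⟨⟨⟨y, x, h2, h1⟩, rfl⟩, ?_⟩
  rw [DM_inv (trN G) (c02_unit h1) (c02_unit h2), hx.2, neg_zero]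

theorem c02_zero : lamM (0 : Matrix ι κ (MonoidAlgebra ℂ G)) = 0 := by
  unfold lamM
  ext i j
  rw [Matrix.map_apply, Matrix.zero_apply, map_zero, Matrix.zero_apply]

theorem c02_blocks (a : Matrix ι ι (MonoidAlgebra ℂ G)) (b : Matrix ι κ (MonoidAlgebra ℂ G))
    (c : Matrix κ ι (MonoidAlgebra ℂ G)) (d : Matrix κ κ (MonoidAlgebra ℂ G)) :
    lamM (Matrix.fromBlocks a b c d) = Matrix.fromBlocks (lamM a) (lamM b) (lamM c) (lamM d) := by
  unfold lamM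
  exact Matrix.fromBlocks_map a b c d lam

theorem c02_e12 {R : Type*} [Ring R] (b : Matrix ι κ R) :
    Matrix.fromBlocks (1 : Matrix ι ι R) b 0 (1 : Matrix κ κ R) *
      Matrix.fromBlocks (1 : Matrix ι ι R) (-b) 0 (1 : Matrix κ κ R) = 1 := by
  rw [Matrix.fromBlocks_multiply, ← Matrix.fromBlocks_one]
  congr 1 <;> simp

theorem c02_e21 {R : Type*} [Ring R] (c : Matrix κ ι R) :
    Matrix.fromBlocks (1 : Matrix ι ι R) 0 c (1 : Matrix κ κ R) *
      Matrix.fromBlocks (1 : Matrix ι ι R) 0 (-c) (1 : Matrix κ κ R) = 1 := by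
  rw [Matrix.fromBlocks_multiply, ← Matrix.fromBlocks_one]
  congr 1 <;> simp

theorem Uni_unip₁₂ (b : Matrix ι κ (MonoidAlgebra ℂ G)) :
    Uni (Matrix.fromBlocks (1 : Matrix ι ι (MonoidAlgebra ℂ G)) b 0
      (1 : Matrix κ κ (MonoidAlgebra ℂ G))) := by
  have h1 := c02_e12 b
  have h2 := c02_e12 (-b)
  rw [neg_neg] at h2
  refine ⟨⟨⟨_, _, h1, h2⟩, rfl⟩, ?_⟩
  rw [c02_blocks, lamM_one, lamM_one, c02_zero, DM_unip₁₂]

theorem Uni_unip₂₁ (c : Matrix κ ι (MonoidAlgebra ℂ G)) :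
    Uni (Matrix.fromBlocks (1 : Matrix ι ι (MonoidAlgebra ℂ G)) 0 c
      (1 : Matrix κ κ (MonoidAlgebra ℂ G))) := by
  have h1 := c02_e21 c
  have h2 := c02_e21 (-c)
  rw [neg_neg] at h2
  refine ⟨⟨⟨_, _, h1, h2⟩, rfl⟩, ?_⟩
  rw [c02_blocks, lamM_one, lamM_one, c02_zero, DM_unip₂₁]

theorem c02_blk_unit {R : Type*} [Ring R] {x : Matrix ι ι R} {y : Matrix κ κ R} (hx : IsUnit x)
    (hy : IsUnit y) : IsUnit (Matrix.fromBlocks x 0 0 y) := by
  obtain ⟨u, rfl⟩ := hx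
  obtain ⟨v, rfl⟩ := hy
  refine ⟨⟨Matrix.fromBlocks (u : Matrix ι ι R) 0 0 (v : Matrix κ κ R),
    Matrix.fromBlocks (↑u⁻¹ : Matrix ι ι R) 0 0 (↑v⁻¹ : Matrix κ κ R), ?_, ?_⟩, rfl⟩
  · rw [Matrix.fromBlocks_multiply, ← Matrix.fromBlocks_one]
    congr 1 <;> simp
  · rw [Matrix.fromBlocks_multiply, ← Matrix.fromBlocks_one]
    congr 1 <;> simp

theorem Uni.fromBlocks {x : Matrix ι ι (MonoidAlgebra ℂ G)} {y : Matrix κ κ (MonoidAlgebra ℂ G)}
    (hx : Uni x) (hy : Uni y) : Uni (Matrix.fromBlocks x 0 0 y) := by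
  refine ⟨c02_blk_unit hx.1 hy.1, ?_⟩
  rw [c02_blocks, c02_zero, c02_zero,
    DM_fromBlocks_diag (trN G) (c02_isUnit hx.1) (c02_isUnit hy.1), hx.2, hy.2, add_zero]

theorem c02_strict_pow {X : Matrix ι ι (MonoidAlgebra ℂ G)} (r : ι → ℕ)
    (h : ∀ i j, X i j ≠ 0 → r i < r j) (k : ℕ) :
    ∀ i j, (X ^ k) i j ≠ 0 → r i + k ≤ r j := by
  induction k with
  | zero =>
    intro i j hij
    rw [pow_zero] at hij
    by_cases e : i = j
    · rw [e]
      omega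
    · exact absurd (Matrix.one_apply_ne e) hij
  | succ k ih =>
    intro i j hij
    rw [pow_succ, Matrix.mul_apply] at hij
    obtain ⟨l, -, hl⟩ := Finset.exists_ne_zero_of_sum_ne_zero hij
    have h1 : (X ^ k) i l ≠ 0 := fun e => hl (by rw [e, zero_mul])
    have h2 : X l j ≠ 0 := fun e => hl (by rw [e, mul_zero])
    have h3 := ih i l h1
    have h4 := h l j h2
    omega

theorem Uni_one_add_strict {X : Matrix ι ι (MonoidAlgebra ℂ G)} (r : ι → ℕ)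
    (h : ∀ i j, X i j ≠ 0 → r i < r j) : Uni (1 + X) := by
  have hz : ∀ k, (∑ i, r i) + 1 ≤ k → X ^ k = 0 := by
    intro k hk
    ext1 i j
    rw [Matrix.zero_apply]
    by_contra hne
    have h1 := c02_strict_pow r h k i j hne
    have h2 : r j ≤ ∑ i, r i :=
      Finset.single_le_sum (f := r) (fun _ _ => Nat.zero_le _) (Finset.mem_univ j)
    omega
  have hnil : IsNilpotent X := ⟨_, hz _ le_rfl⟩
  have hu : IsUnit (1 + X) := hnil.isUnit_one_add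
  refine ⟨hu, ?_⟩
  have hu' := c02_isUnit hu
  rw [lamM_add, lamM_one] at hu' ⊢
  refine c02g_nil (trN G) hu' ((∑ i, r i) + 1) ?_ ?_
  · intro k hk
    rw [← lamM_pow, hz k hk, c02_zero]
  · intro k
    rw [← lamM_pow, tr_lamM]
    refine Finset.sum_eq_zero fun i _ => ?_
    have h1 : (X ^ (k + 1)) i i = 0 := by
      by_contra hne
      have := c02_strict_pow r h (k + 1) i i hne
      omega
    rw [h1]
    rfl

theorem Uni_one_add_strict' {X : Matrix ι ι (MonoidAlgebra ℂ G)} (r : ι → ℕ)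
    (h : ∀ i j, X i j ≠ 0 → r j < r i) : Uni (1 + X) := by
  refine Uni_one_add_strict (fun i => (∑ i, r i) - r i) ?_
  intro i j hij
  have h1 := h i j hij
  have h2 : r i ≤ ∑ i, r i :=
    Finset.single_le_sum (f := r) (fun _ _ => Nat.zero_le _) (Finset.mem_univ i)
  change (∑ i, r i) - r i < (∑ i, r i) - r j
  omega

theorem c02_diag (d : ι → MonoidAlgebra ℂ G) :
    lamM (Matrix.diagonal d) = Matrix.diagonal fun i => lam (d i) := by
  unfold lamM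
  rw [Matrix.diagonal_map (map_zero _)]

theorem c02_single_mul (g : G) :
    MonoidAlgebra.single g (1 : ℂ) * MonoidAlgebra.single g⁻¹ (1 : ℂ) = 1 := by
  rw [MonoidAlgebra.single_mul_single, mul_inv_cancel, mul_one]
  rfl

theorem Uni_diagonal (g : ι → G) :
    Uni (Matrix.diagonal fun i => MonoidAlgebra.single (g i) (1 : ℂ)) := by
  refine ⟨⟨⟨Matrix.diagonal fun i => MonoidAlgebra.single (g i) (1 : ℂ),
    Matrix.diagonal fun i => MonoidAlgebra.single (g i)⁻¹ (1 : ℂ), ?_, ?_⟩, rfl⟩, ?_⟩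
  · rw [Matrix.diagonal_mul_diagonal, ← Matrix.diagonal_one]
    congr 1
    funext i
    exact c02_single_mul (g i)
  · rw [Matrix.diagonal_mul_diagonal, ← Matrix.diagonal_one]
    congr 1
    funext i
    have h1 := c02_single_mul (g i)⁻¹
    rwa [inv_inv] at h1
  · rw [c02_diag]
    refine c02g_diag (trN G) fun i => ?_
    rw [lam_single, one_smul]
    exact lamG_star_mul (g i)

theorem LB.mul_uni {x P Q : Matrix ι ι (MonoidAlgebra ℂ G)} {c : ℝ} (h : LB x c) (hP : Uni P)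
    (hQ : Uni Q) : LB (P * x * Q) c := by
  obtain ⟨k, hk, hk'⟩ := c02g_conj (trN G) (c02_isUnit hP.1) (c02_isUnit hQ.1)
  intro ε hε
  have h1 := hk' (lamM x) ε hε
  have h2 := hP.2
  have h3 := hQ.2
  have h4 : c ≤ LM (trN G) ((lamM x)ᴴ * lamM x + eI (N G) ι (k * ε)) :=
    h (k * ε) (mul_pos hk hε)
  unfold LG
  rw [lamM_mul, lamM_mul]
  linarith

theorem LB_of_mul_uni {x P Q : Matrix ι ι (MonoidAlgebra ℂ G)} {c : ℝ} (h : LB (P * x * Q) c)
    (hP : Uni P) (hQ : Uni Q) : LB x c := by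
  obtain ⟨u, hu⟩ := hP.1
  obtain ⟨v, hv⟩ := hQ.1
  have hP' : Uni (↑u⁻¹ : Matrix ι ι (MonoidAlgebra ℂ G)) :=
    hP.inv (by rw [← hu]; exact u.mul_inv) (by rw [← hu]; exact u.inv_mul)
  have hQ' : Uni (↑v⁻¹ : Matrix ι ι (MonoidAlgebra ℂ G)) :=
    hQ.inv (by rw [← hv]; exact v.mul_inv) (by rw [← hv]; exact v.inv_mul)
  have h1 := h.mul_uni hP' hQ'
  have h2 : (↑u⁻¹ : Matrix ι ι (MonoidAlgebra ℂ G)) * (P * x * Q) *
      (↑v⁻¹ : Matrix ι ι (MonoidAlgebra ℂ G)) = x := by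
    rw [← hu, ← hv, mul_assoc, mul_assoc, mul_assoc, Units.mul_inv, mul_one, ← mul_assoc,
      Units.inv_mul, one_mul]
  rwa [h2] at h1

theorem c02_LG_blocks (x : Matrix ι ι (MonoidAlgebra ℂ G)) (y : Matrix κ κ (MonoidAlgebra ℂ G))
    {ε : ℝ} (hε : 0 < ε) : LG (Matrix.fromBlocks x 0 0 y) ε = LG x ε + LG y ε := by
  unfold LG
  rw [c02_blocks, c02_zero, c02_zero]
  exact c02g_blocks (trN G) (lamM x) (lamM y) hε

theorem c02_LG_one (ε : ℝ) :
    LG (1 : Matrix ι ι (MonoidAlgebra ℂ G)) ε = Fintype.card ι * Real.log (1 + ε) := by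
  unfold LG
  rw [lamM_one]
  refine (c02g_one (trN G)).trans ?_
  rw [trN_mass, mul_one]

theorem c02_real {f : ℝ → ℝ} (hf : ∀ ε ε', 0 < ε → ε ≤ ε' → f ε ≤ f ε') (n : ℕ) (c : ℝ) :
    (∀ ε : ℝ, 0 < ε → c ≤ f ε + n * Real.log (1 + ε)) ↔ ∀ ε : ℝ, 0 < ε → c ≤ f ε := by
  constructor
  · intro h ε hε
    by_contra hlt
    push Not at hlt
    obtain ⟨δ, hδ⟩ : ∃ δ, δ = c - f ε := ⟨_, rfl⟩
    have hδ0 : 0 < δ := by rw [hδ]; linarith
    have hn : (0 : ℝ) ≤ n := Nat.cast_nonneg n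
    obtain ⟨ε', hε'⟩ : ∃ ε', ε' = min ε (δ / (2 * (n + 1))) := ⟨_, rfl⟩
    have h0 : 0 < ε' := by
      rw [hε']
      exact lt_min hε (by positivity)
    have h1 : ε' ≤ ε := by rw [hε']; exact min_le_left _ _
    have h2 : ε' ≤ δ / (2 * (n + 1)) := by rw [hε']; exact min_le_right _ _
    have h3 := h ε' h0
    have h4 := hf ε' ε h0 h1
    have h5 : Real.log (1 + ε') ≤ ε' := by
      have := Real.log_le_sub_one_of_pos (show 0 < 1 + ε' by linarith)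
      linarith
    have h6 : (n : ℝ) * Real.log (1 + ε') ≤ n * (δ / (2 * (n + 1))) :=
      mul_le_mul_of_nonneg_left (h5.trans h2) hn
    have h7 : (n : ℝ) * (δ / (2 * (n + 1))) ≤ δ / 2 := by
      rw [mul_div_assoc', div_le_div_iff₀ (by positivity) (by norm_num)]
      nlinarith
    linarith
  · intro h ε hε
    have h1 := h ε hε
    have h2 : 0 ≤ Real.log (1 + ε) := Real.log_nonneg (by linarith)
    have hn : (0 : ℝ) ≤ n := Nat.cast_nonneg n
    have h3 := mul_nonneg hn h2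
    linarith

theorem LB_fromBlocks_one {x : Matrix ι ι (MonoidAlgebra ℂ G)} {c : ℝ} :
    LB (Matrix.fromBlocks x 0 0 (1 : Matrix κ κ (MonoidAlgebra ℂ G))) c ↔ LB x c := by
  have h := c02_real (f := fun ε => LG x ε) (fun ε ε' h h' => LG_mono x h h') (Fintype.card κ) c
  unfold LB
  rw [← h]
  constructor
  · intro h1 ε hε
    have h2 := h1 ε hε
    rwa [c02_LG_blocks x 1 hε, c02_LG_one] at h2
  · intro h1 ε hε
    rw [c02_LG_blocks x 1 hε, c02_LG_one]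
    exact h1 ε hε

theorem LB_one_fromBlocks {x : Matrix κ κ (MonoidAlgebra ℂ G)} {c : ℝ} :
    LB (Matrix.fromBlocks (1 : Matrix ι ι (MonoidAlgebra ℂ G)) 0 0 x) c ↔ LB x c := by
  have h := c02_real (f := fun ε => LG x ε) (fun ε ε' h h' => LG_mono x h h') (Fintype.card ι) c
  unfold LB
  rw [← h]
  constructor
  · intro h1 ε hε
    have h2 := h1 ε hε
    rwa [c02_LG_blocks 1 x hε, c02_LG_one, add_comm] at h2
  · intro h1 ε hε
    rw [c02_LG_blocks 1 x hε, c02_LG_one, add_comm]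
    exact h1 ε hε

theorem LB_reindex (e f : κ ≃ ι) {x : Matrix ι ι (MonoidAlgebra ℂ G)} {c : ℝ} (h : LB x c) :
    LB (x.submatrix e f) c := by
  intro ε hε
  have h1 : LG (x.submatrix e f) ε = LG x ε := c02g_reindex (trN G) e f (lamM x) hε
  rw [h1]
  exact h ε hε

theorem LB_neg {x : Matrix ι ι (MonoidAlgebra ℂ G)} {c : ℝ} (h : LB x c) : LB (-x) c := by
  intro ε hε
  have h1 : LG (-x) ε = LG x ε := by
    unfold LG
    rw [lamM_neg]
    exact c02g_neg (trN G) (lamM x) ε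
  rw [h1]
  exact h ε hε

end LT
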