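import Pool.Agent.H29.LT.C02
import Pool.Agent.H29.LT.A08

/-!
# LT-C03: the leading coefficient inequality over the group ring

`ψ : G →* Multiplicative ℤ`.  For `θ : ℝ` let `V_θ` be the diagonal unitary
`(V_θ ξ)(h) = e^{iθ ψ(h)} ξ(h)` of `ℓ²(G)` (bounded by `1`; `star V_θ = V_{-θ}`), and
`α_θ(T) = V_θ T V_θ*`.  It normalises the right translations: `V_θ permU(mulRight g) V_θ* =
e^{iθ ψ(g)} permU(mulRight g)` (check on basis vectors), so `α_θ` preserves `vN G` (commutation is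
not affected by scalars), it is a star homomorphism `N G → N G`, `α_θ(lamG g) = e^{iθψ(g)} lamG g`,
and it preserves the coefficient at `1`.  Entrywise it gives a star homomorphism of
`CStarMatrix ι ι (N G)` (a `StarAlgHom`, use `CStarMatrix.mapₙₐ` plus unitality) preserving
`(trN G).mat ι`.  Apply `szego` to `x k := toC (lamM (x k))`: if all group elements in the support
of the entries of `x k` have `ψ = k`, then `α_θ (x k) = e^{ikθ} x k`.
-/

set_option linter.unusedSectionVars false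

namespace LT

open scoped Matrix

variable {G : Type*} [Group G]
variable {ι : Type*} [Fintype ι] [DecidableEq ι]

/-- the unimodular character `g ↦ e^{iθψ(g)}` -/
private noncomputable def c03chi (ψ : G →* Multiplicative ℤ) (θ : ℝ) (g : G) : ℂ :=
  Complex.exp (((((ψ g).toAdd : ℤ) : ℝ) * θ : ℝ) * Complex.I)

private theorem c03_norm (ψ : G →* Multiplicative ℤ) (θ : ℝ) (g : G) :
    ‖c03chi ψ θ g‖ = 1 := Complex.norm_exp_ofReal_mul_I _

private theorem c03_mul (ψ : G →* Multiplicative ℤ) (θ : ℝ) (g h : G) :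
    c03chi ψ θ (g * h) = c03chi ψ θ g * c03chi ψ θ h := by
  unfold c03chi
  rw [← Complex.exp_add, map_mul, toAdd_mul]
  congr 1
  push_cast
  ring

private theorem c03_one (ψ : G →* Multiplicative ℤ) (θ : ℝ) : c03chi ψ θ 1 = 1 := by
  unfold c03chi
  rw [map_one, toAdd_one]
  simp

private theorem c03_conj_mul (ψ : G →* Multiplicative ℤ) (θ : ℝ) (g : G) :
    star (c03chi ψ θ g) * c03chi ψ θ g = 1 := by
  rw [Complex.star_def, Complex.conj_mul', c03_norm]
  simp

private theorem c03_memlp (w : G → ℂ) (hw : ∀ g, ‖w g‖ = 1) (ξ : l2 G) :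
    Memℓp (fun h => w h * ξ h) 2 := by
  have h2 : (0 : ℝ) < (2 : ENNReal).toReal := by norm_num
  rw [memℓp_gen_iff h2]
  have := (memℓp_gen_iff h2).1 (lp.memℓp ξ)
  simpa only [norm_mul, hw, one_mul] using this

private noncomputable def c03V (w : G → ℂ) (hw : ∀ g, ‖w g‖ = 1) : l2 G →L[ℂ] l2 G :=
  LinearMap.mkContinuous
    { toFun := fun ξ => l2.mk (fun h => w h * ξ h) (c03_memlp w hw ξ)
      map_add' := fun ξ η => by
        ext h
        exact mul_add (w h) (ξ h) (η h)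
      map_smul' := fun c ξ => by
        ext h
        exact mul_left_comm (w h) c (ξ h) } 1 (by
    intro ξ
    have h2 : (0 : ℝ) < (2 : ENNReal).toReal := by norm_num
    rw [one_mul]
    apply le_of_eq
    rw [l2.norm_eq_tsum, l2.norm_eq_tsum]
    congr 1
    refine tsum_congr fun h => ?_
    change ‖w h * ξ h‖ ^ (2 : ENNReal).toReal = ‖ξ h‖ ^ (2 : ENNReal).toReal
    rw [norm_mul, hw, one_mul])

private theorem c03V_apply (w : G → ℂ) (hw : ∀ g, ‖w g‖ = 1) (ξ : l2 G) (h : G) :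
    c03V w hw ξ h = w h * ξ h := rfl

private theorem c03_star_norm {w : G → ℂ} (hw : ∀ g, ‖w g‖ = 1) (g : G) :
    ‖star (w g)‖ = 1 := by rw [norm_star]; exact hw g

private theorem c03V_star (w : G → ℂ) (hw : ∀ g, ‖w g‖ = 1) :
    star (c03V w hw) = c03V (fun g => star (w g)) (c03_star_norm hw) := by
  rw [ContinuousLinearMap.star_eq_adjoint]
  symm
  rw [ContinuousLinearMap.eq_adjoint_iff]
  intro x y
  rw [l2.inner_eq_tsum, l2.inner_eq_tsum]
  refine tsum_congr fun h => ?_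
  rw [c03V_apply, c03V_apply]
  simp only [RCLike.inner_apply, map_mul, Complex.star_def, Complex.conj_conj]
  ring

section

variable (ψ : G →* Multiplicative ℤ) (θ : ℝ)

private noncomputable def c03U : l2 G →L[ℂ] l2 G := c03V (c03chi ψ θ) (c03_norm ψ θ)

private noncomputable def c03W : l2 G →L[ℂ] l2 G :=
  c03V (fun g => star (c03chi ψ θ g)) (c03_star_norm (c03_norm ψ θ))

private theorem c03_starU : star (c03U ψ θ) = c03W ψ θ := c03V_star _ _

private theorem c03_starW : star (c03W ψ θ) = c03U ψ θ := by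
  rw [← c03_starU, star_star]

private theorem c03_WU : c03W ψ θ * c03U ψ θ = 1 := by
  ext ξ h
  change star (c03chi ψ θ h) * (c03chi ψ θ h * ξ h) = ξ h
  rw [← mul_assoc, c03_conj_mul, one_mul]

private theorem c03_UW : c03U ψ θ * c03W ψ θ = 1 := by
  ext ξ h
  change c03chi ψ θ h * (star (c03chi ψ θ h) * ξ h) = ξ h
  rw [← mul_assoc, mul_comm (c03chi ψ θ h), c03_conj_mul, one_mul]

private theorem c03_PU (g : G) : permU (Equiv.mulRight g) * c03U ψ θ =
    c03chi ψ θ g⁻¹ • (c03U ψ θ * permU (Equiv.mulRight g)) := by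
  ext ξ h
  change c03chi ψ θ (h * g⁻¹) * ξ (h * g⁻¹) = c03chi ψ θ g⁻¹ * (c03chi ψ θ h * ξ (h * g⁻¹))
  rw [c03_mul]
  ring

private theorem c03_WP (g : G) : c03W ψ θ * permU (Equiv.mulRight g) =
    c03chi ψ θ g⁻¹ • (permU (Equiv.mulRight g) * c03W ψ θ) := by
  calc c03W ψ θ * permU (Equiv.mulRight g)
      = c03W ψ θ * permU (Equiv.mulRight g) * (c03U ψ θ * c03W ψ θ) := by
        rw [c03_UW, mul_one]
    _ = c03W ψ θ * (permU (Equiv.mulRight g) * c03U ψ θ) * c03W ψ θ := by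
        simp only [mul_assoc]
    _ = c03chi ψ θ g⁻¹ • ((c03W ψ θ * c03U ψ θ) * permU (Equiv.mulRight g) * c03W ψ θ) := by
        rw [c03_PU, mul_smul_comm, smul_mul_assoc]
        simp only [mul_assoc]
    _ = _ := by rw [c03_WU, one_mul]

private theorem c03_comm {T : l2 G →L[ℂ] l2 G} (hT : T ∈ vN G) (g : G) :
    permU (Equiv.mulRight g) * T = T * permU (Equiv.mulRight g) := by
  have h := (StarSubalgebra.mem_centralizer_iff ℂ).1 hT (permU (Equiv.mulRight g)) ⟨g, rfl⟩
  exact h.1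

private theorem c03_comm' {T : l2 G →L[ℂ] l2 G} (hT : T ∈ vN G) (g : G) :
    permU (Equiv.mulRight g) * (c03U ψ θ * T * c03W ψ θ) =
      (c03U ψ θ * T * c03W ψ θ) * permU (Equiv.mulRight g) := by
  have h := c03_comm hT g
  calc permU (Equiv.mulRight g) * (c03U ψ θ * T * c03W ψ θ)
      = (permU (Equiv.mulRight g) * c03U ψ θ) * T * c03W ψ θ := by simp only [mul_assoc]
    _ = c03chi ψ θ g⁻¹ • (c03U ψ θ * (permU (Equiv.mulRight g) * T) * c03W ψ θ) := by
        rw [c03_PU, smul_mul_assoc, smul_mul_assoc]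
        simp only [mul_assoc]
    _ = c03U ψ θ * T * (c03W ψ θ * permU (Equiv.mulRight g)) := by
        rw [h, c03_WP, mul_smul_comm]
        simp only [mul_assoc]
    _ = _ := by simp only [mul_assoc]

private theorem c03_mem {T : l2 G →L[ℂ] l2 G} (hT : T ∈ vN G) :
    c03U ψ θ * T * c03W ψ θ ∈ vN G := by
  refine (StarSubalgebra.mem_centralizer_iff ℂ).2 ?_
  rintro _ ⟨g, rfl⟩
  refine ⟨c03_comm' ψ θ hT g, ?_⟩
  rw [star_permU, Equiv.mulRight_symm]
  exact c03_comm' ψ θ hT g⁻¹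

/-- conjugation by the diagonal unitary -/
private noncomputable def c03α : N G →⋆ₐ[ℂ] N G where
  toFun T := ⟨(c03U ψ θ * T.op * c03W ψ θ : l2 G →L[ℂ] l2 G), c03_mem ψ θ (T := T.op) T.2⟩
  map_one' := by
    apply Subtype.ext
    change c03U ψ θ * 1 * c03W ψ θ = 1
    rw [mul_one, c03_UW]
  map_mul' S T := by
    apply Subtype.ext
    change c03U ψ θ * (S.op * T.op) * c03W ψ θ =
      (c03U ψ θ * S.op * c03W ψ θ) * (c03U ψ θ * T.op * c03W ψ θ)
    calc c03U ψ θ * (S.op * T.op) * c03W ψ θ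
        = c03U ψ θ * S.op * 1 * T.op * c03W ψ θ := by rw [mul_one]; simp only [mul_assoc]
      _ = _ := by rw [← c03_WU ψ θ]; simp only [mul_assoc]
  map_zero' := by
    apply Subtype.ext
    change c03U ψ θ * 0 * c03W ψ θ = 0
    rw [mul_zero, zero_mul]
  map_add' S T := by
    apply Subtype.ext
    change c03U ψ θ * (S.op + T.op) * c03W ψ θ =
      (c03U ψ θ * S.op * c03W ψ θ) + (c03U ψ θ * T.op * c03W ψ θ)
    rw [mul_add, add_mul]
  commutes' c := by
    apply Subtype.ext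
    change c03U ψ θ * (algebraMap ℂ (l2 G →L[ℂ] l2 G) c) * c03W ψ θ =
      algebraMap ℂ (l2 G →L[ℂ] l2 G) c
    rw [← Algebra.commutes c (c03U ψ θ), mul_assoc, c03_UW, mul_one]
  map_star' T := by
    apply Subtype.ext
    change c03U ψ θ * star T.op * c03W ψ θ = star (c03U ψ θ * T.op * c03W ψ θ)
    rw [star_mul, star_mul, c03_starU, c03_starW, mul_assoc]

private theorem c03_co (T : N G) (g : G) :
    (c03α ψ θ T).co g = c03chi ψ θ g * T.co g := by
  classical
  have h1 : c03W ψ θ (dlt (1 : G)) = dlt 1 := by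
    ext h
    change star (c03chi ψ θ h) * (dlt (1 : G) : l2 G) h = (dlt (1 : G) : l2 G) h
    by_cases hh : h = 1
    · rw [hh, c03_one, star_one, one_mul]
    · have h0 : (dlt (1 : G) : l2 G) h = 0 := by
        rw [dlt_apply, if_neg hh]
      rw [h0, mul_zero]
  have h2 : ∀ S : N G, S.co g = S.op (dlt 1) g := by
    intro S
    unfold N.co N.op
    congr!
  rw [h2, h2]
  change c03chi ψ θ g * (T.op (c03W ψ θ (dlt 1))) g = _
  rw [h1]

end

section

variable {𝔄 : Type*} [CStarAlgebra 𝔄] [PartialOrder 𝔄] [StarOrderedRing 𝔄]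

private noncomputable def c03β (ι : Type*) [Fintype ι] [DecidableEq ι] (α : 𝔄 →⋆ₐ[ℂ] 𝔄) :
    CStarMatrix ι ι 𝔄 →⋆ₐ[ℂ] CStarMatrix ι ι 𝔄 where
  toFun M := M.map α
  map_one' := by
    ext i j
    rw [CStarMatrix.map_apply, CStarMatrix.one_apply]
    split_ifs
    · exact map_one _
    · exact map_zero _
  map_mul' S T := by
    ext i j
    rw [CStarMatrix.map_apply, CStarMatrix.mul_apply, CStarMatrix.mul_apply, map_sum]
    refine Finset.sum_congr rfl fun k _ => ?_
    rw [map_mul, CStarMatrix.map_apply, CStarMatrix.map_apply]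
  map_zero' := by
    ext i j
    exact map_zero α
  map_add' S T := by
    ext i j
    exact map_add α (S i j) (T i j)
  commutes' c := by
    ext i j
    rw [CStarMatrix.map_apply, CStarMatrix.algebraMap_apply]
    split_ifs
    · exact α.commutes c
    · exact map_zero _
  map_star' T := by
    ext i j
    rw [CStarMatrix.map_apply, CStarMatrix.star_apply, CStarMatrix.star_apply, map_star]
    rfl

private theorem c03_gen (τ : Tr 𝔄) (α : ℝ → (𝔄 →⋆ₐ[ℂ] 𝔄)) (hα : ∀ θ a, τ.f (α θ a) = τ.f a)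
    (x : ℕ → Matrix ι ι 𝔄)
    (hx : ∀ (θ : ℝ) (k : ℕ) (i j : ι),
      α θ (x k i j) = Complex.exp ((k : ℂ) * θ * Complex.I) • x k i j)
    (d : ℕ) {ε : ℝ} (hε : 0 < ε) :
    LM τ ((x 0)ᴴ * x 0 + eI 𝔄 ι ε) ≤
      LM τ ((∑ k ∈ Finset.range (d + 1), x k)ᴴ * (∑ k ∈ Finset.range (d + 1), x k) +
        eI 𝔄 ι ε) := by
  have h := szego (τ.mat ι) (fun θ => c03β ι (α θ))
    (by
      intro θ a
      rw [Tr.mat_apply, Tr.mat_apply]
      exact Finset.sum_congr rfl fun i _ => hα θ (a i i))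
    (fun k => toC (x k))
    (by
      intro θ k
      ext i j
      exact hx θ k i j)
    d hε
  have hs : toC (∑ k ∈ Finset.range (d + 1), x k) =
      ∑ k ∈ Finset.range (d + 1), toC (x k) :=
    map_sum ({ toFun := toC, map_zero' := rfl, map_add' := fun _ _ => rfl } :
      Matrix ι ι 𝔄 →+ CStarMatrix ι ι 𝔄) x (Finset.range (d + 1))
  rw [← hs] at h
  exact h

end

private theorem c03_α_lam (ψ : G →* Multiplicative ℤ) (θ : ℝ) (k : ℕ) (x : MonoidAlgebra ℂ G)
    (hx : ∀ g, x.coeff g ≠ 0 → (ψ g).toAdd = (k : ℤ)) :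
    c03α ψ θ (lam x) = Complex.exp ((k : ℂ) * θ * Complex.I) • lam x := by
  apply N.ext_co
  intro g
  rw [c03_co, N.co_smul, co_lam]
  by_cases h : x.coeff g = 0
  · rw [h, mul_zero, mul_zero]
  · congr 1
    unfold c03chi
    rw [hx g h]
    push_cast
    rfl

private theorem c03_lamM_sum (x : ℕ → Matrix ι ι (MonoidAlgebra ℂ G)) (s : Finset ℕ) :
    lamM (∑ k ∈ s, x k) = ∑ k ∈ s, lamM (x k) :=
  map_sum ({ toFun := lamM
             map_zero' := by
               ext i j : 2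
               exact map_zero lam
             map_add' := lamM_add } :
    Matrix ι ι (MonoidAlgebra ℂ G) →+ Matrix ι ι (N G)) x s

theorem szego_G (ψ : G →* Multiplicative ℤ) (x : ℕ → Matrix ι ι (MonoidAlgebra ℂ G))
    (hx : ∀ k i j g, (x k i j).coeff g ≠ 0 → (ψ g).toAdd = (k : ℤ)) (d : ℕ) {ε : ℝ}
    (hε : 0 < ε) : LG (x 0) ε ≤ LG (∑ k ∈ Finset.range (d + 1), x k) ε := by
  have h := c03_gen (trN G) (fun θ => c03α ψ θ)
    (by
      intro θ a
      rw [trN_apply, trN_apply, c03_co, c03_one, one_mul])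
    (fun k => lamM (x k))
    (fun θ k i j => c03_α_lam ψ θ k (x k i j) (hx k i j))
    d hε
  rw [← c03_lamM_sum] at h
  exact h

theorem LB_szego (ψ : G →* Multiplicative ℤ) (x : ℕ → Matrix ι ι (MonoidAlgebra ℂ G))
    (hx : ∀ k i j g, (x k i j).coeff g ≠ 0 → (ψ g).toAdd = (k : ℤ)) (d : ℕ) {c : ℝ}
    (h : LB (x 0) c) : LB (∑ k ∈ Finset.range (d + 1), x k) c :=
  fun ε hε => (h ε hε).trans (szego_G ψ x hx d hε)

end LT
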