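import Mathlib

/-!
# LT-C04: reduced words of `FreeGroup (Option Z)`, `u = of none`, `A = F(Z)`

`FreeGroup (Option Z)` is generated by `u = of none` and the subgroup `AS Z` (the image of
`F(Z)`).  `TP` / `TM`: elements whose reduced word starts with `u` / `u⁻¹`.
Everything follows from: for `a ∈ AS` all letters of `a.toWord` are of the form `(some z, b)`, and for
`w ∈ TP ∪ TM` the word `w.toWord` starts with a letter `(none, b)`, hence `a.toWord ++ w.toWord` is
reduced and equals `(a * w).toWord` (`FreeGroup.isReduced`-API, `FreeGroup.IsReduced`,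
`FreeGroup.toWord_mul`, `List.Chain'`/`List.isChain` API).
* uniqueness: `a.toWord` is the maximal prefix of `(a*w).toWord` consisting of letters `(some _, _)`.
* `u * (a * w)`: the word `(none, true) :: (a.toWord ++ w.toWord)` is reduced unless `a = 1` and
  `w.toWord` starts with `(none, false)`.
-/

set_option linter.unusedSectionVars false

namespace LT

variable (Z : Type*) [DecidableEq Z]

/-- the subgroup `F(Z)` -/
def AS : Subgroup (FreeGroup (Option Z)) := (FreeGroup.map (some : Z → Option Z)).range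

/-- reduced words starting with `u` -/
def TP : Set (FreeGroup (Option Z)) := {g | ∃ l, g.toWord = (none, true) :: l}

/-- reduced words starting with `u⁻¹` -/
def TM : Set (FreeGroup (Option Z)) := {g | ∃ l, g.toWord = (none, false) :: l}

variable {Z}

theorem c04_letters {a : FreeGroup (Option Z)} (ha : a ∈ AS Z) :
    ∀ x ∈ a.toWord, ∃ z, x.1 = some z := by
  obtain ⟨g, rfl⟩ := ha
  intro x hx
  obtain ⟨L, rfl⟩ : ∃ L, g = FreeGroup.mk L := ⟨g.toWord, FreeGroup.mk_toWord.symm⟩
  have h1 : (FreeGroup.map (some : Z → Option Z)) (FreeGroup.mk L) =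
      FreeGroup.mk (L.map fun x => (some x.1, x.2)) := FreeGroup.map.mk
  rw [h1, FreeGroup.toWord_mk] at hx
  have h2 := (FreeGroup.Red.sublist (FreeGroup.reduce.red
    (L := L.map fun x => ((some x.1 : Option Z), x.2)))).subset hx
  obtain ⟨y, -, rfl⟩ := List.mem_map.mp h2
  exact ⟨y.1, rfl⟩

theorem c04_split {w : FreeGroup (Option Z)} (hw : w ∈ TP Z ∪ TM Z) :
    ∃ b l, w.toWord = (none, b) :: l := by
  rcases hw with ⟨l, h⟩ | ⟨l, h⟩
  · exact ⟨true, l, h⟩
  · exact ⟨false, l, h⟩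

theorem c04_mul {a w : FreeGroup (Option Z)} (ha : a ∈ AS Z) {b : Bool}
    {l : List (Option Z × Bool)} (hw : w.toWord = (none, b) :: l) :
    (a * w).toWord = a.toWord ++ w.toWord := by
  rw [FreeGroup.toWord_mul]
  apply FreeGroup.IsReduced.reduce_eq
  refine List.isChain_append.mpr ⟨FreeGroup.isReduced_toWord, FreeGroup.isReduced_toWord, ?_⟩
  intro x hx y hy h
  obtain ⟨z, hz⟩ := c04_letters ha x (List.mem_of_getLast? hx)
  rw [hw] at hy
  have h2 : y = (none, b) := by
    have : some (none, b) = some y := hy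
    exact (Option.some.inj this).symm
  rw [h2, hz] at h
  exact absurd h (by simp)

theorem c04_cons (b : Bool) {x : FreeGroup (Option Z)}
    (hx : ∀ y ∈ x.toWord.head?, (none : Option Z) = y.1 → b = y.2) :
    (FreeGroup.mk [(none, b)] * x).toWord = (none, b) :: x.toWord := by
  rw [FreeGroup.toWord_mul, FreeGroup.toWord_mk, FreeGroup.reduce_singleton]
  exact FreeGroup.IsReduced.reduce_eq
    (List.isChain_cons.mpr ⟨hx, FreeGroup.isReduced_toWord⟩)

theorem c04_head {a : FreeGroup (Option Z)} (ha : a ∈ AS Z) (b : Bool) :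
    ∀ y ∈ a.toWord.head?, (none : Option Z) = y.1 → b = y.2 := by
  intro y hy h
  obtain ⟨z, hz⟩ := c04_letters ha y (List.mem_of_head? hy)
  rw [hz] at h
  exact absurd h (by simp)

theorem c04_head2 {a w : FreeGroup (Option Z)} (ha : a ∈ AS Z) {b : Bool}
    {l : List (Option Z × Bool)} (hw : w.toWord = (none, b) :: l) {c : Bool}
    (h : a = 1 → c = b) :
    ∀ y ∈ (a * w).toWord.head?, (none : Option Z) = y.1 → c = y.2 := by
  intro y hy h1
  rw [c04_mul ha hw] at hy
  by_cases h2 : a = 1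
  · rw [h2, FreeGroup.toWord_one, List.nil_append, hw] at hy
    have : some (none, b) = some y := hy
    rw [← Option.some.inj this]
    exact h h2
  · have h3 : a.toWord ≠ [] := fun h3 => h2 (FreeGroup.toWord_eq_nil_iff.mp h3)
    rw [List.head?_append_of_ne_nil _ h3] at hy
    exact c04_head ha c y hy h1

theorem TP_TM_disjoint {g : FreeGroup (Option Z)} (h : g ∈ TP Z) (h' : g ∈ TM Z) : False := by
  obtain ⟨l, h1⟩ := h
  obtain ⟨l', h2⟩ := h'
  rw [h1] at h2
  simp at h2

theorem AS_T_unique {a a' w w' : FreeGroup (Option Z)} (ha : a ∈ AS Z) (ha' : a' ∈ AS Z)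
    (hw : w ∈ TP Z ∪ TM Z) (hw' : w' ∈ TP Z ∪ TM Z) (h : a * w = a' * w') : a = a' ∧ w = w' := by
  obtain ⟨b, l, h1⟩ := c04_split hw
  obtain ⟨b', l', h1'⟩ := c04_split hw'
  have h2 := congrArg FreeGroup.toWord h
  rw [c04_mul ha h1, c04_mul ha' h1'] at h2
  have key : ∀ (a w : FreeGroup (Option Z)) (b : Bool) (l : List (Option Z × Bool)), a ∈ AS Z →
      w.toWord = (none, b) :: l →
      List.takeWhile (fun x => x.1.isSome) (a.toWord ++ w.toWord) = a.toWord := by
    intro a w b l ha hw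
    rw [List.takeWhile_append_of_pos, hw, List.takeWhile_cons]
    · simp
    · intro x hx
      obtain ⟨z, hz⟩ := c04_letters ha x hx
      rw [hz]
      rfl
  have h3 : a = a' := by
    apply FreeGroup.toWord_injective
    rw [← key a w b l ha h1, h2, key a' w' b' l' ha' h1']
  refine ⟨h3, ?_⟩
  rw [h3] at h
  exact mul_left_cancel h

theorem AS_mul_T_ne_one {a w : FreeGroup (Option Z)} (ha : a ∈ AS Z)
    (hw : w ∈ TP Z ∪ TM Z) : a * w ≠ 1 := by
  obtain ⟨b, l, h1⟩ := c04_split hw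
  intro h
  have h2 := congrArg FreeGroup.toWord h
  rw [c04_mul ha h1, h1, FreeGroup.toWord_one] at h2
  simp at h2

theorem one_notMem_TP : (1 : FreeGroup (Option Z)) ∉ TP Z := by
  rintro ⟨l, h⟩
  rw [FreeGroup.toWord_one] at h
  simp at h

theorem one_notMem_TM : (1 : FreeGroup (Option Z)) ∉ TM Z := by
  rintro ⟨l, h⟩
  rw [FreeGroup.toWord_one] at h
  simp at h

theorem u_mul_AS {a : FreeGroup (Option Z)} (ha : a ∈ AS Z) :
    FreeGroup.of none * a ∈ TP Z :=
  ⟨_, c04_cons true (c04_head ha true)⟩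

theorem uinv_mul_AS {a : FreeGroup (Option Z)} (ha : a ∈ AS Z) :
    (FreeGroup.of none)⁻¹ * a ∈ TM Z :=
  ⟨_, c04_cons false (c04_head ha false)⟩

theorem u_mul_AS_TP {a w : FreeGroup (Option Z)} (ha : a ∈ AS Z) (hw : w ∈ TP Z) :
    FreeGroup.of none * (a * w) ∈ TP Z := by
  obtain ⟨l, h⟩ := hw
  exact ⟨_, c04_cons true (c04_head2 ha h fun _ => rfl)⟩

theorem u_mul_AS_TM {a w : FreeGroup (Option Z)} (ha : a ∈ AS Z) (h1 : a ≠ 1) (hw : w ∈ TM Z) :
    FreeGroup.of none * (a * w) ∈ TP Z := by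
  obtain ⟨l, h⟩ := hw
  exact ⟨_, c04_cons true (c04_head2 ha h fun h2 => absurd h2 h1)⟩

theorem uinv_mul_AS_TM {a w : FreeGroup (Option Z)} (ha : a ∈ AS Z) (hw : w ∈ TM Z) :
    (FreeGroup.of none)⁻¹ * (a * w) ∈ TM Z := by
  obtain ⟨l, h⟩ := hw
  exact ⟨_, c04_cons false (c04_head2 ha h fun _ => rfl)⟩

theorem uinv_mul_AS_TP {a w : FreeGroup (Option Z)} (ha : a ∈ AS Z) (h1 : a ≠ 1)
    (hw : w ∈ TP Z) : (FreeGroup.of none)⁻¹ * (a * w) ∈ TM Z := by
  obtain ⟨l, h⟩ := hw
  exact ⟨_, c04_cons false (c04_head2 ha h fun h2 => absurd h2 h1)⟩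

end LT
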