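import Pool.Agent.H29.LT.C01
import Pool.Agent.H29.LT.C04
import Pool.Agent.H29.LT.Q00

/-!
# LT-C05: the structure `UFree` on `N(FreeGroup (Option Z))`

`A = {T | T.co g = 0 for g ∉ AS}`, `P = {T | T.co g = 0 for g ∉ TP}`, `M` the same with `TM`,
`u = lamG (of none)`.

* `A` is a star subalgebra: product: `(S T).co g = Σ_h S.co (g h⁻¹) T.co h`
  (`N.hasSum_co_mul`), all terms vanish if `g ∉ AS`; star: `N.co_star`; `algebraMap`: `co` of a
  multiple of `1`.  It is closed, as all `T ↦ T.co g` are continuous (`coL`).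
* `(u * x).co g = x.co (u⁻¹ g)` (convolution with a group element, `N.hasSum_co_mul` with a single
  nonzero term, `co_lamG`).
* key formula: `x ∈ A`, `y ∈ P` (or `M`): `(x y).co (a w) = x.co a * y.co w` for `a ∈ AS`,
  `w ∈ TP` (resp. `TM`), and `(x y).co g = 0` if `g` is not of this form: in
  `Σ_h x.co (g h⁻¹) y.co h` only `h ∈ TP` with `g h⁻¹ ∈ AS` contribute, and by `AS_T_unique` there
  is at most one.
* `uPP` etc.: `(u x y).co g = (x y).co (u⁻¹ g)`; if it is nonzero then `u⁻¹ g = a w` with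
  `x.co a ≠ 0`, `y.co w ≠ 0`, so `g = u (a w) ∈ TP` by `u_mul_AS_TP`, resp. `u_mul_AS_TM` (here
  `a ≠ 1` because `x.co 1 = τ x = 0`).
* `factP`: `τ (x y y'* x'*) = Σ_g (x y).co g * conj ((x' y').co g)` (`N.hasSum_co_star_mul` and
  `N.co_mul_comm`, or directly); by the key formula and the bijection
  `AS × TP → AS · TP` this is `(Σ_a x.co a conj (x'.co a)) (Σ_w y.co w conj (y'.co w))`
  (absolutely convergent double sums) `= τ (x x'*) τ (y y'*)`.
* `cross`: the supports `AS · TP` and `AS · TM` are disjoint.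
* `tr0P`: `y.co 1 = 0` as `1 ∉ TP`.
-/

set_option linter.unusedSectionVars false

namespace LT

section c05

variable {G : Type*} [Group G]

/-- the coefficients of `T` vanish outside of `S` -/
private def c05_sup (S : Set G) (T : N G) : Prop := ∀ g, g ∉ S → T.co g = 0

private theorem c05_mul {S₁ S₂ S₃ : Set G} {x y : N G} (hx : c05_sup S₁ x) (hy : c05_sup S₂ y)
    (h : ∀ a ∈ S₁, ∀ b ∈ S₂, a * b ∈ S₃) : c05_sup S₃ (x * y) := by
  intro g hg
  have h1 := N.hasSum_co_mul x y g
  have h2 : (fun h => x.co (g * h⁻¹) * y.co h) = fun _ => 0 := by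
    funext k
    by_cases hk : k ∈ S₂
    · by_cases hk' : g * k⁻¹ ∈ S₁
      · exfalso
        apply hg
        have h3 := h _ hk' _ hk
        rwa [inv_mul_cancel_right] at h3
      · rw [hx _ hk', zero_mul]
    · rw [hy _ hk, mul_zero]
  rw [h2] at h1
  exact h1.unique hasSum_zero

private theorem c05_lamG (g : G) : c05_sup {g} (lamG g : N G) := by
  classical
  intro h hh
  rw [co_lamG]
  exact if_neg hh

private theorem c05_zero (S : Set G) : c05_sup S (0 : N G) := by
  intro g _
  exact (coL g).map_zero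

private theorem c05_add {S : Set G} {x y : N G} (hx : c05_sup S x) (hy : c05_sup S y) :
    c05_sup S (x + y) := by
  intro g hg
  rw [N.co_add, hx g hg, hy g hg, add_zero]

private theorem c05_smul {S : Set G} {x : N G} (c : ℂ) (hx : c05_sup S x) :
    c05_sup S (c • x) := by
  intro g hg
  rw [N.co_smul, hx g hg, mul_zero]

private theorem c05_star {S : Set G} {x : N G} (hx : c05_sup S x) (hS : ∀ a ∈ S, a⁻¹ ∈ S) :
    c05_sup S (star x) := by
  intro g hg
  rw [N.co_star, hx g⁻¹ (fun h => hg (by simpa using hS _ h)), star_zero]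

private theorem c05_one {S : Set G} (hS : (1 : G) ∈ S) : c05_sup S (1 : N G) := by
  have h1 : (1 : N G) = lamG 1 := (map_one lamG).symm
  rw [h1]
  intro g hg
  exact c05_lamG 1 g (fun h => hg (by rw [Set.mem_singleton_iff.1 h]; exact hS))

private theorem c05_closed (S : Set G) : IsClosed {T : N G | c05_sup S T} := by
  have h1 : {T : N G | c05_sup S T} = ⋂ g : G, ⋂ _ : g ∉ S, (coL g : N G → ℂ) ⁻¹' {0} := by
    ext T
    simp only [Set.mem_ofPred_eq, Set.mem_iInter, Set.mem_preimage, Set.mem_singleton_iff]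
    exact Iff.rfl
  rw [h1]
  exact isClosed_iInter fun g => isClosed_iInter fun _ =>
    isClosed_singleton.preimage (coL g).continuous

/-- the elements supported in `S` -/
private def c05_P (S : Set G) : Submodule ℂ (N G) where
  carrier := {T | c05_sup S T}
  add_mem' := c05_add
  zero_mem' := c05_zero S
  smul_mem' c _ h := c05_smul c h

private theorem c05_tau (S T : N G) :
    HasSum (fun g => star (T.co g) * S.co g) ((trN G).f (S * star T)) := by
  have h1 := N.hasSum_co_star_mul T S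
  rw [← N.co_mul_comm] at h1
  exact h1

private theorem c05_key {A W : Set G} (hu : ∀ a ∈ A, ∀ a' ∈ A, ∀ w ∈ W, ∀ w' ∈ W,
    a * w = a' * w' → a = a' ∧ w = w') {x y : N G} (hx : c05_sup A x) (hy : c05_sup W y)
    {a w : G} (ha : a ∈ A) (hw : w ∈ W) : (x * y).co (a * w) = x.co a * y.co w := by
  have h1 := N.hasSum_co_mul x y (a * w)
  have h2 : HasSum (fun h => x.co (a * w * h⁻¹) * y.co h)
      (x.co (a * w * w⁻¹) * y.co w) := by
    refine hasSum_single w ?_
    intro k hkw
    by_cases hk : k ∈ W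
    · by_cases hk' : a * w * k⁻¹ ∈ A
      · exfalso
        apply hkw
        exact (hu _ ha _ hk' _ hw _ hk (by rw [inv_mul_cancel_right])).2.symm
      · rw [hx _ hk', zero_mul]
    · rw [hy _ hk, mul_zero]
  rw [h1.unique h2, mul_inv_cancel_right]

private theorem c05_fact {A W : Set G} (hu : ∀ a ∈ A, ∀ a' ∈ A, ∀ w ∈ W, ∀ w' ∈ W,
    a * w = a' * w' → a = a' ∧ w = w') {x x' y y' : N G} (hx : c05_sup A x)
    (hx' : c05_sup A x') (hy : c05_sup W y) (hy' : c05_sup W y') :
    (trN G).f (x * y * star y' * star x') =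
      (trN G).f (x * star x') * (trN G).f (y * star y') := by
  have h1 := c05_tau (x * y) (x' * y')
  have hinj : Function.Injective (fun p : A × W => p.1.1 * p.2.1) := by
    rintro ⟨⟨a, ha⟩, ⟨w, hw⟩⟩ ⟨⟨a', ha'⟩, ⟨w', hw'⟩⟩ h
    obtain ⟨h2, h3⟩ := hu a ha a' ha' w hw w' hw' h
    subst h2
    subst h3
    rfl
  have h2 : HasSum (fun p : A × W => (star (x'.co p.1.1) * x.co p.1.1) *
      (star (y'.co p.2.1) * y.co p.2.1)) ((trN G).f (x * y * star (x' * y'))) := by
    have h3 := (hinj.hasSum_iff (f := fun g => star ((x' * y').co g) * (x * y).co g) ?_).2 h1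
    · have h4 : ((fun g => star ((x' * y').co g) * (x * y).co g) ∘
          fun p : A × W => p.1.1 * p.2.1) = fun p : A × W => (star (x'.co p.1.1) * x.co p.1.1) *
            (star (y'.co p.2.1) * y.co p.2.1) := by
        funext p
        change star ((x' * y').co (p.1.1 * p.2.1)) * (x * y).co (p.1.1 * p.2.1) = _
        rw [c05_key hu hx hy p.1.2 p.2.2, c05_key hu hx' hy' p.1.2 p.2.2, star_mul']
        ring
      rw [h4] at h3
      exact h3
    · intro g hg
      have h5 : c05_sup (Set.range fun p : A × W => p.1.1 * p.2.1) (x * y) :=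
        c05_mul hx hy fun a ha b hb => ⟨(⟨a, ha⟩, ⟨b, hb⟩), rfl⟩
      rw [h5 g hg, mul_zero]
  have h3 : HasSum (fun a : A => star (x'.co a.1) * x.co a.1) ((trN G).f (x * star x')) := by
    refine (Subtype.val_injective.hasSum_iff
      (f := fun g => star (x'.co g) * x.co g) ?_).2 (c05_tau x x')
    intro g hg
    rw [Subtype.range_coe] at hg
    rw [hx g hg, mul_zero]
  have h4 : HasSum (fun w : W => star (y'.co w.1) * y.co w.1) ((trN G).f (y * star y')) := by
    refine (Subtype.val_injective.hasSum_iff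
      (f := fun g => star (y'.co g) * y.co g) ?_).2 (c05_tau y y')
    intro g hg
    rw [Subtype.range_coe] at hg
    rw [hy g hg, mul_zero]
  have h5 := (h3.mul h4 h2.summable).unique h2
  rw [h5, star_mul, ← mul_assoc]

end c05

private theorem c05_ne {Z : Type*} [DecidableEq Z] {x : N (FreeGroup (Option Z))}
    (hx : c05_sup (AS Z : Set (FreeGroup (Option Z))) x)
    (h0 : (trN (FreeGroup (Option Z))).f x = 0) :
    c05_sup {g | g ∈ AS Z ∧ g ≠ 1} x := by
  intro g hg
  by_cases h1 : g = 1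
  · rw [h1]
    exact h0
  · exact hx g (fun h => hg ⟨h, h1⟩)

/-- the elements supported in `AS` -/
private def c05_A (Z : Type*) [DecidableEq Z] : StarSubalgebra ℂ (N (FreeGroup (Option Z))) where
  carrier := {T | c05_sup (AS Z : Set (FreeGroup (Option Z))) T}
  mul_mem' hx hy := c05_mul hx hy fun _ ha _ hb => (AS Z).mul_mem ha hb
  one_mem' := c05_one (AS Z).one_mem
  add_mem' hx hy := c05_add hx hy
  zero_mem' := c05_zero _
  algebraMap_mem' r := by
    rw [Algebra.algebraMap_eq_smul_one]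
    exact c05_smul r (c05_one (AS Z).one_mem)
  star_mem' hx := c05_star hx fun _ ha => (AS Z).inv_mem ha

theorem exists_UF (Z : Type*) [DecidableEq Z] :
    ∃ U : UFree (trN (FreeGroup (Option Z))), U.u = lamG (FreeGroup.of none) ∧
      ∀ T : N (FreeGroup (Option Z)), T ∈ U.A ↔ ∀ g, g ∉ AS Z → T.co g = 0 := by
  refine ⟨{ A := c05_A Z
            closed := c05_closed _
            u := lamG (FreeGroup.of none)
            u1 := lamG_star_mul _
            u2 := lamG_mul_star _
            P := c05_P (TP Z)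
            M := c05_P (TM Z)
            uP1 := ?_
            uM1 := ?_
            uPP := ?_
            uPM := ?_
            uMM := ?_
            uMP := ?_
            factP := ?_
            factM := ?_
            cross := ?_
            tr0P := ?_
            tr0M := ?_ }, rfl, fun T => Iff.rfl⟩
  · intro x hx
    refine c05_mul (c05_lamG _) hx ?_
    rintro a rfl b hb
    exact u_mul_AS hb
  · intro x hx
    rw [lamG_star]
    refine c05_mul (c05_lamG _) hx ?_
    rintro a rfl b hb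
    exact uinv_mul_AS hb
  · intro x hx y hy
    rw [mul_assoc]
    refine c05_mul (S₂ := {g | ∃ a ∈ AS Z, ∃ w ∈ TP Z, g = a * w}) (c05_lamG _)
      (c05_mul hx hy fun a ha b hb => ⟨a, ha, b, hb, rfl⟩) ?_
    rintro a rfl b ⟨a', ha', w, hw, rfl⟩
    exact u_mul_AS_TP ha' hw
  · intro x hx h0 y hy
    rw [mul_assoc]
    refine c05_mul (S₂ := {g | ∃ a ∈ AS Z, a ≠ 1 ∧ ∃ w ∈ TM Z, g = a * w}) (c05_lamG _)
      (c05_mul (c05_ne hx h0) hy fun a ha b hb => ⟨a, ha.1, ha.2, b, hb, rfl⟩) ?_
    rintro a rfl b ⟨a', ha', h1, w, hw, rfl⟩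
    exact u_mul_AS_TM ha' h1 hw
  · intro x hx y hy
    rw [mul_assoc, lamG_star]
    refine c05_mul (S₂ := {g | ∃ a ∈ AS Z, ∃ w ∈ TM Z, g = a * w}) (c05_lamG _)
      (c05_mul hx hy fun a ha b hb => ⟨a, ha, b, hb, rfl⟩) ?_
    rintro a rfl b ⟨a', ha', w, hw, rfl⟩
    exact uinv_mul_AS_TM ha' hw
  · intro x hx h0 y hy
    rw [mul_assoc, lamG_star]
    refine c05_mul (S₂ := {g | ∃ a ∈ AS Z, a ≠ 1 ∧ ∃ w ∈ TP Z, g = a * w}) (c05_lamG _)
      (c05_mul (c05_ne hx h0) hy fun a ha b hb => ⟨a, ha.1, ha.2, b, hb, rfl⟩) ?_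
    rintro a rfl b ⟨a', ha', h1, w, hw, rfl⟩
    exact uinv_mul_AS_TP ha' h1 hw
  · intro x hx x' hx' y hy y' hy'
    exact c05_fact (fun a ha a' ha' w hw w' hw' h =>
      AS_T_unique ha ha' (Or.inl hw) (Or.inl hw') h) hx hx' hy hy'
  · intro x hx x' hx' y hy y' hy'
    exact c05_fact (fun a ha a' ha' w hw w' hw' h =>
      AS_T_unique ha ha' (Or.inr hw) (Or.inr hw') h) hx hx' hy hy'
  · intro x hx x' hx' y hy y' hy'
    have h1 := c05_tau (x * y) (x' * y')
    have h2 : (fun g => star ((x' * y').co g) * (x * y).co g) = fun _ => 0 := by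
      funext g
      by_cases h3 : g ∈ {g | ∃ a ∈ AS Z, ∃ w ∈ TP Z, g = a * w}
      · by_cases h4 : g ∈ {g | ∃ a ∈ AS Z, ∃ w ∈ TM Z, g = a * w}
        · exfalso
          obtain ⟨a, ha, w, hw, rfl⟩ := h3
          obtain ⟨a', ha', w', hw', he⟩ := h4
          have h5 := (AS_T_unique ha ha' (Or.inl hw) (Or.inr hw') he).2
          rw [← h5] at hw'
          exact TP_TM_disjoint hw hw'
        · have h5 : c05_sup {g | ∃ a ∈ AS Z, ∃ w ∈ TM Z, g = a * w} (x' * y') :=
            c05_mul hx' hy' fun a ha b hb => ⟨a, ha, b, hb, rfl⟩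
          rw [h5 g h4, star_zero, zero_mul]
      · have h5 : c05_sup {g | ∃ a ∈ AS Z, ∃ w ∈ TP Z, g = a * w} (x * y) :=
          c05_mul hx hy fun a ha b hb => ⟨a, ha, b, hb, rfl⟩
        rw [h5 g h3, mul_zero]
    rw [h2] at h1
    have h6 := h1.unique hasSum_zero
    rw [star_mul, ← mul_assoc] at h6
    exact h6
  · intro y hy
    exact hy 1 one_notMem_TP
  · intro y hy
    exact hy 1 one_notMem_TM

end LT
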