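import Pool.Agent.H29.LT.Rho
import Pool.Agent.H29.LT.C03
import Pool.Agent.H29.LT.C06

/-!
# LT-C08: upper bound for the `ℓ²`-torsion from a lower bound for the square Fox matrix

Generators `β ⊕ Unit` (the last one is `s`), relators `β`.  `s = γ (inr ())` has `ψ s = 1`
(written multiplicatively `ofAdd 1`).

* `D V = 0`: `fox_fundamental` mapped to `ℂ[G]` with `lift γ (r k) = 1`.
* Let `S k b = foxM γ r k (inl b)`, `v k _ = foxM γ r k (inr ())`, `w b _ = single (γ (inl b)) 1 - 1`,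
  `σ = single s 1 - 1` (`1 × 1`).  The products over `β ⊕ Unit` split
  (`Matrix.fromCols`, `Fintype.sum_sum_type`): `Lap2 = S Sᴴ + v vᴴ`, `Lap0 = wᴴ w + σᴴ σ` (after
  `lamM`).  Apply `laplacian_lower` with `τ = trN G`, `l₀ = logDet (Lap0 γ)`.
* `hσ`: `L_sub_one_le` for the unitary `lamG s` (all `s^(k+1) ≠ 1`, by `ψ`; so
  `(trN G).f (lamG s ^ (k+1)) = 0`), transferred to `1 × 1` matrices (`CStarMatrix.toOneByOne` and
  `L_map`, or `LM_sc`-type lemma).
* `LM (Lap0 + ε) ≥ LM (σᴴ σ + ε) ≥ 0` for all `ε > 0`: `wᴴ w ≥ 0`, and `LB σ 0` by `LB_szego` with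
  `x 0 = -1`, `x 1 = single s 1` (`d = 1`; `LB (-1) 0` as `LG (-1) ε = log (1+ε) ≥ 0`).  So `Lap0` is
  `DetClass`, and `l₀` is the infimum: `hl`, `hl'`.
* conclusion: `LM (Lap2 + ε) ≥ c + l₀` for all `ε > 0`, so `Lap2` is `DetClass` and
  `logDet Lap2 ≥ c + logDet Lap0`.
-/

set_option linter.unusedSectionVars false

namespace LT

open scoped Matrix

variable {G : Type*} [Group G] {β : Type*} [Fintype β] [DecidableEq β]

/-- `D V = 0` over the group ring. -/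
theorem c08_fund (γ : β ⊕ Unit → G) (r : β → FreeGroup (β ⊕ Unit))
    (hr : ∀ k, FreeGroup.lift γ (r k) = 1) : foxM γ r * gcol γ = 0 := by
  ext k u : 2
  rw [Matrix.mul_apply, Matrix.zero_apply]
  have h1 := congrArg (MonoidAlgebra.mapDomainRingHom ℂ (FreeGroup.lift γ))
    (fox_fundamental (r k))
  rw [map_sum, map_sub, map_one, MonoidAlgebra.mapDomainRingHom_apply,
    MonoidAlgebra.mapDomain_single, hr k] at h1
  have h2 : ∑ j, foxM γ r k j * gcol γ j u = ∑ j, MonoidAlgebra.mapDomainRingHom ℂ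
      (FreeGroup.lift γ) (fox j (r k) * (MonoidAlgebra.single (FreeGroup.of j) 1 - 1)) := by
    refine Finset.sum_congr rfl fun j _ => ?_
    rw [map_mul, map_sub, map_one, MonoidAlgebra.mapDomainRingHom_apply,
      MonoidAlgebra.mapDomainRingHom_apply, MonoidAlgebra.mapDomain_single,
      FreeGroup.lift_apply_of]
    rfl
  rw [h2, h1, MonoidAlgebra.one_def, sub_self]

/-- the four blocks -/
noncomputable def c08_S (γ : β ⊕ Unit → G) (r : β → FreeGroup (β ⊕ Unit)) :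
    Matrix β β (N G) := lamM fun k b => foxM γ r k (Sum.inl b)

noncomputable def c08_v (γ : β ⊕ Unit → G) (r : β → FreeGroup (β ⊕ Unit)) :
    Matrix β Unit (N G) := lamM fun k _ => foxM γ r k (Sum.inr ())

noncomputable def c08_w (γ : β ⊕ Unit → G) : Matrix β Unit (N G) :=
  lamM fun b u => gcol γ (Sum.inl b) u

noncomputable def c08_sig (γ : β ⊕ Unit → G) : Matrix Unit Unit (N G) :=
  lamM fun _ u => gcol γ (Sum.inr ()) u

theorem c08_DV (γ : β ⊕ Unit → G) (r : β → FreeGroup (β ⊕ Unit))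
    (hr : ∀ k, FreeGroup.lift γ (r k) = 1) :
    c08_S γ r * c08_w γ + c08_v γ r * c08_sig γ = 0 := by
  have h : lamM (foxM γ r) * lamM (gcol γ) = 0 := by
    rw [← lamM_mul, c08_fund γ r hr]
    ext i j : 2
    exact map_zero lam
  ext k u : 2
  have h1 := congrFun (congrFun h k) u
  rw [Matrix.mul_apply, Fintype.sum_sum_type] at h1
  rw [Matrix.add_apply, Matrix.mul_apply, Matrix.mul_apply]
  exact h1

theorem c08_Lap2 (γ : β ⊕ Unit → G) (r : β → FreeGroup (β ⊕ Unit)) :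
    Lap2 γ r = c08_S γ r * (c08_S γ r)ᴴ + c08_v γ r * (c08_v γ r)ᴴ := by
  ext k l : 2
  unfold Lap2
  rw [Matrix.mul_apply, Fintype.sum_sum_type, Matrix.add_apply, Matrix.mul_apply,
    Matrix.mul_apply]
  rfl

theorem c08_Lap0 (γ : β ⊕ Unit → G) :
    Lap0 γ = (c08_w γ)ᴴ * c08_w γ + (c08_sig γ)ᴴ * c08_sig γ := by
  ext k l : 2
  unfold Lap0
  rw [Matrix.mul_apply, Fintype.sum_sum_type, Matrix.add_apply, Matrix.mul_apply,
    Matrix.mul_apply]
  rfl

theorem c08_sig_eq (γ : β ⊕ Unit → G) :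
    c08_sig γ = Matrix.diagonal fun _ => lamG (γ (Sum.inr ())) - 1 := by
  ext k l : 2
  rw [Subsingleton.elim k l, Matrix.diagonal_apply_eq]
  change lam (MonoidAlgebra.single (γ (Sum.inr ())) 1 - 1) = _
  rw [map_sub, map_one, lam_single, one_smul]

theorem c08_diag {𝔄 : Type*} [CStarAlgebra 𝔄] (a : 𝔄) (ε : ℝ) :
    (Matrix.diagonal fun _ : Unit => a)ᴴ * (Matrix.diagonal fun _ : Unit => a) + eI 𝔄 Unit ε =
      Matrix.diagonal fun _ => star a * a + algebraMap ℝ 𝔄 ε := by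
  rw [Matrix.diagonal_conjTranspose]
  ext k l : 2
  rw [Subsingleton.elim k l, Matrix.add_apply, Matrix.diagonal_mul, Matrix.diagonal_apply_eq,
    Matrix.diagonal_apply_eq]
  unfold eI
  rw [Matrix.algebraMap_matrix_apply, if_pos rfl]
  rfl

theorem c08_LM_sig (γ : β ⊕ Unit → G) {ε : ℝ} (hε : 0 < ε) :
    LM (trN G) ((c08_sig γ)ᴴ * c08_sig γ + eI (N G) Unit ε) =
      L (trN G) (star (lamG (γ (Sum.inr ())) - 1) * (lamG (γ (Sum.inr ())) - 1)
        + algebraMap ℝ (N G) ε) := by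
  have h1 : (c08_sig γ)ᴴ * c08_sig γ + eI (N G) Unit ε =
      Matrix.diagonal fun _ : Unit => star (lamG (γ (Sum.inr ())) - 1) *
        (lamG (γ (Sum.inr ())) - 1) + algebraMap ℝ (N G) ε := by
    rw [c08_sig_eq]
    exact c08_diag _ _
  rw [h1]
  unfold LM
  rw [← M2diag_apply, M2diag_L (trN G) fun _ => ?_]
  · rw [Fintype.sum_unique]
  · exact IsStrictlyPositive.nonneg_add (star_mul_self_nonneg _) (isStrictlyPositive_algebraMap hε)

/-- all positive powers of `s` have trace `0` -/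
theorem c08_tr_pow (s : G) (ψ : G →* Multiplicative ℤ) (hψ : ψ s = Multiplicative.ofAdd 1)
    (k : ℕ) : (trN G).f ((lamG s : N G) ^ (k + 1)) = 0 := by
  classical
  rw [← map_pow, trN_apply, co_lamG, if_neg]
  intro h
  have h1 := congrArg ψ h
  rw [map_one, map_pow, hψ, ← ofAdd_nsmul, ← ofAdd_zero] at h1
  have h2 := Multiplicative.ofAdd.injective h1
  rw [nsmul_eq_mul, mul_one] at h2
  exact absurd h2.symm (by positivity)

theorem c08_hsig (γ : β ⊕ Unit → G) (ψ : G →* Multiplicative ℤ)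
    (hψ : ψ (γ (Sum.inr ())) = Multiplicative.ofAdd 1) (ρ : ℝ) (hρ : 0 < ρ) :
    ∃ ε₀ : ℝ, 0 < ε₀ ∧ ∀ ε : ℝ, 0 < ε → ε ≤ ε₀ →
      LM (trN G) ((c08_sig γ)ᴴ * c08_sig γ + eI (N G) Unit ε) ≤ ρ := by
  obtain ⟨ε₀, h1, h2⟩ := L_sub_one_le (trN G) (lamG_star_mul (γ (Sum.inr ())))
    (lamG_mul_star (γ (Sum.inr ()))) (c08_tr_pow _ ψ hψ) hρ
  refine ⟨ε₀, h1, fun ε h3 h4 => ?_⟩
  rw [c08_LM_sig γ h3]
  exact h2 ε h3 h4

theorem c08_one_le {𝔄 : Type*} [CStarAlgebra 𝔄] [PartialOrder 𝔄] [StarOrderedRing 𝔄] (τ : Tr 𝔄)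
    {ι : Type*} [Fintype ι] [DecidableEq ι] {ε : ℝ} (hε : 0 < ε) :
    0 ≤ LM τ (1 + eI 𝔄 ι ε) := by
  have h1 : SPM (1 : Matrix ι ι 𝔄) := by
    unfold SPM
    rw [toC_one]
    exact isStrictlyPositive_one
  have h2 : LM τ (1 : Matrix ι ι 𝔄) = 0 := by
    unfold LM
    rw [toC_one]
    exact L_one _
  rw [← h2]
  refine LM_mono τ h1 ?_
  rw [LeM_iff, add_sub_cancel_left]
  unfold PM
  rw [toC_eI]
  exact algebraMap_nonneg _ hε.le

theorem c08_LB_one : LB (1 : Matrix Unit Unit (MonoidAlgebra ℂ G)) 0 := by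
  intro ε hε
  unfold LG
  rw [lamM_one, Matrix.conjTranspose_one, one_mul]
  exact c08_one_le (trN G) hε

theorem c08_LB_sig (γ : β ⊕ Unit → G) (ψ : G →* Multiplicative ℤ)
    (hψ : ψ (γ (Sum.inr ())) = Multiplicative.ofAdd 1) :
    LB (fun _ u => gcol γ (Sum.inr ()) u : Matrix Unit Unit (MonoidAlgebra ℂ G)) 0 := by
  classical
  have h := LB_szego ψ (fun k : ℕ => if k = 0 then (-1 : Matrix Unit Unit (MonoidAlgebra ℂ G))
    else if k = 1 then fun _ _ => MonoidAlgebra.single (γ (Sum.inr ())) 1 else 0) ?_ 1 (c := 0) ?_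
  · rw [Finset.sum_range_succ, Finset.sum_range_one, if_pos rfl, if_neg one_ne_zero,
      if_pos rfl] at h
    have e : (fun _ u => gcol γ (Sum.inr ()) u : Matrix Unit Unit (MonoidAlgebra ℂ G)) =
        -1 + fun _ _ => MonoidAlgebra.single (γ (Sum.inr ())) 1 := by
      ext k l : 2
      rw [Subsingleton.elim k l]
      change MonoidAlgebra.single (γ (Sum.inr ())) (1 : ℂ) - 1 =
        -(1 : Matrix Unit Unit (MonoidAlgebra ℂ G)) l l +
          MonoidAlgebra.single (γ (Sum.inr ())) 1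
      rw [Matrix.one_apply_eq, sub_eq_neg_add]
    rw [e]
    exact h
  · intro k i j g hg
    by_cases h0 : k = 0
    · subst h0
      rw [if_pos rfl, Subsingleton.elim i j, Matrix.neg_apply, Matrix.one_apply_eq,
        MonoidAlgebra.one_def] at hg
      have h1 : g = 1 := by
        by_contra h2
        apply hg
        rw [MonoidAlgebra.coeff_neg, MonoidAlgebra.coeff_single, Finsupp.neg_apply,
          Finsupp.single_eq_of_ne h2, neg_zero]
      rw [h1, map_one]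
      rfl
    · rw [if_neg h0] at hg
      by_cases h1 : k = 1
      · subst h1
        rw [if_pos rfl] at hg
        have h1 : g = γ (Sum.inr ()) := by
          by_contra h2
          apply hg
          rw [MonoidAlgebra.coeff_single, Finsupp.single_eq_of_ne h2]
        rw [h1, hψ]
        rfl
      · rw [if_neg h1] at hg
        exact absurd rfl hg
  · rw [if_pos rfl]
    exact LB_neg c08_LB_one

theorem c08_Lap0_nonneg (γ : β ⊕ Unit → G) (ψ : G →* Multiplicative ℤ)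
    (hψ : ψ (γ (Sum.inr ())) = Multiplicative.ofAdd 1) {ε : ℝ} (hε : 0 < ε) :
    0 ≤ LM (trN G) (Lap0 γ + eI (N G) Unit ε) := by
  have h1 : 0 ≤ LM (trN G) ((c08_sig γ)ᴴ * c08_sig γ + eI (N G) Unit ε) :=
    c08_LB_sig γ ψ hψ ε hε
  refine h1.trans (LM_mono (trN G) (SPM_add_eI (PM_conjTranspose_mul_self _) hε) ?_)
  rw [LeM_iff, c08_Lap0]
  have e : (c08_w γ)ᴴ * c08_w γ + (c08_sig γ)ᴴ * c08_sig γ + eI (N G) Unit ε -
      ((c08_sig γ)ᴴ * c08_sig γ + eI (N G) Unit ε) = (c08_w γ)ᴴ * c08_w γ := by abel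
  rw [e]
  exact PM_conjTranspose_mul_self _

theorem rho_le (γ : β ⊕ Unit → G) (r : β → FreeGroup (β ⊕ Unit))
    (hr : ∀ k, FreeGroup.lift γ (r k) = 1) (ψ : G →* Multiplicative ℤ)
    (hψ : ψ (γ (Sum.inr ())) = Multiplicative.ofAdd 1) {c : ℝ}
    (hS : LB (fun k b => foxM γ r k (Sum.inl b) : Matrix β β (MonoidAlgebra ℂ G)) c) :
    DetClass (Lap2 γ r) ∧ DetClass (Lap0 γ) ∧ rho γ r ≤ -c / 2 := by
  have hd0 : DetClass (Lap0 γ) := by
    refine ⟨0, ?_⟩
    rintro _ ⟨ε, rfl⟩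
    exact c08_Lap0_nonneg γ ψ hψ ε.2
  have hne : Nonempty {ε : ℝ // 0 < ε} := ⟨⟨1, one_pos⟩⟩
  have key : ∀ ε : ℝ, 0 < ε → c + logDet (Lap0 γ) ≤ LM (trN G) (Lap2 γ r + eI (N G) β ε) := by
    intro ε hε
    rw [c08_Lap2]
    refine laplacian_lower (τ := trN G) trN_one (c08_S γ r) (c08_v γ r) (c08_w γ) (c08_sig γ)
      (c08_DV γ r hr) (fun ε hε => hS ε hε) (c08_hsig γ ψ hψ) ?_ ?_ hε
    · intro ε hε
      rw [← c08_Lap0]
      exact ciInf_le hd0 (⟨ε, hε⟩ : {ε : ℝ // 0 < ε})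
    · intro ρ hρ
      have h1 : logDet (Lap0 γ) < logDet (Lap0 γ) + ρ := by linarith
      obtain ⟨ε, h2⟩ := exists_lt_of_ciInf_lt h1
      refine ⟨ε.1, ε.2, ?_⟩
      rw [← c08_Lap0]
      exact h2.le
  have hd2 : DetClass (Lap2 γ r) := by
    refine ⟨c + logDet (Lap0 γ), ?_⟩
    rintro _ ⟨ε, rfl⟩
    exact key ε.1 ε.2
  have h3 : c + logDet (Lap0 γ) ≤ logDet (Lap2 γ r) := le_ciInf fun ε => key ε.1 ε.2
  refine ⟨hd2, hd0, ?_⟩
  unfold rho
  linarith

end LT
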