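import Pool.Agent.H29.LT.C08

/-!
# LT-C09: HNN extensions of a free group

`G = ⟨β ⊔ {s} | s c'_k s⁻¹ = c_k (k ∈ β)⟩`, `c, c' : β → F(β)` free families.

* `inj`: `F(β) → G` is injective: let `C' = range (lift c')`, `C = range (lift c)`; `lift c'`,
  `lift c` are isomorphisms of `F(β)` onto them, so `φ : C' ≃* C` with `φ (c'_k) = c_k`.
  In Mathlib's `HNNExtension (FreeGroup β) C' C φ` one has `t * of a = of (φ a) * t`
  (`HNNExtension.t_mul_of`), so `b ↦ of b`, `s ↦ t` defines `G → HNNExtension ..`
  (`PresentedGroup.toGroup`), and its composition with `F(β) → G` is `of`, injective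
  (`HNNExtension.of_injective`).
* `ψ : G → ℤ`, `b ↦ 0`, `s ↦ 1`.
* Fox derivatives: with `r_k = s (c'_k) s⁻¹ (c_k)⁻¹` (`c_k` renamed by `Sum.inl`),
  `∂r_k/∂b = s ∂c'_k/∂b - (s c'_k s⁻¹ c_k⁻¹) ∂c_k/∂b` in `ℂ[F(β ⊔ s)]`, (`fox_mul`, `fox_inv`,
  `fox_map`, `fox_map_of_notMem`, `fox_of`), which maps to `s · φ(∂c'_k/∂b) - φ(∂c_k/∂b)` in `ℂ[G]`
  (`φ : ℂ[F(β)] → ℂ[G]`).  So the square matrix `S` of `rho_le` is `x 0 + x 1` with
  `x 0 = - mapM φ J`, `J k b = fox b (c k)`, and `x 1 = s · mapM φ J'`; the supports have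
  `ψ = 0`, resp. `1`.  `LB_szego` (`d = 1`), `LB_neg`, `LB_mapM` (injectivity) give `LB S c₀`.
* `rho_le`.
-/

set_option linter.unusedSectionVars false

namespace LT

variable {β : Type*} [Fintype β] [DecidableEq β]

/-- the relator `s c'_k s⁻¹ c_k⁻¹` -/
def hnnRel (c c' : β → FreeGroup β) (k : β) : FreeGroup (β ⊕ Unit) :=
  FreeGroup.of (Sum.inr ()) * FreeGroup.map Sum.inl (c' k) * (FreeGroup.of (Sum.inr ()))⁻¹
    * (FreeGroup.map Sum.inl (c k))⁻¹

/-- the group `⟨β, s | s c'_k s⁻¹ = c_k⟩` -/
abbrev HG (c c' : β → FreeGroup β) : Type _ := PresentedGroup (Set.range (hnnRel c c'))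

/-- the isomorphism of the two associated subgroups -/
noncomputable def c09_iso {c c' : β → FreeGroup β} (hc : Function.Injective (FreeGroup.lift c))
    (hc' : Function.Injective (FreeGroup.lift c')) :
    (FreeGroup.lift c').range ≃* (FreeGroup.lift c).range :=
  (MonoidHom.ofInjective hc').symm.trans (MonoidHom.ofInjective hc)

theorem c09_iso_apply {c c' : β → FreeGroup β} (hc : Function.Injective (FreeGroup.lift c))
    (hc' : Function.Injective (FreeGroup.lift c')) (w : FreeGroup β) :
    (c09_iso hc hc' (MonoidHom.ofInjective hc' w) : FreeGroup β) = FreeGroup.lift c w := by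
  unfold c09_iso
  rw [MulEquiv.trans_apply, MulEquiv.symm_apply_apply, MonoidHom.ofInjective_apply]

/-- the images of the generators in the HNN extension -/
noncomputable def c09_gen {c c' : β → FreeGroup β} (hc : Function.Injective (FreeGroup.lift c))
    (hc' : Function.Injective (FreeGroup.lift c')) :
    β ⊕ Unit → HNNExtension (FreeGroup β) (FreeGroup.lift c').range (FreeGroup.lift c).range
      (c09_iso hc hc') :=
  Sum.elim (fun b => HNNExtension.of (FreeGroup.of b)) (fun _ => HNNExtension.t)

theorem c09_gen_map {c c' : β → FreeGroup β} (hc : Function.Injective (FreeGroup.lift c))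
    (hc' : Function.Injective (FreeGroup.lift c')) (w : FreeGroup β) :
    FreeGroup.lift (c09_gen hc hc') (FreeGroup.map Sum.inl w) = HNNExtension.of w := by
  have h : (FreeGroup.lift (c09_gen hc hc')).comp (FreeGroup.map Sum.inl) = HNNExtension.of := by
    ext b
    rw [MonoidHom.comp_apply, FreeGroup.map.of, FreeGroup.lift_apply_of]
    rfl
  exact DFunLike.congr_fun h w

theorem c09_rel {c c' : β → FreeGroup β} (hc : Function.Injective (FreeGroup.lift c))
    (hc' : Function.Injective (FreeGroup.lift c')) :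
    ∀ r ∈ Set.range (hnnRel c c'), FreeGroup.lift (c09_gen hc hc') r = 1 := by
  rintro _ ⟨k, rfl⟩
  unfold hnnRel
  rw [map_mul, map_mul, map_mul, map_inv, map_inv, c09_gen_map, c09_gen_map,
    FreeGroup.lift_apply_of]
  have h := HNNExtension.equiv_eq_conj (φ := c09_iso hc hc')
    (MonoidHom.ofInjective hc' (FreeGroup.of k))
  rw [c09_iso_apply, MonoidHom.ofInjective_apply, FreeGroup.lift_apply_of,
    FreeGroup.lift_apply_of] at h
  rw [h]
  change HNNExtension.t * _ * HNNExtension.t⁻¹ * _ = 1
  exact mul_inv_cancel _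

theorem HG_injective (c c' : β → FreeGroup β) (hc : Function.Injective (FreeGroup.lift c))
    (hc' : Function.Injective (FreeGroup.lift c')) :
    Function.Injective ((FreeGroup.lift fun b => (PresentedGroup.of (Sum.inl b) : HG c c'))
      : FreeGroup β →* HG c c') := by
  have h : (PresentedGroup.toGroup (c09_rel hc hc')).comp
      ((FreeGroup.lift fun b => (PresentedGroup.of (Sum.inl b) : HG c c'))
      : FreeGroup β →* HG c c') = HNNExtension.of := by
    ext b
    rw [MonoidHom.comp_apply, FreeGroup.lift_apply_of, PresentedGroup.toGroup.of]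
    rfl
  have h2 : Function.Injective ((PresentedGroup.toGroup (c09_rel hc hc')).comp
      ((FreeGroup.lift fun b => (PresentedGroup.of (Sum.inl b) : HG c c'))
      : FreeGroup β →* HG c c')) := by
    rw [h]
    exact HNNExtension.of_injective (φ := c09_iso hc hc')
  intro x y hxy
  apply h2
  rw [MonoidHom.comp_apply, MonoidHom.comp_apply, hxy]

/-- the Fox derivatives of the relators -/
theorem c09_fox (c c' : β → FreeGroup β) (k b : β) :
    fox (Sum.inl b) (hnnRel c c' k) =
      MonoidAlgebra.single (FreeGroup.of (Sum.inr ())) 1 *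
        MonoidAlgebra.mapDomain (FreeGroup.map Sum.inl) (fox b (c' k)) -
      MonoidAlgebra.single (hnnRel c c' k) 1 *
        MonoidAlgebra.mapDomain (FreeGroup.map Sum.inl) (fox b (c k)) := by
  unfold hnnRel
  rw [fox_mul, fox_mul, fox_mul, fox_inv, fox_inv, fox_map Sum.inl Sum.inl_injective,
    fox_map Sum.inl Sum.inl_injective, fox_of, if_neg (by simp), mul_zero, neg_zero, mul_zero,
    add_zero, zero_add, mul_neg, ← mul_assoc, MonoidAlgebra.single_mul_single, one_mul,
    sub_eq_add_neg]

theorem c09_single (c c' : β → FreeGroup β) (k : β) :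
    FreeGroup.lift (fun b => (PresentedGroup.of b : HG c c')) (hnnRel c c' k) = 1 := by
  have h : FreeGroup.lift (fun b => (PresentedGroup.of b : HG c c')) =
      PresentedGroup.mk (Set.range (hnnRel c c')) := by
    ext b
    rw [FreeGroup.lift_apply_of]
    rfl
  rw [h]
  exact PresentedGroup.one_of_mem ⟨k, rfl⟩

/-- the Fox matrix over the group ring of `G` -/
theorem c09_foxM (c c' : β → FreeGroup β) (k b : β) :
    foxM (fun b => (PresentedGroup.of b : HG c c')) (hnnRel c c') k (Sum.inl b) =
      MonoidAlgebra.single (PresentedGroup.of (Sum.inr ()) : HG c c') 1 *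
        MonoidAlgebra.mapDomain (FreeGroup.lift fun b => (PresentedGroup.of (Sum.inl b) : HG c c'))
          (fox b (c' k)) -
      MonoidAlgebra.mapDomain (FreeGroup.lift fun b => (PresentedGroup.of (Sum.inl b) : HG c c'))
          (fox b (c k)) := by
  have hcomp : ∀ x : MonoidAlgebra ℂ (FreeGroup β),
      MonoidAlgebra.mapDomainRingHom ℂ (FreeGroup.lift fun b => (PresentedGroup.of b : HG c c'))
        (MonoidAlgebra.mapDomain (FreeGroup.map Sum.inl) x) =
      MonoidAlgebra.mapDomain
        (FreeGroup.lift fun b => (PresentedGroup.of (Sum.inl b) : HG c c')) x := by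
    intro x
    have h : (FreeGroup.lift fun b => (PresentedGroup.of b : HG c c')).comp
        (FreeGroup.map Sum.inl) =
        FreeGroup.lift fun b => (PresentedGroup.of (Sum.inl b) : HG c c') := by
      ext b
      rw [MonoidHom.comp_apply, FreeGroup.map.of, FreeGroup.lift_apply_of,
        FreeGroup.lift_apply_of]
    induction x using MonoidAlgebra.induction_linear with
    | zero => rw [MonoidAlgebra.mapDomain_zero, map_zero, MonoidAlgebra.mapDomain_zero]
    | add a b ha hb =>
      rw [MonoidAlgebra.mapDomain_add, map_add, ha, hb, MonoidAlgebra.mapDomain_add]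
    | single g r =>
      rw [MonoidAlgebra.mapDomain_single, MonoidAlgebra.mapDomainRingHom_apply,
        MonoidAlgebra.mapDomain_single, MonoidAlgebra.mapDomain_single, ← h,
        MonoidHom.comp_apply]
  unfold foxM
  change MonoidAlgebra.mapDomainRingHom ℂ
    (FreeGroup.lift fun b => (PresentedGroup.of b : HG c c')) (fox (Sum.inl b) (hnnRel c c' k)) = _
  rw [c09_fox, map_sub, map_mul, map_mul, hcomp, hcomp, MonoidAlgebra.mapDomainRingHom_apply,
    MonoidAlgebra.mapDomainRingHom_apply, MonoidAlgebra.mapDomain_single,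
    MonoidAlgebra.mapDomain_single, c09_single, FreeGroup.lift_apply_of,
    ← MonoidAlgebra.one_def, one_mul]

/-- supports of the images of elements of the group ring of `F(β)` -/
theorem c09_supp {G K : Type*} [Group G] [Group K] (φ : G →* K) (x : MonoidAlgebra ℂ G) {g : K}
    (h : (MonoidAlgebra.mapDomain φ x).coeff g ≠ 0) : ∃ a, φ a = g := by
  by_contra h1
  apply h
  change (Finsupp.mapDomain φ x.coeff) g = 0
  exact Finsupp.mapDomain_of_notMem_range _ _ fun ⟨a, ha⟩ => h1 ⟨a, ha⟩

/-- the height homomorphism -/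
noncomputable def c09_psi (c c' : β → FreeGroup β) : HG c c' →* Multiplicative ℤ :=
  PresentedGroup.toGroup (f := Sum.elim (fun _ => 1) (fun _ => Multiplicative.ofAdd 1)) (by
    have h : ∀ w : FreeGroup β, FreeGroup.lift (Sum.elim (fun _ : β => (1 : Multiplicative ℤ))
        (fun _ : Unit => Multiplicative.ofAdd 1)) (FreeGroup.map Sum.inl w) = 1 := by
      intro w
      have h1 : (FreeGroup.lift (Sum.elim (fun _ : β => (1 : Multiplicative ℤ))
        (fun _ : Unit => Multiplicative.ofAdd 1))).comp (FreeGroup.map Sum.inl) = 1 := by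
        ext b
        rw [MonoidHom.comp_apply, FreeGroup.map.of, FreeGroup.lift_apply_of]
        rfl
      exact DFunLike.congr_fun h1 w
    rintro _ ⟨k, rfl⟩
    unfold hnnRel
    rw [map_mul, map_mul, map_mul, map_inv, map_inv, h, h, mul_one, inv_one, mul_one,
      mul_inv_cancel])

theorem c09_psi_base (c c' : β → FreeGroup β) (w : FreeGroup β) :
    c09_psi c c' (FreeGroup.lift (fun b => (PresentedGroup.of (Sum.inl b) : HG c c')) w) = 1 := by
  have h1 : (c09_psi c c').comp
      (FreeGroup.lift fun b => (PresentedGroup.of (Sum.inl b) : HG c c')) = 1 := by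
    ext b
    rw [MonoidHom.comp_apply, FreeGroup.lift_apply_of]
    unfold c09_psi
    rw [PresentedGroup.toGroup.of]
    rfl
  exact DFunLike.congr_fun h1 w

theorem c09_psi_s (c c' : β → FreeGroup β) :
    c09_psi c c' (PresentedGroup.of (Sum.inr ())) = Multiplicative.ofAdd 1 := by
  unfold c09_psi
  rw [PresentedGroup.toGroup.of]
  rfl

/-- the part of height `0` -/
noncomputable def c09_x0 (c c' : β → FreeGroup β) : Matrix β β (MonoidAlgebra ℂ (HG c c')) :=
  -(mapM (FreeGroup.lift fun b => (PresentedGroup.of (Sum.inl b) : HG c c'))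
    (fun k b => fox b (c k) : Matrix β β (MonoidAlgebra ℂ (FreeGroup β))))

/-- the part of height `1` -/
noncomputable def c09_x1 (c c' : β → FreeGroup β) : Matrix β β (MonoidAlgebra ℂ (HG c c')) :=
  fun k b => MonoidAlgebra.single (PresentedGroup.of (Sum.inr ()) : HG c c') 1 *
    MonoidAlgebra.mapDomain (FreeGroup.lift fun b => (PresentedGroup.of (Sum.inl b) : HG c c'))
      (fox b (c' k))

/-- the lower bound for the square Fox matrix -/
theorem c09_LB (c c' : β → FreeGroup β) (hc : Function.Injective (FreeGroup.lift c))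
    (hc' : Function.Injective (FreeGroup.lift c')) {c₀ : ℝ}
    (hJ : LB (fun k b => fox b (c k) : Matrix β β (MonoidAlgebra ℂ (FreeGroup β))) c₀) :
    LB (fun k b => foxM (fun b => (PresentedGroup.of b : HG c c')) (hnnRel c c') k (Sum.inl b)
      : Matrix β β (MonoidAlgebra ℂ (HG c c'))) c₀ := by
  classical
  have h := LB_szego (c09_psi c c') (fun k : ℕ => if k = 0 then c09_x0 c c'
    else if k = 1 then c09_x1 c c' else 0) ?_ 1 (c := c₀) ?_
  · rw [Finset.sum_range_succ, Finset.sum_range_one, if_pos rfl, if_neg one_ne_zero,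
      if_pos rfl] at h
    have e : (fun k b => foxM (fun b => (PresentedGroup.of b : HG c c')) (hnnRel c c') k
        (Sum.inl b) : Matrix β β (MonoidAlgebra ℂ (HG c c'))) = c09_x0 c c' + c09_x1 c c' := by
      ext k b : 2
      rw [c09_foxM, sub_eq_neg_add]
      rfl
    rw [e]
    exact h
  · intro k i j g hg
    by_cases h0 : k = 0
    · subst h0
      rw [if_pos rfl] at hg
      unfold c09_x0 at hg
      rw [Matrix.neg_apply, MonoidAlgebra.coeff_neg, Finsupp.neg_apply] at hg
      have h1 := neg_ne_zero.1 hg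
      obtain ⟨a, rfl⟩ := c09_supp _ _ h1
      rw [c09_psi_base]
      rfl
    · rw [if_neg h0] at hg
      by_cases h1 : k = 1
      · subst h1
        rw [if_pos rfl] at hg
        have h2 : g = PresentedGroup.of (Sum.inr ()) *
            ((PresentedGroup.of (Sum.inr ()))⁻¹ * g) := by group
        unfold c09_x1 at hg
        rw [h2, MonoidAlgebra.coeff_single_mul_mul, one_mul] at hg
        obtain ⟨a, ha⟩ := c09_supp _ _ hg
        rw [h2, ← ha, map_mul, c09_psi_base, c09_psi_s]
        rfl
      · rw [if_neg h1] at hg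
        exact absurd rfl hg
  · rw [if_pos rfl]
    exact LB_neg (LB_mapM _ (HG_injective c c' hc hc') hJ)

theorem hnn_rho (c c' : β → FreeGroup β) (hc : Function.Injective (FreeGroup.lift c))
    (hc' : Function.Injective (FreeGroup.lift c')) {c₀ : ℝ}
    (hJ : LB (fun k b => fox b (c k) : Matrix β β (MonoidAlgebra ℂ (FreeGroup β))) c₀) :
    DetClass (Lap2 (fun b => (PresentedGroup.of b : HG c c')) (hnnRel c c')) ∧
    DetClass (Lap0 (fun b => (PresentedGroup.of b : HG c c'))) ∧
    rho (fun b => (PresentedGroup.of b : HG c c')) (hnnRel c c') ≤ -c₀ / 2 := by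
  exact rho_le _ _ (c09_single c c') (c09_psi c c') (c09_psi_s c c') (c09_LB c c' hc hc' hJ)

end LT
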