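import Mathlib

/-!
# LT: Fox derivatives (definitions and basic rules)

`foxL j` is defined on words, `fox j w = foxL j w.toWord`.
* `fox_mul`: first show that `foxL j` does not change under elementary reductions
  (`foxL j ((i,b) :: (i,!b) :: l) = foxL j l`) and the product rule for concatenation
  `foxL j (l ++ l') = foxL j l + single (FreeGroup.mk l) 1 * foxL j l'`; then
  `(v * w).toWord` is the reduction of `v.toWord ++ w.toWord` (`FreeGroup.toWord_mul`,
  `FreeGroup.reduce`), and `foxL j` is invariant under `FreeGroup.Red` (so equal on words with the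
  same `FreeGroup.mk`).
* `fox_fundamental`: induction on the word.
-/

set_option linter.unusedSectionVars false

namespace LT

variable {ι : Type*} [DecidableEq ι]

/-- Fox derivative `∂/∂x_j` on (possibly unreduced) words. -/
noncomputable def foxL (j : ι) : List (ι × Bool) → MonoidAlgebra ℂ (FreeGroup ι)
  | [] => 0
  | (i, true) :: l =>
      (if i = j then 1 else 0) + MonoidAlgebra.single (FreeGroup.of i) 1 * foxL j l
  | (i, false) :: l =>
      MonoidAlgebra.single (FreeGroup.of i)⁻¹ 1 * (foxL j l - if i = j then 1 else 0)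

/-- The Fox derivative `∂w/∂x_j` of an element of a free group (in `ℂ[F]`; all coefficients are
integers): `∂x_i/∂x_j = δ_ij`, `∂(v w)/∂x_j = ∂v/∂x_j + v ∂w/∂x_j`. -/
noncomputable def fox (j : ι) (w : FreeGroup ι) : MonoidAlgebra ℂ (FreeGroup ι) :=
  foxL j w.toWord

theorem fx_single_mul (a b : FreeGroup ι) :
    (MonoidAlgebra.single a 1 : MonoidAlgebra ℂ (FreeGroup ι)) * MonoidAlgebra.single b 1 =
      MonoidAlgebra.single (a * b) 1 := by
  rw [MonoidAlgebra.single_mul_single, one_mul]

theorem fx_single_inv (a : FreeGroup ι) :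
    (MonoidAlgebra.single a⁻¹ 1 : MonoidAlgebra ℂ (FreeGroup ι)) * MonoidAlgebra.single a 1 = 1 := by
  rw [fx_single_mul, inv_mul_cancel, MonoidAlgebra.one_def]

theorem fx_inv_single (a : FreeGroup ι) :
    (MonoidAlgebra.single a 1 : MonoidAlgebra ℂ (FreeGroup ι)) * MonoidAlgebra.single a⁻¹ 1 = 1 := by
  rw [fx_single_mul, mul_inv_cancel, MonoidAlgebra.one_def]

theorem fx_mk_true (i : ι) (l : List (ι × Bool)) :
    FreeGroup.mk ((i, true) :: l) = FreeGroup.of i * FreeGroup.mk l := rfl

theorem fx_mk_false (i : ι) (l : List (ι × Bool)) :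
    FreeGroup.mk ((i, false) :: l) = (FreeGroup.of i)⁻¹ * FreeGroup.mk l := rfl

theorem fx_append (j : ι) (l l' : List (ι × Bool)) :
    foxL j (l ++ l') = foxL j l + MonoidAlgebra.single (FreeGroup.mk l) 1 * foxL j l' := by
  induction l with
  | nil =>
    rw [List.nil_append]
    have h : FreeGroup.mk ([] : List (ι × Bool)) = 1 := rfl
    rw [h, ← MonoidAlgebra.one_def, one_mul]
    simp [foxL]
  | cons p l ih =>
    obtain ⟨i, b⟩ := p
    cases b
    · rw [List.cons_append, foxL, foxL, ih, fx_mk_false, ← fx_single_mul]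
      noncomm_ring
    · rw [List.cons_append, foxL, foxL, ih, fx_mk_true, ← fx_single_mul]
      noncomm_ring

theorem fx_pair (j i : ι) (b : Bool) (l : List (ι × Bool)) :
    foxL j ((i, b) :: (i, !b) :: l) = foxL j l := by
  cases b
  · rw [foxL, Bool.not_false, foxL, add_sub_cancel_left, ← mul_assoc, fx_single_inv, one_mul]
  · rw [foxL, Bool.not_true, foxL, ← mul_assoc, fx_inv_single, one_mul, add_sub_cancel]

theorem fx_step (j : ι) {l l' : List (ι × Bool)} (h : FreeGroup.Red.Step l l') :
    foxL j l = foxL j l' := by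
  cases h with
  | not => rw [fx_append, fx_append, fx_pair]

theorem fx_red (j : ι) {l l' : List (ι × Bool)} (h : FreeGroup.Red l l') :
    foxL j l = foxL j l' := by
  induction h with
  | refl => rfl
  | tail _ h ih => exact ih.trans (fx_step j h)

theorem fx_fund [Fintype ι] (l : List (ι × Bool)) :
    ∑ j, foxL j l * (MonoidAlgebra.single (FreeGroup.of j) 1 - 1) =
      MonoidAlgebra.single (FreeGroup.mk l) 1 - 1 := by
  have hd : ∀ i : ι, ∑ j, (if i = j then (1 : MonoidAlgebra ℂ (FreeGroup ι)) else 0) *
      (MonoidAlgebra.single (FreeGroup.of j) 1 - 1) =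
      MonoidAlgebra.single (FreeGroup.of i) 1 - 1 := by
    intro i
    rw [Finset.sum_eq_single i]
    · rw [if_pos rfl, one_mul]
    · intro j _ hj
      rw [if_neg (fun h => hj h.symm), zero_mul]
    · intro h
      exact absurd (Finset.mem_univ i) h
  induction l with
  | nil =>
    have h : FreeGroup.mk ([] : List (ι × Bool)) = 1 := rfl
    rw [h, ← MonoidAlgebra.one_def, sub_self]
    exact Finset.sum_eq_zero fun j _ => by rw [foxL, zero_mul]
  | cons p l ih =>
    obtain ⟨i, b⟩ := p
    cases b
    · have e : ∀ j, foxL j ((i, false) :: l) * (MonoidAlgebra.single (FreeGroup.of j) 1 - 1) =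
          MonoidAlgebra.single (FreeGroup.of i)⁻¹ 1 *
            (foxL j l * (MonoidAlgebra.single (FreeGroup.of j) 1 - 1) -
              (if i = j then (1 : MonoidAlgebra ℂ (FreeGroup ι)) else 0) *
                (MonoidAlgebra.single (FreeGroup.of j) 1 - 1)) := by
        intro j
        rw [foxL]
        noncomm_ring
      rw [Finset.sum_congr rfl fun j _ => e j, ← Finset.mul_sum, Finset.sum_sub_distrib, ih, hd,
        sub_sub_sub_cancel_right, mul_sub, fx_single_mul, fx_single_inv, fx_mk_false]
    · have e : ∀ j, foxL j ((i, true) :: l) * (MonoidAlgebra.single (FreeGroup.of j) 1 - 1) =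
          (if i = j then (1 : MonoidAlgebra ℂ (FreeGroup ι)) else 0) *
                (MonoidAlgebra.single (FreeGroup.of j) 1 - 1) +
          MonoidAlgebra.single (FreeGroup.of i) 1 *
            (foxL j l * (MonoidAlgebra.single (FreeGroup.of j) 1 - 1)) := by
        intro j
        rw [foxL]
        noncomm_ring
      rw [Finset.sum_congr rfl fun j _ => e j, Finset.sum_add_distrib, hd, ← Finset.mul_sum, ih,
        mul_sub, fx_single_mul, mul_one, fx_mk_true]
      abel

theorem fox_one (j : ι) : fox j (1 : FreeGroup ι) = 0 := by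
  unfold fox
  rw [FreeGroup.toWord_one]
  rfl

theorem fox_of (i j : ι) : fox j (FreeGroup.of i) = if i = j then 1 else 0 := by
  unfold fox
  rw [FreeGroup.toWord_of]
  rw [foxL, foxL, mul_zero, add_zero]

theorem fox_mul (j : ι) (v w : FreeGroup ι) :
    fox j (v * w) = fox j v + MonoidAlgebra.single v 1 * fox j w := by
  unfold fox
  rw [FreeGroup.toWord_mul, ← fx_red j FreeGroup.reduce.red, fx_append, FreeGroup.mk_toWord]

theorem fox_inv (j : ι) (v : FreeGroup ι) :
    fox j v⁻¹ = - (MonoidAlgebra.single v⁻¹ 1 * fox j v) := by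
  have h := fox_mul j v⁻¹ v
  rw [inv_mul_cancel, fox_one] at h
  exact eq_neg_of_add_eq_zero_left h.symm

theorem fox_fundamental [Fintype ι] (w : FreeGroup ι) :
    ∑ j, fox j w * (MonoidAlgebra.single (FreeGroup.of j) 1 - 1) = MonoidAlgebra.single w 1 - 1 := by
  have h := fx_fund w.toWord
  rw [FreeGroup.mk_toWord] at h
  exact h

/-- Fox derivatives and an injective renaming of the generators -/
theorem fox_map {κ : Type*} [DecidableEq κ] (f : ι → κ) (hf : Function.Injective f) (j : ι)
    (w : FreeGroup ι) :
    fox (f j) (FreeGroup.map f w) = MonoidAlgebra.mapDomain (FreeGroup.map f) (fox j w) := by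
  have key : ∀ x y : FreeGroup ι,
      fox (f j) (FreeGroup.map f x) = MonoidAlgebra.mapDomainRingHom ℂ (FreeGroup.map f) (fox j x) →
      fox (f j) (FreeGroup.map f y) = MonoidAlgebra.mapDomainRingHom ℂ (FreeGroup.map f) (fox j y) →
      fox (f j) (FreeGroup.map f (x * y)) =
        MonoidAlgebra.mapDomainRingHom ℂ (FreeGroup.map f) (fox j (x * y)) := by
    intro x y hx hy
    rw [map_mul, fox_mul, fox_mul, hx, hy, map_add, map_mul]
    congr 2
    exact (MonoidAlgebra.mapDomain_single).symm
  have main : fox (f j) (FreeGroup.map f w) =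
      MonoidAlgebra.mapDomainRingHom ℂ (FreeGroup.map f) (fox j w) := by
    induction w using FreeGroup.induction_on with
    | C1 => rw [map_one, fox_one, fox_one, map_zero]
    | of x =>
      have h : FreeGroup.map f (FreeGroup.of x) = FreeGroup.of (f x) := FreeGroup.map.of
      change fox (f j) (FreeGroup.map f (FreeGroup.of x)) =
        MonoidAlgebra.mapDomainRingHom ℂ (FreeGroup.map f) (fox j (FreeGroup.of x))
      rw [h, fox_of, fox_of]
      by_cases hx : x = j
      · rw [if_pos (congrArg f hx), if_pos hx, map_one]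
      · rw [if_neg (fun h => hx (hf h)), if_neg hx, map_zero]
    | inv_of x ih =>
      rw [map_inv, fox_inv, fox_inv, ih, map_neg, map_mul]
      congr 2
      rw [← map_inv]
      exact (MonoidAlgebra.mapDomain_single).symm
    | mul x y hx hy => exact key x y hx hy
  exact main

theorem fox_map_of_notMem {κ : Type*} [DecidableEq κ] (f : ι → κ) (j : κ) (hj : ∀ i, f i ≠ j)
    (w : FreeGroup ι) : fox j (FreeGroup.map f w) = 0 := by
  induction w using FreeGroup.induction_on with
  | C1 => rw [map_one, fox_one]
  | of x =>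
    have h : FreeGroup.map f (FreeGroup.of x) = FreeGroup.of (f x) := FreeGroup.map.of
    change fox j (FreeGroup.map f (FreeGroup.of x)) = 0
    rw [h, fox_of, if_neg (hj x)]
  | inv_of x ih => rw [map_inv, fox_inv, ih, mul_zero, neg_zero]
  | mul x y hx hy => rw [map_mul, fox_mul, hx, hy, mul_zero, add_zero]

end LT
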