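import Pool.Agent.H29.LT.M02

/-!
# LT-M03: Sylvester's identity `D (1 + A B) = D (1 + B A)` (rectangular)

`A : Matrix ι κ 𝔄`, `B : Matrix κ ι 𝔄`, `1 + A B` invertible; then `1 + B A` is invertible with
inverse `1 - B (1 + A B)⁻¹ A`, and
`fromBlocks 1 (-A) B 1 = fromBlocks 1 0 B 1 * fromBlocks 1 (-A) 0 (1 + B A)
  = fromBlocks 1 (-A) 0 1 * fromBlocks (1 + A B) 0 B 1`.
Take `D` (`DM_mul`, `DM_tri₁₂`, `DM_tri₂₁`, `DM_unip₁₂`, `DM_unip₂₁`).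
-/

set_option linter.unusedSectionVars false

namespace LT

open scoped Matrix ComplexOrder

variable {𝔄 : Type*} [CStarAlgebra 𝔄] [PartialOrder 𝔄] [StarOrderedRing 𝔄] (τ : Tr 𝔄)
variable {ι κ : Type*} [Fintype ι] [DecidableEq ι] [Fintype κ] [DecidableEq κ]

theorem m03_isUnit_tri₁₂ {x : Matrix ι ι 𝔄} {y : Matrix κ κ 𝔄} (hx : IsUnit x)
    (hy : IsUnit y) (b : Matrix ι κ 𝔄) : IsUnit (Matrix.fromBlocks x b 0 y) := by
  obtain ⟨u, rfl⟩ := hx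
  obtain ⟨v, rfl⟩ := hy
  have hu : (u : Matrix ι ι 𝔄) * (↑u⁻¹ : Matrix ι ι 𝔄) = 1 := u.mul_inv
  have hu' : (↑u⁻¹ : Matrix ι ι 𝔄) * (u : Matrix ι ι 𝔄) = 1 := u.inv_mul
  have hv : (v : Matrix κ κ 𝔄) * (↑v⁻¹ : Matrix κ κ 𝔄) = 1 := v.mul_inv
  have hv' : (↑v⁻¹ : Matrix κ κ 𝔄) * (v : Matrix κ κ 𝔄) = 1 := v.inv_mul
  refine ⟨⟨Matrix.fromBlocks u b 0 v, Matrix.fromBlocks (↑u⁻¹ : Matrix ι ι 𝔄)
    (-((↑u⁻¹ : Matrix ι ι 𝔄) * b * (↑v⁻¹ : Matrix κ κ 𝔄))) 0 (↑v⁻¹ : Matrix κ κ 𝔄), ?_, ?_⟩, rfl⟩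
  · have k : (u : Matrix ι ι 𝔄) * (-((↑u⁻¹ : Matrix ι ι 𝔄) * b * (↑v⁻¹ : Matrix κ κ 𝔄))) =
        -(b * (↑v⁻¹ : Matrix κ κ 𝔄)) := by
      rw [Matrix.mul_neg, ← Matrix.mul_assoc, ← Matrix.mul_assoc, hu, Matrix.one_mul]
    rw [Matrix.fromBlocks_multiply, hu, hv, k, Matrix.mul_zero, Matrix.zero_mul, Matrix.zero_mul,
      Matrix.mul_zero, add_zero, neg_add_cancel, add_zero, zero_add, Matrix.fromBlocks_one]
  · have k : (-((↑u⁻¹ : Matrix ι ι 𝔄) * b * (↑v⁻¹ : Matrix κ κ 𝔄))) * (v : Matrix κ κ 𝔄) =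
        -((↑u⁻¹ : Matrix ι ι 𝔄) * b) := by
      rw [Matrix.neg_mul, Matrix.mul_assoc, hv', Matrix.mul_one]
    rw [Matrix.fromBlocks_multiply, hu', hv', k, Matrix.mul_zero, Matrix.zero_mul, Matrix.zero_mul,
      Matrix.mul_zero, add_zero, add_neg_cancel, add_zero, zero_add, Matrix.fromBlocks_one]

theorem m03_isUnit_tri₂₁ {x : Matrix ι ι 𝔄} {y : Matrix κ κ 𝔄} (hx : IsUnit x)
    (hy : IsUnit y) (c : Matrix κ ι 𝔄) : IsUnit (Matrix.fromBlocks x 0 c y) := by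
  obtain ⟨u, rfl⟩ := hx
  obtain ⟨v, rfl⟩ := hy
  have hu : (u : Matrix ι ι 𝔄) * (↑u⁻¹ : Matrix ι ι 𝔄) = 1 := u.mul_inv
  have hu' : (↑u⁻¹ : Matrix ι ι 𝔄) * (u : Matrix ι ι 𝔄) = 1 := u.inv_mul
  have hv : (v : Matrix κ κ 𝔄) * (↑v⁻¹ : Matrix κ κ 𝔄) = 1 := v.mul_inv
  have hv' : (↑v⁻¹ : Matrix κ κ 𝔄) * (v : Matrix κ κ 𝔄) = 1 := v.inv_mul
  refine ⟨⟨Matrix.fromBlocks u 0 c v, Matrix.fromBlocks (↑u⁻¹ : Matrix ι ι 𝔄) 0
    (-((↑v⁻¹ : Matrix κ κ 𝔄) * c * (↑u⁻¹ : Matrix ι ι 𝔄))) (↑v⁻¹ : Matrix κ κ 𝔄), ?_, ?_⟩, rfl⟩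
  · have k : (v : Matrix κ κ 𝔄) * (-((↑v⁻¹ : Matrix κ κ 𝔄) * c * (↑u⁻¹ : Matrix ι ι 𝔄))) =
        -(c * (↑u⁻¹ : Matrix ι ι 𝔄)) := by
      rw [Matrix.mul_neg, ← Matrix.mul_assoc, ← Matrix.mul_assoc, hv, Matrix.one_mul]
    rw [Matrix.fromBlocks_multiply, hu, hv, k, Matrix.mul_zero, Matrix.zero_mul, Matrix.zero_mul,
      Matrix.mul_zero, add_zero, add_neg_cancel, add_zero, zero_add, Matrix.fromBlocks_one]
  · have k : (-((↑v⁻¹ : Matrix κ κ 𝔄) * c * (↑u⁻¹ : Matrix ι ι 𝔄))) * (u : Matrix ι ι 𝔄) =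
        -((↑v⁻¹ : Matrix κ κ 𝔄) * c) := by
      rw [Matrix.neg_mul, Matrix.mul_assoc, hu', Matrix.mul_one]
    rw [Matrix.fromBlocks_multiply, hu', hv', k, Matrix.mul_zero, Matrix.zero_mul, Matrix.zero_mul,
      Matrix.mul_zero, add_zero, neg_add_cancel, add_zero, zero_add, Matrix.fromBlocks_one]

theorem isUnit_one_add_comm {A : Matrix ι κ 𝔄} {B : Matrix κ ι 𝔄} (h : IsUnit (1 + A * B)) :
    IsUnit (1 + B * A) := by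
  obtain ⟨u, hu⟩ := h
  obtain ⟨C, hC⟩ : ∃ C : Matrix ι ι 𝔄, C = (↑u⁻¹ : Matrix ι ι 𝔄) := ⟨_, rfl⟩
  have h1 : (1 + A * B) * C = 1 := by
    rw [← hu, hC]
    exact u.mul_inv
  have h2 : C * (1 + A * B) = 1 := by
    rw [← hu, hC]
    exact u.inv_mul
  have e1 : B * C * A + B * A * (B * C * A) = B * A := by
    have h3 : B * C * A + B * A * (B * C * A) = B * (((1 + A * B) * C) * A) := by
      simp only [Matrix.mul_add, Matrix.add_mul, Matrix.one_mul, Matrix.mul_assoc]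
    rw [h3, h1, Matrix.one_mul]
  have e2 : B * C * A + (B * C * A) * (B * A) = B * A := by
    have h3 : B * C * A + (B * C * A) * (B * A) = B * ((C * (1 + A * B)) * A) := by
      simp only [Matrix.mul_add, Matrix.add_mul, Matrix.mul_one, Matrix.mul_assoc]
    rw [h3, h2, Matrix.one_mul]
  refine ⟨⟨1 + B * A, 1 - B * C * A, ?_, ?_⟩, rfl⟩
  · rw [mul_sub, mul_one, add_mul, one_mul, e1]
    abel
  · rw [sub_mul, one_mul, mul_add, mul_one, e2]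
    abel

theorem DM_one_add_comm {A : Matrix ι κ 𝔄} {B : Matrix κ ι 𝔄} (h : IsUnit (1 + A * B)) :
    DM τ (1 + A * B) = DM τ (1 + B * A) := by
  have h' := isUnit_one_add_comm h
  have e1 : Matrix.fromBlocks (1 : Matrix ι ι 𝔄) (-A) B (1 : Matrix κ κ 𝔄) =
      Matrix.fromBlocks (1 : Matrix ι ι 𝔄) 0 B (1 : Matrix κ κ 𝔄) *
        Matrix.fromBlocks (1 : Matrix ι ι 𝔄) (-A) 0 (1 + B * A) := by
    rw [Matrix.fromBlocks_multiply]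
    simp only [Matrix.one_mul, Matrix.mul_one, Matrix.mul_zero, Matrix.zero_mul, Matrix.mul_neg,
      add_zero, zero_add]
    rw [neg_add_cancel_comm_assoc]
  have e2 : Matrix.fromBlocks (1 : Matrix ι ι 𝔄) (-A) B (1 : Matrix κ κ 𝔄) =
      Matrix.fromBlocks (1 : Matrix ι ι 𝔄) (-A) 0 (1 : Matrix κ κ 𝔄) *
        Matrix.fromBlocks (1 + A * B) 0 B (1 : Matrix κ κ 𝔄) := by
    rw [Matrix.fromBlocks_multiply]
    simp only [Matrix.one_mul, Matrix.mul_one, Matrix.mul_zero, Matrix.zero_mul, Matrix.neg_mul,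
      add_zero, zero_add]
    rw [add_neg_cancel_right]
  have d1 := congrArg (DM τ) e1
  rw [DM_mul τ (m03_isUnit_tri₂₁ isUnit_one isUnit_one B) (m03_isUnit_tri₁₂ isUnit_one h' (-A)),
    DM_unip₂₁, DM_tri₁₂ τ isUnit_one h', DM_one, zero_add, zero_add] at d1
  have d2 := congrArg (DM τ) e2
  rw [DM_mul τ (m03_isUnit_tri₁₂ isUnit_one isUnit_one (-A)) (m03_isUnit_tri₂₁ h isUnit_one B),
    DM_unip₁₂, DM_tri₂₁ τ h isUnit_one, DM_one, zero_add, add_zero] at d2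
  exact d2.symm.trans d1

end LT
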