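import Pool.Agent.H29.LT.Q00
import Pool.Agent.H29.LT.M01

/-!
# LT-M05: matrices with entries in a (closed) star subalgebra

`EntIn_inverse`: the matrices with entries in the closed star subalgebra `A` form a closed star
subalgebra of the C*-algebra `CStarMatrix ι ι 𝔄` (the topology of `CStarMatrix` is the product
topology, so closedness is entrywise), and an element of a closed star subalgebra which is
invertible in the big C*-algebra has its inverse in the subalgebra (spectral permanence,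
`StarSubalgebra.coe_isUnit` or `StarSubalgebra.spectrum_eq`).  Alternative for our Hermitian
`Q ≥ ε`, `Q ≤ c`: `Q⁻¹ = c⁻¹ Σ_k (1 - c⁻¹ Q)^k`, a norm limit of elements of the subalgebra.
-/

set_option linter.unusedSectionVars false

namespace LT

open scoped Matrix ComplexOrder

variable {𝔄 : Type*} [CStarAlgebra 𝔄] [PartialOrder 𝔄] [StarOrderedRing 𝔄]
variable {ι κ μ : Type*} [Fintype ι] [DecidableEq ι] [Fintype κ] [DecidableEq κ]
  [Fintype μ] [DecidableEq μ] (A : StarSubalgebra ℂ 𝔄)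

theorem EntIn.add {x y : Matrix ι κ 𝔄} (hx : EntIn (A : Set 𝔄) x) (hy : EntIn (A : Set 𝔄) y) :
    EntIn (A : Set 𝔄) (x + y) := by
  intro i j
  exact add_mem (hx i j) (hy i j)

theorem EntIn.sub {x y : Matrix ι κ 𝔄} (hx : EntIn (A : Set 𝔄) x) (hy : EntIn (A : Set 𝔄) y) :
    EntIn (A : Set 𝔄) (x - y) := by
  intro i j
  exact sub_mem (hx i j) (hy i j)

theorem EntIn.mul {x : Matrix ι κ 𝔄} {y : Matrix κ μ 𝔄} (hx : EntIn (A : Set 𝔄) x)
    (hy : EntIn (A : Set 𝔄) y) : EntIn (A : Set 𝔄) (x * y) := by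
  intro i j
  rw [Matrix.mul_apply]
  exact sum_mem fun k _ => mul_mem (hx i k) (hy k j)

theorem EntIn.conjTranspose {x : Matrix ι κ 𝔄} (hx : EntIn (A : Set 𝔄) x) :
    EntIn (A : Set 𝔄) xᴴ := by
  intro i j
  rw [Matrix.conjTranspose_apply]
  exact star_mem (hx j i)

theorem EntIn_scal (Z : Matrix ι κ ℂ) : EntIn (A : Set 𝔄) (scal 𝔄 Z) := by
  intro i j
  exact algebraMap_mem A (Z i j)

theorem EntIn_eI (ε : ℝ) : EntIn (A : Set 𝔄) (eI 𝔄 ι ε) := by
  intro i j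
  unfold eI
  rw [Matrix.algebraMap_matrix_apply]
  split_ifs
  · have h : algebraMap ℝ 𝔄 ε = algebraMap ℂ 𝔄 (ε : ℂ) := by
      rw [Algebra.algebraMap_eq_smul_one, Algebra.algebraMap_eq_smul_one, Complex.coe_smul]
    rw [h]
    exact algebraMap_mem A (ε : ℂ)
  · exact zero_mem A

theorem EntIn_Qm {a₀ a₁ : Matrix ι ι 𝔄} (h₀ : EntIn (A : Set 𝔄) a₀) (h₁ : EntIn (A : Set 𝔄) a₁)
    (η : ℝ) (p q : Matrix ι ι ℂ) : EntIn (A : Set 𝔄) (Qm a₀ a₁ η p q) := by
  unfold Qm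
  exact EntIn.add A (EntIn.add A (EntIn_eI A η)
    (EntIn.mul A (EntIn.mul A (EntIn.conjTranspose A h₀) (EntIn_scal A p)) h₀))
    (EntIn.mul A (EntIn.mul A (EntIn.conjTranspose A h₁) (EntIn_scal A q)) h₁)

/-- the star subalgebra of matrices with entries in `A` -/
private def m05S : StarSubalgebra ℂ (CStarMatrix ι ι 𝔄) where
  carrier := {x | ∀ i j, x i j ∈ A}
  mul_mem' := by
    intro x y hx hy
    exact EntIn.mul (ι := ι) (κ := ι) (μ := ι) A (x := (x : Matrix ι ι 𝔄))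
      (y := (y : Matrix ι ι 𝔄)) hx hy
  add_mem' := by
    intro x y hx hy i j
    exact add_mem (hx i j) (hy i j)
  algebraMap_mem' := by
    intro r i j
    change (algebraMap ℂ (Matrix ι ι 𝔄) r) i j ∈ A
    rw [Matrix.algebraMap_matrix_apply]
    split_ifs
    · exact algebraMap_mem A r
    · exact zero_mem A
  star_mem' := by
    intro x hx i j
    rw [CStarMatrix.star_apply]
    exact star_mem (hx j i)

private theorem m05_closed (hA : IsClosed (A : Set 𝔄)) :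
    IsClosed ((m05S (ι := ι) A : StarSubalgebra ℂ (CStarMatrix ι ι 𝔄)) :
      Set (CStarMatrix ι ι 𝔄)) := by
  have h : ((m05S (ι := ι) A : StarSubalgebra ℂ (CStarMatrix ι ι 𝔄)) :
      Set (CStarMatrix ι ι 𝔄)) = ⋂ i, ⋂ j, {x : CStarMatrix ι ι 𝔄 | x i j ∈ A} := by
    ext x
    simp only [Set.mem_iInter]
    exact Iff.rfl
  rw [h]
  refine isClosed_iInter fun i => isClosed_iInter fun j => ?_
  have hc : Continuous fun x : CStarMatrix ι ι 𝔄 => x i j :=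
    (continuous_apply j).comp (continuous_apply i)
  exact hA.preimage hc

theorem EntIn_inverse (hA : IsClosed (A : Set 𝔄)) {Q R : Matrix ι ι 𝔄} (hQ : EntIn (A : Set 𝔄) Q)
    (h1 : R * Q = 1) (h2 : Q * R = 1) : EntIn (A : Set 𝔄) R := by
  have hS : IsClosed ((m05S (ι := ι) A : StarSubalgebra ℂ (CStarMatrix ι ι 𝔄)) :
      Set (CStarMatrix ι ι 𝔄)) := m05_closed A hA
  have h1' : toC R * toC Q = 1 := h1
  have h2' : toC Q * toC R = 1 := h2
  let q : (m05S (ι := ι) A : StarSubalgebra ℂ (CStarMatrix ι ι 𝔄)) := ⟨toC Q, hQ⟩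
  have hu : IsUnit (q : CStarMatrix ι ι 𝔄) := ⟨⟨toC Q, toC R, h2', h1'⟩, rfl⟩
  have hu' : IsUnit q := (StarSubalgebra.coe_isUnit _).mp hu
  obtain ⟨v, hv⟩ := hu'
  have h3 : q * (↑v⁻¹ : (m05S (ι := ι) A : StarSubalgebra ℂ (CStarMatrix ι ι 𝔄))) = 1 := by
    rw [← hv]; exact v.mul_inv
  have h4 : toC Q * ((↑v⁻¹ : (m05S (ι := ι) A : StarSubalgebra ℂ (CStarMatrix ι ι 𝔄))) :
      CStarMatrix ι ι 𝔄) = 1 := congrArg Subtype.val h3
  have h5 : ((↑v⁻¹ : (m05S (ι := ι) A : StarSubalgebra ℂ (CStarMatrix ι ι 𝔄))) :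
      CStarMatrix ι ι 𝔄) = toC R := by
    rw [← one_mul ((↑v⁻¹ : (m05S (ι := ι) A : StarSubalgebra ℂ (CStarMatrix ι ι 𝔄))) :
      CStarMatrix ι ι 𝔄), ← h1', mul_assoc, h4, mul_one]
  have h6 : toC R ∈ (m05S (ι := ι) A : StarSubalgebra ℂ (CStarMatrix ι ι 𝔄)) := by
    rw [← h5]
    exact Subtype.property _
  exact h6

open scoped MatrixOrder in
private theorem m05_fact {Z : Matrix ι ι ℂ} (h : Z.PosSemidef) :
    ∃ B : Matrix ι ι ℂ, Z = Bᴴ * B := by
  obtain ⟨B, hB⟩ := CStarAlgebra.nonneg_iff_eq_star_mul_self.mp h.nonneg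
  exact ⟨B, hB⟩

private theorem m05_PM_scal {Z : Matrix ι ι ℂ} (h : Z.PosSemidef) : PM (scal 𝔄 Z) := by
  obtain ⟨B, hB⟩ := m05_fact h
  have h1 : scal 𝔄 Z = (scal 𝔄 B)ᴴ * scal 𝔄 B := by
    ext i j
    rw [Matrix.mul_apply, hB]
    change algebraMap ℂ 𝔄 ((Bᴴ * B) i j) = _
    rw [Matrix.mul_apply, map_sum]
    refine Finset.sum_congr rfl fun k _ => ?_
    rw [map_mul, Matrix.conjTranspose_apply, Matrix.conjTranspose_apply]
    congr 1
    change _ = star (algebraMap ℂ 𝔄 (B k i))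
    rw [← algebraMap_star_comm]
  rw [h1]
  exact PM_conjTranspose_mul_self _

private theorem m05_sum {a₀ a₁ : Matrix ι ι 𝔄} {p q : Matrix ι ι ℂ}
    (hp : p.PosSemidef) (hq : q.PosSemidef) :
    PM (a₀ᴴ * scal 𝔄 p * a₀ + a₁ᴴ * scal 𝔄 q * a₁) :=
  PM.add (PM_conj (m05_PM_scal hp) a₀) (PM_conj (m05_PM_scal hq) a₁)

theorem PM_Qm {a₀ a₁ : Matrix ι ι 𝔄} {η : ℝ} {p q : Matrix ι ι ℂ} (hη : 0 ≤ η)
    (hp : p.PosSemidef) (hq : q.PosSemidef) : PM (Qm a₀ a₁ η p q) := by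
  unfold Qm
  rw [add_assoc]
  refine PM.add ?_ (m05_sum hp hq)
  unfold PM
  rw [toC_eI, Algebra.algebraMap_eq_smul_one]
  exact smul_nonneg hη zero_le_one

theorem SPM_Qm {a₀ a₁ : Matrix ι ι 𝔄} {η : ℝ} {p q : Matrix ι ι ℂ} (hη : 0 < η)
    (hp : p.PosSemidef) (hq : q.PosSemidef) : SPM (Qm a₀ a₁ η p q) := by
  unfold Qm
  rw [add_assoc, add_comm]
  exact SPM_add_eI (m05_sum hp hq) hη

theorem isUnit_sc {a : 𝔄} (ha : IsUnit a) : IsUnit (sc ι a) := by
  have h := ha.map (Matrix.scalar ι : 𝔄 →+* Matrix ι ι 𝔄)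
  rwa [Matrix.scalar_apply] at h

theorem sc_conjTranspose (a : 𝔄) : (sc ι a)ᴴ = sc ι (star a) := by
  unfold sc
  rw [Matrix.diagonal_conjTranspose]
  rfl

theorem sc_mul (a b : 𝔄) : sc ι (a * b) = sc ι a * sc ι b := by
  unfold sc
  rw [Matrix.diagonal_mul_diagonal]

/-- scalar matrices commute with `sc a` -/
theorem sc_scal_comm (a : 𝔄) (Z : Matrix ι κ ℂ) : sc ι a * scal 𝔄 Z = scal 𝔄 Z * sc κ a := by
  unfold sc
  ext i j
  rw [Matrix.diagonal_mul, Matrix.mul_diagonal]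
  exact (Algebra.commutes (Z i j) a).symm

end LT
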