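import Pool.Agent.H29.LT.T07
import Pool.Agent.H29.LT.C09

/-!
# Non-vanishing `ℓ²`-torsion of HNN extensions of free groups over monotone malnormal subgroups

`B` is the free group on `X ⊔ Y`, `C ≤ B` is generated by `X` and words
`W_j = b_j α₁ b_{y₁} α₂ b_{y₂} ... α_m b_{y_m}` (`j ∈ Y`, `α_i ∈ F(X)`), and
`G = ⟨B, s | s c'_k s⁻¹ = c_k⟩`, where `c = (x, W_j)` and `c'` is any free family of the same size.

The group `G` has Euler characteristic `0` and its presentation complex is a finite `K(G,1)`.  The
theorem says that the `ℓ²`-torsion of that complex is negative, in particular non-zero, if the last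
`Y`-letters of the `W_j` are pairwise different and `C ≠ B` is malnormal.  It applies in particular
to all free-by-cyclic groups having such a splitting.
-/

namespace Pool.Agent.Results.MP_03e088_al.MonotoneMalnormal

open LT

variable {X Y : Type} [Fintype X] [DecidableEq X] [Fintype Y] [DecidableEq Y]

theorem result (lst : Y → List (FreeGroup X × Y))
    (hlast : Function.Injective (lastY lst))
    (hne : CM lst ≠ ⊤)
    (hmal : ∀ γ : FreeGroup (X ⊕ Y), γ ∉ CM lst →
      ∀ c ∈ CM lst, γ * c * γ⁻¹ ∈ CM lst → c = 1)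
    (c' : X ⊕ Y → FreeGroup (X ⊕ Y)) (hc' : Function.Injective (FreeGroup.lift c'))
    {G : Type} [Group G] (e : HG (cM lst) c' ≃* G) :
    DetClass (Lap2 (fun b => e (PresentedGroup.of b)) (hnnRel (cM lst) c')) ∧
    DetClass (Lap0 (fun b : (X ⊕ Y) ⊕ Unit => e (PresentedGroup.of b))) ∧
    rho (fun b => e (PresentedGroup.of b)) (hnnRel (cM lst) c') < 0 := by
  obtain ⟨c₀, hc₀, hJ⟩ := exists_LB_jacobian lst hlast hne hmal
  have hc := cM_injective lst hlast
  have hLB := LB_mapM (e : HG (cM lst) c' →* G) e.injective (c09_LB (cM lst) c' hc hc' hJ)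
  have hcomp : ((e : HG (cM lst) c' →* G).comp
      (FreeGroup.lift fun b => (PresentedGroup.of b : HG (cM lst) c'))) =
      FreeGroup.lift fun b => e (PresentedGroup.of b) := by
    ext b
    simp
  have hcomp' : ∀ w, FreeGroup.lift (fun b => e (PresentedGroup.of b : HG (cM lst) c')) w =
      e (FreeGroup.lift (fun b => (PresentedGroup.of b : HG (cM lst) c')) w) := fun w => by
    rw [← hcomp]; rfl
  have hS : LB (fun k b => foxM (fun b => e (PresentedGroup.of b)) (hnnRel (cM lst) c') k
      (Sum.inl b) : Matrix (X ⊕ Y) (X ⊕ Y) (MonoidAlgebra ℂ G)) c₀ := by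
    have h2 : (fun k b => foxM (fun b => e (PresentedGroup.of b)) (hnnRel (cM lst) c') k
        (Sum.inl b) : Matrix (X ⊕ Y) (X ⊕ Y) (MonoidAlgebra ℂ G)) =
        mapM (e : HG (cM lst) c' →* G) (fun k b => foxM (fun b => (PresentedGroup.of b :
          HG (cM lst) c')) (hnnRel (cM lst) c') k (Sum.inl b)) := by
      funext k
      funext b
      change MonoidAlgebra.mapDomain (FreeGroup.lift fun b => e (PresentedGroup.of b))
          (fox (Sum.inl b) (hnnRel (cM lst) c' k)) =
        MonoidAlgebra.mapDomain (e : HG (cM lst) c' →* G) (MonoidAlgebra.mapDomain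
          (FreeGroup.lift fun b => (PresentedGroup.of b : HG (cM lst) c'))
          (fox (Sum.inl b) (hnnRel (cM lst) c' k)))
      rw [← hcomp]
      induction fox (Sum.inl b) (hnnRel (cM lst) c' k) using MonoidAlgebra.induction_linear with
      | zero => rw [MonoidAlgebra.mapDomain_zero, MonoidAlgebra.mapDomain_zero,
          MonoidAlgebra.mapDomain_zero]
      | add u v hu hv => rw [MonoidAlgebra.mapDomain_add, hu, hv, MonoidAlgebra.mapDomain_add,
          MonoidAlgebra.mapDomain_add]
      | single g r => rw [MonoidAlgebra.mapDomain_single, MonoidAlgebra.mapDomain_single,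
          MonoidAlgebra.mapDomain_single, MonoidHom.comp_apply]
    rw [h2]
    exact hLB
  have h := rho_le (fun b => e (PresentedGroup.of b)) (hnnRel (cM lst) c')
    (fun k => by rw [hcomp', c09_single, map_one])
    ((c09_psi (cM lst) c').comp (e.symm : G →* HG (cM lst) c'))
    (by
      have : ((c09_psi (cM lst) c').comp (e.symm : G →* HG (cM lst) c'))
          (e (PresentedGroup.of (Sum.inr ()))) = c09_psi (cM lst) c' (PresentedGroup.of (Sum.inr ())) := by
        rw [MonoidHom.comp_apply]
        congr 1
        exact e.symm_apply_apply _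
      rw [this, c09_psi_s]) hS
  exact ⟨h.1, h.2.1, lt_of_le_of_lt h.2.2 (by linarith)⟩

end Pool.Agent.Results.MP_03e088_al.MonotoneMalnormal
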