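import Pool.Agent.H29.LT.Q00
import Pool.Agent.H29.LT.M03
import Pool.Agent.H29.LT.M04
import Pool.Agent.H29.LT.M05

/-!
# LT-Q01: the algebra of the exact formula

Write `U = sc u` (unitary, commutes with scalar matrices), `μ = 1 - λ₀`, `ν = 1 - λ₁`,
`𝔰 = λ₀ + λ₁ - λ₀ λ₁ = 1 - μ ν`, `𝔰* = 1 - ν μ`.  `λ_i`, `R`, `V_i` are Hermitian
(`R` is the inverse of the Hermitian `Q`), so besides `V₀ 𝔰 = ν`, `𝔰 V₁ = μ` also `𝔰* V₀ = ν`,
`V₁ 𝔰* = μ`.  `ν`, `μ` are `≥ δ > 0`, so all of `𝔰, V₀, V₁` are invertible (`isUnit_s`).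

`M = (a₀; a₁)` (`Matrix.fromRows a₀ a₁`), `𝒰 = fromBlocks μ U U* ν`:
(1) `f* f + η = Q + M* 𝒰 M` (`Q = Qm a₀ a₁ η λ₀ λ₁`); expand both sides.
(2) `𝒰 = diag(1, U*) · fromBlocks μ 1 1 ν · diag(1, U)`, so `DM 𝒰 = log |det (fromBlocks μ 1 1 ν)|
    = log |det (1 - μ ν)| = log |det 𝔰|` (`DM_scal` for the index type `ι ⊕ ι`;
    determinant: `fromBlocks μ 1 1 ν = fromBlocks 1 μ 0 1 * fromBlocks 0 (1 - μν) 1 ν`, so
    `|det| = |det (fromBlocks 0 (1-μν) 1 ν)| = |det (1-μν)|` after exchanging the two block columns;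
    or `Matrix.det_fromBlocks₂₂`-like lemmas).
(3) with `κ = (𝔰*)⁻¹` : `𝒱 = fromBlocks (-V₀) (κ U) (κ* U*) (-V₁)` is the inverse of `𝒰`:
    `μ V₀ = μ ν 𝔰⁻¹` and `𝔰⁻¹ - μ ν 𝔰⁻¹ = 1`; `μ κ = V₁`; `ν 𝔰⁻¹ = V₀`; `κ - ν V₁ = (1 - νμ) κ = 1`.
(4) `𝒱 + M R M* = Ũ + n`, `Ũ = fromBlocks 0 (κU) (κ*U*) 0`, `n = fromBlocks n₀₀ n₀₁ n₁₀ n₁₁`, and
    `W = Ũ⁻¹` (`W = S.W u`): `W Ũ = Ũ W = 1`.  So `𝒰 (Ũ (1 + X)) = 𝒰 (𝒱 + M R M*) = 1 + 𝒰 M R M*`.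
(5) `R (f* f + η) = 1 + (R M*) (𝒰 M)` is invertible, so `1 + (𝒰 M)(R M*)` is invertible
    (`isUnit_one_add_comm`), and by (4) so is `1 + X = W 𝒱 (1 + 𝒰 M R M*)`.
(6) `W = diag(U, U*) · fromBlocks 0 𝔰 𝔰* 0`, so `DM W = 2 log |det 𝔰|`.
(7) `LM (f* f + η) = DM (f* f + η) = DM Q + DM (1 + (R M*)(𝒰 M)) = LM Q + DM (1 + (𝒰 M)(R M*))
    = LM Q + DM 𝒰 - DM W + DM (1 + X) = LM Q + log|det 𝔰| - 2 log|det 𝔰| + 0`.
(8) `inverse_formula` (Woodbury): `(Q + M* 𝒰 M)⁻¹ = R - R M* (𝒱 + M R M*)⁻¹ M R` and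
    `(𝒱 + M R M*)⁻¹ = (Ũ (1 + X))⁻¹ = (1+X)⁻¹ W`.
-/

set_option linter.unusedSectionVars false

namespace LT

open scoped Matrix ComplexOrder

variable {𝔄 : Type*} [CStarAlgebra 𝔄] [PartialOrder 𝔄] [StarOrderedRing 𝔄]
variable {ι : Type*} [Fintype ι] [DecidableEq ι]
variable {τ : Tr 𝔄} {a₀ a₁ : Matrix ι ι 𝔄} {η : ℝ}

/-! ### helpers -/

private theorem q1_eI_star (η : ℝ) : (eI 𝔄 ι η)ᴴ = eI 𝔄 ι η := by
  have h : star (toC (eI 𝔄 ι η)) = toC (eI 𝔄 ι η) := by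
    rw [toC_eI]
    exact (algebraMap_star_comm η).symm
  exact h

private theorem q1_herm_of_sub {l : Matrix ι ι ℂ} {δ : ℝ}
    (h : (l - (δ : ℂ) • (1 : Matrix ι ι ℂ)).PosSemidef) : lᴴ = l := by
  have h1 := h.isHermitian.eq
  rw [Matrix.conjTranspose_sub, Matrix.conjTranspose_smul, Matrix.conjTranspose_one,
    Complex.star_def, Complex.conj_ofReal] at h1
  exact sub_left_injective h1

private theorem q1_posDef {l : Matrix ι ι ℂ} {δ : ℝ} (hδ : 0 < δ)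
    (h : (((1 - δ : ℝ) : ℂ) • (1 : Matrix ι ι ℂ) - l).PosSemidef) : (1 - l).PosDef := by
  have h1 : ((δ : ℂ) • (1 : Matrix ι ι ℂ)).PosDef :=
    Matrix.PosDef.one.smul (Complex.zero_lt_real.mpr hδ)
  have h2 := h1.add_posSemidef h
  have h3 : (δ : ℂ) • (1 : Matrix ι ι ℂ) + ((((1 - δ : ℝ) : ℂ)) • (1 : Matrix ι ι ℂ) - l) = 1 - l := by
    rw [← add_sub_assoc, ← add_smul, ← Complex.ofReal_add, add_sub_cancel, Complex.ofReal_one,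
      one_smul]
  rw [h3] at h2
  exact h2

private theorem q1_l0 (S : Sol τ a₀ a₁ η) : S.l₀ᴴ = S.l₀ := q1_herm_of_sub S.lo₀

private theorem q1_l1 (S : Sol τ a₀ a₁ η) : S.l₁ᴴ = S.l₁ := q1_herm_of_sub S.lo₁

private theorem q1_Q_star (S : Sol τ a₀ a₁ η) :
    (Qm a₀ a₁ η S.l₀ S.l₁)ᴴ = Qm a₀ a₁ η S.l₀ S.l₁ := by
  unfold Qm
  rw [Matrix.conjTranspose_add, Matrix.conjTranspose_add, Matrix.conjTranspose_mul,
    Matrix.conjTranspose_mul, Matrix.conjTranspose_mul, Matrix.conjTranspose_mul,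
    Matrix.conjTranspose_conjTranspose, Matrix.conjTranspose_conjTranspose, q1_eI_star,
    ← scal_conjTranspose, ← scal_conjTranspose, q1_l0, q1_l1, Matrix.mul_assoc, Matrix.mul_assoc]

theorem Sol.R_isHermitian (S : Sol τ a₀ a₁ η) : S.Rᴴ = S.R := by
  have h1 : S.Rᴴ * Qm a₀ a₁ η S.l₀ S.l₁ = 1 := by
    have h2 := congrArg Matrix.conjTranspose S.QR
    rw [Matrix.conjTranspose_mul, q1_Q_star, Matrix.conjTranspose_one] at h2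
    exact h2
  calc S.Rᴴ = S.Rᴴ * (Qm a₀ a₁ η S.l₀ S.l₁ * S.R) := by rw [S.QR, Matrix.mul_one]
    _ = S.R := by rw [← Matrix.mul_assoc, h1, Matrix.one_mul]

theorem Sol.V₀_isHermitian (S : Sol τ a₀ a₁ η) : S.V₀.IsHermitian := by
  unfold Matrix.IsHermitian Sol.V₀
  rw [← E_conjTranspose, Matrix.conjTranspose_mul, Matrix.conjTranspose_mul,
    Matrix.conjTranspose_conjTranspose, S.R_isHermitian, Matrix.mul_assoc]

theorem Sol.V₁_isHermitian (S : Sol τ a₀ a₁ η) : S.V₁.IsHermitian := by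
  unfold Matrix.IsHermitian Sol.V₁
  rw [← E_conjTranspose, Matrix.conjTranspose_mul, Matrix.conjTranspose_mul,
    Matrix.conjTranspose_conjTranspose, S.R_isHermitian, Matrix.mul_assoc]

private theorem q1_det_s (S : Sol τ a₀ a₁ η) : S.s.det ≠ 0 := by
  intro h
  have h1 : (1 - S.l₁).det ≠ 0 := (q1_posDef S.δ_pos S.hi₁).det_pos.ne'
  have h2 := congrArg Matrix.det S.e₀
  rw [Matrix.det_mul] at h2
  have h3 : (S.l₀ + S.l₁ - S.l₀ * S.l₁).det = 0 := h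
  rw [h3, mul_zero] at h2
  exact h1 h2.symm

theorem Sol.isUnit_s (S : Sol τ a₀ a₁ η) : IsUnit S.s := by
  rw [Matrix.isUnit_iff_isUnit_det]
  exact isUnit_iff_ne_zero.mpr (q1_det_s S)

/-- `κ` -/
private noncomputable def q1k (S : Sol τ a₀ a₁ η) : Matrix ι ι ℂ := (S.sᴴ)⁻¹

private theorem q1_s_eq (S : Sol τ a₀ a₁ η) : S.s = 1 - (1 - S.l₀) * (1 - S.l₁) := by
  unfold Sol.s
  rw [sub_mul, one_mul, mul_sub, mul_one]
  abel

private theorem q1_sH_eq (S : Sol τ a₀ a₁ η) : S.sᴴ = 1 - (1 - S.l₁) * (1 - S.l₀) := by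
  rw [q1_s_eq, Matrix.conjTranspose_sub, Matrix.conjTranspose_one, Matrix.conjTranspose_mul,
    Matrix.conjTranspose_sub, Matrix.conjTranspose_sub, Matrix.conjTranspose_one, q1_l0, q1_l1]

private theorem q1_e0 (S : Sol τ a₀ a₁ η) : S.V₀ * S.s = 1 - S.l₁ := S.e₀

private theorem q1_e1 (S : Sol τ a₀ a₁ η) : S.s * S.V₁ = 1 - S.l₀ := S.e₁

private theorem q1_e0' (S : Sol τ a₀ a₁ η) : S.sᴴ * S.V₀ = 1 - S.l₁ := by
  have h := congrArg Matrix.conjTranspose (q1_e0 S)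
  rw [Matrix.conjTranspose_mul, S.V₀_isHermitian.eq, Matrix.conjTranspose_sub,
    Matrix.conjTranspose_one, q1_l1] at h
  exact h

private theorem q1_e1' (S : Sol τ a₀ a₁ η) : S.V₁ * S.sᴴ = 1 - S.l₀ := by
  have h := congrArg Matrix.conjTranspose (q1_e1 S)
  rw [Matrix.conjTranspose_mul, S.V₁_isHermitian.eq, Matrix.conjTranspose_sub,
    Matrix.conjTranspose_one, q1_l0] at h
  exact h

private theorem q1_detH (S : Sol τ a₀ a₁ η) : IsUnit (S.sᴴ).det := by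
  rw [Matrix.det_conjTranspose]
  exact (isUnit_iff_ne_zero.mpr (q1_det_s S)).star

private theorem q1_ks (S : Sol τ a₀ a₁ η) : q1k S * S.sᴴ = 1 :=
  Matrix.nonsing_inv_mul _ (q1_detH S)

private theorem q1_sk (S : Sol τ a₀ a₁ η) : S.sᴴ * q1k S = 1 :=
  Matrix.mul_nonsing_inv _ (q1_detH S)

private theorem q1_ks' (S : Sol τ a₀ a₁ η) : (q1k S)ᴴ * S.s = 1 := by
  have h := congrArg Matrix.conjTranspose (q1_sk S)
  rw [Matrix.conjTranspose_mul, Matrix.conjTranspose_conjTranspose, Matrix.conjTranspose_one] at h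
  exact h

private theorem q1_sk' (S : Sol τ a₀ a₁ η) : S.s * (q1k S)ᴴ = 1 := by
  have h := congrArg Matrix.conjTranspose (q1_ks S)
  rw [Matrix.conjTranspose_mul, Matrix.conjTranspose_conjTranspose, Matrix.conjTranspose_one] at h
  exact h

/-- `V₀ = ν κᴴ` -/
private theorem q1_V0 (S : Sol τ a₀ a₁ η) : S.V₀ = (1 - S.l₁) * (q1k S)ᴴ := by
  rw [← q1_e0, Matrix.mul_assoc, q1_sk', Matrix.mul_one]

/-- `V₀ = κ ν` -/
private theorem q1_V0' (S : Sol τ a₀ a₁ η) : S.V₀ = q1k S * (1 - S.l₁) := by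
  rw [← q1_e0', ← Matrix.mul_assoc, q1_ks, Matrix.one_mul]

/-- `V₁ = μ κ` -/
private theorem q1_V1 (S : Sol τ a₀ a₁ η) : S.V₁ = (1 - S.l₀) * q1k S := by
  rw [← q1_e1', Matrix.mul_assoc, q1_sk, Matrix.mul_one]

/-- `V₁ = κᴴ μ` -/
private theorem q1_V1' (S : Sol τ a₀ a₁ η) : S.V₁ = (q1k S)ᴴ * (1 - S.l₀) := by
  rw [← q1_e1, ← Matrix.mul_assoc, q1_ks', Matrix.one_mul]

private theorem q1_r1 (S : Sol τ a₀ a₁ η) : (q1k S)ᴴ - (1 - S.l₀) * S.V₀ = 1 := by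
  have h := q1_sk' S
  rw [q1_s_eq, sub_mul, one_mul, Matrix.mul_assoc, ← q1_V0] at h
  exact h

private theorem q1_r2 (S : Sol τ a₀ a₁ η) : q1k S - (1 - S.l₁) * S.V₁ = 1 := by
  have h := q1_sk S
  rw [q1_sH_eq, sub_mul, one_mul, Matrix.mul_assoc, ← q1_V1] at h
  exact h

private theorem q1_r3 (S : Sol τ a₀ a₁ η) : q1k S - S.V₀ * (1 - S.l₀) = 1 := by
  have h := q1_ks S
  rw [q1_sH_eq, mul_sub, mul_one, ← Matrix.mul_assoc, ← q1_V0'] at h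
  exact h

private theorem q1_r4 (S : Sol τ a₀ a₁ η) : (q1k S)ᴴ - S.V₁ * (1 - S.l₁) = 1 := by
  have h := q1_ks' S
  rw [q1_s_eq, mul_sub, mul_one, ← Matrix.mul_assoc, ← q1_V1'] at h
  exact h

/-! ### block matrices -/

private theorem q1_scal_sub (Z W : Matrix ι ι ℂ) : scal 𝔄 (Z - W) = scal 𝔄 Z - scal 𝔄 W := by
  have h : scal 𝔄 Z = scal 𝔄 (Z - W) + scal 𝔄 W := by
    rw [← scal_add, sub_add_cancel]
  rw [h, add_sub_cancel_right]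

private theorem q1_sc_one : sc ι (1 : 𝔄) = 1 := by
  unfold sc
  exact Matrix.diagonal_one

private theorem q1_UU {u : 𝔄} (u2 : u * star u = 1) : sc ι u * sc ι (star u) = 1 := by
  rw [← sc_mul, u2, q1_sc_one]

private theorem q1_UU' {u : 𝔄} (u1 : star u * u = 1) : sc ι (star u) * sc ι u = 1 := by
  rw [← sc_mul, u1, q1_sc_one]

/-- `𝒰` -/
private noncomputable def q1U (S : Sol τ a₀ a₁ η) (u : 𝔄) : Matrix (ι ⊕ ι) (ι ⊕ ι) 𝔄 :=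
  Matrix.fromBlocks (scal 𝔄 (1 - S.l₀)) (sc ι u) (sc ι (star u)) (scal 𝔄 (1 - S.l₁))

/-- `𝒱` -/
private noncomputable def q1V (S : Sol τ a₀ a₁ η) (u : 𝔄) : Matrix (ι ⊕ ι) (ι ⊕ ι) 𝔄 :=
  Matrix.fromBlocks (-scal 𝔄 S.V₀) (scal 𝔄 (q1k S) * sc ι u)
    (scal 𝔄 (q1k S)ᴴ * sc ι (star u)) (-scal 𝔄 S.V₁)

/-- `Ũ` -/
private noncomputable def q1T (S : Sol τ a₀ a₁ η) (u : 𝔄) : Matrix (ι ⊕ ι) (ι ⊕ ι) 𝔄 :=
  Matrix.fromBlocks 0 (scal 𝔄 (q1k S) * sc ι u) (scal 𝔄 (q1k S)ᴴ * sc ι (star u)) 0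

private theorem q1_UV (S : Sol τ a₀ a₁ η) {u : 𝔄} (u1 : star u * u = 1) (u2 : u * star u = 1) :
    q1U S u * q1V S u = 1 := by
  unfold q1U q1V
  rw [Matrix.fromBlocks_multiply, ← Matrix.fromBlocks_one]
  congr 1
  · rw [Matrix.mul_neg, ← scal_mul, ← sc_scal_comm (star u), ← Matrix.mul_assoc, q1_UU u2,
      Matrix.one_mul, neg_add_eq_sub, ← q1_scal_sub, q1_r1, scal_one]
  · rw [← Matrix.mul_assoc, ← scal_mul, ← q1_V1, Matrix.mul_neg, sc_scal_comm, add_neg_cancel]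
  · rw [← Matrix.mul_assoc, ← scal_mul, ← q1_V0, Matrix.mul_neg, sc_scal_comm, neg_add_cancel]
  · rw [Matrix.mul_neg, ← scal_mul, ← sc_scal_comm u, ← Matrix.mul_assoc, q1_UU' u1,
      Matrix.one_mul, ← sub_eq_add_neg, ← q1_scal_sub, q1_r2, scal_one]

private theorem q1_VU (S : Sol τ a₀ a₁ η) {u : 𝔄} (u1 : star u * u = 1) (u2 : u * star u = 1) :
    q1V S u * q1U S u = 1 := by
  unfold q1U q1V
  rw [Matrix.fromBlocks_multiply, ← Matrix.fromBlocks_one]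
  congr 1
  · rw [Matrix.neg_mul, ← scal_mul, Matrix.mul_assoc, q1_UU u2,
      Matrix.mul_one, neg_add_eq_sub, ← q1_scal_sub, q1_r3, scal_one]
  · rw [Matrix.mul_assoc, sc_scal_comm, ← Matrix.mul_assoc, ← scal_mul, ← q1_V0', Matrix.neg_mul,
      neg_add_cancel]
  · rw [Matrix.mul_assoc, sc_scal_comm, ← Matrix.mul_assoc, ← scal_mul, ← q1_V1', Matrix.neg_mul,
      add_neg_cancel]
  · rw [Matrix.neg_mul, ← scal_mul, Matrix.mul_assoc, q1_UU' u1,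
      Matrix.mul_one, ← sub_eq_add_neg, ← q1_scal_sub, q1_r4, scal_one]

private theorem q1_WT (S : Sol τ a₀ a₁ η) {u : 𝔄} (u1 : star u * u = 1) (u2 : u * star u = 1) :
    S.W u * q1T S u = 1 := by
  unfold q1T Sol.W
  rw [Matrix.fromBlocks_multiply, ← Matrix.fromBlocks_one]
  congr 1
  · rw [Matrix.zero_mul, zero_add, sc_scal_comm, ← sc_scal_comm (star u), Matrix.mul_assoc,
      ← Matrix.mul_assoc (sc ι u), q1_UU u2, Matrix.one_mul, ← scal_mul, q1_sk', scal_one]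
  · rw [Matrix.zero_mul, Matrix.mul_zero, add_zero]
  · rw [Matrix.zero_mul, Matrix.mul_zero, add_zero]
  · rw [Matrix.mul_zero, add_zero, sc_scal_comm, ← sc_scal_comm u, Matrix.mul_assoc,
      ← Matrix.mul_assoc (sc ι (star u)), q1_UU' u1, Matrix.one_mul, ← scal_mul, q1_sk, scal_one]

private theorem q1_TW (S : Sol τ a₀ a₁ η) {u : 𝔄} (u1 : star u * u = 1) (u2 : u * star u = 1) :
    q1T S u * S.W u = 1 := by
  unfold q1T Sol.W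
  rw [Matrix.fromBlocks_multiply, ← Matrix.fromBlocks_one]
  congr 1
  · rw [Matrix.zero_mul, zero_add, Matrix.mul_assoc, ← Matrix.mul_assoc (sc ι u), q1_UU u2,
      Matrix.one_mul, ← scal_mul, q1_ks, scal_one]
  · rw [Matrix.zero_mul, Matrix.mul_zero, add_zero]
  · rw [Matrix.zero_mul, Matrix.mul_zero, add_zero]
  · rw [Matrix.mul_zero, add_zero, Matrix.mul_assoc, ← Matrix.mul_assoc (sc ι (star u)),
      q1_UU' u1, Matrix.one_mul, ← scal_mul, q1_ks', scal_one]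

/-- `M R Mᴴ` -/
private noncomputable def q1N (S : Sol τ a₀ a₁ η) : Matrix (ι ⊕ ι) (ι ⊕ ι) 𝔄 :=
  Matrix.fromRows a₀ a₁ * S.R * (Matrix.fromRows a₀ a₁)ᴴ

private theorem q1_N (S : Sol τ a₀ a₁ η) : q1N S = Matrix.fromBlocks (a₀ * S.R * a₀ᴴ)
    (a₀ * S.R * a₁ᴴ) (a₁ * S.R * a₀ᴴ) (a₁ * S.R * a₁ᴴ) := by
  unfold q1N
  rw [Matrix.fromRows_mul, Matrix.conjTranspose_fromRows_eq_fromCols_conjTranspose,
    Matrix.fromRows_mul_fromCols]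

private theorem q1_VN (S : Sol τ a₀ a₁ η) (u : 𝔄) :
    q1V S u + q1N S = q1T S u + Matrix.fromBlocks S.n₀₀ S.n₀₁ S.n₁₀ S.n₁₁ := by
  rw [q1_N]
  unfold q1V q1T
  rw [Matrix.fromBlocks_add, Matrix.fromBlocks_add]
  congr 1
  · rw [zero_add, neg_add_eq_sub]
    rfl
  · rw [zero_add, neg_add_eq_sub]
    rfl

/-- `1 + X = W (𝒱 + M R Mᴴ)` -/
private theorem q1_X (S : Sol τ a₀ a₁ η) {u : 𝔄} (u1 : star u * u = 1) (u2 : u * star u = 1) :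
    1 + S.X u = S.W u * (q1V S u + q1N S) := by
  rw [q1_VN, Matrix.mul_add, q1_WT S u1 u2]
  rfl

/-- `1 + X = W (𝒱 (1 + 𝒰 M R Mᴴ))` -/
private theorem q1_X' (S : Sol τ a₀ a₁ η) {u : 𝔄} (u1 : star u * u = 1) (u2 : u * star u = 1) :
    1 + S.X u = S.W u * (q1V S u * (1 + q1U S u * q1N S)) := by
  rw [q1_X S u1 u2, Matrix.mul_add (q1V S u), ← Matrix.mul_assoc, q1_VU S u1 u2, Matrix.mul_one,
    Matrix.one_mul]

private theorem q1_F (S : Sol τ a₀ a₁ η) {u : 𝔄} (u1 : star u * u = 1) :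
    (fm u a₀ a₁)ᴴ * fm u a₀ a₁ + eI 𝔄 ι η = Qm a₀ a₁ η S.l₀ S.l₁ +
      (Matrix.fromRows a₀ a₁)ᴴ * (q1U S u * Matrix.fromRows a₀ a₁) := by
  unfold fm Qm q1U
  rw [Matrix.fromBlocks_mul_fromRows, Matrix.conjTranspose_fromRows_eq_fromCols_conjTranspose,
    Matrix.fromCols_mul_fromRows, Matrix.conjTranspose_add, Matrix.conjTranspose_mul,
    sc_conjTranspose, Matrix.add_mul, Matrix.mul_add, Matrix.mul_add, Matrix.mul_add,
    Matrix.mul_add]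
  have h1 : a₁ᴴ * sc ι (star u) * (sc ι u * a₁) = a₁ᴴ * a₁ := by
    rw [Matrix.mul_assoc, ← Matrix.mul_assoc (sc ι (star u)), q1_UU' u1, Matrix.one_mul]
  have h2 : a₀ᴴ * (scal 𝔄 (1 - S.l₀) * a₀) = a₀ᴴ * a₀ - a₀ᴴ * scal 𝔄 S.l₀ * a₀ := by
    rw [q1_scal_sub, scal_one, Matrix.sub_mul, Matrix.one_mul, Matrix.mul_sub, Matrix.mul_assoc]
  have h3 : a₁ᴴ * (scal 𝔄 (1 - S.l₁) * a₁) = a₁ᴴ * a₁ - a₁ᴴ * scal 𝔄 S.l₁ * a₁ := by
    rw [q1_scal_sub, scal_one, Matrix.sub_mul, Matrix.one_mul, Matrix.mul_sub, Matrix.mul_assoc]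
  rw [h1, h2, h3, Matrix.mul_assoc a₁ᴴ (sc ι (star u)) a₀]
  abel

private theorem q1_F_spm (hη : 0 < η) (u : 𝔄) :
    SPM ((fm u a₀ a₁)ᴴ * fm u a₀ a₁ + eI 𝔄 ι η) :=
  SPM_add_eI (PM_conjTranspose_mul_self _) hη

/-- `R (f* f + η) = 1 + (R Mᴴ) (𝒰 M)` -/
private theorem q1_RF (S : Sol τ a₀ a₁ η) {u : 𝔄} (u1 : star u * u = 1) :
    S.R * ((fm u a₀ a₁)ᴴ * fm u a₀ a₁ + eI 𝔄 ι η) =
      1 + (S.R * (Matrix.fromRows a₀ a₁)ᴴ) * (q1U S u * Matrix.fromRows a₀ a₁) := by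
  rw [q1_F S u1, Matrix.mul_add, S.RQ, Matrix.mul_assoc]

private theorem q1_unit_RF (S : Sol τ a₀ a₁ η) (hη : 0 < η) {u : 𝔄} (u1 : star u * u = 1) :
    IsUnit (1 + (S.R * (Matrix.fromRows a₀ a₁)ᴴ) * (q1U S u * Matrix.fromRows a₀ a₁)) := by
  rw [← q1_RF S u1]
  exact IsUnit.mul ⟨⟨S.R, _, S.RQ, S.QR⟩, rfl⟩ (q1_F_spm hη u).isUnit

private theorem q1_UMRM (S : Sol τ a₀ a₁ η) (u : 𝔄) :
    (q1U S u * Matrix.fromRows a₀ a₁) * (S.R * (Matrix.fromRows a₀ a₁)ᴴ) = q1U S u * q1N S := by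
  unfold q1N
  simp only [Matrix.mul_assoc]

private theorem q1_unit_UN (S : Sol τ a₀ a₁ η) (hη : 0 < η) {u : 𝔄} (u1 : star u * u = 1) :
    IsUnit (1 + q1U S u * q1N S) := by
  have h := isUnit_one_add_comm (q1_unit_RF S hη u1)
  rw [q1_UMRM] at h
  exact h

private theorem q1_unit {κ : Type*} [Fintype κ] [DecidableEq κ] {x y : Matrix κ κ 𝔄}
    (h : x * y = 1) (h' : y * x = 1) : IsUnit x := ⟨⟨x, y, h, h'⟩, rfl⟩

theorem Sol.isUnit_one_add_X (S : Sol τ a₀ a₁ η) (h1 : τ.f 1 = 1) (hη : 0 < η) {u : 𝔄}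
    (u1 : star u * u = 1) (u2 : u * star u = 1) : IsUnit (1 + S.X u) := by
  rw [q1_X' S u1 u2]
  exact (q1_unit (q1_WT S u1 u2) (q1_TW S u1 u2)).mul
    ((q1_unit (q1_VU S u1 u2) (q1_UV S u1 u2)).mul (q1_unit_UN S hη u1))

/-! ### determinants -/

private theorem q1_mass (h1 : τ.f 1 = 1) : τ.mass = 1 := by
  unfold Tr.mass
  rw [h1, Complex.one_re]

private theorem q1_DM_scal (h1 : τ.f 1 = 1) {κ : Type*} [Fintype κ] [DecidableEq κ]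
    {Z : Matrix κ κ ℂ} (hZ : Z.det ≠ 0) : DM τ (scal 𝔄 Z) = Real.log ‖Z.det‖ := by
  rw [DM_scal τ hZ, q1_mass h1, one_mul]

private theorem q1_unit_scal {κ : Type*} [Fintype κ] [DecidableEq κ] {Z : Matrix κ κ ℂ}
    (hZ : Z.det ≠ 0) : IsUnit (scal 𝔄 Z) := by
  have h : IsUnit Z.det := isUnit_iff_ne_zero.2 hZ
  refine q1_unit (y := scal 𝔄 Z⁻¹) ?_ ?_
  · rw [← scal_mul, Matrix.mul_nonsing_inv _ h, scal_one]
  · rw [← scal_mul, Matrix.nonsing_inv_mul _ h, scal_one]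

private theorem q1_sc_unit {u : 𝔄} (u1 : star u * u = 1) (u2 : u * star u = 1) :
    IsUnit (sc ι u) := q1_unit (q1_UU u2) (q1_UU' u1)

private theorem q1_sc_unit' {u : 𝔄} (u1 : star u * u = 1) (u2 : u * star u = 1) :
    IsUnit (sc ι (star u)) := q1_unit (q1_UU' u1) (q1_UU u2)

private theorem q1_DM_sc {u : 𝔄} (u1 : star u * u = 1) : DM τ (sc ι u) = 0 := by
  refine DM_isometry τ ?_
  rw [sc_conjTranspose, q1_UU' u1]

private theorem q1_DM_sc' {u : 𝔄} (u2 : u * star u = 1) : DM τ (sc ι (star u)) = 0 := by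
  refine DM_isometry τ ?_
  rw [sc_conjTranspose, star_star, q1_UU u2]

/-- the matrix `(μ, 1; 1, ν)` -/
private noncomputable def q1B (S : Sol τ a₀ a₁ η) : Matrix (ι ⊕ ι) (ι ⊕ ι) ℂ :=
  Matrix.fromBlocks (1 - S.l₀) 1 1 (1 - S.l₁)

private theorem q1_det_B (S : Sol τ a₀ a₁ η) : ‖(q1B S).det‖ = ‖S.s.det‖ := by
  have hν : IsUnit (1 - S.l₁).det :=
    isUnit_iff_ne_zero.mpr (q1_posDef S.δ_pos S.hi₁).det_pos.ne'
  haveI : Invertible (1 - S.l₁) := (Matrix.isUnit_iff_isUnit_det _).mpr hν |>.invertible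
  unfold q1B
  rw [Matrix.det_fromBlocks₂₂, Matrix.one_mul, Matrix.mul_one, mul_comm, ← Matrix.det_mul,
    Matrix.sub_mul, invOf_mul_self, ← neg_sub, ← q1_s_eq, Matrix.det_neg, norm_mul, norm_pow,
    norm_neg, norm_one, one_pow, one_mul]

private theorem q1_scal_B (S : Sol τ a₀ a₁ η) : scal 𝔄 (q1B S) =
    Matrix.fromBlocks (scal 𝔄 (1 - S.l₀)) 1 1 (scal 𝔄 (1 - S.l₁)) := by
  have h : (1 : Matrix ι ι ℂ).map (algebraMap ℂ 𝔄) = 1 := scal_one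
  unfold q1B scal
  rw [Matrix.fromBlocks_map, h]

private theorem q1_U_eq (S : Sol τ a₀ a₁ η) {u : 𝔄} (u1 : star u * u = 1) : q1U S u =
    Matrix.fromBlocks (1 : Matrix ι ι 𝔄) 0 0 (sc ι (star u)) * scal 𝔄 (q1B S) *
      Matrix.fromBlocks (1 : Matrix ι ι 𝔄) 0 0 (sc ι u) := by
  rw [q1_scal_B, Matrix.fromBlocks_multiply, Matrix.fromBlocks_multiply]
  unfold q1U
  congr 1
  · simp only [Matrix.one_mul, Matrix.zero_mul, Matrix.mul_one, Matrix.mul_zero, add_zero]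
  · simp only [Matrix.one_mul, Matrix.zero_mul, Matrix.mul_zero, add_zero, zero_add]
  · simp only [Matrix.zero_mul, Matrix.mul_one, Matrix.mul_zero, add_zero, zero_add]
  · simp only [Matrix.zero_mul, Matrix.mul_zero, zero_add]
    rw [Matrix.mul_assoc, ← sc_scal_comm, ← Matrix.mul_assoc, q1_UU' u1, Matrix.one_mul]

private theorem q1_DM_U (S : Sol τ a₀ a₁ η) (h1 : τ.f 1 = 1) {u : 𝔄} (u1 : star u * u = 1)
    (u2 : u * star u = 1) : DM τ (q1U S u) = Real.log ‖S.s.det‖ := by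
  have hB : (q1B S).det ≠ 0 := by
    rw [← norm_ne_zero_iff, q1_det_B, norm_ne_zero_iff]
    exact q1_det_s S
  have g1 : IsUnit (Matrix.fromBlocks (1 : Matrix ι ι 𝔄) 0 0 (sc ι (star u))) :=
    m03_isUnit_tri₁₂ isUnit_one (q1_sc_unit' u1 u2) 0
  have g2 : IsUnit (Matrix.fromBlocks (1 : Matrix ι ι 𝔄) 0 0 (sc ι u)) :=
    m03_isUnit_tri₁₂ isUnit_one (q1_sc_unit u1 u2) 0
  rw [q1_U_eq S u1, DM_mul τ (g1.mul (q1_unit_scal hB)) g2, DM_mul τ g1 (q1_unit_scal hB),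
    DM_fromBlocks_diag τ isUnit_one (q1_sc_unit' u1 u2),
    DM_fromBlocks_diag τ isUnit_one (q1_sc_unit u1 u2), DM_one, q1_DM_sc' u2, q1_DM_sc u1,
    q1_DM_scal h1 hB, q1_det_B]
  ring

private theorem q1_W_eq (S : Sol τ a₀ a₁ η) (u : 𝔄) : S.W u =
    Matrix.fromBlocks (sc ι u) 0 0 (sc ι (star u)) *
      Matrix.fromBlocks (scal 𝔄 S.s) 0 0 (scal 𝔄 S.sᴴ) *
      Matrix.fromBlocks (0 : Matrix ι ι 𝔄) 1 1 (0 : Matrix ι ι 𝔄) := by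
  rw [Matrix.fromBlocks_multiply, Matrix.fromBlocks_multiply]
  unfold Sol.W
  congr 1
  · simp only [Matrix.zero_mul, Matrix.mul_zero, add_zero]
  · simp only [Matrix.zero_mul, Matrix.mul_one, Matrix.mul_zero, add_zero]
  · simp only [Matrix.zero_mul, Matrix.mul_one, Matrix.mul_zero, zero_add]
  · simp only [Matrix.zero_mul, Matrix.mul_zero, Matrix.mul_one, add_zero]

private theorem q1_swap_sq : Matrix.fromBlocks (0 : Matrix ι ι 𝔄) 1 1 (0 : Matrix ι ι 𝔄) *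
    Matrix.fromBlocks (0 : Matrix ι ι 𝔄) 1 1 (0 : Matrix ι ι 𝔄) = 1 := by
  rw [Matrix.fromBlocks_multiply, ← Matrix.fromBlocks_one]
  congr 1
  · simp only [Matrix.zero_mul, Matrix.mul_one, zero_add]
  · simp only [Matrix.zero_mul, Matrix.mul_zero, add_zero]
  · simp only [Matrix.zero_mul, Matrix.mul_zero, add_zero]
  · simp only [Matrix.zero_mul, Matrix.mul_one, add_zero]

private theorem q1_DM_W (S : Sol τ a₀ a₁ η) (h1 : τ.f 1 = 1) {u : 𝔄} (u1 : star u * u = 1)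
    (u2 : u * star u = 1) : DM τ (S.W u) = 2 * Real.log ‖S.s.det‖ := by
  have g1 : IsUnit (Matrix.fromBlocks (sc ι u) 0 0 (sc ι (star u))) :=
    m03_isUnit_tri₁₂ (q1_sc_unit u1 u2) (q1_sc_unit' u1 u2) 0
  have gs : IsUnit (scal 𝔄 S.s) := q1_unit_scal (q1_det_s S)
  have gs' : IsUnit (scal 𝔄 S.sᴴ) := q1_unit_scal (q1_detH S).ne_zero
  have g2 : IsUnit (Matrix.fromBlocks (scal 𝔄 S.s) 0 0 (scal 𝔄 S.sᴴ)) :=
    m03_isUnit_tri₁₂ gs gs' 0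
  have g3 : IsUnit (Matrix.fromBlocks (0 : Matrix ι ι 𝔄) 1 1 (0 : Matrix ι ι 𝔄)) :=
    q1_unit q1_swap_sq q1_swap_sq
  have h3 : DM τ (Matrix.fromBlocks (0 : Matrix ι ι 𝔄) 1 1 (0 : Matrix ι ι 𝔄)) = 0 := by
    refine DM_isometry τ ?_
    rw [Matrix.fromBlocks_conjTranspose, Matrix.conjTranspose_zero, Matrix.conjTranspose_one,
      q1_swap_sq]
  rw [q1_W_eq, DM_mul τ (g1.mul g2) g3, DM_mul τ g1 g2, h3,
    DM_fromBlocks_diag τ (q1_sc_unit u1 u2) (q1_sc_unit' u1 u2), DM_fromBlocks_diag τ gs gs',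
    q1_DM_sc u1, q1_DM_sc' u2, scal_conjTranspose, DM_conjTranspose τ gs,
    q1_DM_scal h1 (q1_det_s S)]
  ring

theorem Sol.LM_formula (S : Sol τ a₀ a₁ η) (h1 : τ.f 1 = 1) (hη : 0 < η) {u : 𝔄}
    (u1 : star u * u = 1) (u2 : u * star u = 1) (hD : DM τ (1 + S.X u) = 0) :
    LM τ ((fm u a₀ a₁)ᴴ * fm u a₀ a₁ + eI 𝔄 ι η)
      = LM τ (Qm a₀ a₁ η S.l₀ S.l₁) - Real.log ‖S.s.det‖ := by
  have hF := q1_F_spm (a₀ := a₀) (a₁ := a₁) hη u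
  have hl : ∀ {l : Matrix ι ι ℂ} {δ : ℝ}, 0 < δ →
      (l - (δ : ℂ) • (1 : Matrix ι ι ℂ)).PosSemidef → l.PosSemidef := by
    intro l δ hδ h
    have h2 : ((δ : ℂ) • (1 : Matrix ι ι ℂ)).PosSemidef :=
      (Matrix.PosDef.one.smul (Complex.zero_lt_real.mpr hδ)).posSemidef
    have h3 := h.add h2
    rw [sub_add_cancel] at h3
    exact h3
  have hQ : SPM (Qm a₀ a₁ η S.l₀ S.l₁) :=
    SPM_Qm hη (hl S.δ_pos S.lo₀) (hl S.δ_pos S.lo₁)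
  have e1 : (fm u a₀ a₁)ᴴ * fm u a₀ a₁ + eI 𝔄 ι η = Qm a₀ a₁ η S.l₀ S.l₁ *
      (1 + (S.R * (Matrix.fromRows a₀ a₁)ᴴ) * (q1U S u * Matrix.fromRows a₀ a₁)) := by
    rw [← q1_RF S u1, ← Matrix.mul_assoc, S.QR, Matrix.one_mul]
  have e2 : q1U S u * (q1T S u * (1 + S.X u)) = 1 + q1U S u * q1N S := by
    rw [q1_X' S u1 u2, ← Matrix.mul_assoc (q1T S u), q1_TW S u1 u2, Matrix.one_mul,
      ← Matrix.mul_assoc, q1_UV S u1 u2, Matrix.one_mul]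
  have gU : IsUnit (q1U S u) := q1_unit (q1_UV S u1 u2) (q1_VU S u1 u2)
  have gT : IsUnit (q1T S u) := q1_unit (q1_TW S u1 u2) (q1_WT S u1 u2)
  have gX := S.isUnit_one_add_X h1 hη u1 u2
  have e3 : DM τ (1 + q1U S u * q1N S) = - Real.log ‖S.s.det‖ := by
    rw [← e2, DM_mul τ gU (gT.mul gX), DM_mul τ gT gX, hD,
      DM_inv τ (q1_WT S u1 u2) (q1_TW S u1 u2), q1_DM_U S h1 u1 u2, q1_DM_W S h1 u1 u2]
    ring
  rw [← DM_eq_LM τ hF, ← DM_eq_LM τ hQ, e1, DM_mul τ hQ.isUnit (q1_unit_RF S hη u1),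
    DM_one_add_comm τ (q1_unit_RF S hη u1), q1_UMRM, e3]
  ring

theorem Sol.inverse_formula (S : Sol τ a₀ a₁ η) (h1 : τ.f 1 = 1) (hη : 0 < η) {u : 𝔄}
    (u1 : star u * u = 1) (u2 : u * star u = 1) :
    Ring.inverse ((fm u a₀ a₁)ᴴ * fm u a₀ a₁ + eI 𝔄 ι η)
      = S.R - S.R * (Matrix.fromRows a₀ a₁)ᴴ * Ring.inverse (1 + S.X u) * S.W u
          * Matrix.fromRows a₀ a₁ * S.R := by
  have hF := (q1_F_spm (a₀ := a₀) (a₁ := a₁) hη u).isUnit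
  have gX := S.isUnit_one_add_X h1 hη u1 u2
  have gG : (q1V S u + q1N S) * (Ring.inverse (1 + S.X u) * S.W u) = 1 := by
    have h2 : q1V S u + q1N S = q1T S u * (1 + S.X u) := by
      rw [q1_X S u1 u2, ← Matrix.mul_assoc, q1_TW S u1 u2, Matrix.one_mul]
    rw [h2, Matrix.mul_assoc, ← Matrix.mul_assoc (1 + S.X u), Ring.mul_inverse_cancel _ gX,
      Matrix.one_mul, q1_TW S u1 u2]
  set M : Matrix (ι ⊕ ι) ι 𝔄 := Matrix.fromRows a₀ a₁ with hM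
  set G : Matrix (ι ⊕ ι) (ι ⊕ ι) 𝔄 := Ring.inverse (1 + S.X u) * S.W u with hG
  have e1 : S.R - S.R * Mᴴ * Ring.inverse (1 + S.X u) * S.W u * M * S.R =
      S.R - S.R * Mᴴ * G * M * S.R := by
    rw [hG]
    simp only [Matrix.mul_assoc]
  have e2 : Mᴴ + Mᴴ * q1U S u * (M * S.R * Mᴴ) = Mᴴ * q1U S u * (q1V S u + q1N S) := by
    rw [Matrix.mul_add, Matrix.mul_assoc Mᴴ (q1U S u) (q1V S u), q1_UV S u1 u2, Matrix.mul_one]
    rfl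
  have e3 : ((fm u a₀ a₁)ᴴ * fm u a₀ a₁ + eI 𝔄 ι η) *
      (S.R - S.R * Mᴴ * G * M * S.R) = 1 := by
    rw [q1_F S u1, ← hM]
    have e4 : (Qm a₀ a₁ η S.l₀ S.l₁ + Mᴴ * (q1U S u * M)) * (S.R - S.R * Mᴴ * G * M * S.R) =
        Qm a₀ a₁ η S.l₀ S.l₁ * S.R + Mᴴ * q1U S u * M * S.R -
          ((Qm a₀ a₁ η S.l₀ S.l₁ * S.R) * Mᴴ + Mᴴ * q1U S u * (M * S.R * Mᴴ)) * (G * (M * S.R)) := by
      simp only [Matrix.mul_sub, Matrix.add_mul, Matrix.mul_assoc]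
    have e5 : Mᴴ * q1U S u * (q1V S u + q1N S) * (G * (M * S.R)) =
        Mᴴ * q1U S u * (M * S.R) := by
      rw [Matrix.mul_assoc (Mᴴ * q1U S u) (q1V S u + q1N S) (G * (M * S.R)),
        ← Matrix.mul_assoc (q1V S u + q1N S) G (M * S.R), gG, Matrix.one_mul]
    have e6 : Mᴴ * q1U S u * M * S.R = Mᴴ * q1U S u * (M * S.R) :=
      Matrix.mul_assoc (Mᴴ * q1U S u) M S.R
    rw [e4, S.QR, Matrix.one_mul, e2, e5, e6]
    exact add_sub_cancel_right _ _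
  rw [e1]
  calc Ring.inverse ((fm u a₀ a₁)ᴴ * fm u a₀ a₁ + eI 𝔄 ι η)
      = Ring.inverse ((fm u a₀ a₁)ᴴ * fm u a₀ a₁ + eI 𝔄 ι η) *
        (((fm u a₀ a₁)ᴴ * fm u a₀ a₁ + eI 𝔄 ι η) * (S.R - S.R * Mᴴ * G * M * S.R)) := by
        rw [e3, Matrix.mul_one]
    _ = S.R - S.R * Mᴴ * G * M * S.R := by
        rw [← Matrix.mul_assoc, Ring.inverse_mul_cancel _ hF, Matrix.one_mul]

end LT
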