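import Pool.Agent.H29.LT.Q01

/-!
# LT-Q02: `L²` decay of the powers of `X`

Call a matrix `Y : Matrix (ι ⊕ ι) μ 𝔄` *good* if its top entries `Y (inl i) j` lie in `P` and its
bottom entries `Y (inr i) j` lie in `M`.

(1) `n_ab` have entries in `A` (`EntIn_inverse` for `R`), and the entries of `n₀₀`, `n₁₁` have
    trace `0`: `E n₀₀ = V₀ - V₀ = 0`.
(2) `X Y` is good if `Y` is good:
    top `= U 𝔰 (n₁₀ Y₀ + n₁₁ Y₁)`, bottom `= U* 𝔰* (n₀₀ Y₀ + n₀₁ Y₁)`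
    (`u · (A) · P ⊆ P`, `u · (A, trace 0) · M ⊆ P`, `u* · (A, trace 0) · P ⊆ M`, `u* · A · M ⊆ M`;
    the scalar matrix `𝔰` only takes linear combinations).
    `W m` is good if `m` has entries in `A` (`u A ⊆ P`, `u* A ⊆ M`); so `X = W n` is good.
(3) Covariances.  For `n` with entries in `A` and `Y, Y'` with entries in `P` (resp. `M`):
    `E (n Y Y'ᴴ n'ᴴ) = E (n · scal (E (Y Y'ᴴ)) · n'ᴴ)` (`factP`, `factM` entrywise), and the mixed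
    terms vanish (`cross`).  Also `E (U z U*) = E z`.
    So with `C₀ = E (Y₀ Y₀ᴴ)`, `C₁ = E (Y₁ Y₁ᴴ)` and `Y' = X Y`:
    `C₀' = 𝔰 (E (n₁₀ scal C₀ n₁₀ᴴ) + E (n₁₁ scal C₁ n₁₁ᴴ)) 𝔰*`,
    `C₁' = 𝔰* (E (n₀₀ scal C₀ n₀₀ᴴ) + E (n₀₁ scal C₁ n₀₁ᴴ)) 𝔰`.
(4) If `C₀ ≤ t λ₀`, `C₁ ≤ t λ₁` (`t ≥ 0`), then `C₀' ≤ t (1-δ) λ₀`, `C₁' ≤ t (1-δ) λ₁`:
    `n₁₀ λ₀ n₁₀ᴴ + n₁₁ λ₁ n₁₁ᴴ = a₁ R (a₀ᴴ λ₀ a₀ + a₁ᴴ λ₁ a₁) R a₁ᴴ - V₁ λ₁ a₁ R a₁ᴴ
      - a₁ R a₁ᴴ λ₁ V₁ + V₁ λ₁ V₁` and `a₀ᴴλ₀a₀ + a₁ᴴλ₁a₁ = Q - η`, so its `E` is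
    `V₁ - η E (a₁ R R a₁ᴴ) - V₁ λ₁ V₁ ≤ V₁ - V₁ λ₁ V₁`.
    With `𝔰 V₁ = μ = V₁ 𝔰*` (`μ = 1 - λ₀`), `𝔰* = λ₀ + λ₁ - λ₁ λ₀`:
    `𝔰 (V₁ - V₁ λ₁ V₁) 𝔰* = μ 𝔰* - μ λ₁ μ = μ (λ₀ + λ₁ - λ₁λ₀ - λ₁ (1 - λ₀)) = (1 - λ₀) λ₀
      ≤ (1 - δ) λ₀` (as `λ₀² ≥ δ λ₀`, because `δ ≤ λ₀` commutes with `λ₀`).
    Symmetrically `𝔰* (V₀ - V₀ λ₀ V₀) 𝔰 = (1 - λ₁) λ₁ ≤ (1 - δ) λ₁`.
(5) `X` is good, and its covariances are `≤ t₀ λ_i` for some `t₀` (every Hermitian matrix is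
    `≤ c · 1 ≤ (c/δ) λ_i`).  By induction the covariances of `X^(k+1)` are `≤ t₀ (1-δ)^k λ_i`, so
    `n2 (X^(k+1))² = tr C₀ + tr C₁ ≤ t₀ (1-δ)^k (tr λ₀ + tr λ₁)` (`n2_sq_eq`, blocks).
    This gives `X_decay` with a suitable `C` (`δ < 1` as `δ ≤ λ₀ ≤ 1 - δ` if `ι` is nonempty; the
    empty case is trivial: everything is `0`; also treat `k = 0`).
(6) traces: the diagonal entries of a good square matrix lie in `P` or `M`, so have trace `0`.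
-/

set_option linter.unusedSectionVars false

namespace LT

open scoped Matrix ComplexOrder

variable {𝔄 : Type*} [CStarAlgebra 𝔄] [PartialOrder 𝔄] [StarOrderedRing 𝔄]
variable {ι : Type*} [Fintype ι] [DecidableEq ι]
variable {τ : Tr 𝔄} {a₀ a₁ : Matrix ι ι 𝔄} {η : ℝ}
variable {μ : Type*} [Fintype μ] [DecidableEq μ]

theorem q02_scal_mem (P : Submodule ℂ 𝔄) {Y : Matrix ι μ 𝔄} (hY : EntIn (P : Set 𝔄) Y)
    (Z : Matrix ι ι ℂ) : EntIn (P : Set 𝔄) (scal 𝔄 Z * Y) := by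
  intro i j
  rw [Matrix.mul_apply]
  refine P.sum_mem fun k _ => ?_
  have : scal 𝔄 Z i k * Y k j = Z i k • Y k j := by
    rw [scal, Matrix.map_apply, Algebra.smul_def]
  rw [this]
  exact P.smul_mem _ (hY k j)

theorem q02_add_mem (P : Submodule ℂ 𝔄) {Y Y' : Matrix ι μ 𝔄} (hY : EntIn (P : Set 𝔄) Y)
    (hY' : EntIn (P : Set 𝔄) Y') : EntIn (P : Set 𝔄) (Y + Y') := by
  intro i j
  exact P.add_mem (hY i j) (hY' i j)

theorem q02_sc_mul_apply (u : 𝔄) (Z : Matrix ι μ 𝔄) (i : ι) (j : μ) :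
    (sc ι u * Z) i j = u * Z i j := by
  rw [sc, Matrix.diagonal_mul]

theorem q02_mul_mem {T P : Submodule ℂ 𝔄} {u : 𝔄} {A : Set 𝔄}
    (h : ∀ x ∈ A, ∀ y ∈ T, u * x * y ∈ P) {n : Matrix ι ι 𝔄} (hn : EntIn A n)
    {Y : Matrix ι μ 𝔄} (hY : EntIn (T : Set 𝔄) Y) :
    EntIn (P : Set 𝔄) (sc ι u * (n * Y)) := by
  intro i j
  rw [q02_sc_mul_apply, Matrix.mul_apply, Finset.mul_sum]
  refine P.sum_mem fun k _ => ?_
  rw [← mul_assoc]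
  exact h _ (hn i k) _ (hY k j)

theorem q02_mul_mem1 {P : Submodule ℂ 𝔄} {u : 𝔄} {A : Set 𝔄}
    (h : ∀ x ∈ A, u * x ∈ P) {n : Matrix ι μ 𝔄} (hn : EntIn A n) :
    EntIn (P : Set 𝔄) (sc ι u * n) := by
  intro i j
  rw [q02_sc_mul_apply]
  exact h _ (hn i j)

theorem q02_fact {T : Submodule ℂ 𝔄} {A : Set 𝔄}
    (h : ∀ x ∈ A, ∀ x' ∈ A, ∀ y ∈ T, ∀ y' ∈ T,
      τ.f (x * y * star y' * star x') = τ.f (x * star x') * τ.f (y * star y'))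
    {n : Matrix ι ι 𝔄} (hn : EntIn A n) {Y : Matrix ι μ 𝔄} (hY : EntIn (T : Set 𝔄) Y) :
    E τ ((n * Y) * (n * Y)ᴴ) = E τ (n * scal 𝔄 (E τ (Y * Yᴴ)) * nᴴ) := by
  ext i j
  rw [E, E, Matrix.map_apply, Matrix.map_apply]
  have hL : τ.f (((n * Y) * (n * Y)ᴴ) i j) =
      ∑ l, ∑ k, ∑ m, τ.f (n i k * star (n j m)) * τ.f (Y k l * star (Y m l)) := by
    rw [Matrix.mul_apply, map_sum]
    refine Finset.sum_congr rfl fun l _ => ?_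
    rw [Matrix.conjTranspose_apply, Matrix.mul_apply, Matrix.mul_apply, star_sum,
      Finset.sum_mul_sum, map_sum]
    refine Finset.sum_congr rfl fun k _ => ?_
    rw [map_sum]
    refine Finset.sum_congr rfl fun m _ => ?_
    rw [star_mul, ← mul_assoc, h _ (hn i k) _ (hn j m) _ (hY k l) _ (hY m l)]
  have hR : τ.f ((n * scal 𝔄 (E τ (Y * Yᴴ)) * nᴴ) i j) =
      ∑ m, ∑ k, ∑ l, τ.f (n i k * star (n j m)) * τ.f (Y k l * star (Y m l)) := by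
    rw [Matrix.mul_apply, map_sum]
    refine Finset.sum_congr rfl fun m _ => ?_
    rw [Matrix.conjTranspose_apply, Matrix.mul_apply, Finset.sum_mul, map_sum]
    refine Finset.sum_congr rfl fun k _ => ?_
    rw [scal, Matrix.map_apply, E, Matrix.map_apply, Matrix.mul_apply, ← Algebra.commutes,
      mul_assoc, ← Algebra.smul_def, map_smul, smul_eq_mul, map_sum, Finset.sum_mul]
    refine Finset.sum_congr rfl fun l _ => ?_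
    rw [Matrix.conjTranspose_apply, mul_comm]
  rw [hL, hR, Finset.sum_comm]
  rw [Finset.sum_comm (s := (Finset.univ : Finset ι)) (t := (Finset.univ : Finset ι))
    (f := fun m k => ∑ l, τ.f (n i k * star (n j m)) * τ.f (Y k l * star (Y m l)))]
  refine Finset.sum_congr rfl fun k _ => ?_
  rw [Finset.sum_comm]

theorem q02_cross {T T' : Submodule ℂ 𝔄} {A : Set 𝔄}
    (h : ∀ x ∈ A, ∀ x' ∈ A, ∀ y ∈ T, ∀ y' ∈ T', τ.f (x * y * star y' * star x') = 0)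
    {n n' : Matrix ι ι 𝔄} (hn : EntIn A n) (hn' : EntIn A n') {Y Y' : Matrix ι μ 𝔄}
    (hY : EntIn (T : Set 𝔄) Y) (hY' : EntIn (T' : Set 𝔄) Y') :
    E τ ((n * Y) * (n' * Y')ᴴ) = 0 := by
  ext i j
  rw [E, Matrix.map_apply, Matrix.mul_apply, map_sum, Matrix.zero_apply]
  refine Finset.sum_eq_zero fun l _ => ?_
  rw [Matrix.conjTranspose_apply, Matrix.mul_apply, Matrix.mul_apply, star_sum,
    Finset.sum_mul_sum, map_sum]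
  refine Finset.sum_eq_zero fun k _ => ?_
  rw [map_sum]
  refine Finset.sum_eq_zero fun m _ => ?_
  rw [star_mul, ← mul_assoc, h _ (hn i k) _ (hn' j m) _ (hY k l) _ (hY' m l)]

theorem q02_E_unitary {u : 𝔄} (hu : star u * u = 1) (z : Matrix ι ι 𝔄) :
    E τ (sc ι u * z * (sc ι u)ᴴ) = E τ z := by
  ext i j
  rw [E, E, Matrix.map_apply, Matrix.map_apply, sc_conjTranspose, sc, sc, Matrix.mul_diagonal,
    Matrix.diagonal_mul, τ.comm, ← mul_assoc, hu, one_mul]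

/-- covariance of one row block after one step -/
theorem q02_cov {T T' : Submodule ℂ 𝔄} {A : Set 𝔄} {u : 𝔄} (hu : star u * u = 1)
    (hT : ∀ x ∈ A, ∀ x' ∈ A, ∀ y ∈ T, ∀ y' ∈ T,
      τ.f (x * y * star y' * star x') = τ.f (x * star x') * τ.f (y * star y'))
    (hT' : ∀ x ∈ A, ∀ x' ∈ A, ∀ y ∈ T', ∀ y' ∈ T',
      τ.f (x * y * star y' * star x') = τ.f (x * star x') * τ.f (y * star y'))
    (h : ∀ x ∈ A, ∀ x' ∈ A, ∀ y ∈ T, ∀ y' ∈ T', τ.f (x * y * star y' * star x') = 0)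
    {n n' : Matrix ι ι 𝔄} (hn : EntIn A n) (hn' : EntIn A n') {Y Y' : Matrix ι μ 𝔄}
    (hY : EntIn (T : Set 𝔄) Y) (hY' : EntIn (T' : Set 𝔄) Y') (s : Matrix ι ι ℂ) :
    E τ (((sc ι u * scal 𝔄 s) * (n * Y + n' * Y')) *
        ((sc ι u * scal 𝔄 s) * (n * Y + n' * Y'))ᴴ) =
      s * (E τ (n * scal 𝔄 (E τ (Y * Yᴴ)) * nᴴ) +
        E τ (n' * scal 𝔄 (E τ (Y' * Y'ᴴ)) * n'ᴴ)) * sᴴ := by
  have e1 : ((sc ι u * scal 𝔄 s) * (n * Y + n' * Y')) *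
        ((sc ι u * scal 𝔄 s) * (n * Y + n' * Y'))ᴴ =
      sc ι u * (scal 𝔄 s * ((n * Y + n' * Y') * (n * Y + n' * Y')ᴴ) * scal 𝔄 sᴴ) *
        (sc ι u)ᴴ := by
    rw [Matrix.conjTranspose_mul, Matrix.conjTranspose_mul, scal_conjTranspose]
    simp only [Matrix.mul_assoc]
  rw [e1, q02_E_unitary hu, E_mul_scal, E_scal_mul]
  have e2 : E τ ((n * Y + n' * Y') * (n * Y + n' * Y')ᴴ) =
      E τ ((n * Y) * (n * Y)ᴴ) + E τ ((n' * Y') * (n' * Y')ᴴ) := by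
    have c1 : E τ ((n * Y) * (n' * Y')ᴴ) = 0 := q02_cross h hn hn' hY hY'
    have c2 : E τ ((n' * Y') * (n * Y)ᴴ) = 0 := by
      have c3 : (n' * Y') * (n * Y)ᴴ = ((n * Y) * (n' * Y')ᴴ)ᴴ := by
        rw [Matrix.conjTranspose_mul (n * Y), Matrix.conjTranspose_conjTranspose]
      rw [c3, E_conjTranspose, c1, Matrix.conjTranspose_zero]
    rw [Matrix.conjTranspose_add, Matrix.add_mul, Matrix.mul_add, Matrix.mul_add, E_add, E_add,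
      E_add, c1, c2, add_zero, zero_add]
  rw [e2, q02_fact hT hn hY, q02_fact hT' hn' hY']

theorem q02_scal_sub (Z W : Matrix ι ι ℂ) : scal 𝔄 (Z - W) = scal 𝔄 Z - scal 𝔄 W := by
  ext i j
  simp only [scal, Matrix.map_apply, Matrix.sub_apply, map_sub]

theorem q02_scal_smul (c : ℂ) (Z : Matrix ι ι ℂ) : scal 𝔄 (c • Z) = c • scal 𝔄 Z := by
  ext i j
  simp only [scal, Matrix.map_apply, Matrix.smul_apply, smul_eq_mul, map_mul]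
  rw [Algebra.smul_def]

theorem q02_E_smul (c : ℂ) (x : Matrix ι ι 𝔄) : E τ (c • x) = c • E τ x := by
  ext i j
  simp only [E, Matrix.map_apply, Matrix.smul_apply, map_smul]

theorem q02_lin (n : Matrix ι ι 𝔄) (c : ℂ) (l C : Matrix ι ι ℂ) :
    E τ (n * scal 𝔄 (c • l - C) * nᴴ) =
      c • E τ (n * scal 𝔄 l * nᴴ) - E τ (n * scal 𝔄 C * nᴴ) := by
  rw [q02_scal_sub, q02_scal_smul, Matrix.mul_sub, Matrix.sub_mul, E_sub, Matrix.mul_smul,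
    Matrix.smul_mul, q02_E_smul]

theorem q02_psd_conj {Z : Matrix ι ι ℂ} (hZ : Z.PosSemidef) (n : Matrix ι ι 𝔄) :
    (E τ (n * scal 𝔄 Z * nᴴ)).PosSemidef := by
  have h := PM_conj (PM_scal (𝔄 := 𝔄) hZ) nᴴ
  rw [Matrix.conjTranspose_conjTranspose] at h
  exact posSemidef_E τ h

theorem q02_eI_mul (η : ℝ) (x : Matrix ι ι 𝔄) : eI 𝔄 ι η * x = (η : ℂ) • x := by
  rw [eI, Algebra.algebraMap_eq_smul_one, Matrix.smul_mul, Matrix.one_mul]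
  ext i j
  simp only [Matrix.smul_apply, Complex.coe_smul]

theorem q02_mul_eI (η : ℝ) (x : Matrix ι ι 𝔄) : x * eI 𝔄 ι η = (η : ℂ) • x := by
  rw [eI, Algebra.algebraMap_eq_smul_one, Matrix.mul_smul, Matrix.mul_one]
  ext i j
  simp only [Matrix.smul_apply, Complex.coe_smul]

theorem q02_G {b c R : Matrix ι ι 𝔄} {l l' V : Matrix ι ι ℂ} {η : ℝ} (hR : Rᴴ = R)
    (hV : Vᴴ = V) (hVe : E τ (b * R * bᴴ) = V)
    (hQ : R * (eI 𝔄 ι η + cᴴ * scal 𝔄 l * c + bᴴ * scal 𝔄 l' * b) = 1) (h1 : τ.f 1 = 1) :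
    E τ ((b * R * cᴴ) * scal 𝔄 l * (b * R * cᴴ)ᴴ) +
      E τ ((b * R * bᴴ - scal 𝔄 V) * scal 𝔄 l' * (b * R * bᴴ - scal 𝔄 V)ᴴ) =
      V - (η : ℂ) • E τ ((b * R) * (b * R)ᴴ) - V * l' * V := by
  have e1 : (b * R * cᴴ) * scal 𝔄 l * (b * R * cᴴ)ᴴ =
      b * (R * (cᴴ * scal 𝔄 l * c)) * R * bᴴ := by
    rw [Matrix.conjTranspose_mul, Matrix.conjTranspose_mul, Matrix.conjTranspose_conjTranspose,
      hR]
    simp only [Matrix.mul_assoc]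
  have e2 : (b * R * bᴴ - scal 𝔄 V) * scal 𝔄 l' * (b * R * bᴴ - scal 𝔄 V)ᴴ =
      b * (R * (bᴴ * scal 𝔄 l' * b)) * R * bᴴ - scal 𝔄 (V * l') * (b * R * bᴴ)
        - (b * R * bᴴ) * scal 𝔄 (l' * V) + scal 𝔄 (V * l' * V) := by
    have hb : (b * R * bᴴ)ᴴ = b * R * bᴴ := by
      rw [Matrix.conjTranspose_mul, Matrix.conjTranspose_mul, Matrix.conjTranspose_conjTranspose,
        hR, Matrix.mul_assoc]
    have hv : (scal 𝔄 V)ᴴ = scal 𝔄 V := by rw [← scal_conjTranspose, hV]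
    rw [Matrix.conjTranspose_sub, hb, hv]
    simp only [Matrix.mul_sub, Matrix.sub_mul, scal_mul, Matrix.mul_assoc]
    abel
  have e3 : b * (R * (cᴴ * scal 𝔄 l * c)) * R * bᴴ + b * (R * (bᴴ * scal 𝔄 l' * b)) * R * bᴴ =
      b * R * bᴴ - (η : ℂ) • ((b * R) * (b * R)ᴴ) := by
    have h2 : R * (cᴴ * scal 𝔄 l * c) + R * (bᴴ * scal 𝔄 l' * b) = 1 - (η : ℂ) • R := by
      rw [← hQ, Matrix.mul_add, Matrix.mul_add, q02_mul_eI]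
      abel
    rw [← Matrix.add_mul, ← Matrix.add_mul, ← Matrix.mul_add, h2, Matrix.conjTranspose_mul, hR,
      Matrix.mul_sub, Matrix.mul_one, Matrix.mul_smul, Matrix.sub_mul, Matrix.sub_mul,
      Matrix.smul_mul, Matrix.smul_mul]
    simp only [Matrix.mul_assoc]
  have e4 : E τ (b * (R * (cᴴ * scal 𝔄 l * c)) * R * bᴴ) +
      E τ (b * (R * (bᴴ * scal 𝔄 l' * b)) * R * bᴴ) =
      V - (η : ℂ) • E τ ((b * R) * (b * R)ᴴ) := by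
    rw [← E_add, e3, E_sub, q02_E_smul, hVe]
  rw [e1, e2, E_add, E_sub, E_sub, E_scal_mul, E_mul_scal, E_scal τ h1, hVe]
  have e5 : V * l' * V = V * (l' * V) := Matrix.mul_assoc _ _ _
  rw [← e4, e5]
  abel

theorem q02_psd {b c R : Matrix ι ι 𝔄} {l l' V : Matrix ι ι ℂ} {η : ℝ} (hR : Rᴴ = R)
    (hV : Vᴴ = V) (hVe : E τ (b * R * bᴴ) = V)
    (hQ : R * (eI 𝔄 ι η + cᴴ * scal 𝔄 l * c + bᴴ * scal 𝔄 l' * b) = 1) (h1 : τ.f 1 = 1)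
    {C C' : Matrix ι ι ℂ} {t δ : ℝ} (ht : 0 ≤ t) (hC : ((t : ℂ) • l - C).PosSemidef)
    (hC' : ((t : ℂ) • l' - C').PosSemidef) {s : Matrix ι ι ℂ} (hs : s * V = 1 - l)
    (hs' : sᴴ = l + l' - l' * l) (hδ : (l - (δ : ℂ) • (1 : Matrix ι ι ℂ)).PosSemidef)
    (hδ0 : 0 ≤ δ) (hη : 0 ≤ η) :
    (((t * (1 - δ) : ℝ) : ℂ) • l -
      s * (E τ ((b * R * cᴴ) * scal 𝔄 C * (b * R * cᴴ)ᴴ) +
        E τ ((b * R * bᴴ - scal 𝔄 V) * scal 𝔄 C' * (b * R * bᴴ - scal 𝔄 V)ᴴ)) * sᴴ).PosSemidef := by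
  have hG := q02_G hR hV hVe hQ h1
  set n := b * R * cᴴ with hn
  set n' := b * R * bᴴ - scal 𝔄 V with hn'
  set F := E τ ((b * R) * (b * R)ᴴ) with hF
  have hFp : F.PosSemidef := by
    have h := PM_conjTranspose_mul_self (b * R)ᴴ
    rw [Matrix.conjTranspose_conjTranspose] at h
    exact posSemidef_E τ h
  have ht' : (0 : ℂ) ≤ (t : ℂ) := by exact_mod_cast ht
  have hη' : (0 : ℂ) ≤ (η : ℂ) := by exact_mod_cast hη
  have hδ' : (0 : ℂ) ≤ (δ : ℂ) := by exact_mod_cast hδ0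
  -- Hermitian
  have hlH : lᴴ = l := by
    have h2 := hδ.1
    have h3 : (l - (δ : ℂ) • (1 : Matrix ι ι ℂ))ᴴ = l - (δ : ℂ) • (1 : Matrix ι ι ℂ) := h2
    rw [Matrix.conjTranspose_sub, Matrix.conjTranspose_smul, Matrix.conjTranspose_one,
      Complex.star_def, Complex.conj_ofReal] at h3
    exact sub_left_injective h3
  have hVs : V * sᴴ = 1 - l := by
    have h2 := congrArg Matrix.conjTranspose hs
    rw [Matrix.conjTranspose_mul, hV, Matrix.conjTranspose_sub, Matrix.conjTranspose_one, hlH]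
      at h2
    exact h2
  have p1 : (s * (E τ (n * scal 𝔄 ((t : ℂ) • l - C) * nᴴ) +
      E τ (n' * scal 𝔄 ((t : ℂ) • l' - C') * n'ᴴ)) * sᴴ).PosSemidef :=
    ((q02_psd_conj hC n).add (q02_psd_conj hC' n')).mul_mul_conjTranspose_same s
  have p2 : ((t : ℂ) • ((η : ℂ) • (s * F * sᴴ))).PosSemidef :=
    ((hFp.mul_mul_conjTranspose_same s).smul hη').smul ht'
  have p3 : ((t : ℂ) • ((l - (δ : ℂ) • (1 : Matrix ι ι ℂ))ᴴ * (l - (δ : ℂ) • (1 : Matrix ι ι ℂ)) +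
      (δ : ℂ) • (l - (δ : ℂ) • (1 : Matrix ι ι ℂ)))).PosSemidef :=
    ((Matrix.posSemidef_conjTranspose_mul_self _).add (hδ.smul hδ')).smul ht'
  have hkey : s * (V - (η : ℂ) • F - V * l' * V) * sᴴ = (1 - l) * l - (η : ℂ) • (s * F * sᴴ) := by
    have h2 : s * (V - (η : ℂ) • F - V * l' * V) * sᴴ =
        s * V * sᴴ - (η : ℂ) • (s * F * sᴴ) - (s * V) * l' * (V * sᴴ) := by
      simp only [Matrix.mul_sub, Matrix.sub_mul, Matrix.mul_smul, Matrix.smul_mul,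
        Matrix.mul_assoc]
    rw [h2, hs, hVs, hs']
    have h3 : (1 - l) * (l + l' - l' * l) - (1 - l) * l' * (1 - l) = (1 - l) * l := by
      noncomm_ring
    rw [← h3]
    abel
  have hfin : (((t * (1 - δ) : ℝ) : ℂ) • l -
      s * (E τ (n * scal 𝔄 C * nᴴ) + E τ (n' * scal 𝔄 C' * n'ᴴ)) * sᴴ) =
      s * (E τ (n * scal 𝔄 ((t : ℂ) • l - C) * nᴴ) +
      E τ (n' * scal 𝔄 ((t : ℂ) • l' - C') * n'ᴴ)) * sᴴ + (t : ℂ) • ((η : ℂ) • (s * F * sᴴ)) +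
      (t : ℂ) • ((l - (δ : ℂ) • (1 : Matrix ι ι ℂ))ᴴ * (l - (δ : ℂ) • (1 : Matrix ι ι ℂ)) +
      (δ : ℂ) • (l - (δ : ℂ) • (1 : Matrix ι ι ℂ))) := by
    rw [q02_lin, q02_lin]
    have h4 : (l - (δ : ℂ) • (1 : Matrix ι ι ℂ))ᴴ = l - (δ : ℂ) • (1 : Matrix ι ι ℂ) := hδ.1
    rw [h4]
    have h5 : (l - (δ : ℂ) • (1 : Matrix ι ι ℂ)) * (l - (δ : ℂ) • (1 : Matrix ι ι ℂ)) +
      (δ : ℂ) • (l - (δ : ℂ) • (1 : Matrix ι ι ℂ)) = l * l - (δ : ℂ) • l := by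
      simp only [Matrix.mul_sub, Matrix.sub_mul, Matrix.mul_smul, Matrix.smul_mul, Matrix.mul_one,
        Matrix.one_mul, smul_sub]
      abel
    rw [h5]
    have h6 : s * ((t : ℂ) • E τ (n * scal 𝔄 l * nᴴ) - E τ (n * scal 𝔄 C * nᴴ) +
        ((t : ℂ) • E τ (n' * scal 𝔄 l' * n'ᴴ) - E τ (n' * scal 𝔄 C' * n'ᴴ))) * sᴴ =
        (t : ℂ) • (s * (E τ (n * scal 𝔄 l * nᴴ) + E τ (n' * scal 𝔄 l' * n'ᴴ)) * sᴴ) -
        s * (E τ (n * scal 𝔄 C * nᴴ) + E τ (n' * scal 𝔄 C' * n'ᴴ)) * sᴴ := by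
      simp only [Matrix.mul_sub, Matrix.sub_mul, Matrix.mul_add, Matrix.add_mul, Matrix.mul_smul,
        Matrix.smul_mul, smul_add]
      abel
    rw [h6, hG, hkey]
    have h7 : (((t * (1 - δ) : ℝ) : ℂ) • l) = (t : ℂ) • l - (t : ℂ) • ((δ : ℂ) • l) := by
      rw [smul_smul, ← sub_smul]
      congr 1
      push_cast
      ring
    rw [h7]
    simp only [Matrix.sub_mul, Matrix.one_mul, smul_sub]
    abel
  rw [hfin]
  exact (p1.add p2).add p3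

/-- every positive semidefinite matrix is bounded by a multiple of `l ≥ δ` -/
theorem q02_bound (τ : Tr 𝔄) (h1 : τ.f 1 = 1) {l C : Matrix ι ι ℂ} {δ : ℝ} (hδ0 : 0 < δ)
    (hδ : (l - (δ : ℂ) • (1 : Matrix ι ι ℂ)).PosSemidef) (hC : C.PosSemidef) :
    ∃ t : ℝ, 0 ≤ t ∧ ∀ t' : ℝ, t ≤ t' → ((t' : ℂ) • l - C).PosSemidef := by
  obtain ⟨M, hM, hle⟩ := exists_le_eI (PM_scal (𝔄 := 𝔄) hC)
  have h2 := E_mono τ hle
  have h3 : E τ (eI 𝔄 ι M) = (M : ℂ) • (1 : Matrix ι ι ℂ) := by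
    have h4 : eI 𝔄 ι M = (M : ℂ) • (1 : Matrix ι ι 𝔄) := by
      rw [← q02_eI_mul, Matrix.mul_one]
    rw [h4, q02_E_smul, E_one τ h1]
  rw [h3, E_scal τ h1] at h2
  have hl : l.PosSemidef := by
    have h5 : l = (l - (δ : ℂ) • (1 : Matrix ι ι ℂ)) + (δ : ℂ) • (1 : Matrix ι ι ℂ) := by abel
    rw [h5]
    have hδ' : (0 : ℂ) ≤ (δ : ℂ) := by exact_mod_cast hδ0.le
    exact hδ.add (Matrix.PosSemidef.one.smul hδ')
  refine ⟨M / δ, by positivity, fun t' ht' => ?_⟩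
  have h6 : ((t' : ℂ) • l - C) = ((t' - M / δ : ℝ) : ℂ) • l +
      ((M / δ : ℝ) : ℂ) • (l - (δ : ℂ) • (1 : Matrix ι ι ℂ)) +
      ((M : ℂ) • (1 : Matrix ι ι ℂ) - C) := by
    have h7 : ((M / δ : ℝ) : ℂ) • ((δ : ℂ) • (1 : Matrix ι ι ℂ)) = (M : ℂ) • 1 := by
      rw [smul_smul]
      congr 1
      rw [← Complex.ofReal_mul]
      congr 1
      field_simp
    rw [smul_sub, h7, Complex.ofReal_sub, sub_smul]
    abel
  rw [h6]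
  have h8 : (0 : ℂ) ≤ ((t' - M / δ : ℝ) : ℂ) := by
    exact_mod_cast sub_nonneg.2 ht'
  have h9 : (0 : ℂ) ≤ ((M / δ : ℝ) : ℂ) := by
    have : (0 : ℝ) ≤ M / δ := by positivity
    exact_mod_cast this
  exact ((hl.smul h8).add (hδ.smul h9)).add h2

/-- block rows in `P` and `M` -/
def q02_good (U : UFree τ) (Y : Matrix (ι ⊕ ι) μ 𝔄) : Prop :=
  EntIn (U.P : Set 𝔄) Y.toRows₁ ∧ EntIn (U.M : Set 𝔄) Y.toRows₂

section Step

variable (S : Sol τ a₀ a₁ η) (U : UFree τ)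

theorem q02_X_mul (Y : Matrix (ι ⊕ ι) μ 𝔄) :
    S.X U.u * Y = Matrix.fromRows
      ((sc ι U.u * scal 𝔄 S.s) * (S.n₁₀ * Y.toRows₁ + S.n₁₁ * Y.toRows₂))
      ((sc ι (star U.u) * scal 𝔄 S.sᴴ) * (S.n₀₁ * Y.toRows₂ + S.n₀₀ * Y.toRows₁)) := by
  conv_lhs => rw [← Matrix.fromRows_toRows Y]
  rw [Sol.X, Sol.W, Matrix.mul_assoc, Matrix.fromBlocks_mul_fromRows,
    Matrix.fromBlocks_mul_fromRows, Matrix.zero_mul, Matrix.zero_mul, zero_add, add_zero,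
    add_comm (S.n₀₀ * _)]

theorem q02_W_mul (Y : Matrix (ι ⊕ ι) μ 𝔄) :
    S.W U.u * Y = Matrix.fromRows
      ((sc ι U.u * scal 𝔄 S.s) * Y.toRows₂)
      ((sc ι (star U.u) * scal 𝔄 S.sᴴ) * Y.toRows₁) := by
  conv_lhs => rw [← Matrix.fromRows_toRows Y]
  rw [Sol.W, Matrix.fromBlocks_mul_fromRows, Matrix.zero_mul, Matrix.zero_mul, zero_add, add_zero]

variable {S U}

theorem q02_R_mem (h₀ : EntIn (U.A : Set 𝔄) a₀) (h₁ : EntIn (U.A : Set 𝔄) a₁) :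
    EntIn (U.A : Set 𝔄) S.R :=
  EntIn_inverse U.A U.closed (EntIn_Qm U.A h₀ h₁ η S.l₀ S.l₁) S.RQ S.QR

theorem q02_n₀₁_mem (h₀ : EntIn (U.A : Set 𝔄) a₀) (h₁ : EntIn (U.A : Set 𝔄) a₁) :
    EntIn (U.A : Set 𝔄) S.n₀₁ :=
  ((h₀.mul U.A (q02_R_mem h₀ h₁)).mul U.A (h₁.conjTranspose U.A))

theorem q02_n₁₀_mem (h₀ : EntIn (U.A : Set 𝔄) a₀) (h₁ : EntIn (U.A : Set 𝔄) a₁) :
    EntIn (U.A : Set 𝔄) S.n₁₀ :=
  ((h₁.mul U.A (q02_R_mem h₀ h₁)).mul U.A (h₀.conjTranspose U.A))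

theorem q02_n₀₀_mem (h₀ : EntIn (U.A : Set 𝔄) a₀) (h₁ : EntIn (U.A : Set 𝔄) a₁) :
    EntIn (U.A : Set 𝔄) S.n₀₀ :=
  ((h₀.mul U.A (q02_R_mem h₀ h₁)).mul U.A (h₀.conjTranspose U.A)).sub U.A (EntIn_scal U.A _)

theorem q02_n₁₁_mem (h₀ : EntIn (U.A : Set 𝔄) a₀) (h₁ : EntIn (U.A : Set 𝔄) a₁) :
    EntIn (U.A : Set 𝔄) S.n₁₁ :=
  ((h₁.mul U.A (q02_R_mem h₀ h₁)).mul U.A (h₁.conjTranspose U.A)).sub U.A (EntIn_scal U.A _)

theorem q02_n₀₀_tr (h1 : τ.f 1 = 1) (i j : ι) : τ.f (S.n₀₀ i j) = 0 := by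
  have h : E τ S.n₀₀ = 0 := by
    rw [Sol.n₀₀, E_sub, E_scal τ h1, Sol.V₀, sub_self]
  exact congrFun (congrFun h i) j

theorem q02_n₁₁_tr (h1 : τ.f 1 = 1) (i j : ι) : τ.f (S.n₁₁ i j) = 0 := by
  have h : E τ S.n₁₁ = 0 := by
    rw [Sol.n₁₁, E_sub, E_scal τ h1, Sol.V₁, sub_self]
  exact congrFun (congrFun h i) j

theorem q02_sc_scal (u : 𝔄) (s : Matrix ι ι ℂ) (Z : Matrix ι μ 𝔄) :
    (sc ι u * scal 𝔄 s) * Z = scal 𝔄 s * (sc ι u * Z) := by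
  rw [sc_scal_comm, Matrix.mul_assoc]

theorem q02_X_good (h1 : τ.f 1 = 1) (h₀ : EntIn (U.A : Set 𝔄) a₀)
    (h₁ : EntIn (U.A : Set 𝔄) a₁) {Y : Matrix (ι ⊕ ι) μ 𝔄} (hY : q02_good U Y) :
    q02_good U (S.X U.u * Y) := by
  rw [q02_X_mul]
  refine ⟨?_, ?_⟩
  · rw [Matrix.toRows₁_fromRows]
    rw [q02_sc_scal, Matrix.mul_add]
    refine q02_scal_mem _ (q02_add_mem _ ?_ ?_) _
    · exact q02_mul_mem U.uPP (q02_n₁₀_mem h₀ h₁) hY.1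
    · exact q02_mul_mem (A := {x | x ∈ U.A ∧ τ.f x = 0})
        (fun x hx y hy => U.uPM x hx.1 hx.2 y hy)
        (fun i j => ⟨q02_n₁₁_mem h₀ h₁ i j, q02_n₁₁_tr h1 i j⟩) hY.2
  · rw [Matrix.toRows₂_fromRows]
    rw [q02_sc_scal, Matrix.mul_add]
    refine q02_scal_mem _ (q02_add_mem _ ?_ ?_) _
    · exact q02_mul_mem U.uMM (q02_n₀₁_mem h₀ h₁) hY.2
    · exact q02_mul_mem (A := {x | x ∈ U.A ∧ τ.f x = 0})
        (fun x hx y hy => U.uMP x hx.1 hx.2 y hy)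
        (fun i j => ⟨q02_n₀₀_mem h₀ h₁ i j, q02_n₀₀_tr h1 i j⟩) hY.1

theorem q02_W_good {m : Matrix (ι ⊕ ι) μ 𝔄} (hm : EntIn (U.A : Set 𝔄) m) :
    q02_good U (S.W U.u * m) := by
  rw [q02_W_mul]
  refine ⟨?_, ?_⟩
  · rw [Matrix.toRows₁_fromRows, q02_sc_scal]
    exact q02_scal_mem _ (q02_mul_mem1 U.uP1 fun i j => hm _ _) _
  · rw [Matrix.toRows₂_fromRows, q02_sc_scal]
    exact q02_scal_mem _ (q02_mul_mem1 U.uM1 fun i j => hm _ _) _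

theorem q02_X_eq : S.X U.u = S.W U.u * Matrix.fromBlocks S.n₀₀ S.n₀₁ S.n₁₀ S.n₁₁ := rfl

theorem q02_good_X (h₀ : EntIn (U.A : Set 𝔄) a₀) (h₁ : EntIn (U.A : Set 𝔄) a₁) :
    q02_good U (S.X U.u) := by
  rw [q02_X_eq]
  refine q02_W_good fun i j => ?_
  rcases i with i | i <;> rcases j with j | j
  · exact q02_n₀₀_mem h₀ h₁ i j
  · exact q02_n₀₁_mem h₀ h₁ i j
  · exact q02_n₁₀_mem h₀ h₁ i j
  · exact q02_n₁₁_mem h₀ h₁ i j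

theorem q02_good_pow_mul (h1 : τ.f 1 = 1) (h₀ : EntIn (U.A : Set 𝔄) a₀)
    (h₁ : EntIn (U.A : Set 𝔄) a₁) {Y : Matrix (ι ⊕ ι) μ 𝔄} (hY : q02_good U Y) (k : ℕ) :
    q02_good U (S.X U.u ^ k * Y) := by
  induction k with
  | zero => rw [pow_zero, Matrix.one_mul]; exact hY
  | succ k ih =>
    rw [pow_succ', Matrix.mul_assoc]
    exact q02_X_good h1 h₀ h₁ ih

theorem q02_good_pow (h1 : τ.f 1 = 1) (h₀ : EntIn (U.A : Set 𝔄) a₀)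
    (h₁ : EntIn (U.A : Set 𝔄) a₁) (k : ℕ) : q02_good U (S.X U.u ^ (k + 1)) := by
  rw [pow_succ]
  exact q02_good_pow_mul h1 h₀ h₁ (q02_good_X h₀ h₁) k

theorem q02_toC_pow (x : Matrix ι ι 𝔄) (k : ℕ) : toC x ^ k = toC (x ^ k) := by
  induction k with
  | zero => rw [pow_zero, pow_zero]; rfl
  | succ k ih => rw [pow_succ, pow_succ, ih, toC_mul]

theorem q02_tr_good {Y : Matrix (ι ⊕ ι) (ι ⊕ ι) 𝔄} (hY : q02_good U Y) :
    (τ.mat (ι ⊕ ι)).f (toC Y) = 0 := by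
  rw [Tr.mat_apply]
  refine Finset.sum_eq_zero fun i _ => ?_
  rcases i with i | i
  · exact U.tr0P _ (hY.1 i (Sum.inl i))
  · exact U.tr0M _ (hY.2 i (Sum.inr i))

/-- covariance bound for the pair of block rows -/
def q02_cb (S : Sol τ a₀ a₁ η) (t : ℝ) (Y : Matrix (ι ⊕ ι) μ 𝔄) : Prop :=
  ((t : ℂ) • S.l₀ - E τ (Y.toRows₁ * Y.toRows₁ᴴ)).PosSemidef ∧
    ((t : ℂ) • S.l₁ - E τ (Y.toRows₂ * Y.toRows₂ᴴ)).PosSemidef

theorem q02_herm {l : Matrix ι ι ℂ} {δ : ℝ}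
    (hδ : (l - (δ : ℂ) • (1 : Matrix ι ι ℂ)).PosSemidef) : lᴴ = l := by
  have h3 : (l - (δ : ℂ) • (1 : Matrix ι ι ℂ))ᴴ = l - (δ : ℂ) • (1 : Matrix ι ι ℂ) := hδ.1
  rw [Matrix.conjTranspose_sub, Matrix.conjTranspose_smul, Matrix.conjTranspose_one,
    Complex.star_def, Complex.conj_ofReal] at h3
  exact sub_left_injective h3

theorem q02_step (h1 : τ.f 1 = 1) (hη : 0 < η) (h₀ : EntIn (U.A : Set 𝔄) a₀)
    (h₁ : EntIn (U.A : Set 𝔄) a₁) {Y : Matrix (ι ⊕ ι) μ 𝔄} (hY : q02_good U Y) {t : ℝ}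
    (ht : 0 ≤ t) (hc : q02_cb S t Y) : q02_cb S (t * (1 - S.δ)) (S.X U.u * Y) := by
  have hl₀ := q02_herm S.lo₀
  have hl₁ := q02_herm S.lo₁
  have hV₀ : S.V₀ᴴ = S.V₀ := S.V₀_isHermitian
  have hV₁ : S.V₁ᴴ = S.V₁ := S.V₁_isHermitian
  have hR := S.R_isHermitian
  have hsH : S.sᴴ = S.l₀ + S.l₁ - S.l₁ * S.l₀ := by
    rw [Sol.s, Matrix.conjTranspose_sub, Matrix.conjTranspose_add, Matrix.conjTranspose_mul, hl₀,
      hl₁]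
  rw [q02_X_mul]
  refine ⟨?_, ?_⟩
  · rw [Matrix.toRows₁_fromRows]
    rw [q02_cov U.u1 (fun x hx x' hx' y hy y' hy' => U.factP x hx x' hx' y hy y' hy')
      (fun x hx x' hx' y hy y' hy' => U.factM x hx x' hx' y hy y' hy')
      (fun x hx x' hx' y hy y' hy' => U.cross x hx x' hx' y hy y' hy')
      (q02_n₁₀_mem h₀ h₁) (q02_n₁₁_mem h₀ h₁) hY.1 hY.2]
    exact q02_psd hR hV₁ rfl S.RQ h1 ht hc.1 hc.2 S.e₁ hsH S.lo₀ S.δ_pos.le hη.le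
  · rw [Matrix.toRows₂_fromRows]
    rw [q02_cov (u := star U.u) (by rw [star_star]; exact U.u2)
      (fun x hx x' hx' y hy y' hy' => U.factM x hx x' hx' y hy y' hy')
      (fun x hx x' hx' y hy y' hy' => U.factP x hx x' hx' y hy y' hy')
      (fun x hx x' hx' y hy y' hy' => by
        have h := U.cross x' hx' x hx y' hy' y hy
        have h2 : x * y * star y' * star x' = star (x' * y' * star y * star x) := by
          simp only [star_mul, star_star, mul_assoc]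
        rw [h2, τ.star_map, h, star_zero])
      (q02_n₀₁_mem h₀ h₁) (q02_n₀₀_mem h₀ h₁) hY.2 hY.1]
    have hQ : S.R * (eI 𝔄 ι η + a₁ᴴ * scal 𝔄 S.l₁ * a₁ + a₀ᴴ * scal 𝔄 S.l₀ * a₀) = 1 := by
      have h := S.RQ
      rw [Qm, add_right_comm] at h
      exact h
    have hs : S.sᴴ * S.V₀ = 1 - S.l₁ := by
      have h0 : S.V₀ * S.s = 1 - S.l₁ := S.e₀
      have h := congrArg Matrix.conjTranspose h0
      rw [Matrix.conjTranspose_mul, hV₀, Matrix.conjTranspose_sub, Matrix.conjTranspose_one,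
        hl₁] at h
      exact h
    have hss : S.sᴴᴴ = S.l₁ + S.l₀ - S.l₀ * S.l₁ := by
      rw [Matrix.conjTranspose_conjTranspose, Sol.s, add_comm S.l₀]
    exact q02_psd hR hV₀ rfl hQ h1 ht hc.2 hc.1 hs hss S.lo₁ S.δ_pos.le hη.le

theorem q02_cb_pow (h1 : τ.f 1 = 1) (hη : 0 < η) (hδ : 0 ≤ 1 - S.δ)
    (h₀ : EntIn (U.A : Set 𝔄) a₀)
    (h₁ : EntIn (U.A : Set 𝔄) a₁) {t : ℝ} (ht : 0 ≤ t) (hc : q02_cb S t (S.X U.u)) (k : ℕ) :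
    q02_cb S (t * (1 - S.δ) ^ k) (S.X U.u ^ (k + 1)) := by
  induction k with
  | zero =>
    rw [pow_zero, mul_one, zero_add, pow_one]
    exact hc
  | succ k ih =>
    rw [pow_succ' (S.X U.u) (k + 1), pow_succ, ← mul_assoc]
    exact q02_step h1 hη h₀ h₁ (q02_good_pow h1 h₀ h₁ k) (mul_nonneg ht (pow_nonneg hδ k)) ih

theorem q02_n2_le {t : ℝ} {Y : Matrix (ι ⊕ ι) (ι ⊕ ι) 𝔄} (hc : q02_cb S t Y) :
    n2 (τ.mat (ι ⊕ ι)) (toC Y) ^ 2 ≤ t * ((S.l₀.trace).re + (S.l₁.trace).re) := by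
  rw [n2_sq_eq]
  have e : Matrix.trace (E τ (Y * Yᴴ)) =
      Matrix.trace (E τ (Y.toRows₁ * Y.toRows₁ᴴ)) + Matrix.trace (E τ (Y.toRows₂ * Y.toRows₂ᴴ)) := by
    rw [Matrix.trace, Fintype.sum_sum_type]
    rfl
  have b1 := hc.1.trace_nonneg
  have b2 := hc.2.trace_nonneg
  rw [Matrix.trace_sub, Matrix.trace_smul] at b1 b2
  have c1 := (Complex.le_def.1 b1).1
  have c2 := (Complex.le_def.1 b2).1
  rw [smul_eq_mul, Complex.sub_re, Complex.re_ofReal_mul, Complex.zero_re] at c1 c2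
  rw [e, Complex.add_re]
  linarith

end Step

theorem Sol.X_decay (S : Sol τ a₀ a₁ η) (U : UFree τ) (h1 : τ.f 1 = 1) (hη : 0 < η)
    (h₀ : EntIn (U.A : Set 𝔄) a₀) (h₁ : EntIn (U.A : Set 𝔄) a₁) :
    ∃ C q : ℝ, 0 ≤ q ∧ q < 1 ∧
      ∀ k : ℕ, n2 (τ.mat (ι ⊕ ι)) (toC (S.X U.u) ^ k) ≤ C * q ^ k := by
  rcases isEmpty_or_nonempty ι with hι | hι
  · refine ⟨0, 0, le_refl _, one_pos, fun k => ?_⟩
    rw [zero_mul]
    apply le_of_eq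
    rw [n2, Tr.mat_apply, Fintype.sum_empty, Complex.zero_re, Real.sqrt_zero]
  · have hδ : S.δ ≤ 1 / 2 := by
      obtain ⟨i⟩ := hι
      have a := (Complex.le_def.1 (S.lo₀.diag_nonneg (i := i))).1
      have b := (Complex.le_def.1 (S.hi₀.diag_nonneg (i := i))).1
      simp only [Matrix.sub_apply, Matrix.smul_apply, Matrix.one_apply_eq, smul_eq_mul, mul_one,
        Complex.zero_re, Complex.sub_re, Complex.ofReal_re] at a b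
      linarith
    have hq0 : 0 < 1 - S.δ := by linarith
    have hpsd : ∀ Z : Matrix ι (ι ⊕ ι) 𝔄, (E τ (Z * Zᴴ)).PosSemidef := by
      intro Z
      have h := PM_conjTranspose_mul_self Zᴴ
      rw [Matrix.conjTranspose_conjTranspose] at h
      exact posSemidef_E τ h
    obtain ⟨t₁, ht₁, hb₁⟩ := q02_bound τ h1 S.δ_pos S.lo₀ (hpsd (S.X U.u).toRows₁)
    obtain ⟨t₂, ht₂, hb₂⟩ := q02_bound τ h1 S.δ_pos S.lo₁ (hpsd (S.X U.u).toRows₂)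
    have hc : q02_cb S (max t₁ t₂) (S.X U.u) :=
      ⟨hb₁ _ (le_max_left _ _), hb₂ _ (le_max_right _ _)⟩
    set t := max t₁ t₂ with htd
    have ht : 0 ≤ t := ht₁.trans (le_max_left _ _)
    set L := (S.l₀.trace).re + (S.l₁.trace).re with hL
    set q := √(1 - S.δ) with hq
    have hqpos : 0 < q := Real.sqrt_pos.2 hq0
    have hq2 : q ^ 2 = 1 - S.δ := Real.sq_sqrt hq0.le
    have hq1 : q < 1 := by
      rw [hq]
      calc √(1 - S.δ) < √1 := Real.sqrt_lt_sqrt hq0.le (by linarith [S.δ_pos])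
        _ = 1 := Real.sqrt_one
    refine ⟨max (n2 (τ.mat (ι ⊕ ι)) (toC (S.X U.u) ^ 0)) (√(t * L) / q), q, hqpos.le, hq1,
      fun k => ?_⟩
    rcases k with _ | k
    · rw [pow_zero q, mul_one]
      exact le_max_left _ _
    · rw [q02_toC_pow]
      have h5 := q02_n2_le (q02_cb_pow h1 hη hq0.le h₀ h₁ ht hc k)
      have h6 : n2 (τ.mat (ι ⊕ ι)) (toC (S.X U.u ^ (k + 1))) ≤ √(t * L) * q ^ k := by
        have h7 : n2 (τ.mat (ι ⊕ ι)) (toC (S.X U.u ^ (k + 1))) ≤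
            √(t * (1 - S.δ) ^ k * L) := Real.le_sqrt_of_sq_le h5
        refine h7.trans (le_of_eq ?_)
        have h8 : t * (1 - S.δ) ^ k * L = (q ^ k) ^ 2 * (t * L) := by
          rw [← pow_mul, mul_comm k 2, pow_mul, hq2]
          ring
        rw [h8, Real.sqrt_mul (sq_nonneg _), Real.sqrt_sq (pow_nonneg hqpos.le k), mul_comm]
      have h9 : √(t * L) * q ^ k = (√(t * L) / q) * q ^ (k + 1) := by
        rw [pow_succ]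
        field_simp
      rw [h9] at h6
      exact h6.trans (mul_le_mul_of_nonneg_right (le_max_right _ _) (pow_nonneg hqpos.le _))

theorem Sol.X_tr (S : Sol τ a₀ a₁ η) (U : UFree τ) (h1 : τ.f 1 = 1) (hη : 0 < η)
    (h₀ : EntIn (U.A : Set 𝔄) a₀) (h₁ : EntIn (U.A : Set 𝔄) a₁) (k : ℕ) :
    (τ.mat (ι ⊕ ι)).f (toC (S.X U.u) ^ (k + 1)) = 0 := by
  rw [q02_toC_pow]
  exact q02_tr_good (q02_good_pow h1 h₀ h₁ k)

theorem Sol.X_tr' (S : Sol τ a₀ a₁ η) (U : UFree τ) (h1 : τ.f 1 = 1) (hη : 0 < η)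
    (h₀ : EntIn (U.A : Set 𝔄) a₀) (h₁ : EntIn (U.A : Set 𝔄) a₁) (k : ℕ)
    {m : Matrix (ι ⊕ ι) (ι ⊕ ι) 𝔄} (hm : EntIn (U.A : Set 𝔄) m) :
    (τ.mat (ι ⊕ ι)).f (toC (S.X U.u) ^ k * toC (S.W U.u * m)) = 0 := by
  rw [q02_toC_pow, ← toC_mul]
  exact q02_tr_good (q02_good_pow_mul h1 h₀ h₁ (q02_W_good hm) k)

end LT
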