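import Pool.Agent.H29.LT.M04
import Pool.Agent.H29.LT.M05
import Pool.Agent.H29.LT.M06

/-!
# LT-Q03: the functional `V a η p q = E (a Q(p,q)⁻¹ a*)`

Here `Q = Qm a₀ a₁ η p q`, `p, q` positive semidefinite, `η > 0`, `a` is `a₀` or `a₁`.
Write `R = Ring.inverse Q` (a genuine inverse, `SPM_Qm`).

* `Vf_posDef`: `Q ≤ M`, so `R ≥ M⁻¹` and `a R aᴴ ≥ M⁻¹ a aᴴ`; apply `E` (`E_mono`).
* `Vf_zero`: for `p = q = 0`: `Q = η`, so `V = η⁻¹ E (a aᴴ)`.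
* `inverse_jensen` (operator Jensen inequality for parallel sums): `Q` strictly positive, `d` psd,
  `S = Q + aᴴ scal d a`, `V = E (a Q⁻¹ aᴴ)` positive definite.  For every `z : Matrix ι ι ℂ`,
  `a S⁻¹ aᴴ ≤ (a - scal(zᴴ d) a) Q⁻¹ (a - scal (zᴴ d) a)ᴴ + scal (zᴴ d z)`:
  write `d = kᴴ k`... precisely, let `k = scal (d^{1/2}) a`, `b = scal (zᴴ d^{1/2})`,
  `e = b - a S⁻¹ kᴴ`; then `RHS - LHS = e (1 + k Q⁻¹ kᴴ) eᴴ` (expand, using `S = Q + kᴴ k`, i.e.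
  `a - b k = a S⁻¹ Q - e k`).
  Taking `E`: `E (a S⁻¹ aᴴ) ≤ (1 - zᴴ d) V (1 - d z) + zᴴ d z`.  With `z = W := (V⁻¹ + d)⁻¹`
  (Hermitian): `1 - d W = V⁻¹ W`, `1 - W d = W V⁻¹`, so the right side is `W V⁻¹ W + W d W = W`.
  So `E (a S⁻¹ aᴴ) ≤ (V⁻¹ + d)⁻¹`.
* `Vf_mono₀`: for `p ≤ p'`, `q ≤ q'`: `Q(p',q') ≥ Q(p,q) + a₀ᴴ scal (p'-p) a₀ =: S`, so
  `V₀(p',q') ≤ E (a₀ S⁻¹ a₀ᴴ) ≤ (V₀(p,q)⁻¹ + (p'-p))⁻¹`; invert (`posSemidef_inv_sub_inv`):
  `V₀(p',q')⁻¹ - p' ≥ V₀(p,q)⁻¹ - p`.  Same for index `1`.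
* `continuousAt_Vf`: the inverse is continuous at units of the Banach algebra `CStarMatrix`.
-/

set_option linter.unusedSectionVars false

namespace LT

open scoped Matrix ComplexOrder

variable {𝔄 : Type*} [CStarAlgebra 𝔄] [PartialOrder 𝔄] [StarOrderedRing 𝔄]
variable {ι : Type*} [Fintype ι] [DecidableEq ι]

/-- `V a = E (a Q(p,q)⁻¹ aᴴ)` -/
noncomputable def Vf (τ : Tr 𝔄) (a a₀ a₁ : Matrix ι ι 𝔄) (η : ℝ) (p q : Matrix ι ι ℂ) :
    Matrix ι ι ℂ :=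
  E τ (a * Ring.inverse (Qm a₀ a₁ η p q) * aᴴ)

variable {τ : Tr 𝔄} {a₀ a₁ : Matrix ι ι 𝔄} {η : ℝ}

private theorem q3_inv_eq {x y : Matrix ι ι 𝔄} (h : x * y = 1) (h' : y * x = 1) :
    Ring.inverse x = y :=
  Ring.inverse_unit (⟨x, y, h, h'⟩ : (Matrix ι ι 𝔄)ˣ)

private theorem q3_inv_mul {Q : Matrix ι ι 𝔄} (hQ : SPM Q) : Ring.inverse Q * Q = 1 :=
  Ring.inverse_mul_cancel Q hQ.isUnit

private theorem q3_mul_inv {Q : Matrix ι ι 𝔄} (hQ : SPM Q) : Q * Ring.inverse Q = 1 :=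
  Ring.mul_inverse_cancel Q hQ.isUnit

private theorem q3_inv_herm {Q : Matrix ι ι 𝔄} (hQ : SPM Q) :
    (Ring.inverse Q)ᴴ = Ring.inverse Q := by
  have hH : Qᴴ = Q := hQ.toPM.isHermitian
  have h1 := congrArg Matrix.conjTranspose (q3_mul_inv hQ)
  have h2 := congrArg Matrix.conjTranspose (q3_inv_mul hQ)
  rw [Matrix.conjTranspose_mul, Matrix.conjTranspose_one, hH] at h1 h2
  exact (q3_inv_eq h2 h1).symm

private theorem q3_inv_PM {Q : Matrix ι ι 𝔄} (hQ : SPM Q) : PM (Ring.inverse Q) := by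
  have h := PM_conj hQ.toPM (Ring.inverse Q)
  rw [q3_inv_herm hQ, q3_inv_mul hQ, Matrix.one_mul] at h
  exact h

private theorem q3_inv_anti {A B : Matrix ι ι 𝔄} (hA : SPM A) (h : LeM A B) :
    LeM (Ring.inverse B) (Ring.inverse A) := by
  have hB : SPM B := hA.of_le h
  have hD : PM (B - A) := LeM_iff.1 h
  have e1 : Ring.inverse A - Ring.inverse B =
      (Ring.inverse B)ᴴ * (B - A) * Ring.inverse B +
        ((B - A) * Ring.inverse B)ᴴ * Ring.inverse A * ((B - A) * Ring.inverse B) := by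
    have hB1 := q3_inv_mul hB
    have hB2 := q3_mul_inv hB
    have hA1 := q3_inv_mul hA
    have hA2 := q3_mul_inv hA
    rw [Matrix.conjTranspose_mul, q3_inv_herm hB, hD.isHermitian]
    generalize Ring.inverse B = S at *
    generalize Ring.inverse A = R at *
    have k1 : S * (B - A) = 1 - S * A := by rw [Matrix.mul_sub, hB1]
    have k2 : (B - A) * S = 1 - A * S := by rw [Matrix.sub_mul, hB2]
    rw [k1, k2]
    have k3 : (1 - S * A) * R = R - S := by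
      rw [Matrix.sub_mul, Matrix.one_mul, Matrix.mul_assoc, hA2, Matrix.mul_one]
    have k4 : (R - S) * (1 - A * S) = R - S - (S - S * A * S) := by
      rw [Matrix.mul_sub, Matrix.mul_one, Matrix.sub_mul, ← Matrix.mul_assoc R A S, hA1,
        Matrix.one_mul, ← Matrix.mul_assoc]
    have k5 : (1 - S * A) * S = S - S * A * S := by
      rw [Matrix.sub_mul, Matrix.one_mul]
    rw [k3, k4, k5]
    abel
  rw [LeM_iff, e1]
  exact PM.add (PM_conj hD _) (PM_conj (q3_inv_PM hA) _)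

private theorem q3_E_smul (τ : Tr 𝔄) (r : ℝ) (x : Matrix ι ι 𝔄) :
    E τ (r • x) = (r : ℂ) • E τ x := by
  ext i j
  simp only [E, Matrix.map_apply, Matrix.smul_apply]
  rw [← Complex.coe_smul, map_smul]

private theorem q3_eI (r : ℝ) : eI 𝔄 ι r = r • (1 : Matrix ι ι 𝔄) :=
  Algebra.algebraMap_eq_smul_one r

private theorem q3_smul_posDef {Z : Matrix ι ι ℂ} (hZ : Z.PosDef) {r : ℝ} (hr : 0 < r) :
    ((r : ℂ) • Z).PosDef := by
  have h := hZ.smul (α := ℝ) hr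
  have e : (r : ℂ) • Z = r • Z := Complex.coe_smul r Z
  rw [e]
  exact h

private theorem q3_posDef {a Q : Matrix ι ι 𝔄} (hQ : SPM Q) (ha : (E τ (a * aᴴ)).PosDef) :
    (E τ (a * Ring.inverse Q * aᴴ)).PosDef := by
  obtain ⟨M, hM, hle⟩ := exists_le_eI hQ.toPM
  have hinv : Ring.inverse (eI 𝔄 ι M) = M⁻¹ • (1 : Matrix ι ι 𝔄) := by
    apply q3_inv_eq
    · rw [q3_eI, Matrix.smul_mul, Matrix.mul_smul, smul_smul, mul_inv_cancel₀ hM.ne', one_smul,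
        Matrix.one_mul]
    · rw [q3_eI, Matrix.smul_mul, Matrix.mul_smul, smul_smul, inv_mul_cancel₀ hM.ne', one_smul,
        Matrix.one_mul]
  have h1 := q3_inv_anti hQ hle
  rw [hinv] at h1
  have h2 := E_mono τ (LeM_conj h1 aᴴ)
  rw [Matrix.conjTranspose_conjTranspose] at h2
  have h3 : a * (M⁻¹ • (1 : Matrix ι ι 𝔄)) * aᴴ = M⁻¹ • (a * aᴴ) := by
    rw [Matrix.mul_smul, Matrix.mul_one, Matrix.smul_mul]
  rw [h3, q3_E_smul] at h2
  exact posDef_of_le (q3_smul_posDef ha (inv_pos.2 hM)) h2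

theorem Vf_posDef {a : Matrix ι ι 𝔄} (ha : (E τ (a * aᴴ)).PosDef) (hη : 0 < η)
    {p q : Matrix ι ι ℂ} (hp : p.PosSemidef) (hq : q.PosSemidef) :
    (Vf τ a a₀ a₁ η p q).PosDef :=
  q3_posDef (SPM_Qm hη hp hq) ha

theorem Vf_zero {a : Matrix ι ι 𝔄} (hη : 0 < η) :
    Vf τ a a₀ a₁ η 0 0 = ((η⁻¹ : ℝ) : ℂ) • E τ (a * aᴴ) := by
  have h0 : scal 𝔄 (0 : Matrix ι ι ℂ) = 0 := by
    ext i j
    simp [scal]
  have hQ : Qm a₀ a₁ η 0 0 = eI 𝔄 ι η := by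
    unfold Qm
    rw [h0]
    simp
  have hinv : Ring.inverse (eI 𝔄 ι η) = η⁻¹ • (1 : Matrix ι ι 𝔄) := by
    apply q3_inv_eq
    · rw [q3_eI, Matrix.smul_mul, Matrix.mul_smul, smul_smul, mul_inv_cancel₀ hη.ne', one_smul,
        Matrix.one_mul]
    · rw [q3_eI, Matrix.smul_mul, Matrix.mul_smul, smul_smul, inv_mul_cancel₀ hη.ne', one_smul,
        Matrix.one_mul]
  unfold Vf
  rw [hQ, hinv, Matrix.mul_smul, Matrix.mul_one, Matrix.smul_mul, q3_E_smul]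

private theorem q3_jensen_aux {a Q : Matrix ι ι 𝔄} (hQ : SPM Q) (k z : Matrix ι ι ℂ)
    (S T R : Matrix ι ι 𝔄) (hS : S = Q + aᴴ * scal 𝔄 (kᴴ * k) * a) (hST : S * T = 1)
    (hTS : T * S = 1) (hTH : Tᴴ = T) (hQR : Q * R = 1) (hRQ : R * Q = 1) (hRH : Rᴴ = R)
    (hR : PM R) :
    PM (scal 𝔄 (1 - zᴴ * (kᴴ * k)) * (a * R * aᴴ) * scal 𝔄 (1 - (kᴴ * k) * z) +
      scal 𝔄 (zᴴ * (kᴴ * k) * z) - a * T * aᴴ) := by
  obtain ⟨K, hK⟩ : ∃ K : Matrix ι ι 𝔄, K = scal 𝔄 k * a := ⟨_, rfl⟩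
  obtain ⟨B, hB⟩ : ∃ B : Matrix ι ι 𝔄, B = scal 𝔄 (zᴴ * kᴴ) := ⟨_, rfl⟩
  obtain ⟨e, he⟩ : ∃ e : Matrix ι ι 𝔄, e = B - a * T * Kᴴ := ⟨_, rfl⟩
  have hKK : aᴴ * scal 𝔄 (kᴴ * k) * a = Kᴴ * K := by
    rw [hK, scal_mul, scal_conjTranspose, Matrix.conjTranspose_mul]
    simp only [Matrix.mul_assoc]
  have hBB : scal 𝔄 (zᴴ * (kᴴ * k) * z) = B * Bᴴ := by
    rw [hB, ← scal_conjTranspose, ← scal_mul]
    congr 1
    simp only [Matrix.conjTranspose_mul, Matrix.conjTranspose_conjTranspose, Matrix.mul_assoc]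
  have hleft : scal 𝔄 (1 - zᴴ * (kᴴ * k)) * a = a - B * K := by
    have h1 : scal 𝔄 (1 - zᴴ * (kᴴ * k)) = 1 - scal 𝔄 (zᴴ * (kᴴ * k)) := by
      have h2 := scal_add (𝔄 := 𝔄) (1 - zᴴ * (kᴴ * k)) (zᴴ * (kᴴ * k))
      rw [sub_add_cancel, scal_one] at h2
      rw [h2, add_sub_cancel_right]
    rw [h1, Matrix.sub_mul, Matrix.one_mul, hB, hK, ← Matrix.mul_assoc zᴴ, scal_mul (zᴴ * kᴴ) k,
      Matrix.mul_assoc]
  have hright : aᴴ * scal 𝔄 (1 - (kᴴ * k) * z) = (a - B * K)ᴴ := by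
    rw [← hleft, Matrix.conjTranspose_mul, ← scal_conjTranspose]
    congr 2
    simp only [Matrix.conjTranspose_sub, Matrix.conjTranspose_one, Matrix.conjTranspose_mul,
      Matrix.conjTranspose_conjTranspose, Matrix.mul_assoc]
  have hmain : scal 𝔄 (1 - zᴴ * (kᴴ * k)) * (a * R * aᴴ) * scal 𝔄 (1 - (kᴴ * k) * z) =
      (a - B * K) * R * (a - B * K)ᴴ := by
    rw [← hright, ← hleft]
    simp only [Matrix.mul_assoc]
  have hdec : a - B * K = a * T * Q - e * K := by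
    have h1 : a = a * T * (Q + Kᴴ * K) := by
      rw [← hKK, ← hS, Matrix.mul_assoc, hTS, Matrix.mul_one]
    rw [he, Matrix.sub_mul]
    calc a - B * K = a * T * (Q + Kᴴ * K) - B * K := by rw [← h1]
      _ = a * T * Q - (B * K - a * T * Kᴴ * K) := by
        rw [Matrix.mul_add, Matrix.mul_assoc (a * T) Kᴴ K]
        abel
  have hQH : Qᴴ = Q := hQ.toPM.isHermitian
  have hBe : B = e + a * T * Kᴴ := by rw [he, sub_add_cancel]
  have hfin : scal 𝔄 (1 - zᴴ * (kᴴ * k)) * (a * R * aᴴ) * scal 𝔄 (1 - (kᴴ * k) * z) +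
      scal 𝔄 (zᴴ * (kᴴ * k) * z) - a * T * aᴴ =
      (eᴴ)ᴴ * eᴴ + ((e * K)ᴴ)ᴴ * R * (e * K)ᴴ := by
    rw [hmain, hBB, hdec, Matrix.conjTranspose_conjTranspose, Matrix.conjTranspose_conjTranspose]
    have hBH : Bᴴ = eᴴ + K * T * aᴴ := by
      rw [hBe]
      simp only [Matrix.conjTranspose_add, Matrix.conjTranspose_mul,
        Matrix.conjTranspose_conjTranspose, hTH, Matrix.mul_assoc]
    have hTT : a * T * aᴴ = a * T * Q * T * aᴴ + a * T * Kᴴ * (K * T * aᴴ) := by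
      have h1 : T = T * (Q + Kᴴ * K) * T := by
        rw [← hKK, ← hS, hTS, Matrix.one_mul]
      calc a * T * aᴴ = a * (T * (Q + Kᴴ * K) * T) * aᴴ := by rw [← h1]
        _ = _ := by
          simp only [Matrix.mul_add, Matrix.add_mul, Matrix.mul_assoc]
    have hX : (a * T * Q - e * K) * R * (a * T * Q - e * K)ᴴ =
        a * T * Q * T * aᴴ - a * T * (e * K)ᴴ - e * K * (T * aᴴ) + e * K * R * (e * K)ᴴ := by
      have h1 : (a * T * Q - e * K) * R = a * T - e * K * R := by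
        rw [Matrix.sub_mul, Matrix.mul_assoc (a * T) Q R, hQR, Matrix.mul_one]
      have h2 : (a * T * Q - e * K)ᴴ = Q * (T * aᴴ) - (e * K)ᴴ := by
        rw [Matrix.conjTranspose_sub]
        congr 1
        simp only [Matrix.conjTranspose_mul, hTH, hQH]
      have h3 : e * K * R * (Q * (T * aᴴ)) = e * K * (T * aᴴ) := by
        rw [Matrix.mul_assoc (e * K) R, ← Matrix.mul_assoc R Q, hRQ, Matrix.one_mul]
      rw [h1, h2, Matrix.sub_mul, Matrix.mul_sub, Matrix.mul_sub, h3]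
      simp only [Matrix.mul_assoc]
      abel
    rw [hX, hTT, hBH, hBe]
    simp only [Matrix.add_mul, Matrix.mul_add, Matrix.conjTranspose_mul, Matrix.mul_assoc]
    abel
  rw [hfin]
  exact PM.add (PM_conjTranspose_mul_self _) (PM_conj hR _)

private theorem q3_SPM_add {a Q : Matrix ι ι 𝔄} (hQ : SPM Q) {d : Matrix ι ι ℂ}
    (hd : d.PosSemidef) : SPM (Q + aᴴ * scal 𝔄 d * a) := by
  refine hQ.of_le ?_
  rw [LeM_iff, add_sub_cancel_left]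
  exact PM_conj (PM_scal hd) a

open scoped MatrixOrder Matrix.Norms.L2Operator in
private theorem q3_sqrt {d : Matrix ι ι ℂ} (hd : d.PosSemidef) :
    ∃ k : Matrix ι ι ℂ, d = kᴴ * k := by
  obtain ⟨k, hk⟩ := CStarAlgebra.nonneg_iff_eq_star_mul_self.mp hd.nonneg
  exact ⟨k, hk⟩

theorem inverse_jensen {a Q : Matrix ι ι 𝔄} (hQ : SPM Q) {d : Matrix ι ι ℂ}
    (hd : d.PosSemidef) (hV : (E τ (a * Ring.inverse Q * aᴴ)).PosDef) (h1 : τ.f 1 = 1) :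
    (((E τ (a * Ring.inverse Q * aᴴ))⁻¹ + d)⁻¹
      - E τ (a * Ring.inverse (Q + aᴴ * scal 𝔄 d * a) * aᴴ)).PosSemidef := by
  have hS := q3_SPM_add (a := a) hQ hd
  obtain ⟨k, hk⟩ := q3_sqrt hd
  obtain ⟨V, hVdef⟩ : ∃ V : Matrix ι ι ℂ, V = E τ (a * Ring.inverse Q * aᴴ) := ⟨_, rfl⟩
  rw [← hVdef] at hV ⊢
  have hY : (V⁻¹ + d).PosDef := hV.inv.add_posSemidef hd
  have hVu := (Matrix.isUnit_iff_isUnit_det V).1 hV.isUnit
  have hYu := (Matrix.isUnit_iff_isUnit_det _).1 hY.isUnit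
  obtain ⟨W, hW⟩ : ∃ W : Matrix ι ι ℂ, W = (V⁻¹ + d)⁻¹ := ⟨_, rfl⟩
  have hWH : Wᴴ = W := by
    rw [hW]
    exact hY.inv.isHermitian
  have hWY : W * (V⁻¹ + d) = 1 := by rw [hW]; exact Matrix.nonsing_inv_mul _ hYu
  have hYW : (V⁻¹ + d) * W = 1 := by rw [hW]; exact Matrix.mul_nonsing_inv _ hYu
  have hPM := q3_jensen_aux (a := a) hQ k W (Q + aᴴ * scal 𝔄 d * a)
    (Ring.inverse (Q + aᴴ * scal 𝔄 d * a)) (Ring.inverse Q) (by rw [hk]) (q3_mul_inv hS)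
    (q3_inv_mul hS) (q3_inv_herm hS) (q3_mul_inv hQ) (q3_inv_mul hQ) (q3_inv_herm hQ)
    (q3_inv_PM hQ)
  have hE := posSemidef_E τ hPM
  rw [← hk, E_sub, E_add, E_scal τ h1, E_mul_scal, E_scal_mul, hWH, ← hVdef] at hE
  have e1 : 1 - W * d = W * V⁻¹ := by
    rw [← hWY, Matrix.mul_add, add_sub_cancel_right]
  have e2 : 1 - d * W = V⁻¹ * W := by
    rw [← hYW, Matrix.add_mul, add_sub_cancel_right]
  have e3 : (1 - W * d) * V * (1 - d * W) + W * d * W = W := by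
    rw [e1, e2]
    calc W * V⁻¹ * V * (V⁻¹ * W) + W * d * W
        = W * (V⁻¹ * V) * V⁻¹ * W + W * d * W := by simp only [Matrix.mul_assoc]
      _ = W * (V⁻¹ + d) * W := by
        rw [Matrix.nonsing_inv_mul V hVu, Matrix.mul_one, Matrix.mul_add, Matrix.add_mul]
      _ = W := by rw [hWY, Matrix.one_mul]
  rw [e3] at hE
  rw [← hW]
  exact hE

private theorem q3_mono {a Q Q' : Matrix ι ι 𝔄} (h1 : τ.f 1 = 1) (hQ : SPM Q)
    {d : Matrix ι ι ℂ} (hd : d.PosSemidef) (hE : (E τ (a * aᴴ)).PosDef)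
    (hle : LeM (Q + aᴴ * scal 𝔄 d * a) Q') :
    ((E τ (a * Ring.inverse Q' * aᴴ))⁻¹ -
      ((E τ (a * Ring.inverse Q * aᴴ))⁻¹ + d)).PosSemidef := by
  have hS := q3_SPM_add (a := a) hQ hd
  have hQ' : SPM Q' := hS.of_le hle
  have hV := q3_posDef hQ hE
  have hV' := q3_posDef hQ' hE
  have hj := inverse_jensen hQ hd hV h1
  have h2 := E_mono τ (LeM_conj (q3_inv_anti hS hle) aᴴ)
  rw [Matrix.conjTranspose_conjTranspose] at h2
  have h3 := hj.add h2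
  rw [sub_add_sub_cancel] at h3
  have h4 := posSemidef_inv_sub_inv hV' h3
  have hY : ((E τ (a * Ring.inverse Q * aᴴ))⁻¹ + d).PosDef := hV.inv.add_posSemidef hd
  rw [Matrix.nonsing_inv_nonsing_inv _ ((Matrix.isUnit_iff_isUnit_det _).1 hY.isUnit)] at h4
  exact h4

private theorem q3_scal_sub (p p' : Matrix ι ι ℂ) : scal 𝔄 (p' - p) = scal 𝔄 p' - scal 𝔄 p := by
  have h2 := scal_add (𝔄 := 𝔄) (p' - p) p
  rw [sub_add_cancel] at h2
  rw [h2, add_sub_cancel_right]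

theorem Vf_mono₀ (h1 : τ.f 1 = 1) (hη : 0 < η) (hE : (E τ (a₀ * a₀ᴴ)).PosDef)
    {p q p' q' : Matrix ι ι ℂ} (hp : p.PosSemidef) (hq : q.PosSemidef)
    (hpp : (p' - p).PosSemidef) (hqq : (q' - q).PosSemidef) :
    (((Vf τ a₀ a₀ a₁ η p' q')⁻¹ - p') - ((Vf τ a₀ a₀ a₁ η p q)⁻¹ - p)).PosSemidef := by
  have h := q3_mono (τ := τ) (Q' := Qm a₀ a₁ η p' q') h1 (SPM_Qm (a₀ := a₀) (a₁ := a₁) hη hp hq)
    hpp hE (by
      rw [LeM_iff]
      have e : Qm a₀ a₁ η p' q' - (Qm a₀ a₁ η p q + a₀ᴴ * scal 𝔄 (p' - p) * a₀) =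
          a₁ᴴ * scal 𝔄 (q' - q) * a₁ := by
        unfold Qm
        rw [q3_scal_sub, q3_scal_sub]
        simp only [Matrix.mul_sub, Matrix.sub_mul]
        abel
      rw [e]
      exact PM_conj (PM_scal hqq) a₁)
  have e2 : ((Vf τ a₀ a₀ a₁ η p' q')⁻¹ - p') - ((Vf τ a₀ a₀ a₁ η p q)⁻¹ - p) =
      (Vf τ a₀ a₀ a₁ η p' q')⁻¹ - ((Vf τ a₀ a₀ a₁ η p q)⁻¹ + (p' - p)) := by
    abel
  rw [e2]
  exact h

theorem Vf_mono₁ (h1 : τ.f 1 = 1) (hη : 0 < η) (hE : (E τ (a₁ * a₁ᴴ)).PosDef)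
    {p q p' q' : Matrix ι ι ℂ} (hp : p.PosSemidef) (hq : q.PosSemidef)
    (hpp : (p' - p).PosSemidef) (hqq : (q' - q).PosSemidef) :
    (((Vf τ a₁ a₀ a₁ η p' q')⁻¹ - q') - ((Vf τ a₁ a₀ a₁ η p q)⁻¹ - q)).PosSemidef := by
  have h := q3_mono (τ := τ) (Q' := Qm a₀ a₁ η p' q') h1 (SPM_Qm (a₀ := a₀) (a₁ := a₁) hη hp hq)
    hqq hE (by
      rw [LeM_iff]
      have e : Qm a₀ a₁ η p' q' - (Qm a₀ a₁ η p q + a₁ᴴ * scal 𝔄 (q' - q) * a₁) =
          a₀ᴴ * scal 𝔄 (p' - p) * a₀ := by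
        unfold Qm
        rw [q3_scal_sub, q3_scal_sub]
        simp only [Matrix.mul_sub, Matrix.sub_mul]
        abel
      rw [e]
      exact PM_conj (PM_scal hpp) a₀)
  have e2 : ((Vf τ a₁ a₀ a₁ η p' q')⁻¹ - q') - ((Vf τ a₁ a₀ a₁ η p q)⁻¹ - q) =
      (Vf τ a₁ a₀ a₁ η p' q')⁻¹ - ((Vf τ a₁ a₀ a₁ η p q)⁻¹ + (q' - q)) := by
    abel
  rw [e2]
  exact h

private theorem q3_inverse_toC {Q : Matrix ι ι 𝔄} (hQ : IsUnit Q) :
    toC (Ring.inverse Q) = Ring.inverse (toC Q) := by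
  obtain ⟨u, rfl⟩ := hQ
  have h1 : (u : Matrix ι ι 𝔄) * (↑u⁻¹ : Matrix ι ι 𝔄) = 1 := u.mul_inv
  have h2 : (↑u⁻¹ : Matrix ι ι 𝔄) * (u : Matrix ι ι 𝔄) = 1 := u.inv_mul
  rw [q3_inv_eq h1 h2]
  exact (Ring.inverse_unit (⟨toC (u : Matrix ι ι 𝔄), toC (↑u⁻¹ : Matrix ι ι 𝔄), h1, h2⟩ :
    (CStarMatrix ι ι 𝔄)ˣ)).symm

private theorem q3_inverse_tendsto {Q : Matrix ι ι 𝔄} (hQ : IsUnit Q)
    {X : ℕ → Matrix ι ι 𝔄} (hX : Filter.Tendsto X Filter.atTop (nhds Q)) :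
    Filter.Tendsto (fun n => Ring.inverse (X n)) Filter.atTop (nhds (Ring.inverse Q)) := by
  have hX' : Filter.Tendsto (fun n => toC (X n)) Filter.atTop (nhds (toC Q)) := hX
  have hu : IsUnit (toC Q) := hQ
  obtain ⟨u, hu⟩ := hu
  have hc : ContinuousAt Ring.inverse (toC Q) := by
    rw [← hu]
    exact NormedRing.inverse_continuousAt u
  have h := hc.tendsto.comp hX'
  have hev : ∀ᶠ n in Filter.atTop, IsUnit (toC (X n)) :=
    hX'.eventually (Units.isOpen.mem_nhds (⟨u, hu⟩ : toC Q ∈ {x | IsUnit x}))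
  rw [← q3_inverse_toC hQ] at h
  refine Filter.Tendsto.congr' ?_ h
  filter_upwards [hev] with n hn
  exact (q3_inverse_toC (Q := X n) hn).symm

theorem tendsto_Vf {a : Matrix ι ι 𝔄} (hη : 0 < η) {x y : ℕ → Matrix ι ι ℂ}
    {p q : Matrix ι ι ℂ} (hp : p.PosSemidef) (hq : q.PosSemidef)
    (hx : Filter.Tendsto x Filter.atTop (nhds p)) (hy : Filter.Tendsto y Filter.atTop (nhds q)) :
    Filter.Tendsto (fun n => Vf τ a a₀ a₁ η (x n) (y n)) Filter.atTop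
      (nhds (Vf τ a a₀ a₁ η p q)) := by
  have hs : Continuous fun Z : Matrix ι ι ℂ => scal 𝔄 Z :=
    continuous_id.matrix_map (continuous_algebraMap ℂ 𝔄)
  have hQc : Continuous fun Z : Matrix ι ι ℂ × Matrix ι ι ℂ => Qm a₀ a₁ η Z.1 Z.2 := by
    unfold Qm
    exact (continuous_const.add ((continuous_const.matrix_mul (hs.comp continuous_fst)).matrix_mul
      continuous_const)).add ((continuous_const.matrix_mul (hs.comp continuous_snd)).matrix_mul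
      continuous_const)
  have hQt : Filter.Tendsto (fun n => Qm a₀ a₁ η (x n) (y n)) Filter.atTop
      (nhds (Qm a₀ a₁ η p q)) := by
    have h := (hQc.tendsto (p, q)).comp (hx.prodMk_nhds hy)
    simp only [Function.comp_def] at h
    exact h
  have hI := q3_inverse_tendsto (SPM_Qm (a₀ := a₀) (a₁ := a₁) hη hp hq).isUnit hQt
  have hL : Continuous fun X : Matrix ι ι 𝔄 => E τ (a * X * aᴴ) := by
    unfold E
    exact ((continuous_const.matrix_mul continuous_id).matrix_mul continuous_const).matrix_map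
      τ.f.continuous
  have h := (hL.tendsto (Ring.inverse (Qm a₀ a₁ η p q))).comp hI
  simp only [Function.comp_def] at h
  exact h

end LT
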