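import Pool.Agent.H29.LT.Q03

/-!
# LT-Q04: existence of a solution of the fixed point equations

`c₀(p,q) = V₀(p,q)⁻¹ - p`, `c₁(p,q) = V₁(p,q)⁻¹ - q`, where `V_i = Vf τ a_i a₀ a₁ η p q`.
By `Vf_mono₀`, `Vf_mono₁` both are monotone increasing in `(p,q)` (psd), and by `Vf_zero` and
`exists_le_smul_one`-type bounds `c_i(p,q) ≥ c_i(0,0) = η (E (a_i a_iᴴ))⁻¹ ≥ c · 1` with a common
`c > 0` (`E (a_i a_iᴴ)` is bounded above).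
`Φ(p,q) = (1 - (1 + c₁(p,q))⁻¹, 1 - (1 + c₀(p,q))⁻¹)` is monotone (`posSemidef_inv_sub_inv`),
`Φ ≤ 1` and `Φ ≥ c/(1+c) · 1` in both components, for psd `(p,q)`.

Iterate: `x₀ = (1,1)`, `x_{n+1} = Φ x_n`; `x₁ ≤ x₀` and monotonicity give `x_{n+1} ≤ x_n` by
induction, all `x_n ≥ 0`.  `tendsto_of_antitone`: `x_n → (λ₀, λ₁)`, psd; `Φ` is continuous there
(`tendsto_Vf`, inverses of positive definite matrices are continuous), so `(λ₀,λ₁) = Φ(λ₀,λ₁)`.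

`δ`: `λ_i ≥ c/(1+c)`; and `λ₀ = 1 - (1 + c₁)⁻¹ ≤ 1 - 1/(1+C)` where `c₁(λ) ≤ C · 1`; take the
minimum of all constants.

`R = Ring.inverse Q`.  Equations: `(1 - λ₁)(1 + c₀) = 1`, `c₀ = V₀⁻¹ - λ₀`, so
`(1 - λ₁) V₀⁻¹ = 1 - (1 - λ₁)(1 - λ₀) = λ₀ + λ₁ - λ₁ λ₀ = 𝔰ᴴ`, i.e. `1 - λ₁ = 𝔰ᴴ V₀`; take adjoints:
`1 - λ₁ = V₀ 𝔰` (`e₀`).  `(1 + c₁)(1 - λ₀) = 1`, `c₁ = V₁⁻¹ - λ₁`, so
`V₁⁻¹ (1 - λ₀) = 1 - (1 - λ₁)(1 - λ₀) = 𝔰ᴴ`, i.e. `1 - λ₀ = V₁ 𝔰ᴴ`; adjoints: `1 - λ₀ = 𝔰 V₁` (`e₁`).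
-/

set_option linter.unusedSectionVars false

namespace LT

open scoped Matrix ComplexOrder

variable {𝔄 : Type*} [CStarAlgebra 𝔄] [PartialOrder 𝔄] [StarOrderedRing 𝔄]
variable {ι : Type*} [Fintype ι] [DecidableEq ι]

private theorem q4_inv_tendsto {x : ℕ → Matrix ι ι ℂ} {A : Matrix ι ι ℂ} (hA : A.PosDef)
    (hx : Filter.Tendsto x Filter.atTop (nhds A)) :
    Filter.Tendsto (fun n => (x n)⁻¹) Filter.atTop (nhds A⁻¹) := by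
  have hdet : A.det ≠ 0 := ((Matrix.isUnit_iff_isUnit_det A).1 hA.isUnit).ne_zero
  have h1 : Filter.Tendsto (fun n => (x n).det) Filter.atTop (nhds A.det) :=
    ((Continuous.matrix_det continuous_id).tendsto A).comp hx
  have h2 : Filter.Tendsto (fun n => (x n).adjugate) Filter.atTop (nhds A.adjugate) :=
    ((Continuous.matrix_adjugate continuous_id).tendsto A).comp hx
  have h3 := (h1.inv₀ hdet).smul h2
  simp only [Matrix.inv_def, Ring.inverse_eq_inv']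
  exact h3

private theorem q4_low {D : Matrix ι ι ℂ} {c : ℝ} (hc : 0 < c)
    (h : (D - (c : ℂ) • (1 : Matrix ι ι ℂ)).PosSemidef) :
    ((1 - (1 + D)⁻¹) - ((c / (1 + c) : ℝ) : ℂ) • (1 : Matrix ι ι ℂ)).PosSemidef := by
  have h1 : (((1 + c : ℝ) : ℂ) • (1 : Matrix ι ι ℂ)).PosDef := by
    refine Matrix.PosDef.smul Matrix.PosDef.one ?_
    have : (0 : ℝ) < 1 + c := by linarith
    exact_mod_cast this
  have h2 : ((1 + D) - ((1 + c : ℝ) : ℂ) • (1 : Matrix ι ι ℂ)).PosSemidef := by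
    have e : (1 + D) - ((1 + c : ℝ) : ℂ) • (1 : Matrix ι ι ℂ) =
        D - (c : ℂ) • (1 : Matrix ι ι ℂ) := by
      rw [Complex.ofReal_add, Complex.ofReal_one, add_smul, one_smul]
      abel
    rw [e]
    exact h
  have h3 := posSemidef_inv_sub_inv h1 h2
  have hne : (1 + c : ℝ) ≠ 0 := by linarith
  have h4 : (((1 + c : ℝ) : ℂ) • (1 : Matrix ι ι ℂ))⁻¹ =
      (((1 + c)⁻¹ : ℝ) : ℂ) • (1 : Matrix ι ι ℂ) := by
    refine Matrix.inv_eq_right_inv ?_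
    rw [Matrix.smul_mul, Matrix.mul_smul, smul_smul, Matrix.one_mul, Complex.ofReal_inv,
      mul_inv_cancel₀ (Complex.ofReal_ne_zero.2 hne), one_smul]
  rw [h4] at h3
  have e : (1 - (1 + D)⁻¹) - ((c / (1 + c) : ℝ) : ℂ) • (1 : Matrix ι ι ℂ) =
      (((1 + c)⁻¹ : ℝ) : ℂ) • (1 : Matrix ι ι ℂ) - (1 + D)⁻¹ := by
    have h5 : c / (1 + c) = 1 - (1 + c)⁻¹ := by
      field_simp
      ring
    rw [h5, Complex.ofReal_sub, Complex.ofReal_one, sub_smul, one_smul]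
    abel
  rw [e]
  exact h3

/-- `c₀` -/
private noncomputable def q4C₀ (τ : Tr 𝔄) (a₀ a₁ : Matrix ι ι 𝔄) (η : ℝ)
    (p q : Matrix ι ι ℂ) : Matrix ι ι ℂ :=
  (Vf τ a₀ a₀ a₁ η p q)⁻¹ - p

/-- `c₁` -/
private noncomputable def q4C₁ (τ : Tr 𝔄) (a₀ a₁ : Matrix ι ι 𝔄) (η : ℝ)
    (p q : Matrix ι ι ℂ) : Matrix ι ι ℂ :=
  (Vf τ a₁ a₀ a₁ η p q)⁻¹ - q

private theorem q4_C_bounds (τ : Tr 𝔄) (a₀ a₁ : Matrix ι ι 𝔄) {η : ℝ} (h1 : τ.f 1 = 1)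
    (hη : 0 < η) (hE₀ : (E τ (a₀ * a₀ᴴ)).PosDef) (hE₁ : (E τ (a₁ * a₁ᴴ)).PosDef) :
    ∃ c : ℝ, 0 < c ∧ ∀ p q : Matrix ι ι ℂ, p.PosSemidef → q.PosSemidef →
      (q4C₀ τ a₀ a₁ η p q - (c : ℂ) • (1 : Matrix ι ι ℂ)).PosSemidef ∧
      (q4C₁ τ a₀ a₁ η p q - (c : ℂ) • (1 : Matrix ι ι ℂ)).PosSemidef := by
  have hz : (0 : Matrix ι ι ℂ).PosSemidef := Matrix.PosSemidef.zero
  obtain ⟨c0, hc0, hc0'⟩ := exists_smul_one_le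
    (Vf_posDef (a₀ := a₀) (a₁ := a₁) hE₀ hη hz hz).inv
  obtain ⟨c1, hc1, hc1'⟩ := exists_smul_one_le
    (Vf_posDef (a₀ := a₀) (a₁ := a₁) hE₁ hη hz hz).inv
  have key : ∀ (X : Matrix ι ι ℂ) (c c' : ℝ), c' ≤ c →
      (X - (c : ℂ) • (1 : Matrix ι ι ℂ)).PosSemidef →
      (X - (c' : ℂ) • (1 : Matrix ι ι ℂ)).PosSemidef := by
    intro X c c' hcc hX
    have h2 : (((c - c' : ℝ) : ℂ) • (1 : Matrix ι ι ℂ)).PosSemidef := by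
      refine Matrix.PosSemidef.smul Matrix.PosSemidef.one ?_
      have : (0 : ℝ) ≤ c - c' := by linarith
      exact_mod_cast this
    have h3 := hX.add h2
    have e : X - (c : ℂ) • (1 : Matrix ι ι ℂ) + ((c - c' : ℝ) : ℂ) • (1 : Matrix ι ι ℂ) =
        X - (c' : ℂ) • (1 : Matrix ι ι ℂ) := by
      rw [Complex.ofReal_sub, sub_smul]
      abel
    rw [e] at h3
    exact h3
  refine ⟨min c0 c1, lt_min hc0 hc1, fun p q hp hq => ⟨?_, ?_⟩⟩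
  · refine key _ c0 _ (min_le_left _ _) ?_
    have h2 := Vf_mono₀ (τ := τ) (a₀ := a₀) (a₁ := a₁) (η := η) h1 hη hE₀ hz hz
      (p' := p) (q' := q) (by rw [sub_zero]; exact hp) (by rw [sub_zero]; exact hq)
    have h3 := h2.add hc0'
    rw [sub_zero, sub_add_sub_cancel] at h3
    exact h3
  · refine key _ c1 _ (min_le_right _ _) ?_
    have h2 := Vf_mono₁ (τ := τ) (a₀ := a₀) (a₁ := a₁) (η := η) h1 hη hE₁ hz hz
      (p' := p) (q' := q) (by rw [sub_zero]; exact hp) (by rw [sub_zero]; exact hq)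
    have h3 := h2.add hc1'
    rw [sub_zero, sub_add_sub_cancel] at h3
    exact h3

private theorem q4_psd_of {X : Matrix ι ι ℂ} {c : ℝ} (hc : 0 < c)
    (h : (X - (c : ℂ) • (1 : Matrix ι ι ℂ)).PosSemidef) : X.PosDef := posDef_of_sub_smul hc h

/-- the iterates -/
private noncomputable def q4x (τ : Tr 𝔄) (a₀ a₁ : Matrix ι ι 𝔄) (η : ℝ) :
    ℕ → Matrix ι ι ℂ × Matrix ι ι ℂ
  | 0 => (1, 1)
  | n + 1 => (1 - (1 + q4C₁ τ a₀ a₁ η (q4x τ a₀ a₁ η n).1 (q4x τ a₀ a₁ η n).2)⁻¹,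
      1 - (1 + q4C₀ τ a₀ a₁ η (q4x τ a₀ a₁ η n).1 (q4x τ a₀ a₁ η n).2)⁻¹)

private theorem q4_one_sub {X : Matrix ι ι ℂ} {c : ℝ} (hc : 0 < c)
    (h : (X - (c : ℂ) • (1 : Matrix ι ι ℂ)).PosSemidef) : (1 - (1 + X)⁻¹).PosSemidef := by
  have h1 := q4_low hc h
  exact (posDef_of_sub_smul (by positivity) h1).posSemidef

private theorem q4x_psd (τ : Tr 𝔄) (a₀ a₁ : Matrix ι ι 𝔄) {η : ℝ} {c : ℝ} (hc : 0 < c)
    (hb : ∀ p q : Matrix ι ι ℂ, p.PosSemidef → q.PosSemidef →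
      (q4C₀ τ a₀ a₁ η p q - (c : ℂ) • (1 : Matrix ι ι ℂ)).PosSemidef ∧
      (q4C₁ τ a₀ a₁ η p q - (c : ℂ) • (1 : Matrix ι ι ℂ)).PosSemidef) (n : ℕ) :
    (q4x τ a₀ a₁ η n).1.PosSemidef ∧ (q4x τ a₀ a₁ η n).2.PosSemidef := by
  induction n with
  | zero => exact ⟨Matrix.PosSemidef.one, Matrix.PosSemidef.one⟩
  | succ n ih =>
    have h := hb _ _ ih.1 ih.2
    exact ⟨q4_one_sub hc h.2, q4_one_sub hc h.1⟩

private theorem q4_anti {X Y : Matrix ι ι ℂ} (hX : (1 + X).PosDef) (h : (Y - X).PosSemidef) :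
    ((1 - (1 + Y)⁻¹) - (1 - (1 + X)⁻¹)).PosSemidef := by
  have h1 := posSemidef_inv_sub_inv hX (B := 1 + Y) (by
    rw [add_sub_add_left_eq_sub]
    exact h)
  have e : (1 - (1 + Y)⁻¹) - (1 - (1 + X)⁻¹) = (1 + X)⁻¹ - (1 + Y)⁻¹ := by abel
  rw [e]
  exact h1

private theorem q4x_anti (τ : Tr 𝔄) (a₀ a₁ : Matrix ι ι 𝔄) {η : ℝ} (h1 : τ.f 1 = 1)
    (hη : 0 < η) (hE₀ : (E τ (a₀ * a₀ᴴ)).PosDef) (hE₁ : (E τ (a₁ * a₁ᴴ)).PosDef)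
    {c : ℝ} (hc : 0 < c)
    (hb : ∀ p q : Matrix ι ι ℂ, p.PosSemidef → q.PosSemidef →
      (q4C₀ τ a₀ a₁ η p q - (c : ℂ) • (1 : Matrix ι ι ℂ)).PosSemidef ∧
      (q4C₁ τ a₀ a₁ η p q - (c : ℂ) • (1 : Matrix ι ι ℂ)).PosSemidef) (n : ℕ) :
    ((q4x τ a₀ a₁ η n).1 - (q4x τ a₀ a₁ η (n + 1)).1).PosSemidef ∧
      ((q4x τ a₀ a₁ η n).2 - (q4x τ a₀ a₁ η (n + 1)).2).PosSemidef := by
  have hpd : ∀ X : Matrix ι ι ℂ, (X - (c : ℂ) • (1 : Matrix ι ι ℂ)).PosSemidef →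
      (1 + X).PosDef := fun X hX => Matrix.PosDef.one.add_posSemidef (q4_psd_of hc hX).posSemidef
  induction n with
  | zero =>
    have h := hb 1 1 Matrix.PosSemidef.one Matrix.PosSemidef.one
    constructor
    · change (1 - (1 - (1 + q4C₁ τ a₀ a₁ η 1 1)⁻¹)).PosSemidef
      rw [sub_sub_cancel]
      exact (hpd _ h.2).inv.posSemidef
    · change (1 - (1 - (1 + q4C₀ τ a₀ a₁ η 1 1)⁻¹)).PosSemidef
      rw [sub_sub_cancel]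
      exact (hpd _ h.1).inv.posSemidef
  | succ n ih =>
    obtain ⟨hp, hq⟩ := q4x_psd τ a₀ a₁ hc hb (n + 1)
    have h := hb _ _ hp hq
    constructor
    · exact q4_anti (hpd _ h.2) (Vf_mono₁ h1 hη hE₁ hp hq ih.1 ih.2)
    · exact q4_anti (hpd _ h.1) (Vf_mono₀ h1 hη hE₀ hp hq ih.1 ih.2)

theorem exists_Sol (τ : Tr 𝔄) (a₀ a₁ : Matrix ι ι 𝔄) {η : ℝ} (h1 : τ.f 1 = 1) (hη : 0 < η)
    (hE₀ : (E τ (a₀ * a₀ᴴ)).PosDef) (hE₁ : (E τ (a₁ * a₁ᴴ)).PosDef) :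
    Nonempty (Sol τ a₀ a₁ η) := by
  obtain ⟨c, hc, hb⟩ := q4_C_bounds τ a₀ a₁ h1 hη hE₀ hE₁
  have hpsd := q4x_psd τ a₀ a₁ hc hb
  have hanti := q4x_anti τ a₀ a₁ h1 hη hE₀ hE₁ hc hb
  have hpd : ∀ X : Matrix ι ι ℂ, (X - (c : ℂ) • (1 : Matrix ι ι ℂ)).PosSemidef →
      (1 + X).PosDef := fun X hX => Matrix.PosDef.one.add_posSemidef (q4_psd_of hc hX).posSemidef
  obtain ⟨l₀, hl₀⟩ := tendsto_of_antitone (fun n => (q4x τ a₀ a₁ η n).1)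
    (fun n => (hpsd n).1) (fun n => (hanti n).1)
  obtain ⟨l₁, hl₁⟩ := tendsto_of_antitone (fun n => (q4x τ a₀ a₁ η n).2)
    (fun n => (hpsd n).2) (fun n => (hanti n).2)
  have hp₀ : l₀.PosSemidef := posSemidef_of_tendsto hl₀ fun n => (hpsd n).1
  have hp₁ : l₁.PosSemidef := posSemidef_of_tendsto hl₁ fun n => (hpsd n).2
  have hbl := hb l₀ l₁ hp₀ hp₁
  have hV₀ : (Vf τ a₀ a₀ a₁ η l₀ l₁).PosDef := Vf_posDef hE₀ hη hp₀ hp₁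
  have hV₁ : (Vf τ a₁ a₀ a₁ η l₀ l₁).PosDef := Vf_posDef hE₁ hη hp₀ hp₁
  have hC₀ : Filter.Tendsto (fun n => q4C₀ τ a₀ a₁ η (q4x τ a₀ a₁ η n).1 (q4x τ a₀ a₁ η n).2)
      Filter.atTop (nhds (q4C₀ τ a₀ a₁ η l₀ l₁)) :=
    (q4_inv_tendsto hV₀ (tendsto_Vf hη hp₀ hp₁ hl₀ hl₁)).sub hl₀
  have hC₁ : Filter.Tendsto (fun n => q4C₁ τ a₀ a₁ η (q4x τ a₀ a₁ η n).1 (q4x τ a₀ a₁ η n).2)
      Filter.atTop (nhds (q4C₁ τ a₀ a₁ η l₀ l₁)) :=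
    (q4_inv_tendsto hV₁ (tendsto_Vf hη hp₀ hp₁ hl₀ hl₁)).sub hl₁
  have hfix₀ : l₀ = 1 - (1 + q4C₁ τ a₀ a₁ η l₀ l₁)⁻¹ := by
    have h2 : Filter.Tendsto (fun n => (q4x τ a₀ a₁ η (n + 1)).1) Filter.atTop (nhds l₀) :=
      hl₀.comp (Filter.tendsto_add_atTop_nat 1)
    have h3 : Filter.Tendsto (fun n => (q4x τ a₀ a₁ η (n + 1)).1) Filter.atTop
        (nhds (1 - (1 + q4C₁ τ a₀ a₁ η l₀ l₁)⁻¹)) :=
      (q4_inv_tendsto (hpd _ hbl.2) (hC₁.const_add 1)).const_sub 1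
    exact tendsto_nhds_unique h2 h3
  have hfix₁ : l₁ = 1 - (1 + q4C₀ τ a₀ a₁ η l₀ l₁)⁻¹ := by
    have h2 : Filter.Tendsto (fun n => (q4x τ a₀ a₁ η (n + 1)).2) Filter.atTop (nhds l₁) :=
      hl₁.comp (Filter.tendsto_add_atTop_nat 1)
    have h3 : Filter.Tendsto (fun n => (q4x τ a₀ a₁ η (n + 1)).2) Filter.atTop
        (nhds (1 - (1 + q4C₀ τ a₀ a₁ η l₀ l₁)⁻¹)) :=
      (q4_inv_tendsto (hpd _ hbl.1) (hC₀.const_add 1)).const_sub 1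
    exact tendsto_nhds_unique h2 h3
  obtain ⟨d0, hd0, hd0'⟩ := exists_smul_one_le (hpd _ hbl.1).inv
  obtain ⟨d1, hd1, hd1'⟩ := exists_smul_one_le (hpd _ hbl.2).inv
  have key : ∀ (X : Matrix ι ι ℂ) (c c' : ℝ), c' ≤ c →
      (X - (c : ℂ) • (1 : Matrix ι ι ℂ)).PosSemidef →
      (X - (c' : ℂ) • (1 : Matrix ι ι ℂ)).PosSemidef := by
    intro X c c' hcc hX
    have h2 : (((c - c' : ℝ) : ℂ) • (1 : Matrix ι ι ℂ)).PosSemidef := by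
      refine Matrix.PosSemidef.smul Matrix.PosSemidef.one ?_
      have : (0 : ℝ) ≤ c - c' := by linarith
      exact_mod_cast this
    have h3 := hX.add h2
    have e : X - (c : ℂ) • (1 : Matrix ι ι ℂ) + ((c - c' : ℝ) : ℂ) • (1 : Matrix ι ι ℂ) =
        X - (c' : ℂ) • (1 : Matrix ι ι ℂ) := by
      rw [Complex.ofReal_sub, sub_smul]
      abel
    rw [e] at h3
    exact h3
  obtain ⟨δ, hδ⟩ : ∃ δ : ℝ, δ = min (c / (1 + c)) (min d0 d1) := ⟨_, rfl⟩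
  have hδ0 : 0 < δ := by
    rw [hδ]
    exact lt_min (by positivity) (lt_min hd0 hd1)
  have hδ1 : δ ≤ c / (1 + c) := by rw [hδ]; exact min_le_left _ _
  have hδ2 : δ ≤ d0 := by rw [hδ]; exact (min_le_right _ _).trans (min_le_left _ _)
  have hδ3 : δ ≤ d1 := by rw [hδ]; exact (min_le_right _ _).trans (min_le_right _ _)
  have hup : ∀ (X Y : Matrix ι ι ℂ), X = 1 - Y →
      (Y - (δ : ℂ) • (1 : Matrix ι ι ℂ)).PosSemidef →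
      (((1 - δ : ℝ) : ℂ) • (1 : Matrix ι ι ℂ) - X).PosSemidef := by
    intro X Y hXY hY
    have e : ((1 - δ : ℝ) : ℂ) • (1 : Matrix ι ι ℂ) - X = Y - (δ : ℂ) • (1 : Matrix ι ι ℂ) := by
      rw [hXY, Complex.ofReal_sub, Complex.ofReal_one, sub_smul, one_smul]
      abel
    rw [e]
    exact hY
  have hQ := SPM_Qm (a₀ := a₀) (a₁ := a₁) hη hp₀ hp₁
  have hu₀ : IsUnit (1 + q4C₀ τ a₀ a₁ η l₀ l₁).det :=
    (Matrix.isUnit_iff_isUnit_det _).1 (hpd _ hbl.1).isUnit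
  have hu₁ : IsUnit (1 + q4C₁ τ a₀ a₁ η l₀ l₁).det :=
    (Matrix.isUnit_iff_isUnit_det _).1 (hpd _ hbl.2).isUnit
  have hv₀ : IsUnit (Vf τ a₀ a₀ a₁ η l₀ l₁).det :=
    (Matrix.isUnit_iff_isUnit_det _).1 hV₀.isUnit
  have hv₁ : IsUnit (Vf τ a₁ a₀ a₁ η l₀ l₁).det :=
    (Matrix.isUnit_iff_isUnit_det _).1 hV₁.isUnit
  refine ⟨{
    l₀ := l₀
    l₁ := l₁
    δ := δ
    δ_pos := hδ0
    lo₀ := ?_
    lo₁ := ?_
    hi₀ := ?_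
    hi₁ := ?_
    R := Ring.inverse (Qm a₀ a₁ η l₀ l₁)
    RQ := Ring.inverse_mul_cancel _ hQ.isUnit
    QR := Ring.mul_inverse_cancel _ hQ.isUnit
    e₀ := ?_
    e₁ := ?_ }⟩
  · refine key _ _ _ hδ1 ?_
    have h2 := q4_low hc hbl.2
    rw [← hfix₀] at h2
    exact h2
  · refine key _ _ _ hδ1 ?_
    have h2 := q4_low hc hbl.1
    rw [← hfix₁] at h2
    exact h2
  · exact hup _ _ hfix₀ (key _ _ _ hδ3 hd1')
  · exact hup _ _ hfix₁ (key _ _ _ hδ2 hd0')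
  · change Vf τ a₀ a₀ a₁ η l₀ l₁ * (l₀ + l₁ - l₀ * l₁) = 1 - l₁
    have h2 : (1 + q4C₀ τ a₀ a₁ η l₀ l₁) * (1 - l₁) = 1 := by
      have h3 : 1 - l₁ = (1 + q4C₀ τ a₀ a₁ η l₀ l₁)⁻¹ := by
        rw [eq_sub_iff_add_eq] at hfix₁
        rw [sub_eq_iff_eq_add, add_comm]
        exact hfix₁.symm
      rw [h3]
      exact Matrix.mul_nonsing_inv _ hu₀
    unfold q4C₀ at h2
    have h4 : (Vf τ a₀ a₀ a₁ η l₀ l₁)⁻¹ * (1 - l₁) = l₀ + l₁ - l₀ * l₁ := by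
      have e : (1 + ((Vf τ a₀ a₀ a₁ η l₀ l₁)⁻¹ - l₀)) * (1 - l₁) =
          (Vf τ a₀ a₀ a₁ η l₀ l₁)⁻¹ * (1 - l₁) + (1 - l₀) * (1 - l₁) := by
        rw [← Matrix.add_mul]
        congr 1
        abel
      rw [e] at h2
      have h5 : (1 - l₀) * (1 - l₁) = 1 - l₀ - l₁ + l₀ * l₁ := by
        rw [Matrix.sub_mul, Matrix.mul_sub, Matrix.mul_sub, Matrix.one_mul, Matrix.one_mul,
          Matrix.mul_one]
        abel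
      rw [h5] at h2
      rw [← eq_sub_iff_add_eq] at h2
      rw [h2]
      abel
    rw [← h4, ← Matrix.mul_assoc, Matrix.mul_nonsing_inv _ hv₀, Matrix.one_mul]
  · change (l₀ + l₁ - l₀ * l₁) * Vf τ a₁ a₀ a₁ η l₀ l₁ = 1 - l₀
    have h2 : (1 - l₀) * (1 + q4C₁ τ a₀ a₁ η l₀ l₁) = 1 := by
      have h3 : 1 - l₀ = (1 + q4C₁ τ a₀ a₁ η l₀ l₁)⁻¹ := by
        rw [eq_sub_iff_add_eq] at hfix₀
        rw [sub_eq_iff_eq_add, add_comm]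
        exact hfix₀.symm
      rw [h3]
      exact Matrix.nonsing_inv_mul _ hu₁
    unfold q4C₁ at h2
    have h4 : (1 - l₀) * (Vf τ a₁ a₀ a₁ η l₀ l₁)⁻¹ = l₀ + l₁ - l₀ * l₁ := by
      have e : (1 - l₀) * (1 + ((Vf τ a₁ a₀ a₁ η l₀ l₁)⁻¹ - l₁)) =
          (1 - l₀) * (Vf τ a₁ a₀ a₁ η l₀ l₁)⁻¹ + (1 - l₀) * (1 - l₁) := by
        rw [← Matrix.mul_add]
        congr 1
        abel
      rw [e] at h2
      have h5 : (1 - l₀) * (1 - l₁) = 1 - l₀ - l₁ + l₀ * l₁ := by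
        rw [Matrix.sub_mul, Matrix.mul_sub, Matrix.mul_sub, Matrix.one_mul, Matrix.one_mul,
          Matrix.mul_one]
        abel
      rw [h5] at h2
      rw [← eq_sub_iff_add_eq] at h2
      rw [h2]
      abel
    rw [← h4, Matrix.mul_assoc, Matrix.nonsing_inv_mul _ hv₁, Matrix.mul_one]

end LT
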