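import Pool.Agent.H29.LT.Q06

/-!
# LT-Q07: `1 + u a` with `‖a‖₂ > 1` has a Fuglede-Kadison determinant `> 1`

Apply `lower_bound` with `ι = Unit`, `a₀ = 1`, `a₁ = sc Unit a`.  A `1 × 1` matrix `Z` with
`tr Z = 1` is `1`, `log det Z = 0`.  Let `s = Re τ(a* a) > 1`, `y = a* a - 1`, `m = Re τ (y y)`;
choose `0 < t < 1` with `t ‖y‖ ≤ 1/2` and `t m ≤ (s-1)/2`.  `p = 1 - t`, `q = t`:
`Qm 1 a ε p q = ε + (1-t) + t a* a ≥ 1 + t y`, and `L (1 + t y) ≥ t (s-1) - t² m ≥ t (s-1)/2 =: c`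
(`L_one_add_ge`, `L_mono`; `1 + t y ≥ 1 - t > 0`).
`E (a₁ a₁ᴴ) = τ (a a*) = s > 0`.
Transfer between `1 × 1` matrices and `𝔄`: `CStarMatrix.toOneByOne` is a trace preserving star
isomorphism (`L_map`).
-/

set_option linter.unusedSectionVars false

namespace LT

open scoped Matrix ComplexOrder

variable {𝔄 : Type*} [CStarAlgebra 𝔄] [PartialOrder 𝔄] [StarOrderedRing 𝔄]

theorem q07_toC (x : 𝔄) : toC (sc Unit x) = CStarMatrix.toOneByOne Unit ℂ 𝔄 x := by
  ext i j
  show (Matrix.diagonal fun _ => x) i j = x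
  rw [Subsingleton.elim i j, Matrix.diagonal_apply_eq]

theorem q07_LM (τ : Tr 𝔄) {H : 𝔄} (hH : IsStrictlyPositive H) : LM τ (sc Unit H) = L τ H := by
  unfold LM
  rw [q07_toC]
  refine L_map τ (τ.mat Unit) ((StarAlgHomClass.toStarAlgHom
    (CStarMatrix.toOneByOne Unit ℂ 𝔄)) : 𝔄 →⋆ₐ[ℂ] CStarMatrix Unit Unit 𝔄) (fun x => ?_) hH
  rw [Tr.mat_apply]
  simp
  rfl

theorem q07_scal (z : ℂ) :
    scal 𝔄 (Matrix.diagonal fun _ : Unit => z) = sc Unit (algebraMap ℂ 𝔄 z) := by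
  ext i j
  rw [Subsingleton.elim i j]
  simp [scal, sc]

theorem q07_eI (ε : ℝ) : eI 𝔄 Unit ε = sc Unit (algebraMap ℝ 𝔄 ε) := by
  ext i j
  rw [Subsingleton.elim i j]
  simp [eI, sc, Matrix.algebraMap_eq_diagonal]

theorem q07_add (x y : 𝔄) : sc Unit x + sc Unit y = sc Unit (x + y) := by
  simp [sc]

theorem q07_E (τ : Tr 𝔄) (x : 𝔄) : E τ (sc Unit x) = Matrix.diagonal fun _ : Unit => τ.f x := by
  ext i j
  rw [Subsingleton.elim i j]
  simp [E, sc]

theorem q07_choose (s B m : ℝ) (hs : 1 < s) (hB : 0 ≤ B) (hm : 0 ≤ m) :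
    ∃ t : ℝ, 0 < t ∧ t < 1 ∧ t * B ≤ 1 / 2 ∧ t * m ≤ (s - 1) / 2 := by
  refine ⟨min (1 / 2) (min (1 / (2 * (B + 1))) ((s - 1) / (2 * (m + 1)))), ?_, ?_, ?_, ?_⟩
  · have h1 : 0 < (s - 1) / (2 * (m + 1)) := by
      apply div_pos <;> linarith
    have h2 : 0 < 1 / (2 * (B + 1)) := by positivity
    exact lt_min (by norm_num) (lt_min h2 h1)
  · exact lt_of_le_of_lt (min_le_left _ _) (by norm_num)
  · have h1 : min (1 / 2) (min (1 / (2 * (B + 1))) ((s - 1) / (2 * (m + 1)))) ≤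
        1 / (2 * (B + 1)) := (min_le_right _ _).trans (min_le_left _ _)
    refine (mul_le_mul_of_nonneg_right h1 hB).trans ?_
    rw [div_mul_eq_mul_div, div_le_iff₀ (by positivity)]
    linarith
  · have h1 : min (1 / 2) (min (1 / (2 * (B + 1))) ((s - 1) / (2 * (m + 1)))) ≤
        (s - 1) / (2 * (m + 1)) := (min_le_right _ _).trans (min_le_right _ _)
    refine (mul_le_mul_of_nonneg_right h1 hm).trans ?_
    rw [div_mul_eq_mul_div, div_le_iff₀ (by positivity)]
    nlinarith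

theorem scalar_bound {τ : Tr 𝔄} (U : UFree τ) (h1 : τ.f 1 = 1) {a : 𝔄} (ha : a ∈ U.A)
    (hs : 1 < (τ.f (star a * a)).re) :
    ∃ c : ℝ, 0 < c ∧ ∀ η : ℝ, 0 < η →
      c ≤ L τ (star (1 + U.u * a) * (1 + U.u * a) + algebraMap ℝ 𝔄 η) := by
  set s : ℝ := (τ.f (star a * a)).re with hsdef
  set y : 𝔄 := star a * a - 1 with hy
  have hysa : IsSelfAdjoint y := (IsSelfAdjoint.star_mul_self a).sub (IsSelfAdjoint.one 𝔄)
  have hm : 0 ≤ (τ.f (y * y)).re := by
    have h2 := τ.nonneg y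
    rwa [hysa.star_eq] at h2
  obtain ⟨t, t0, t1, t2, t3⟩ := q07_choose s ‖y‖ (τ.f (y * y)).re hs (norm_nonneg y) hm
  have hty : (τ.f y).re = s - 1 := by
    rw [hy, map_sub, h1, Complex.sub_re, Complex.one_re]
  -- the element `1 + t y`
  have hsp : IsStrictlyPositive ((1 : 𝔄) + t • y) := by
    have e1 : (1 : 𝔄) + t • y = t • (star a * a) + algebraMap ℝ 𝔄 (1 - t) := by
      rw [hy, smul_sub, Algebra.algebraMap_eq_smul_one, sub_smul, one_smul]
      abel
    rw [e1]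
    exact IsStrictlyPositive.nonneg_add (smul_nonneg t0.le (star_mul_self_nonneg a))
      (isStrictlyPositive_algebraMap (sub_pos.2 t1))
  have hL : t * (s - 1) / 2 ≤ L τ (1 + t • y) := by
    have hX : IsSelfAdjoint (t • y) := by
      rw [isSelfAdjoint_iff, star_smul, hysa.star_eq, star_trivial]
    have hn : ‖t • y‖ ≤ 1 / 2 := by
      rw [norm_smul, Real.norm_of_nonneg t0.le]
      exact t2
    have h2 := L_one_add_ge τ hX hn
    have e1 : (τ.f (t • y)).re = t * (s - 1) := by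
      have e2 : t • y = (t : ℂ) • y := (Complex.coe_smul t y).symm
      rw [e2, map_smul, smul_eq_mul, Complex.re_ofReal_mul, hty]
    have e3 : (τ.f (t • y * t • y)).re = t ^ 2 * (τ.f (y * y)).re := by
      have e4 : t • y * t • y = ((t ^ 2 : ℝ) : ℂ) • (y * y) := by
        rw [smul_mul_smul_comm, ← pow_two, Complex.coe_smul]
      rw [e4, map_smul, smul_eq_mul, Complex.re_ofReal_mul]
    rw [e1, e3] at h2
    have h3 := mul_le_mul_of_nonneg_left t3 t0.le
    nlinarith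
  refine ⟨t * (s - 1) / 2, by have := sub_pos.2 hs; positivity, fun η hη => ?_⟩
  have hA1 : EntIn (U.A : Set 𝔄) (sc Unit (1 : 𝔄)) := by
    intro i j
    rw [Subsingleton.elim i j]
    show (Matrix.diagonal fun _ => (1 : 𝔄)) j j ∈ _
    rw [Matrix.diagonal_apply_eq]
    exact one_mem U.A
  have hAa : EntIn (U.A : Set 𝔄) (sc Unit a) := by
    intro i j
    rw [Subsingleton.elim i j]
    show (Matrix.diagonal fun _ => a) j j ∈ _
    rw [Matrix.diagonal_apply_eq]
    exact ha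
  have hE₀ : (E τ (sc Unit (1 : 𝔄) * (sc Unit (1 : 𝔄))ᴴ)).PosDef := by
    rw [sc_conjTranspose, ← sc_mul, star_one, one_mul, q07_E, h1]
    exact Matrix.posDef_diagonal_iff.2 fun _ => one_pos
  have hE₁ : (E τ (sc Unit a * (sc Unit a)ᴴ)).PosDef := by
    rw [sc_conjTranspose, ← sc_mul, q07_E]
    refine Matrix.posDef_diagonal_iff.2 fun _ => ?_
    have e1 : τ.f (a * star a) = (s : ℂ) := by
      rw [τ.comm]
      apply Complex.ext
      · rw [Complex.ofReal_re]
      · rw [Complex.ofReal_im, tr_im_eq_zero τ (IsSelfAdjoint.star_mul_self a)]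
    rw [e1]
    exact_mod_cast (zero_lt_one.trans hs)
  have key := lower_bound U h1 (a₀ := sc Unit (1 : 𝔄)) (a₁ := sc Unit a) hA1 hAa hE₀ hE₁
    (c := t * (s - 1) / 2) (fun Z _ hZt ε hε _ => ?_) hη
  · have e1 : (fm U.u (sc Unit (1 : 𝔄)) (sc Unit a))ᴴ * fm U.u (sc Unit (1 : 𝔄)) (sc Unit a) +
        eI 𝔄 Unit η = sc Unit (star (1 + U.u * a) * (1 + U.u * a) + algebraMap ℝ 𝔄 η) := by
      unfold fm
      rw [← sc_mul, q07_add, sc_conjTranspose, ← sc_mul, q07_eI, q07_add]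
    rw [e1, q07_LM τ (IsStrictlyPositive.nonneg_add (star_mul_self_nonneg _)
      (isStrictlyPositive_algebraMap hη))] at key
    exact key
  · have hZ : Z = Matrix.diagonal fun _ => (1 : ℂ) := by
      ext i j
      rw [Subsingleton.elim i j, Matrix.diagonal_apply_eq]
      have e2 : Z.trace = Z () () := by simp [Matrix.trace]
      rw [e2] at hZt
      exact hZt
    refine ⟨Matrix.diagonal fun _ => ((1 - t : ℝ) : ℂ), Matrix.diagonal fun _ => (t : ℂ),
      Matrix.posSemidef_diagonal_iff.2 fun _ => ?_, Matrix.posSemidef_diagonal_iff.2 fun _ => ?_,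
      ?_, ?_⟩
    · exact_mod_cast (sub_pos.2 t1).le
    · exact_mod_cast t0.le
    · rw [hZ, Matrix.diagonal_add]
      congr 1
      funext _
      push_cast
      ring
    · have e3 : Real.log Z.det.re = 0 := by
        rw [hZ]
        simp
      rw [e3, add_zero]
      have e4 : Qm (sc Unit (1 : 𝔄)) (sc Unit a) ε (Matrix.diagonal fun _ => ((1 - t : ℝ) : ℂ))
          (Matrix.diagonal fun _ => (t : ℂ)) =
          sc Unit ((1 + t • y) + algebraMap ℝ 𝔄 ε) := by
        unfold Qm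
        rw [q07_scal, q07_scal, sc_conjTranspose, sc_conjTranspose, ← sc_mul, ← sc_mul, ← sc_mul,
          ← sc_mul, q07_eI, q07_add, q07_add]
        congr 1
        rw [star_one, one_mul, mul_one, hy, ← Algebra.commutes (t : ℂ) (star a), mul_assoc,
          ← Algebra.smul_def, Algebra.algebraMap_eq_smul_one (R := ℂ), Complex.coe_smul,
          Complex.coe_smul, smul_sub, sub_smul, one_smul]
        abel
      rw [e4]
      have hsp2 : IsStrictlyPositive ((1 + t • y) + algebraMap ℝ 𝔄 ε) :=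
        IsStrictlyPositive.nonneg_add hsp.nonneg (isStrictlyPositive_algebraMap hε)
      rw [q07_LM τ hsp2]
      refine hL.trans (L_mono τ hsp ?_)
      have : (0 : 𝔄) ≤ algebraMap ℝ 𝔄 ε := (isStrictlyPositive_algebraMap hε).nonneg
      exact le_add_of_nonneg_right this

end LT
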