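import Pool.Agent.H29.LT.Q06

/-!
# LT-Q08: positivity for matrices by strong concavity and compactness

`K = {Z psd, tr Z = 1}` is compact and nonempty (closed; `‖Z_ij‖ ≤ 1`).  For `Z ∈ K` let
`T(Z) = a₁ᴴ scal Z a₁ - a₀ᴴ scal Z a₀` (Hermitian, linear in `Z`), `g(Z) = Re τ (T(Z) T(Z))`; `g` is
continuous, and `g(Z) > 0` on `K`: otherwise `τ (star t * t) = 0` for all entries `t` of `T(Z)`, so
`T(Z) = 0` by faithfulness and `Z = 0` by `hinv`, contradicting `tr Z = 1`.  So `g ≥ γ > 0` on `K`.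

For `Z ∈ K` : `Z ≤ 1`, so `eI ε + a_iᴴ scal Z a_i ≤ eI 1 + a_iᴴ a_i ≤ M` for all `ε ≤ 1`.

Positivity condition of `lower_bound` with `c = γ/(8 M²)`: `Z` positive definite, `tr Z = 1`,
`p = q = Z/2`, `H_i = eI ε + a_iᴴ scal Z a_i`; `Qm a₀ a₁ ε p q = (1/2) • (H₀ + H₁)`, so by `L_strong`
`LM (Qm ..) ≥ (LM H₀ + LM H₁)/2 + γ/(8 M²)`, and
`LM H_i ≥ LM (a_iᴴ scal Z a_i) = 2 DM a_i + LM (scal Z) ≥ log det Z` (`L_conj'`, `LM_scal`,
`τ.mass = 1`).
`E (a_i a_iᴴ)` is positive definite since `a_i a_iᴴ ≥ ε > 0` (`E_mono`).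
-/

set_option linter.unusedSectionVars false

namespace LT

open scoped Matrix ComplexOrder

variable {𝔄 : Type*} [CStarAlgebra 𝔄] [PartialOrder 𝔄] [StarOrderedRing 𝔄]
variable {ι : Type*} [Fintype ι] [DecidableEq ι]

/-- the compact set of density matrices -/
private def q08K (ι : Type*) [Fintype ι] [DecidableEq ι] : Set (Matrix ι ι ℂ) :=
  {Z | Z.PosSemidef ∧ Z.trace = 1}

private theorem q08_diag {Z : Matrix ι ι ℂ} (hZ : Z ∈ q08K ι) (i : ι) :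
    0 ≤ (Z i i).re ∧ (Z i i).re ≤ 1 := by
  have h0 : ∀ j, 0 ≤ (Z j j).re := fun j => (Complex.le_def.1 (hZ.1.diag_nonneg (i := j))).1
  refine ⟨h0 i, ?_⟩
  have h2 : (∑ j, (Z j j).re) = 1 := by
    rw [← Complex.re_sum]
    have h := hZ.2
    rw [Matrix.trace] at h
    simp only [Matrix.diag_apply] at h
    rw [h, Complex.one_re]
  rw [← h2]
  exact Finset.single_le_sum (f := fun j => (Z j j).re) (fun j _ => h0 j) (Finset.mem_univ i)

open scoped MatrixOrder Matrix.Norms.L2Operator in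
private theorem q08_sqrt {d : Matrix ι ι ℂ} (hd : d.PosSemidef) :
    ∃ k : Matrix ι ι ℂ, d = kᴴ * k := by
  obtain ⟨k, hk⟩ := CStarAlgebra.nonneg_iff_eq_star_mul_self.mp hd.nonneg
  exact ⟨k, hk⟩

private theorem q08_entry {Z : Matrix ι ι ℂ} (hZ : Z ∈ q08K ι) (i j : ι) : ‖Z i j‖ ≤ 1 := by
  obtain ⟨k, hk⟩ := q08_sqrt hZ.1
  have hd : ∀ i, (Z i i).re = ∑ l, ‖k l i‖ ^ 2 := by
    intro i
    rw [hk, Matrix.mul_apply, Complex.re_sum]
    refine Finset.sum_congr rfl fun l _ => ?_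
    rw [Matrix.conjTranspose_apply]
    change (starRingEnd ℂ (k l i) * k l i).re = _
    rw [← Complex.normSq_eq_conj_mul_self, Complex.ofReal_re, Complex.normSq_eq_norm_sq]
  have hij : ‖Z i j‖ ≤ ∑ l, (‖k l i‖ ^ 2 + ‖k l j‖ ^ 2) / 2 := by
    rw [hk, Matrix.mul_apply]
    refine (norm_sum_le _ _).trans (Finset.sum_le_sum fun l _ => ?_)
    rw [norm_mul, Matrix.conjTranspose_apply, norm_star]
    nlinarith [sq_nonneg (‖k l i‖ - ‖k l j‖)]
  rw [← Finset.sum_div, Finset.sum_add_distrib, ← hd i, ← hd j] at hij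
  have h1 := (q08_diag hZ i).2
  have h2 := (q08_diag hZ j).2
  linarith

private theorem q08_closed : IsClosed (q08K ι) := by
  have h1 : IsClosed {Z : Matrix ι ι ℂ | Zᴴ = Z} :=
    isClosed_eq (Continuous.matrix_conjTranspose continuous_id) continuous_id
  have h2 : IsClosed {Z : Matrix ι ι ℂ | ∀ v : ι → ℂ, 0 ≤ star v ⬝ᵥ (Z *ᵥ v)} := by
    rw [Set.ofPred_forall]
    refine isClosed_iInter fun v => ?_
    have hc : Continuous fun A : Matrix ι ι ℂ => star v ⬝ᵥ (A *ᵥ v) :=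
      Continuous.dotProduct continuous_const (Continuous.matrix_mulVec continuous_id
        continuous_const)
    have h3 : IsClosed {z : ℂ | 0 ≤ z} := by
      have : {z : ℂ | 0 ≤ z} = {z : ℂ | 0 ≤ z.re} ∩ {z : ℂ | z.im = 0} := by
        ext z
        simp only [Set.mem_ofPred_eq, Set.mem_inter_iff, Complex.le_def, Complex.zero_re,
          Complex.zero_im]
        exact ⟨fun h => ⟨h.1, h.2.symm⟩, fun h => ⟨h.1, h.2.symm⟩⟩
      rw [this]
      exact (isClosed_le continuous_const Complex.continuous_re).inter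
        (isClosed_eq Complex.continuous_im continuous_const)
    exact h3.preimage hc
  have h3 : IsClosed {Z : Matrix ι ι ℂ | Z.trace = 1} :=
    isClosed_eq (Continuous.matrix_trace continuous_id) continuous_const
  have h4 : q08K ι = ({Z : Matrix ι ι ℂ | Zᴴ = Z} ∩
      {Z : Matrix ι ι ℂ | ∀ v : ι → ℂ, 0 ≤ star v ⬝ᵥ (Z *ᵥ v)}) ∩
      {Z : Matrix ι ι ℂ | Z.trace = 1} := by
    ext Z
    refine ⟨fun h => ⟨⟨h.1.isHermitian, fun v => h.1.dotProduct_mulVec_nonneg v⟩, h.2⟩,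
      fun h => ⟨Matrix.PosSemidef.of_dotProduct_mulVec_nonneg h.1.1 h.1.2, h.2⟩⟩
  rw [h4]
  exact (h1.inter h2).inter h3

private theorem q08_compact : IsCompact (q08K ι) := by
  have h1 : IsCompact (Set.pi Set.univ fun _ : ι => Set.pi Set.univ fun _ : ι =>
      Metric.closedBall (0 : ℂ) 1) :=
    isCompact_univ_pi fun _ => isCompact_univ_pi fun _ => isCompact_closedBall 0 1
  refine h1.of_isClosed_subset q08_closed ?_
  intro Z hZ i _ j _
  rw [mem_closedBall_zero_iff]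
  exact q08_entry hZ i j

private theorem q08_nonempty [Nonempty ι] : (q08K ι).Nonempty := by
  have hc : (0 : ℝ) < Fintype.card ι := by exact_mod_cast Fintype.card_pos
  refine ⟨((((Fintype.card ι : ℝ))⁻¹ : ℝ) : ℂ) • (1 : Matrix ι ι ℂ), ?_, ?_⟩
  · have h := (Matrix.PosSemidef.one (n := ι) (R := ℂ)).smul (α := ℝ)
      (a := ((Fintype.card ι : ℝ))⁻¹) (inv_nonneg.2 hc.le)
    rw [Complex.coe_smul]
    exact h
  · rw [Matrix.trace_smul, Matrix.trace_one, smul_eq_mul, Complex.ofReal_inv,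
      Complex.ofReal_natCast]
    exact inv_mul_cancel₀ (by exact_mod_cast hc.ne')

/-- `Z ↦ aᴴ scal Z a` -/
private noncomputable def q08F (a : Matrix ι ι 𝔄) (Z : Matrix ι ι ℂ) : Matrix ι ι 𝔄 :=
  aᴴ * scal 𝔄 Z * a

private theorem q08_F_cont (a : Matrix ι ι 𝔄) :
    Continuous fun Z : Matrix ι ι ℂ => (toC (q08F a Z) : CStarMatrix ι ι 𝔄) := by
  have h1 : Continuous fun Z : Matrix ι ι ℂ => scal 𝔄 Z :=
    continuous_id.matrix_map (continuous_algebraMap ℂ 𝔄)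
  have h2 : Continuous fun Z : Matrix ι ι ℂ => q08F a Z :=
    (continuous_const.matrix_mul h1).matrix_mul continuous_const
  refine continuous_pi fun i => continuous_pi fun j => ?_
  exact (continuous_apply j).comp ((continuous_apply i).comp h2)

private theorem q08_F_herm (a : Matrix ι ι 𝔄) {Z : Matrix ι ι ℂ} (hZ : Z.PosSemidef) :
    (q08F a Z)ᴴ = q08F a Z :=
  (PM_conj (PM_scal hZ) a).isHermitian

private theorem q08_zero {τ : Tr 𝔄} (hfaith : ∀ x : 𝔄, τ.f (star x * x) = 0 → x = 0)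
    {T : CStarMatrix ι ι 𝔄} (h : ((τ.mat ι).f (star T * T)).re ≤ 0) : T = 0 := by
  have h1 : ((τ.mat ι).f (star T * T)).re = ∑ i, ∑ j, (τ.f (star (T j i) * T j i)).re := by
    rw [Tr.mat_apply, Complex.re_sum]
    refine Finset.sum_congr rfl fun i _ => ?_
    rw [CStarMatrix.mul_apply, map_sum, Complex.re_sum]
    refine Finset.sum_congr rfl fun j _ => ?_
    rw [CStarMatrix.star_apply]
  rw [h1] at h
  have h2 : ∀ i ∈ Finset.univ, ∑ j, (τ.f (star (T j i) * T j i)).re = 0 := by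
    refine (Finset.sum_eq_zero_iff_of_nonneg fun i _ =>
      Finset.sum_nonneg fun j _ => τ.nonneg _).1 (le_antisymm h ?_)
    exact Finset.sum_nonneg fun i _ => Finset.sum_nonneg fun j _ => τ.nonneg _
  have h3 : ∀ i j, (τ.f (star (T j i) * T j i)).re = 0 := fun i j =>
    (Finset.sum_eq_zero_iff_of_nonneg fun j _ => τ.nonneg _).1 (h2 i (Finset.mem_univ i)) j
      (Finset.mem_univ j)
  ext i j
  refine hfaith _ (Complex.ext (h3 j i) ?_)
  have h4 := τ.star_map (star (T i j) * T i j)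
  rw [star_mul, star_star] at h4
  have h5 := congrArg Complex.im h4
  change _ = ((starRingEnd ℂ) _).im at h5
  rw [Complex.conj_im] at h5
  rw [Complex.zero_im]
  linarith

private theorem q08_unit {x : Matrix ι ι 𝔄} (hx : IsUnit x) : IsUnit (toC x) := hx

/-- `E (a aᴴ)` is positive definite -/
private theorem q08_E {τ : Tr 𝔄} (h1 : τ.f 1 = 1) {a : Matrix ι ι 𝔄} (ha : IsUnit a) :
    (E τ (a * aᴴ)).PosDef := by
  have hs1 : SPM (1 : Matrix ι ι 𝔄) := by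
    rw [← scal_one]
    exact SPM_scal Matrix.PosDef.one
  have hu : IsUnit aᴴ := by
    have : IsUnit (star (toC a)) := (q08_unit ha).star
    exact this
  have h2 := SPM_conj hs1 hu
  rw [Matrix.conjTranspose_conjTranspose, Matrix.mul_one] at h2
  obtain ⟨ε, hε, hle⟩ := h2.exists_eps
  have h3 := E_mono τ hle
  refine posDef_of_le ?_ h3
  have h4 : eI 𝔄 ι ε = scal 𝔄 ((ε : ℂ) • (1 : Matrix ι ι ℂ)) := by
    ext i j
    unfold eI scal
    rw [Matrix.algebraMap_matrix_apply, Matrix.map_apply, Matrix.smul_apply, Matrix.one_apply]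
    split_ifs
    · rw [smul_eq_mul, mul_one, Algebra.algebraMap_eq_smul_one, Algebra.algebraMap_eq_smul_one,
        Complex.coe_smul]
    · rw [smul_zero, map_zero]
  rw [h4, E_scal τ h1]
  have h5 := (Matrix.PosDef.one (n := ι) (R := ℂ)).smul (α := ℝ) hε
  rw [Complex.coe_smul]
  exact h5

/-- `log det Z ≤ LM (eI ε + aᴴ scal Z a)` -/
private theorem q08_LM {τ : Tr 𝔄} (h1 : τ.f 1 = 1) {a : Matrix ι ι 𝔄} (ha : IsUnit a)
    (hD : 0 ≤ DM τ a) {Z : Matrix ι ι ℂ} (hZ : Z.PosDef) {ε : ℝ} (hε : 0 < ε) :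
    Real.log Z.det.re ≤ LM τ (q08F a Z + eI 𝔄 ι ε) := by
  have hs : SPM (q08F a Z) := SPM_conj (SPM_scal hZ) ha
  have hle : LeM (q08F a Z) (q08F a Z + eI 𝔄 ι ε) := by
    rw [LeM_iff, add_sub_cancel_left]
    unfold PM
    rw [toC_eI, Algebra.algebraMap_eq_smul_one]
    exact smul_nonneg hε.le zero_le_one
  refine le_trans ?_ (LM_mono τ hs hle)
  have h2 : LM τ (q08F a Z) = L (τ.mat ι) (star (toC a) * toC a) + LM τ (scal 𝔄 Z) :=
    L_conj' (τ.mat ι) (q08_unit ha) (SPM_scal (𝔄 := 𝔄) hZ)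
  have h3 : L (τ.mat ι) (star (toC a) * toC a) = 2 * DM τ a := by
    unfold DM D
    ring
  rw [h2, h3, LM_scal τ hZ]
  have h4 : τ.mass = 1 := by
    unfold Tr.mass
    rw [h1, Complex.one_re]
  rw [h4]
  linarith

theorem matrix_bound [Nonempty ι] {τ : Tr 𝔄} (U : UFree τ) (h1 : τ.f 1 = 1)
    (hfaith : ∀ x : 𝔄, τ.f (star x * x) = 0 → x = 0)
    {a₀ a₁ : Matrix ι ι 𝔄} (h₀ : EntIn (U.A : Set 𝔄) a₀) (h₁ : EntIn (U.A : Set 𝔄) a₁)
    (hu₀ : IsUnit a₀) (hu₁ : IsUnit a₁) (hD₀ : 0 ≤ DM τ a₀) (hD₁ : 0 ≤ DM τ a₁)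
    (hinv : ∀ Z : Matrix ι ι ℂ, Z.PosSemidef →
      a₀ᴴ * scal 𝔄 Z * a₀ = a₁ᴴ * scal 𝔄 Z * a₁ → Z = 0) :
    ∃ c : ℝ, 0 < c ∧ ∀ η : ℝ, 0 < η →
      c ≤ LM τ ((fm U.u a₀ a₁)ᴴ * fm U.u a₀ a₁ + eI 𝔄 ι η) := by
  -- the function `g`
  obtain ⟨T, hT⟩ : ∃ T : Matrix ι ι ℂ → CStarMatrix ι ι 𝔄,
      T = fun Z => toC (q08F a₁ Z) - toC (q08F a₀ Z) := ⟨_, rfl⟩
  have hTc : Continuous T := by
    rw [hT]
    exact (q08_F_cont a₁).sub (q08_F_cont a₀)
  have hgc : Continuous fun Z => ((τ.mat ι).f (T Z * T Z)).re :=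
    Complex.continuous_re.comp ((τ.mat ι).f.continuous.comp (hTc.mul hTc))
  obtain ⟨Z₀, hZ₀, hmin⟩ := q08_compact.exists_isMinOn q08_nonempty hgc.continuousOn
  have hTs : ∀ Z : Matrix ι ι ℂ, Z.PosSemidef → star (T Z) = T Z := by
    intro Z hZ
    rw [hT]
    change star (toC (q08F a₁ Z) - toC (q08F a₀ Z)) = _
    rw [star_sub, ← toC_star, ← toC_star, q08_F_herm a₁ hZ, q08_F_herm a₀ hZ]
  have hγ : 0 < ((τ.mat ι).f (T Z₀ * T Z₀)).re := by
    by_contra hcon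
    rw [not_lt] at hcon
    have h2 : T Z₀ = 0 := by
      refine q08_zero hfaith ?_
      rw [hTs Z₀ hZ₀.1]
      exact hcon
    have h3 : q08F a₁ Z₀ = q08F a₀ Z₀ := by
      rw [hT] at h2
      exact sub_eq_zero.1 h2
    have h4 := hinv Z₀ hZ₀.1 h3.symm
    have h5 := hZ₀.2
    rw [h4, Matrix.trace_zero] at h5
    exact zero_ne_one h5
  -- upper bounds
  obtain ⟨M₀, hM₀⟩ := q08_compact.exists_bound_of_continuousOn (q08_F_cont a₀).continuousOn
  obtain ⟨M₁, hM₁⟩ := q08_compact.exists_bound_of_continuousOn (q08_F_cont a₁).continuousOn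
  have hM₀0 : 0 ≤ M₀ := (norm_nonneg _).trans (hM₀ Z₀ hZ₀)
  have hM₁0 : 0 ≤ M₁ := (norm_nonneg _).trans (hM₁ Z₀ hZ₀)
  have hbd : ∀ (a : Matrix ι ι 𝔄) (Z : Matrix ι ι ℂ), Z.PosSemidef →
      ‖toC (q08F a Z)‖ ≤ M₀ + M₁ → ∀ ε : ℝ, ε ≤ 1 →
      toC (q08F a Z + eI 𝔄 ι ε) ≤ algebraMap ℝ (CStarMatrix ι ι 𝔄) (M₀ + M₁ + 1) := by
    intro a Z hZ hn ε hε
    rw [toC_add, toC_eI, map_add (algebraMap ℝ (CStarMatrix ι ι 𝔄))]
    have hsa : IsSelfAdjoint (toC (q08F a Z)) := q08_F_herm a hZ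
    have hmono : ∀ {r s : ℝ}, r ≤ s → algebraMap ℝ (CStarMatrix ι ι 𝔄) r ≤
        algebraMap ℝ (CStarMatrix ι ι 𝔄) s := by
      intro r s hrs
      rw [← sub_nonneg, ← map_sub, Algebra.algebraMap_eq_smul_one]
      exact smul_nonneg (sub_nonneg.2 hrs) zero_le_one
    exact add_le_add (hsa.le_algebraMap_norm_self.trans (hmono hn)) (hmono hε)
  have hMp : 0 < M₀ + M₁ + 1 := by linarith
  refine ⟨(1 / (8 * (M₀ + M₁ + 1) ^ 2)) * ((τ.mat ι).f (T Z₀ * T Z₀)).re, by positivity, ?_⟩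
  intro η hη
  refine lower_bound U h1 h₀ h₁ (q08_E h1 hu₀) (q08_E h1 hu₁) ?_ hη
  intro Z hZ htr ε hε hε1
  have hZK : Z ∈ q08K ι := ⟨hZ.posSemidef, htr⟩
  have hhalf : ((1 / 2 : ℝ) • Z).PosSemidef := hZ.posSemidef.smul (by norm_num)
  refine ⟨(1 / 2 : ℝ) • Z, (1 / 2 : ℝ) • Z, hhalf, hhalf, ?_, ?_⟩
  · rw [← add_smul]
    norm_num
  · have hQ : Qm a₀ a₁ ε ((1 / 2 : ℝ) • Z) ((1 / 2 : ℝ) • Z) =
        (1 / 2 : ℝ) • ((q08F a₀ Z + eI 𝔄 ι ε) + (q08F a₁ Z + eI 𝔄 ι ε)) := by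
      have hsm : scal 𝔄 ((1 / 2 : ℝ) • Z) = (1 / 2 : ℝ) • scal 𝔄 Z := by
        ext i j
        unfold scal
        rw [Matrix.map_apply, Matrix.smul_apply, Matrix.smul_apply, Matrix.map_apply,
          Algebra.algebraMap_eq_smul_one, Algebra.algebraMap_eq_smul_one, smul_assoc]
      unfold Qm q08F
      rw [hsm, Matrix.mul_smul, Matrix.mul_smul, Matrix.smul_mul, Matrix.smul_mul]
      have he : eI 𝔄 ι ε = (1 / 2 : ℝ) • eI 𝔄 ι ε + (1 / 2 : ℝ) • eI 𝔄 ι ε := by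
        rw [← add_smul]
        norm_num
      rw [smul_add, smul_add, smul_add]
      nth_rewrite 1 [he]
      abel
    rw [hQ]
    have hs := L_strong (τ.mat ι) (H₀ := toC (q08F a₀ Z + eI 𝔄 ι ε))
      (H₁ := toC (q08F a₁ Z + eI 𝔄 ι ε))
      (SPM_add_eI (PM_conj (PM_scal hZ.posSemidef) a₀) hε)
      (SPM_add_eI (PM_conj (PM_scal hZ.posSemidef) a₁) hε) hMp
      (hbd a₀ Z hZ.posSemidef ((hM₀ Z hZK).trans (by linarith)) ε hε1)
      (hbd a₁ Z hZ.posSemidef ((hM₁ Z hZK).trans (by linarith)) ε hε1)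
    have hdiff : toC (q08F a₁ Z + eI 𝔄 ι ε) - toC (q08F a₀ Z + eI 𝔄 ι ε) = T Z := by
      rw [hT, toC_add, toC_add]
      exact add_sub_add_right_eq_sub _ _ _
    rw [hdiff] at hs
    have h3 := q08_LM h1 hu₀ hD₀ hZ hε
    have h4 := q08_LM h1 hu₁ hD₁ hZ hε
    have h5 : ((τ.mat ι).f (T Z₀ * T Z₀)).re ≤ ((τ.mat ι).f (T Z * T Z)).re := hmin hZK
    have h6 : (1 / (8 * (M₀ + M₁ + 1) ^ 2)) * ((τ.mat ι).f (T Z₀ * T Z₀)).re ≤
        (1 / (8 * (M₀ + M₁ + 1) ^ 2)) * ((τ.mat ι).f (T Z * T Z)).re :=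
      mul_le_mul_of_nonneg_left h5 (by positivity)
    refine le_trans ?_ hs
    unfold LM at h3 h4
    linarith

end LT
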