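import Pool.Agent.H29.LT.C01
import Pool.Agent.H29.LT.Fox

/-!
# LT: the `ℓ²`-torsion of a presentation 2-complex (definitions)
-/

set_option linter.unusedSectionVars false

namespace LT

open scoped Matrix

variable {G : Type*} [Group G]
variable {ι κ : Type*} [Fintype ι] [DecidableEq ι] [Fintype κ] [DecidableEq κ]

/-- The matrix `(∂r_k/∂x_i)` in `ℂ[G]`, where `γ i ∈ G` is the image of the generator `x_i`: the
differential `C₂ → C₁` of the universal cover of the presentation complex. -/
noncomputable def foxM (γ : ι → G) (r : κ → FreeGroup ι) : Matrix κ ι (MonoidAlgebra ℂ G) :=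
  fun k i => MonoidAlgebra.mapDomain (FreeGroup.lift γ) (fox i (r k))

/-- The column `(x_i - 1)`: the differential `C₁ → C₀`. -/
noncomputable def gcol (γ : ι → G) : Matrix ι Unit (MonoidAlgebra ℂ G) :=
  fun i _ => MonoidAlgebra.single (γ i) 1 - 1

/-- The combinatorial Laplacian `Δ₂ = ∂₂ ∂₂*`. -/
noncomputable def Lap2 (γ : ι → G) (r : κ → FreeGroup ι) : Matrix κ κ (N G) :=
  lamM (foxM γ r) * (lamM (foxM γ r))ᴴ

/-- The combinatorial Laplacian `Δ₀ = ∂₁* ∂₁`. -/
noncomputable def Lap0 (γ : ι → G) : Matrix Unit Unit (N G) :=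
  (lamM (gcol γ))ᴴ * lamM (gcol γ)

/-- `log det H = inf_{ε > 0} tr log (H + ε)`, the logarithm of the Fuglede-Kadison determinant of a
positive (injective) matrix over `N(G)`. -/
noncomputable def logDet (H : Matrix κ κ (N G)) : ℝ :=
  ⨅ ε : {ε : ℝ // 0 < ε}, LM (trN G) (H + eI (N G) κ ε)

/-- determinant class (and injectivity): the infimum in `logDet` is not `-∞` -/
def DetClass (H : Matrix κ κ (N G)) : Prop :=
  BddBelow (Set.range fun ε : {ε : ℝ // 0 < ε} => LM (trN G) (H + eI (N G) κ ε))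

/-- The `ℓ²`-torsion `ρ = (log det Δ₀ - log det Δ₂)/2` of the presentation complex. -/
noncomputable def rho (γ : ι → G) (r : κ → FreeGroup ι) : ℝ :=
  (logDet (Lap0 γ) - logDet (Lap2 γ r)) / 2

end LT
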