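import Mathlib

/-!
# LT-T: monotone words, definitions

`B = F(X ⊔ Y)`.  For `j : Y`, `lst j = [(α₁, y₁), ..., (α_m, y_m)]` (`α_i ∈ F(X)`, `y_i ∈ Y`) and
`W_j = b_j α₁ b_{y₁} α₂ b_{y₂} ... α_m b_{y_m}`.  `cM` is the family `(x)_{x ∈ X}, (W_j)_{j ∈ Y}` and
`C = CM lst` the subgroup it generates.

Nodes `K lst = Σ j, Fin (lst j).length`; the node `κ = (j, i)` sits in `W_j` just before `α_{i+1}`;
`al κ = α_{i+1}`, `el κ = y_{i+1}`; `nxt κ` is the next node (`none` = the base point, after the last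
letter), `fst y` the first node of the word `W_y` (`none` if `W_y = b_y`).
-/

set_option linter.unusedSectionVars false

namespace LT

variable {X Y : Type*}

/-- `F(X) → F(X ⊔ Y)` -/
def aX : FreeGroup X →* FreeGroup (X ⊕ Y) := FreeGroup.map Sum.inl

/-- the generator `b_y` -/
def bY (y : Y) : FreeGroup (X ⊕ Y) := FreeGroup.of (Sum.inr y)

/-- `α₁ b_{y₁} α₂ b_{y₂} ...` -/
def tailW (l : List (FreeGroup X × Y)) : FreeGroup (X ⊕ Y) :=
  (l.map fun p => aX p.1 * bY p.2).prod

/-- `W_j = b_j α₁ b_{y₁} α₂ b_{y₂} ...` -/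
def WM (lst : Y → List (FreeGroup X × Y)) (j : Y) : FreeGroup (X ⊕ Y) :=
  bY j * tailW (lst j)

/-- the family `(x), (W_j)` -/
def cM (lst : Y → List (FreeGroup X × Y)) : X ⊕ Y → FreeGroup (X ⊕ Y)
  | Sum.inl x => FreeGroup.of (Sum.inl x)
  | Sum.inr j => WM lst j

/-- the subgroup generated by `X` and the `W_j` -/
def CM (lst : Y → List (FreeGroup X × Y)) : Subgroup (FreeGroup (X ⊕ Y)) :=
  (FreeGroup.lift (cM lst)).range

/-- the last `Y`-letter of `W_j` -/
def lastY (lst : Y → List (FreeGroup X × Y)) (j : Y) : Y :=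
  ((lst j).getLast?).elim j Prod.snd

/-- nodes -/
abbrev KM (lst : Y → List (FreeGroup X × Y)) := Σ j : Y, Fin (lst j).length

variable (lst : Y → List (FreeGroup X × Y))

def al (κ : KM lst) : FreeGroup X := ((lst κ.1).get κ.2).1

def el (κ : KM lst) : Y := ((lst κ.1).get κ.2).2

def nxt (κ : KM lst) : Option (KM lst) :=
  if h : κ.2.1 + 1 < (lst κ.1).length then some ⟨κ.1, ⟨κ.2.1 + 1, h⟩⟩ else none

def fstN (y : Y) : Option (KM lst) :=
  if h : 0 < (lst y).length then some ⟨y, ⟨0, h⟩⟩ else none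

/-- the integer matrix `S`: `(S φ)_κ = φ_{nxt κ} - φ_{fst (el κ)}` (`φ_none = 0`) -/
def SM [DecidableEq Y] : Matrix (KM lst) (KM lst) ℂ := fun κ μ =>
  (if nxt lst κ = some μ then 1 else 0) - (if fstN lst (el lst κ) = some μ then 1 else 0)

/-- the pencil `f̂ = b S - D_α⁻¹` -/
noncomputable def fhat [DecidableEq Y] :
    Matrix (KM lst) (KM lst) (MonoidAlgebra ℂ (FreeGroup (X ⊕ Y))) := fun κ μ =>
  MonoidAlgebra.single (bY (el lst κ)) (SM lst κ μ)
    - (if κ = μ then MonoidAlgebra.single (aX (al lst κ))⁻¹ 1 else 0)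

/-- the prefix of `W_j` up to the node `κ` -/
def QM : Option (KM lst) → FreeGroup (X ⊕ Y)
  | none => 1
  | some κ => bY κ.1 * tailW ((lst κ.1).take κ.2.1)

/-- one step on pairs of nodes -/
inductive Stp : (Option (KM lst) × Option (KM lst)) → (Option (KM lst) × Option (KM lst)) →
    FreeGroup (X ⊕ Y) → Prop
  | both (κ μ : KM lst) (ha : al lst κ = al lst μ) (he : el lst κ = el lst μ) :
      Stp (some κ, some μ) (nxt lst κ, nxt lst μ) (aX (al lst κ) * bY (el lst κ))
  | left (κ : KM lst) :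
      Stp (some κ, none) (nxt lst κ, fstN lst (el lst κ)) (aX (al lst κ) * bY (el lst κ))
  | right (κ : KM lst) :
      Stp (none, some κ) (fstN lst (el lst κ), nxt lst κ) (aX (al lst κ) * bY (el lst κ))

/-- paths of length `≥ 1` on pairs of nodes -/
inductive Pth : (Option (KM lst) × Option (KM lst)) → (Option (KM lst) × Option (KM lst)) →
    FreeGroup (X ⊕ Y) → Prop
  | one {p q g} (h : Stp lst p q g) : Pth p q g
  | cons {p q r g g'} (h : Stp lst p q g) (h' : Pth q r g') : Pth p r (g * g')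

end LT
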