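import Pool.Agent.H29.LT.T00
import Pool.Agent.H29.LT.C02
import Pool.Agent.H29.LT.Fox

/-!
# LT-T01: the Fox Jacobian of `C` and the pencil `f̂`

Over `R = ℂ[F(X ⊔ Y)]`, `K = KM lst`.  Matrices
`ℓ : K × Y`, `ℓ κ y = [el κ = y]`;  `Bs : Y × K`, `Bs j κ = [fstN j = some κ] b_j`;
`P2 : K × K`, `P2 κ μ = [nxt κ = some μ] b_{el κ} - [κ = μ] α_κ⁻¹`;
`Tm : K × Y`, `Tm κ y = fox (inr y) (tl κ)` where `tl κ = tailW ((lst κ.1).drop κ.2)`;
`c : Y × Y`, `c j y = fox (inr y) (WM lst j)`.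

Since `tl κ = α_κ b_{el κ} tl (nxt κ)` (`tl none = 1`) and `fox (inr y) (aX α) = 0`
(`fox_map_of_notMem`), the product rule gives
`Tm κ y = α_κ ([el κ = y] + b_{el κ} Tm (nxt κ) y)`, i.e. `α_κ⁻¹ Tm = ℓ + (b N) Tm`, i.e.
`P2 * Tm = -ℓ`.  Also `WM j = b_j tl (fstN j)`, so `c = 1 + Bs * Tm`.
And `fhat = P2 - ℓ * Bs` (`(ℓ Bs) κ μ = [fstN (el κ) = some μ] b_{el κ}`).

Block matrices over `K ⊕ Y`:
`fromBlocks P2 (-ℓ) Bs (-1) = fromBlocks 1 ℓ 0 1 * fromBlocks fhat 0 0 (-1) * fromBlocks 1 0 (-Bs) 1`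
and, with `P2 * Tm = -ℓ`, `c = 1 + Bs Tm`,
`fromBlocks P2 (-ℓ) Bs (-1) * fromBlocks 1 (-Tm) 0 1 = fromBlocks P2 0 Bs (-c)
   = fromBlocks P2 0 0 1 * fromBlocks 1 0 Bs 1 * fromBlocks 1 0 0 (-c)`.
`P2` is `Uni`: `P2 = -(diag α⁻¹) (1 - α b N)` with `(α b N) κ μ ≠ 0 → μ = nxt κ`, whose second
coordinate is larger (`Uni_one_add_strict`, `r κ = κ.2`), and `Uni_diagonal`.
So `fromBlocks 1 0 0 (-c) = (Uni) * fromBlocks fhat 0 0 (-1) * (Uni)`; conclude with
`LB.mul_uni`, `LB_fromBlocks_one` (after multiplying by the `Uni` matrix `fromBlocks 1 0 0 (-1)`),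
`LB_one_fromBlocks`, `LB_neg`.

`LB_J`: with respect to `X ⊕ Y` the Jacobian of the family `cM` is `fromBlocks 1 0 J₂₁ c
= fromBlocks 1 0 J₂₁ 1 * fromBlocks 1 0 0 c`.
-/

set_option linter.unusedSectionVars false

namespace LT

variable {X Y : Type*} [Fintype X] [DecidableEq X] [Fintype Y] [DecidableEq Y]
variable (lst : Y → List (FreeGroup X × Y))


/-! ### auxiliary definitions -/

/-- the group ring -/
abbrev T1R (X Y : Type*) := MonoidAlgebra ℂ (FreeGroup (X ⊕ Y))

/-- the tail of the word after the node -/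
def t1tl (κ : KM lst) : FreeGroup (X ⊕ Y) := tailW ((lst κ.1).drop κ.2.1)

/-- the tail after an optional node -/
def t1tlo : Option (KM lst) → FreeGroup (X ⊕ Y)
  | none => 1
  | some κ => t1tl lst κ

/-- `ℓ` -/
noncomputable def t1L : Matrix (KM lst) Y (T1R X Y) := fun κ y => if el lst κ = y then 1 else 0

/-- `Bs` -/
noncomputable def t1B : Matrix Y (KM lst) (T1R X Y) := fun j κ =>
  if fstN lst j = some κ then MonoidAlgebra.single (bY j) 1 else 0

/-- `P2` -/
noncomputable def t1P : Matrix (KM lst) (KM lst) (T1R X Y) := fun κ μ =>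
  (if nxt lst κ = some μ then MonoidAlgebra.single (bY (el lst κ)) 1 else 0)
    - (if κ = μ then MonoidAlgebra.single (aX (al lst κ))⁻¹ 1 else 0)

/-- `Tm` -/
noncomputable def t1T : Matrix (KM lst) Y (T1R X Y) := fun κ y =>
  fox (Sum.inr y) (t1tl lst κ)

/-- the lower right block of the Jacobian -/
noncomputable def t1C : Matrix Y Y (T1R X Y) := fun j y => fox (Sum.inr y) (WM lst j)

omit [Fintype X] [DecidableEq X] [Fintype Y] [DecidableEq Y] in
theorem t1_drop (l : List (FreeGroup X × Y)) (i : ℕ) (h : i < l.length) :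
    tailW (l.drop i) = aX (l.get ⟨i, h⟩).1 * bY (l.get ⟨i, h⟩).2 * tailW (l.drop (i + 1)) := by
  rw [List.drop_eq_getElem_cons h]
  unfold tailW
  rw [List.map_cons, List.prod_cons]
  rfl

omit [Fintype X] [DecidableEq X] [Fintype Y] [DecidableEq Y] in
theorem t1_tl (κ : KM lst) :
    t1tl lst κ = aX (al lst κ) * bY (el lst κ) * t1tlo lst (nxt lst κ) := by
  obtain ⟨j, i, hi⟩ := κ
  have h1 := t1_drop (lst j) i hi
  unfold t1tl al el
  refine h1.trans ?_
  congr 1
  unfold nxt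
  by_cases h : i + 1 < (lst j).length
  · rw [dif_pos h]
    rfl
  · rw [dif_neg h]
    have h2 : (lst j).drop (i + 1) = [] := List.drop_eq_nil_of_le (by omega)
    rw [h2]
    rfl

omit [Fintype X] [DecidableEq X] [Fintype Y] [DecidableEq Y] in
theorem t1_WM (j : Y) : WM lst j = bY j * t1tlo lst (fstN lst j) := by
  unfold WM
  congr 1
  unfold fstN
  by_cases h : 0 < (lst j).length
  · rw [dif_pos h]
    change tailW (lst j) = tailW ((lst j).drop 0)
    rw [List.drop_zero]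
  · rw [dif_neg h]
    have h2 : lst j = [] := List.length_eq_zero_iff.1 (by omega)
    rw [h2]
    rfl

theorem t1_fox_aX (y : Y) (α : FreeGroup X) : fox (Sum.inr y) (aX α : FreeGroup (X ⊕ Y)) = 0 :=
  fox_map_of_notMem Sum.inl (Sum.inr y) (fun _ h => Sum.inl_ne_inr h) α

theorem t1_fox_bY (z y : Y) (w : FreeGroup (X ⊕ Y)) :
    fox (Sum.inr y) (bY z * w) =
      (if z = y then 1 else 0) + MonoidAlgebra.single (bY z) 1 * fox (Sum.inr y) w := by
  rw [fox_mul]
  congr 1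
  unfold bY
  rw [fox_of]
  by_cases h : z = y
  · rw [if_pos h, if_pos (congrArg Sum.inr h)]
  · rw [if_neg h, if_neg (fun e => h (Sum.inr_injective e))]

theorem t1_T (κ : KM lst) (y : Y) :
    t1T lst κ y = MonoidAlgebra.single (aX (al lst κ)) 1 * ((if el lst κ = y then 1 else 0) +
      MonoidAlgebra.single (bY (el lst κ)) 1 * fox (Sum.inr y) (t1tlo lst (nxt lst κ))) := by
  unfold t1T
  rw [t1_tl, mul_assoc, fox_mul, t1_fox_aX, zero_add, t1_fox_bY]

theorem t1_sum (o : Option (KM lst)) (a : T1R X Y) (y : Y) :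
    ∑ μ, (if o = some μ then a else 0) * t1T lst μ y = a * fox (Sum.inr y) (t1tlo lst o) := by
  rcases o with _ | κ
  · have h1 : fox (Sum.inr y) (t1tlo lst none) = 0 := fox_one _
    rw [h1, mul_zero]
    refine Finset.sum_eq_zero fun μ _ => ?_
    rw [if_neg (by simp), zero_mul]
  · rw [Finset.sum_eq_single κ]
    · rw [if_pos rfl]
      rfl
    · intro μ _ hμ
      rw [if_neg (fun e => hμ (Option.some_injective _ e).symm), zero_mul]
    · intro h
      exact absurd (Finset.mem_univ κ) h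

theorem t1_PT : t1P lst * t1T lst = - t1L lst := by
  ext1 κ y
  rw [Matrix.mul_apply, Matrix.neg_apply]
  have h1 : ∀ μ, t1P lst κ μ * t1T lst μ y =
      (if nxt lst κ = some μ then MonoidAlgebra.single (bY (el lst κ)) 1 else 0) * t1T lst μ y -
        (if κ = μ then MonoidAlgebra.single (aX (al lst κ))⁻¹ 1 else 0) * t1T lst μ y :=
    fun μ => sub_mul _ _ _
  rw [Finset.sum_congr rfl fun μ _ => h1 μ, Finset.sum_sub_distrib, t1_sum]
  have h2 : ∑ μ, (if κ = μ then MonoidAlgebra.single (aX (al lst κ))⁻¹ 1 else 0) * t1T lst μ y =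
      MonoidAlgebra.single (aX (al lst κ))⁻¹ 1 * t1T lst κ y := by
    rw [Finset.sum_eq_single κ]
    · rw [if_pos rfl]
    · intro μ _ hμ
      rw [if_neg (fun e => hμ e.symm), zero_mul]
    · intro h
      exact absurd (Finset.mem_univ κ) h
  rw [h2, t1_T, ← mul_assoc, fx_single_inv, one_mul]
  unfold t1L
  abel

theorem t1_C : t1C lst = 1 + t1B lst * t1T lst := by
  ext1 j y
  rw [Matrix.add_apply, Matrix.mul_apply, Matrix.one_apply]
  unfold t1B
  rw [t1_sum]
  unfold t1C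
  rw [t1_WM, t1_fox_bY]

theorem t1_fhat : fhat lst + t1L lst * t1B lst = t1P lst := by
  ext1 κ μ
  rw [Matrix.add_apply, Matrix.mul_apply]
  have h1 : ∑ y, t1L lst κ y * t1B lst y μ = t1B lst (el lst κ) μ := by
    rw [Finset.sum_eq_single (el lst κ)]
    · unfold t1L
      rw [if_pos rfl, one_mul]
    · intro y _ hy
      unfold t1L
      rw [if_neg (fun e => hy e.symm), zero_mul]
    · intro h
      exact absurd (Finset.mem_univ _) h
  rw [h1]
  unfold fhat t1P t1B SM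
  rw [MonoidAlgebra.single_sub]
  have h2 : ∀ (p : Prop) [Decidable p] (g : FreeGroup (X ⊕ Y)),
      (MonoidAlgebra.single g (if p then (1 : ℂ) else 0) : T1R X Y) =
        if p then MonoidAlgebra.single g 1 else 0 := by
    intro p _ g
    split_ifs
    · rfl
    · exact MonoidAlgebra.single_zero g
  rw [h2, h2]
  abel

/-- `-α b N` -/
noncomputable def t1Z : Matrix (KM lst) (KM lst) (T1R X Y) := fun κ μ =>
  if nxt lst κ = some μ then
    - (MonoidAlgebra.single (aX (al lst κ)) 1 * MonoidAlgebra.single (bY (el lst κ)) 1) else 0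

theorem t1_nxt (κ μ : KM lst) (h : nxt lst κ = some μ) : κ.2.1 < μ.2.1 := by
  unfold nxt at h
  split_ifs at h with h1
  have h2 := Option.some_injective _ h
  rw [← h2]
  exact Nat.lt_succ_self _

theorem t1_P_eq : t1P lst = -((Matrix.diagonal fun κ : KM lst =>
    (MonoidAlgebra.single (aX (al lst κ))⁻¹ 1 : T1R X Y)) * (1 + t1Z lst)) := by
  ext1 κ μ
  rw [Matrix.neg_apply, Matrix.diagonal_mul, Matrix.add_apply, Matrix.one_apply]
  unfold t1P t1Z
  split_ifs with h1 h2 h2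
  · rw [mul_add, mul_neg, ← mul_assoc, fx_single_inv, one_mul, mul_one]
    abel
  · rw [zero_add, mul_neg, ← mul_assoc, fx_single_inv, one_mul, neg_neg, sub_zero]
  · rw [add_zero, mul_one, zero_sub]
  · rw [add_zero, mul_zero, neg_zero, sub_zero]

theorem t1_P_uni : Uni (t1P lst) := by
  rw [t1_P_eq]
  refine Uni.neg (Uni.mul (Uni_diagonal fun κ : KM lst => (aX (al lst κ))⁻¹) ?_)
  refine Uni_one_add_strict (fun κ : KM lst => κ.2.1) ?_
  intro κ μ h
  refine t1_nxt lst κ μ ?_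
  by_contra hne
  exact h (if_neg hne)

/-- the lower left block of the Jacobian -/
noncomputable def t1D : Matrix Y X (T1R X Y) := fun j x => fox (Sum.inl x) (WM lst j)

/-- the Jacobian -/
noncomputable def t1J : Matrix (X ⊕ Y) (X ⊕ Y) (T1R X Y) := fun k b => fox b (cM lst k)

theorem t1_blocks :
    Matrix.fromBlocks (1 : Matrix (KM lst) (KM lst) (T1R X Y)) (t1L lst) 0 1 *
      Matrix.fromBlocks (fhat lst) 0 0 1 *
      (Matrix.fromBlocks 1 0 0 (-1) * (Matrix.fromBlocks 1 0 (-t1B lst) 1 *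
        Matrix.fromBlocks 1 (-t1T lst) 0 1)) =
    Matrix.fromBlocks (t1P lst) 0 0 1 * Matrix.fromBlocks 1 0 (t1B lst) 1 *
      Matrix.fromBlocks (1 : Matrix (KM lst) (KM lst) (T1R X Y)) 0 0 (-t1C lst) * 1 := by
  have h1 := t1_PT lst
  have h2 := t1_C lst
  have h3 := t1_fhat lst
  rw [Matrix.mul_one]
  simp only [Matrix.fromBlocks_multiply, Matrix.mul_one, Matrix.one_mul, Matrix.mul_zero,
    Matrix.zero_mul, add_zero, zero_add, Matrix.mul_neg, Matrix.neg_mul, neg_neg, neg_zero]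
  congr 1
  · have h4 : fhat lst = t1P lst - t1L lst * t1B lst := eq_sub_of_add_eq h3
    rw [h4, Matrix.sub_mul, h1, Matrix.mul_add, Matrix.mul_one, Matrix.mul_assoc]
    abel
  · rw [h2]
    abel

theorem LB_of_fhat {c : ℝ} (h : LB (fhat lst) c) :
    LB (fun j y : Y => fox (Sum.inr y) (WM lst j)
      : Matrix Y Y (MonoidAlgebra ℂ (FreeGroup (X ⊕ Y)))) c := by
  have h1 : LB (Matrix.fromBlocks (fhat lst) 0 0 (1 : Matrix Y Y (T1R X Y))) c :=
    LB_fromBlocks_one.2 h
  have hm : Uni (Matrix.fromBlocks (1 : Matrix (KM lst) (KM lst) (T1R X Y)) 0 0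
      (-1 : Matrix Y Y (T1R X Y))) := Uni.fromBlocks Uni_one Uni_one.neg
  have h2 := h1.mul_uni (Uni_unip₁₂ (t1L lst))
    (hm.mul ((Uni_unip₂₁ (-t1B lst)).mul (Uni_unip₁₂ (-t1T lst))))
  rw [t1_blocks] at h2
  have h3 := LB_of_mul_uni h2
    ((Uni.fromBlocks (t1_P_uni lst) Uni_one).mul (Uni_unip₂₁ (t1B lst))) Uni_one
  have h4 := LB_neg (LB_one_fromBlocks.1 h3)
  rw [neg_neg] at h4
  exact h4

theorem LB_J {c : ℝ} (h : LB (fun j y : Y => fox (Sum.inr y) (WM lst j)
      : Matrix Y Y (MonoidAlgebra ℂ (FreeGroup (X ⊕ Y)))) c) :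
    LB (fun k b => fox b (cM lst k)
      : Matrix (X ⊕ Y) (X ⊕ Y) (MonoidAlgebra ℂ (FreeGroup (X ⊕ Y)))) c := by
  have h1 : LB (Matrix.fromBlocks (1 : Matrix X X (T1R X Y)) 0 0 (t1C lst)) c :=
    LB_one_fromBlocks.2 h
  have h2 := h1.mul_uni
    (Uni_unip₂₁ (t1D lst)) Uni_one
  have h3 : t1J lst =
      Matrix.fromBlocks 1 0 (t1D lst) 1 *
        Matrix.fromBlocks (1 : Matrix X X (T1R X Y)) 0 0 (t1C lst) * 1 := by
    rw [Matrix.mul_one, Matrix.fromBlocks_multiply]
    simp only [Matrix.mul_one, Matrix.one_mul, Matrix.mul_zero, Matrix.zero_mul, add_zero, zero_add]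
    ext1 k b
    rcases k with x | j
    · rcases b with x' | y
      · rw [Matrix.fromBlocks_apply₁₁, Matrix.one_apply]
        change fox (Sum.inl x') (FreeGroup.of (Sum.inl x)) = _
        rw [fox_of]
        by_cases e : x = x'
        · rw [if_pos e, if_pos (congrArg Sum.inl e)]
        · rw [if_neg e, if_neg (fun e' => e (Sum.inl_injective e'))]
      · rw [Matrix.fromBlocks_apply₁₂, Matrix.zero_apply]
        change fox (Sum.inr y) (FreeGroup.of (Sum.inl x)) = _
        rw [fox_of, if_neg Sum.inl_ne_inr]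
    · rcases b with x' | y
      · rfl
      · rfl
  rw [← h3] at h2
  exact h2

end LT
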