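import Pool.Agent.H29.LT.T00

/-!
# LT-T02: `|det S| ≥ 1`

`S` has integer entries, so `det S` is an integer; it suffices that `S φ = 0` implies `φ = 0`
(`Matrix.exists_mulVec_eq_zero_iff`).  Extend `φ` by `φ none = 0`; `S φ = 0` says
`φ (nxt κ) = φ (fstN (el κ))` for all nodes `κ`.
For every `j : Y`: `φ (fstN (lastY j)) = 0`.  If `lst j = []` then `lastY j = j`, `fstN j = none`.
Otherwise let `κ` be the last node of `j`: `nxt κ = none`, `el κ = lastY j`, so
`0 = φ none = φ (fstN (lastY j))`.
`lastY` is injective on the finite type `Y`, hence surjective: `φ (fstN y) = 0` for all `y`.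
Then `φ (nxt κ) = φ (fstN (el κ)) = 0` for all `κ`; every node is `fstN j` or `nxt` of the previous
node; so `φ = 0`.
-/

set_option linter.unusedSectionVars false

namespace LT

variable {X Y : Type*} [DecidableEq X] [Fintype Y] [DecidableEq Y]
variable (lst : Y → List (FreeGroup X × Y))

/-- extension by `0` at the base point -/
def t02ext (φ : KM lst → ℂ) : Option (KM lst) → ℂ
  | none => 0
  | some μ => φ μ

theorem t02_sum (φ : KM lst → ℂ) (o : Option (KM lst)) :
    ∑ μ, (if o = some μ then (1 : ℂ) else 0) * φ μ = t02ext lst φ o := by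
  cases o with
  | none =>
    have h : ∀ μ, (if (none : Option (KM lst)) = some μ then (1 : ℂ) else 0) * φ μ = 0 := by
      intro μ
      rw [if_neg (by simp), zero_mul]
    rw [Finset.sum_congr rfl (fun μ _ => h μ), Finset.sum_const_zero]
    rfl
  | some κ =>
    have h : ∀ μ, (if (some κ : Option (KM lst)) = some μ then (1 : ℂ) else 0) * φ μ =
        if κ = μ then φ μ else 0 := by
      intro μ
      by_cases hc : κ = μ
      · rw [if_pos (by rw [hc]), if_pos hc, one_mul]
      · rw [if_neg (fun h => hc (Option.some.inj h)), if_neg hc, zero_mul]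
    rw [Finset.sum_congr rfl (fun μ _ => h μ), Finset.sum_ite_eq]
    rw [if_pos (Finset.mem_univ _)]
    rfl

theorem t02_mulVec (φ : KM lst → ℂ) (κ : KM lst) :
    (SM lst).mulVec φ κ = t02ext lst φ (nxt lst κ) - t02ext lst φ (fstN lst (el lst κ)) := by
  rw [← t02_sum, ← t02_sum, ← Finset.sum_sub_distrib]
  show ∑ μ, SM lst κ μ * φ μ = _
  refine Finset.sum_congr rfl fun μ _ => ?_
  rw [← sub_mul]
  rfl

theorem SM_det_ne_zero (hl : Function.Injective (lastY lst)) : (SM lst).det ≠ 0 := by
  intro hdet
  obtain ⟨φ, hφ, h0⟩ := Matrix.exists_mulVec_eq_zero_iff.2 hdet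
  apply hφ
  have h1 : ∀ κ, t02ext lst φ (nxt lst κ) = t02ext lst φ (fstN lst (el lst κ)) := by
    intro κ
    have := congrFun h0 κ
    rw [t02_mulVec] at this
    exact sub_eq_zero.1 this
  have h2 : ∀ j, t02ext lst φ (fstN lst (lastY lst j)) = 0 := by
    intro j
    rcases Nat.eq_zero_or_pos (lst j).length with hj | hj
    · have hnil : lst j = [] := List.length_eq_zero_iff.1 hj
      have e1 : lastY lst j = j := by
        unfold lastY
        rw [hnil]
        rfl
      rw [e1]
      have e2 : fstN lst j = none := by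
        unfold fstN
        rw [dif_neg (by omega)]
      rw [e2]
      rfl
    · have hlt : (lst j).length - 1 < (lst j).length := by omega
      have e1 : nxt lst ⟨j, ⟨(lst j).length - 1, hlt⟩⟩ = none := by
        unfold nxt
        rw [dif_neg]
        show ¬ (lst j).length - 1 + 1 < (lst j).length
        omega
      have e2 : el lst ⟨j, ⟨(lst j).length - 1, hlt⟩⟩ = lastY lst j := by
        unfold el lastY
        rw [List.getLast?_eq_getElem?, List.getElem?_eq_getElem hlt]
        rfl
      have := h1 ⟨j, ⟨(lst j).length - 1, hlt⟩⟩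
      rw [e1, e2] at this
      exact this.symm
  have h3 : ∀ y, t02ext lst φ (fstN lst y) = 0 := by
    intro y
    obtain ⟨j, rfl⟩ := (Finite.injective_iff_surjective.1 hl) y
    exact h2 j
  have h4 : ∀ κ, t02ext lst φ (nxt lst κ) = 0 := fun κ => (h1 κ).trans (h3 _)
  funext κ
  obtain ⟨j, ⟨i, hi⟩⟩ := κ
  show φ ⟨j, ⟨i, hi⟩⟩ = 0
  cases i with
  | zero =>
    have := h3 j
    unfold fstN at this
    rw [dif_pos hi] at this
    exact this
  | succ i =>
    have := h4 ⟨j, ⟨i, by omega⟩⟩
    unfold nxt at this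
    rw [dif_pos (show i + 1 < (lst j).length from hi)] at this
    exact this

/-- the matrix `S` over the integers -/
def t02Z : Matrix (KM lst) (KM lst) ℤ := fun κ μ =>
  (if nxt lst κ = some μ then 1 else 0) - (if fstN lst (el lst κ) = some μ then 1 else 0)

theorem t02_map : (Int.castRingHom ℂ).mapMatrix (t02Z lst) = SM lst := by
  ext κ μ
  show ((t02Z lst κ μ : ℤ) : ℂ) = SM lst κ μ
  unfold t02Z SM
  push_cast
  rfl

theorem one_le_norm_SM_det (hl : Function.Injective (lastY lst)) : 1 ≤ ‖(SM lst).det‖ := by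
  have h := SM_det_ne_zero lst hl
  rw [← t02_map, ← RingHom.map_det] at h ⊢
  have e : (Int.castRingHom ℂ) (t02Z lst).det = (((t02Z lst).det : ℤ) : ℂ) := rfl
  rw [e] at h ⊢
  rw [Complex.norm_intCast]
  have hz : (t02Z lst).det ≠ 0 := by
    intro h0
    apply h
    rw [h0]
    exact Int.cast_zero
  have := Int.one_le_abs hz
  exact_mod_cast this

end LT
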