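import Pool.Agent.H29.LT.T02
import Pool.Agent.H29.LT.C02
import Pool.Agent.H29.LT.C05
import Pool.Agent.H29.LT.Q08

/-!
# LT-T03: lower bound for the pencil `f̂` from the combinatorial condition

Fix `y₀ : Y`, `Z = X ⊕ {y // y ≠ y₀}`, and `Φ : F(Option Z) → F(X ⊔ Y)`, `none ↦ b_{y₀}`,
`inl x ↦ x`, `inr y ↦ b_{y₀}⁻¹ b_y`; it is injective: a left inverse is
`inl x ↦ x`, `inr y ↦ (if y = y₀ then u else u * of (inr y))`, `u = of none`.
Let `bp y = 1` if `y = y₀`, else `of (some (inr y))`; so `Φ (u * bp y) = b_y`, and `bp y ∈ AS Z`.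

Over `ℂ[F(Option Z)]`: `A₀ = - diag (single (α_κ)⁻¹ 1)` (`α_κ` via `x ↦ of (some (inl x))`),
`A₁ κ μ = single (bp (el κ)) (SM κ μ)`, `F κ μ = A₀ κ μ + single u 1 * A₁ κ μ`; then
`fhat = mapM Φ F`, so (`LB_mapM`) it suffices to bound `LB F`.

`lamM F = fm (lamG u) (lamM A₀) (lamM A₁)`.  Let `U` be the structure from `exists_UF`.
* entries of `lamM A₀`, `lamM A₁` in `U.A` (`co_lam`: supports in `AS Z`).
* `a₀ = lamM A₀` is unitary: unit, `DM a₀ = 0`.
* `a₁ = lamM A₁ = diag(lamG (bp (el κ))) * scal S`: unit since `det S ≠ 0`, and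
  `DM a₁ = log |det S| ≥ 0` (`DM_mul`, `DM_scal`, mass `1`).
* `hinv`: `a₀ᴴ scal Z a₀ = a₁ᴴ scal Z a₁`, `Z` Hermitian psd.  Entries `(κ, μ)`:
  left side `Z κ μ • lamG (α_κ α_μ⁻¹)`; right side
  `Σ_{a,b} S a κ Z a b S b μ • lamG (bp (el a)⁻¹ bp (el b))` (`S` is real).
  Compare coefficients (`co`, `co_lamG`).  For `y ≠ y'` the elements `bp y⁻¹ bp y'` are pairwise
  different, different from `1`, and not of the form `α_κ α_μ⁻¹` (not in the image of `F(X)`): so
  `Σ_{el a = y, el b = y'} S a κ Z a b S b μ = 0` for all `κ, μ`, i.e. `Sᵀ Z^{yy'} S = 0` for the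
  block `Z^{yy'}` of `Z`; `S` is invertible, so `Z^{yy'} = 0`: `Z a b = 0` if `el a ≠ el b`.
  Then the right side is `(Sᵀ Z S) κ μ • 1`, and comparing: if `al κ ≠ al μ`, `Z κ μ = 0` and
  `(Sᵀ Z S) κ μ = 0`; if `al κ = al μ`, `Z κ μ = (Sᵀ Z S) κ μ`.  So `Z = Sᵀ Z S`; the hypothesis
  `hcomb` gives `Z = 0`.
`matrix_bound` (faithful trace: `trN_faithful`, `trN_one`) gives the claim.
-/

set_option linter.unusedSectionVars false

namespace LT

open scoped Matrix ComplexOrder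

/-! ### generic lemmas -/

section generic

variable {𝔄 : Type*} [CStarAlgebra 𝔄] [PartialOrder 𝔄] [StarOrderedRing 𝔄]
variable {ι : Type*} [Fintype ι] [DecidableEq ι]

theorem t03g_unit {d e : ι → 𝔄} (h1 : ∀ i, d i * e i = 1) (h2 : ∀ i, e i * d i = 1) :
    IsUnit (Matrix.diagonal d) := by
  refine M2_unit' (y := Matrix.diagonal e) ?_ ?_
  · rw [Matrix.diagonal_mul_diagonal, ← Matrix.diagonal_one]
    congr 1
    funext i
    exact h1 i
  · rw [Matrix.diagonal_mul_diagonal, ← Matrix.diagonal_one]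
    congr 1
    funext i
    exact h2 i

theorem t03g_mul_unit {x : Matrix ι ι 𝔄} (hx : IsUnit x) {Z : Matrix ι ι ℂ} (hZ : Z.det ≠ 0) :
    IsUnit (x * scal 𝔄 Z) := hx.mul (M2_scal_unit hZ)

theorem t03g_neg_unit {x : Matrix ι ι 𝔄} (hx : IsUnit x) : IsUnit (-x) := hx.neg

theorem t03g_DM (τ : Tr 𝔄) {x : Matrix ι ι 𝔄} (hx : IsUnit x) (h0 : DM τ x = 0)
    {Z : Matrix ι ι ℂ} (hZ : Z.det ≠ 0) : DM τ (x * scal 𝔄 Z) = τ.mass * Real.log ‖Z.det‖ := by
  rw [DM_mul τ hx (M2_scal_unit hZ), h0, DM_scal τ hZ, zero_add]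

theorem t03g_apply (d : ι → 𝔄) (Z : Matrix ι ι ℂ) (a b : ι) :
    ((Matrix.diagonal d)ᴴ * scal 𝔄 Z * Matrix.diagonal d) a b = Z a b • (star (d a) * d b) := by
  rw [Matrix.mul_diagonal, Matrix.diagonal_conjTranspose, Matrix.diagonal_mul]
  change star (d a) * algebraMap ℂ 𝔄 (Z a b) * d b = _
  rw [← Algebra.commutes, mul_assoc, ← Algebra.smul_def]

theorem t03g_neg (d : ι → 𝔄) (Z : Matrix ι ι ℂ) :
    (-(Matrix.diagonal d))ᴴ * scal 𝔄 Z * (-(Matrix.diagonal d)) =
      (Matrix.diagonal d)ᴴ * scal 𝔄 Z * Matrix.diagonal d := by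
  rw [Matrix.conjTranspose_neg, Matrix.neg_mul, Matrix.neg_mul, Matrix.mul_neg, neg_neg]

theorem t03g_conj (D : Matrix ι ι 𝔄) (Z S : Matrix ι ι ℂ) :
    (D * scal 𝔄 S)ᴴ * scal 𝔄 Z * (D * scal 𝔄 S) =
      scal 𝔄 Sᴴ * (Dᴴ * scal 𝔄 Z * D * scal 𝔄 S) := by
  rw [Matrix.conjTranspose_mul, scal_conjTranspose]
  simp only [Matrix.mul_assoc]

theorem t03g_f_left (f : 𝔄 →L[ℂ] ℂ) (A : Matrix ι ι ℂ) (M : Matrix ι ι 𝔄) :
    (scal 𝔄 A * M).map f = A * M.map f := by
  ext1 i j
  rw [Matrix.map_apply, Matrix.mul_apply, Matrix.mul_apply, map_sum]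
  refine Finset.sum_congr rfl fun k _ => ?_
  change f (algebraMap ℂ 𝔄 (A i k) * M k j) = _
  rw [← Algebra.smul_def, map_smul, smul_eq_mul, Matrix.map_apply]

theorem t03g_f_right (f : 𝔄 →L[ℂ] ℂ) (A : Matrix ι ι ℂ) (M : Matrix ι ι 𝔄) :
    (M * scal 𝔄 A).map f = M.map f * A := by
  ext1 i j
  rw [Matrix.map_apply, Matrix.mul_apply, Matrix.mul_apply, map_sum]
  refine Finset.sum_congr rfl fun k _ => ?_
  change f (M i k * algebraMap ℂ 𝔄 (A k j)) = _
  rw [← Algebra.commutes, ← Algebra.smul_def, map_smul, smul_eq_mul, mul_comm, Matrix.map_apply]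

theorem t03g_fm (u : 𝔄) (d e : ι → 𝔄) (S : Matrix ι ι ℂ) (κ μ : ι) :
    fm u (-(Matrix.diagonal e)) (Matrix.diagonal d * scal 𝔄 S) κ μ =
      S κ μ • (u * d κ) - if κ = μ then e κ else 0 := by
  unfold fm sc
  rw [Matrix.add_apply, Matrix.diagonal_mul, Matrix.diagonal_mul, Matrix.neg_apply,
    Matrix.diagonal_apply, neg_add_eq_sub]
  congr 1
  change u * (d κ * algebraMap ℂ 𝔄 (S κ μ)) = _
  rw [← mul_assoc, ← Algebra.commutes, ← Algebra.smul_def]

theorem t03g_EntIn_diag (A : StarSubalgebra ℂ 𝔄) {d : ι → 𝔄} (hd : ∀ i, d i ∈ A) :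
    EntIn (A : Set 𝔄) (Matrix.diagonal d) := by
  intro i j
  rw [Matrix.diagonal_apply]
  split_ifs
  · exact hd i
  · exact zero_mem A

theorem t03g_EntIn_neg (A : StarSubalgebra ℂ 𝔄) {x : Matrix ι ι 𝔄}
    (hx : EntIn (A : Set 𝔄) x) : EntIn (A : Set 𝔄) (-x) := fun i j => neg_mem (hx i j)

end generic

/-! ### coefficients of matrices over `N(G)` -/

section coeff

variable {G : Type*} [Group G] {ι : Type*} [Fintype ι] [DecidableEq ι]

/-- the matrix of the coefficients at `g` -/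
noncomputable def t03co (g : G) (M : Matrix ι ι (N G)) : Matrix ι ι ℂ := fun i j => (M i j).co g

theorem t03co_scal_mul (g : G) (A : Matrix ι ι ℂ) (M : Matrix ι ι (N G)) :
    t03co g (scal (N G) A * M) = A * t03co g M := t03g_f_left (coL g) A M

theorem t03co_mul_scal (g : G) (A : Matrix ι ι ℂ) (M : Matrix ι ι (N G)) :
    t03co g (M * scal (N G) A) = t03co g M * A := t03g_f_right (coL g) A M

theorem t03co_diag [DecidableEq G] (g : G) (h : ι → G) (Z : Matrix ι ι ℂ) :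
    t03co g ((Matrix.diagonal fun i => (lamG (h i) : N G))ᴴ * scal (N G) Z *
      Matrix.diagonal fun i => (lamG (h i) : N G)) =
      fun a b => if g = (h a)⁻¹ * h b then Z a b else 0 := by
  ext1 a b
  have h1 : t03co g ((Matrix.diagonal fun i => (lamG (h i) : N G))ᴴ * scal (N G) Z *
      Matrix.diagonal fun i => (lamG (h i) : N G)) a b =
      (Z a b • (star (lamG (h a) : N G) * lamG (h b))).co g :=
    congrArg (fun T : N G => T.co g) (t03g_apply (fun i => (lamG (h i) : N G)) Z a b)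
  rw [h1, lamG_star, ← map_mul, N.co_smul, co_lamG]
  split_ifs
  · rw [mul_one]
  · rw [mul_zero]

theorem t03_diag_unit (h : ι → G) : IsUnit (Matrix.diagonal fun i => (lamG (h i) : N G)) := by
  refine t03g_unit (e := fun i => (lamG (h i)⁻¹ : N G)) ?_ ?_
  · intro i
    rw [← map_mul, mul_inv_cancel, map_one]
  · intro i
    rw [← map_mul, inv_mul_cancel, map_one]

theorem t03_diag_DM (h : ι → G) :
    DM (trN G) (Matrix.diagonal fun i => (lamG (h i) : N G)) = 0 :=
  c02g_diag (trN G) fun _ => lamG_star_mul _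

end coeff

/-! ### the groups -/

section grp

variable (X : Type*) {Y : Type*} [DecidableEq X] [DecidableEq Y]

/-- the index type `Z` -/
abbrev T03Z (y₀ : Y) : Type _ := X ⊕ {y : Y // y ≠ y₀}

/-- the group `F(Option Z)` -/
abbrev T03G (y₀ : Y) : Type _ := FreeGroup (Option (T03Z X y₀))

/-- `bp` -/
def t03bp (y₀ y : Y) : T03G X y₀ :=
  if h : y = y₀ then 1 else FreeGroup.of (some (Sum.inr ⟨y, h⟩))

/-- `F(X) → F(Option Z)` -/
def t03aX (y₀ : Y) : FreeGroup X →* T03G X y₀ := FreeGroup.map (fun x => some (Sum.inl x))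

/-- images of the generators -/
def t03phi (y₀ : Y) : Option (T03Z X y₀) → FreeGroup (X ⊕ Y)
  | none => bY y₀
  | some (Sum.inl x) => FreeGroup.of (Sum.inl x)
  | some (Sum.inr y) => (bY y₀)⁻¹ * bY y.1

/-- `Φ` -/
def t03Phi (y₀ : Y) : T03G X y₀ →* FreeGroup (X ⊕ Y) := FreeGroup.lift (t03phi X y₀)

/-- left inverse of `Φ` -/
def t03Psi (y₀ : Y) : FreeGroup (X ⊕ Y) →* T03G X y₀ :=
  FreeGroup.lift (Sum.elim (fun x => FreeGroup.of (some (Sum.inl x)))
    (fun y => FreeGroup.of none * t03bp X y₀ y))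

theorem t03bp_self (y₀ : Y) : t03bp X y₀ y₀ = 1 := dif_pos rfl

theorem t03bp_ne (y₀ : Y) (y : {y : Y // y ≠ y₀}) :
    t03bp X y₀ y.1 = FreeGroup.of (some (Sum.inr y)) := dif_neg y.2

theorem t03Psi_bY (y₀ y : Y) : t03Psi X y₀ (bY y) = FreeGroup.of none * t03bp X y₀ y := by
  unfold t03Psi bY
  rw [FreeGroup.lift_apply_of]
  rfl

theorem t03Phi_inj (y₀ : Y) : Function.Injective (t03Phi X y₀) := by
  have h : (t03Psi X y₀).comp (t03Phi X y₀) = MonoidHom.id _ := by
    ext z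
    rw [MonoidHom.comp_apply, MonoidHom.id_apply]
    unfold t03Phi
    rw [FreeGroup.lift_apply_of]
    rcases z with _ | x | y
    · change t03Psi X y₀ (bY y₀) = _
      rw [t03Psi_bY, t03bp_self, mul_one]
    · change t03Psi X y₀ (FreeGroup.of (Sum.inl x)) = _
      unfold t03Psi
      rw [FreeGroup.lift_apply_of]
      rfl
    · change t03Psi X y₀ ((bY y₀)⁻¹ * bY y.1) = _
      rw [map_mul, map_inv, t03Psi_bY, t03Psi_bY, t03bp_self, mul_one, inv_mul_cancel_left,
        t03bp_ne]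
  intro a b hab
  have h2 := congrArg (t03Psi X y₀) hab
  rw [← MonoidHom.comp_apply, ← MonoidHom.comp_apply, h] at h2
  exact h2

theorem t03Phi_bp (y₀ y : Y) : t03Phi X y₀ (FreeGroup.of none * t03bp X y₀ y) = bY y := by
  rw [map_mul]
  have h1 : t03Phi X y₀ (FreeGroup.of none) = bY y₀ := by
    unfold t03Phi
    rw [FreeGroup.lift_apply_of]
    rfl
  rw [h1]
  by_cases h : y = y₀
  · rw [h, t03bp_self, map_one, mul_one]
  · have h2 : t03bp X y₀ y = FreeGroup.of (some (Sum.inr ⟨y, h⟩)) := dif_neg h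
    rw [h2]
    have h3 : t03Phi X y₀ (FreeGroup.of (some (Sum.inr ⟨y, h⟩))) = (bY y₀)⁻¹ * bY y := by
      unfold t03Phi
      rw [FreeGroup.lift_apply_of]
      rfl
    rw [h3, mul_inv_cancel_left]

theorem t03Phi_aX (y₀ : Y) (α : FreeGroup X) : t03Phi X y₀ (t03aX X y₀ α) = aX α := by
  have h : (t03Phi X y₀).comp (t03aX X y₀) = aX := by
    ext x
    rw [MonoidHom.comp_apply]
    unfold t03aX t03Phi aX
    rw [FreeGroup.map.of, FreeGroup.map.of, FreeGroup.lift_apply_of]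
    rfl
  exact DFunLike.congr_fun h α

theorem t03aX_mem (y₀ : Y) (α : FreeGroup X) : t03aX X y₀ α ∈ AS (T03Z X y₀) := by
  refine ⟨FreeGroup.map Sum.inl α, ?_⟩
  have h : (FreeGroup.map (some : T03Z X y₀ → Option (T03Z X y₀))).comp
      (FreeGroup.map Sum.inl) = t03aX X y₀ := by
    ext x
    rw [MonoidHom.comp_apply]
    unfold t03aX
    rw [FreeGroup.map.of, FreeGroup.map.of, FreeGroup.map.of]
  exact DFunLike.congr_fun h α

theorem t03bp_mem (y₀ y : Y) : t03bp X y₀ y ∈ AS (T03Z X y₀) := by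
  by_cases h : y = y₀
  · rw [h, t03bp_self]
    exact one_mem _
  · have h2 : t03bp X y₀ y = FreeGroup.of (some (Sum.inr ⟨y, h⟩)) := dif_neg h
    rw [h2]
    exact ⟨FreeGroup.of (Sum.inr ⟨y, h⟩), FreeGroup.map.of⟩

theorem t03aX_inj (y₀ : Y) : Function.Injective (t03aX X y₀) := by
  unfold t03aX
  refine FreeGroup.map_injective ?_
  intro a b hab
  exact Sum.inl_injective (Option.some_injective _ hab)

/-- images of the generators in `ℤ^Y` -/
def t03hv (y₀ : Y) : Option (T03Z X y₀) → Multiplicative (Y → ℤ)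
  | none => 1
  | some (Sum.inl _) => 1
  | some (Sum.inr y) => Multiplicative.ofAdd (Pi.single y.1 1 - Pi.single y₀ 1)

/-- the homomorphism to `ℤ^Y` -/
def t03h (y₀ : Y) : T03G X y₀ →* Multiplicative (Y → ℤ) := FreeGroup.lift (t03hv X y₀)

theorem t03h_bp (y₀ y : Y) :
    t03h X y₀ (t03bp X y₀ y) = Multiplicative.ofAdd (Pi.single y 1 - Pi.single y₀ 1) := by
  by_cases h : y = y₀
  · rw [h, t03bp_self, map_one, sub_self]
    rfl
  · have h2 : t03bp X y₀ y = FreeGroup.of (some (Sum.inr ⟨y, h⟩)) := dif_neg h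
    rw [h2]
    unfold t03h
    rw [FreeGroup.lift_apply_of]
    rfl

theorem t03h_aX (y₀ : Y) (α : FreeGroup X) : t03h X y₀ (t03aX X y₀ α) = 1 := by
  have h : (t03h X y₀).comp (t03aX X y₀) = 1 := by
    ext x
    rw [MonoidHom.comp_apply]
    unfold t03aX t03h
    rw [FreeGroup.map.of, FreeGroup.lift_apply_of]
    rfl
  exact DFunLike.congr_fun h α

theorem t03h_pair (y₀ y y' : Y) :
    t03h X y₀ ((t03bp X y₀ y)⁻¹ * t03bp X y₀ y') =
      Multiplicative.ofAdd (Pi.single y' 1 - Pi.single y 1) := by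
  rw [map_mul, map_inv, t03h_bp, t03h_bp, ← ofAdd_neg, ← ofAdd_add]
  congr 1
  abel

theorem t03_val (y y' z z' : Y) (hy : y ≠ y')
    (h : (Pi.single z' 1 - Pi.single z 1 : Y → ℤ) = Pi.single y' 1 - Pi.single y 1) :
    z = y ∧ z' = y' := by
  have h1 := congrFun h y
  have h2 := congrFun h y'
  rw [Pi.sub_apply, Pi.sub_apply, Pi.single_apply, Pi.single_apply, Pi.single_apply,
    Pi.single_apply] at h1 h2
  rw [if_neg hy, if_pos rfl] at h1
  rw [if_pos rfl, if_neg hy.symm] at h2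
  constructor
  · by_contra hz
    have e : ¬ y = z := fun e => hz e.symm
    rw [if_neg e] at h1
    split_ifs at h1 <;> omega
  · by_contra hz
    have e : ¬ y' = z' := fun e => hz e.symm
    rw [if_neg e] at h2
    split_ifs at h2 <;> omega

theorem t03_sep {y₀ y y' z z' : Y} (hy : y ≠ y')
    (h : (t03bp X y₀ y)⁻¹ * t03bp X y₀ y' = (t03bp X y₀ z)⁻¹ * t03bp X y₀ z') :
    z = y ∧ z' = y' := by
  have h1 := congrArg (t03h X y₀) h
  rw [t03h_pair, t03h_pair] at h1
  exact t03_val y y' z z' hy (Multiplicative.ofAdd.injective h1).symm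

theorem t03_ne_aX {y₀ y y' : Y} (hy : y ≠ y') (α : FreeGroup X) :
    (t03bp X y₀ y)⁻¹ * t03bp X y₀ y' ≠ t03aX X y₀ α := by
  intro h
  have h1 := congrArg (t03h X y₀) h
  rw [t03h_pair, t03h_aX] at h1
  have h2 : (Pi.single y' 1 - Pi.single y 1 : Y → ℤ) = 0 := h1
  have h3 := congrFun h2 y
  rw [Pi.sub_apply, Pi.single_apply, Pi.single_apply, Pi.zero_apply, if_neg hy, if_pos rfl] at h3
  omega

end grp

variable {X Y : Type*} [Fintype X] [DecidableEq X] [Fintype Y] [DecidableEq Y]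
variable (lst : Y → List (FreeGroup X × Y))

/-- `F` -/
noncomputable def t03F (y₀ : Y) : Matrix (KM lst) (KM lst) (MonoidAlgebra ℂ (T03G X y₀)) :=
  fun κ μ => MonoidAlgebra.single (FreeGroup.of none * t03bp X y₀ (el lst κ)) (SM lst κ μ)
    - (if κ = μ then MonoidAlgebra.single (t03aX X y₀ (al lst κ))⁻¹ 1 else 0)

theorem t03_map (y₀ : Y) : mapM (t03Phi X y₀) (t03F lst y₀) = fhat lst := by
  ext1 κ μ
  change MonoidAlgebra.mapDomainRingHom ℂ (t03Phi X y₀) (t03F lst y₀ κ μ) = _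
  unfold t03F fhat
  rw [map_sub, MonoidAlgebra.mapDomainRingHom_apply, MonoidAlgebra.mapDomain_single, t03Phi_bp]
  split_ifs
  · rw [MonoidAlgebra.mapDomainRingHom_apply, MonoidAlgebra.mapDomain_single, map_inv, t03Phi_aX]
  · rw [map_zero]

/-- `a₀` -/
noncomputable def t03a0 (y₀ : Y) : Matrix (KM lst) (KM lst) (N (T03G X y₀)) :=
  -(Matrix.diagonal fun κ => lamG (t03aX X y₀ (al lst κ))⁻¹)

/-- `a₁` -/
noncomputable def t03a1 (y₀ : Y) : Matrix (KM lst) (KM lst) (N (T03G X y₀)) :=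
  (Matrix.diagonal fun κ => lamG (t03bp X y₀ (el lst κ))) * scal (N (T03G X y₀)) (SM lst)

theorem t03_lamM (y₀ : Y) :
    lamM (t03F lst y₀) = fm (lamG (FreeGroup.of none)) (t03a0 lst y₀) (t03a1 lst y₀) := by
  ext1 κ μ
  refine Eq.trans ?_ (t03g_fm (lamG (FreeGroup.of none) : N (T03G X y₀))
    (fun κ => lamG (t03bp X y₀ (el lst κ))) (fun κ => lamG (t03aX X y₀ (al lst κ))⁻¹)
    (SM lst) κ μ).symm
  change lam (t03F lst y₀ κ μ) = _
  unfold t03F
  rw [map_sub, lam_single, ← map_mul]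
  congr 1
  split_ifs
  · rw [lam_single, one_smul]
  · rw [map_zero]

theorem t03_SMH : (SM lst)ᴴ = (SM lst)ᵀ := by
  ext1 κ μ
  rw [Matrix.conjTranspose_apply, Matrix.transpose_apply]
  unfold SM
  rw [star_sub]
  split_ifs <;> simp

theorem t03_cancel (hl : Function.Injective (lastY lst)) {W : Matrix (KM lst) (KM lst) ℂ}
    (h : (SM lst)ᴴ * W * SM lst = 0) : W = 0 := by
  have h1 : IsUnit (SM lst) := (Matrix.isUnit_iff_isUnit_det _).2
    (isUnit_iff_ne_zero.2 (SM_det_ne_zero lst hl))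
  have h2 : IsUnit (SM lst)ᴴ := h1.star
  have h3 : (SM lst)ᴴ * W = 0 := by
    have h4 : (SM lst)ᴴ * W * SM lst = 0 * SM lst := by rw [h, zero_mul]
    exact h1.mul_right_cancel h4
  have h5 : (SM lst)ᴴ * W = (SM lst)ᴴ * 0 := by rw [h3, mul_zero]
  exact h2.mul_left_cancel h5

/-- the part of `Z` at `g`, left side -/
def t03L (y₀ : Y) (g : T03G X y₀) (Z : Matrix (KM lst) (KM lst) ℂ) :
    Matrix (KM lst) (KM lst) ℂ := fun κ μ =>
  if g = t03aX X y₀ (al lst κ) * (t03aX X y₀ (al lst μ))⁻¹ then Z κ μ else 0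

/-- the part of `Z` at `g`, right side -/
def t03R (y₀ : Y) (g : T03G X y₀) (Z : Matrix (KM lst) (KM lst) ℂ) :
    Matrix (KM lst) (KM lst) ℂ := fun a b =>
  if g = (t03bp X y₀ (el lst a))⁻¹ * t03bp X y₀ (el lst b) then Z a b else 0

/-- the comparison of the coefficients -/
theorem t03_coeff (y₀ : Y) (g : T03G X y₀) {Z : Matrix (KM lst) (KM lst) ℂ}
    (h : (t03a0 lst y₀)ᴴ * scal (N (T03G X y₀)) Z * t03a0 lst y₀ =
      (t03a1 lst y₀)ᴴ * scal (N (T03G X y₀)) Z * t03a1 lst y₀) :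
    t03L lst y₀ g Z = (SM lst)ᴴ * t03R lst y₀ g Z * SM lst := by
  have h1 := congrArg (t03co g) h
  have h2 : t03co g ((t03a0 lst y₀)ᴴ * scal (N (T03G X y₀)) Z * t03a0 lst y₀) =
      t03L lst y₀ g Z := by
    refine (congrArg (t03co g) (t03g_neg
      (fun κ => (lamG (t03aX X y₀ (al lst κ))⁻¹ : N (T03G X y₀))) Z)).trans ?_
    rw [t03co_diag]
    ext1 κ μ
    unfold t03L
    rw [inv_inv]
  have h3 : t03co g ((t03a1 lst y₀)ᴴ * scal (N (T03G X y₀)) Z * t03a1 lst y₀) =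
      (SM lst)ᴴ * t03R lst y₀ g Z * SM lst := by
    refine (congrArg (t03co g) (t03g_conj (Matrix.diagonal fun κ =>
      (lamG (t03bp X y₀ (el lst κ)) : N (T03G X y₀))) Z (SM lst))).trans ?_
    rw [t03co_scal_mul, t03co_mul_scal, ← Matrix.mul_assoc, t03co_diag]
    rfl
  rw [h2, h3] at h1
  exact h1

theorem exists_LB_fhat [Nonempty (KM lst)] (hl : Function.Injective (lastY lst))
    (hcomb : ∀ Z : Matrix (KM lst) (KM lst) ℂ, Z.PosSemidef →
      (∀ κ μ, Z κ μ ≠ 0 → el lst κ = el lst μ ∧ al lst κ = al lst μ) →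
      Z = (SM lst)ᵀ * Z * SM lst → Z = 0) :
    ∃ c : ℝ, 0 < c ∧ LB (fhat lst) c := by
  obtain ⟨κ₀⟩ := ‹Nonempty (KM lst)›
  obtain ⟨y₀, -⟩ : ∃ y₀ : Y, y₀ = κ₀.1 := ⟨_, rfl⟩
  have hne : Nonempty (KM lst) := ⟨κ₀⟩
  obtain ⟨U, hUu, hUA⟩ := exists_UF (T03Z X y₀)
  have hlam : ∀ h ∈ AS (T03Z X y₀), (lamG h : N (T03G X y₀)) ∈ U.A := by
    intro h hh
    rw [hUA]
    intro g hg
    rw [co_lamG]
    exact if_neg fun e => hg (by rw [e]; exact hh)
  obtain ⟨c, hc, hb⟩ := matrix_bound U trN_one trN_faithful (a₀ := t03a0 lst y₀)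
    (a₁ := t03a1 lst y₀)
    (t03g_EntIn_neg U.A (t03g_EntIn_diag U.A fun κ =>
      hlam _ (inv_mem (t03aX_mem X y₀ (al lst κ)))))
    (EntIn.mul U.A (t03g_EntIn_diag U.A fun κ => hlam _ (t03bp_mem X y₀ (el lst κ)))
      (EntIn_scal U.A _))
    (t03g_neg_unit (t03_diag_unit _))
    (t03g_mul_unit (t03_diag_unit _) (SM_det_ne_zero lst hl))
    (by
      refine le_of_eq ?_
      refine ((DM_neg (trN (T03G X y₀)) _).trans (t03_diag_DM _)).symm)
    (by
      have h := t03g_DM (trN (T03G X y₀)) (t03_diag_unit fun κ => t03bp X y₀ (el lst κ))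
        (t03_diag_DM _) (SM_det_ne_zero lst hl)
      have h2 : 0 ≤ (trN (T03G X y₀)).mass * Real.log ‖(SM lst).det‖ := by
        rw [trN_mass, one_mul]
        exact Real.log_nonneg (one_le_norm_SM_det lst hl)
      rw [← h] at h2
      exact h2)
    (by
      intro Z hZ h
      have hc := fun g => t03_coeff lst y₀ g h
      have hel : ∀ a b, el lst a ≠ el lst b → Z a b = 0 := by
        intro a b hab
        have h1 := hc ((t03bp X y₀ (el lst a))⁻¹ * t03bp X y₀ (el lst b))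
        have h2 : t03L lst y₀ ((t03bp X y₀ (el lst a))⁻¹ * t03bp X y₀ (el lst b)) Z = 0 := by
          ext1 κ μ
          refine if_neg ?_
          rw [← map_inv, ← map_mul]
          exact t03_ne_aX X hab _
        rw [h2] at h1
        have h3 := t03_cancel lst hl h1.symm
        have h4 := congrFun (congrFun h3 a) b
        have h5 : (if (t03bp X y₀ (el lst a))⁻¹ * t03bp X y₀ (el lst b) =
            (t03bp X y₀ (el lst a))⁻¹ * t03bp X y₀ (el lst b) then Z a b else 0) = 0 := h4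
        rw [if_pos rfl] at h5
        exact h5
      have hone : ∀ κ μ, (if al lst κ = al lst μ then Z κ μ else 0) =
          ((SM lst)ᴴ * Z * SM lst) κ μ := by
        intro κ μ
        have h1 := congrFun (congrFun (hc 1) κ) μ
        have h2 : t03R lst y₀ 1 Z = Z := by
          ext1 a b
          by_cases hab : el lst a = el lst b
          · refine if_pos ?_
            rw [hab, inv_mul_cancel]
          · unfold t03R
            rw [hel a b hab]
            exact ite_self 0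
        rw [h2] at h1
        rw [← h1]
        by_cases e : al lst κ = al lst μ
        · rw [if_pos e]
          refine (if_pos ?_).symm
          rw [e, mul_inv_cancel]
        · rw [if_neg e]
          refine (if_neg fun e' => e ?_).symm
          exact t03aX_inj X y₀ (mul_inv_eq_one.1 e'.symm)
      have hal : ∀ κ μ, al lst κ ≠ al lst μ → Z κ μ = 0 := by
        intro κ μ hκμ
        have h1 := congrFun (congrFun
          (hc (t03aX X y₀ (al lst κ) * (t03aX X y₀ (al lst μ))⁻¹)) κ) μ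
        have h2 : t03R lst y₀ (t03aX X y₀ (al lst κ) * (t03aX X y₀ (al lst μ))⁻¹) Z = 0 := by
          ext1 a b
          by_cases hab : el lst a = el lst b
          · refine if_neg ?_
            rw [hab, inv_mul_cancel]
            intro e
            exact hκμ (t03aX_inj X y₀ (mul_inv_eq_one.1 e))
          · unfold t03R
            rw [hel a b hab]
            exact ite_self 0
        rw [h2, Matrix.mul_zero, Matrix.zero_mul] at h1
        have h3 : (if t03aX X y₀ (al lst κ) * (t03aX X y₀ (al lst μ))⁻¹ =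
            t03aX X y₀ (al lst κ) * (t03aX X y₀ (al lst μ))⁻¹ then Z κ μ else 0) = 0 := h1
        rw [if_pos rfl] at h3
        exact h3
      refine hcomb Z hZ ?_ ?_
      · intro κ μ hκμ
        constructor
        · by_contra e
          exact hκμ (hel κ μ e)
        · by_contra e
          exact hκμ (hal κ μ e)
      · ext1 κ μ
        rw [← t03_SMH, ← hone κ μ]
        split_ifs with e
        · rfl
        · exact hal κ μ e)
  refine ⟨c, hc, ?_⟩
  rw [← t03_map lst y₀]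
  refine LB_mapM _ (t03Phi_inj X y₀) ?_
  intro ε hε
  have h := hb ε hε
  rw [hUu, ← t03_lamM] at h
  exact h

end LT
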