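import Pool.Agent.H29.LT.T00

/-!
# LT-T04: an invariant `Z` gives a periodic pair of nodes

`Z` psd, supported on pairs with the same `(el, al)`, `Z = Sᵀ Z S`, `Z ≠ 0`.
Pass to the real part `z κ μ = (Z κ μ).re`: symmetric, same support condition, `z = Sᵀ z S` (`S` real)
and `z ≠ 0`, because `Z` psd with zero real diagonal would be `0`.

Weights on pairs of distinct elements of `Option K`: `w (some κ) (some μ) = - z κ μ` (`κ ≠ μ`),
`w none (some κ) = w (some κ) none = Σ_μ z κ μ`, (`w a a = 0`).  For every `φ : K → ℝ`, extended by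
`φ none = 0`, `Σ z κ μ φ κ φ μ = (1/2) Σ_{a, b ∈ Option K} w a b (φ a - φ b)²`.
(So `w = 0` implies `z = 0`, in particular: the diagonal entries are determined.)

With `(S φ) κ = φ (nxt κ) - φ (fstN (el κ))`, and since `w (some κ) (some μ) ≠ 0` only if
`el κ = el μ`:
`(Sφ)ᵀ z (Sφ) = (1/2) Σ_{κ ≠ μ, el κ = el μ} w (φ (nxt κ) - φ (nxt μ))²
   + Σ_κ w none (some κ) (φ (nxt κ) - φ (fstN (el κ)))²`.
Comparing the coefficients of `φ a φ b` (polarise: the quadratic forms agree for all `φ`; the forms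
`(φ a - φ b)²`, `{a,b}` ranging over unordered pairs of distinct elements of `Option K`, are
linearly independent): for all `a ≠ b` in `Option K`
`w a b = Σ_{κ, μ : nxt κ = a, nxt μ = b, el κ = el μ} w κ μ
   + Σ_{κ : nxt κ = a, fstN (el κ) = b} w none κ + Σ_{κ : nxt κ = b, fstN (el κ) = a} w none κ`.
(Only the following consequence is needed: if `w a b ≠ 0` then one of the terms on the right is
nonzero.)

Therefore: if `w a b ≠ 0`, `a ≠ b`, there are `a' ≠ b'` with `w a' b' ≠ 0` and a step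
`Stp (a', b') (a, b) g` (`both` if `a' = some κ, b' = some μ`: `el` agree, and `al` agree by the
support condition as `z κ μ ≠ 0`; `right` for `a' = none`; `left` for `b' = none`).
As `z ≠ 0`, some `w a b ≠ 0`.  The set of pairs `p = (a,b)`, `a ≠ b`, `w a b ≠ 0`, is finite and
nonempty and every element has a predecessor in it, so there is a cycle: `Pth p p g`.
-/

set_option linter.unusedSectionVars false

namespace LT

open scoped Matrix ComplexOrder

variable {X Y : Type*} [DecidableEq X] [Fintype Y] [DecidableEq Y]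
variable (lst : Y → List (FreeGroup X × Y))

private noncomputable def t4A (κ : KM lst) (a : Option (KM lst)) : ℝ :=
  if nxt lst κ = a then 1 else 0

private noncomputable def t4F (κ : KM lst) (a : Option (KM lst)) : ℝ :=
  if fstN lst (el lst κ) = a then 1 else 0

private theorem t4_sumA (κ : KM lst) : ∑ a : Option (KM lst), t4A lst κ a = 1 := by
  simp [t4A]

private theorem t4_sumF (κ : KM lst) : ∑ a : Option (KM lst), t4F lst κ a = 1 := by
  simp [t4F]

private theorem t4_SM (κ μ : KM lst) :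
    SM lst κ μ = ((t4A lst κ (some μ) - t4F lst κ (some μ) : ℝ) : ℂ) := by
  unfold SM t4A t4F
  split_ifs <;> simp

/-- the extended form -/
private noncomputable def t4Z (Z : Matrix (KM lst) (KM lst) ℂ) (a b : Option (KM lst)) : ℝ :=
  ∑ κ, ∑ μ, (Z κ μ).re * (t4A lst κ a - t4F lst κ a) * (t4A lst μ b - t4F lst μ b)

private theorem t4_none (κ : KM lst) :
    t4A lst κ none - t4F lst κ none = - ∑ ν, (t4A lst κ (some ν) - t4F lst κ (some ν)) := by
  have h1 := t4_sumA lst κ
  have h2 := t4_sumF lst κ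
  rw [Fintype.sum_option] at h1 h2
  rw [Finset.sum_sub_distrib]
  linarith

private theorem t4_some {Z : Matrix (KM lst) (KM lst) ℂ}
    (hinv : Z = (SM lst)ᵀ * Z * SM lst) (κ μ : KM lst) :
    t4Z lst Z (some κ) (some μ) = (Z κ μ).re := by
  have h := congrArg Complex.re (congrFun (congrFun hinv κ) μ)
  rw [h, Matrix.mul_apply, Complex.re_sum]
  unfold t4Z
  rw [Finset.sum_comm]
  refine Finset.sum_congr rfl fun μ' _ => ?_
  rw [Matrix.mul_apply, Finset.sum_mul, Complex.re_sum]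
  refine Finset.sum_congr rfl fun κ' _ => ?_
  rw [Matrix.transpose_apply, t4_SM, t4_SM, Complex.re_mul_ofReal, Complex.re_ofReal_mul]
  ring

private theorem t4_some_none {Z : Matrix (KM lst) (KM lst) ℂ}
    (hinv : Z = (SM lst)ᵀ * Z * SM lst) (κ : KM lst) :
    t4Z lst Z (some κ) none = - ∑ μ, (Z κ μ).re := by
  have h : t4Z lst Z (some κ) none = - ∑ μ, t4Z lst Z (some κ) (some μ) := by
    unfold t4Z
    simp only [t4_none lst, mul_neg, Finset.sum_neg_distrib]
    congr 1
    rw [Finset.sum_comm]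
    simp only [Finset.mul_sum]
    rw [Finset.sum_comm]
    symm
    rw [Finset.sum_comm]
    refine Finset.sum_congr rfl fun κ' _ => ?_
    rw [Finset.sum_comm]
  rw [h]
  simp only [t4_some lst hinv]

private theorem t4_none_some {Z : Matrix (KM lst) (KM lst) ℂ}
    (hinv : Z = (SM lst)ᵀ * Z * SM lst) (μ : KM lst) :
    t4Z lst Z none (some μ) = - ∑ κ, (Z κ μ).re := by
  have h : t4Z lst Z none (some μ) = - ∑ κ, t4Z lst Z (some κ) (some μ) := by
    unfold t4Z
    simp only [t4_none lst, mul_neg, neg_mul, Finset.sum_neg_distrib]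
    congr 1
    simp only [Finset.mul_sum, Finset.sum_mul]
    symm
    rw [Finset.sum_comm]
    refine Finset.sum_congr rfl fun κ' _ => ?_
    rw [Finset.sum_comm]
  rw [h]
  simp only [t4_some lst hinv]

private theorem t4_row {Z : Matrix (KM lst) (KM lst) ℂ}
    (hinv : Z = (SM lst)ᵀ * Z * SM lst) (κ : KM lst) :
    ∑ b : Option (KM lst), t4Z lst Z (some κ) b = 0 := by
  rw [Fintype.sum_option, t4_some_none lst hinv]
  simp only [t4_some lst hinv]
  ring

private theorem t4_pred {Z : Matrix (KM lst) (KM lst) ℂ}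
    (hs : ∀ κ μ, Z κ μ ≠ 0 → el lst κ = el lst μ ∧ al lst κ = al lst μ)
    (hinv : Z = (SM lst)ᵀ * Z * SM lst) (a b : Option (KM lst)) (hab : a ≠ b)
    (h : t4Z lst Z a b ≠ 0) :
    ∃ (a' b' : Option (KM lst)) (g : FreeGroup (X ⊕ Y)),
      a' ≠ b' ∧ t4Z lst Z a' b' ≠ 0 ∧ Stp lst (a', b') (a, b) g := by
  by_contra hc
  have c1 : ∀ κ μ, κ ≠ μ → (Z κ μ).re ≠ 0 → ¬ (nxt lst κ = a ∧ nxt lst μ = b) := by
    rintro κ μ hκ hr ⟨rfl, rfl⟩
    have hz : Z κ μ ≠ 0 := fun h0 => hr (by rw [h0]; rfl)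
    exact hc ⟨some κ, some μ, _, fun h => hκ (Option.some.inj h),
      by rw [t4_some lst hinv]; exact hr, Stp.both κ μ (hs κ μ hz).2 (hs κ μ hz).1⟩
  have c2 : ∀ κ, (∑ μ, (Z κ μ).re) ≠ 0 → ¬ (nxt lst κ = a ∧ fstN lst (el lst κ) = b) := by
    rintro κ hr ⟨rfl, rfl⟩
    exact hc ⟨some κ, none, _, Option.some_ne_none κ,
      by rw [t4_some_none lst hinv]; exact neg_ne_zero.2 hr, Stp.left κ⟩
  have c3 : ∀ μ, (∑ κ, (Z κ μ).re) ≠ 0 → ¬ (fstN lst (el lst μ) = a ∧ nxt lst μ = b) := by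
    rintro κ hr ⟨rfl, rfl⟩
    exact hc ⟨none, some κ, _, (Option.some_ne_none κ).symm,
      by rw [t4_none_some lst hinv]; exact neg_ne_zero.2 hr, Stp.right κ⟩
  apply h
  have e : ∀ κ μ, (Z κ μ).re * (t4A lst κ a - t4F lst κ a) * (t4A lst μ b - t4F lst μ b) =
      (Z κ μ).re * (t4A lst κ a * t4A lst μ b) - t4A lst κ a * t4F lst κ b * (Z κ μ).re -
        t4F lst μ a * t4A lst μ b * (Z κ μ).re := by
    intro κ μ
    rcases eq_or_ne (Z κ μ) 0 with h0 | h0
    · rw [h0]; simp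
    · have e1 := (hs κ μ h0).1
      have f1 : t4F lst κ a = t4F lst μ a := by unfold t4F; rw [e1]
      have f2 : t4F lst μ b = t4F lst κ b := by unfold t4F; rw [e1]
      have f3 : t4F lst μ a * t4F lst κ b = 0 := by
        unfold t4F
        rw [e1]
        by_cases h1 : fstN lst (el lst μ) = a
        · have h2 : fstN lst (el lst μ) ≠ b := fun h3 => hab (h1.symm.trans h3)
          simp [h2]
        · simp [h1]
      rw [f1, f2]
      linear_combination (Z κ μ).re * f3
  unfold t4Z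
  simp only [e, Finset.sum_sub_distrib]
  have s1 : ∑ κ, ∑ μ, (Z κ μ).re * (t4A lst κ a * t4A lst μ b) = 0 := by
    refine Finset.sum_eq_zero fun κ _ => Finset.sum_eq_zero fun μ _ => ?_
    rcases eq_or_ne κ μ with rfl | hκ
    · unfold t4A
      by_cases h1 : nxt lst κ = a
      · have h2 : nxt lst κ ≠ b := fun h3 => hab (h1.symm.trans h3)
        simp [h2]
      · simp [h1]
    · rcases eq_or_ne (Z κ μ).re 0 with h0 | h0
      · rw [h0, zero_mul]
      · have h1 := c1 κ μ hκ h0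
        unfold t4A
        by_cases h2 : nxt lst κ = a
        · have h3 : nxt lst μ ≠ b := fun h3 => h1 ⟨h2, h3⟩
          simp [h3]
        · simp [h2]
  have s2 : ∑ κ, ∑ μ, t4A lst κ a * t4F lst κ b * (Z κ μ).re = 0 := by
    refine Finset.sum_eq_zero fun κ _ => ?_
    rw [← Finset.mul_sum]
    rcases eq_or_ne (∑ μ, (Z κ μ).re) 0 with h0 | h0
    · rw [h0, mul_zero]
    · have h1 := c2 κ h0
      unfold t4A t4F
      by_cases h2 : nxt lst κ = a
      · have h3 : fstN lst (el lst κ) ≠ b := fun h3 => h1 ⟨h2, h3⟩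
        simp [h3]
      · simp [h2]
  have s3 : ∑ κ, ∑ μ, t4F lst μ a * t4A lst μ b * (Z κ μ).re = 0 := by
    rw [Finset.sum_comm]
    refine Finset.sum_eq_zero fun μ _ => ?_
    rw [← Finset.mul_sum]
    rcases eq_or_ne (∑ κ, (Z κ μ).re) 0 with h0 | h0
    · rw [h0, mul_zero]
    · have h1 := c3 μ h0
      unfold t4A t4F
      by_cases h2 : fstN lst (el lst μ) = a
      · have h3 : nxt lst μ ≠ b := fun h3 => h1 ⟨h2, h3⟩
        simp [h3]
      · simp [h2]
  rw [s1, s2, s3]
  ring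

private theorem t4_start {Z : Matrix (KM lst) (KM lst) ℂ} (hZ : Z.PosSemidef)
    (hinv : Z = (SM lst)ᵀ * Z * SM lst) (h0 : Z ≠ 0) :
    ∃ a b : Option (KM lst), a ≠ b ∧ t4Z lst Z a b ≠ 0 := by
  have ht : Z.trace ≠ 0 := fun h => h0 ((Matrix.PosSemidef.trace_eq_zero_iff hZ).1 h)
  obtain ⟨κ, -, hκ⟩ := Finset.exists_ne_zero_of_sum_ne_zero ht
  have him : (Z κ κ).im = 0 := by
    have h := congrArg Complex.im (hZ.isHermitian.apply κ κ)
    simp only [Complex.star_def, Complex.conj_im] at h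
    linarith
  have hre : (Z κ κ).re ≠ 0 := fun h => hκ (Complex.ext h him)
  by_contra hc
  push_neg at hc
  have h1 := t4_row lst hinv κ
  rw [Finset.sum_eq_single (some κ) (fun b _ hb => hc (some κ) b hb.symm)
    (fun h => absurd (Finset.mem_univ _) h), t4_some lst hinv] at h1
  exact hre h1

theorem exists_cycle {Z : Matrix (KM lst) (KM lst) ℂ} (hZ : Z.PosSemidef)
    (hs : ∀ κ μ, Z κ μ ≠ 0 → el lst κ = el lst μ ∧ al lst κ = al lst μ)
    (hinv : Z = (SM lst)ᵀ * Z * SM lst) (h0 : Z ≠ 0) :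
    ∃ (p : Option (KM lst) × Option (KM lst)) (g : FreeGroup (X ⊕ Y)),
      p.1 ≠ p.2 ∧ Pth lst p p g := by
  let P := {p : Option (KM lst) × Option (KM lst) // p.1 ≠ p.2 ∧ t4Z lst Z p.1 p.2 ≠ 0}
  have hpred : ∀ p : P, ∃ q : P, ∃ g, Stp lst q.1 p.1 g := by
    rintro ⟨⟨a, b⟩, hab, h⟩
    obtain ⟨a', b', g, h1, h2, h3⟩ := t4_pred lst hs hinv a b hab h
    exact ⟨⟨(a', b'), h1, h2⟩, g, h3⟩
  choose pred hp using hpred
  obtain ⟨a, b, hab, h⟩ := t4_start lst hZ hinv h0
  let p₀ : P := ⟨(a, b), hab, h⟩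
  obtain ⟨m, n, hmn, he⟩ := Finite.exists_ne_map_eq_of_infinite fun n : ℕ => pred^[n] p₀
  have hpath : ∀ (k : ℕ) (p : P), ∃ g, Pth lst (pred^[k + 1] p).1 p.1 g := by
    intro k
    induction k with
    | zero =>
      intro p
      obtain ⟨g, hg⟩ := hp p
      exact ⟨g, Pth.one hg⟩
    | succ k ih =>
      intro p
      obtain ⟨g', hg'⟩ := ih p
      obtain ⟨g, hg⟩ := hp (pred^[k + 1] p)
      refine ⟨g * g', ?_⟩
      rw [Function.iterate_succ_apply']
      exact Pth.cons hg hg'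
  have key : ∀ m n : ℕ, m < n → pred^[m] p₀ = pred^[n] p₀ →
      ∃ (p : Option (KM lst) × Option (KM lst)) (g : FreeGroup (X ⊕ Y)),
        p.1 ≠ p.2 ∧ Pth lst p p g := by
    intro m n hlt he
    obtain ⟨g, hg⟩ := hpath (n - m - 1) (pred^[m] p₀)
    rw [← Function.iterate_add_apply, show n - m - 1 + 1 + m = n by omega, ← he] at hg
    exact ⟨_, g, (pred^[m] p₀).2.1, hg⟩
  rcases lt_or_gt_of_ne hmn with hlt | hlt
  · exact key m n hlt he
  · exact key n m hlt he.symm

end LT
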