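import Pool.Agent.H29.LT.T00

/-!
# LT-T05: paths of pairs of nodes and cosets of `C`

* `Stp_coset`: for a step with label `g = α_κ b_{el κ}`:
  from `some κ` to `nxt κ`: if `nxt κ = some μ` then `QM (some μ) = QM (some κ) * α_κ * b_{el κ}`
  (`List.take (i+1)`), so the product is `1`; if `nxt κ = none` then `QM (some κ) * α_κ * b_{el κ} =
  WM κ.1 ∈ C`.
  From `none` to `fstN (el κ)`: `α_κ ∈ C`, and `QM (fstN y) = b_y` if `fstN y ≠ none`, while
  `WM y = b_y ∈ C` if `fstN y = none`.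
* `Pth_coset`: induction (`CM lst` is a subgroup).
* `Pth_ne_one`: the homomorphism `x ↦ 1`, `b_y ↦ ofAdd 1` maps every step label to `ofAdd 1`, so a
  path label goes to `ofAdd n` with `n ≥ 1`.
-/

set_option linter.unusedSectionVars false

namespace LT

variable {X Y : Type*} [DecidableEq X] [DecidableEq Y]
variable (lst : Y → List (FreeGroup X × Y))

theorem aX_mem_CM (α : FreeGroup X) : aX α ∈ CM lst := by
  refine ⟨FreeGroup.map Sum.inl α, ?_⟩
  have h : (FreeGroup.lift (cM lst)).comp (FreeGroup.map (Sum.inl : X → X ⊕ Y)) = aX := by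
    ext x
    simp [aX, cM]
  rw [← h]
  rfl

theorem WM_mem_CM (j : Y) : WM lst j ∈ CM lst := by
  refine ⟨FreeGroup.of (Sum.inr j), ?_⟩
  simp [cM]

theorem t05_a (κ : KM lst) :
    QM lst (some κ) * (aX (al lst κ) * bY (el lst κ)) * (QM lst (nxt lst κ))⁻¹ ∈ CM lst := by
  have hlt : κ.2.1 < (lst κ.1).length := κ.2.2
  have htake : tailW ((lst κ.1).take (κ.2.1 + 1)) =
      tailW ((lst κ.1).take κ.2.1) * (aX (al lst κ) * bY (el lst κ)) := by
    unfold tailW
    rw [List.take_succ_eq_append_getElem hlt, List.map_append, List.prod_append]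
    simp [al, el]
  by_cases h : κ.2.1 + 1 < (lst κ.1).length
  · have h1 : nxt lst κ = some ⟨κ.1, ⟨κ.2.1 + 1, h⟩⟩ := by
      unfold nxt
      rw [dif_pos h]
    rw [h1]
    have h2 : QM lst (some (⟨κ.1, ⟨κ.2.1 + 1, h⟩⟩ : KM lst)) =
        QM lst (some κ) * (aX (al lst κ) * bY (el lst κ)) := by
      change bY κ.1 * tailW ((lst κ.1).take (κ.2.1 + 1)) =
        bY κ.1 * tailW ((lst κ.1).take κ.2.1) * (aX (al lst κ) * bY (el lst κ))
      rw [htake, mul_assoc]
    rw [h2, mul_inv_cancel]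
    exact (CM lst).one_mem
  · have h1 : nxt lst κ = none := by
      unfold nxt
      rw [dif_neg h]
    rw [h1]
    have h3 : κ.2.1 + 1 = (lst κ.1).length := by omega
    have h2 : QM lst (some κ) * (aX (al lst κ) * bY (el lst κ)) = WM lst κ.1 := by
      change bY κ.1 * tailW ((lst κ.1).take κ.2.1) * (aX (al lst κ) * bY (el lst κ)) =
        bY κ.1 * tailW (lst κ.1)
      rw [mul_assoc, ← htake, h3, List.take_length]
    rw [h2]
    change WM lst κ.1 * (1 : FreeGroup (X ⊕ Y))⁻¹ ∈ CM lst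
    rw [inv_one, mul_one]
    exact WM_mem_CM lst κ.1

theorem t05_b (y : Y) (α : FreeGroup X) :
    QM lst none * (aX α * bY y) * (QM lst (fstN lst y))⁻¹ ∈ CM lst := by
  have h0 : QM lst none = 1 := rfl
  rw [h0, one_mul]
  by_cases h : 0 < (lst y).length
  · have h1 : fstN lst y = some ⟨y, ⟨0, h⟩⟩ := by
      unfold fstN
      rw [dif_pos h]
    rw [h1]
    have h2 : QM lst (some (⟨y, ⟨0, h⟩⟩ : KM lst)) = bY y := by
      change bY y * tailW ((lst y).take 0) = bY y
      rw [List.take_zero]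
      simp [tailW]
    rw [h2, mul_assoc, mul_inv_cancel, mul_one]
    exact aX_mem_CM lst α
  · have h1 : fstN lst y = none := by
      unfold fstN
      rw [dif_neg h]
    rw [h1, h0, inv_one, mul_one]
    have h3 : lst y = [] := by
      apply List.eq_nil_of_length_eq_zero
      omega
    have h2 : WM lst y = bY y := by
      unfold WM
      rw [h3]
      simp [tailW]
    exact (CM lst).mul_mem (aX_mem_CM lst α) (h2 ▸ WM_mem_CM lst y)

theorem Stp_coset {p q : Option (KM lst) × Option (KM lst)} {g : FreeGroup (X ⊕ Y)}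
    (h : Stp lst p q g) :
    QM lst p.1 * g * (QM lst q.1)⁻¹ ∈ CM lst ∧ QM lst p.2 * g * (QM lst q.2)⁻¹ ∈ CM lst := by
  cases h with
  | both κ μ ha he =>
    refine ⟨t05_a lst κ, ?_⟩
    rw [ha, he]
    exact t05_a lst μ
  | left κ => exact ⟨t05_a lst κ, t05_b lst (el lst κ) (al lst κ)⟩
  | right κ => exact ⟨t05_b lst (el lst κ) (al lst κ), t05_a lst κ⟩

theorem t05_tr {a b c g g' : FreeGroup (X ⊕ Y)} (h : a * g * b⁻¹ ∈ CM lst)
    (h' : b * g' * c⁻¹ ∈ CM lst) : a * (g * g') * c⁻¹ ∈ CM lst := by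
  have e : a * (g * g') * c⁻¹ = (a * g * b⁻¹) * (b * g' * c⁻¹) := by group
  rw [e]
  exact (CM lst).mul_mem h h'

theorem Pth_coset {p q : Option (KM lst) × Option (KM lst)} {g : FreeGroup (X ⊕ Y)}
    (h : Pth lst p q g) :
    QM lst p.1 * g * (QM lst q.1)⁻¹ ∈ CM lst ∧ QM lst p.2 * g * (QM lst q.2)⁻¹ ∈ CM lst := by
  induction h with
  | one h => exact Stp_coset lst h
  | cons h h' ih =>
    have h1 := Stp_coset lst h
    exact ⟨t05_tr lst h1.1 ih.1, t05_tr lst h1.2 ih.2⟩

/-- the length homomorphism in the letters `b_y` -/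
def t05_phi : FreeGroup (X ⊕ Y) →* Multiplicative ℤ :=
  FreeGroup.lift (Sum.elim (fun _ => 1) (fun _ => Multiplicative.ofAdd 1))

theorem t05_phi_g (α : FreeGroup X) (y : Y) :
    t05_phi (aX α * bY y) = Multiplicative.ofAdd (1 : ℤ) := by
  have h1 : (t05_phi (X := X) (Y := Y)).comp aX = 1 := by
    ext x
    simp [t05_phi, aX]
  have h2 : (t05_phi (X := X) (Y := Y)) (aX α) = 1 := by
    have := DFunLike.congr_fun h1 α
    simpa using this
  rw [map_mul, h2, one_mul]
  simp [t05_phi, bY]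

theorem t05_phi_stp {p q : Option (KM lst) × Option (KM lst)} {g : FreeGroup (X ⊕ Y)}
    (h : Stp lst p q g) : t05_phi g = Multiplicative.ofAdd (1 : ℤ) := by
  cases h with
  | both κ μ ha he => exact t05_phi_g _ _
  | left κ => exact t05_phi_g _ _
  | right κ => exact t05_phi_g _ _

theorem t05_phi_pth {p q : Option (KM lst) × Option (KM lst)} {g : FreeGroup (X ⊕ Y)}
    (h : Pth lst p q g) : ∃ n : ℤ, 1 ≤ n ∧ t05_phi g = Multiplicative.ofAdd n := by
  induction h with
  | one h => exact ⟨1, le_refl _, t05_phi_stp lst h⟩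
  | cons h h' ih =>
    obtain ⟨n, hn, hg⟩ := ih
    refine ⟨1 + n, by omega, ?_⟩
    rw [map_mul, t05_phi_stp lst h, hg, ofAdd_add]

theorem Pth_ne_one {p q : Option (KM lst) × Option (KM lst)} {g : FreeGroup (X ⊕ Y)}
    (h : Pth lst p q g) : g ≠ 1 := by
  rintro rfl
  obtain ⟨n, hn, hg⟩ := t05_phi_pth lst h
  rw [map_one, ← ofAdd_zero] at hg
  have := Multiplicative.ofAdd.injective hg
  omega

end LT
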