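import Pool.Agent.H29.LT.T00

/-!
# LT-T06: the words `x, W_j` are a free basis of `C`, and the nodes are distinct cosets

Let `Ω = Option (KM lst × FreeGroup X)` (`none` = base point) and `F' = FreeGroup (X ⊕ Y)`.
We let `B = F(X ⊔ Y)` act from the right on `Ω × F'` (a homomorphism `ρ` from `B` to
`(Equiv.Perm (Ω × F'))ᵐᵒᵖ`, given on generators, so `p · (v w) = (p · v) · w`).
* `x ∈ X`: `(none, f) ↦ (none, f * of (inl x))`, `(some (κ, g), f) ↦ (some (κ, g * of x), f)`.
* `b_y`: the partial map `θ_y` on `Ω` with the finite domain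
  `D_y = {none} ∪ {some (κ, al κ) : el κ = y}`:
  `none ↦ ⟦fstN y⟧`, `some (κ, al κ) ↦ ⟦nxt κ⟧`, where `⟦none⟧ = none`, `⟦some μ⟧ = some (μ, 1)`.
  It is injective on `D_y`: `fstN y` and the `nxt κ` (`el κ = y`) are pairwise different: a first
  node is not a `nxt`, two `nxt` nodes agree only if the nodes agree; and the value `none` is taken at
  most once: `nxt κ = none` with `κ` in the word `j` means `lastY j = el κ = y`, and `fstN y = none`
  means `lst y = []`, `lastY y = y`; use injectivity of `lastY` (and `lst j ≠ []` in the first case).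
  Extend `θ_y` to a permutation `σ_y` of `Ω`: general lemma: for a finite set `D` and `θ` injective
  on `D` there is a permutation of `Ω` agreeing with `θ` on `D` (work in the finite set `D ∪ θ(D)`
  with `Equiv.extendSubtype`, identity outside).
  Cocycle `k_y : Ω → F'`: `k_y none = of (inr y)` if `fstN y = none`, else `1`;
  `k_y (some (κ, al κ)) = of (inr κ.1)` if `el κ = y` and `nxt κ = none`; `1` otherwise.
  `b_y` acts by `(ω, f) ↦ (σ_y ω, f * k_y ω)` (a permutation of `Ω × F'`).
Then by induction along the word: `(none, f) · α = (none, f * α')` (`α' = map inl α`) for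
`α ∈ F(X)`, `(some (κ, g), f) · α = (some (κ, g α), f)`, and `(none, f) · W_j = (none, f * of (inr j))`:
walk through the nodes of `W_j`; more generally `(none, f) · QM a = (⟦a⟧, f)` for every node `a`.
So `(none, f) · (lift cM v) = (none, f * v)` for all `v : F'` (it holds for the generators, hence for
inverses and products).
* `cM_injective`: if `lift cM v = 1` then `(none, 1) = (none, v)`.
* `QM_coset_inj`: if `QM a * (QM b)⁻¹ ∈ C`, `QM a = c * QM b` with `c = lift cM v`; the `Ω`-component
  of `(none, 1) · (c * QM b)` is that of `(none, v) · QM b`, i.e. `⟦b⟧`, and it is also `⟦a⟧`;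
  so `a = b`.
-/

set_option linter.unusedSectionVars false

namespace LT

variable {X Y : Type*} [DecidableEq X] [Fintype Y] [DecidableEq Y]
variable (lst : Y → List (FreeGroup X × Y))

/-- extension of a finite partial injection to a permutation -/
theorem exists_perm_extend {Ω : Type*} (D : Set Ω) (hD : D.Finite) (θ : Ω → Ω)
    (hθ : Set.InjOn θ D) : ∃ σ : Equiv.Perm Ω, ∀ ω ∈ D, σ ω = θ ω := by
  classical
  have hU : (D ∪ θ '' D).Finite := hD.union (hD.image θ)
  obtain ⟨U, hU'⟩ : ∃ U : Finset Ω, ∀ ω, ω ∈ U ↔ ω ∈ D ∨ ω ∈ θ '' D :=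
    ⟨hU.toFinset, fun ω => by rw [Set.Finite.mem_toFinset]; rfl⟩
  let s : Finset {ω // ω ∈ U} := Finset.univ.filter (fun ω => ω.1 ∈ D)
  have h1 : Finset.image (fun ω : {ω // ω ∈ U} => θ ω.1) s ⊆ U := by
    intro z hz
    obtain ⟨ω, hω, rfl⟩ := Finset.mem_image.1 hz
    exact (hU' _).2 (Or.inr ⟨ω.1, (Finset.mem_filter.1 hω).2, rfl⟩)
  have h2 : Set.InjOn (fun ω : {ω // ω ∈ U} => θ ω.1) s := by
    intro a ha b hb hab
    exact Subtype.ext (hθ (Finset.mem_filter.1 ha).2 (Finset.mem_filter.1 hb).2 hab)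
  obtain ⟨g, hg⟩ := Finset.exists_equiv_extend_of_card_eq (Fintype.card_coe U) h1 h2
  let g' : Equiv.Perm {ω // ω ∈ U} := g
  refine ⟨Equiv.Perm.ofSubtype g', ?_⟩
  intro ω hω
  have h3 : ω ∈ U := (hU' ω).2 (Or.inl hω)
  rw [Equiv.Perm.ofSubtype_apply_of_mem g' h3]
  exact hg ⟨ω, h3⟩ (Finset.mem_filter.2 ⟨Finset.mem_univ _, hω⟩)

/-- the point of a node -/
def t06br (a : Option (KM lst)) : Option (KM lst × FreeGroup X) := a.map (fun κ => (κ, 1))

theorem t06_br_inj : Function.Injective (t06br lst) :=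
  Option.map_injective (fun _ _ h => congrArg Prod.fst h)

/-- the partial map of the letter `b_y` -/
def t06th (y : Y) : Option (KM lst × FreeGroup X) → Option (KM lst × FreeGroup X)
  | none => t06br lst (fstN lst y)
  | some p => t06br lst (nxt lst p.1)

/-- its domain -/
def t06D (y : Y) : Set (Option (KM lst × FreeGroup X)) :=
  {ω | ω = none ∨ ∃ κ, el lst κ = y ∧ ω = some (κ, al lst κ)}

theorem t06_lastY_nil {j : Y} (h : fstN lst j = none) : lastY lst j = j := by
  unfold fstN at h
  have h1 : ¬ 0 < (lst j).length := by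
    intro h2
    rw [dif_pos h2] at h
    exact absurd h (Option.some_ne_none _)
  have h2 : lst j = [] := List.eq_nil_of_length_eq_zero (by omega)
  unfold lastY
  rw [h2]
  rfl

theorem t06_nxt_none {κ : KM lst} (h : nxt lst κ = none) :
    (lst κ.1).length = κ.2.1 + 1 := by
  unfold nxt at h
  have h1 : ¬ κ.2.1 + 1 < (lst κ.1).length := by
    intro h2
    rw [dif_pos h2] at h
    exact absurd h (Option.some_ne_none _)
  have h3 := κ.2.2
  omega

theorem t06_lastY_last {κ : KM lst} (h : nxt lst κ = none) : lastY lst κ.1 = el lst κ := by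
  have h1 := t06_nxt_none lst h
  unfold lastY el
  rw [List.getLast?_eq_getElem?, h1, Nat.add_sub_cancel, List.getElem?_eq_getElem κ.2.2]
  rfl

theorem t06_ext {κ μ : KM lst} (h1 : κ.1 = μ.1) (h2 : κ.2.1 = μ.2.1) : κ = μ := by
  obtain ⟨j, i, hi⟩ := κ
  obtain ⟨j', i', hi'⟩ := μ
  have h1' : j = j' := h1
  subst h1'
  have h2' : i = i' := h2
  subst h2'
  rfl

theorem t06_nxt_some {κ a : KM lst} (h : nxt lst κ = some a) :
    a.1 = κ.1 ∧ a.2.1 = κ.2.1 + 1 := by
  unfold nxt at h
  by_cases h1 : κ.2.1 + 1 < (lst κ.1).length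
  · rw [dif_pos h1] at h
    rw [← Option.some.inj h]
    exact ⟨rfl, rfl⟩
  · rw [dif_neg h1] at h
    exact absurd h.symm (Option.some_ne_none _)

theorem t06_fst_some {y : Y} {a : KM lst} (h : fstN lst y = some a) :
    a.1 = y ∧ a.2.1 = 0 := by
  unfold fstN at h
  by_cases h1 : 0 < (lst y).length
  · rw [dif_pos h1] at h
    rw [← Option.some.inj h]
    exact ⟨rfl, rfl⟩
  · rw [dif_neg h1] at h
    exact absurd h.symm (Option.some_ne_none _)

theorem t06_D_fin (y : Y) : (t06D lst y).Finite := by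
  have h1 : (Set.range (fun κ : KM lst => some (κ, al lst κ)) ∪ {none}).Finite :=
    (Set.finite_range _).union (Set.finite_singleton _)
  refine h1.subset ?_
  rintro ω (h | ⟨κ, -, h⟩)
  · exact Or.inr h
  · exact Or.inl ⟨κ, h.symm⟩

theorem t06_ne (hl : Function.Injective (lastY lst)) {y : Y} {κ : KM lst} (h : el lst κ = y) :
    fstN lst y ≠ nxt lst κ := by
  intro h1
  cases h2 : nxt lst κ with
  | none =>
    rw [h2] at h1
    have h3 := t06_lastY_nil lst h1
    have h4 := t06_lastY_last lst h2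
    have h5 : κ.1 = y := hl (by rw [h4, h3, h])
    have h6 : (lst y).length = 0 := by
      by_contra h7
      unfold fstN at h1
      rw [dif_pos (Nat.pos_of_ne_zero h7)] at h1
      exact absurd h1 (Option.some_ne_none _)
    have h7 := κ.2.2
    have h8 : (lst κ.1).length = (lst y).length := congrArg (fun j => (lst j).length) h5
    omega
  | some a =>
    rw [h2] at h1
    have h3 := t06_fst_some lst h1
    have h4 := t06_nxt_some lst h2
    omega

theorem t06_nxt_inj (hl : Function.Injective (lastY lst)) {κ μ : KM lst}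
    (h : el lst κ = el lst μ) (h1 : nxt lst κ = nxt lst μ) : κ = μ := by
  cases h2 : nxt lst κ with
  | none =>
    have h2' : nxt lst μ = none := by rw [← h1, h2]
    have h3 : κ.1 = μ.1 := hl (by rw [t06_lastY_last lst h2, t06_lastY_last lst h2', h])
    refine t06_ext lst h3 ?_
    have h4 := t06_nxt_none lst h2
    have h5 := t06_nxt_none lst h2'
    have h6 : (lst κ.1).length = (lst μ.1).length := congrArg (fun j => (lst j).length) h3
    omega
  | some a =>
    have h2' : nxt lst μ = some a := by rw [← h1, h2]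
    have h3 := t06_nxt_some lst h2
    have h4 := t06_nxt_some lst h2'
    exact t06_ext lst (h3.1.symm.trans h4.1) (by omega)

theorem t06_injOn (hl : Function.Injective (lastY lst)) (y : Y) :
    Set.InjOn (t06th lst y) (t06D lst y) := by
  rintro ω (h1 | ⟨κ, h1, h2⟩) ω' (h3 | ⟨μ, h3, h4⟩) h5
  · rw [h1, h3]
  · rw [h1, h4] at h5
    exact absurd (t06_br_inj lst h5) (t06_ne lst hl h3)
  · rw [h2, h3] at h5
    exact absurd (t06_br_inj lst h5).symm (t06_ne lst hl h1)
  · rw [h2, h4] at h5
    have h6 := t06_nxt_inj lst hl (h1.trans h3.symm) (t06_br_inj lst h5)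
    rw [h2, h4, h6]

/-- the permutation with a cocycle -/
def t06cp {Ω F : Type*} [Group F] (σ : Equiv.Perm Ω) (k : Ω → F) : Equiv.Perm (Ω × F) where
  toFun p := (σ p.1, p.2 * k p.1)
  invFun p := (σ.symm p.1, p.2 * (k (σ.symm p.1))⁻¹)
  left_inv := by
    intro p
    simp
  right_inv := by
    intro p
    simp

theorem t06_act (hl : Function.Injective (lastY lst)) :
    ∃ ρ : FreeGroup (X ⊕ Y) →*
        (Equiv.Perm (Option (KM lst × FreeGroup X) × FreeGroup (X ⊕ Y)))ᵐᵒᵖ,
      (∀ x f, (ρ (FreeGroup.of (Sum.inl x))).unop (none, f) =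
        (none, f * FreeGroup.of (Sum.inl x))) ∧
      (∀ x κ g f, (ρ (FreeGroup.of (Sum.inl x))).unop (some (κ, g), f) =
        (some (κ, g * FreeGroup.of x), f)) ∧
      (∀ y f, fstN lst y = none → (ρ (bY y)).unop (none, f) = (none, f * bY y)) ∧
      (∀ y f a, fstN lst y = some a → (ρ (bY y)).unop (none, f) = (some (a, 1), f)) ∧
      (∀ κ f, nxt lst κ = none → (ρ (bY (el lst κ))).unop (some (κ, al lst κ), f) =
        (none, f * bY κ.1)) ∧
      (∀ κ f a, nxt lst κ = some a → (ρ (bY (el lst κ))).unop (some (κ, al lst κ), f) =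
        (some (a, 1), f)) := by
  classical
  choose σ hσ using fun y => exists_perm_extend (t06D lst y) (t06_D_fin lst y) (t06th lst y)
    (t06_injOn lst hl y)
  let sX : X → Equiv.Perm (Option (KM lst × FreeGroup X)) := fun x =>
    Equiv.optionCongr (Equiv.prodCongr (Equiv.refl _) (Equiv.mulRight (FreeGroup.of x)))
  let kX : X → Option (KM lst × FreeGroup X) → FreeGroup (X ⊕ Y) := fun x ω =>
    if ω = none then FreeGroup.of (Sum.inl x) else 1
  let kY : Y → Option (KM lst × FreeGroup X) → FreeGroup (X ⊕ Y) := fun y ω =>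
    match ω with
    | none => if fstN lst y = none then bY y else 1
    | some p => if nxt lst p.1 = none then bY p.1.1 else 1
  let ρ : FreeGroup (X ⊕ Y) →*
      (Equiv.Perm (Option (KM lst × FreeGroup X) × FreeGroup (X ⊕ Y)))ᵐᵒᵖ :=
    FreeGroup.lift (Sum.elim (fun x => MulOpposite.op (t06cp (sX x) (kX x)))
      (fun y => MulOpposite.op (t06cp (σ y) (kY y))))
  have e1 : ∀ x, (ρ (FreeGroup.of (Sum.inl x))).unop = t06cp (sX x) (kX x) := by
    intro x
    have e0 : ρ (FreeGroup.of (Sum.inl x)) = MulOpposite.op (t06cp (sX x) (kX x)) :=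
      FreeGroup.lift_apply_of
    rw [e0, MulOpposite.unop_op]
  have e2 : ∀ y, (ρ (bY y)).unop = t06cp (σ y) (kY y) := by
    intro y
    have e0 : ρ (bY y) = MulOpposite.op (t06cp (σ y) (kY y)) :=
      FreeGroup.lift_apply_of
    rw [e0, MulOpposite.unop_op]
  have e3 : ∀ y, σ y none = t06br lst (fstN lst y) := fun y => hσ y none (Or.inl rfl)
  have e4 : ∀ κ, σ (el lst κ) (some (κ, al lst κ)) = t06br lst (nxt lst κ) :=
    fun κ => hσ _ _ (Or.inr ⟨κ, rfl, rfl⟩)
  refine ⟨ρ, ?_, ?_, ?_, ?_, ?_, ?_⟩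
  · intro x f
    rw [e1]
    rfl
  · intro x κ g f
    rw [e1]
    show (some (κ, g * FreeGroup.of x), f * 1) = _
    rw [mul_one]
  · intro y f h
    rw [e2]
    show (σ y none, f * (if fstN lst y = none then bY y else 1)) = _
    rw [e3, if_pos h, h]
    rfl
  · intro y f a h
    rw [e2]
    show (σ y none, f * (if fstN lst y = none then bY y else 1)) = _
    rw [e3, h, if_neg (Option.some_ne_none _), mul_one]
    rfl
  · intro κ f h
    rw [e2]
    show (σ (el lst κ) (some (κ, al lst κ)), f * (if nxt lst κ = none then bY κ.1 else 1)) = _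
    rw [e4, if_pos h, h]
    rfl
  · intro κ f a h
    rw [e2]
    show (σ (el lst κ) (some (κ, al lst κ)), f * (if nxt lst κ = none then bY κ.1 else 1)) = _
    rw [e4, h, if_neg (Option.some_ne_none _), mul_one]
    rfl

theorem t06_ind {Z B S G : Type*} [Group B] [Group G] (ρ : B →* (Equiv.Perm S)ᵐᵒᵖ)
    (ψ : FreeGroup Z →* B) (χ : FreeGroup Z →* G) (pt : G → S)
    (h : ∀ z g, (ρ (ψ (FreeGroup.of z))).unop (pt g) = pt (g * χ (FreeGroup.of z)))
    (v : FreeGroup Z) (g : G) : (ρ (ψ v)).unop (pt g) = pt (g * χ v) := by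
  induction v using FreeGroup.induction_on generalizing g with
  | C1 =>
    rw [map_one, map_one, map_one, mul_one]
    rfl
  | of z => exact h z g
  | inv_of z ih =>
    have h1 := ih (g * (χ (FreeGroup.of z))⁻¹)
    rw [inv_mul_cancel_right] at h1
    rw [map_inv, map_inv, map_inv, MulOpposite.unop_inv, Equiv.Perm.inv_eq_iff_eq]
    exact h1.symm
  | mul x y hx hy =>
    rw [map_mul, map_mul, map_mul, MulOpposite.unop_mul, Equiv.Perm.mul_apply, hx, hy, mul_assoc]

theorem t06_tailW_snoc (l : List (FreeGroup X × Y)) (p : FreeGroup X × Y) :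
    tailW (l ++ [p]) = tailW l * (aX p.1 * bY p.2) := by
  unfold tailW
  rw [List.map_append, List.prod_append]
  simp

/-- the action of the words -/
theorem t06_words (hl : Function.Injective (lastY lst)) :
    ∃ ρ : FreeGroup (X ⊕ Y) →*
        (Equiv.Perm (Option (KM lst × FreeGroup X) × FreeGroup (X ⊕ Y)))ᵐᵒᵖ,
      (∀ a f, (ρ (QM lst a)).unop (none, f) = (t06br lst a, f)) ∧
      (∀ v f, (ρ (FreeGroup.lift (cM lst) v)).unop (none, f) = (none, f * v)) := by
  obtain ⟨ρ, h1, h2, h3, h4, h5, h6⟩ := t06_act lst hl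
  have hmul : ∀ v w p, (ρ (v * w)).unop p = (ρ w).unop ((ρ v).unop p) := by
    intro v w p
    rw [map_mul, MulOpposite.unop_mul, Equiv.Perm.mul_apply]
  -- letters of `X` at the nodes
  have k1 : ∀ κ (α : FreeGroup X) (g : FreeGroup X) (f : FreeGroup (X ⊕ Y)),
      (ρ (aX α)).unop (some (κ, g), f) = (some (κ, g * α), f) := by
    intro κ α g f
    exact t06_ind ρ (aX (X := X) (Y := Y)) (MonoidHom.id _)
      (fun g : FreeGroup X => ((some (κ, g), f) :
        Option (KM lst × FreeGroup X) × FreeGroup (X ⊕ Y)))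
      (by
        intro z g
        have h7 : aX (Y := Y) (FreeGroup.of z) = FreeGroup.of (Sum.inl z) := by
          unfold aX
          rw [FreeGroup.map.of]
        rw [h7]
        exact h2 z κ g f) α g
  -- walk to the node `i` of the word `j`
  have k2 : ∀ (j : Y) (i : ℕ) (hi : i < (lst j).length) (f : FreeGroup (X ⊕ Y)),
      (ρ (bY j * tailW ((lst j).take i))).unop (none, f) = (some (⟨j, ⟨i, hi⟩⟩, 1), f) := by
    intro j i
    induction i with
    | zero =>
      intro hi f
      have h7 : tailW ((lst j).take 0) = 1 := by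
        rw [List.take_zero]
        rfl
      rw [h7, mul_one]
      refine h4 j f ⟨j, ⟨0, hi⟩⟩ ?_
      unfold fstN
      rw [dif_pos hi]
    | succ i ih =>
      intro hi f
      have hi' : i < (lst j).length := by omega
      rw [List.take_succ_eq_append_getElem hi', t06_tailW_snoc, ← mul_assoc, hmul, ih hi' f, hmul]
      have h7 := k1 ⟨j, ⟨i, hi'⟩⟩ (al lst ⟨j, ⟨i, hi'⟩⟩) 1 f
      rw [one_mul] at h7
      have h8 : (ρ (aX ((lst j)[i]).1)).unop (some (⟨j, ⟨i, hi'⟩⟩, 1), f) =
          (some (⟨j, ⟨i, hi'⟩⟩, al lst ⟨j, ⟨i, hi'⟩⟩), f) := h7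
      rw [h8]
      refine h6 ⟨j, ⟨i, hi'⟩⟩ f ⟨j, ⟨i + 1, hi⟩⟩ ?_
      unfold nxt
      rw [dif_pos hi]
  have k3 : ∀ (j : Y) (f : FreeGroup (X ⊕ Y)),
      (ρ (WM lst j)).unop (none, f) = (none, f * bY j) := by
    intro j f
    unfold WM
    rcases Nat.eq_zero_or_pos (lst j).length with h7 | h7
    · have h8 : lst j = [] := List.eq_nil_of_length_eq_zero h7
      have h9 : tailW (lst j) = 1 := by
        rw [h8]
        rfl
      rw [h9, mul_one]
      refine h3 j f ?_
      unfold fstN
      rw [dif_neg (by omega)]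
    · obtain ⟨m, hm⟩ : ∃ m, (lst j).length = m + 1 := ⟨(lst j).length - 1, by omega⟩
      have hm' : m < (lst j).length := by omega
      have h8 : lst j = (lst j).take m ++ [(lst j)[m]] := by
        rw [← List.take_succ_eq_append_getElem hm', ← hm, List.take_length]
      have h9 : tailW (lst j) = tailW ((lst j).take m) *
          (aX ((lst j)[m]).1 * bY ((lst j)[m]).2) := by
        rw [← t06_tailW_snoc, ← h8]
      rw [h9, ← mul_assoc, hmul, k2 j m hm' f, hmul]
      have h10 := k1 ⟨j, ⟨m, hm'⟩⟩ (al lst ⟨j, ⟨m, hm'⟩⟩) 1 f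
      rw [one_mul] at h10
      have h11 : (ρ (aX ((lst j)[m]).1)).unop (some (⟨j, ⟨m, hm'⟩⟩, 1), f) =
          (some (⟨j, ⟨m, hm'⟩⟩, al lst ⟨j, ⟨m, hm'⟩⟩), f) := h10
      rw [h11]
      refine h5 ⟨j, ⟨m, hm'⟩⟩ f ?_
      unfold nxt
      exact dif_neg (by show ¬ m + 1 < (lst j).length; omega)
  refine ⟨ρ, ?_, ?_⟩
  · intro a f
    cases a with
    | none =>
      show (ρ 1).unop (none, f) = (none, f)
      rw [map_one]
      rfl
    | some κ => exact k2 κ.1 κ.2.1 κ.2.2 f
  · intro v f
    refine t06_ind ρ (FreeGroup.lift (cM lst)) (MonoidHom.id _)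
      (fun f : FreeGroup (X ⊕ Y) => ((none, f) :
        Option (KM lst × FreeGroup X) × FreeGroup (X ⊕ Y))) ?_ v f
    intro z f
    rw [FreeGroup.lift_apply_of]
    rcases z with x | j
    · exact h1 x f
    · exact k3 j f

theorem cM_injective (hl : Function.Injective (lastY lst)) :
    Function.Injective (FreeGroup.lift (cM lst)) := by
  obtain ⟨ρ, -, h2⟩ := t06_words lst hl
  rw [injective_iff_map_eq_one]
  intro v hv
  have h3 := h2 v 1
  rw [hv, map_one, one_mul] at h3
  exact (congrArg Prod.snd h3).symm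

theorem QM_coset_inj (hl : Function.Injective (lastY lst)) {a b : Option (KM lst)}
    (h : QM lst a * (QM lst b)⁻¹ ∈ CM lst) : a = b := by
  obtain ⟨ρ, h1, h2⟩ := t06_words lst hl
  obtain ⟨v, hv⟩ := h
  have h3 : QM lst a = FreeGroup.lift (cM lst) v * QM lst b := by
    rw [hv, inv_mul_cancel_right]
  have h4 := h1 a 1
  rw [h3, map_mul, MulOpposite.unop_mul, Equiv.Perm.mul_apply, h2, h1] at h4
  exact (t06_br_inj lst (congrArg Prod.fst h4)).symm

end LT
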