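import Pool.Agent.H29.LT.T01
import Pool.Agent.H29.LT.T03
import Pool.Agent.H29.LT.T04
import Pool.Agent.H29.LT.T05
import Pool.Agent.H29.LT.T06

/-!
# LT-T07: `log det` of the Fox Jacobian of a malnormal monotone subgroup is positive

`Nonempty (KM lst)`: otherwise all `lst j = []`, `WM j = b_j`, and `CM lst = ⊤`.
`hcomb` of `exists_LB_fhat`: if `Z ≠ 0`, `exists_cycle` gives `p`, `g` with `Pth p p g`, `p.1 ≠ p.2`.
By `Pth_coset`, `c = QM p.1 * g * (QM p.1)⁻¹ ∈ C` and `QM p.2 * g * (QM p.2)⁻¹ ∈ C`; with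
`γ = QM p.2 * (QM p.1)⁻¹` the latter is `γ c γ⁻¹`.  `c ≠ 1` (`Pth_ne_one`).  By malnormality `γ ∈ C`,
so `p.2 = p.1` (`QM_coset_inj`), a contradiction.
-/

set_option linter.unusedSectionVars false

namespace LT

variable {X Y : Type*} [Fintype X] [DecidableEq X] [Fintype Y] [DecidableEq Y]
variable (lst : Y → List (FreeGroup X × Y))

omit [Fintype X] [Fintype Y] in
theorem t07_nonempty (hne : CM lst ≠ ⊤) : Nonempty (KM lst) := by
  by_contra hK
  rw [not_nonempty_iff] at hK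
  have hnil : ∀ j, lst j = [] := fun j => by
    by_contra hj
    exact hK.elim ⟨j, ⟨0, List.length_pos_of_ne_nil hj⟩⟩
  apply hne
  have hc : cM lst = FreeGroup.of := by
    funext k
    rcases k with x | j
    · rfl
    · simp [cM, WM, hnil j, tailW, bY]
  unfold CM
  rw [hc, MonoidHom.range_eq_top]
  intro g
  exact ⟨g, by
    have : (FreeGroup.lift (FreeGroup.of : X ⊕ Y → FreeGroup (X ⊕ Y))) = MonoidHom.id _ :=
      FreeGroup.ext_hom _ _ (fun a => by simp)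
    rw [this]; rfl⟩

theorem exists_LB_jacobian (hl : Function.Injective (lastY lst)) (hne : CM lst ≠ ⊤)
    (hmal : ∀ γ : FreeGroup (X ⊕ Y), γ ∉ CM lst → ∀ c ∈ CM lst, γ * c * γ⁻¹ ∈ CM lst → c = 1) :
    ∃ c : ℝ, 0 < c ∧ LB (fun k b => fox b (cM lst k)
      : Matrix (X ⊕ Y) (X ⊕ Y) (MonoidAlgebra ℂ (FreeGroup (X ⊕ Y)))) c := by
  have : Nonempty (KM lst) := t07_nonempty lst hne
  obtain ⟨c, hc, h⟩ := exists_LB_fhat lst hl (fun Z hZ hs hinv => by
    by_contra h0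
    obtain ⟨p, g, hp, hP⟩ := exists_cycle lst hZ hs hinv h0
    obtain ⟨h1, h2⟩ := Pth_coset lst hP
    have hg : g ≠ 1 := Pth_ne_one lst hP
    by_cases hγ : QM lst p.2 * (QM lst p.1)⁻¹ ∈ CM lst
    · exact hp (QM_coset_inj lst hl hγ).symm
    · have h3 := hmal _ hγ _ h1 (by
        have e : QM lst p.2 * (QM lst p.1)⁻¹ * (QM lst p.1 * g * (QM lst p.1)⁻¹)
            * (QM lst p.2 * (QM lst p.1)⁻¹)⁻¹ = QM lst p.2 * g * (QM lst p.2)⁻¹ := by group
        rw [e]; exact h2)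
      exact hg (by
        have e : g = (QM lst p.1)⁻¹ * (QM lst p.1 * g * (QM lst p.1)⁻¹) * QM lst p.1 := by group
        rw [e, h3]; group))
  exact ⟨c, hc, LB_J lst (LB_of_fhat lst h)⟩

end LT
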