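import Mathlib

/-!
# LT: the group von Neumann algebra `N(G)` and its trace (definitions)
-/

namespace LT

open scoped InnerProductSpace

/-- The Hilbert space `ℓ²(G)`. -/
def l2 (G : Type*) : Type _ := lp (fun _ : G => ℂ) 2

noncomputable instance (G : Type*) : NormedAddCommGroup (l2 G) :=
  @lp.normedAddCommGroup G (fun _ => ℂ) 2 _ _

noncomputable instance (G : Type*) : InnerProductSpace ℂ (l2 G) :=
  (inferInstance : InnerProductSpace ℂ (lp (fun _ : G => ℂ) 2))

instance (G : Type*) : CompleteSpace (l2 G) :=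
  (inferInstance : CompleteSpace (lp (fun _ : G => ℂ) 2))

instance (G : Type*) : CoeFun (l2 G) fun _ => G → ℂ :=
  ⟨fun ξ => @Subtype.val _ (fun x => x ∈ lp (fun _ : G => ℂ) 2) ξ⟩

theorem memlp_comp {G : Type*} (σ : Equiv.Perm G) (ξ : l2 G) :
    Memℓp (fun h => ξ (σ.symm h)) 2 := by
  have h2 : (0 : ℝ) < (2 : ENNReal).toReal := by norm_num
  rw [memℓp_gen_iff h2]
  have := (memℓp_gen_iff h2).1 (lp.memℓp (E := fun _ : G => ℂ) ξ)
  exact (Equiv.summable_iff σ.symm).2 this

/-- The element of `ℓ²(G)` with given coefficients. -/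
def l2.mk {G : Type*} (f : G → ℂ) (hf : Memℓp f 2) : l2 G := ⟨f, hf⟩

@[ext] theorem l2.ext {G : Type*} {ξ η : l2 G} (h : ∀ g, ξ g = η g) : ξ = η :=
  lp.ext (E := fun _ : G => ℂ) (funext h)

theorem l2.inner_eq_tsum {G : Type*} (ξ η : l2 G) :
    @inner ℂ (l2 G) InnerProductSpace.toInner ξ η =
      ∑' g, @inner ℂ ℂ InnerProductSpace.toInner (ξ g) (η g) :=
  lp.inner_eq_tsum (𝕜 := ℂ) (G := fun _ : G => ℂ) ξ η

theorem l2.hasSum_inner {G : Type*} (ξ η : l2 G) :
    HasSum (fun g => @inner ℂ ℂ InnerProductSpace.toInner (ξ g) (η g))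
      (@inner ℂ (l2 G) InnerProductSpace.toInner ξ η) :=
  lp.hasSum_inner (𝕜 := ℂ) (G := fun _ : G => ℂ) ξ η

theorem l2.norm_apply_le {G : Type*} (ξ : l2 G) (g : G) : ‖ξ g‖ ≤ ‖ξ‖ :=
  lp.norm_apply_le_norm (E := fun _ : G => ℂ) (by norm_num) ξ g

theorem l2.memlp {G : Type*} (ξ : l2 G) : Memℓp (fun g => ξ g) 2 :=
  lp.memℓp (E := fun _ : G => ℂ) ξ

theorem l2.norm_eq_tsum {G : Type*} (ξ : l2 G) :
    ‖ξ‖ = (∑' g, ‖ξ g‖ ^ (2 : ENNReal).toReal) ^ (1 / (2 : ENNReal).toReal) :=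
  lp.norm_eq_tsum_rpow (E := fun _ : G => ℂ) (by norm_num) ξ

/-- The unitary operator of `ℓ²(G)` given by a permutation `σ` of `G`:
`(permU σ ξ) h = ξ (σ⁻¹ h)`, i.e. `δ_h ↦ δ_{σ h}`. -/
noncomputable def permU {G : Type*} (σ : Equiv.Perm G) : l2 G →L[ℂ] l2 G :=
  LinearMap.mkContinuous
    { toFun := fun ξ => l2.mk (fun h => ξ (σ.symm h)) (memlp_comp σ ξ)
      map_add' := fun ξ η => l2.ext fun h => rfl
      map_smul' := fun c ξ => l2.ext fun h => rfl } 1 (by
    intro ξ
    have h2 : (0 : ℝ) < (2 : ENNReal).toReal := by norm_num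
    rw [one_mul]
    apply le_of_eq
    exact (lp.norm_eq_tsum_rpow (E := fun _ : G => ℂ) h2 _).trans ((congrArg (· ^ (1 / (2 : ENNReal).toReal))
      (Equiv.tsum_eq σ.symm (fun h => ‖ξ h‖ ^ (2 : ENNReal).toReal))).trans
      (lp.norm_eq_tsum_rpow (E := fun _ : G => ℂ) h2 _).symm))

/-- The C*-algebra of all bounded operators of `ℓ²(G)`. -/
def BL (G : Type*) : Type _ := l2 G →L[ℂ] l2 G

noncomputable instance (G : Type*) : CStarAlgebra (BL G) :=
  (inferInstance : CStarAlgebra (l2 G →L[ℂ] l2 G))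

/-- The group von Neumann algebra of `G`: the bounded operators of `ℓ²(G)` commuting with all
right translations `δ_h ↦ δ_{h g}`. -/
noncomputable def vN (G : Type*) [Group G] : StarSubalgebra ℂ (BL G) :=
  StarSubalgebra.centralizer ℂ (Set.range fun g : G => (permU (Equiv.mulRight g) : BL G))

/-- `N(G)` as a type. -/
def N (G : Type*) [Group G] : Type _ := vN G

theorem vN_isClosed (G : Type*) [Group G] : IsClosed (vN G : Set (BL G)) := by
  rw [vN, StarSubalgebra.coe_centralizer]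
  exact Set.isClosed_centralizer _

noncomputable instance (G : Type*) [Group G] : CStarAlgebra (N G) :=
  @StarSubalgebra.cstarAlgebra (StarSubalgebra ℂ (BL G)) (BL G) _ _ StarSubalgebra.subringClass _ _
    (vN G) (vN_isClosed G)

noncomputable instance (G : Type*) [Group G] : PartialOrder (N G) :=
  CStarAlgebra.spectralOrder (N G)

instance (G : Type*) [Group G] : StarOrderedRing (N G) :=
  CStarAlgebra.spectralOrderedRing (N G)

/-- The operator underlying an element of `N(G)`. -/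
noncomputable def N.op {G : Type*} [Group G] (T : N G) : l2 G →L[ℂ] l2 G := T.1

end LT
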